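import Pool.Agent.T2h77N.Api

/-!
# The bound for the number of fixed points
-/

set_option autoImplicit false

open MeasureTheory Matrix
open scoped MatrixGroups ENNReal Topology

noncomputable section

namespace Pool.Agent.T2h77.N

theorem fx_conj {n N : ℕ} (H : Subgroup (GN n N)) (g b : GN n N) : fx H (g * b * g⁻¹) = fx H b := by
  unfold fx
  refine Nat.card_congr ⟨fun c => ⟨g⁻¹ • c.1, ?_⟩, fun c => ⟨g • c.1, ?_⟩, fun c => ?_, fun c => ?_⟩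
  · have h := c.2
    rw [mul_smul, mul_smul] at h
    rw [eq_inv_smul_iff]
    exact h
  · have h := c.2
    rw [mul_smul, mul_smul, inv_smul_smul, h]
  · exact Subtype.ext (smul_inv_smul _ _)
  · exact Subtype.ext (inv_smul_smul _ _)

theorem fx_le {n N : ℕ} [NeZero N] (H : Subgroup (GN n N)) (b : GN n N) : fx H b ≤ H.index := by
  unfold fx
  rw [Subgroup.index]
  exact Nat.card_le_card_of_injective (fun c : {c : XX H // b • c = c} => c.1) Subtype.val_injective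

theorem fix_aux {E A₁ A₂ C₁ C₂ Z q f m s i : ℕ} (hE : E = 3 * A₁ * A₂) (hf : f ≤ m) (hq : q * f ≤ 2 * m) (hZ : 1 ≤ Z)
    (hs : s ≤ (C₁ * Z * q) ^ A₁ * (C₁ * Z * q) ^ A₁) (hi : i ≤ (C₂ * s * (C₁ * Z * q) ^ A₁) ^ A₂) :
    f ^ (E + 1) * i ≤ ((C₂ ^ A₂ + 1) * (2 * C₁ + 1) * Z) ^ (E + 1) * m ^ (E + 1) := by
  have h1 : i ≤ C₂ ^ A₂ * (C₁ * Z * q) ^ E := by
    calc i ≤ (C₂ * s * (C₁ * Z * q) ^ A₁) ^ A₂ := hi
      _ ≤ (C₂ * ((C₁ * Z * q) ^ A₁ * (C₁ * Z * q) ^ A₁) * (C₁ * Z * q) ^ A₁) ^ A₂ := by gcongr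
      _ = C₂ ^ A₂ * (C₁ * Z * q) ^ E := by
          rw [hE, mul_assoc, mul_pow, ← pow_add, ← pow_add, ← pow_mul]
          congr 2
          ring
  have g1 : C₂ ^ A₂ ≤ (C₂ ^ A₂ + 1) ^ (E + 1) :=
    calc C₂ ^ A₂ ≤ C₂ ^ A₂ + 1 := Nat.le_succ _
      _ = (C₂ ^ A₂ + 1) ^ 1 := (pow_one _).symm
      _ ≤ (C₂ ^ A₂ + 1) ^ (E + 1) := Nat.pow_le_pow_right (Nat.succ_pos _) (by omega)
  have g2 : (2 * C₁) ^ E ≤ (2 * C₁ + 1) ^ (E + 1) :=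
    calc (2 * C₁) ^ E ≤ (2 * C₁ + 1) ^ E := Nat.pow_le_pow_left (Nat.le_succ _) _
      _ ≤ (2 * C₁ + 1) ^ (E + 1) := Nat.pow_le_pow_right (Nat.succ_pos _) (by omega)
  have g3 : Z ^ E ≤ Z ^ (E + 1) := Nat.pow_le_pow_right hZ (by omega)
  calc f ^ (E + 1) * i ≤ f ^ (E + 1) * (C₂ ^ A₂ * (C₁ * Z * q) ^ E) := by gcongr
    _ = f * C₂ ^ A₂ * (C₁ * Z * (q * f)) ^ E := by
        rw [pow_succ, mul_pow, mul_pow (C₁ * Z) (q * f), mul_pow q f]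
        ring
    _ ≤ m * C₂ ^ A₂ * (C₁ * Z * (2 * m)) ^ E := by gcongr
    _ = C₂ ^ A₂ * (2 * C₁) ^ E * Z ^ E * m ^ (E + 1) := by
        rw [pow_succ, mul_pow, mul_pow, mul_pow, mul_pow]
        ring
    _ ≤ (C₂ ^ A₂ + 1) ^ (E + 1) * (2 * C₁ + 1) ^ (E + 1) * Z ^ (E + 1) * m ^ (E + 1) :=
        Nat.mul_le_mul (Nat.mul_le_mul (Nat.mul_le_mul g1 g2) g3) le_rfl
    _ = _ := by rw [mul_pow, mul_pow]

theorem fix (hA : S_fixA) (hB : S_fixB) (hp : S_prim) : S_fix := by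
  intro n hn
  obtain ⟨n', rfl⟩ : ∃ n', n = n' + 2 := ⟨n - 2, by omega⟩
  obtain ⟨A₁, C₁, h1⟩ := hA (n' + 2) hn
  obtain ⟨A₂, C₂, h2⟩ := hB n'
  refine ⟨3 * A₁ * A₂ + 1, (C₂ ^ A₂ + 1) * (2 * C₁ + 1), by omega, ?_⟩
  intro N _ H Z B b z hZ hBZ hB1 hdet hb
  set f := fx H b with hf
  set m := H.index with hm
  have hfm : f ≤ m := fx_le H b
  rcases Nat.eq_zero_or_pos f with h0 | h0
  · rw [h0]
    simp
  · set q := m / f + 1 with hq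
    have hq1 : m ≤ q * f := by
      have := Nat.lt_div_mul_add (a := m) h0
      rw [hq, add_mul, one_mul]
      omega
    have hq2 : q * f ≤ 2 * m := by
      have := Nat.div_mul_le_self m f
      rw [hq, add_mul, one_mul]
      omega
    obtain ⟨w, φ, hw, hφ, hφw, hwb, hφb, hm2⟩ := h1 N H Z q B b z hZ (Nat.succ_pos _) hBZ hB1 hdet hb hq1
    obtain ⟨g, s, hs, ⟨i, j, hsb⟩, hg⟩ := hp n' w φ hw hφ hφw
    have e : fx H (rdM N (1 + Matrix.vecMulVec w φ)) = fx H (rdM N (tv 0 1 (by simp) s : GZ (n' + 2)).1) := by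
      rw [hg]
      have : rdM N ((g * tv 0 1 (by simp) s * g⁻¹ : GZ (n' + 2)) : MZ (n' + 2)) =
          rdM N (g : MZ (n' + 2)) * rdM N (tv 0 1 (by simp) s : GZ (n' + 2)).1 * (rdM N (g : MZ (n' + 2)))⁻¹ := by
        rw [rdM_coe_mul, rdM_coe_mul, rdM_inv]
      rw [this]
      exact fx_conj H _ _
    have hmpos : 0 < m := Nat.lt_of_lt_of_le h0 hfm
    have hq3 : 1 ≤ (C₁ * Z * q) ^ A₁ := by
      by_contra hcon
      have : (C₁ * Z * q) ^ A₁ = 0 := by omega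
      rw [this] at hm2
      omega
    have h3 := h2 N H s ((C₁ * Z * q) ^ A₁) hs hq3 (by rw [← e]; exact hm2)
    refine fix_aux rfl hfm hq2 hZ ?_ h3
    have h4 : |s| ≤ ((C₁ * Z * q : ℕ) : ℤ) ^ A₁ * ((C₁ * Z * q : ℕ) : ℤ) ^ A₁ :=
      hsb.trans (mul_le_mul (hwb i) (hφb j) (abs_nonneg _) (by positivity))
    have h5 : (s.natAbs : ℤ) ≤ (((C₁ * Z * q) ^ A₁ * (C₁ * Z * q) ^ A₁ : ℕ) : ℤ) := by
      rw [Int.natCast_natAbs]
      push_cast at h4 ⊢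
      exact h4
    exact_mod_cast h5

end Pool.Agent.T2h77.N
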