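import Pool.Agent.T2h77N.Stm

/-!
# From an element with many fixed points to a transvection with many fixed points
-/

set_option autoImplicit false

open Matrix

namespace Pool.Agent.T2h77.N.FA

/-! ### The pigeonhole principle -/

section Pig

variable {G X : Type} [Group G] [MulAction G X]

/-- the number of the fixed points -/
noncomputable def nf (X : Type) [MulAction G X] (g : G) : ℕ := Nat.card {x : X // g • x = x}

theorem nf_conj (u b : G) : nf X (u * b * u⁻¹) = nf X b := by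
  unfold nf
  refine Nat.card_congr ⟨fun x => ⟨u⁻¹ • x.1, ?_⟩, fun x => ⟨u • x.1, ?_⟩, ?_, ?_⟩
  · have h := congrArg (fun y => u⁻¹ • y) x.2
    simpa only [mul_smul, inv_smul_smul] using h
  · have h := x.2
    rw [mul_smul, mul_smul, inv_smul_smul, h]
  · intro x
    simp
  · intro x
    simp

theorem pig [Finite X] [Nonempty X] (g : ℕ → G) (q T : ℕ) (hT : 1 ≤ T)
    (hq : 1 ≤ q) (hfix : ∀ a ∈ Finset.Icc 1 T, Nat.card X ≤ q * nf X (g a)) {ι : Type}
    (I : Finset ι) (h : ι → G)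
    (H : ∀ S ⊆ Finset.Icc 1 T, T ≤ 2 * q * S.card → ∃ i ∈ I, ∀ δ : X, (∀ a ∈ S, g a • δ = δ) →
      h i • δ = δ) : ∃ i ∈ I, Nat.card X ≤ 2 * q * I.card * nf X (h i) := by
  classical
  have _ := Fintype.ofFinite X
  set S : X → Finset ℕ := fun δ => (Finset.Icc 1 T).filter fun a => g a • δ = δ with hS
  have hnf : ∀ k : G, nf X k = (Finset.univ.filter fun δ : X => k • δ = δ).card := by
    intro k
    unfold nf
    rw [Nat.card_eq_fintype_card, Fintype.card_subtype]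
  have hm : Nat.card X = Fintype.card X := Nat.card_eq_fintype_card
  -- double counting
  have e1 : ∑ a ∈ Finset.Icc 1 T, nf X (g a) = ∑ δ : X, (S δ).card := by
    simp only [hnf, hS, Finset.card_filter]
    exact Finset.sum_comm
  have e2 : T * Nat.card X ≤ q * ∑ δ : X, (S δ).card := by
    rw [← e1, Finset.mul_sum]
    calc T * Nat.card X = ∑ a ∈ Finset.Icc 1 T, Nat.card X := by
          rw [Finset.sum_const, Nat.card_Icc, smul_eq_mul]; simp
      _ ≤ _ := Finset.sum_le_sum hfix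
  set good : Finset X := Finset.univ.filter fun δ => T ≤ 2 * q * (S δ).card with hgood
  have e3 : 2 * q * ∑ δ : X, (S δ).card ≤ 2 * q * (good.card * T) + Nat.card X * T := by
    have h1 : ∀ δ : X, 2 * q * (S δ).card ≤ (if δ ∈ good then 2 * q * T else 0) + T := by
      intro δ
      have hle : (S δ).card ≤ T := by
        refine (Finset.card_filter_le _ _).trans ?_
        rw [Nat.card_Icc]; simp
      split_ifs with hδ
      · have := Nat.mul_le_mul_left (2 * q) hle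
        omega
      · have : ¬ T ≤ 2 * q * (S δ).card := fun hh => hδ (Finset.mem_filter.2 ⟨Finset.mem_univ _, hh⟩)
        omega
    calc 2 * q * ∑ δ : X, (S δ).card = ∑ δ : X, 2 * q * (S δ).card := Finset.mul_sum _ _ _
      _ ≤ ∑ δ : X, ((if δ ∈ good then 2 * q * T else 0) + T) := Finset.sum_le_sum fun δ _ => h1 δ
      _ = _ := by
          rw [Finset.sum_add_distrib, Finset.sum_const, Finset.card_univ, smul_eq_mul, hm,
            Finset.sum_ite_mem, Finset.univ_inter, Finset.sum_const, smul_eq_mul]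
          ring
  have e4 : Nat.card X ≤ 2 * q * good.card := by
    have h1 : T * (2 * Nat.card X) ≤ T * (2 * q * good.card + Nat.card X) := by
      calc T * (2 * Nat.card X) = 2 * (T * Nat.card X) := by ring
        _ ≤ 2 * (q * ∑ δ : X, (S δ).card) := Nat.mul_le_mul_left _ e2
        _ = 2 * q * ∑ δ : X, (S δ).card := by ring
        _ ≤ 2 * q * (good.card * T) + Nat.card X * T := e3
        _ = _ := by ring
    have h2 := Nat.le_of_mul_le_mul_left h1 (by omega)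
    omega
  have hI : I.Nonempty := by
    obtain ⟨i, hi, -⟩ := H (Finset.Icc 1 T) (Finset.Subset.refl _) (by
      rw [Nat.card_Icc, Nat.add_sub_cancel]
      nlinarith)
    exact ⟨i, hi⟩
  have e5 : good ⊆ I.biUnion fun i => Finset.univ.filter fun δ : X => h i • δ = δ := by
    intro δ hδ
    obtain ⟨i, hi, hfx⟩ := H (S δ) (Finset.filter_subset _ _) (Finset.mem_filter.1 hδ).2
    rw [Finset.mem_biUnion]
    exact ⟨i, hi, Finset.mem_filter.2 ⟨Finset.mem_univ _, hfx δ fun a ha => (Finset.mem_filter.1 ha).2⟩⟩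
  obtain ⟨i, hi, hmax⟩ := Finset.exists_max_image I (fun i => nf X (h i)) hI
  refine ⟨i, hi, e4.trans ?_⟩
  have e6 : good.card ≤ I.card * nf X (h i) := by
    refine (Finset.card_le_card e5).trans (Finset.card_biUnion_le.trans ?_)
    rw [← smul_eq_mul, ← Finset.sum_const]
    refine Finset.sum_le_sum fun j hj => ?_
    rw [← hnf]
    exact hmax j hj
  calc 2 * q * good.card ≤ 2 * q * (I.card * nf X (h i)) := Nat.mul_le_mul_left _ e6
    _ = _ := by ring

end Pig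

/-! ### Matrices -/

section Mat

variable {n : Type} [Fintype n] [DecidableEq n] {R : Type} [CommRing R]

/-- unipotent elements -/
def un (M : Matrix n n R) (h : M * M = 0) : (Matrix n n R)ˣ where
  val := 1 + M
  inv := 1 - M
  val_inv := by
    have : (1 + M) * (1 - M) = 1 - M * M := by noncomm_ring
    rw [this, h, sub_zero]
  inv_val := by
    have : (1 - M) * (1 + M) = 1 - M * M := by noncomm_ring
    rw [this, h, sub_zero]

theorem un_val (M : Matrix n n R) (h : M * M = 0) : (un M h).val = 1 + M := rfl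

theorem un_inv_val (M : Matrix n n R) (h : M * M = 0) : (un M h)⁻¹.val = 1 - M := rfl

theorem three (x y x' : Matrix n n R) (h1 : x * y = 0) (h2 : x * x' = 0) :
    (1 + x) * (1 + y) * (1 - x') = 1 + x + y - x' - y * x' := by
  have : (1 + x) * (1 + y) * (1 - x') = 1 + x + y - x' - y * x' - x * x' + x * y - x * y * x' := by
    noncomm_ring
  rw [this, h1, h2, zero_mul, sub_zero, add_zero, sub_zero]

/-- conjugation of a transvection by `b = z B` -/
theorem conj_tr (b : (Matrix n n R)ˣ) (B : Matrix n n R) (z : R) (hb : b.val = z • B) (w φ : n → R) (x : R) :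
    b.val * (x • (B.det • vecMulVec w φ)) * b⁻¹.val =
      x • vecMulVec (B *ᵥ w) (φ ᵥ* B.adjugate) := by
  have h1 : b.val * (x • (B.det • vecMulVec w φ)) =
      (x • vecMulVec (B *ᵥ w) (φ ᵥ* B.adjugate)) * b.val := by
    rw [hb, smul_mul_assoc, mul_smul_comm, mul_smul_comm, mul_smul_comm, smul_mul_assoc,
      vecMulVec_mul, mul_vecMulVec, vecMul_vecMul, adjugate_mul, vecMul_smul, vecMul_one,
      vecMulVec_smul, smul_comm z x]
  rw [h1, mul_assoc, Units.mul_inv, mul_one]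

theorem smul_sq {M : Matrix n n R} (h : M * M = 0) (x : R) : (x • M) * (x • M) = 0 := by
  rw [smul_mul_assoc, mul_smul_comm, h, smul_zero, smul_zero]

omit [DecidableEq n] in
theorem vm_mul (u v w x : n → R) : vecMulVec u v * vecMulVec w x = (v ⬝ᵥ w) • vecMulVec u x := by
  rw [vecMulVec_mul_vecMulVec, vecMulVec_smul]

/-- the quotient of two conjugates -/
theorem quot_val {E : Matrix n n R} (hE : E * E = 0) (b : (Matrix n n R)ˣ) {A : Matrix n n R}
    (hA : ∀ x : R, b.val * (x • E) * b⁻¹.val = x • A) (hEA : E * A = 0) (a a' : R) :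
    ((un (a • E) (smul_sq hE a) * b * (un (a • E) (smul_sq hE a))⁻¹) *
      (un (a' • E) (smul_sq hE a') * b * (un (a' • E) (smul_sq hE a'))⁻¹)⁻¹).val =
      1 + (a' - a) • A - (a' - a) • E - ((a' - a) * a') • (A * E) := by
  have h1 : ((un (a • E) (smul_sq hE a) * b * (un (a • E) (smul_sq hE a))⁻¹) *
      (un (a' • E) (smul_sq hE a') * b * (un (a' • E) (smul_sq hE a'))⁻¹)⁻¹) =
      un (a • E) (smul_sq hE a) * (b * ((un (a • E) (smul_sq hE a))⁻¹ *
        un (a' • E) (smul_sq hE a')) * b⁻¹) * (un (a' • E) (smul_sq hE a'))⁻¹ := by group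
  rw [h1]
  simp only [Units.val_mul, un_val, un_inv_val]
  have h2 : (1 - a • E) * (1 + a' • E) = 1 + (a' - a) • E := by
    have aux : ∀ x y : Matrix n n R, (1 - x) * (1 + y) = 1 + y - x - x * y := by
      intro x y
      noncomm_ring
    rw [aux, smul_mul_assoc, mul_smul_comm, hE, smul_zero, smul_zero, sub_zero, sub_smul]
    abel
  have h3 : b.val * (1 + (a' - a) • E) * b⁻¹.val = 1 + (a' - a) • A := by
    rw [mul_add, add_mul, hA, mul_one, Units.mul_inv]
  rw [h2, h3, three]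
  · rw [smul_mul_assoc, mul_smul_comm, smul_smul, sub_smul, sub_smul]
    abel
  · rw [smul_mul_assoc, mul_smul_comm, hEA, smul_zero, smul_zero]
  · rw [smul_mul_assoc, mul_smul_comm, hE, smul_zero, smul_zero]

end Mat

section Step

variable {n : Type} [Fintype n] [DecidableEq n] {R : Type} [CommRing R] {b : (Matrix n n R)ˣ}
  {B : Matrix n n R} {z : R} (hb : b.val = z • B) {w φ : n → R} (h0 : φ ⬝ᵥ w = 0)
  (h1 : φ ⬝ᵥ (B *ᵥ w) = 0)

include h0 in
theorem EE : (B.det • vecMulVec w φ) * (B.det • vecMulVec w φ) = 0 := by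
  rw [smul_mul_assoc, mul_smul_comm, vm_mul, h0, zero_smul, smul_zero, smul_zero]

/-- the conjugates of `b` -/
def cj (b : (Matrix n n R)ˣ) {M : Matrix n n R} (hM : M * M = 0) (a : R) : (Matrix n n R)ˣ :=
  un (a • M) (smul_sq hM a) * b * (un (a • M) (smul_sq hM a))⁻¹

include h1 in
theorem EA : (B.det • vecMulVec w φ) * vecMulVec (B *ᵥ w) (φ ᵥ* B.adjugate) = 0 := by
  rw [smul_mul_assoc, vm_mul, h1, zero_smul, smul_zero]

theorem dot' : (φ ᵥ* B.adjugate) ⬝ᵥ (B *ᵥ w) = B.det * (φ ⬝ᵥ w) := by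
  rw [← dotProduct_mulVec, mulVec_mulVec, adjugate_mul, smul_mulVec, one_mulVec, dotProduct_smul,
    smul_eq_mul]

include hb h1 in
theorem cj_val (a a' : R) : (cj b (EE (B := B) h0) a * (cj b (EE (B := B) h0) a')⁻¹).val =
    1 + (a' - a) • vecMulVec (B *ᵥ w) (φ ᵥ* B.adjugate) - (a' - a) • (B.det • vecMulVec w φ) -
      ((a' - a) * a' * (B.det * ((φ ᵥ* B.adjugate) ⬝ᵥ w))) • vecMulVec (B *ᵥ w) φ := by
  have := quot_val (EE (B := B) h0) b (A := vecMulVec (B *ᵥ w) (φ ᵥ* B.adjugate))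
    (fun x => conj_tr b B z hb w φ x) (EA h1) a a'
  unfold cj
  rw [this, mul_smul_comm, vm_mul]
  congr 1
  rw [smul_smul, smul_smul, mul_assoc ((a' - a) * a')]

include hb h1 in
/-- the case `c ≠ 0` -/
theorem caseA {a₁ a₁' a₂ a₂' t : R} (e1 : a₁' - a₁ = t) (e2 : a₂' - a₂ = t)
    (hP : vecMulVec (B *ᵥ w) φ * vecMulVec (B *ᵥ w) φ = 0) :
    cj b (EE (B := B) h0) a₁ * (cj b (EE (B := B) h0) a₁')⁻¹ =
      un ((t * (a₂' - a₁') * (B.det * ((φ ᵥ* B.adjugate) ⬝ᵥ w))) • vecMulVec (B *ᵥ w) φ)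
        (smul_sq hP _) * (cj b (EE (B := B) h0) a₂ * (cj b (EE (B := B) h0) a₂')⁻¹) := by
  apply Units.ext
  rw [cj_val hb h0 h1 a₁ a₁', Units.val_mul, cj_val hb h0 h1 a₂ a₂', un_val, e1, e2]
  set c := (φ ᵥ* B.adjugate) ⬝ᵥ w
  have h2 : vecMulVec (B *ᵥ w) φ * (1 + t • vecMulVec (B *ᵥ w) (φ ᵥ* B.adjugate) -
      t • (B.det • vecMulVec w φ) - (t * a₂' * (B.det * c)) • vecMulVec (B *ᵥ w) φ) =
      vecMulVec (B *ᵥ w) φ := by
    rw [mul_sub, mul_sub, mul_add, mul_one, mul_smul_comm, mul_smul_comm, mul_smul_comm,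
      mul_smul_comm, vm_mul, vm_mul, h1, h0, hP]
    simp
  rw [add_mul, one_mul, smul_mul_assoc, h2]
  have : (t * (a₂' - a₁') * (B.det * c)) • vecMulVec (B *ᵥ w) φ =
      (t * a₂' * (B.det * c)) • vecMulVec (B *ᵥ w) φ - (t * a₁' * (B.det * c)) • vecMulVec (B *ᵥ w) φ := by
    rw [← sub_smul]
    congr 1
    ring
  rw [this]
  abel

include hb h1 in
/-- the case `c = 0`, first step -/
theorem caseB (hc : (φ ᵥ* B.adjugate) ⬝ᵥ w = 0) :
    ∃ hZ : (vecMulVec (B *ᵥ w) (φ ᵥ* B.adjugate) - B.det • vecMulVec w φ) *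
      (vecMulVec (B *ᵥ w) (φ ᵥ* B.adjugate) - B.det • vecMulVec w φ) = 0,
    ∀ a a' : R, cj b (EE (B := B) h0) a * (cj b (EE (B := B) h0) a')⁻¹ =
      un ((a' - a) • (vecMulVec (B *ᵥ w) (φ ᵥ* B.adjugate) - B.det • vecMulVec w φ))
        (smul_sq hZ _) := by
  have hZ : (vecMulVec (B *ᵥ w) (φ ᵥ* B.adjugate) - B.det • vecMulVec w φ) *
      (vecMulVec (B *ᵥ w) (φ ᵥ* B.adjugate) - B.det • vecMulVec w φ) = 0 := by
    rw [mul_sub, sub_mul, sub_mul, EE h0, EA h1, vm_mul, dot', h0, mul_smul_comm, vm_mul, hc]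
    simp
  refine ⟨hZ, fun a a' => ?_⟩
  apply Units.ext
  rw [cj_val hb h0 h1, un_val, hc, smul_sub]
  simp only [mul_zero, zero_smul, sub_zero]
  abel

omit [DecidableEq n] in
theorem sq_vm {u v : n → R} (h : v ⬝ᵥ u = 0) : vecMulVec u v * vecMulVec u v = 0 := by
  rw [vm_mul, h, zero_smul]

/-- the case `c = 0`, second step -/
theorem caseC {M V : Matrix n n R} (hM : M * M = 0) (hV : V * V = 0) (hMV : M * V = 0) :
    ∃ hQ : (V * M) * (V * M) = 0, ∀ a a' : R, cj (un M hM) hV a * (cj (un M hM) hV a')⁻¹ =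
      un ((-(a' - a)) • (V * M)) (smul_sq hQ _) := by
  have hQ : (V * M) * (V * M) = 0 := by
    rw [mul_assoc, ← mul_assoc M, hMV, zero_mul, mul_zero]
  refine ⟨hQ, fun a a' => ?_⟩
  have hA : ∀ x : R, (un M hM).val * (x • V) * (un M hM)⁻¹.val = x • (V - V * M) := by
    intro x
    rw [un_val, un_inv_val, add_mul, one_mul, mul_smul_comm, hMV, smul_zero, add_zero, mul_sub,
      mul_one, smul_sub, smul_mul_assoc]
  have hEA : V * (V - V * M) = 0 := by
    rw [mul_sub, ← mul_assoc, hV, zero_mul, sub_zero]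
  have := quot_val hV (un M hM) hA hEA a a'
  have h4 : (V - V * M) * V = 0 := by
    rw [sub_mul, hV, mul_assoc V M V, hMV, mul_zero, sub_zero]
  apply Units.ext
  unfold cj
  rw [this, un_val, h4, smul_zero, sub_zero, smul_sub, neg_smul]
  abel

end Step

/-! ### Reduction modulo `N` -/

section Red

variable {n N : ℕ}

/-- the reduction of a vector -/
def cv (N : ℕ) (v : Fin n → ℤ) : Fin n → ZMod N := fun i => (v i : ZMod N)

theorem rdM_eq {β : MZ n} {u : GN n N} (h : u.val = β.map (Int.cast : ℤ → ZMod N)) :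
    rdM N β = u := by
  have hu : IsUnit (β.map (Int.cast : ℤ → ZMod N)) := by
    rw [← h]
    exact u.isUnit
  unfold rdM
  rw [dif_pos hu]
  apply Units.ext
  rw [IsUnit.unit_spec, h]

theorem rdM_un (s : ℤ) (u v : Fin n → ℤ)
    (h : ((s : ZMod N) • vecMulVec (cv N u) (cv N v)) * ((s : ZMod N) • vecMulVec (cv N u) (cv N v)) = 0) :
    rdM N (1 + vecMulVec (s • u) v) = un ((s : ZMod N) • vecMulVec (cv N u) (cv N v)) h := by
  apply rdM_eq
  rw [un_val]
  ext i j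
  simp only [Matrix.add_apply, Matrix.smul_apply, vecMulVec_apply, cv, Matrix.map_apply,
    Pi.smul_apply, smul_eq_mul, Int.cast_add, Int.cast_mul, Matrix.one_apply]
  split_ifs <;> simp [mul_assoc]

theorem cv_mulVec (B : MZ n) (w : Fin n → ℤ) :
    (B.map (Int.cast : ℤ → ZMod N)) *ᵥ (cv N w) = cv N (B *ᵥ w) := by
  ext i
  simp [Matrix.mulVec, dotProduct, cv]

theorem cv_vecMul (B : MZ n) (w : Fin n → ℤ) :
    (cv N w) ᵥ* (B.map (Int.cast : ℤ → ZMod N)) = cv N (w ᵥ* B) := by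
  ext i
  simp [Matrix.vecMul, dotProduct, cv]

theorem cv_dot (v w : Fin n → ℤ) : (cv N v) ⬝ᵥ (cv N w) = ((v ⬝ᵥ w : ℤ) : ZMod N) := by
  simp [dotProduct, cv]

theorem map_det' (B : MZ n) : (B.map (Int.cast : ℤ → ZMod N)).det = (B.det : ZMod N) :=
  (RingHom.map_det (Int.castRingHom (ZMod N)) B).symm

theorem map_adj' (B : MZ n) :
    (B.map (Int.cast : ℤ → ZMod N)).adjugate = B.adjugate.map (Int.cast : ℤ → ZMod N) :=
  (RingHom.map_adjugate (Int.castRingHom (ZMod N)) B).symm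

end Red

/-! ### Differences -/

theorem pairs {S : Finset ℕ} {T q : ℕ} (hS : S ⊆ Finset.Icc 1 T) (hT : T = 16 * q ^ 2) (hq : 1 ≤ q)
    (h : T ≤ 2 * q * S.card) : ∃ a₁ ∈ S, ∃ a₁' ∈ S, ∃ a₂ ∈ S, ∃ a₂' ∈ S,
      (a₁' : ℤ) - a₁ = a₂' - a₂ ∧ (a₁' : ℤ) - a₁ ≠ 0 ∧ (a₂' : ℤ) - a₁' ≠ 0 := by
  have h8 : 8 * q ≤ S.card := by
    have h1 : (2 * q) * (8 * q) ≤ (2 * q) * S.card := by
      calc (2 * q) * (8 * q) = 16 * q ^ 2 := by ring
        _ = T := hT.symm
        _ ≤ _ := h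
    exact Nat.le_of_mul_le_mul_left h1 (by omega)
  have hcard : (Finset.Icc (-(T : ℤ)) T).card < S.offDiag.card := by
    rw [Finset.offDiag_card, Int.card_Icc]
    have e1 : ((T : ℤ) + 1 - -(T : ℤ)).toNat = 2 * T + 1 := by omega
    rw [e1]
    have e2 : S.card * S.card - S.card = S.card * (S.card - 1) := by
      rw [Nat.mul_sub, mul_one]
    rw [e2]
    have e3 : 8 * q * (8 * q - 1) ≤ S.card * (S.card - 1) := Nat.mul_le_mul h8 (by omega)
    have e4 : 2 * T + 1 < 8 * q * (8 * q - 1) := by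
      obtain ⟨r, rfl⟩ : ∃ r, q = r + 1 := ⟨q - 1, by omega⟩
      have e5 : 8 * (r + 1) - 1 = 8 * r + 7 := by omega
      rw [hT, e5]
      nlinarith
    omega
  obtain ⟨p, hp, p', hp', hne, heq⟩ := Finset.exists_ne_map_eq_of_card_lt_of_maps_to hcard
    (f := fun p : ℕ × ℕ => (p.2 : ℤ) - p.1) (by
      intro p hp
      rw [Finset.mem_coe, Finset.mem_offDiag] at hp
      have h1 := Finset.mem_Icc.1 (hS hp.1)
      have h2 := Finset.mem_Icc.1 (hS hp.2.1)
      rw [Finset.mem_coe, Finset.mem_Icc]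
      constructor
      · change -(T : ℤ) ≤ (p.2 : ℤ) - p.1
        omega
      · change (p.2 : ℤ) - p.1 ≤ T
        omega)
  change (p.2 : ℤ) - p.1 = (p'.2 : ℤ) - p'.1 at heq
  rw [Finset.mem_offDiag] at hp hp'
  refine ⟨p.1, hp.1, p.2, hp.2.1, p'.1, hp'.1, p'.2, hp'.2.1, heq, ?_, ?_⟩
  · have := hp.2.2
    omega
  · intro h0
    apply hne
    apply Prod.ext <;> omega

theorem pairs2 {S : Finset ℕ} {T q : ℕ} (hT : T = 4 * q) (hq : 1 ≤ q)
    (h : T ≤ 2 * q * S.card) : ∃ a ∈ S, ∃ a' ∈ S, (a' : ℤ) - a ≠ 0 := by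
  have h1 : 1 < S.card := by
    have : (2 * q) * 2 ≤ (2 * q) * S.card := by
      calc (2 * q) * 2 = 4 * q := by ring
        _ = T := hT.symm
        _ ≤ _ := h
    have := Nat.le_of_mul_le_mul_left this (by omega)
    omega
  obtain ⟨a, ha, a', ha', hne⟩ := Finset.one_lt_card.1 h1
  exact ⟨a, ha, a', ha', by omega⟩

/-! ### The two cases -/

section Core

variable {n N : ℕ} [NeZero N] (H : Subgroup (GN n N))

omit [NeZero N] in
theorem fx_eq (g : GN n N) : fx H g = nf (XX H) g := rfl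

omit [NeZero N] in
theorem index_eq : H.index = Nat.card (XX H) := rfl

/-- nonzero integers of absolute value at most `T` -/
noncomputable def nz (T : ℕ) : Finset ℤ := (Finset.Icc (-(T : ℤ)) T).filter fun t => t ≠ 0

theorem nz_card (T : ℕ) : (nz T).card ≤ 2 * T + 1 := by
  refine (Finset.card_filter_le _ _).trans ?_
  rw [Int.card_Icc]
  omega

theorem mem_nz {T : ℕ} {t : ℤ} : t ∈ nz T ↔ (-(T : ℤ) ≤ t ∧ t ≤ T) ∧ t ≠ 0 := by
  unfold nz
  rw [Finset.mem_filter, Finset.mem_Icc]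

/-- the case `c ≠ 0` -/
theorem core1 {q : ℕ} (hq : 1 ≤ q) {B : MZ n} {b : GN n N} {z : ZMod N}
    (hb : (b : Matrix (Fin n) (Fin n) (ZMod N)) = z • B.map (Int.cast : ℤ → ZMod N))
    (hfx : H.index ≤ q * fx H b) {w φ : Fin n → ℤ} (h0 : φ ⬝ᵥ w = 0) (h1 : φ ⬝ᵥ (B *ᵥ w) = 0) :
    ∃ t ∈ nz (16 * q ^ 2), ∃ k ∈ nz (16 * q ^ 2), H.index ≤ 2 * q * (2 * (16 * q ^ 2) + 1) ^ 2 *
      fx H (rdM N (1 + vecMulVec ((t * k * (B.det * ((φ ᵥ* B.adjugate) ⬝ᵥ w))) • (B *ᵥ w)) φ)) := by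
  classical
  set T := 16 * q ^ 2 with hT
  have hb' : b.val = z • B.map (Int.cast : ℤ → ZMod N) := hb
  have h0' : (cv N φ) ⬝ᵥ (cv N w) = 0 := by rw [cv_dot, h0, Int.cast_zero]
  have h1' : (cv N φ) ⬝ᵥ ((B.map (Int.cast : ℤ → ZMod N)) *ᵥ (cv N w)) = 0 := by
    rw [cv_mulVec, cv_dot, h1, Int.cast_zero]
  have hc' : ((cv N φ) ᵥ* (B.map (Int.cast : ℤ → ZMod N)).adjugate) ⬝ᵥ (cv N w) =
      (((φ ᵥ* B.adjugate) ⬝ᵥ w : ℤ) : ZMod N) := by
    rw [map_adj', cv_vecMul, cv_dot]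
  have hP : vecMulVec ((B.map (Int.cast : ℤ → ZMod N)) *ᵥ (cv N w)) (cv N φ) *
      vecMulVec ((B.map (Int.cast : ℤ → ZMod N)) *ᵥ (cv N w)) (cv N φ) = 0 := sq_vm h1'
  obtain ⟨i, hi, hle⟩ := pig (X := XX H) (fun a : ℕ => cj b (EE (B := B.map (Int.cast : ℤ → ZMod N)) h0')
    (a : ZMod N)) q T (by rw [hT]; nlinarith) hq (fun a _ => by
      change _ ≤ q * nf (XX H) (un _ _ * b * (un _ _)⁻¹)
      rw [nf_conj]
      exact hfx) ((nz T) ×ˢ (nz T))
      (fun p => rdM N (1 + vecMulVec ((p.1 * p.2 * (B.det * ((φ ᵥ* B.adjugate) ⬝ᵥ w))) • (B *ᵥ w)) φ))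
      (fun S hS hST => by
        obtain ⟨a₁, m1, a₁', m1', a₂, m2, a₂', m2', e1, e2, e3⟩ := pairs hS hT hq hST
        refine ⟨((a₁' : ℤ) - a₁, (a₂' : ℤ) - a₁'), ?_, fun δ hδ => ?_⟩
        · have b1 := Finset.mem_Icc.1 (hS m1)
          have b2 := Finset.mem_Icc.1 (hS m1')
          have b3 := Finset.mem_Icc.1 (hS m2')
          rw [Finset.mem_product, mem_nz, mem_nz]
          refine ⟨⟨⟨?_, ?_⟩, e2⟩, ⟨⟨?_, ?_⟩, e3⟩⟩
          all_goals
            simp only
            omega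
        · have ht : ((a₂' : ZMod N)) - a₂ = (((a₁' : ℤ) - a₁ : ℤ) : ZMod N) := by
            rw [e1]
            push_cast
            ring
          have key := caseA (t := (((a₁' : ℤ) - a₁ : ℤ) : ZMod N)) (a₁ := (a₁ : ZMod N)) (a₁' := (a₁' : ZMod N))
            (a₂ := (a₂ : ZMod N)) (a₂' := (a₂' : ZMod N)) hb' h0' h1' (by push_cast; ring) ht hP
          have hfix : un (((((a₁' : ℤ) - a₁ : ℤ) : ZMod N) * ((a₂' : ZMod N) - a₁') *
              ((B.map (Int.cast : ℤ → ZMod N)).det *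
                ((cv N φ ᵥ* (B.map (Int.cast : ℤ → ZMod N)).adjugate) ⬝ᵥ cv N w))) •
                vecMulVec ((B.map (Int.cast : ℤ → ZMod N)) *ᵥ (cv N w)) (cv N φ)) (smul_sq hP _) • δ = δ := by
            have f1 : (cj b (EE (B := B.map (Int.cast : ℤ → ZMod N)) h0') (a₁ : ZMod N) *
                (cj b (EE (B := B.map (Int.cast : ℤ → ZMod N)) h0') (a₁' : ZMod N))⁻¹) • δ = δ := by
              rw [mul_smul, inv_smul_eq_iff.2 (hδ a₁' m1').symm, hδ a₁ m1]
            have f2 : (cj b (EE (B := B.map (Int.cast : ℤ → ZMod N)) h0') (a₂ : ZMod N) *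
                (cj b (EE (B := B.map (Int.cast : ℤ → ZMod N)) h0') (a₂' : ZMod N))⁻¹) • δ = δ := by
              rw [mul_smul, inv_smul_eq_iff.2 (hδ a₂' m2').symm, hδ a₂ m2]
            rw [key, mul_smul, f2] at f1
            exact f1
          have hs : ((((a₁' : ℤ) - a₁ : ℤ) : ZMod N) * ((a₂' : ZMod N) - a₁') *
              ((B.map (Int.cast : ℤ → ZMod N)).det *
                ((cv N φ ᵥ* (B.map (Int.cast : ℤ → ZMod N)).adjugate) ⬝ᵥ cv N w))) =
              (((((a₁' : ℤ) - a₁) * ((a₂' : ℤ) - a₁') * (B.det * ((φ ᵥ* B.adjugate) ⬝ᵥ w)) : ℤ)) : ZMod N) := by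
            rw [hc', map_det']
            push_cast
            ring
          have hun : rdM N (1 + vecMulVec ((((a₁' : ℤ) - a₁) * ((a₂' : ℤ) - a₁') *
              (B.det * ((φ ᵥ* B.adjugate) ⬝ᵥ w))) • (B *ᵥ w)) φ) =
              un (((((a₁' : ℤ) - a₁ : ℤ) : ZMod N) * ((a₂' : ZMod N) - a₁') *
              ((B.map (Int.cast : ℤ → ZMod N)).det *
                ((cv N φ ᵥ* (B.map (Int.cast : ℤ → ZMod N)).adjugate) ⬝ᵥ cv N w))) •
                vecMulVec ((B.map (Int.cast : ℤ → ZMod N)) *ᵥ (cv N w)) (cv N φ)) (smul_sq hP _) := by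
            rw [rdM_un]
            · apply Units.ext
              rw [un_val, un_val, hs, cv_mulVec]
            · rw [← cv_mulVec]
              exact smul_sq hP _
          change rdM N _ • δ = δ
          rw [hun]
          exact hfix)
  rw [Finset.mem_product] at hi
  refine ⟨i.1, hi.1, i.2, hi.2, hle.trans ?_⟩
  rw [Finset.card_product]
  have := nz_card T
  rw [fx_eq]
  refine Nat.mul_le_mul_right _ (Nat.mul_le_mul_left _ ?_)
  rw [sq]
  exact Nat.mul_le_mul this this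

/-- the case `c = 0` -/
theorem core2 {q : ℕ} (hq : 1 ≤ q) {B : MZ n} {b : GN n N} {z : ZMod N}
    (hb : (b : Matrix (Fin n) (Fin n) (ZMod N)) = z • B.map (Int.cast : ℤ → ZMod N))
    (hfx : H.index ≤ q * fx H b) {w φ ψ : Fin n → ℤ} (h0 : φ ⬝ᵥ w = 0) (h1 : φ ⬝ᵥ (B *ᵥ w) = 0)
    (hc : (φ ᵥ* B.adjugate) ⬝ᵥ w = 0) (hψ : ψ ⬝ᵥ w = 0) :
    ∃ t ∈ nz (4 * (2 * q * (2 * (4 * q) + 1))), ∃ k ∈ nz (4 * q),
      H.index ≤ 2 * (2 * q * (2 * (4 * q) + 1)) * (2 * (4 * (2 * q * (2 * (4 * q) + 1))) + 1) *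
      fx H (rdM N (1 + vecMulVec ((t * k * (ψ ⬝ᵥ (B *ᵥ w))) • w) (φ ᵥ* B.adjugate))) := by
  classical
  have hb' : b.val = z • B.map (Int.cast : ℤ → ZMod N) := hb
  have h0' : (cv N φ) ⬝ᵥ (cv N w) = 0 := by rw [cv_dot, h0, Int.cast_zero]
  have h1' : (cv N φ) ⬝ᵥ ((B.map (Int.cast : ℤ → ZMod N)) *ᵥ (cv N w)) = 0 := by
    rw [cv_mulVec, cv_dot, h1, Int.cast_zero]
  have hc' : ((cv N φ) ᵥ* (B.map (Int.cast : ℤ → ZMod N)).adjugate) ⬝ᵥ (cv N w) = 0 := by
    rw [map_adj', cv_vecMul, cv_dot, hc, Int.cast_zero]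
  have hψ' : (cv N ψ) ⬝ᵥ (cv N w) = 0 := by rw [cv_dot, hψ, Int.cast_zero]
  obtain ⟨hZ, hcj⟩ := caseB hb' h0' h1' hc'
  set M : Matrix (Fin n) (Fin n) (ZMod N) := vecMulVec ((B.map (Int.cast : ℤ → ZMod N)) *ᵥ (cv N w))
    ((cv N φ) ᵥ* (B.map (Int.cast : ℤ → ZMod N)).adjugate) -
      (B.map (Int.cast : ℤ → ZMod N)).det • vecMulVec (cv N w) (cv N φ) with hMdef
  -- first step
  obtain ⟨k, hk, hle1⟩ := pig (X := XX H) (fun a : ℕ => cj b (EE (B := B.map (Int.cast : ℤ → ZMod N)) h0')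
    (a : ZMod N)) q (4 * q) (by omega) hq (fun a _ => by
      change _ ≤ q * nf (XX H) (un _ _ * b * (un _ _)⁻¹)
      rw [nf_conj]
      exact hfx) (nz (4 * q)) (fun k => un (((k : ℤ) : ZMod N) • M) (smul_sq hZ _))
      (fun S hS hST => by
        obtain ⟨a, m, a', m', e⟩ := pairs2 rfl hq hST
        refine ⟨(a' : ℤ) - a, ?_, fun δ hδ => ?_⟩
        · have b1 := Finset.mem_Icc.1 (hS m)
          have b2 := Finset.mem_Icc.1 (hS m')
          rw [mem_nz]
          refine ⟨⟨?_, ?_⟩, e⟩ <;> omega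
        · have f1 : (cj b (EE (B := B.map (Int.cast : ℤ → ZMod N)) h0') (a : ZMod N) *
                (cj b (EE (B := B.map (Int.cast : ℤ → ZMod N)) h0') (a' : ZMod N))⁻¹) • δ = δ := by
            rw [mul_smul, inv_smul_eq_iff.2 (hδ a' m').symm, hδ a m]
          rw [hcj] at f1
          have : ((((a' : ℤ) - a : ℤ)) : ZMod N) = (a' : ZMod N) - a := by push_cast; ring
          simp only [this]
          exact f1)
  set q₁ := 2 * q * (2 * (4 * q) + 1) with hq₁
  have hq1 : 1 ≤ q₁ := by rw [hq₁]; nlinarith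
  have hle1' : Nat.card (XX H) ≤ q₁ * nf (XX H) (un (((k : ℤ) : ZMod N) • M) (smul_sq hZ _)) :=
    hle1.trans (Nat.mul_le_mul_right _ (Nat.mul_le_mul_left _ (nz_card _)))
  -- second step
  have hV : vecMulVec (cv N w) (cv N ψ) * vecMulVec (cv N w) (cv N ψ) = 0 := sq_vm hψ'
  have hMV : (((k : ℤ) : ZMod N) • M) * vecMulVec (cv N w) (cv N ψ) = 0 := by
    rw [hMdef, smul_mul_assoc, sub_mul, smul_mul_assoc, vm_mul, vm_mul, hc', h0', zero_smul, zero_smul,
      smul_zero, sub_zero, smul_zero]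
  have hVM : vecMulVec (cv N w) (cv N ψ) * (((k : ℤ) : ZMod N) • M) =
      (((k : ℤ) : ZMod N) * ((ψ ⬝ᵥ (B *ᵥ w) : ℤ) : ZMod N)) • vecMulVec (cv N w) (cv N (φ ᵥ* B.adjugate)) := by
    rw [hMdef, mul_smul_comm, mul_sub, mul_smul_comm, vm_mul, vm_mul, hψ', zero_smul, smul_zero,
      sub_zero, smul_smul, cv_mulVec, cv_dot, map_adj', cv_vecMul]
  obtain ⟨hQ, hcj2⟩ := caseC (smul_sq hZ _) hV hMV
  obtain ⟨t, ht, hle2⟩ := pig (X := XX H) (fun a : ℕ => cj (un (((k : ℤ) : ZMod N) • M) (smul_sq hZ _)) hV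
    (a : ZMod N)) q₁ (4 * q₁) (by omega) hq1 (fun a _ => by
      change _ ≤ q₁ * nf (XX H) (un _ _ * _ * (un _ _)⁻¹)
      rw [nf_conj]
      exact hle1') (nz (4 * q₁)) (fun t => rdM N (1 + vecMulVec ((t * k * (ψ ⬝ᵥ (B *ᵥ w))) • w) (φ ᵥ* B.adjugate)))
      (fun S hS hST => by
        obtain ⟨a, m, a', m', e⟩ := pairs2 rfl hq1 hST
        refine ⟨(a : ℤ) - a', ?_, fun δ hδ => ?_⟩
        · have b1 := Finset.mem_Icc.1 (hS m)
          have b2 := Finset.mem_Icc.1 (hS m')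
          rw [mem_nz]
          refine ⟨⟨?_, ?_⟩, ?_⟩ <;> omega
        · have f1 : (cj (un (((k : ℤ) : ZMod N) • M) (smul_sq hZ _)) hV (a : ZMod N) *
                (cj (un (((k : ℤ) : ZMod N) • M) (smul_sq hZ _)) hV (a' : ZMod N))⁻¹) • δ = δ := by
            rw [mul_smul, inv_smul_eq_iff.2 (hδ a' m').symm, hδ a m]
          rw [hcj2] at f1
          have hun : rdM N (1 + vecMulVec ((((a : ℤ) - a') * k * (ψ ⬝ᵥ (B *ᵥ w))) • w) (φ ᵥ* B.adjugate)) =
              un ((-((a' : ZMod N) - a)) • (vecMulVec (cv N w) (cv N ψ) * (((k : ℤ) : ZMod N) • M)))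
                (smul_sq hQ _) := by
            have e2 : ((-((a' : ZMod N) - a)) • (vecMulVec (cv N w) (cv N ψ) * (((k : ℤ) : ZMod N) • M))) =
                ((((((a : ℤ) - a') * k * (ψ ⬝ᵥ (B *ᵥ w))) : ℤ)) : ZMod N) •
                  vecMulVec (cv N w) (cv N (φ ᵥ* B.adjugate)) := by
              rw [hVM, smul_smul]
              congr 1
              push_cast
              ring
            rw [rdM_un]
            · apply Units.ext
              rw [un_val, un_val, e2]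
            · rw [← e2]
              exact smul_sq hQ _
          change rdM N _ • δ = δ
          rw [hun]
          exact f1)
  exact ⟨t, ht, k, hk, hle2.trans (Nat.mul_le_mul_right _ (Nat.mul_le_mul_left _ (nz_card _)))⟩

end Core

/-! ### The choice of the vectors -/

theorem choice {n : ℕ} (hn : 3 ≤ n) {B : MZ n} (hB : ∀ s : ℤ, B ≠ s • (1 : MZ n)) :
    ∃ w : Fin n → ℤ, (∀ i, |w i| ≤ 1) ∧ ∃ a b : Fin n, a ≠ b ∧
      w a * (B *ᵥ w) b - w b * (B *ᵥ w) a ≠ 0 := by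
  classical
  by_cases h : ∃ i j : Fin n, i ≠ j ∧ B j i ≠ 0
  · obtain ⟨i, j, hij, hBij⟩ := h
    refine ⟨Pi.single i 1, fun l => ?_, i, j, hij, ?_⟩
    · by_cases hl : l = i
      · subst hl; simp
      · rw [Pi.single_eq_of_ne hl]; simp
    · rw [Pi.single_eq_same, Pi.single_eq_of_ne hij.symm, Matrix.mulVec_single_one]
      simpa using hBij
  · push Not at h
    have h2 : ∃ i j : Fin n, B i i ≠ B j j := by
      by_contra h3
      push Not at h3
      refine hB (B ⟨0, by omega⟩ ⟨0, by omega⟩) ?_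
      ext i j
      rw [Matrix.smul_apply, Matrix.one_apply]
      split_ifs with hij
      · subst hij
        rw [h3 i ⟨0, by omega⟩]; simp
      · rw [h j i (Ne.symm hij)]; simp
    obtain ⟨i, j, hij⟩ := h2
    have hne : i ≠ j := fun hh => hij (by rw [hh])
    refine ⟨Pi.single i 1 + Pi.single j 1, fun l => ?_, i, j, hne, ?_⟩
    · rw [Pi.add_apply]
      by_cases hl : l = i
      · subst hl
        rw [Pi.single_eq_same, Pi.single_eq_of_ne hne]; simp
      · rw [Pi.single_eq_of_ne hl]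
        by_cases hl' : l = j
        · subst hl'; simp
        · rw [Pi.single_eq_of_ne hl']; simp
    · rw [Matrix.mulVec_add, Matrix.mulVec_single_one, Matrix.mulVec_single_one]
      simp only [Pi.add_apply, Pi.single_eq_same, Pi.single_eq_of_ne hne, Pi.single_eq_of_ne hne.symm,
        Matrix.col_apply, h i j hne, h j i hne.symm]
      intro h0
      apply hij
      linarith

theorem vecs {n : ℕ} (hn : 3 ≤ n) {w u : Fin n → ℤ} {a b : Fin n} (hab : a ≠ b)
    (h : w a * u b - w b * u a ≠ 0) {Y : ℤ} (hw : ∀ i, |w i| ≤ 1) (hu : ∀ i, |u i| ≤ Y) :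
    ∃ φ ψ : Fin n → ℤ, φ ≠ 0 ∧ φ ⬝ᵥ w = 0 ∧ φ ⬝ᵥ u = 0 ∧ ψ ⬝ᵥ w = 0 ∧ ψ ⬝ᵥ u ≠ 0 ∧ |ψ ⬝ᵥ u| ≤ 2 * Y ∧
      ∀ i, |φ i| ≤ 2 * Y := by
  classical
  obtain ⟨k, hka, hkb⟩ : ∃ k : Fin n, k ≠ a ∧ k ≠ b := by
    by_contra hcon
    push Not at hcon
    have h1 : (Finset.univ : Finset (Fin n)) ⊆ {a, b} := by
      intro k _
      by_cases hk : k = a
      · simp [hk]
      · simp [hcon k hk]
    have h2 := (Finset.card_le_card h1).trans Finset.card_le_two
    rw [Finset.card_univ, Fintype.card_fin] at h2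
    omega
  have hY : 0 ≤ Y := (abs_nonneg _).trans (hu a)
  have hmin : ∀ x y : Fin n, |w x * u y - w y * u x| ≤ 2 * Y := by
    intro x y
    have e1 : |w x * u y| ≤ 1 * Y := by
      rw [abs_mul]
      exact mul_le_mul (hw x) (hu y) (abs_nonneg _) (by norm_num)
    have e2 : |w y * u x| ≤ 1 * Y := by
      rw [abs_mul]
      exact mul_le_mul (hw y) (hu x) (abs_nonneg _) (by norm_num)
    have := abs_sub (w x * u y) (w y * u x)
    linarith
  refine ⟨Pi.single a (w b * u k - w k * u b) + Pi.single b (w k * u a - w a * u k) +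
    Pi.single k (w a * u b - w b * u a), Pi.single a (-w b) + Pi.single b (w a), ?_, ?_, ?_, ?_, ?_, ?_, ?_⟩
  · intro h0
    have := congrFun h0 k
    rw [Pi.add_apply, Pi.add_apply, Pi.single_eq_of_ne hka, Pi.single_eq_of_ne hkb, Pi.single_eq_same,
      zero_add, zero_add] at this
    exact h this
  · simp only [add_dotProduct, single_dotProduct]
    ring
  · simp only [add_dotProduct, single_dotProduct]
    ring
  · simp only [add_dotProduct, single_dotProduct]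
    ring
  · simp only [add_dotProduct, single_dotProduct]
    intro h0
    apply h
    linarith
  · simp only [add_dotProduct, single_dotProduct]
    have := hmin a b
    rwa [show -w b * u a + w a * u b = w a * u b - w b * u a by ring]
  · intro i
    simp only [Pi.add_apply]
    by_cases h1 : i = a
    · subst h1
      rw [Pi.single_eq_same, Pi.single_eq_of_ne hab, Pi.single_eq_of_ne hka.symm, add_zero, add_zero]
      exact hmin _ _
    · rw [Pi.single_eq_of_ne h1]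
      by_cases h2 : i = b
      · subst h2
        rw [Pi.single_eq_same, Pi.single_eq_of_ne hkb.symm, add_zero, zero_add]
        exact hmin _ _
      · rw [Pi.single_eq_of_ne h2]
        by_cases h3 : i = k
        · subst h3
          rw [Pi.single_eq_same, add_zero, zero_add]
          exact hmin _ _
        · rw [Pi.single_eq_of_ne h3]
          simp only [add_zero, abs_zero]
          linarith

/-! ### Bounds -/

theorem dot_le {n : ℕ} {u v : Fin n → ℤ} {X Y : ℤ} (hX : 0 ≤ X) (hu : ∀ i, |u i| ≤ X) (hv : ∀ i, |v i| ≤ Y) :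
    |u ⬝ᵥ v| ≤ n * (X * Y) := by
  unfold dotProduct
  refine (Finset.abs_sum_le_sum_abs _ _).trans ?_
  have : ∀ i ∈ (Finset.univ : Finset (Fin n)), |u i * v i| ≤ X * Y := by
    intro i _
    rw [abs_mul]
    exact mul_le_mul (hu i) (hv i) (abs_nonneg _) hX
  refine (Finset.sum_le_sum this).trans ?_
  rw [Finset.sum_const, Finset.card_univ, Fintype.card_fin, nsmul_eq_mul]

theorem det_bd {n : ℕ} {B : MZ n} {Z : ℤ} (hZ : ∀ i j, |B i j| ≤ Z) : |B.det| ≤ (n.factorial : ℤ) * Z ^ n := by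
  have := Matrix.det_le (abv := (AbsoluteValue.abs : AbsoluteValue ℤ ℤ)) (A := B) (x := Z) (fun i j => hZ i j)
  rw [Fintype.card_fin, nsmul_eq_mul] at this
  exact this

theorem adj_bd {n : ℕ} {B : MZ n} {Z : ℤ} (h1 : 1 ≤ Z) (hZ : ∀ i j, |B i j| ≤ Z) (i j : Fin n) :
    |B.adjugate i j| ≤ (n.factorial : ℤ) * Z ^ n := by
  rw [Matrix.adjugate_apply]
  apply det_bd
  intro k l
  rw [Matrix.updateRow_apply]
  split_ifs with h
  · by_cases hl : l = i
    · subst hl; rw [Pi.single_eq_same, abs_one]; exact h1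
    · rw [Pi.single_eq_of_ne hl, abs_zero]; linarith
  · exact hZ k l

theorem vm_ne {n : ℕ} {B : MZ n} (hd : B.det ≠ 0) {φ : Fin n → ℤ} (hφ : φ ≠ 0) : φ ᵥ* B.adjugate ≠ 0 := by
  intro h
  have h1 : (φ ᵥ* B.adjugate) ᵥ* B = 0 := by rw [h, zero_vecMul]
  rw [vecMul_vecMul, adjugate_mul, vecMul_smul, vecMul_one] at h1
  exact hφ ((smul_eq_zero.1 h1).resolve_left hd)

end Pool.Agent.T2h77.N.FA

namespace Pool.Agent.T2h77.N

/-- FIXA -/
theorem fixA : S_fixA := by
  intro n hn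
  refine ⟨2 * n + 7, 1000 * n ^ 3 * n.factorial, fun N _ H Z q B b z hZ hq hBZ hB hd hb hfx => ?_⟩
  set M : ℕ := 1000 * n ^ 3 * n.factorial * Z * q with hM
  have hf : 1 ≤ n.factorial := Nat.factorial_pos n
  have hn3 : 1 ≤ n ^ 3 := Nat.one_le_pow _ _ (by omega)
  -- `M ≥ 1000 q`, etc.
  have hMq : 1000 * q ≤ M := by
    rw [hM]
    calc 1000 * q = 1000 * 1 * 1 * 1 * q := by ring
      _ ≤ _ := by gcongr
  have hM1 : 1 ≤ M := by omega
  have hMnZ : 1000 * n ^ 3 * n.factorial * Z ≤ M := by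
    rw [hM]
    exact Nat.le_mul_of_pos_right _ hq
  have h2n : 2 * n ≤ 1000 * n ^ 3 * n.factorial := by
    calc 2 * n = 2 * n * 1 := by ring
      _ ≤ 1000 * n ^ 3 * n.factorial := by
        gcongr
        · norm_num
        · exact Nat.le_self_pow (by norm_num) n
  have h2nZ : 2 * (n * Z) ≤ M := by
    calc 2 * (n * Z) = 2 * n * Z := by ring
      _ ≤ 1000 * n ^ 3 * n.factorial * Z := Nat.mul_le_mul_right _ h2n
      _ ≤ M := hMnZ
  have hqq : q ≤ q ^ 2 := Nat.le_self_pow (by norm_num) q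
  have hq2 : 1 ≤ q ^ 2 := Nat.one_le_pow _ _ hq
  obtain ⟨w, hw, a, c, hac, hmin⟩ := FA.choice hn hB
  have hwne : w ≠ 0 := by
    rintro rfl
    simp at hmin
  have hune : B *ᵥ w ≠ 0 := by
    intro h0
    rw [h0] at hmin
    simp at hmin
  have hZ' : (0 : ℤ) ≤ Z := by positivity
  have hu : ∀ i, |(B *ᵥ w) i| ≤ (n : ℤ) * Z := by
    intro i
    have := FA.dot_le (u := fun j => B i j) (v := w) hZ' (hBZ i) hw
    rw [mul_one] at this
    exact this
  obtain ⟨φ, ψ, hφ, h0, h1, hψ, hκ, hκb, hφb⟩ := FA.vecs hn hac hmin hw hu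
  -- bounds in terms of `M`
  have hMZ : (1 : ℤ) ≤ (M : ℤ) := by exact_mod_cast hM1
  have hM0 : (0 : ℤ) ≤ (M : ℤ) := by positivity
  have hpow : ∀ {x y : ℕ}, x ≤ y → (M : ℤ) ^ x ≤ (M : ℤ) ^ y := fun h => pow_le_pow_right₀ hMZ h
  have bu : ∀ i, |(B *ᵥ w) i| ≤ (M : ℤ) := by
    intro i
    refine (hu i).trans ?_
    have : n * Z ≤ M := by
      refine le_trans ?_ hMnZ
      gcongr
      calc n = 1 * n * 1 := by ring
        _ ≤ 1000 * n ^ 3 * n.factorial := by
          gcongr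
          · norm_num
          · exact Nat.le_self_pow (by norm_num) n
    exact_mod_cast this
  have bφ : ∀ i, |φ i| ≤ (M : ℤ) := by
    intro i
    refine (hφb i).trans ?_
    exact_mod_cast h2nZ
  have bκ : |ψ ⬝ᵥ (B *ᵥ w)| ≤ (M : ℤ) := by
    refine hκb.trans ?_
    exact_mod_cast h2nZ
  have hZ1 : (1 : ℤ) ≤ (Z : ℤ) := by exact_mod_cast hZ
  have bd : |B.det| ≤ (M : ℤ) ^ n := by
    refine (FA.det_bd hBZ).trans ?_
    have : n.factorial * Z ^ n ≤ M ^ n := by
      calc n.factorial * Z ^ n ≤ n.factorial ^ n * Z ^ n := by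
            gcongr
            exact Nat.le_self_pow (by omega) _
        _ = (1 * 1 * n.factorial * Z) ^ n := by ring
        _ ≤ (1000 * n ^ 3 * n.factorial * Z) ^ n := by
            gcongr
            norm_num
        _ ≤ M ^ n := Nat.pow_le_pow_left hMnZ n
    exact_mod_cast this
  have hφ' := FA.vm_ne hd hφ
  have cφ' : ∀ i, |(φ ᵥ* B.adjugate) i| ≤ (n : ℤ) * ((2 * (n * Z)) * ((n.factorial : ℤ) * Z ^ n)) := by
    intro i
    exact FA.dot_le (u := φ) (v := fun j => B.adjugate j i) (by positivity) hφb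
      (fun j => FA.adj_bd hZ1 hBZ j i)
  have bc : (n : ℤ) * (((n : ℤ) * ((2 * (n * Z)) * ((n.factorial : ℤ) * Z ^ n))) * 1) ≤ (M : ℤ) ^ (n + 1) := by
    have : n * ((n * ((2 * (n * Z)) * (n.factorial * Z ^ n))) * 1) ≤ M ^ (n + 1) := by
      calc n * ((n * ((2 * (n * Z)) * (n.factorial * Z ^ n))) * 1) = (2 * n ^ 3 * n.factorial) * Z ^ (n + 1) := by
            ring
        _ ≤ (2 * n ^ 3 * n.factorial) ^ (n + 1) * Z ^ (n + 1) := by
            gcongr
            exact Nat.le_self_pow (by omega) _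
        _ = (2 * n ^ 3 * n.factorial * Z) ^ (n + 1) := by ring
        _ ≤ (1000 * n ^ 3 * n.factorial * Z) ^ (n + 1) := by
            gcongr
            norm_num
        _ ≤ M ^ (n + 1) := Nat.pow_le_pow_left hMnZ _
    exact_mod_cast this
  have bφ' : ∀ i, |(φ ᵥ* B.adjugate) i| ≤ (M : ℤ) ^ (n + 1) := by
    intro i
    refine (cφ' i).trans (le_trans ?_ bc)
    rw [mul_one]
    refine le_mul_of_one_le_left (by positivity) ?_
    exact_mod_cast (by omega : 1 ≤ n)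
  have bcc : |(φ ᵥ* B.adjugate) ⬝ᵥ w| ≤ (M : ℤ) ^ (n + 1) := by
    refine le_trans ?_ bc
    exact FA.dot_le (by positivity) cφ' hw
  have habs : ∀ {t : ℤ} {T : ℕ}, t ∈ FA.nz T → |t| ≤ (T : ℤ) := fun h => abs_le.2 (FA.mem_nz.1 h).1
  by_cases hc : (φ ᵥ* B.adjugate) ⬝ᵥ w = 0
  · obtain ⟨t, ht, k, hk, hle⟩ := FA.core2 H hq hb hfx h0 h1 hc hψ
    have ht0 := (FA.mem_nz.1 ht).2
    have hk0 := (FA.mem_nz.1 hk).2
    have hs : t * k * (ψ ⬝ᵥ (B *ᵥ w)) ≠ 0 := mul_ne_zero (mul_ne_zero ht0 hk0) hκ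
    have bt : |t| ≤ (M : ℤ) ^ 2 := by
      refine (habs ht).trans ?_
      have : 4 * (2 * q * (2 * (4 * q) + 1)) ≤ M ^ 2 := by
        calc 4 * (2 * q * (2 * (4 * q) + 1)) ≤ (1000 * q) ^ 2 := by nlinarith
          _ ≤ M ^ 2 := Nat.pow_le_pow_left hMq 2
      exact_mod_cast this
    have bk : |k| ≤ (M : ℤ) := by
      refine (habs hk).trans ?_
      have : 4 * q ≤ M := by omega
      exact_mod_cast this
    refine ⟨(t * k * (ψ ⬝ᵥ (B *ᵥ w))) • w, φ ᵥ* B.adjugate, ?_, hφ', ?_, ?_, ?_, ?_⟩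
    · exact smul_ne_zero hs hwne
    · rw [dotProduct_smul, hc, smul_zero]
    · intro i
      rw [Pi.smul_apply, smul_eq_mul, abs_mul, abs_mul, abs_mul]
      calc |t| * |k| * |ψ ⬝ᵥ (B *ᵥ w)| * |w i| ≤ (M : ℤ) ^ 2 * M * M * 1 := by
            gcongr
            exact hw i
        _ = (M : ℤ) ^ 4 := by ring
        _ ≤ _ := hpow (by omega)
    · intro i
      exact (bφ' i).trans (hpow (by omega))
    · refine hle.trans (Nat.mul_le_mul_right _ ?_)
      calc 2 * (2 * q * (2 * (4 * q) + 1)) * (2 * (4 * (2 * q * (2 * (4 * q) + 1))) + 1)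
          = (4 * (8 * q ^ 2 + q)) * (128 * q ^ 2 + 16 * q + 1) := by ring
        _ ≤ (36 * q ^ 2) * (145 * q ^ 2) := Nat.mul_le_mul (by omega) (by omega)
        _ = 5220 * q ^ 4 := by ring
        _ ≤ 1000000000000 * q ^ 4 := Nat.mul_le_mul_right _ (by norm_num)
        _ = (1000 * q) ^ 4 := by ring
        _ ≤ M ^ 4 := Nat.pow_le_pow_left hMq 4
        _ ≤ _ := Nat.pow_le_pow_right hM1 (by omega)
  · obtain ⟨t, ht, k, hk, hle⟩ := FA.core1 H hq hb hfx h0 h1
    have ht0 := (FA.mem_nz.1 ht).2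
    have hk0 := (FA.mem_nz.1 hk).2
    have hs : t * k * (B.det * ((φ ᵥ* B.adjugate) ⬝ᵥ w)) ≠ 0 :=
      mul_ne_zero (mul_ne_zero ht0 hk0) (mul_ne_zero hd hc)
    have bT : ((16 * q ^ 2 : ℕ) : ℤ) ≤ (M : ℤ) ^ 2 := by
      have : 16 * q ^ 2 ≤ M ^ 2 := by
        calc 16 * q ^ 2 ≤ (1000 * q) ^ 2 := by nlinarith
          _ ≤ M ^ 2 := Nat.pow_le_pow_left hMq 2
      exact_mod_cast this
    have bt : |t| ≤ (M : ℤ) ^ 2 := (habs ht).trans bT
    have bk : |k| ≤ (M : ℤ) ^ 2 := (habs hk).trans bT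
    refine ⟨(t * k * (B.det * ((φ ᵥ* B.adjugate) ⬝ᵥ w))) • (B *ᵥ w), φ, ?_, hφ, ?_, ?_, ?_, ?_⟩
    · exact smul_ne_zero hs hune
    · rw [dotProduct_smul, h1, smul_zero]
    · intro i
      rw [Pi.smul_apply, smul_eq_mul, abs_mul, abs_mul, abs_mul, abs_mul]
      calc |t| * |k| * (|B.det| * |(φ ᵥ* B.adjugate) ⬝ᵥ w|) * |(B *ᵥ w) i| ≤
            (M : ℤ) ^ 2 * (M : ℤ) ^ 2 * ((M : ℤ) ^ n * (M : ℤ) ^ (n + 1)) * M := by
            gcongr
            exact bu i
        _ = (M : ℤ) ^ (2 * n + 6) := by ring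
        _ ≤ _ := hpow (by omega)
    · intro i
      refine (bφ i).trans ?_
      calc (M : ℤ) = (M : ℤ) ^ 1 := by ring
        _ ≤ _ := hpow (by omega)
    · refine hle.trans (Nat.mul_le_mul_right _ ?_)
      calc 2 * q * (2 * (16 * q ^ 2) + 1) ^ 2 ≤ 2 * q * (33 * q ^ 2) ^ 2 :=
            Nat.mul_le_mul_left _ (Nat.pow_le_pow_left (by omega) 2)
        _ = 2178 * q ^ 5 := by ring
        _ ≤ 1000000000000000 * q ^ 5 := Nat.mul_le_mul_right _ (by norm_num)
        _ = (1000 * q) ^ 5 := by ring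
        _ ≤ M ^ 5 := Nat.pow_le_pow_left hMq 5
        _ ≤ _ := Nat.pow_le_pow_right hM1 (by omega)

end Pool.Agent.T2h77.N
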