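import Pool.Agent.T2h77N.Stm

/-!
# FIXB: if a transvection has many fixed points, then the orbits are small
-/

set_option autoImplicit false

open MeasureTheory Matrix
open scoped MatrixGroups ENNReal

noncomputable section

namespace Pool.Agent.T2h77.N.FixB

/-- reduction modulo `N` -/
def rho (m N : ℕ) : GZ m →* GN m N :=
  (Matrix.SpecialLinearGroup.toGL).comp (Matrix.SpecialLinearGroup.map (Int.castRingHom (ZMod N)))

theorem rho_coe {m N : ℕ} (γ : GZ m) :
    ((rho m N γ : GN m N) : Matrix (Fin m) (Fin m) (ZMod N)) = (γ : MZ m).map (Int.cast : ℤ → ZMod N) := by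
  rfl

theorem rdM_eq {m N : ℕ} (γ : GZ m) : rdM N (γ : MZ m) = rho m N γ := by
  have h : IsUnit ((γ : MZ m).map (Int.cast : ℤ → ZMod N)) := by
    rw [← rho_coe]
    exact (rho m N γ).isUnit
  unfold rdM
  rw [dif_pos h]
  apply Units.ext
  rw [IsUnit.unit_spec, rho_coe]

/-- the stabiliser of a point -/
def St {m N : ℕ} {H : Subgroup (GN m N)} (δ : XX H) : Subgroup (GZ m) :=
  (MulAction.stabilizer (GN m N) δ).comap (rho m N)

theorem mem_St {m N : ℕ} {H : Subgroup (GN m N)} (δ : XX H) (γ : GZ m) : γ ∈ St δ ↔ rho m N γ • δ = δ := by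
  simp [St, Subgroup.mem_comap, MulAction.mem_stabilizer_iff]

theorem fx_conj {m N : ℕ} (H : Subgroup (GN m N)) (g b : GN m N) : fx H (g * b * g⁻¹) = fx H b := by
  unfold fx
  refine Nat.card_congr ⟨fun c => ⟨g⁻¹ • c.1, ?_⟩, fun c => ⟨g • c.1, ?_⟩, ?_, ?_⟩
  · have h := c.2
    calc b • (g⁻¹ • c.1) = g⁻¹ • ((g * b * g⁻¹) • c.1) := by
          simp only [smul_smul]; congr 1; group
      _ = g⁻¹ • c.1 := by rw [h]
  · have h := c.2
    calc (g * b * g⁻¹) • (g • c.1) = g • (b • c.1) := by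
          simp only [smul_smul]; congr 1; group
      _ = g • c.1 := by rw [h]
  · intro c; ext; simp
  · intro c; ext; simp

/-! ### the transvections `1 + s w φ` -/

/-- the powers -/
def wv (n : ℕ) (r : ℤ) : Fin (n + 2) → ℤ := fun i => r ^ (i : ℕ)

/-- the covectors -/
def pv (n : ℕ) (r t : ℤ) : Fin (n + 2) → ℤ :=
  Fin.cons (-∑ j : Fin (n + 1), t ^ (j : ℕ) * r ^ ((j : ℕ) + 1)) (fun j => t ^ (j : ℕ))

theorem pv_wv (n : ℕ) (r t : ℤ) : pv n r t ⬝ᵥ wv n r = 0 := by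
  simp [dotProduct, Fin.sum_univ_succ, pv, wv]

theorem det_one_add {m : ℕ} (w φ : Fin m → ℤ) (h : φ ⬝ᵥ w = 0) : (1 + vecMulVec w φ : MZ m).det = 1 := by
  rw [Matrix.vecMulVec_eq Unit, Matrix.det_one_add_replicateCol_mul_replicateRow, h, add_zero]

/-- the element `1 + w φ` -/
def el {m : ℕ} (w φ : Fin m → ℤ) (h : φ ⬝ᵥ w = 0) : GZ m := ⟨1 + vecMulVec w φ, det_one_add w φ h⟩

theorem el_coe {m : ℕ} (w φ : Fin m → ℤ) (h : φ ⬝ᵥ w = 0) : ((el w φ h : GZ m) : MZ m) = 1 + vecMulVec w φ := rfl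

theorem mul_vv {m : ℕ} (w φ φ' : Fin m → ℤ) (h : φ ⬝ᵥ w = 0) :
    (1 + vecMulVec w φ : MZ m) * (1 + vecMulVec w φ') = 1 + vecMulVec w (φ + φ') := by
  rw [add_mul, mul_add, mul_add, Matrix.vecMulVec_mul_vecMulVec, h, zero_smul, Matrix.vecMulVec_zero,
    Matrix.vecMulVec_add]
  simp only [one_mul, mul_one, add_zero]
  abel

/-- the covectors `φ` such that `1 + s w φ` is in `K` -/
def Ad {m : ℕ} (K : Subgroup (GZ m)) (s : ℤ) (w : Fin m → ℤ) : AddSubgroup (Fin m → ℤ) where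
  carrier := {φ | φ ⬝ᵥ w = 0 ∧ ∃ γ ∈ K, (γ : MZ m) = 1 + vecMulVec w (s • φ)}
  zero_mem' := ⟨by simp, 1, K.one_mem, by simp⟩
  add_mem' := by
    rintro φ φ' ⟨h, γ, hγ, e⟩ ⟨h', γ', hγ', e'⟩
    refine ⟨by rw [add_dotProduct, h, h', add_zero], γ * γ', K.mul_mem hγ hγ', ?_⟩
    rw [Matrix.SpecialLinearGroup.coe_mul, e, e', mul_vv _ _ _ (by rw [smul_dotProduct, h, smul_zero]), smul_add]
  neg_mem' := by
    rintro φ ⟨h, γ, hγ, e⟩
    have h1 : (s • -φ) ⬝ᵥ w = 0 := by rw [smul_dotProduct, neg_dotProduct, h]; simp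
    refine ⟨by rw [neg_dotProduct, h, neg_zero], el w (s • -φ) h1, ?_, el_coe _ _ _⟩
    have : el w (s • -φ) h1 = γ⁻¹ := by
      rw [eq_inv_iff_mul_eq_one]
      apply Matrix.SpecialLinearGroup.ext
      intro i j
      rw [Matrix.SpecialLinearGroup.coe_mul, e, el_coe, mul_vv _ _ _ h1]
      simp
    rw [this]
    exact K.inv_mem hγ

theorem mem_Ad {m : ℕ} (K : Subgroup (GZ m)) (s : ℤ) (w φ : Fin m → ℤ) :
    φ ∈ Ad K s w ↔ φ ⬝ᵥ w = 0 ∧ ∃ γ ∈ K, (γ : MZ m) = 1 + vecMulVec w (s • φ) := Iff.rfl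

/-- Cramer's rule for the covectors -/
theorem cramer (n : ℕ) (r : ℤ) (t : Fin (n + 1) → ℤ) (ψ : Fin (n + 2) → ℤ) (h : ψ ⬝ᵥ wv n r = 0) :
    ∃ c : Fin (n + 1) → ℤ, (Matrix.vandermonde t).det • ψ = ∑ l, c l • pv n r (t l) := by
  refine ⟨(fun j => ψ j.succ) ᵥ* (Matrix.vandermonde t).adjugate, ?_⟩
  set c : Fin (n + 1) → ℤ := (fun j => ψ j.succ) ᵥ* (Matrix.vandermonde t).adjugate with hc
  have h1 : c ᵥ* Matrix.vandermonde t = (Matrix.vandermonde t).det • (fun j : Fin (n + 1) => ψ j.succ) := by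
    rw [hc, Matrix.vecMul_vecMul, Matrix.adjugate_mul, Matrix.vecMul_smul, Matrix.vecMul_one]
  have h2 : ∀ j : Fin (n + 1), ∑ l, c l * t l ^ (j : ℕ) = (Matrix.vandermonde t).det * ψ j.succ := by
    intro j
    have := congrFun h1 j
    simpa [Matrix.vecMul, dotProduct, Matrix.vandermonde_apply] using this
  have h3 : ∀ j : Fin (n + 1), ((Matrix.vandermonde t).det • ψ) j.succ = (∑ l, c l • pv n r (t l)) j.succ := by
    intro j
    rw [Finset.sum_apply]
    simp only [Pi.smul_apply, smul_eq_mul, pv, Fin.cons_succ]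
    rw [h2]
  have h4 : ((Matrix.vandermonde t).det • ψ - ∑ l, c l • pv n r (t l)) ⬝ᵥ wv n r = 0 := by
    rw [sub_dotProduct, smul_dotProduct, h, sum_dotProduct, Finset.sum_eq_zero]
    · simp
    · intro l _
      rw [smul_dotProduct, pv_wv, smul_zero]
  rw [← sub_eq_zero]
  set d := (Matrix.vandermonde t).det • ψ - ∑ l, c l • pv n r (t l) with hd
  have h5 : ∀ j : Fin (n + 1), d j.succ = 0 := by
    intro j
    rw [hd, Pi.sub_apply, h3 j, sub_self]
  have h6 : d 0 = 0 := by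
    rw [dotProduct, Fin.sum_univ_succ] at h4
    simpa [h5, wv] using h4
  funext i
  refine Fin.cases h6 h5 i

theorem cramer_mem (n : ℕ) (K : Subgroup (GZ (n + 2))) (s r : ℤ) (t : Fin (n + 1) → ℤ)
    (ht : ∀ l, pv n r (t l) ∈ Ad K s (wv n r)) (ψ : Fin (n + 2) → ℤ) (h : ψ ⬝ᵥ wv n r = 0) :
    (Matrix.vandermonde t).det • ψ ∈ Ad K s (wv n r) := by
  obtain ⟨c, hc⟩ := cramer n r t ψ h
  rw [hc]
  exact AddSubgroup.sum_mem _ fun l _ => AddSubgroup.zsmul_mem _ (ht l) _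

theorem tv_coe {m : ℕ} (i j : Fin m) (h : i ≠ j) (s : ℤ) :
    ((tv i j h s : GZ m) : MZ m) = 1 + vecMulVec (Pi.single i 1) (Pi.single j s) := by
  show Matrix.transvection i j s = _
  rw [Matrix.transvection]
  congr 1
  ext a b
  rw [Matrix.vecMulVec_apply, Matrix.single_apply]
  by_cases h1 : a = i
  · by_cases h2 : b = j
    · subst h1; subst h2; simp
    · subst h1; simp [h2, Ne.symm h2]
  · simp [h1, Ne.symm h1]

theorem conj (n : ℕ) (w φ : Fin (n + 2) → ℤ) (hw : w 0 = 1) (hφ : φ 1 = 1) (h : φ ⬝ᵥ w = 0) (s : ℤ)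
    (h' : (s • φ) ⬝ᵥ w = 0) :
    ∃ g : GZ (n + 2), el w (s • φ) h' = g * tv 0 1 (by simp) s * g⁻¹ := by
  set e0 : Fin (n + 2) → ℤ := Pi.single 0 1 with he0
  set e1 : Fin (n + 2) → ℤ := Pi.single 1 1 with he1
  set t' : Fin (n + 2) → ℤ := φ - φ 0 • e0 - e1 with ht'
  have a1 : e0 ⬝ᵥ (w - e0) = 0 := by
    simp [he0, hw]
  have a0 : t' 0 = 0 := by simp [ht', he0, he1]
  have a0' : t' 1 = 0 := by simp [ht', he0, he1, hφ]
  have a2 : (-t') ⬝ᵥ e1 = 0 := by
    simp [he1, a0']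
  set v := el (w - e0) e0 a1 with hv
  set u := el e1 (-t') a2 with hu
  refine ⟨v * u, ?_⟩
  rw [eq_mul_inv_iff_mul_eq]
  apply Matrix.SpecialLinearGroup.ext
  intro i j
  have b5 : ((v * u : GZ (n + 2)) : MZ (n + 2)) = (v : MZ (n + 2)) * (u : MZ (n + 2)) :=
    Matrix.SpecialLinearGroup.coe_mul _ _
  have b6 : ((el w (s • φ) h' * (v * u) : GZ (n + 2)) : MZ (n + 2)) =
      (1 + vecMulVec w (s • φ)) * ((v : MZ (n + 2)) * (u : MZ (n + 2))) := by
    rw [Matrix.SpecialLinearGroup.coe_mul, b5, el_coe]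
  have b7 : ((v * u * tv 0 1 (by simp) s : GZ (n + 2)) : MZ (n + 2)) =
      ((v : MZ (n + 2)) * (u : MZ (n + 2))) * (1 + vecMulVec (Pi.single 0 1) (Pi.single 1 s)) := by
    rw [Matrix.SpecialLinearGroup.coe_mul, b5, tv_coe]
  rw [b6, b7]
  have b1 : ((v : MZ (n + 2)) * (u : MZ (n + 2))) *ᵥ e0 = w := by
    have c1 : (u : MZ (n + 2)) *ᵥ e0 = e0 := by
      rw [hu, el_coe, Matrix.add_mulVec, Matrix.vecMulVec_mulVec, Matrix.one_mulVec]
      have : (-t') ⬝ᵥ e0 = 0 := by simp [he0, a0]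
      rw [this]
      simp
    have c2 : (v : MZ (n + 2)) *ᵥ e0 = w := by
      have h3 : e0 ⬝ᵥ e0 = 1 := by simp [he0]
      rw [hv, el_coe, Matrix.add_mulVec, Matrix.vecMulVec_mulVec, Matrix.one_mulVec, h3]
      simp
    rw [← Matrix.mulVec_mulVec, c1, c2]
  have b2 : φ ᵥ* ((v : MZ (n + 2)) * (u : MZ (n + 2))) = e1 := by
    rw [← Matrix.vecMul_vecMul, hv, el_coe, Matrix.vecMul_add, Matrix.vecMul_vecMulVec, Matrix.vecMul_one,
      dotProduct_sub, h, hu, el_coe, Matrix.vecMul_add, Matrix.vecMul_vecMulVec, Matrix.vecMul_one]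
    have h4 : φ ⬝ᵥ e0 = φ 0 := by simp [he0]
    have h5 : (φ + (0 - φ ⬝ᵥ e0) • e0) ⬝ᵥ e1 = 1 := by
      simp [he1, he0, hφ]
    rw [h5, h4, ht']
    simp only [zero_sub, one_smul, neg_smul, neg_sub]
    abel
  have b3 : vecMulVec w (s • φ) * ((v : MZ (n + 2)) * (u : MZ (n + 2))) = vecMulVec w (s • e1) := by
    rw [Matrix.vecMulVec_mul, Matrix.smul_vecMul, b2]
  have b4 : (v : MZ (n + 2)) * (u : MZ (n + 2)) * vecMulVec e0 (Pi.single 1 s) = vecMulVec w (s • e1) := by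
    rw [Matrix.mul_vecMulVec, b1]
    congr 1
    rw [he1, ← Pi.single_smul]
    simp
  rw [add_mul, mul_add, one_mul, mul_one, b3, ← b4]

/-! ### averaging and selection -/

open Classical in
theorem average {ι : Type} (S : Finset ι) {m N : ℕ} [NeZero N] (H : Subgroup (GN m N)) (τ : ι → GN m N)
    (b : GN m N) (q : ℕ) (hb : H.index ≤ q * fx H b) (hτ : ∀ a ∈ S, fx H (τ a) = fx H b) :
    ∃ δ : XX H, S.card ≤ q * {a ∈ S | τ a • δ = δ}.card := by
  have : Finite (GN m N) := inferInstance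
  have : Finite (XX H) := inferInstance
  have : Fintype (XX H) := Fintype.ofFinite _
  by_contra hcon
  push Not at hcon
  have h1 : ∑ δ : XX H, q * {a ∈ S | τ a • δ = δ}.card < ∑ δ : XX H, S.card :=
    Finset.sum_lt_sum_of_nonempty ⟨((1 : GN m N) : XX H), Finset.mem_univ _⟩ fun δ _ => hcon δ
  have h2 : ∑ δ : XX H, {a ∈ S | τ a • δ = δ}.card = ∑ a ∈ S, fx H (τ a) := by
    simp only [Finset.card_filter]
    rw [Finset.sum_comm]
    refine Finset.sum_congr rfl fun a _ => ?_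
    rw [← Finset.card_filter, fx, Nat.card_eq_fintype_card, Fintype.card_subtype]
  rw [← Finset.mul_sum, h2, Finset.sum_congr rfl hτ, Finset.sum_const, Finset.sum_const, smul_eq_mul, smul_eq_mul,
    Finset.card_univ, ← Nat.card_eq_fintype_card] at h1
  have h3 : H.index = Nat.card (XX H) := rfl
  rw [← h3] at h1
  have h4 : q * (S.card * fx H b) = S.card * (q * fx H b) := by ring
  rw [h4, mul_comm H.index] at h1
  exact absurd (Nat.mul_le_mul_left S.card hb) (not_le.mpr h1)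

open Classical in
theorem select (n q : ℕ) (hq : 1 ≤ q) (P : ℕ → ℕ → Prop)
    (hP : (2 * (n + 2) * q) ^ 2 ≤ q *
      ((Finset.range (2 * (n + 2) * q) ×ˢ Finset.range (2 * (n + 2) * q)).filter fun a => P a.1 a.2).card) :
    ∃ (r : Fin (n + 2) → ℕ) (t : Fin (n + 2) → Fin (n + 1) → ℕ), Function.Injective r ∧
      (∀ i, Function.Injective (t i)) ∧ (∀ i, r i < 2 * (n + 2) * q) ∧ (∀ i l, t i l < 2 * (n + 2) * q) ∧
      ∀ i l, P (r i) (t i l) := by
  set T := 2 * (n + 2) * q with hT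
  set R' := {r ∈ Finset.range T | n + 1 ≤ {t ∈ Finset.range T | P r t}.card} with hR'
  have h1 : ((Finset.range T ×ˢ Finset.range T).filter fun a => P a.1 a.2).card = ∑ r ∈ Finset.range T,
      {t ∈ Finset.range T | P r t}.card := by
    simp only [Finset.card_filter]
    rw [Finset.sum_product]
  have h2 : ∑ r ∈ Finset.range T, {t ∈ Finset.range T | P r t}.card ≤ R'.card * T + T * n := by
    have h3 : ∀ r ∈ Finset.range T, {t ∈ Finset.range T | P r t}.card ≤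
        (if n + 1 ≤ {t ∈ Finset.range T | P r t}.card then T else 0) + n := by
      intro r _
      have h4 : {t ∈ Finset.range T | P r t}.card ≤ T := by
        have := Finset.card_filter_le (Finset.range T) (fun t => P r t)
        simpa using this
      split_ifs with h
      · omega
      · omega
    refine (Finset.sum_le_sum h3).trans ?_
    rw [Finset.sum_add_distrib, ← Finset.sum_filter, Finset.sum_const, Finset.sum_const, Finset.card_range]
    simp [hR']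
  have hTpos : 0 < T := by positivity
  have h5 : n + 2 ≤ R'.card := by
    by_contra hcon
    push Not at hcon
    have h6 : R'.card * T ≤ (n + 1) * T := Nat.mul_le_mul_right _ (by omega)
    rw [h1] at hP
    have h7 : T ^ 2 ≤ q * ((n + 1) * T + T * n) := hP.trans (Nat.mul_le_mul_left q (h2.trans (by omega)))
    have h8 : T * T ≤ T * (q * (2 * n + 1)) := by
      calc T * T = T ^ 2 := by ring
        _ ≤ q * ((n + 1) * T + T * n) := h7
        _ = T * (q * (2 * n + 1)) := by ring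
    have h9 : T ≤ q * (2 * n + 1) := Nat.le_of_mul_le_mul_left h8 hTpos
    have h10 : q * (2 * n + 1) < T := by
      rw [hT]
      nlinarith
    omega
  have h11 : Fintype.card (Fin (n + 2)) ≤ Fintype.card R' := by
    simpa using h5
  obtain ⟨r⟩ := Function.Embedding.nonempty_of_card_le h11
  have h12 : ∀ i, Fintype.card (Fin (n + 1)) ≤ Fintype.card {t ∈ Finset.range T | P (r i).1 t} := by
    intro i
    have := (Finset.mem_filter.mp (r i).2).2
    simpa using this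
  have h13 : ∀ i, Nonempty (Fin (n + 1) ↪ {t ∈ Finset.range T | P (r i).1 t}) := fun i =>
    Function.Embedding.nonempty_of_card_le (h12 i)
  have t := fun i => (h13 i).some
  refine ⟨fun i => (r i).1, fun i l => (t i l).1, ?_, ?_, ?_, ?_, ?_⟩
  · exact Subtype.val_injective.comp r.injective
  · exact fun i => Subtype.val_injective.comp (t i).injective
  · exact fun i => Finset.mem_range.mp (Finset.mem_filter.mp (r i).2).1
  · exact fun i l => Finset.mem_range.mp (Finset.mem_filter.mp (t i l).2).1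
  · exact fun i l => (Finset.mem_filter.mp (t i l).2).2

/-! ### sizes -/

theorem vand_le (k T : ℕ) (hT : 1 ≤ T) (v : Fin k → ℕ) (hv : ∀ i, v i < T) :
    (Matrix.vandermonde (fun i => (v i : ℤ))).det.natAbs ≤ T ^ (k ^ 2) := by
  rw [Matrix.det_vandermonde]
  have h1 : ∀ i : Fin k, (∏ j ∈ Finset.Ioi i, ((v j : ℤ) - (v i : ℤ))).natAbs ≤ T ^ k := by
    intro i
    have h2 : (∏ j ∈ Finset.Ioi i, ((v j : ℤ) - (v i : ℤ))).natAbs =
        ∏ j ∈ Finset.Ioi i, ((v j : ℤ) - (v i : ℤ)).natAbs := by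
      exact map_prod Int.natAbsHom _ _
    rw [h2]
    refine (Finset.prod_le_pow_card _ _ T ?_).trans (Nat.pow_le_pow_right hT ?_)
    · intro j _
      have := hv i
      have := hv j
      omega
    · refine (Finset.card_le_univ _).trans (by simp)
  have h3 : (∏ i : Fin k, ∏ j ∈ Finset.Ioi i, ((v j : ℤ) - (v i : ℤ))).natAbs =
      ∏ i : Fin k, (∏ j ∈ Finset.Ioi i, ((v j : ℤ) - (v i : ℤ))).natAbs := map_prod Int.natAbsHom _ _
  rw [h3]
  refine (Finset.prod_le_pow_card _ _ (T ^ k) fun i _ => h1 i).trans ?_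
  rw [← pow_mul, Finset.card_univ, Fintype.card_fin, sq]

theorem vand_ne (k : ℕ) (v : Fin k → ℕ) (hv : Function.Injective v) :
    (Matrix.vandermonde (fun i => (v i : ℤ))).det ≠ 0 := by
  rw [Matrix.det_vandermonde_ne_zero_iff]
  exact fun a b h => hv (Nat.cast_injective (R := ℤ) h)

/-! ### the congruence subgroup -/

/-- the integral matrices which are conjugated by `b` into `K` -/
def Kb {m : ℕ} (K : Subgroup (GZ m)) (b : MZ m) : Subgroup (GZ m) where
  carrier := {E | ∃ γ ∈ K, (γ : MZ m) * b = b * (E : MZ m)}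
  one_mem' := ⟨1, K.one_mem, by simp⟩
  mul_mem' := by
    rintro E E' ⟨γ, h, e⟩ ⟨γ', h', e'⟩
    refine ⟨γ * γ', K.mul_mem h h', ?_⟩
    rw [Matrix.SpecialLinearGroup.coe_mul, Matrix.SpecialLinearGroup.coe_mul, mul_assoc, e', ← mul_assoc, e,
      mul_assoc]
  inv_mem' := by
    rintro E ⟨γ, h, e⟩
    refine ⟨γ⁻¹, K.inv_mem h, ?_⟩
    have h1 : ((γ⁻¹ : GZ m) : MZ m) * (γ : MZ m) = 1 := by
      rw [← Matrix.SpecialLinearGroup.coe_mul, inv_mul_cancel, Matrix.SpecialLinearGroup.coe_one]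
    have h2 : (E : MZ m) * ((E⁻¹ : GZ m) : MZ m) = 1 := by
      rw [← Matrix.SpecialLinearGroup.coe_mul, mul_inv_cancel, Matrix.SpecialLinearGroup.coe_one]
    calc ((γ⁻¹ : GZ m) : MZ m) * b = ((γ⁻¹ : GZ m) : MZ m) * (b * ((E : MZ m) * ((E⁻¹ : GZ m) : MZ m))) := by
          rw [h2, mul_one]
      _ = ((γ⁻¹ : GZ m) : MZ m) * ((γ : MZ m) * b) * ((E⁻¹ : GZ m) : MZ m) := by
          rw [e]; simp only [mul_assoc]
      _ = (((γ⁻¹ : GZ m) : MZ m) * (γ : MZ m)) * b * ((E⁻¹ : GZ m) : MZ m) := by simp only [mul_assoc]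
      _ = b * ((E⁻¹ : GZ m) : MZ m) := by rw [h1, one_mul]

theorem mem_Kb {m : ℕ} (K : Subgroup (GZ m)) (b : MZ m) (E : GZ m) :
    E ∈ Kb K b ↔ ∃ γ ∈ K, (γ : MZ m) * b = b * (E : MZ m) := Iff.rfl

theorem gen_step (hgen : S_gen) {m N : ℕ} [NeZero N] (H : Subgroup (GN m N)) (δ : XX H) (b : MZ m)
    (hb : b.det ≠ 0) (s1 : ℤ)
    (hE : ∀ (i j : Fin m) (hij : i ≠ j) (t : ℤ), tv i j hij (s1 * t) ∈ Kb (St δ) b)
    (g : GZ m) (hg : ∀ i j, b.det * s1 ^ 2 ∣ g i j - (if i = j then 1 else 0)) : rho m N g • δ = δ := by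
  -- the matrix `b⁻¹ g b`
  choose Y hY using hg
  have hg1 : (g : MZ m) = 1 + (b.det * s1 ^ 2) • Matrix.of Y := by
    ext i j
    rw [Matrix.add_apply, Matrix.smul_apply, Matrix.of_apply, smul_eq_mul, ← hY i j, Matrix.one_apply]
    show g i j = _
    ring
  set G : MZ m := 1 + (s1 ^ 2) • (b.adjugate * Matrix.of Y * b) with hG
  have hG1 : b * G = (g : MZ m) * b := by
    rw [hG, hg1, mul_add, add_mul, mul_one, one_mul, Matrix.mul_smul, ← mul_assoc, ← mul_assoc,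
      Matrix.mul_adjugate, Matrix.smul_mul, Matrix.smul_mul, Matrix.smul_mul, Matrix.one_mul, smul_smul]
    rw [mul_comm (s1 ^ 2)]
  have hG2 : G.det = 1 := by
    have h1 : (b * G).det = ((g : MZ m) * b).det := by rw [hG1]
    rw [Matrix.det_mul, Matrix.det_mul, g.2, one_mul] at h1
    have h2 : b.det * G.det = b.det * 1 := by rw [h1, mul_one]
    exact mul_left_cancel₀ hb h2
  set g' : GZ m := ⟨G, hG2⟩ with hg'
  have hΔ : b.det.natAbs ≠ 0 := Int.natAbs_ne_zero.mpr hb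
  have : NeZero b.det.natAbs := ⟨hΔ⟩
  have : NeZero (N * b.det.natAbs) := ⟨Nat.mul_ne_zero (NeZero.ne N) hΔ⟩
  set N' := N * b.det.natAbs with hN'
  set f : GZ m →* Matrix.SpecialLinearGroup (Fin m) (ZMod N') :=
    Matrix.SpecialLinearGroup.map (Int.castRingHom (ZMod N')) with hf
  have hf1 : ∀ (E : GZ m) (i j : Fin m), (f E) i j = ((E i j : ℤ) : ZMod N') := fun E i j => rfl
  have hcl := hgen m N' (s1 : ZMod N') (f g') (by
    intro i j
    refine ⟨((b.adjugate * Matrix.of Y * b) i j : ℤ), ?_⟩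
    rw [hf1]
    show ((G i j : ℤ) : ZMod N') = _
    rw [hG, Matrix.add_apply, Matrix.smul_apply, Matrix.one_apply, smul_eq_mul]
    split_ifs <;> push_cast <;> rfl)
  have hle : Subgroup.closure {h : Matrix.SpecialLinearGroup (Fin m) (ZMod N') | ∃ (i j : Fin m) (hij : i ≠ j)
      (t : ZMod N'), h = tv i j hij ((s1 : ZMod N') * t)} ≤ (Kb (St δ) b).map f := by
    rw [Subgroup.closure_le]
    rintro h ⟨i, j, hij, t, rfl⟩
    obtain ⟨t', rfl⟩ := ZMod.intCast_surjective t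
    refine ⟨tv i j hij (s1 * t'), hE i j hij t', ?_⟩
    apply Matrix.SpecialLinearGroup.ext
    intro a c
    rw [hf1]
    show ((Matrix.transvection i j (s1 * t') a c : ℤ) : ZMod N') =
      Matrix.transvection i j ((s1 : ZMod N') * (t' : ZMod N')) a c
    rw [Matrix.transvection, Matrix.transvection, Matrix.add_apply, Matrix.add_apply, Matrix.single_apply,
      Matrix.single_apply, Matrix.one_apply, Matrix.one_apply]
    split_ifs <;> simp
  obtain ⟨E, ⟨γ, hγ, hγE⟩, hEg⟩ := hle hcl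
  -- `γ = g` modulo `N`
  have h1 : ∀ i j, ∃ z : ℤ, (E : MZ m) i j - G i j = (N * b.det) * z := by
    intro i j
    have h2 : ((E i j : ℤ) : ZMod N') = ((G i j : ℤ) : ZMod N') := by
      have := congrArg (fun h : Matrix.SpecialLinearGroup (Fin m) (ZMod N') => h i j) hEg
      simpa [hf1] using this
    have h3 : ((N' : ℕ) : ℤ) ∣ (E i j) - G i j := by
      rw [← ZMod.intCast_zmod_eq_zero_iff_dvd]
      push_cast
      rw [h2, sub_self]
    have h4 : ((N : ℤ) * b.det) ∣ E i j - G i j := by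
      have h5 : ((N : ℤ) * b.det) ∣ ((N' : ℕ) : ℤ) := by
        rw [hN']
        push_cast
        exact mul_dvd_mul_left _ ((dvd_abs _ _).mpr dvd_rfl)
      exact h5.trans h3
    obtain ⟨z, hz⟩ := h4
    exact ⟨z, hz⟩
  choose Z hZ using h1
  have h2 : (E : MZ m) = G + ((N : ℤ) * b.det) • Matrix.of Z := by
    ext i j
    rw [Matrix.add_apply, Matrix.smul_apply, Matrix.of_apply, smul_eq_mul, ← hZ i j]
    ring
  have h3 : (γ : MZ m) * b = (g : MZ m) * b + ((N : ℤ) * b.det) • (b * Matrix.of Z) := by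
    rw [hγE, h2, mul_add, hG1, Matrix.mul_smul]
  have h4 : b.det • (γ : MZ m) = b.det • ((g : MZ m) + (N : ℤ) • (b * Matrix.of Z * b.adjugate)) := by
    have h5 : (γ : MZ m) * b * b.adjugate = b.det • (γ : MZ m) := by
      rw [mul_assoc, Matrix.mul_adjugate, Matrix.mul_smul, mul_one]
    have h6 : (g : MZ m) * b * b.adjugate = b.det • (g : MZ m) := by
      rw [mul_assoc, Matrix.mul_adjugate, Matrix.mul_smul, mul_one]
    rw [← h5, h3, add_mul, h6, smul_add, Matrix.smul_mul, smul_smul, mul_comm (N : ℤ)]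
  have h5 : (γ : MZ m) = (g : MZ m) + (N : ℤ) • (b * Matrix.of Z * b.adjugate) :=
    smul_right_injective _ hb h4
  have h6 : rho m N γ = rho m N g := by
    apply Units.ext
    rw [rho_coe, rho_coe, h5]
    ext i j
    rw [Matrix.map_apply, Matrix.map_apply, Matrix.add_apply, Matrix.smul_apply, smul_eq_mul]
    push_cast
    simp
  rw [← h6]
  exact (mem_St δ γ).mp hγ

/-! ### the conclusion -/

theorem step_E {n N : ℕ} (H : Subgroup (GN (n + 2) N)) (δ : XX H) (s D0 : ℤ) (r : Fin (n + 2) → ℤ)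
    (hA : ∀ (i : Fin (n + 2)) (ψ : Fin (n + 2) → ℤ), ψ ⬝ᵥ wv n (r i) = 0 → D0 • ψ ∈ Ad (St δ) s (wv n (r i)))
    (i j : Fin (n + 2)) (hij : i ≠ j) (t : ℤ) :
    tv i j hij (s * D0 * (Matrix.vandermonde r).det * t) ∈ Kb (St δ) (Matrix.vandermonde r)ᵀ := by
  set b : MZ (n + 2) := (Matrix.vandermonde r)ᵀ with hb
  have hbdet : b.det = (Matrix.vandermonde r).det := by rw [hb, Matrix.det_transpose]
  have hadj : b.adjugate * b = b.det • (1 : MZ (n + 2)) := Matrix.adjugate_mul b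
  have hcol : ∀ i, (fun k => b k i) = wv n (r i) := by
    intro i; funext k
    rw [hb, Matrix.transpose_apply, Matrix.vandermonde_apply, wv]
  set ψ : Fin (n + 2) → ℤ := t • b.adjugate j with hψ
  have h1 : ψ ⬝ᵥ wv n (r i) = 0 := by
    have h2 := congrFun (congrFun hadj j) i
    rw [Matrix.mul_apply, Matrix.smul_apply, Matrix.one_apply_ne hij.symm, smul_zero] at h2
    rw [hψ, smul_dotProduct, ← hcol i]
    have : (b.adjugate j) ⬝ᵥ (fun k => b k i) = ∑ k, b.adjugate j k * b k i := rfl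
    rw [this, h2, smul_zero]
  obtain ⟨_, γ, hγ, e⟩ := hA i ψ h1
  refine ⟨γ, hγ, ?_⟩
  rw [e, tv_coe, add_mul, mul_add, one_mul, mul_one, Matrix.vecMulVec_mul, Matrix.mul_vecMulVec]
  have h3 : b *ᵥ (Pi.single i 1) = wv n (r i) := by
    rw [← hcol i]
    ext k
    simp
  have h4 : (s • D0 • ψ) ᵥ* b = Pi.single j (s * D0 * (Matrix.vandermonde r).det * t) := by
    rw [hψ, Matrix.smul_vecMul, Matrix.smul_vecMul, Matrix.smul_vecMul]
    have h5 : (b.adjugate j) ᵥ* b = b.det • Pi.single j 1 := by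
      funext k
      have h2 := congrFun (congrFun hadj j) k
      rw [Matrix.mul_apply, Matrix.smul_apply, Matrix.one_apply] at h2
      have h6 : ((b.adjugate j) ᵥ* b) k = ∑ l, b.adjugate j l * b l k := rfl
      rw [h6, h2, Pi.smul_apply, Pi.single_apply]
      by_cases h : j = k
      · simp [h]
      · simp [h, Ne.symm h]
    rw [h5, hbdet]
    funext k
    simp only [Pi.smul_apply, Pi.single_apply, smul_eq_mul]
    split_ifs <;> ring
  rw [h3, h4]

theorem exponent (n T q s Δ D0 I : ℕ) (hT : T = 2 * (n + 2) * q) (hs : 1 ≤ s) (hq : 1 ≤ q)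
    (hΔ : Δ ≤ T ^ ((n + 2) ^ 2)) (hD : D0 ≤ T ^ ((n + 1) ^ 2 * (n + 2)))
    (hI : I ≤ (Δ * (s * D0 * Δ) ^ 2) ^ ((n + 2) ^ 2)) :
    I ≤ (2 * (n + 2) * s * q) ^ ((3 * (n + 2) ^ 2 + 2 * ((n + 1) ^ 2 * (n + 2)) + 2) * (n + 2) ^ 2) := by
  have hT1 : T ≤ 2 * (n + 2) * s * q := by
    rw [hT]
    calc 2 * (n + 2) * q = 2 * (n + 2) * 1 * q := by ring
      _ ≤ 2 * (n + 2) * s * q := by gcongr
  have hs1 : s ≤ 2 * (n + 2) * s * q := by
    calc s = 1 * s * 1 := by ring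
      _ ≤ 2 * (n + 2) * s * q := by gcongr; omega
  set B := 2 * (n + 2) * s * q with hB
  refine hI.trans ?_
  rw [pow_mul]
  refine Nat.pow_le_pow_left ?_ _
  calc Δ * (s * D0 * Δ) ^ 2
      ≤ B ^ ((n + 2) ^ 2) * (B * B ^ ((n + 1) ^ 2 * (n + 2)) * B ^ ((n + 2) ^ 2)) ^ 2 := by
        gcongr
        · exact hΔ.trans (Nat.pow_le_pow_left hT1 _)
        · exact hD.trans (Nat.pow_le_pow_left hT1 _)
        · exact hΔ.trans (Nat.pow_le_pow_left hT1 _)
    _ = B ^ (3 * (n + 2) ^ 2 + 2 * ((n + 1) ^ 2 * (n + 2)) + 2) := by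
        rw [← pow_succ', ← pow_add, ← pow_mul, ← pow_add]
        congr 1
        ring

theorem fixB (hgen : S_gen) (horb : S_orb) : S_fixB := by
  intro n
  refine ⟨(3 * (n + 2) ^ 2 + 2 * ((n + 1) ^ 2 * (n + 2)) + 2) * (n + 2) ^ 2, 2 * (n + 2), ?_⟩
  intro N _ H s q hs hq hfx
  classical
  set T := 2 * (n + 2) * q with hT
  have hT0 : 0 < T := by positivity
  have hT1 : 1 ≤ T := hT0
  rw [rdM_eq] at hfx
  have hsm : ∀ r t : ℤ, (s • pv n r t) ⬝ᵥ wv n r = 0 := by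
    intro r t
    rw [smul_dotProduct, pv_wv, smul_zero]
  -- the conjugates
  have hconj : ∀ a ∈ Finset.range T ×ˢ Finset.range T,
      fx H (rho (n + 2) N (el (wv n (a.1 : ℤ)) (s • pv n (a.1 : ℤ) (a.2 : ℤ)) (hsm _ _))) =
        fx H (rho (n + 2) N (tv 0 1 (by simp) s)) := by
    intro a _
    obtain ⟨g, hg⟩ := conj n (wv n (a.1 : ℤ)) (pv n (a.1 : ℤ) (a.2 : ℤ)) (by simp [wv])
      (by
        have : (1 : Fin (n + 2)) = Fin.succ 0 := rfl
        rw [this, pv, Fin.cons_succ]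
        simp) (pv_wv _ _ _) s (hsm _ _)
    rw [hg, map_mul, map_mul, map_inv, fx_conj]
  obtain ⟨δ, hδ⟩ := average (Finset.range T ×ˢ Finset.range T) H
    (fun a => rho (n + 2) N (el (wv n (a.1 : ℤ)) (s • pv n (a.1 : ℤ) (a.2 : ℤ)) (hsm _ _))) _ q hfx hconj
  rw [Finset.card_product, Finset.card_range, ← sq] at hδ
  obtain ⟨r, t, hr, ht, hrT, htT, hP⟩ := select n q hq
    (fun x y => rho (n + 2) N (el (wv n (x : ℤ)) (s • pv n (x : ℤ) (y : ℤ)) (hsm _ _)) • δ = δ)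
    (by convert hδ)
  -- the common multiple
  set D0 : ℤ := ∏ i, (Matrix.vandermonde (fun l => (t i l : ℤ))).det with hD0
  have hA : ∀ (i : Fin (n + 2)) (ψ : Fin (n + 2) → ℤ), ψ ⬝ᵥ wv n (r i) = 0 →
      D0 • ψ ∈ Ad (St δ) s (wv n (r i)) := by
    intro i ψ hψ
    have h1 := cramer_mem n (St δ) s (r i) (fun l => (t i l : ℤ)) (by
      intro l
      refine ⟨pv_wv _ _ _, _, (mem_St δ _).mpr (hP i l), el_coe _ _ _⟩) ψ hψ
    have h2 : D0 = (∏ k ∈ Finset.univ.erase i, (Matrix.vandermonde (fun l => (t k l : ℤ))).det) *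
        (Matrix.vandermonde (fun l => (t i l : ℤ))).det := by
      rw [hD0, Finset.prod_erase_mul _ _ (Finset.mem_univ i)]
    rw [h2, mul_smul]
    exact AddSubgroup.zsmul_mem _ h1 _
  have hE := step_E H δ s D0 (fun i => (r i : ℤ)) hA
  have hΔ : (Matrix.vandermonde (fun i => (r i : ℤ))).det ≠ 0 := vand_ne _ r hr
  have hfin := gen_step hgen H δ (Matrix.vandermonde (fun i => (r i : ℤ)))ᵀ
    (by rw [Matrix.det_transpose]; exact hΔ) _ hE
  rw [Matrix.det_transpose] at hfin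
  set Δ := (Matrix.vandermonde (fun i => (r i : ℤ))).det with hΔ'
  have hD0ne : D0 ≠ 0 := Finset.prod_ne_zero_iff.mpr fun i _ => vand_ne _ (t i) (ht i)
  have hbound := horb (n + 2) N H δ (Δ.natAbs * (s.natAbs * D0.natAbs * Δ.natAbs) ^ 2) (by
    have h1 : 0 < Δ.natAbs := Int.natAbs_pos.mpr hΔ
    have h2 : 0 < D0.natAbs := Int.natAbs_pos.mpr hD0ne
    have h3 : 0 < s.natAbs := Int.natAbs_pos.mpr hs
    positivity) (by
    intro g hg
    rw [rdM_eq]
    refine hfin g fun i j => ?_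
    refine dvd_trans ?_ (hg i j)
    have h4 : Δ * (s * D0 * Δ) ^ 2 ∣ (((Δ * (s * D0 * Δ) ^ 2).natAbs : ℕ) : ℤ) := by
      rw [Int.natCast_natAbs]
      exact (dvd_abs _ _).mpr dvd_rfl
    have h5 : (Δ * (s * D0 * Δ) ^ 2).natAbs = Δ.natAbs * (s.natAbs * D0.natAbs * Δ.natAbs) ^ 2 := by
      simp only [Int.natAbs_mul, Int.natAbs_pow]
    rw [h5] at h4
    exact h4)
  refine exponent n T q s.natAbs Δ.natAbs D0.natAbs _ hT (Int.natAbs_pos.mpr hs) hq ?_ ?_ hbound
  · exact vand_le (n + 2) T hT1 r hrT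
  · rw [hD0]
    have h3 : (∏ i, (Matrix.vandermonde (fun l => (t i l : ℤ))).det).natAbs =
        ∏ i, ((Matrix.vandermonde (fun l => (t i l : ℤ))).det).natAbs := map_prod Int.natAbsHom _ _
    rw [h3]
    refine (Finset.prod_le_pow_card _ _ (T ^ ((n + 1) ^ 2)) fun i _ => vand_le _ T hT1 _ (htT i)).trans ?_
    rw [← pow_mul, Finset.card_univ, Fintype.card_fin]

end Pool.Agent.T2h77.N.FixB

theorem Pool.Agent.T2h77.N.fixB : Pool.Agent.T2h77.N.S_gen → Pool.Agent.T2h77.N.S_orb → Pool.Agent.T2h77.N.S_fixB :=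
  Pool.Agent.T2h77.N.FixB.fixB
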