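import Pool.Agent.T2h77N.Api

/-!
# Relative elementary generation over `ℤ/N`; orbits (tasks S_gen, S_orb)
-/

set_option autoImplicit false

open Matrix
open scoped MatrixGroups

noncomputable section

namespace Pool.Agent.T2h77.N

namespace GenAux

/-- stable range one for `ℤ/N` -/
theorem sr (N : ℕ) [NeZero N] (x y a : ZMod N) (h : a * x + y = 1) : ∃ t : ZMod N, IsUnit (x + t * y) := by
  classical
  set T : ℕ := ∏ p ∈ N.primeFactors.filter (fun p => ¬ p ∣ x.val), p with hT
  refine ⟨(T : ZMod N), ?_⟩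
  have hN : N ≠ 0 := NeZero.ne N
  have e : x + (T : ZMod N) * y = ((x.val + T * y.val : ℕ) : ZMod N) := by
    push_cast
    rw [ZMod.natCast_zmod_val, ZMod.natCast_zmod_val]
  rw [e, ZMod.isUnit_iff_coprime]
  apply Nat.Coprime.symm
  rw [Nat.coprime_iff_gcd_eq_one]
  by_contra hne
  obtain ⟨p, hp, hpd⟩ := Nat.exists_prime_and_dvd hne
  have hpN : p ∣ N := hpd.trans (Nat.gcd_dvd_left _ _)
  have hpx : p ∣ x.val + T * y.val := hpd.trans (Nat.gcd_dvd_right _ _)
  by_cases hx : p ∣ x.val
  · have h1 : p ∣ T * y.val := (Nat.dvd_add_right hx).1 hpx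
    rcases hp.dvd_mul.1 h1 with h2 | h2
    · rw [hT, hp.prime.dvd_finsetProd_iff] at h2
      obtain ⟨q, hq, hpq⟩ := h2
      rw [Finset.mem_filter] at hq
      have hq2 := (Nat.mem_primeFactors.1 hq.1).1
      rw [Nat.prime_dvd_prime_iff_eq hp hq2] at hpq
      exact hq.2 (hpq ▸ hx)
    · have : Fact p.Prime := ⟨hp⟩
      have h3 := congrArg (ZMod.castHom hpN (ZMod p)) h
      rw [map_add, map_mul, map_one] at h3
      have hx0 : ZMod.castHom hpN (ZMod p) x = 0 := by
        rw [← ZMod.natCast_zmod_val x, map_natCast, ZMod.natCast_eq_zero_iff]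
        exact hx
      have hy0 : ZMod.castHom hpN (ZMod p) y = 0 := by
        rw [← ZMod.natCast_zmod_val y, map_natCast, ZMod.natCast_eq_zero_iff]
        exact h2
      rw [hx0, hy0, mul_zero, add_zero] at h3
      exact zero_ne_one h3
  · have h1 : p ∣ T := by
      rw [hT]
      exact Finset.dvd_prod_of_mem _ (Finset.mem_filter.2 ⟨Nat.mem_primeFactors.2 ⟨hp, hpN, hN⟩, hx⟩)
    exact hx ((Nat.dvd_add_left (h1.mul_right _)).1 hpx)

variable {n N : ℕ}

/-- the relative elementary group -/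
def ES (n N : ℕ) (s : ZMod N) : Subgroup (Matrix.SpecialLinearGroup (Fin n) (ZMod N)) :=
  Subgroup.closure {h | ∃ (i j : Fin n) (hij : i ≠ j) (t : ZMod N), h = tv i j hij (s * t)}

theorem tv_mem (s : ZMod N) (i j : Fin n) (hij : i ≠ j) (t : ZMod N) : tv i j hij (s * t) ∈ ES n N s :=
  Subgroup.subset_closure ⟨i, j, hij, t, rfl⟩

theorem tv_mul_apply {A : Type} [CommRing A] (i j : Fin n) (hij : i ≠ j) (t : A)
    (g : Matrix.SpecialLinearGroup (Fin n) A) (a b : Fin n) :
    (tv i j hij t * g) a b = g a b + if a = i then t * g j b else 0 := by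
  show (Matrix.transvection i j t * g.1) a b = _
  by_cases h : a = i
  · subst h
    rw [if_pos rfl, Matrix.transvection_mul_apply_same]
  · rw [if_neg h, Matrix.transvection_mul_apply_of_ne _ _ _ _ h, add_zero]

/-- row operations: add multiples of the other rows to the row `k` -/
theorem exRow (s : ZMod N) (k : Fin n) (c : Fin n → ZMod N) (J : Finset (Fin n)) (hk : k ∉ J) :
    ∃ e ∈ ES n N s, ∀ g : Matrix.SpecialLinearGroup (Fin n) (ZMod N), ∀ a b,
      (e * g) a b = g a b + if a = k then ∑ j ∈ J, s * c j * g j b else 0 := by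
  classical
  induction J using Finset.induction_on with
  | empty =>
    refine ⟨1, one_mem _, fun g a b => ?_⟩
    simp
  | insert j0 J hj ih =>
    have hk1 : k ∉ J := fun h => hk (Finset.mem_insert_of_mem h)
    have hk2 : k ≠ j0 := fun h => hk (h ▸ Finset.mem_insert_self _ _)
    obtain ⟨e, he, h⟩ := ih hk1
    refine ⟨tv k j0 hk2 (s * c j0) * e, mul_mem (tv_mem s k j0 hk2 _) he, fun g a b => ?_⟩
    rw [mul_assoc, tv_mul_apply, h, h]
    rw [if_neg (Ne.symm hk2 : j0 ≠ k), add_zero]
    by_cases ha : a = k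
    · rw [if_pos ha, if_pos ha, if_pos ha, Finset.sum_insert hj]
      ring
    · rw [if_neg ha, if_neg ha, if_neg ha, add_zero]

/-- row operations: add multiples of the row `k` to the other rows -/
theorem exCol (s : ZMod N) (k : Fin n) (c : Fin n → ZMod N) (J : Finset (Fin n)) (hk : k ∉ J) :
    ∃ e ∈ ES n N s, ∀ g : Matrix.SpecialLinearGroup (Fin n) (ZMod N), ∀ a b,
      (e * g) a b = g a b + if a ∈ J then s * c a * g k b else 0 := by
  classical
  induction J using Finset.induction_on with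
  | empty =>
    refine ⟨1, one_mem _, fun g a b => ?_⟩
    simp
  | insert j0 J hj ih =>
    have hk1 : k ∉ J := fun h => hk (Finset.mem_insert_of_mem h)
    have hk2 : j0 ≠ k := fun h => hk (h ▸ Finset.mem_insert_self _ _)
    obtain ⟨e, he, h⟩ := ih hk1
    refine ⟨tv j0 k hk2 (s * c j0) * e, mul_mem (tv_mem s j0 k hk2 _) he, fun g a b => ?_⟩
    rw [mul_assoc, tv_mul_apply, h, h]
    rw [if_neg hk1, add_zero]
    by_cases ha : a = j0
    · subst ha
      rw [if_neg hj, if_pos rfl, if_pos (Finset.mem_insert_self _ _)]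
      ring
    · rw [if_neg ha, add_zero]
      congr 1
      simp [Finset.mem_insert, ha]

/-- column operations: add multiples of the column `k` to the other columns -/
theorem exColR (s : ZMod N) (k : Fin n) (c : Fin n → ZMod N) (J : Finset (Fin n)) (hk : k ∉ J) :
    ∃ e ∈ ES n N s, ∀ g : Matrix.SpecialLinearGroup (Fin n) (ZMod N), ∀ a b,
      (g * e) a b = g a b + if b ∈ J then s * c b * g a k else 0 := by
  classical
  induction J using Finset.induction_on with
  | empty =>
    refine ⟨1, one_mem _, fun g a b => ?_⟩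
    simp
  | insert j0 J hj ih =>
    have hk1 : k ∉ J := fun h => hk (Finset.mem_insert_of_mem h)
    have hk2 : k ≠ j0 := fun h => hk (h ▸ Finset.mem_insert_self _ _)
    obtain ⟨e, he, h⟩ := ih hk1
    refine ⟨e * tv k j0 hk2 (s * c j0), mul_mem he (tv_mem s k j0 hk2 _), fun g a b => ?_⟩
    have h1 : (g * (e * tv k j0 hk2 (s * c j0))) a b =
        (g * e) a b + if b = j0 then s * c j0 * (g * e) a k else 0 := by
      rw [← mul_assoc]
      show ((g * e).1 * Matrix.transvection k j0 (s * c j0)) a b = _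
      by_cases hb : b = j0
      · subst hb
        rw [if_pos rfl, Matrix.mul_transvection_apply_same]
      · rw [if_neg hb, Matrix.mul_transvection_apply_of_ne _ _ _ _ hb, add_zero]
    rw [h1, h, h]
    rw [if_neg hk1, add_zero]
    by_cases ha : b = j0
    · subst ha
      rw [if_neg hj, if_pos rfl, if_pos (Finset.mem_insert_self _ _)]
      ring
    · rw [if_neg ha, add_zero]
      congr 1
      simp [Finset.mem_insert, ha]

/-- one step of the elimination -/
theorem step [NeZero N] (s : ZMod N) (D : Finset (Fin n)) (k i0 : Fin n) (hk : k ∉ D)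
    (hi0 : i0 ∉ D) (hik : i0 ≠ k) (g : Matrix.SpecialLinearGroup (Fin n) (ZMod N))
    (hg : ∀ i j, ∃ y, g i j = (if i = j then 1 else 0) + s ^ 2 * y)
    (hD : ∀ a ∈ D, ∀ b, g a b = (if a = b then 1 else 0) ∧ g b a = (if b = a then 1 else 0)) :
    ∃ e ∈ ES n N s, ∃ e' ∈ ES n N s,
      (∀ i j, ∃ y, (e * g * e') i j = (if i = j then 1 else 0) + s ^ 2 * y) ∧
      ∀ a ∈ insert k D, ∀ b, (e * g * e') a b = (if a = b then 1 else 0) ∧
        (e * g * e') b a = (if b = a then 1 else 0) := by
  classical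
  choose Y hY using hg
  set J : Finset (Fin n) := (Finset.univ \ D).erase k with hJ
  have hkJ : k ∉ J := Finset.notMem_erase _ _
  have hi0J : i0 ∈ J := Finset.mem_erase.2 ⟨hik, Finset.mem_sdiff.2 ⟨Finset.mem_univ _, hi0⟩⟩
  have hcases : ∀ a : Fin n, a = k ∨ a ∈ J ∨ a ∈ D := by
    intro a
    by_cases h1 : a = k
    · exact Or.inl h1
    · by_cases h2 : a ∈ D
      · exact Or.inr (Or.inr h2)
      · exact Or.inr (Or.inl (Finset.mem_erase.2 ⟨h1, Finset.mem_sdiff.2 ⟨Finset.mem_univ _, h2⟩⟩))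
  have hJne : ∀ a ∈ J, a ≠ k := fun a ha => Finset.ne_of_mem_erase ha
  have hJD : ∀ a ∈ J, a ∉ D := fun a ha => (Finset.mem_sdiff.1 (Finset.mem_of_mem_erase ha)).2
  -- unimodularity of the column `k`
  have huni : g⁻¹ k k * g k k + ∑ j ∈ J, g⁻¹ k j * g j k = 1 := by
    have h1 : (g⁻¹ * g) k k = 1 := by
      rw [inv_mul_cancel]
      simp
    have h2 : (g⁻¹ * g) k k = ∑ j, g⁻¹ k j * g j k := by
      rw [Matrix.SpecialLinearGroup.coe_mul, Matrix.mul_apply]
    rw [h2] at h1
    have h3 : ∑ j, g⁻¹ k j * g j k = ∑ j ∈ insert k J, g⁻¹ k j * g j k := by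
      symm
      apply Finset.sum_subset (Finset.subset_univ _)
      intro a _ ha
      have haD : a ∈ D := by
        rcases hcases a with h | h | h
        · exact absurd (h ▸ Finset.mem_insert_self _ _) ha
        · exact absurd (Finset.mem_insert_of_mem h) ha
        · exact h
      rw [(hD a haD k).1, if_neg (fun h : a = k => hk (h ▸ haD)), mul_zero]
    rw [h3, Finset.sum_insert hkJ] at h1
    exact h1
  set w : ZMod N := ∑ j ∈ J, g⁻¹ k j * g j k with hw
  have hv : g k k = 1 + s ^ 2 * Y k k := by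
    rw [hY k k, if_pos rfl]
  obtain ⟨t, ht⟩ := sr N (g k k) (-(s ^ 2 * Y k k * w)) (1 - s ^ 2 * Y k k * g⁻¹ k k) (by
    have h1 : w = 1 - g⁻¹ k k * g k k := by linear_combination huni
    rw [h1, hv]
    ring)
  obtain ⟨u, hu⟩ := ht
  set ui : ZMod N := ((u⁻¹ : (ZMod N)ˣ) : ZMod N) with hui
  have huui : (u : ZMod N) * ui = 1 := by
    rw [hui, ← Units.val_mul, mul_inv_cancel, Units.val_one]
  -- step A
  obtain ⟨e1, he1, h1⟩ := exRow s k (fun j => t * (-(s * Y k k * g⁻¹ k j))) J hkJ
  have g1k : (e1 * g) k k = u := by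
    rw [h1, if_pos rfl, hu, hw, Finset.mul_sum, ← Finset.sum_neg_distrib, Finset.mul_sum]
    congr 1
    refine Finset.sum_congr rfl fun j _ => ?_
    ring
  set Y1 : ZMod N := Y k k - t * (Y k k * w) with hY1
  have hu1 : (u : ZMod N) = 1 + s ^ 2 * Y1 := by
    rw [hu, hv, hY1]
    ring
  have g1a : ∀ a b, a ≠ k → (e1 * g) a b = g a b := by
    intro a b ha
    rw [h1, if_neg ha, add_zero]
  have g1s : ∀ b, b ≠ k → ∃ z, (e1 * g) k b = s * z ∧ (b ∈ D → z = 0) := by
    intro b hb
    rw [h1, if_pos rfl]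
    by_cases hbD : b ∈ D
    · refine ⟨0, ?_, fun _ => rfl⟩
      rw [(hD b hbD k).2, if_neg (Ne.symm hb), mul_zero, zero_add]
      refine Finset.sum_eq_zero fun j hj => ?_
      rw [(hD b hbD j).2, if_neg (fun h : j = b => hJD j hj (h ▸ hbD)), mul_zero]
    · refine ⟨s * Y k b + ∑ j ∈ J, t * (-(s * Y k k * g⁻¹ k j)) * g j b, ?_, fun h => absurd h hbD⟩
      rw [hY k b, if_neg (Ne.symm hb), mul_add, Finset.mul_sum]
      congr 1
      · ring
      · refine Finset.sum_congr rfl fun j _ => ?_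
        ring
  choose! z1 hz1 hz1D using g1s
  -- step B
  obtain ⟨e2, he2, h2⟩ := exCol s k (fun a => -(s * Y a k * ui)) J hkJ
  have g2k : ∀ b, (e2 * (e1 * g)) k b = (e1 * g) k b := by
    intro b
    rw [h2, if_neg hkJ, add_zero]
  have g2J : ∀ a ∈ J, (e2 * (e1 * g)) a k = 0 := by
    intro a ha
    rw [h2, if_pos ha, g1k, g1a a k (hJne a ha), hY a k, if_neg (hJne a ha)]
    linear_combination (-(s ^ 2 * Y a k)) * huui
  have g2s : ∀ a ∈ J, ∀ b, b ≠ k → ∃ y, (e2 * (e1 * g)) a b = (if a = b then 1 else 0) + s ^ 2 * y := by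
    intro a ha b hb
    refine ⟨Y a b + -(Y a k * ui) * (s * z1 b), ?_⟩
    rw [h2, if_pos ha, g1a a b (hJne a ha), hY a b, hz1 b hb]
    ring
  have g2D : ∀ a ∈ D, ∀ b, (e2 * (e1 * g)) a b = (if a = b then 1 else 0) := by
    intro a ha b
    rw [h2, if_neg (fun h => hJD a h ha), add_zero, g1a a b (fun h => hk (h ▸ ha))]
    exact (hD a ha b).1
  have g2D' : ∀ a ∈ D, ∀ b, (e2 * (e1 * g)) b a = (if b = a then 1 else 0) := by
    intro a ha b
    have hak : a ≠ k := fun h => hk (h ▸ ha)
    rcases hcases b with h | h | h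
    · rw [h, g2k, hz1 a hak, hz1D a hak ha, mul_zero, if_neg hak.symm]
    · rw [h2, if_pos h, g1a b a (hJne b h), (hD a ha b).2, hz1 a hak, hz1D a hak ha]
      ring
    · rw [g2D b h a]
  choose! z2 hz2 using g2s
  set g2 := e2 * (e1 * g) with hg2
  have g2kk : g2 k k = u := by rw [g2k, g1k]
  have g2kb : ∀ b, b ≠ k → g2 k b = s * z1 b := fun b hb => by rw [g2k, hz1 b hb]
  -- step C
  have hki : k ≠ i0 := hik.symm
  have hg3 : ∀ a b, (tv i0 k hik (s * -(Y1 * ui)) * g2) a b =
      g2 a b + if a = i0 then s * -(Y1 * ui) * g2 k b else 0 := fun a b => tv_mul_apply _ _ _ _ _ _ _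
  set g3 := tv i0 k hik (s * -(Y1 * ui)) * g2 with hg3d
  have hg4 : ∀ a b, (tv k i0 hki (s * 1) * g3) a b =
      g3 a b + if a = k then s * 1 * g3 i0 b else 0 := fun a b => tv_mul_apply _ _ _ _ _ _ _
  set g4 := tv k i0 hki (s * 1) * g3 with hg4d
  have hg5 : ∀ a b, (tv i0 k hik (s * Y1) * g4) a b =
      g4 a b + if a = i0 then s * Y1 * g4 k b else 0 := fun a b => tv_mul_apply _ _ _ _ _ _ _
  set g5 := tv i0 k hik (s * Y1) * g4 with hg5d
  have g4k : ∀ b, g4 k b = g2 k b + s * (g2 i0 b + s * -(Y1 * ui) * g2 k b) := by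
    intro b
    rw [hg4, if_pos rfl, hg3, hg3, if_neg hki, if_pos rfl]
    ring
  have g4kk : g4 k k = 1 := by
    rw [g4k, g2kk, g2J i0 hi0J, hu1]
    have h3 : (1 + s ^ 2 * Y1) * ui = 1 := by rw [← hu1]; exact huui
    linear_combination (-(s ^ 2 * Y1)) * h3
  have g5k : ∀ b, g5 k b = g4 k b := by
    intro b
    rw [hg5, if_neg hki, add_zero]
  have g5i : ∀ b, g5 i0 b = g2 i0 b + s * -(Y1 * ui) * g2 k b + s * Y1 * g4 k b := by
    intro b
    rw [hg5, if_pos rfl, hg4, if_neg hik, hg3, if_pos rfl]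
    ring
  have g5o : ∀ a b, a ≠ k → a ≠ i0 → g5 a b = g2 a b := by
    intro a b ha ha'
    rw [hg5, if_neg ha', hg4, if_neg ha, hg3, if_neg ha']
    ring
  have g5col : ∀ a, g5 a k = if a = k then 1 else 0 := by
    intro a
    by_cases ha : a = k
    · rw [if_pos ha, ha, g5k, g4kk]
    · rw [if_neg ha]
      by_cases ha' : a = i0
      · rw [ha', g5i, g2J i0 hi0J, g2kk, g4kk, hu1]
        have h3 : (1 + s ^ 2 * Y1) * ui = 1 := by rw [← hu1]; exact huui
        linear_combination (-(s * Y1)) * h3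
      · rw [g5o a k ha ha']
        rcases hcases a with h | h | h
        · exact absurd h ha
        · exact g2J a h
        · rw [g2D a h k, if_neg ha]
  have g5kb : ∀ b, b ≠ k → ∃ z, g5 k b = s * z ∧ (b ∈ D → z = 0) := by
    intro b hb
    by_cases hbD : b ∈ D
    · refine ⟨0, ?_, fun _ => rfl⟩
      rw [g5k, g4k, g2D' b hbD, g2D' b hbD, if_neg (Ne.symm hb),
        if_neg (fun h : i0 = b => hi0 (h ▸ hbD))]
      ring
    · refine ⟨z1 b + (g2 i0 b + s * -(Y1 * ui) * g2 k b), ?_, fun h => absurd h hbD⟩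
      rw [g5k, g4k, g2kb b hb]
      ring
  choose! z5 hz5 hz5D using g5kb
  -- step D
  obtain ⟨e6, he6, h6⟩ := exColR s k (fun b => -(z5 b)) J hkJ
  have hg6 : ∀ a b, (g5 * e6) a b = if a = k then (if k = b then 1 else 0) else g5 a b := by
    intro a b
    rw [h6, g5col a]
    by_cases ha : a = k
    · rw [if_pos ha, ha, if_pos rfl]
      rcases hcases b with h | h | h
      · rw [h, if_neg hkJ, if_pos rfl, g5col, if_pos rfl, add_zero]
      · rw [if_pos h, if_neg (Ne.symm (hJne b h)), hz5 b (hJne b h)]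
        ring
      · have hbk : b ≠ k := fun h' => hk (h' ▸ h)
        rw [if_neg (fun h' => hJD b h' h), if_neg hbk.symm, hz5 b hbk, hz5D b hbk h]
        ring
    · rw [if_neg ha, if_neg ha]
      split_ifs <;> ring
  refine ⟨tv i0 k hik (s * Y1) * (tv k i0 hki (s * 1) * (tv i0 k hik (s * -(Y1 * ui)) * (e2 * e1))),
    mul_mem (tv_mem _ _ _ _ _) (mul_mem (tv_mem _ _ _ _ _) (mul_mem (tv_mem _ _ _ _ _)
      (mul_mem he2 he1))), e6, he6, ?_⟩
  have heq : tv i0 k hik (s * Y1) * (tv k i0 hki (s * 1) * (tv i0 k hik (s * -(Y1 * ui)) *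
      (e2 * e1))) * g * e6 = g5 * e6 := by
    rw [hg5d, hg4d, hg3d, hg2]
    simp only [mul_assoc]
  rw [heq]
  have hrest : ∀ a ∈ D, ∀ b, (g5 * e6) a b = (if a = b then 1 else 0) := by
    intro a ha b
    have hak : a ≠ k := fun h => hk (h ▸ ha)
    rw [hg6, if_neg hak, g5o a b hak (fun h => hi0 (h ▸ ha)), g2D a ha]
  constructor
  · intro a b
    rcases hcases a with h | h | h
    · refine ⟨0, ?_⟩
      rw [hg6, if_pos h, h]
      ring
    · rw [hg6, if_neg (hJne a h)]
      by_cases hbk : b = k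
      · refine ⟨0, ?_⟩
        rw [hbk, g5col, if_neg (hJne a h)]
        ring
      · by_cases hai : a = i0
        · refine ⟨z2 i0 b + -(Y1 * ui) * z1 b + Y1 * z5 b, ?_⟩
          rw [hai, g5i, ← g5k b, hz5 b hbk, g2kb b hbk, hz2 i0 hi0J b hbk]
          ring
        · exact ⟨z2 a b, by rw [g5o a b (hJne a h) hai, hz2 a h b hbk]⟩
    · exact ⟨0, by rw [hrest a h]; ring⟩
  · intro a ha b
    rcases Finset.mem_insert.1 ha with h | h
    · rw [h]
      constructor
      · rw [hg6, if_pos rfl]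
      · rw [hg6]
        by_cases hb : b = k
        · rw [if_pos hb, if_pos rfl, if_pos hb]
        · rw [if_neg hb, if_neg hb, g5col, if_neg hb]
    · refine ⟨hrest a h b, ?_⟩
      have hak : a ≠ k := fun h' => hk (h' ▸ h)
      rw [hg6]
      by_cases hb : b = k
      · rw [if_pos hb, if_neg hak.symm, hb, if_neg hak.symm]
      · rw [if_neg hb]
        by_cases hbi : b = i0
        · have hbi' : ¬ i0 = a := fun h' => hi0 (h' ▸ h)
          rw [hbi, g5i, ← g5k a, hz5 a hak, hz5D a hak h, g2D' a h, g2D' a h, if_neg hbi',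
            if_neg hak.symm]
          ring
        · rw [g5o b a hb hbi, g2D' a h]

theorem gen_aux [NeZero N] (s : ZMod N) (m : ℕ) : ∀ (D : Finset (Fin n)), (Finset.univ \ D).card = m →
    ∀ g : Matrix.SpecialLinearGroup (Fin n) (ZMod N),
    (∀ i j, ∃ y, g i j = (if i = j then 1 else 0) + s ^ 2 * y) →
    (∀ a ∈ D, ∀ b, g a b = (if a = b then 1 else 0) ∧ g b a = (if b = a then 1 else 0)) →
    g ∈ ES n N s := by
  classical
  induction m with
  | zero =>
    intro D hc g hg hD
    have hDu : ∀ a, a ∈ D := by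
      intro a
      by_contra h
      have : a ∈ Finset.univ \ D := Finset.mem_sdiff.2 ⟨Finset.mem_univ _, h⟩
      rw [Finset.card_eq_zero.1 hc] at this
      exact absurd this (Finset.notMem_empty _)
    have : g = 1 := by
      ext a b
      rw [(hD a (hDu a) b).1]
      simp [Matrix.one_apply]
    rw [this]
    exact one_mem _
  | succ m ih =>
    intro D hc g hg hD
    obtain ⟨k, hkm⟩ : (Finset.univ \ D).Nonempty := by
      rw [← Finset.card_pos]
      omega
    have hk : k ∉ D := (Finset.mem_sdiff.1 hkm).2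
    have hcard : (Finset.univ \ insert k D).card = m := by
      have h1 : Finset.univ \ insert k D = (Finset.univ \ D).erase k := by
        ext a
        simp only [Finset.mem_sdiff, Finset.mem_univ, true_and, Finset.mem_insert, Finset.mem_erase]
        tauto
      rw [h1, Finset.card_erase_of_mem hkm]
      omega
    by_cases hex : ∃ i0, i0 ∉ D ∧ i0 ≠ k
    · obtain ⟨i0, hi0, hik⟩ := hex
      obtain ⟨e, he, e', he', h1, h2⟩ := step s D k i0 hk hi0 hik g hg hD
      have h3 := ih (insert k D) hcard (e * g * e') h1 h2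
      have h4 : g = e⁻¹ * (e * g * e') * e'⁻¹ := by
        simp [mul_assoc]
      rw [h4]
      exact mul_mem (mul_mem (inv_mem he) h3) (inv_mem he')
    · push Not at hex
      have hD2 : ∀ a, a ≠ k → a ∈ D := by
        intro a ha
        by_contra h
        exact ha (hex a h)
      have hgd : g.1 = Matrix.diagonal (fun a => if a = k then g k k else 1) := by
        ext a b
        by_cases hab : a = b
        · subst hab
          rw [Matrix.diagonal_apply_eq]
          by_cases ha : a = k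
          · rw [if_pos ha, ha]
          · rw [if_neg ha]
            have := (hD a (hD2 a ha) a).1
            rw [if_pos rfl] at this
            exact this
        · rw [Matrix.diagonal_apply_ne _ hab]
          by_cases ha : a = k
          · have hb : b ≠ k := fun h => hab (ha.trans h.symm)
            have := (hD b (hD2 b hb) a).2
            rw [if_neg hab] at this
            exact this
          · have := (hD a (hD2 a ha) b).1
            rw [if_neg hab] at this
            exact this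
      have hdet : g k k = 1 := by
        have h1 := g.2
        rw [hgd, Matrix.det_diagonal, Finset.prod_ite_eq' ] at h1
        simpa using h1
      have : g = 1 := by
        apply Subtype.ext
        rw [hgd, hdet]
        ext a b
        simp [Matrix.diagonal_apply, Matrix.one_apply]
      rw [this]
      exact one_mem _

end GenAux

open GenAux in
theorem gen : S_gen := by
  intro n N _ s g hg
  exact gen_aux s _ ∅ rfl g hg fun a ha => absurd ha (Finset.notMem_empty _)


theorem map_tv {n N : ℕ} (i j : Fin n) (hij : i ≠ j) (t : ℤ) :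
    Matrix.SpecialLinearGroup.map (n := Fin n) (Int.castRingHom (ZMod N)) (tv i j hij t) =
      tv i j hij (t : ZMod N) := by
  apply Subtype.ext
  ext a b
  show (Int.castRingHom (ZMod N)) (Matrix.transvection i j t a b) =
    Matrix.transvection i j (t : ZMod N) a b
  simp only [Matrix.transvection, Matrix.add_apply, Matrix.one_apply, Matrix.single_apply]
  split_ifs <;> simp

/-- `SL_n(ℤ)` maps onto `SL_n(ℤ/N)` -/
theorem surj (n N : ℕ) [NeZero N] :
    Function.Surjective (Matrix.SpecialLinearGroup.map (n := Fin n) (Int.castRingHom (ZMod N))) := by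
  intro g
  have h1 : g ∈ GenAux.ES n N 1 := by
    refine gen n N 1 g fun i j => ⟨g i j - if i = j then 1 else 0, ?_⟩
    ring
  have h2 : GenAux.ES n N 1 ≤
      (Matrix.SpecialLinearGroup.map (n := Fin n) (Int.castRingHom (ZMod N))).range := by
    rw [GenAux.ES, Subgroup.closure_le]
    rintro _ ⟨i, j, hij, t, rfl⟩
    refine ⟨tv i j hij (t.val : ℤ), ?_⟩
    rw [map_tv]
    congr 1
    simp
  exact h2 h1

namespace GenAux

variable {n N : ℕ}

/-- conjugation of `SL_n` by an element of `GL_n` -/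
def conjSL (x : GN n N) : Matrix.SpecialLinearGroup (Fin n) (ZMod N) →*
    Matrix.SpecialLinearGroup (Fin n) (ZMod N) where
  toFun g := ⟨(x⁻¹ : GN n N).1 * g.1 * x.1, by
    rw [Matrix.det_mul, Matrix.det_mul, g.2, mul_one, ← Matrix.det_mul, ← Units.val_mul,
      inv_mul_cancel, Units.val_one, Matrix.det_one]⟩
  map_one' := by
    apply Subtype.ext
    show (x⁻¹ : GN n N).1 * 1 * x.1 = 1
    rw [mul_one, ← Units.val_mul, inv_mul_cancel, Units.val_one]
  map_mul' g h := by
    apply Subtype.ext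
    show (x⁻¹ : GN n N).1 * (g.1 * h.1) * x.1 =
      ((x⁻¹ : GN n N).1 * g.1 * x.1) * ((x⁻¹ : GN n N).1 * h.1 * x.1)
    have h1 : x.1 * (x⁻¹ : GN n N).1 = 1 := by
      rw [← Units.val_mul, mul_inv_cancel, Units.val_one]
    calc (x⁻¹ : GN n N).1 * (g.1 * h.1) * x.1
        = (x⁻¹ : GN n N).1 * g.1 * (1 * h.1) * x.1 := by simp only [one_mul, mul_assoc]
      _ = (x⁻¹ : GN n N).1 * g.1 * ((x.1 * (x⁻¹ : GN n N).1) * h.1) * x.1 := by rw [h1]
      _ = _ := by simp only [mul_assoc]

theorem conjSL_surj (x : GN n N) : Function.Surjective (conjSL x) := by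
  intro g
  refine ⟨conjSL x⁻¹ g, ?_⟩
  apply Subtype.ext
  show (x⁻¹ : GN n N).1 * ((x⁻¹⁻¹ : GN n N).1 * g.1 * (x⁻¹ : GN n N).1) * x.1 = g.1
  have h1 : (x⁻¹ : GN n N).1 * x.1 = 1 := by
    rw [← Units.val_mul, inv_mul_cancel, Units.val_one]
  rw [inv_inv]
  calc (x⁻¹ : GN n N).1 * (x.1 * g.1 * (x⁻¹ : GN n N).1) * x.1
      = ((x⁻¹ : GN n N).1 * x.1) * g.1 * ((x⁻¹ : GN n N).1 * x.1) := by simp only [mul_assoc]
    _ = g.1 := by rw [h1, one_mul, mul_one]

theorem toGL_conjSL (x : GN n N) (g : Matrix.SpecialLinearGroup (Fin n) (ZMod N)) :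
    Matrix.SpecialLinearGroup.toGL (conjSL x g) = x⁻¹ * Matrix.SpecialLinearGroup.toGL g * x := by
  apply Units.ext
  rfl

/-- the stabiliser of a point in `SL_n(ℤ)` -/
def stab (H : Subgroup (GN n N)) (c : XX H) : Subgroup (GZ n) :=
  (MulAction.stabilizer (GN n N) c).comap (rdH n N)

theorem mem_stab {H : Subgroup (GN n N)} {c : XX H} {γ : GZ n} :
    γ ∈ stab H c ↔ rdM N (γ : MZ n) • c = c := Iff.rfl

/-- its index is `ixS H` -/
theorem index_stab [NeZero N] (H : Subgroup (GN n N)) (c : XX H) : (stab H c).index = ixS H := by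
  obtain ⟨x, rfl⟩ := QuotientGroup.mk_surjective c
  have h1 : stab H (x : XX H) = ((H.comap (Matrix.SpecialLinearGroup.toGL :
      Matrix.SpecialLinearGroup (Fin n) (ZMod N) →* GN n N)).comap (conjSL x)).comap
      (Matrix.SpecialLinearGroup.map (n := Fin n) (Int.castRingHom (ZMod N))) := by
    ext γ
    rw [mem_stab, Subgroup.mem_comap, Subgroup.mem_comap, Subgroup.mem_comap, toGL_conjSL,
      ← rdM_eq_toGL]
    rw [eq_comm]
    show ((x : XX H) = ((rdM N (γ : MZ n) * x : GN n N) : XX H)) ↔ _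
    rw [QuotientGroup.eq, mul_assoc]
  rw [h1, Subgroup.index_comap_of_surjective _ (surj n N),
    Subgroup.index_comap_of_surjective _ (conjSL_surj x)]
  rfl

/-- the kernel of the reduction modulo `D` has index at most `D^(n^2)` -/
theorem index_ker (n D : ℕ) (hD : 0 < D) :
    (Matrix.SpecialLinearGroup.map (n := Fin n) (Int.castRingHom (ZMod D))).ker.index ≤ D ^ (n ^ 2) ∧
      (Matrix.SpecialLinearGroup.map (n := Fin n) (Int.castRingHom (ZMod D))).ker.index ≠ 0 := by
  have : NeZero D := ⟨hD.ne'⟩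
  rw [Subgroup.index_ker]
  constructor
  · calc Nat.card (Matrix.SpecialLinearGroup.map (n := Fin n) (Int.castRingHom (ZMod D))).range
        ≤ Nat.card (Matrix.SpecialLinearGroup (Fin n) (ZMod D)) :=
          Nat.card_le_card_of_injective _ Subtype.val_injective
      _ ≤ Nat.card (Matrix (Fin n) (Fin n) (ZMod D)) :=
          Nat.card_le_card_of_injective _ Subtype.val_injective
      _ = D ^ (n ^ 2) := by
          rw [Nat.card_eq_fintype_card]
          show Fintype.card (Fin n → Fin n → ZMod D) = _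
          rw [Fintype.card_fun, Fintype.card_fun, ZMod.card, Fintype.card_fin, ← pow_mul, sq]
  · exact Nat.card_ne_zero.2 ⟨inferInstance, inferInstance⟩

theorem orb_aux {n N : ℕ} [NeZero N] (H : Subgroup (GN n N)) (c : XX H) (D : ℕ) (hD : 0 < D)
    (h : ∀ g : GZ n, (∀ i j, (D : ℤ) ∣ g i j - (if i = j then 1 else 0)) → rdM N (g : MZ n) • c = c) :
    ixS H ≤ D ^ (n ^ 2) := by
  rw [← index_stab H c]
  have h1 : (Matrix.SpecialLinearGroup.map (n := Fin n) (Int.castRingHom (ZMod D))).ker ≤ stab H c := by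
    intro γ hγ
    rw [mem_stab]
    apply h
    intro i j
    have h2 : Matrix.SpecialLinearGroup.map (n := Fin n) (Int.castRingHom (ZMod D)) γ = 1 :=
      MonoidHom.mem_ker.1 hγ
    have h3 : (γ i j : ZMod D) = ((1 : Matrix.SpecialLinearGroup (Fin n) (ZMod D)) i j) := by
      rw [← h2]
      rfl
    rw [← ZMod.intCast_zmod_eq_zero_iff_dvd]
    push_cast
    rw [h3]
    simp [Matrix.one_apply]
  obtain ⟨h2, h3⟩ := index_ker n D hD
  exact (Nat.le_of_dvd (Nat.pos_of_ne_zero h3) (Subgroup.index_dvd_of_le h1)).trans h2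

end GenAux

theorem orb : S_orb := fun _ _ _ H c D hD h => GenAux.orb_aux H c D hD h

theorem ixS_ne_zero {n N : ℕ} [NeZero N] (H : Subgroup (GN n N)) : ixS H ≠ 0 :=
  Subgroup.index_ne_zero_of_finite

theorem ixS_pos {n N : ℕ} [NeZero N] (H : Subgroup (GN n N)) : 0 < ixS H :=
  Nat.pos_of_ne_zero (ixS_ne_zero H)

theorem ixS_le {n N : ℕ} [NeZero N] (H : Subgroup (GN n N)) : ixS H ≤ H.index := by
  unfold ixS
  rw [Subgroup.index_comap, ← Subgroup.relIndex_top_right]
  exact Subgroup.relIndex_le_of_le_right le_top (by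
    rw [Subgroup.relIndex_top_right]
    exact Subgroup.index_ne_zero_of_finite)

/-- the orbits of `SL_n(ℤ)` on the level space have `ixS H` elements -/
theorem card_orbit {n N : ℕ} [NeZero N] (H : Subgroup (GN n N)) (c : XX H) :
    Nat.card {c' : XX H // ∃ γ : GZ n, c' = rdM N (γ : MZ n) • c} = ixS H := by
  rw [← GenAux.index_stab H c, Subgroup.index]
  refine (Nat.card_congr ?_).symm
  refine Equiv.ofBijective (Quotient.lift (fun γ : GZ n =>
    (⟨rdM N (γ : MZ n) • c, γ, rfl⟩ : {c' : XX H // ∃ γ : GZ n, c' = rdM N (γ : MZ n) • c})) ?_) ⟨?_, ?_⟩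
  · intro a b hab
    have h1 := QuotientGroup.leftRel_apply.1 hab
    rw [GenAux.mem_stab, rdM_coe_mul, rdM_inv, mul_smul, inv_smul_eq_iff] at h1
    exact Subtype.ext h1.symm
  · intro a b
    induction a using Quotient.inductionOn with | _ a => ?_
    induction b using Quotient.inductionOn with | _ b => ?_
    intro h
    have h1 : rdM N (a : MZ n) • c = rdM N (b : MZ n) • c := congrArg Subtype.val h
    apply Quotient.sound
    apply QuotientGroup.leftRel_apply.2
    rw [GenAux.mem_stab, rdM_coe_mul, rdM_inv, mul_smul, inv_smul_eq_iff]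
    exact h1.symm
  · rintro ⟨c', γ, rfl⟩
    exact ⟨Quotient.mk _ γ, rfl⟩

end Pool.Agent.T2h77.N
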