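import Pool.Agent.T2h77N.Iw

/-!
# Reduction theory for `SL_n(ℤ)` (by the argument of Lenstra, Lenstra and Lovász): the statement `S_red`
-/

set_option autoImplicit false

open MeasureTheory Matrix
open scoped MatrixGroups ENNReal

noncomputable section

namespace Pool.Agent.T2h77.N

/-! ### Characterisation of the Gram-Schmidt vectors -/

theorem rd_span {n : ℕ} (x : GR n) (i : Fin n) :
    Submodule.span ℝ (gsv x '' Set.Iio i) = Submodule.span ℝ (row x '' Set.Iio i) :=
  InnerProductSpace.span_gramSchmidt_Iio ℝ (row x) i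

theorem rd_sub_mem {n : ℕ} (x : GR n) (i : Fin n) :
    row x i - gsv x i ∈ Submodule.span ℝ (row x '' Set.Iio i) := by
  rw [← rd_span]
  have h := iw_rec x i
  have h2 : row x i - gsv x i = ∑ j ∈ Finset.Iio i,
      (inner ℝ (gsv x j) (row x i) / ‖gsv x j‖ ^ 2) • gsv x j := by
    rw [sub_eq_iff_eq_add, add_comm]; exact h
  rw [h2]
  refine Submodule.sum_mem _ fun j hj => Submodule.smul_mem _ _ (Submodule.subset_span ?_)
  exact ⟨j, Finset.mem_Iio.mp hj, rfl⟩

theorem rd_orth_gsv {n : ℕ} (x : GR n) (i : Fin n) {v : EuclideanSpace ℝ (Fin n)}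
    (hv : v ∈ Submodule.span ℝ (row x '' Set.Iio i)) : inner ℝ (gsv x i) v = 0 := by
  rw [← rd_span] at hv
  induction hv using Submodule.span_induction with
  | mem v hv =>
    obtain ⟨j, hj, rfl⟩ := hv
    exact iw_orth x (ne_of_gt hj)
  | zero => simp
  | add u v _ _ hu hv => rw [inner_add_right, hu, hv, add_zero]
  | smul a v _ hv => rw [inner_smul_right, hv, mul_zero]

/-- the characterisation -/
theorem rd_char {n : ℕ} (x : GR n) (i : Fin n) (v : EuclideanSpace ℝ (Fin n))
    (h1 : row x i - v ∈ Submodule.span ℝ (row x '' Set.Iio i))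
    (h2 : ∀ u ∈ Submodule.span ℝ (row x '' Set.Iio i), inner ℝ v u = 0) : gsv x i = v := by
  have h3 : gsv x i - v ∈ Submodule.span ℝ (row x '' Set.Iio i) := by
    have := Submodule.sub_mem _ h1 (rd_sub_mem x i)
    convert this using 1
    abel
  have h4 : inner ℝ (gsv x i - v) (gsv x i - v) = 0 := by
    rw [inner_sub_left, rd_orth_gsv x i h3, h2 _ h3, sub_zero]
  have h5 : gsv x i - v = 0 := inner_self_eq_zero.mp h4
  exact sub_eq_zero.mp h5

/-! ### Left multiplication by lower unitriangular matrices -/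

theorem rd_low {n : ℕ} (x y : GR n) (ν : Matrix (Fin n) (Fin n) ℝ) (h1 : ∀ i, ν i i = 1)
    (h0 : ∀ i j, i < j → ν i j = 0) (hy : y.1 = ν * x.1) :
    ac y = ac x ∧ Matrix.of (lc y) = ν * Matrix.of (lc x) := by
  have h := iw_unique y (ν * Matrix.of (lc x)) (kc x) (ac x) ?_ ?_ (iw_ac_pos x) (iw_kc_mul x) ?_
  · exact ⟨h.1.symm, h.2.symm⟩
  · intro i
    rw [Matrix.mul_apply, Finset.sum_eq_single i]
    · rw [h1]; simp [lc]
    · intro l _ hl
      rcases lt_or_gt_of_ne hl with h | h
      · simp [lc, h.ne, h.not_gt]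
      · rw [h0 i l h, zero_mul]
    · simp
  · intro i j hij
    rw [Matrix.mul_apply]
    refine Finset.sum_eq_zero fun l _ => ?_
    by_cases hl : i < l
    · rw [h0 i l hl, zero_mul]
    · have hlj : l < j := lt_of_le_of_lt (not_lt.mp hl) hij
      simp [lc, hlj.ne, hlj.not_gt]
  · rw [hy]
    conv_lhs => rw [iw_decomp x]
    simp only [Matrix.mul_assoc]

/-- reduction of one row -/
theorem rd_row {n : ℕ} (L : Matrix (Fin n) (Fin n) ℝ) (h1 : ∀ i, L i i = 1)
    (h0 : ∀ i j, i < j → L i j = 0) (i : Fin n) :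
    ∃ v : Fin n → ℤ, v i = 1 ∧ (∀ l, i < l → v l = 0) ∧
      ∀ j, j < i → 0 ≤ ∑ l, (v l : ℝ) * L l j ∧ ∑ l, (v l : ℝ) * L l j < 1 := by
  have key : ∀ d : ℕ, d ≤ (i : ℕ) → ∃ v : Fin n → ℤ, v i = 1 ∧ (∀ l, i < l → v l = 0) ∧
      ∀ j : Fin n, (i : ℕ) ≤ (j : ℕ) + d → j < i →
        0 ≤ ∑ l, (v l : ℝ) * L l j ∧ ∑ l, (v l : ℝ) * L l j < 1 := by
    intro d
    induction d with
    | zero =>
      intro _
      refine ⟨fun l => if l = i then 1 else 0, by simp, fun l hl => by simp [hl.ne'], ?_⟩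
      intro j hj hji
      have : (j : ℕ) < (i : ℕ) := hji
      omega
    | succ d ih =>
      intro hd
      obtain ⟨v, hv1, hv0, hv⟩ := ih (by omega)
      let m : Fin n := ⟨(i : ℕ) - (d + 1), by omega⟩
      have hmi : m < i := by
        show (i : ℕ) - (d + 1) < (i : ℕ)
        omega
      let s : ℝ := ∑ l, (v l : ℝ) * L l m
      refine ⟨fun l => if l = m then v l - ⌊s⌋ else v l, ?_, ?_, ?_⟩
      · simp [hmi.ne', hv1]
      · intro l hl
        have : l ≠ m := (hmi.trans hl).ne'
        simp [this, hv0 l hl]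
      · intro j hj hji
        have e1 : ∑ l, (((if l = m then v l - ⌊s⌋ else v l : ℤ)) : ℝ) * L l j =
            ∑ l, (v l : ℝ) * L l j - ⌊s⌋ * L m j := by
          have : ∀ l, (((if l = m then v l - ⌊s⌋ else v l : ℤ)) : ℝ) * L l j =
              (v l : ℝ) * L l j - (if l = m then (⌊s⌋ : ℝ) * L m j else 0) := by
            intro l
            by_cases hl : l = m
            · subst hl; simp; ring
            · simp [hl]
          simp_rw [this]
          rw [Finset.sum_sub_distrib]
          simp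
        rw [e1]
        by_cases hjm : j = m
        · subst hjm
          rw [h1, mul_one]
          exact ⟨sub_nonneg.mpr (Int.floor_le s), by linarith [Int.lt_floor_add_one s]⟩
        · have hmj : m < j := by
            show (i : ℕ) - (d + 1) < (j : ℕ)
            have : (j : ℕ) ≠ (i : ℕ) - (d + 1) := fun h => hjm (Fin.ext h)
            omega
          rw [h0 m j hmj, mul_zero, sub_zero]
          refine hv j ?_ hji
          have : (i : ℕ) - (d + 1) < (j : ℕ) := hmj
          omega
  obtain ⟨v, a, b, c⟩ := key i le_rfl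
  exact ⟨v, a, b, fun j hj => c j (by omega) hj⟩

/-- size reduction -/
theorem rd_size {n : ℕ} (x : GR n) :
    ∃ γ : GZ n, ac (io n γ * x) = ac x ∧
      ∀ i j : Fin n, j < i → 0 ≤ lc (io n γ * x) i j ∧ lc (io n γ * x) i j < 1 := by
  have hL1 : ∀ i, Matrix.of (lc x) i i = 1 := fun i => by simp [lc]
  have hL0 : ∀ i j : Fin n, i < j → Matrix.of (lc x) i j = 0 := fun i j hij => by
    simp [lc, hij.ne, hij.not_gt]
  choose v hv1 hv0 hv using rd_row (Matrix.of (lc x)) hL1 hL0
  have hdet : (Matrix.of v : MZ n).det = 1 := by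
    rw [Matrix.det_of_isLowerTriangular]
    · simp [hv1]
    · intro i j hij
      have h1 : i < j := hij
      simp [hv0 i j h1]
  let γ : GZ n := ⟨Matrix.of v, hdet⟩
  have hy : (io n γ * x).1 = (Matrix.of v).map (Int.castRingHom ℝ) * x.1 := rfl
  have h := rd_low x (io n γ * x) _ (fun i => by simp [hv1]) (fun i j hij => by simp [hv0 i j hij]) hy
  refine ⟨γ, h.1, fun i j hij => ?_⟩
  have e : lc (io n γ * x) i j = ∑ l, (v i l : ℝ) * Matrix.of (lc x) l j := by
    have := congrFun (congrFun h.2 i) j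
    rw [Matrix.mul_apply] at this
    exact this
  rw [e]
  exact hv i j hij

/-! ### The covolumes -/

/-- the covolume of the first rows -/
def cv {n : ℕ} (x : GR n) (k : Fin n) : ℝ := ∏ l ∈ Finset.Iic k, ac x l

/-- the potential -/
def pot {n : ℕ} (x : GR n) : ℝ := ∏ k, cv x k

theorem rd_cv_pos {n : ℕ} (x : GR n) (k : Fin n) : 0 < cv x k :=
  Finset.prod_pos fun l _ => iw_ac_pos x l

theorem rd_gram_apply {n : ℕ} (x : GR n) (i j : Fin n) :
    (x.1 * x.1ᵀ) i j = ∑ l, lc x i l * ac x l ^ 2 * lc x j l := by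
  have h : x.1 * x.1ᵀ = Matrix.of (lc x) * Matrix.diagonal (fun l => ac x l ^ 2) * (Matrix.of (lc x))ᵀ := by
    conv_lhs => rw [iw_decomp x]
    rw [Matrix.transpose_mul, Matrix.transpose_mul, Matrix.diagonal_transpose]
    calc Matrix.of (lc x) * Matrix.diagonal (ac x) * kc x * ((kc x)ᵀ * (Matrix.diagonal (ac x) * (Matrix.of (lc x))ᵀ))
        = Matrix.of (lc x) * Matrix.diagonal (ac x) * (kc x * (kc x)ᵀ) * Matrix.diagonal (ac x) *
            (Matrix.of (lc x))ᵀ := by simp only [Matrix.mul_assoc]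
      _ = Matrix.of (lc x) * (Matrix.diagonal (ac x) * Matrix.diagonal (ac x)) * (Matrix.of (lc x))ᵀ := by
          rw [iw_kc_mul, Matrix.mul_one]; simp only [Matrix.mul_assoc]
      _ = _ := by
          rw [Matrix.diagonal_mul_diagonal]
          simp only [sq]
  rw [h, Matrix.mul_apply]
  refine Finset.sum_congr rfl fun l _ => ?_
  rw [Matrix.mul_diagonal]
  rfl

theorem rd_cv_sq {n : ℕ} (x : GR n) (k : Fin n) :
    ((x.1 * x.1ᵀ).submatrix (Subtype.val : {i : Fin n // i ≤ k} → Fin n) Subtype.val).det = cv x k ^ 2 := by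
  have h : (x.1 * x.1ᵀ).submatrix (Subtype.val : {i : Fin n // i ≤ k} → Fin n) Subtype.val =
      (Matrix.of (lc x)).submatrix (Subtype.val : {i : Fin n // i ≤ k} → Fin n) Subtype.val *
        Matrix.diagonal (fun l : {i : Fin n // i ≤ k} => ac x l ^ 2) *
        ((Matrix.of (lc x)).submatrix (Subtype.val : {i : Fin n // i ≤ k} → Fin n) Subtype.val)ᵀ := by
    ext i j
    rw [Matrix.submatrix_apply, rd_gram_apply, Matrix.mul_apply]
    rw [← Finset.sum_subset (Finset.subset_univ (Finset.Iic k))]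
    · rw [Finset.sum_subtype (Finset.Iic k) (p := fun i => i ≤ k) (fun _ => Finset.mem_Iic)]
      refine Finset.sum_congr rfl fun l _ => ?_
      rw [Matrix.mul_diagonal]
      rfl
    · intro l _ hl
      have h1 : k < l := by simpa using hl
      have h2 : (i : Fin n) < l := lt_of_le_of_lt i.2 h1
      simp [lc, h2.ne, h2.not_gt]
  rw [h, Matrix.det_mul, Matrix.det_mul, Matrix.det_transpose, Matrix.det_diagonal]
  have h2 : ((Matrix.of (lc x)).submatrix (Subtype.val : {i : Fin n // i ≤ k} → Fin n) Subtype.val).det = 1 := by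
    rw [Matrix.det_of_isLowerTriangular]
    · simp [lc]
    · intro i j hij
      have h1 : i < j := hij
      have h2 : (i : Fin n) < j := h1
      simp [lc, h2.ne, h2.not_gt]
  rw [h2, one_mul, mul_one, cv]
  rw [Finset.prod_pow, Finset.prod_subtype (Finset.Iic k) (p := fun i => i ≤ k) (fun _ => Finset.mem_Iic)]

theorem rd_cv_int {n : ℕ} (γ : GZ n) (k : Fin n) : 1 ≤ cv (io n γ) k := by
  have h := rd_cv_sq (io n γ) k
  have h2 : (((γ.1 * γ.1ᵀ).submatrix (Subtype.val : {i : Fin n // i ≤ k} → Fin n) Subtype.val).det : ℝ) =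
      cv (io n γ) k ^ 2 := by
    rw [← h, Int.cast_det]
    congr 1
    ext i j
    have : (io n γ).1 = γ.1.map (Int.cast : ℤ → ℝ) := rfl
    rw [this]
    simp [Matrix.mul_apply, Matrix.map_apply]
  have h3 := rd_cv_pos (io n γ) k
  have h4 : (0 : ℝ) < (((γ.1 * γ.1ᵀ).submatrix (Subtype.val : {i : Fin n // i ≤ k} → Fin n) Subtype.val).det : ℝ) := by
    rw [h2]; positivity
  have h5 : 0 < ((γ.1 * γ.1ᵀ).submatrix (Subtype.val : {i : Fin n // i ≤ k} → Fin n) Subtype.val).det := by
    exact_mod_cast h4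
  have h6 : (1 : ℝ) ≤ cv (io n γ) k ^ 2 := by
    rw [← h2]; exact_mod_cast h5
  nlinarith

/-- right multiplication by `x` -/
def rmul {n : ℕ} (x : GR n) : EuclideanSpace ℝ (Fin n) →ₗ[ℝ] EuclideanSpace ℝ (Fin n) :=
  (WithLp.linearEquiv 2 ℝ (Fin n → ℝ)).symm.toLinearMap ∘ₗ (Matrix.vecMulLinear x.1) ∘ₗ
    (WithLp.linearEquiv 2 ℝ (Fin n → ℝ)).toLinearMap

theorem rd_rmul_row {n : ℕ} (x y : GR n) (i : Fin n) : rmul x (row y i) = row (y * x) i := by
  ext j
  show (Matrix.vecMul (y.1 i) x.1) j = (y.1 * x.1) i j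
  rw [Matrix.mul_apply_eq_vecMul]

theorem rd_rmul_inj {n : ℕ} (x : GR n) : LinearMap.ker (rmul x) = ⊥ := by
  rw [LinearMap.ker_eq_bot']
  intro v hv
  have h1 : Matrix.vecMul (v : Fin n → ℝ) x.1 = 0 := by
    have := congrArg (fun w : EuclideanSpace ℝ (Fin n) => (w : Fin n → ℝ)) hv
    exact this
  have h2 : Matrix.vecMul (Matrix.vecMul (v : Fin n → ℝ) x.1) (x⁻¹).1 = (v : Fin n → ℝ) := by
    rw [Matrix.vecMul_vecMul]
    have : x.1 * (x⁻¹).1 = 1 := by
      have := congrArg Subtype.val (mul_inv_cancel x)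
      exact this
    rw [this, Matrix.vecMul_one]
  rw [h1, Matrix.zero_vecMul] at h2
  ext j
  exact (congrFun h2 j).symm

theorem rd_sigma {n : ℕ} (x : GR n) :
    ∃ σ : ℝ, 0 < σ ∧ ∀ (y : GR n) (i : Fin n), σ * ac y i ≤ ac (y * x) i := by
  obtain ⟨K, hK, hA⟩ := LinearMap.exists_antilipschitzWith (rmul x) (rd_rmul_inj x)
  have hA' : ∀ v, ‖v‖ ≤ K * ‖rmul x v‖ := by
    intro v
    have := hA.le_mul_dist v 0
    simpa using this
  have hK' : (0 : ℝ) < K := by exact_mod_cast hK
  refine ⟨(K : ℝ)⁻¹, by positivity, fun y i => ?_⟩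
  -- the Gram-Schmidt vector of the product is an image
  have h1 := rd_sub_mem (y * x) i
  have h2 : Submodule.span ℝ (row (y * x) '' Set.Iio i) =
      (Submodule.span ℝ (row y '' Set.Iio i)).map (rmul x) := by
    rw [Submodule.map_span]
    congr 1
    ext v
    constructor
    · rintro ⟨m, hm, rfl⟩
      exact ⟨row y m, ⟨m, hm, rfl⟩, rd_rmul_row x y m⟩
    · rintro ⟨_, ⟨m, hm, rfl⟩, rfl⟩
      exact ⟨m, hm, (rd_rmul_row x y m).symm⟩
  rw [h2] at h1
  obtain ⟨q, hq, hqe⟩ := h1
  have h3 : gsv (y * x) i = rmul x (row y i - q) := by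
    rw [map_sub, rd_rmul_row, hqe]; abel
  have h4 : ac y i ≤ ‖row y i - q‖ := by
    have h5 : inner ℝ (gsv y i) (row y i - q) = ac y i ^ 2 := by
      have h6 : row y i - q = gsv y i + ((row y i - gsv y i) - q) := by abel
      rw [h6, inner_add_right, real_inner_self_eq_norm_sq,
        rd_orth_gsv y i (Submodule.sub_mem _ (rd_sub_mem y i) hq), add_zero]
      rfl
    have h7 := real_inner_le_norm (gsv y i) (row y i - q)
    rw [h5] at h7
    have h8 := iw_ac_pos y i
    have h9 : ‖gsv y i‖ = ac y i := rfl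
    rw [h9] at h7
    nlinarith
  have h10 : ac (y * x) i = ‖rmul x (row y i - q)‖ := by rw [← h3]; rfl
  rw [h10]
  have h11 := hA' (row y i - q)
  rw [inv_mul_le_iff₀ hK']
  linarith

theorem rd_pot_lower {n : ℕ} (x : GR n) : ∃ δ : ℝ, 0 < δ ∧ ∀ γ : GZ n, δ ≤ pot (io n γ * x) := by
  obtain ⟨σ, hσ, h⟩ := rd_sigma x
  refine ⟨∏ k : Fin n, ∏ l ∈ Finset.Iic k, σ, Finset.prod_pos fun k _ => Finset.prod_pos fun l _ => hσ, fun γ => ?_⟩
  unfold pot
  refine Finset.prod_le_prod (fun k _ => (Finset.prod_pos fun l _ => hσ).le) fun k _ => ?_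
  have h1 : (∏ l ∈ Finset.Iic k, σ) * cv (io n γ) k ≤ cv (io n γ * x) k := by
    unfold cv
    rw [← Finset.prod_mul_distrib]
    exact Finset.prod_le_prod (fun l _ => (mul_pos hσ (iw_ac_pos _ l)).le) fun l _ => h (io n γ) l
  have h2 : 0 < ∏ l ∈ Finset.Iic k, σ := Finset.prod_pos fun l _ => hσ
  have h3 := rd_cv_int γ k
  nlinarith

/-! ### Elementary operations -/

theorem rd_tv_row {n : ℕ} (x : GR n) (i j : Fin n) (h : i ≠ j) (t : ℤ) (l : Fin n) :
    row (io n (tv i j h t) * x) l = row x l + (if l = i then (t : ℝ) • row x j else 0) := by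
  have e : (io n (tv i j h t) * x).1 = Matrix.transvection i j (t : ℝ) * x.1 := by
    show (Matrix.transvection i j t).map (Int.castRingHom ℝ) * x.1 = _
    congr 1
    ext a b
    simp [Matrix.transvection, Matrix.one_apply, Matrix.single_apply, Matrix.map_apply]
  ext m
  rw [iw_row_apply, e]
  by_cases hl : l = i
  · subst hl
    rw [Matrix.transvection_mul_apply_same]
    simp [iw_row_apply]
  · rw [Matrix.transvection_mul_apply_of_ne _ _ _ _ hl]
    simp [hl, iw_row_apply]

/-- the swap of two rows, with a sign -/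
theorem rd_swap {n : ℕ} (i j : Fin n) (h : i ≠ j) :
    ∃ γ : GZ n, ∀ x : GR n, row (io n γ * x) i = row x j ∧ row (io n γ * x) j = - row x i ∧
      ∀ l, l ≠ i → l ≠ j → row (io n γ * x) l = row x l := by
  refine ⟨tv i j h 1 * tv j i h.symm (-1) * tv i j h 1, fun x => ?_⟩
  have e : ∀ l, row (io n (tv i j h 1 * tv j i h.symm (-1) * tv i j h 1) * x) l =
      row (io n (tv i j h 1) * (io n (tv j i h.symm (-1)) * (io n (tv i j h 1) * x))) l := by
    intro l
    rw [map_mul, map_mul, mul_assoc, mul_assoc]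
  have hji : j ≠ i := h.symm
  refine ⟨?_, ?_, ?_⟩
  · rw [e]
    simp only [rd_tv_row, if_true, h, hji, if_false, add_zero]
    push_cast
    module
  · rw [e]
    simp only [rd_tv_row, if_true, hji, if_false, add_zero]
    push_cast
    module
  · intro l h1 h2
    rw [e]
    simp only [rd_tv_row, h1, h2, if_false, add_zero]

/-- the decomposition of a row, with the term of the neighbour taken apart -/
theorem rd_row_next {n : ℕ} (x : GR n) (i j : Fin n) (hij : (i : ℕ) + 1 = j) :
    row x j - (gsv x j + lc x j i • gsv x i) ∈ Submodule.span ℝ (row x '' Set.Iio i) := by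
  have hlt : i < j := by
    show (i : ℕ) < j
    omega
  have h := iw_rec x j
  have h1 : Finset.Iio j = insert i (Finset.Iio i) := by
    ext l
    simp only [Finset.mem_Iio, Finset.mem_insert]
    constructor
    · intro hl
      have : (l : ℕ) < j := hl
      rcases Nat.lt_or_ge (l : ℕ) i with h | h
      · exact Or.inr h
      · exact Or.inl (Fin.ext (by omega))
    · rintro (rfl | hl)
      · exact hlt
      · exact hl.trans hlt
  rw [h1, Finset.sum_insert (by simp)] at h
  have h2 : inner ℝ (gsv x i) (row x j) / ‖gsv x i‖ ^ 2 = lc x j i := by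
    simp [lc, hlt, hlt.ne']
  rw [h2] at h
  have h3 : row x j - (gsv x j + lc x j i • gsv x i) =
      ∑ m ∈ Finset.Iio i, (inner ℝ (gsv x m) (row x j) / ‖gsv x m‖ ^ 2) • gsv x m := by
    rw [sub_eq_iff_eq_add]
    refine h.trans ?_
    module
  rw [h3, ← rd_span]
  refine Submodule.sum_mem _ fun m hm => Submodule.smul_mem _ _ (Submodule.subset_span ?_)
  exact ⟨m, Finset.mem_Iio.mp hm, rfl⟩

/-- the effect of a swap -/
theorem rd_swap_pot {n : ℕ} (x z : GR n) (i j : Fin n) (hij : (i : ℕ) + 1 = j) (h1 : row z i = row x j)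
    (h2 : row z j = - row x i) (h3 : ∀ l, l ≠ i → l ≠ j → row z l = row x l) (hμ : |lc x j i| ≤ 1 / 2)
    (ha : 2 * ac x j < ac x i) : pot z ≤ 3 / 4 * pot x := by
  have hlt : i < j := by
    show (i : ℕ) < j
    omega
  -- the spans
  have hspan1 : ∀ l, l ≤ i → row z '' Set.Iio l = row x '' Set.Iio l := by
    intro l hl
    refine Set.image_congr fun m hm => ?_
    have h4 : m < i := lt_of_lt_of_le hm hl
    exact h3 m h4.ne (h4.trans hlt).ne
  have hspan2 : ∀ l, j < l → Submodule.span ℝ (row z '' Set.Iio l) = Submodule.span ℝ (row x '' Set.Iio l) := by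
    intro l hl
    refine le_antisymm ?_ ?_
    · rw [Submodule.span_le]
      rintro _ ⟨m, hm, rfl⟩
      by_cases hmi : m = i
      · subst hmi
        rw [h1]
        exact Submodule.subset_span ⟨j, hl, rfl⟩
      · by_cases hmj : m = j
        · subst hmj
          rw [h2]
          exact Submodule.neg_mem _ (Submodule.subset_span ⟨i, hlt.trans hl, rfl⟩)
        · rw [h3 m hmi hmj]
          exact Submodule.subset_span ⟨m, hm, rfl⟩
    · rw [Submodule.span_le]
      rintro _ ⟨m, hm, rfl⟩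
      by_cases hmi : m = i
      · subst hmi
        have : row x m = - row z j := by rw [h2, neg_neg]
        rw [this]
        exact Submodule.neg_mem _ (Submodule.subset_span ⟨j, hl, rfl⟩)
      · by_cases hmj : m = j
        · subst hmj
          rw [← h1]
          exact Submodule.subset_span ⟨i, hlt.trans hl, rfl⟩
        · rw [← h3 m hmi hmj]
          exact Submodule.subset_span ⟨m, hm, rfl⟩
  have hac : ∀ l, l ≠ i → l ≠ j → ac z l = ac x l := by
    intro l hli hlj
    have hsp : Submodule.span ℝ (row z '' Set.Iio l) = Submodule.span ℝ (row x '' Set.Iio l) := by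
      rcases lt_or_gt_of_ne hli with h | h
      · rw [hspan1 l h.le]
      · refine hspan2 l ?_
        have h5 : (i : ℕ) < l := h
        have h6 : (l : ℕ) ≠ j := fun h => hlj (Fin.ext h)
        show (j : ℕ) < l
        omega
    have h7 : gsv z l = gsv x l := by
      refine rd_char z l _ ?_ ?_
      · rw [hsp, h3 l hli hlj]
        exact rd_sub_mem x l
      · intro u hu
        rw [hsp] at hu
        exact rd_orth_gsv x l hu
    show ‖gsv z l‖ = ‖gsv x l‖
    rw [h7]
  have haci : ac z i ≤ 3 / 4 * ac x i := by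
    have h7 : gsv z i = gsv x j + lc x j i • gsv x i := by
      refine rd_char z i _ ?_ ?_
      · rw [hspan1 i le_rfl, h1]
        exact rd_row_next x i j hij
      · intro u hu
        rw [hspan1 i le_rfl] at hu
        have h8 : u ∈ Submodule.span ℝ (row x '' Set.Iio j) :=
          Submodule.span_mono (Set.image_mono (Set.Iio_subset_Iio hlt.le)) hu
        rw [inner_add_left, inner_smul_left, rd_orth_gsv x i hu, rd_orth_gsv x j h8]
        simp
    have h8 : ac z i ^ 2 = ac x j ^ 2 + lc x j i ^ 2 * ac x i ^ 2 := by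
      show ‖gsv z i‖ ^ 2 = _
      rw [h7, ← real_inner_self_eq_norm_sq]
      rw [inner_add_left, inner_add_right, inner_add_right, inner_smul_left, inner_smul_left, inner_smul_right,
        inner_smul_right, iw_orth x hlt.ne, iw_orth x hlt.ne', real_inner_self_eq_norm_sq,
        real_inner_self_eq_norm_sq]
      simp only [ac, conj_trivial]
      ring
    have h9 := iw_ac_pos z i
    have h10 := iw_ac_pos x i
    have h11 := iw_ac_pos x j
    have h12 : lc x j i ^ 2 ≤ 1 / 4 := by
      have := sq_abs (lc x j i)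
      nlinarith [abs_nonneg (lc x j i)]
    have h13 : ac z i ^ 2 ≤ (3 / 4 * ac x i) ^ 2 := by
      have h14 : ac x j ^ 2 ≤ ac x i ^ 2 / 4 := by nlinarith
      nlinarith [mul_le_mul_of_nonneg_right h12 (sq_nonneg (ac x i))]
    exact le_of_sq_le_sq h13 (by positivity) |> fun h => h
  -- the covolumes
  have hcv : ∀ k, k ≠ i → cv z k = cv x k := by
    intro k hk
    rcases lt_or_gt_of_ne hk with h | h
    · refine Finset.prod_congr rfl fun l hl => ?_
      have h5 : l < i := lt_of_le_of_lt (Finset.mem_Iic.mp hl) h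
      exact hac l h5.ne (h5.trans hlt).ne
    · have hjk : j ≤ k := by
        have : (i : ℕ) < k := h
        show (j : ℕ) ≤ k
        omega
      have e : ∀ y : GR n, cv y k * ∏ l ∈ Finset.Ioi k, ac y l = 1 := by
        intro y
        rw [← iw_prod_ac y, cv, ← Finset.prod_union]
        · congr 1
          ext l
          simp [le_or_gt]
        · rw [Finset.disjoint_left]
          intro l h1 h2
          simp only [Finset.mem_Iic, Finset.mem_Ioi] at h1 h2
          exact absurd h1 (not_le.mpr h2)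
      have e1 : ∏ l ∈ Finset.Ioi k, ac z l = ∏ l ∈ Finset.Ioi k, ac x l := by
        refine Finset.prod_congr rfl fun l hl => ?_
        have h5 : j < l := lt_of_le_of_lt hjk (Finset.mem_Ioi.mp hl)
        exact hac l (hlt.trans h5).ne' h5.ne'
      have e2 : 0 < ∏ l ∈ Finset.Ioi k, ac x l := Finset.prod_pos fun l _ => iw_ac_pos x l
      have e3 := e z
      rw [e1, ← e x] at e3
      exact mul_right_cancel₀ e2.ne' e3
  have hcvi : cv z i ≤ 3 / 4 * cv x i := by
    have e : ∀ y : GR n, cv y i = ac y i * ∏ l ∈ Finset.Iio i, ac y l := by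
      intro y
      rw [cv, ← Finset.prod_insert (by simp)]
      congr 1
      ext l
      simp [le_iff_eq_or_lt]
    rw [e z, e x]
    have e1 : ∏ l ∈ Finset.Iio i, ac z l = ∏ l ∈ Finset.Iio i, ac x l := by
      refine Finset.prod_congr rfl fun l hl => ?_
      have h5 : l < i := Finset.mem_Iio.mp hl
      exact hac l h5.ne (h5.trans hlt).ne
    have e2 : 0 < ∏ l ∈ Finset.Iio i, ac x l := Finset.prod_pos fun l _ => iw_ac_pos x l
    rw [e1]
    nlinarith
  have e : ∀ y : GR n, pot y = cv y i * ∏ k ∈ Finset.univ.erase i, cv y k := by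
    intro y
    rw [pot, Finset.mul_prod_erase _ _ (Finset.mem_univ i)]
  rw [e z, e x]
  have e1 : ∏ k ∈ Finset.univ.erase i, cv z k = ∏ k ∈ Finset.univ.erase i, cv x k :=
    Finset.prod_congr rfl fun k hk => hcv k (Finset.ne_of_mem_erase hk)
  have e2 : 0 < ∏ k ∈ Finset.univ.erase i, cv x k := Finset.prod_pos fun l _ => rd_cv_pos x l
  rw [e1]
  nlinarith

theorem rd_pot_congr {n : ℕ} (x y : GR n) (h : ac x = ac y) : pot x = pot y := by
  unfold pot cv
  rw [h]

/-- one step of the reduction -/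
theorem rd_step {n : ℕ} (x : GR n) (i j : Fin n) (hij : (i : ℕ) + 1 = j) (ha : 2 * ac x j < ac x i) :
    ∃ γ : GZ n, pot (io n γ * x) ≤ 3 / 4 * pot x := by
  have hlt : i < j := by
    show (i : ℕ) < j
    omega
  -- the size reduction of row `j` by row `i`
  let t : ℤ := - round (lc x j i)
  let y : GR n := io n (tv j i hlt.ne' t) * x
  have hy : y.1 = Matrix.transvection j i (t : ℝ) * x.1 := by
    show (Matrix.transvection j i t).map (Int.castRingHom ℝ) * x.1 = _
    congr 1
    ext a b
    simp [Matrix.transvection, Matrix.one_apply, Matrix.single_apply, Matrix.map_apply]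
  have h := rd_low x y (Matrix.transvection j i (t : ℝ)) ?_ ?_ hy
  · have e : lc y j i = lc x j i + t := by
      have := congrFun (congrFun h.2 j) i
      rw [Matrix.transvection_mul_apply_same] at this
      simpa [lc] using this
    have hμ : |lc y j i| ≤ 1 / 2 := by
      rw [e]
      have := abs_sub_round (lc x j i)
      simpa [t, sub_eq_add_neg] using this
    obtain ⟨γ, hγ⟩ := rd_swap i j hlt.ne
    obtain ⟨a, b, c⟩ := hγ y
    have hfin := rd_swap_pot y (io n γ * y) i j hij a b c hμ (by rw [h.1]; exact ha)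
    refine ⟨γ * tv j i hlt.ne' t, ?_⟩
    rw [map_mul, mul_assoc]
    rw [rd_pot_congr x y h.1.symm]
    exact hfin
  · intro a
    simp [Matrix.transvection, Matrix.single_apply]
    intro h1 h2
    exact absurd (h1.trans h2.symm) hlt.ne'
  · intro a b hab
    simp [Matrix.transvection, Matrix.single_apply, hab.ne]
    intro h1 h2
    subst h1; subst h2
    exact absurd hab hlt.not_gt

theorem red' : S_red := by
  intro n x
  obtain ⟨δ, hδ, hlow⟩ := rd_pot_lower x
  let S : Set ℝ := Set.range fun γ : GZ n => pot (io n γ * x)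
  have hne : S.Nonempty := ⟨_, ⟨1, rfl⟩⟩
  have hbd : BddBelow S := ⟨δ, by rintro _ ⟨γ, rfl⟩; exact hlow γ⟩
  have hI : δ ≤ sInf S := le_csInf hne (by rintro _ ⟨γ, rfl⟩; exact hlow γ)
  obtain ⟨_, ⟨γ₀, rfl⟩, hγ₀⟩ := exists_lt_of_csInf_lt hne (show sInf S < 4 / 3 * sInf S by linarith)
  simp only at hγ₀
  obtain ⟨γ₁, h1, h2⟩ := rd_size (io n γ₀ * x)
  refine ⟨γ₁ * γ₀, ?_⟩
  rw [map_mul, mul_assoc]
  refine ⟨h2, fun i j hij => ?_⟩
  by_contra hc
  obtain ⟨γ₂, h3⟩ := rd_step _ i j hij (not_le.mp hc)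
  rw [rd_pot_congr _ _ h1] at h3
  have h4 : sInf S ≤ pot (io n γ₂ * (io n γ₁ * (io n γ₀ * x))) := by
    refine csInf_le hbd ⟨γ₂ * (γ₁ * γ₀), ?_⟩
    simp only [map_mul, mul_assoc]
  linarith

theorem red (_ : S_iw) : S_red := red'

end Pool.Agent.T2h77.N
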