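import Pool.Agent.T2h77N.Hsn

/-!
# A test function near `SO(n)`: the statement `S_near`
-/

set_option autoImplicit false

open MeasureTheory Matrix
open scoped MatrixGroups ENNReal Topology

noncomputable section

namespace Pool.Agent.T2h77.N

instance {n : ℕ} : (mu n).IsHaarMeasure := inferInstanceAs (Measure.haar).IsHaarMeasure

/-- the cutoff near `SO(n)` -/
def thN {n : ℕ} (δ : ℝ) (g : GR n) : ℝ := max 0 (δ - (hsn g ^ 2 - n))

theorem thN_cont {n : ℕ} (δ : ℝ) : Continuous fun g : GR n => thN δ g := by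
  unfold thN
  exact continuous_const.max (continuous_const.sub ((hsn_cont.pow 2).sub continuous_const))

theorem thN_nonneg {n : ℕ} (δ : ℝ) (g : GR n) : 0 ≤ thN δ g := le_max_left _ _

theorem thN_ne {n : ℕ} {δ : ℝ} {g : GR n} (h : thN δ g ≠ 0) : hsn g ^ 2 - n < δ := by
  by_contra hc
  push Not at hc
  exact h (max_eq_left (by linarith))

theorem thN_compact {n : ℕ} (δ : ℝ) : HasCompactSupport fun g : GR n => thN δ g := by
  refine HasCompactSupport.intro (hsn_compact (n := n) (√(n + |δ|))) fun g hg => ?_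
  by_contra hc
  have h1 := thN_ne hc
  apply hg
  show hsn g ≤ _
  apply Real.le_sqrt_of_sq_le
  linarith [le_abs_self δ]

theorem log_small {a ε : ℝ} (ha : 0 < a) (hε : ε ≤ 1 / 2) (h : |a - 1| ≤ ε) : |Real.log a| ≤ 2 * ε := by
  obtain ⟨h1, h2⟩ := abs_le.mp h
  have h3 := Real.log_le_sub_one_of_pos ha
  have h4 : 1 - a⁻¹ ≤ Real.log a := Real.one_sub_inv_le_log_of_pos ha
  have h5 : a⁻¹ ≤ 1 + 2 * ε := by
    rw [inv_le_comm₀ ha (by linarith)]
    rw [inv_le_comm₀ (by linarith) ha, ← one_div, div_le_iff₀ ha]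
    nlinarith
  rw [abs_le]
  constructor <;> linarith

theorem psi_near {n : ℕ} {T : ℝ} {g : GR n} {ε : ℝ} (hε0 : 0 ≤ ε) (hε : ε ≤ 1 / 2)
    (hε2 : n * (2 * ε * (T + n + 1)) ≤ 1 / 4) (h : hsn g ^ 2 - n ≤ ε ^ 2)
    (ν : Fin n → ℂ) (hν : ∀ i, ‖ν i‖ ≤ T) : ‖psi ν g - 1‖ ≤ 1 / 2 := by
  rw [psi_exp]
  set z := ∑ i, (Real.log (ac g i) : ℂ) * (ν i + (((2 * (i : ℕ) : ℝ) - n + 1) / 2 : ℝ)) with hz
  have h1 : ∀ i, |ac g i - 1| ≤ ε := fun i => by
    have h2 := sum_sub_one_sq_le g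
    have h3 : (ac g i - 1) ^ 2 ≤ ∑ i, (ac g i - 1) ^ 2 :=
      Finset.single_le_sum (f := fun i => (ac g i - 1) ^ 2) (fun _ _ => sq_nonneg _) (Finset.mem_univ i)
    exact abs_le_of_sq_le_sq (by linarith) hε0
  have h2 : ‖z‖ ≤ 1 / 4 := by
    calc ‖z‖ ≤ ∑ i, ‖(Real.log (ac g i) : ℂ) * (ν i + (((2 * (i : ℕ) : ℝ) - n + 1) / 2 : ℝ))‖ := norm_sum_le _ _
      _ ≤ ∑ i : Fin n, 2 * ε * (T + n + 1) := by
          refine Finset.sum_le_sum fun i _ => ?_
          rw [norm_mul, Complex.norm_real, Real.norm_eq_abs]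
          refine mul_le_mul (log_small (iw_ac_pos g i) hε (h1 i)) ?_ (norm_nonneg _) (by positivity)
          refine (norm_add_le _ _).trans ?_
          rw [Complex.norm_real, Real.norm_eq_abs]
          have h3 : |((2 * (i : ℕ) : ℝ) - n + 1) / 2| ≤ n + 1 := by
            have h4 : ((i : ℕ) : ℝ) ≤ n := by exact_mod_cast i.2.le
            have h5 : (0 : ℝ) ≤ ((i : ℕ) : ℝ) := by positivity
            rw [abs_le]
            constructor <;> linarith
          linarith [hν i]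
      _ ≤ 1 / 4 := by
          rw [Finset.sum_const, Finset.card_univ, Fintype.card_fin, nsmul_eq_mul]
          exact hε2
  have h3 := Complex.norm_exp_sub_one_le (x := z) (by linarith)
  linarith

theorem near_abs {α : Type*} [MeasurableSpace α] {μ : Measure α} {F : α → ℂ} {t : α → ℝ} (hF : Measurable F)
    (ht : Measurable t) (hti : Integrable t μ) (ht0 : ∀ a, 0 ≤ t a) (h2 : ∫ a, t a ∂μ = 2)
    (hF1 : ∀ a, t a ≠ 0 → ‖F a - 1‖ ≤ 1 / 2) : 1 ≤ ‖∫ a, F a * (t a : ℂ) ∂μ‖ := by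
  have hpt : ∀ a, ‖(F a - 1) * (t a : ℂ)‖ ≤ 1 / 2 * t a := by
    intro a
    rw [norm_mul, Complex.norm_real, Real.norm_eq_abs, abs_of_nonneg (ht0 a)]
    by_cases hz : t a = 0
    · rw [hz]; simp
    · exact mul_le_mul_of_nonneg_right (hF1 a hz) (ht0 a)
  have hti2 : Integrable (fun a => 1 / 2 * t a) μ := hti.const_mul _
  have hdi : Integrable (fun a => (F a - 1) * (t a : ℂ)) μ :=
    Integrable.mono' hti2 (((hF.sub_const 1).mul (Complex.measurable_ofReal.comp ht)).aestronglyMeasurable)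
      (Filter.Eventually.of_forall hpt)
  have htc : Integrable (fun a => (t a : ℂ)) μ := hti.ofReal
  have hsplit : ∫ a, F a * (t a : ℂ) ∂μ = ∫ a, (F a - 1) * (t a : ℂ) ∂μ + 2 := by
    have h2' : ∫ a, (t a : ℂ) ∂μ = 2 := by
      have h5 := integral_ofReal (𝕜 := ℂ) (μ := μ) (f := t)
      rw [h2] at h5
      simpa using h5
    rw [← h2', ← integral_add hdi htc]
    congr 1
    funext a
    ring
  have hb : ‖∫ a, (F a - 1) * (t a : ℂ) ∂μ‖ ≤ 1 := by
    refine (norm_integral_le_of_norm_le hti2 (Filter.Eventually.of_forall hpt)).trans ?_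
    rw [integral_const_mul, h2]
    norm_num
  rw [hsplit]
  have h3 := norm_sub_norm_le (2 : ℂ) (-(∫ a, (F a - 1) * (t a : ℂ) ∂μ))
  rw [norm_neg, sub_neg_eq_add, add_comm (2 : ℂ)] at h3
  have h4 : ‖(2 : ℂ)‖ = 2 := by simp
  linarith

theorem near' : S_near := by
  intro n T
  set T' := |T| with hT'
  have hT0 : 0 ≤ T' := abs_nonneg T
  -- the size
  obtain ⟨ε, hε0, hε1, hε2⟩ : ∃ ε : ℝ, 0 < ε ∧ ε ≤ 1 / 2 ∧ n * (2 * ε * (T' + n + 1)) ≤ 1 / 4 := by
    have hD : 0 < 8 * ((n : ℝ) + 1) * (T' + n + 1) := by positivity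
    refine ⟨min (1 / 2) (1 / (8 * ((n : ℝ) + 1) * (T' + n + 1))), by positivity, min_le_left _ _, ?_⟩
    have h1 : min (1 / 2) (1 / (8 * ((n : ℝ) + 1) * (T' + n + 1))) ≤ 1 / (8 * ((n : ℝ) + 1) * (T' + n + 1)) :=
      min_le_right _ _
    have h2 : 1 / (8 * ((n : ℝ) + 1) * (T' + n + 1)) * (8 * ((n : ℝ) + 1) * (T' + n + 1)) = 1 :=
      one_div_mul_cancel hD.ne'
    set e := 1 / (8 * ((n : ℝ) + 1) * (T' + n + 1)) with he
    have he0 : 0 < e := by positivity
    have h3 : (n : ℝ) * (2 * min (1 / 2) e * (T' + n + 1)) ≤ (n + 1) * (2 * e * (T' + n + 1)) := by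
      have hm : 0 ≤ min (1 / 2) e := by positivity
      gcongr
      · linarith
    linarith
  obtain ⟨I, hI⟩ : ∃ I : ℝ, I = ∫ g, thN (ε ^ 2) g ∂(mu n) := ⟨_, rfl⟩
  have hint : Integrable (fun g : GR n => thN (ε ^ 2) g) (mu n) :=
    (thN_cont _).integrable_of_hasCompactSupport (thN_compact _)
  have hI0 : 0 < I := by
    rw [hI]
    refine (thN_cont _).integral_pos_of_hasCompactSupport_nonneg_nonzero (thN_compact _)
      (fun g => thN_nonneg _ g) (x := 1) ?_
    unfold thN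
    rw [hsn_one]
    have : 0 < ε ^ 2 := by positivity
    simp only [sub_self, sub_zero]
    rw [max_eq_right this.le]
    exact this.ne'
  refine ⟨fun g => 2 / I * thN (ε ^ 2) g, ⟨continuous_const.mul (thN_cont _), (thN_compact _).mul_left, ?_, ?_⟩, ?_⟩
  · intro k h hk
    simp only [thN, hsn_left k h hk]
  · intro k h hk
    simp only [thN, hsn_right k h hk]
  · intro ν _ hν
    have hν' : ∀ i, ‖ν i‖ ≤ T' := fun i => (hν i).trans (le_abs_self T)
    refine near_abs (t := fun g => 2 / I * thN (ε ^ 2) g) (psi_meas ν)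
      ((thN_cont (ε ^ 2)).measurable.const_mul _) (hint.const_mul _)
      (fun g => mul_nonneg (by positivity) (thN_nonneg _ g)) ?_ ?_
    · rw [integral_const_mul, ← hI]
      field_simp
    · intro g hg
      have hz : thN (ε ^ 2) g ≠ 0 := fun h => hg (by simp [h])
      exact psi_near hε0.le hε1 hε2 (thN_ne hz).le ν hν'

theorem near : S_iw → S_near := fun _ => near'

end Pool.Agent.T2h77.N
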