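import Pool.Agent.T2h77N.Iw
import Pool.Agent.T2h77N.Ent

/-!
# The volume of the cells of the Siegel set: `S_cell`
-/

set_option autoImplicit false

open MeasureTheory Matrix
open scoped MatrixGroups ENNReal

noncomputable section

namespace Pool.Agent.T2h77.N

instance cell_haar (n : ℕ) : (mu n).IsHaarMeasure := by unfold mu; infer_instance

/-- The product of two lower unitriangular matrices. -/
theorem cell_mul {n : ℕ} {A B : Matrix (Fin n) (Fin n) ℝ} (hA1 : ∀ i, A i i = 1) (hA0 : ∀ i j, i < j → A i j = 0)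
    (hB1 : ∀ i, B i i = 1) (hB0 : ∀ i j, i < j → B i j = 0) :
    (∀ i, (A * B) i i = 1) ∧ (∀ i j, i < j → (A * B) i j = 0) ∧
      ∀ i j, j < i → (A * B) i j = A i j + B i j + ∑ l ∈ Finset.Ioo j i, A i l * B l j := by
  have hout : ∀ i j l : Fin n, ¬ (j ≤ l ∧ l ≤ i) → A i l * B l j = 0 := by
    intro i j l h
    rcases lt_or_ge i l with h1 | h1
    · rw [hA0 i l h1, zero_mul]
    · have h2 : l < j := by
        by_contra h3
        exact h ⟨not_lt.1 h3, h1⟩
      rw [hB0 l j h2, mul_zero]
  refine ⟨fun i => ?_, fun i j hij => ?_, fun i j hij => ?_⟩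
  · rw [Matrix.mul_apply, Finset.sum_eq_single i]
    · rw [hA1, hB1, mul_one]
    · intro l _ hl
      exact hout i i l fun h => hl (le_antisymm h.2 h.1)
    · simp
  · rw [Matrix.mul_apply]
    refine Finset.sum_eq_zero fun l _ => hout i j l fun h => ?_
    exact absurd (h.1.trans h.2) (not_le.2 hij)
  · rw [Matrix.mul_apply, ← Finset.sum_subset (Finset.subset_univ (insert j (insert i (Finset.Ioo j i))))]
    · rw [Finset.sum_insert, Finset.sum_insert, hA1, hB1, mul_one, one_mul, add_assoc]
      · simp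
      · simp [hij.ne]
    · intro l _ hl
      refine hout i j l fun h => hl ?_
      rcases eq_or_lt_of_le h.1 with h1 | h1
      · simp [h1]
      · rcases eq_or_lt_of_le h.2 with h2 | h2
        · simp [h2]
        · simp [h1, h2]

/-- The integral lower unitriangular matrices. -/
def cellM {n : ℕ} (e : Fin n → Fin n → ℤ) : MZ n :=
  Matrix.of fun i j => if i = j then 1 else if j < i then e i j else 0

theorem cellM_det {n : ℕ} (e : Fin n → Fin n → ℤ) : (cellM e).det = 1 := by
  unfold cellM
  rw [Matrix.det_of_isLowerTriangular]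
  · simp
  · intro i j hij
    have h1 : i < j := hij
    simp [h1.ne, h1.not_gt]

/-- The same in `SL_n(ℤ)`. -/
def cellG {n : ℕ} (e : Fin n → Fin n → ℤ) : GZ n := ⟨cellM e, cellM_det e⟩

theorem cellG_val {n : ℕ} (e : Fin n → Fin n → ℤ) (i j : Fin n) :
    (io n (cellG e)).1 i j = if i = j then 1 else if j < i then (e i j : ℝ) else 0 := by
  rw [io_val, Matrix.map_apply]
  change (((cellM e) i j : ℤ) : ℝ) = _
  rw [cellM, Matrix.of_apply]
  split_ifs <;> simp

theorem cell_lc {n : ℕ} (e : Fin n → Fin n → ℤ) (x : GR n) :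
    Matrix.of (lc (io n (cellG e) * x)) = (io n (cellG e)).1 * Matrix.of (lc x) := by
  obtain ⟨k, hk, hx⟩ := (iw n).2.1 x
  have h1 := cell_mul (A := (io n (cellG e)).1) (B := Matrix.of (lc x))
    (fun i => by rw [cellG_val]; simp) (fun i j h => by rw [cellG_val]; simp [h.ne, h.not_gt])
    (fun i => by simp [lc]) (fun i j h => by simp [lc, h.ne, h.not_gt])
  refine (((iw n).2.2.1 (io n (cellG e) * x) ((io n (cellG e)).1 * Matrix.of (lc x)) k (ac x) h1.1 h1.2.1
    ((iw n).1 x) hk ?_).2).symm
  rw [Matrix.SpecialLinearGroup.coe_mul]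
  conv_lhs => rw [hx]
  simp only [Matrix.mul_assoc]

theorem cell_inj {n : ℕ} (e e' : Fin n → Fin n → ℤ) {x x' : GR n} (hx : x ∈ SG n) (hx' : x' ∈ SG n)
    (h : io n (cellG e) * x = io n (cellG e') * x') : ∀ i j, j < i → e i j = e' i j := by
  have h1 : (io n (cellG e)).1 * Matrix.of (lc x) = (io n (cellG e')).1 * Matrix.of (lc x') := by
    rw [← cell_lc, ← cell_lc, h]
  have hm := cell_mul (A := (io n (cellG e)).1) (B := Matrix.of (lc x))
    (fun i => by rw [cellG_val]; simp) (fun i j h => by rw [cellG_val]; simp [h.ne, h.not_gt])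
    (fun i => by simp [lc]) (fun i j h => by simp [lc, h.ne, h.not_gt])
  have hm' := cell_mul (A := (io n (cellG e')).1) (B := Matrix.of (lc x'))
    (fun i => by rw [cellG_val]; simp) (fun i j h => by rw [cellG_val]; simp [h.ne, h.not_gt])
    (fun i => by simp [lc]) (fun i j h => by simp [lc, h.ne, h.not_gt])
  have key : ∀ d : ℕ, ∀ i j : Fin n, (j : ℕ) + d = i → j < i → e i j = e' i j ∧ lc x i j = lc x' i j := by
    intro d
    induction d using Nat.strong_induction_on with
    | _ d ih =>
      intro i j hd hij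
      have h2 := hm.2.2 i j hij
      have h3 := hm'.2.2 i j hij
      rw [h1, h3] at h2
      have h4 : ∑ l ∈ Finset.Ioo j i, (io n (cellG e)).1 i l * Matrix.of (lc x) l j =
          ∑ l ∈ Finset.Ioo j i, (io n (cellG e')).1 i l * Matrix.of (lc x') l j := by
        refine Finset.sum_congr rfl fun l hl => ?_
        rw [Finset.mem_Ioo] at hl
        have hl1 : (j : ℕ) < l := hl.1
        have hl2 : (l : ℕ) < i := hl.2
        have h5 := (ih ((i : ℕ) - l) (by omega) i l (by omega) hl.2).1
        have h6 := (ih ((l : ℕ) - j) (by omega) l j (by omega) hl.1).2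
        rw [cellG_val, cellG_val, h5, Matrix.of_apply, Matrix.of_apply, h6]
      rw [h4] at h2
      have h7 : (e' i j : ℝ) + lc x' i j = (e i j : ℝ) + lc x i j := by
        have h8 := add_right_cancel h2
        rw [cellG_val, cellG_val, Matrix.of_apply, Matrix.of_apply, if_neg hij.ne', if_pos hij, if_neg hij.ne',
          if_pos hij] at h8
        exact h8
      have hb := hx.1 i j hij
      have hb' := hx'.1 i j hij
      have h9 : e i j = e' i j := by
        have h10 : (e i j : ℝ) - e' i j < 1 := by linarith [hb.1, hb'.2]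
        have h11 : (e' i j : ℝ) - e i j < 1 := by linarith [hb'.1, hb.2]
        have h12 : e i j - e' i j < 1 := by exact_mod_cast h10
        have h13 : e' i j - e i j < 1 := by exact_mod_cast h11
        omega
      refine ⟨h9, ?_⟩
      rw [h9] at h7
      linarith
  intro i j hij
  have hij' : (j : ℕ) < i := hij
  exact (key ((i : ℕ) - j) i j (by omega) hij).1

/-- The diagonal matrices. -/
def cellD {n : ℕ} (a : Fin n → ℝ) (h : ∏ i, a i = 1) : GR n :=
  ⟨Matrix.diagonal a, by rw [Matrix.det_diagonal, h]⟩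

theorem cell_compact (n : ℕ) (C : ℝ) : IsCompact {x : GR n | ∀ i j, |x.1 i j| ≤ C} := by
  have h1 : IsCompact {m : Matrix (Fin n) (Fin n) ℝ | ∀ i j, |m i j| ≤ C} := by
    have h2 : {m : Matrix (Fin n) (Fin n) ℝ | ∀ i j, |m i j| ≤ C} =
        Set.pi Set.univ fun _ : Fin n => Set.pi Set.univ fun _ : Fin n => Set.Icc (-C) C := by
      ext m
      exact ⟨fun h i _ j _ => abs_le.1 (h i j), fun h i j => abs_le.2 (h i trivial j trivial)⟩
    rw [h2]
    exact isCompact_univ_pi fun _ => isCompact_univ_pi fun _ => isCompact_Icc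
  exact Matrix.SpecialLinearGroup.isClosedEmbedding_val.isCompact_preimage h1

theorem cell_measurable (n : ℕ) : MeasurableSet (SG n) := by
  have h1 : SG n = (⋂ i : Fin n, ⋂ j : Fin n, ⋂ _ : j < i, {x : GR n | 0 ≤ lc x i j ∧ lc x i j < 1}) ∩
      ⋂ i : Fin n, ⋂ j : Fin n, ⋂ _ : (i : ℕ) + 1 = j, {x : GR n | ac x i ≤ 2 * ac x j} := by
    ext x
    simp [SG]
  rw [h1]
  refine MeasurableSet.inter ?_ ?_
  · refine MeasurableSet.iInter fun i => MeasurableSet.iInter fun j => MeasurableSet.iInter fun _ => ?_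
    have h2 := (iw n).2.2.2.2 i j
    exact (measurableSet_le measurable_const h2).inter (measurableSet_lt h2 measurable_const)
  · refine MeasurableSet.iInter fun i => MeasurableSet.iInter fun j => MeasurableSet.iInter fun _ => ?_
    exact measurableSet_le ((iw n).2.2.2.1 i) (((iw n).2.2.2.1 j).const_mul 2)

/-- The cell. -/
def cellE {n : ℕ} (a : Fin n → ℝ) : Set (GR n) := SG n ∩ {x | ∀ i, a i ≤ ac x i ∧ ac x i ≤ 2 * a i}

theorem cellE_measurable {n : ℕ} (a : Fin n → ℝ) : MeasurableSet (cellE a) := by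
  refine (cell_measurable n).inter ?_
  have h1 : {x : GR n | ∀ i, a i ≤ ac x i ∧ ac x i ≤ 2 * a i} =
      ⋂ i : Fin n, {x : GR n | a i ≤ ac x i ∧ ac x i ≤ 2 * a i} := by
    ext x
    simp
  rw [h1]
  refine MeasurableSet.iInter fun i => ?_
  have h2 := (iw n).2.2.2.1 i
  exact (measurableSet_le measurable_const h2).inter (measurableSet_le h2 measurable_const)

/-- The bound for the entries. -/
theorem cell_entries {n : ℕ} {a : Fin n → ℝ} {x0 : GR n} (hx0 : x0 ∈ cellE a) {x : GR n} (hx : x ∈ cellE a)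
    {e : Fin n → Fin n → ℤ} (he : ∀ i j, j < i → 0 ≤ e i j ∧ (e i j : ℝ) ≤ ac x0 i / ac x0 j) :
    ∀ i j, |((cellD (ac x0) (iw_prod_ac x0))⁻¹ * io n (cellG e) * x).1 i j| ≤ n * (n * (2 ^ n * (2 * 2 ^ n))) := by
  intro i j
  have hp0 := (iw n).1 x0
  have hp := (iw n).1 x
  obtain ⟨k, hk, hxk⟩ := (iw n).2.1 x
  set y : GR n := (cellD (ac x0) (iw_prod_ac x0))⁻¹ * io n (cellG e) * x with hy
  have h1 : Matrix.diagonal (ac x0) * y.1 = (io n (cellG e)).1 * Matrix.of (lc x) * Matrix.diagonal (ac x) * k := by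
    have h2 : (cellD (ac x0) (iw_prod_ac x0)) * y = io n (cellG e) * x := by
      rw [hy, mul_assoc, mul_inv_cancel_left]
    have h3 : (cellD (ac x0) (iw_prod_ac x0)).1 * y.1 = (io n (cellG e)).1 * x.1 := by
      rw [← Matrix.SpecialLinearGroup.coe_mul, ← Matrix.SpecialLinearGroup.coe_mul, h2]
    have h4 : (cellD (ac x0) (iw_prod_ac x0)).1 = Matrix.diagonal (ac x0) := rfl
    rw [h4] at h3
    rw [h3]
    conv_lhs => rw [hxk]
    simp only [Matrix.mul_assoc]
  have hac : ∀ l m : Fin n, m ≤ l → ac x0 m ≤ 2 ^ n * ac x0 l := fun l m h => ent_ac iw hx0.1 l m h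
  -- the entries of the lower triangular part
  have h5 : ∀ m : Fin n, |((io n (cellG e)).1 * Matrix.of (lc x) * Matrix.diagonal (ac x)) i m| ≤
      ac x0 i * (n * (2 ^ n * (2 * 2 ^ n))) := by
    intro m
    rw [Matrix.mul_diagonal, Matrix.mul_apply, Finset.sum_mul]
    calc |∑ l, (io n (cellG e)).1 i l * Matrix.of (lc x) l m * ac x m| ≤
        ∑ l, |(io n (cellG e)).1 i l * Matrix.of (lc x) l m * ac x m| := Finset.abs_sum_le_sum_abs _ _
      _ ≤ ∑ _l : Fin n, ac x0 i * (2 ^ n * (2 * 2 ^ n)) := by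
          refine Finset.sum_le_sum fun l _ => ?_
          have hpos : 0 ≤ ac x0 i * (2 ^ n * (2 * 2 ^ n)) := by
            have := hp0 i
            positivity
          rcases lt_or_ge i l with h6 | h6
          · rw [cellG_val, if_neg h6.ne, if_neg h6.not_gt, zero_mul, zero_mul, abs_zero]
            exact hpos
          rcases lt_or_ge l m with h7 | h7
          · have : Matrix.of (lc x) l m = 0 := by simp [lc, h7.ne, h7.not_gt]
            rw [this, mul_zero, zero_mul, abs_zero]
            exact hpos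
          rw [abs_mul, abs_mul, abs_of_pos (hp m)]
          have h8 : |(io n (cellG e)).1 i l| * ac x0 l ≤ 2 ^ n * ac x0 i := by
            rw [cellG_val]
            rcases eq_or_lt_of_le h6 with h9 | h9
            · rw [if_pos h9.symm, abs_one, one_mul, h9]
              have : (1 : ℝ) ≤ 2 ^ n := one_le_pow₀ (by norm_num)
              nlinarith [hp0 i]
            · rw [if_neg h9.ne', if_pos h9, abs_of_nonneg (by exact_mod_cast (he i l h9).1)]
              have h10 := (he i l h9).2
              rw [le_div_iff₀ (hp0 l)] at h10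
              have : (1 : ℝ) ≤ 2 ^ n := one_le_pow₀ (by norm_num)
              nlinarith [hp0 i]
          have h9 : |Matrix.of (lc x) l m| ≤ 1 := by
            rw [Matrix.of_apply]
            rcases eq_or_lt_of_le h7 with h10 | h10
            · simp [lc, h10]
            · have h11 := hx.1.1 l m h10
              rw [abs_le]
              constructor <;> linarith [h11.1, h11.2]
          have h10 : ac x m ≤ 2 * ac x0 m := by
            have := (hx.2 m).2
            have := (hx0.2 m).1
            linarith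
          have h11 : ac x m ≤ 2 * 2 ^ n * ac x0 l := by
            have := hac l m h7
            linarith
          calc |(io n (cellG e)).1 i l| * |Matrix.of (lc x) l m| * ac x m ≤
              |(io n (cellG e)).1 i l| * 1 * (2 * 2 ^ n * ac x0 l) := by
                have := hp m
                gcongr
            _ = (|(io n (cellG e)).1 i l| * ac x0 l) * (2 * 2 ^ n) := by ring
            _ ≤ (2 ^ n * ac x0 i) * (2 * 2 ^ n) := by gcongr
            _ = ac x0 i * (2 ^ n * (2 * 2 ^ n)) := by ring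
      _ = ac x0 i * (n * (2 ^ n * (2 * 2 ^ n))) := by
          rw [Finset.sum_const, Finset.card_univ, Fintype.card_fin, nsmul_eq_mul]
          ring
  have h6 := congrFun (congrFun h1 i) j
  rw [Matrix.diagonal_mul, Matrix.mul_apply] at h6
  have h7 : ac x0 i * |y.1 i j| ≤ ac x0 i * (n * (n * (2 ^ n * (2 * 2 ^ n)))) := by
    rw [← abs_of_pos (hp0 i), ← abs_mul, abs_of_pos (hp0 i), h6]
    calc _ ≤ ∑ m, |((io n (cellG e)).1 * Matrix.of (lc x) * Matrix.diagonal (ac x)) i m * k m j| :=
          Finset.abs_sum_le_sum_abs _ _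
      _ ≤ ∑ _m : Fin n, ac x0 i * (n * (2 ^ n * (2 * 2 ^ n))) := by
          refine Finset.sum_le_sum fun m _ => ?_
          rw [abs_mul]
          calc _ ≤ (ac x0 i * (n * (2 ^ n * (2 * 2 ^ n)))) * 1 := by
                have := hp0 i
                gcongr
                · exact h5 m
                · exact ent_k hk m j
            _ = _ := mul_one _
      _ = ac x0 i * (n * (n * (2 ^ n * (2 * 2 ^ n)))) := by
          rw [Finset.sum_const, Finset.card_univ, Fintype.card_fin, nsmul_eq_mul]
          ring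
  exact le_of_mul_le_mul_left h7 (hp0 i)

/-- The set of the translations. -/
def cellS {n : ℕ} (a : Fin n → ℝ) : Finset (Fin n → Fin n → ℤ) :=
  Fintype.piFinset fun i => Fintype.piFinset fun j => if j < i then Finset.Icc 0 ⌊a i / a j⌋ else {0}

theorem cellS_card {n : ℕ} (a : Fin n → ℝ) (ha : ∀ i, 0 < a i) : wt a ≤ ((cellS a).card : ℝ) := by
  unfold cellS wt
  rw [Fintype.card_piFinset]
  push_cast
  refine Finset.prod_le_prod (fun i _ => Finset.prod_nonneg fun j _ => ?_) fun i _ => ?_
  · split_ifs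
    · exact (div_pos (ha i) (ha j)).le
    · exact zero_le_one
  rw [Fintype.card_piFinset]
  push_cast
  refine Finset.prod_le_prod (fun j _ => ?_) fun j _ => ?_
  · split_ifs
    · exact (div_pos (ha i) (ha j)).le
    · exact zero_le_one
  split_ifs with h
  · rw [Int.card_Icc]
    have h0 : 0 ≤ ⌊a i / a j⌋ := Int.floor_nonneg.2 (div_pos (ha i) (ha j)).le
    have h1 : ((⌊a i / a j⌋ + 1 - 0).toNat : ℤ) = ⌊a i / a j⌋ + 1 := by
      rw [Int.toNat_of_nonneg] <;> omega
    have h2 : (((⌊a i / a j⌋ + 1 - 0).toNat : ℕ) : ℝ) = (⌊a i / a j⌋ : ℝ) + 1 := by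
      exact_mod_cast h1
    rw [h2]
    exact (Int.lt_floor_add_one _).le
  · simp

theorem cell_wt {n : ℕ} {a b : Fin n → ℝ} (ha : ∀ i, 0 < a i) (hb : ∀ i, a i ≤ b i ∧ b i ≤ 2 * a i) :
    wt a ≤ 2 ^ (n * n) * wt b ∧ wt b ≤ 2 ^ (n * n) * wt a := by
  have hb0 : ∀ i, 0 < b i := fun i => (ha i).trans_le (hb i).1
  have key : ∀ u v : Fin n → ℝ, (∀ i, 0 < u i) → (∀ i, 0 < v i) → (∀ i j, u i / u j ≤ 2 * (v i / v j)) →
      wt u ≤ 2 ^ (n * n) * wt v := by
    intro u v hu hv h
    unfold wt
    calc (∏ i, ∏ j, if j < i then u i / u j else 1) ≤ ∏ i : Fin n, ∏ j : Fin n, 2 * (if j < i then v i / v j else 1) := by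
          refine Finset.prod_le_prod (fun i _ => Finset.prod_nonneg fun j _ => ?_) fun i _ =>
            Finset.prod_le_prod (fun j _ => ?_) fun j _ => ?_
          · split_ifs
            · exact (div_pos (hu i) (hu j)).le
            · exact zero_le_one
          · split_ifs
            · exact (div_pos (hu i) (hu j)).le
            · exact zero_le_one
          · split_ifs
            · exact h i j
            · norm_num
      _ = 2 ^ (n * n) * ∏ i : Fin n, ∏ j : Fin n, (if j < i then v i / v j else 1) := by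
          simp only [Finset.prod_mul_distrib, Finset.prod_const, Finset.card_univ, Fintype.card_fin, ← pow_mul]
  constructor
  · refine key a b ha hb0 fun i j => ?_
    rw [← mul_div_assoc, div_le_div_iff₀ (ha j) (hb0 j)]
    have h1 := hb i
    have h2 := hb j
    have h3 := ha i
    have h4 := ha j
    nlinarith
  · refine key b a hb0 ha fun i j => ?_
    rw [← mul_div_assoc, div_le_div_iff₀ (hb0 j) (ha j)]
    have h1 := hb i
    have h2 := hb j
    have h3 := ha i
    have h4 := ha j
    nlinarith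

theorem wt_pos {n : ℕ} {a : Fin n → ℝ} (ha : ∀ i, 0 < a i) : 0 < wt a := by
  unfold wt
  refine Finset.prod_pos fun i _ => Finset.prod_pos fun j _ => ?_
  split_ifs
  · exact div_pos (ha i) (ha j)
  · exact one_pos

theorem cell (_h : S_iw) : S_cell := by
  intro n
  set K : Set (GR n) := {x : GR n | ∀ i j, |x.1 i j| ≤ n * (n * (2 ^ n * (2 * 2 ^ n)))} with hK
  have hKfin : mu n K < ∞ := (cell_compact n _).measure_lt_top
  set V : ℝ := (mu n K).toReal with hV
  refine ⟨(V + 1) * 2 ^ (n * n), by positivity, fun a ha => ?_⟩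
  rcases Set.eq_empty_or_nonempty (cellE a) with hE | ⟨x0, hx0⟩
  · change mu n (cellE a) ≤ _
    rw [hE, measure_empty]
    exact zero_le
  change mu n (cellE a) ≤ _
  have hp0 := (iw n).1 x0
  set D := cellD (ac x0) (iw_prod_ac x0) with hD
  let Fe : (Fin n → Fin n → ℤ) → Set (GR n) := fun e => (fun y => (D⁻¹ * io n (cellG e))⁻¹ * y) ⁻¹' cellE a
  have hmem : ∀ e ∈ cellS (ac x0), ∀ i j, j < i → 0 ≤ e i j ∧ (e i j : ℝ) ≤ ac x0 i / ac x0 j := by
    intro e he i j hij
    have h1 := Fintype.mem_piFinset.1 (Fintype.mem_piFinset.1 he i) j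
    rw [if_pos hij, Finset.mem_Icc] at h1
    exact ⟨h1.1, Int.le_floor.1 h1.2⟩
  have hzero : ∀ e ∈ cellS (ac x0), ∀ i j, ¬ j < i → e i j = 0 := by
    intro e he i j hij
    have h1 := Fintype.mem_piFinset.1 (Fintype.mem_piFinset.1 he i) j
    rw [if_neg hij, Finset.mem_singleton] at h1
    exact h1
  have hdis : Set.PairwiseDisjoint (cellS (ac x0) : Set (Fin n → Fin n → ℤ)) Fe := by
    intro e he e' he' hne
    rw [Function.onFun, Set.disjoint_left]
    intro y hy hy'
    apply hne
    have h1 : io n (cellG e) * ((D⁻¹ * io n (cellG e))⁻¹ * y) = io n (cellG e') * ((D⁻¹ * io n (cellG e'))⁻¹ * y) := by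
      rw [_root_.mul_inv_rev, _root_.mul_inv_rev, inv_inv, mul_assoc, mul_inv_cancel_left, mul_assoc, mul_inv_cancel_left]
    have h2 := cell_inj e e' hy.1 hy'.1 h1
    funext i j
    by_cases hij : j < i
    · exact h2 i j hij
    · rw [hzero e he i j hij, hzero e' he' i j hij]
  have hmeas : ∀ e ∈ cellS (ac x0), MeasurableSet (Fe e) := fun e _ =>
    (cellE_measurable a).preimage (continuous_const_mul _).measurable
  have hsub : (⋃ e ∈ cellS (ac x0), Fe e) ⊆ K := by
    intro y hy
    rw [Set.mem_iUnion₂] at hy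
    obtain ⟨e, he, hy⟩ := hy
    have h1 := cell_entries hx0 (x := (D⁻¹ * io n (cellG e))⁻¹ * y) hy (hmem e he)
    rw [← hD, mul_inv_cancel_left] at h1
    exact h1
  have h1 : ((cellS (ac x0)).card : ℝ≥0∞) * mu n (cellE a) ≤ mu n K := by
    calc ((cellS (ac x0)).card : ℝ≥0∞) * mu n (cellE a) = ∑ e ∈ cellS (ac x0), mu n (Fe e) := by
          rw [Finset.sum_congr rfl fun e _ => measure_preimage_mul (mu n) _ (cellE a), Finset.sum_const, nsmul_eq_mul]
      _ = mu n (⋃ e ∈ cellS (ac x0), Fe e) := (measure_biUnion_finset hdis hmeas).symm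
      _ ≤ mu n K := measure_mono hsub
  have hwt0 : 0 < wt (ac x0) := wt_pos hp0
  have hwt : 0 < wt a := wt_pos ha
  have hcard := cellS_card (ac x0) hp0
  have h2 : ENNReal.ofReal (wt (ac x0)) * mu n (cellE a) ≤ ENNReal.ofReal (V + 1) := by
    calc ENNReal.ofReal (wt (ac x0)) * mu n (cellE a) ≤ ((cellS (ac x0)).card : ℝ≥0∞) * mu n (cellE a) := by
          gcongr
          rw [← ENNReal.ofReal_natCast]
          exact ENNReal.ofReal_le_ofReal hcard
      _ ≤ mu n K := h1
      _ = ENNReal.ofReal V := (ENNReal.ofReal_toReal hKfin.ne).symm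
      _ ≤ _ := ENNReal.ofReal_le_ofReal (by linarith)
  have h3 : mu n (cellE a) ≤ ENNReal.ofReal (V + 1) / ENNReal.ofReal (wt (ac x0)) := by
    rw [ENNReal.le_div_iff_mul_le (Or.inl (ENNReal.ofReal_pos.2 hwt0).ne') (Or.inl ENNReal.ofReal_ne_top), mul_comm]
    exact h2
  refine h3.trans ?_
  rw [← ENNReal.ofReal_div_of_pos hwt0]
  refine ENNReal.ofReal_le_ofReal ?_
  have h4 := (cell_wt ha (b := ac x0) fun i => hx0.2 i).1
  have hV0 : 0 ≤ V := ENNReal.toReal_nonneg
  rw [div_le_iff₀ hwt0, ← div_eq_mul_inv, div_mul_eq_mul_div, le_div_iff₀ hwt]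
  nlinarith

end Pool.Agent.T2h77.N
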