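import Pool.Agent.T2h77N.Api

/-!
# Density theorem for `GL_n` over `ℚ`: the counting of integral matrices
-/

set_option autoImplicit false

open MeasureTheory Matrix
open scoped MatrixGroups ENNReal

noncomputable section

namespace Pool.Agent.T2h77.N

/-! ### Boxes -/

/-- the integral matrices in a box -/
def bx {n : ℕ} (V : Fin n → Fin n → ℝ) : Finset (MZ n) :=
  (Fintype.piFinset fun i => Fintype.piFinset fun j => Finset.Icc (-⌊V i j⌋) ⌊V i j⌋).map
    (Matrix.of : (Fin n → Fin n → ℤ) ≃ MZ n).toEmbedding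

theorem mem_bx {n : ℕ} {V : Fin n → Fin n → ℝ} {B : MZ n} : B ∈ bx V ↔ ∀ i j, |(B i j : ℝ)| ≤ V i j := by
  unfold bx
  rw [Finset.mem_map_equiv, Fintype.mem_piFinset]
  refine forall_congr' fun i => ?_
  rw [Fintype.mem_piFinset]
  refine forall_congr' fun j => ?_
  rw [Finset.mem_Icc, ← abs_le, Int.le_floor, Int.cast_abs]
  rfl

theorem card_bx {n : ℕ} {V : Fin n → Fin n → ℝ} (hV : ∀ i j, 0 ≤ V i j) :
    ((bx V).card : ℝ) ≤ ∏ i, ∏ j, (2 * V i j + 1) := by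
  unfold bx
  rw [Finset.card_map, Fintype.card_piFinset]
  push_cast
  refine Finset.prod_le_prod (fun i _ => Nat.cast_nonneg _) fun i _ => ?_
  rw [Fintype.card_piFinset]
  push_cast
  refine Finset.prod_le_prod (fun j _ => Nat.cast_nonneg _) fun j _ => ?_
  rw [Int.card_Icc]
  have h1 : (0 : ℤ) ≤ ⌊V i j⌋ := Int.floor_nonneg.2 (hV i j)
  have h2 : ((⌊V i j⌋ + 1 - -⌊V i j⌋).toNat : ℤ) = 2 * ⌊V i j⌋ + 1 := by
    rw [Int.toNat_of_nonneg (by linarith)]
    ring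
  have h3 : (((⌊V i j⌋ + 1 - -⌊V i j⌋).toNat : ℤ) : ℝ) = ((2 * ⌊V i j⌋ + 1 : ℤ) : ℝ) := by rw [h2]
  push_cast at h3
  have h4 := Int.floor_le (V i j)
  rw [show (((⌊V i j⌋ + 1 - -⌊V i j⌋).toNat : ℕ) : ℝ) = 2 * (⌊V i j⌋ : ℝ) + 1 by
    rw [← h3]]
  linarith

/-! ### Fixed points -/

set_option linter.unusedSectionVars false

variable {n N : ℕ} [NeZero N] {H : Subgroup (GN n N)}

theorem ixS_pos (H : Subgroup (GN n N)) : 0 < ixS H := by
  unfold ixS
  exact Nat.pos_of_ne_zero Subgroup.FiniteIndex.index_ne_zero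

theorem index_eq (H : Subgroup (GN n N)) : H.index = Nat.card (XX H) := rfl

theorem real_bound {A f s q m : ℕ} (hA : 0 < A) (hs : 0 < s) (h : f ^ A * s ≤ q ^ A * m ^ A) :
    (f : ℝ) ≤ q * m * (s : ℝ) ^ (-(1 / (A : ℝ))) := by
  have hs' : (0 : ℝ) < s := by exact_mod_cast hs
  have hA' : (A : ℝ) ≠ 0 := by exact_mod_cast hA.ne'
  have h1 : ((f : ℝ) * (s : ℝ) ^ (1 / (A : ℝ))) ^ A ≤ ((q : ℝ) * m) ^ A := by
    rw [mul_pow, mul_pow, ← Real.rpow_natCast (((s : ℝ) ^ (1 / (A : ℝ)))) A, ← Real.rpow_mul hs'.le,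
      one_div_mul_cancel hA', Real.rpow_one]
    exact_mod_cast h
  have h2 : (f : ℝ) * (s : ℝ) ^ (1 / (A : ℝ)) ≤ (q : ℝ) * m :=
    le_of_pow_le_pow_left₀ hA.ne' (by positivity) h1
  rw [Real.rpow_neg hs'.le, ← div_eq_mul_inv, le_div_iff₀ (Real.rpow_pos_of_pos hs' _)]
  exact h2

/-- double counting -/
theorem sum_card {α X : Type} [Fintype X] (P : Finset α) (r : α → X → Prop) [∀ a c, Decidable (r a c)] :
    ∑ c : X, (P.filter fun a => r a c).card = ∑ a ∈ P, (Finset.univ.filter fun c => r a c).card := by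
  simp_rw [Finset.card_filter]
  exact Finset.sum_comm

theorem fx_eq [Fintype (XX H)] [DecidableEq (XX H)] (b : GN n N) :
    (Finset.univ.filter fun c : XX H => b • c = c).card = fx H b := by
  unfold fx
  rw [Nat.card_eq_fintype_card, Fintype.card_subtype]

/-! ### Inverses of bounded matrices -/

theorem inv_bound {M : ℝ} (hM : 1 ≤ M) {b : GR n} (hb : ∀ i j, |b i j| ≤ M) (i j : Fin n) :
    |(b⁻¹) i j| ≤ (n.factorial : ℝ) * M ^ n := by
  have h1 : (b⁻¹) i j = (b.1.updateRow j (Pi.single i 1)).det := by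
    rw [← Matrix.adjugate_apply]
    rfl
  rw [h1]
  have h2 := Matrix.det_le (A := b.1.updateRow j (Pi.single i 1)) (abv := (AbsoluteValue.abs : AbsoluteValue ℝ ℝ))
    (x := M) (fun a c => by
      rw [Matrix.updateRow_apply]
      split_ifs
      · rw [Pi.single_apply]
        split_ifs
        · simpa using hM
        · simpa using zero_le_one.trans hM
      · exact hb a c)
  rw [Fintype.card_fin, nsmul_eq_mul] at h2
  exact h2

theorem mul_bound {M M' : ℝ} (hM : 0 ≤ M) {a b : GR n} (ha : ∀ i j, |a i j| ≤ M)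
    (hb : ∀ i j, |b i j| ≤ M') (i j : Fin n) : |(a * b) i j| ≤ (n : ℝ) * (M * M') := by
  rw [Matrix.SpecialLinearGroup.coe_mul, Matrix.mul_apply]
  refine (Finset.abs_sum_le_sum_abs _ _).trans ?_
  calc ∑ k, |a i k * b k j| ≤ ∑ k : Fin n, M * M' := Finset.sum_le_sum fun k _ => by
        rw [abs_mul]
        exact mul_le_mul (ha i k) (hb k j) (abs_nonneg _) hM
    _ = _ := by rw [Finset.sum_const, Finset.card_univ, Fintype.card_fin, nsmul_eq_mul]

/-! ### Products -/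

theorem prod_le_wt {f d : Fin n → Fin n → ℝ} {a : Fin n → ℝ} {K : ℝ} (hf : ∀ i j, 0 ≤ f i j)
    (h : ∀ i j, f i j ≤ K * (if j < i then a i / a j else 1) * d i j) :
    ∏ i, ∏ j, f i j ≤ K ^ (n ^ 2) * wt a * ∏ i, ∏ j, d i j := by
  calc ∏ i, ∏ j, f i j ≤ ∏ i, ∏ j, (K * (if j < i then a i / a j else 1) * d i j) :=
        Finset.prod_le_prod (fun i _ => Finset.prod_nonneg fun j _ => hf i j) fun i _ =>
          Finset.prod_le_prod (fun j _ => hf i j) fun j _ => h i j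
    _ = _ := by
        simp_rw [Finset.prod_mul_distrib, Finset.prod_const, Finset.card_univ, Fintype.card_fin, ← pow_mul, ← sq]
        rfl

/-- the elements of `SL_n(ℤ)` in a compact set of `x SL_n(ℝ) x⁻¹` -/
theorem exists_P (hent : S_ent) (n : ℕ) (M : ℝ) : ∃ C : ℝ, 1 ≤ C ∧ ∀ x ∈ SG n,
    (∀ i j : Fin n, j ≤ i → ac x j ≤ C * ac x i) ∧
    ∀ γ : GZ n, (∀ i j, |(x⁻¹ * io n γ * x) i j| ≤ M) → ∀ i j, |((γ i j : ℤ) : ℝ)| ≤ C * (ac x i / ac x j) := by
  obtain ⟨C, hC, h⟩ := hent n M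
  refine ⟨C, hC, fun x hx => ⟨(h x hx).1, fun γ hγ i j => ?_⟩⟩
  have := (h x hx).2 _ hγ i j
  rw [show x * (x⁻¹ * io n γ * x) * x⁻¹ = io n γ by group] at this
  exact this

/-- an integral matrix of determinant one as an element of the group -/
def mkZ (β : MZ n) (h : β.det = 1) : GZ n := ⟨β, h⟩

theorem cs_one_card {M : ℝ} {x : GR n} {P : Finset (GZ n)}
    (hP : ∀ γ : GZ n, (∀ i j, |(x⁻¹ * io n γ * x) i j| ≤ M) → γ ∈ P) (c : XX H) [DecidableEq (XX H)] :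
    Nat.card (cs H {1} 1 M x c) ≤ (P.filter fun γ : GZ n => rdM N (γ : MZ n) • c = c).card := by
  have key : ∀ q : cs H {1} 1 M x c, mkZ q.1.2 q.2.2.1 ∈ P.filter fun γ : GZ n => rdM N (γ : MZ n) • c = c := by
    rintro ⟨⟨β, β'⟩, hβ, hdet, hc, hM⟩
    simp only [Finset.mem_singleton] at hβ
    subst hβ
    refine Finset.mem_filter.2 ⟨hP _ fun i j => ?_, ?_⟩
    · have := hM i j
      rw [show scl (1 : MZ n) = 1 from (scl_coe (1 : GZ n)).trans (map_one _), inv_one, mul_one,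
        show scl β' = io n (mkZ β' hdet) from scl_coe (mkZ β' hdet)] at this
      exact this
    · have h2 := hc.symm
      simp only [rdM_one', one_smul] at h2
      exact h2
  refine (Nat.card_le_card_of_injective (fun q => (⟨_, key q⟩ :
    {γ // γ ∈ P.filter fun γ : GZ n => rdM N (γ : MZ n) • c = c})) ?_).trans ?_
  · rintro ⟨⟨β, β'⟩, hβ, hdet, hc, hM⟩ ⟨⟨β₁, β₁'⟩, hβ₁, hdet₁, hc₁, hM₁⟩ h
    simp only [Finset.mem_singleton] at hβ hβ₁
    subst hβ
    subst hβ₁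
    have h2 : β' = β₁' := congrArg (fun t => ((t.1 : GZ n) : MZ n)) h
    subst h2
    rfl
  · rw [Nat.card_eq_fintype_card, Fintype.card_coe]

theorem tsum_cs_le [Fintype (XX H)] [DecidableEq (XX H)] {M : ℝ} {x : GR n} {P : Finset (GZ n)}
    (hP : ∀ γ : GZ n, (∀ i j, |(x⁻¹ * io n γ * x) i j| ≤ M) → γ ∈ P) :
    (∑' c : XX H, (Nat.card (cs H {1} 1 M x c) : ℝ)) ≤
      ((∑ c : XX H, (P.filter fun γ : GZ n => rdM N (γ : MZ n) • c = c).card : ℕ) : ℝ) := by
  rw [tsum_fintype, Nat.cast_sum]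
  exact Finset.sum_le_sum fun c _ => Nat.cast_le.2 (cs_one_card hP c)

/-- a finite set of matrices of determinant one, as a set of elements of the group -/
theorem exists_finset (V : Fin n → Fin n → ℝ) : ∃ P : Finset (GZ n), P.card ≤ (bx V).card ∧
    ∀ γ : GZ n, γ ∈ P ↔ ∀ i j, |((γ i j : ℤ) : ℝ)| ≤ V i j := by
  classical
  have hinj : Function.Injective (fun γ : GZ n => (γ : MZ n)) := Subtype.val_injective
  refine ⟨(bx V).preimage (fun γ : GZ n => (γ : MZ n)) hinj.injOn, ?_, fun γ => ?_⟩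
  · rw [← Finset.card_image_of_injective _ hinj]
    exact Finset.card_le_card (Finset.image_subset_iff.2 fun γ hγ => Finset.mem_preimage.1 hγ)
  · rw [Finset.mem_preimage, mem_bx]

theorem triv (hiw : S_iw) (hent : S_ent) : S_triv := by
  classical
  intro n M
  obtain ⟨C, hC, hCx⟩ := exists_P hent n M
  refine ⟨(3 * C ^ 2) ^ (n ^ 2), one_le_pow₀ (by nlinarith), fun N _ H x hx => ?_⟩
  let _ : Fintype (XX H) := Fintype.ofFinite _
  obtain ⟨h1, h2⟩ := hCx x hx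
  have hac : ∀ i, 0 < ac x i := (hiw n).1 x
  have hV : ∀ i j, 0 ≤ C * (ac x i / ac x j) := fun i j =>
    mul_nonneg (by linarith) (div_nonneg (hac i).le (hac j).le)
  obtain ⟨P, hPc, hP⟩ := exists_finset fun i j => C * (ac x i / ac x j)
  refine (tsum_cs_le (P := P) fun γ hγ => (hP γ).2 (h2 γ hγ)).trans ?_
  have h3 : ∑ c : XX H, (P.filter fun γ : GZ n => rdM N (γ : MZ n) • c = c).card ≤ P.card * H.index := by
    rw [index_eq, Nat.card_eq_fintype_card, mul_comm, ← smul_eq_mul]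
    exact (Finset.sum_le_card_nsmul _ _ _ fun c _ => Finset.card_filter_le _ _)
  have h4 : ((bx fun i j => C * (ac x i / ac x j)).card : ℝ) ≤ (3 * C ^ 2) ^ (n ^ 2) * wt (ac x) := by
    refine (card_bx hV).trans ?_
    have := prod_le_wt (n := n) (f := fun i j => 2 * (C * (ac x i / ac x j)) + 1) (d := fun _ _ => 1)
      (a := ac x) (K := 3 * C ^ 2) (fun i j => by linarith [hV i j]) (fun i j => ?_)
    · simpa using this
    · rw [mul_one]
      split_ifs with hij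
      · have h5 : 1 ≤ C * (ac x i / ac x j) := by
          rw [← mul_div_assoc, one_le_div (hac j)]
          exact h1 i j hij.le
        have h6 : C * (ac x i / ac x j) ≤ C ^ 2 * (ac x i / ac x j) := by
          have : 0 ≤ ac x i / ac x j := div_nonneg (hac i).le (hac j).le
          nlinarith
        nlinarith
      · have h5 : ac x i / ac x j ≤ C := by
          rw [div_le_iff₀ (hac j)]
          exact h1 j i (not_lt.1 hij)
        nlinarith
  calc ((∑ c : XX H, (P.filter fun γ : GZ n => rdM N (γ : MZ n) • c = c).card : ℕ) : ℝ)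
      ≤ ((P.card * H.index : ℕ) : ℝ) := Nat.cast_le.2 h3
    _ ≤ ((3 * C ^ 2) ^ (n ^ 2) * wt (ac x)) * H.index := by
        push_cast
        exact mul_le_mul_of_nonneg_right ((Nat.cast_le.2 hPc).trans h4) (Nat.cast_nonneg _)
    _ = _ := by ring

/-! ### One parameter subgroups -/

theorem tv_zero {p q : Fin n} (h : p ≠ q) : (tv p q h (0 : ℤ) : GZ n) = 1 := by
  apply Subtype.ext
  exact Matrix.transvection_zero p q

theorem fx_tv {A C : ℕ} (hA : 0 < A)
    (hfix : ∀ (N : ℕ) [NeZero N] (H : Subgroup (GN n N)) (Z : ℕ) (B : MZ n) (b : GN n N)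
      (z : ZMod N), 1 ≤ Z → (∀ i j, |B i j| ≤ Z) → (∀ s : ℤ, B ≠ s • (1 : MZ n)) → B.det ≠ 0 →
      (b : Matrix (Fin n) (Fin n) (ZMod N)) = z • B.map (Int.cast : ℤ → ZMod N) →
      fx H b ^ A * ixS H ≤ (C * Z) ^ A * H.index ^ A)
    (H : Subgroup (GN n N)) {p q : Fin n} (h : p ≠ q) {y : ℕ} {w : ℤ} (hw : w ≠ 0) (hwy : |w| ≤ y) :
    (fx H (rdM N (tv p q h w : GZ n).1) : ℝ) ≤ (C * y : ℕ) * H.index * (ixS H : ℝ) ^ (-(1 / (A : ℝ))) := by
  have hy : 1 ≤ y := by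
    have : (1 : ℤ) ≤ |w| := Int.one_le_abs hw
    exact_mod_cast this.trans hwy
  have hval : ∀ i j, (tv p q h w : GZ n).1 i j = (if i = j then 1 else 0) + (if i = p ∧ j = q then w else 0) := by
    intro i j
    change (1 + Matrix.single p q w) i j = _
    rw [Matrix.add_apply, Matrix.one_apply, Matrix.single_apply]
    congr 1
    simp only [eq_comm]
  refine real_bound hA (ixS_pos H) (hfix N H y (tv p q h w : GZ n).1 _ 1 hy (fun i j => ?_) (fun s hs => ?_) ?_ ?_)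
  · rw [hval]
    by_cases hij : i = j
    · subst hij
      have : ¬ (i = p ∧ i = q) := fun hh => h (hh.1.symm.trans hh.2)
      simp only [if_true, this, if_false, add_zero, abs_one]
      exact_mod_cast hy
    · simp only [hij, if_false, zero_add]
      split_ifs
      · exact hwy
      · simp
  · have h1 := hval p q
    rw [hs, Matrix.smul_apply, Matrix.one_apply_ne h] at h1
    simp [h] at h1
    exact hw h1.symm
  · rw [(tv p q h w : GZ n).2]
    exact one_ne_zero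
  · rw [rdM_val (isUnit_det_coe N _), one_smul]

theorem card_fiber {p q : Fin n} (h : p ≠ q) [DecidableEq (XX H)] {P : Finset (GZ n)} {K : GZ n → MZ n}
    {S : Finset (MZ n)}
    {y : ℕ} (hK : ∀ γ ∈ P, K γ ∈ S)
    (hKw : ∀ γ ∈ P, ∀ γ' ∈ P, K γ = K γ' → ∃ w ∈ Finset.Icc (-(y : ℤ)) y, γ' = γ * tv p q h w) (c : XX H) :
    (P.filter fun γ : GZ n => rdM N (γ : MZ n) • c = c).card ≤
      S.card * ((Finset.Icc (-(y : ℤ)) y).filter fun w => rdM N (tv p q h w : GZ n).1 • c = c).card := by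
  classical
  rw [Finset.card_eq_sum_card_fiberwise (f := K) (t := S)
    (fun γ hγ => hK γ (Finset.mem_filter.1 hγ).1), ← smul_eq_mul]
  refine Finset.sum_le_card_nsmul _ _ _ fun b _ => ?_
  rcases Finset.eq_empty_or_nonempty
    ((P.filter fun γ : GZ n => rdM N (γ : MZ n) • c = c).filter fun γ => K γ = b) with he | ⟨γ₁, hγ₁⟩
  · rw [he]
    simp
  · refine (Finset.card_le_card (t := (((Finset.Icc (-(y : ℤ)) y).filter
      fun w => rdM N (tv p q h w : GZ n).1 • c = c).image fun w => γ₁ * tv p q h w)) fun γ hγ => ?_).trans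
        Finset.card_image_le
    rw [Finset.mem_filter, Finset.mem_filter] at hγ hγ₁
    obtain ⟨w, hw, hγw⟩ := hKw γ₁ hγ₁.1.1 γ hγ.1.1 (hγ₁.2.trans hγ.2.symm)
    refine Finset.mem_image.2 ⟨w, Finset.mem_filter.2 ⟨hw, ?_⟩, hγw.symm⟩
    have h1 := hγ.1.2
    rw [hγw, rdM_coe_mul, mul_smul] at h1
    nth_rewrite 2 [← hγ₁.1.2] at h1
    exact (MulAction.injective (rdM N (γ₁ : MZ n))) h1

theorem sum_fiber [Fintype (XX H)] [DecidableEq (XX H)] {A C : ℕ} (hA : 0 < A)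
    (hfix : ∀ (N : ℕ) [NeZero N] (H : Subgroup (GN n N)) (Z : ℕ) (B : MZ n) (b : GN n N)
      (z : ZMod N), 1 ≤ Z → (∀ i j, |B i j| ≤ Z) → (∀ s : ℤ, B ≠ s • (1 : MZ n)) → B.det ≠ 0 →
      (b : Matrix (Fin n) (Fin n) (ZMod N)) = z • B.map (Int.cast : ℤ → ZMod N) →
      fx H b ^ A * ixS H ≤ (C * Z) ^ A * H.index ^ A)
    {p q : Fin n} (h : p ≠ q) (y : ℕ) :
    ((∑ c : XX H, ((Finset.Icc (-(y : ℤ)) y).filter fun w => rdM N (tv p q h w : GZ n).1 • c = c).card : ℕ) : ℝ) ≤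
      H.index * (1 + 2 * C * (y : ℝ) ^ 2 * (ixS H : ℝ) ^ (-(1 / (A : ℝ)))) := by
  rw [sum_card]
  have h0 : (0 : ℤ) ∈ Finset.Icc (-(y : ℤ)) y := by
    rw [Finset.mem_Icc]
    constructor <;> simp
  rw [← Finset.add_sum_erase _ _ h0, Nat.cast_add, Nat.cast_sum, mul_add, mul_one]
  refine add_le_add ?_ ?_
  · refine Nat.cast_le.2 ((Finset.card_le_univ _).trans ?_)
    rw [index_eq, Nat.card_eq_fintype_card]
  · have h1 : ∀ w ∈ (Finset.Icc (-(y : ℤ)) y).erase 0,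
        (((Finset.univ.filter fun c : XX H => rdM N (tv p q h w : GZ n).1 • c = c).card : ℕ) : ℝ) ≤
          (C * y : ℕ) * H.index * (ixS H : ℝ) ^ (-(1 / (A : ℝ))) := by
      intro w hw
      rw [Finset.mem_erase, Finset.mem_Icc, ← abs_le] at hw
      rw [fx_eq]
      exact fx_tv hA hfix H h hw.1 hw.2
    refine (Finset.sum_le_card_nsmul _ _ _ h1).trans (le_of_eq ?_)
    rw [Finset.card_erase_of_mem h0, Int.card_Icc]
    have h2 : ((y : ℤ) + 1 - -(y : ℤ)).toNat - 1 = 2 * y := by omega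
    rw [h2, nsmul_eq_mul]
    push_cast
    ring

/-! ### The keys -/

/-- the columns other than `q` -/
def col (q : Fin n) (γ : GZ n) : MZ n := Matrix.of fun a b => if b = q then 0 else γ a b

open Classical in
/-- a representative with given columns -/
def rp (P : Finset (GZ n)) (q : Fin n) (B : MZ n) : GZ n :=
  if h : ∃ γ ∈ P, col q γ = B then h.choose else 1

theorem rp_mem {P : Finset (GZ n)} {q : Fin n} {γ : GZ n} (hγ : γ ∈ P) :
    rp P q (col q γ) ∈ P ∧ col q (rp P q (col q γ)) = col q γ := by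
  have h : ∃ γ' ∈ P, col q γ' = col q γ := ⟨γ, hγ, rfl⟩
  have e : rp P q (col q γ) = h.choose := dif_pos h
  rw [e]
  exact h.choose_spec

/-- the key -/
def ky (P : Finset (GZ n)) (p q : Fin n) (Y : ℝ) (γ : GZ n) : MZ n :=
  Matrix.of fun a b => if b ≠ q then γ a b else
    if a = p then ⌊((((rp P q (col q γ))⁻¹ * γ : GZ n) p q : ℤ) : ℝ) / Y⌋ else ((rp P q (col q γ))⁻¹ * γ : GZ n) a q

theorem col_mul {q : Fin n} {γ₀ γ : GZ n} (h : col q γ₀ = col q γ) (a b : Fin n) (hb : b ≠ q) :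
    (γ₀⁻¹ * γ : GZ n) a b = (1 : MZ n) a b := by
  have h1 : ∀ c, (γ : MZ n) c b = (γ₀ : MZ n) c b := by
    intro c
    have := congrFun (congrFun h c) b
    simp only [col, Matrix.of_apply, hb, if_false] at this
    exact this.symm
  rw [Matrix.SpecialLinearGroup.coe_mul, Matrix.mul_apply]
  simp_rw [h1]
  rw [← Matrix.mul_apply, ← Matrix.SpecialLinearGroup.coe_mul, inv_mul_cancel]
  rfl

theorem ky_eq {P : Finset (GZ n)} {p q : Fin n} (h : p ≠ q) {Y : ℝ} (hY : 1 ≤ Y) {γ γ' : GZ n} (hγ : γ ∈ P)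
    (hk : ky P p q Y γ = ky P p q Y γ') :
    ∃ w ∈ Finset.Icc (-((⌊Y⌋₊ : ℕ) : ℤ)) (⌊Y⌋₊ : ℕ), γ' = γ * tv p q h w := by
  have hk' : ∀ a b, ky P p q Y γ a b = ky P p q Y γ' a b := fun a b => by rw [hk]
  have hcol : col q γ = col q γ' := by
    ext a b
    unfold col
    simp only [Matrix.of_apply]
    split_ifs with hb
    · rfl
    · have := hk' a b
      simpa [ky, hb] using this
  obtain ⟨h1, h2⟩ := rp_mem (q := q) hγ
  have hrp : rp P q (col q γ') = rp P q (col q γ) := by rw [hcol]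
  set γ₀ := rp P q (col q γ) with hγ₀
  have hu : ∀ a b, b ≠ q → (γ₀⁻¹ * γ : GZ n) a b = (1 : MZ n) a b := col_mul h2
  have hu' : ∀ a b, b ≠ q → (γ₀⁻¹ * γ' : GZ n) a b = (1 : MZ n) a b := col_mul (h2.trans hcol)
  have h3 : ∀ a, a ≠ p → (γ₀⁻¹ * γ : GZ n) a q = (γ₀⁻¹ * γ' : GZ n) a q := by
    intro a ha
    have := hk' a q
    simp only [ky, Matrix.of_apply, ne_eq, not_true_eq_false, if_false, ha, hrp, ← hγ₀] at this
    exact this
  have h4 : ⌊(((γ₀⁻¹ * γ : GZ n) p q : ℤ) : ℝ) / Y⌋ = ⌊(((γ₀⁻¹ * γ' : GZ n) p q : ℤ) : ℝ) / Y⌋ := by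
    have := hk' p q
    simp only [ky, Matrix.of_apply, ne_eq, not_true_eq_false, if_false, if_true, hrp, ← hγ₀] at this
    exact this
  have hY0 : 0 < Y := by linarith
  refine ⟨(γ₀⁻¹ * γ' : GZ n) p q - (γ₀⁻¹ * γ : GZ n) p q, ?_, ?_⟩
  · rw [Finset.mem_Icc, ← abs_le]
    have h5 := Int.abs_sub_lt_one_of_floor_eq_floor h4.symm
    rw [← sub_div, abs_div, abs_of_pos hY0, div_lt_one hY0] at h5
    have h6 : ((|(γ₀⁻¹ * γ' : GZ n) p q - (γ₀⁻¹ * γ : GZ n) p q|.toNat : ℕ) : ℤ) =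
        |(γ₀⁻¹ * γ' : GZ n) p q - (γ₀⁻¹ * γ : GZ n) p q| := Int.toNat_of_nonneg (abs_nonneg _)
    rw [← h6]
    refine Int.ofNat_le.2 (Nat.le_floor ?_)
    have h7 : (((|(γ₀⁻¹ * γ' : GZ n) p q - (γ₀⁻¹ * γ : GZ n) p q|.toNat : ℕ) : ℤ) : ℝ) =
        ((|(γ₀⁻¹ * γ' : GZ n) p q - (γ₀⁻¹ * γ : GZ n) p q| : ℤ) : ℝ) := by rw [h6]
    rw [Int.cast_natCast] at h7
    rw [h7]
    push_cast
    exact h5.le
  · suffices hs : γ₀⁻¹ * γ' = γ₀⁻¹ * γ * tv p q h ((γ₀⁻¹ * γ' : GZ n) p q - (γ₀⁻¹ * γ : GZ n) p q) by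
      rw [mul_assoc] at hs
      exact mul_left_cancel hs
    apply Subtype.ext
    rw [Matrix.SpecialLinearGroup.coe_mul (γ₀⁻¹ * γ)]
    change _ = (γ₀⁻¹ * γ : GZ n).1 * Matrix.transvection p q _
    ext a b
    by_cases hb : b = q
    · subst hb
      rw [Matrix.mul_transvection_apply_same, hu a p h]
      by_cases ha : a = p
      · subst ha
        simp
      · rw [Matrix.one_apply_ne ha, mul_zero, add_zero]
        exact (h3 a ha).symm
    · rw [Matrix.mul_transvection_apply_of_ne _ _ _ _ hb]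
      exact (hu' a b hb).trans (hu a b hb).symm

theorem high (hiw : S_iw) (hent : S_ent) (hfix : S_fix) : S_high := by
  classical
  intro n hn
  obtain ⟨A, C₀, hA, hfx⟩ := hfix n hn
  refine ⟨A, by exact_mod_cast hA, fun M => ?_⟩
  set M₀ : ℝ := max M 1 with hM₀
  have hM1 : 1 ≤ M₀ := le_max_right _ _
  obtain ⟨C₁, hC₁, hC₁x⟩ := exists_P hent n M
  obtain ⟨C₂, hC₂, hC₂x⟩ := exists_P hent n ((n : ℝ) * (((n.factorial : ℝ) * M₀ ^ n) * M₀))
  set C₃ : ℝ := max C₁ C₂ with hC₃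
  have hC31 : 1 ≤ C₃ := hC₁.trans (le_max_left _ _)
  set K : ℝ := (6 * C₃ ^ 2) ^ (n ^ 2) with hK
  have hK1 : 1 ≤ K := one_le_pow₀ (by nlinarith)
  refine ⟨K * (1 + 2 * C₀), ?_, ?_⟩
  · have : (0 : ℝ) ≤ C₀ := Nat.cast_nonneg _
    nlinarith
  rintro N _ H Y x hY hx ⟨q, p, hqp, hYx⟩
  let _ : Fintype (XX H) := Fintype.ofFinite _
  have hpq : p ≠ q := by
    rintro rfl
    omega
  have hlt : q < p := by
    rw [Fin.lt_def]
    omega
  have hac : ∀ i, 0 < ac x i := (hiw n).1 x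
  obtain ⟨h1, h2⟩ := hC₁x x hx
  obtain ⟨_, h2'⟩ := hC₂x x hx
  have hd : ∀ i j, 0 < ac x i / ac x j := fun i j => div_pos (hac i) (hac j)
  have hYq : Y ≤ ac x p / ac x q := by
    rw [le_div_iff₀ (hac q)]
    refine le_trans ?_ hYx
    refine mul_le_mul_of_nonneg_right ?_ (hac q).le
    have h3 : 1 ≤ K * (1 + 2 * (C₀ : ℝ)) := by
      have : (0 : ℝ) ≤ C₀ := Nat.cast_nonneg _
      nlinarith
    nlinarith
  have hY0 : 0 < Y := by linarith
  obtain ⟨P₀, _, hP₀⟩ := exists_finset fun i j => C₁ * (ac x i / ac x j)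
  set P : Finset (GZ n) := P₀.filter fun γ : GZ n => ∀ i j, |(x⁻¹ * io n γ * x) i j| ≤ M with hP
  have hPm : ∀ γ : GZ n, (∀ i j, |(x⁻¹ * io n γ * x) i j| ≤ M) → γ ∈ P := fun γ hγ =>
    Finset.mem_filter.2 ⟨(hP₀ γ).2 (h2 γ hγ), hγ⟩
  have hPM : ∀ γ ∈ P, ∀ i j, |(x⁻¹ * io n γ * x) i j| ≤ M := fun γ hγ => (Finset.mem_filter.1 hγ).2
  set V : Fin n → Fin n → ℝ := fun a b =>
    2 * C₃ * (ac x a / ac x b) * (if a = p ∧ b = q then Y⁻¹ else 1) with hV
  have hV0 : ∀ a b, 0 ≤ V a b := fun a b => by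
    rw [hV]
    have := (hd a b).le
    dsimp only
    split_ifs <;> positivity
  -- the keys are in the box
  have hkey : ∀ γ ∈ P, ky P p q Y γ ∈ bx V := by
    intro γ hγ
    rw [mem_bx]
    intro a b
    have hγM := hPM γ hγ
    have hrM := hPM _ (rp_mem (q := q) hγ).1
    set γ₀ := rp P q (col q γ) with hγ₀
    have hu : ∀ i j, |((((γ₀⁻¹ * γ : GZ n) i j : ℤ) : ℝ))| ≤ C₂ * (ac x i / ac x j) := by
      refine h2' (γ₀⁻¹ * γ) fun i j => ?_
      have h3 : x⁻¹ * io n (γ₀⁻¹ * γ) * x = (x⁻¹ * io n γ₀ * x)⁻¹ * (x⁻¹ * io n γ * x) := by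
        rw [map_mul, map_inv]
        group
      rw [h3]
      exact mul_bound (by positivity) (inv_bound hM1 fun i j => (hrM i j).trans (le_max_left _ _))
        (fun i j => (hγM i j).trans (le_max_left _ _)) i j
    have hC13 : C₁ ≤ C₃ := le_max_left _ _
    have hC23 : C₂ ≤ C₃ := le_max_right _ _
    by_cases hb : b = q
    · subst hb
      by_cases ha : a = p
      · subst ha
        simp only [ky, Matrix.of_apply, ne_eq, not_true_eq_false, if_false, if_true, ← hγ₀, hV, and_self]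
        have h4 := hu a b
        set t : ℝ := (((γ₀⁻¹ * γ : GZ n) a b : ℤ) : ℝ) with ht
        have h5 : |((⌊t / Y⌋ : ℤ) : ℝ)| ≤ |t| / Y + 1 := by
          have h6 := Int.floor_le (t / Y)
          have h7 := Int.lt_floor_add_one (t / Y)
          have h8 : |t| / Y = |t / Y| := by rw [abs_div, abs_of_pos hY0]
          rw [h8, abs_le]
          constructor
          · linarith [neg_abs_le (t / Y)]
          · linarith [le_abs_self (t / Y)]
        refine h5.trans ?_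
        have h9 : |t| / Y ≤ C₃ * (ac x a / ac x b) * Y⁻¹ := by
          rw [div_eq_mul_inv]
          refine mul_le_mul_of_nonneg_right (h4.trans ?_) (inv_nonneg.2 hY0.le)
          exact mul_le_mul_of_nonneg_right hC23 (hd a b).le
        have h10 : 1 ≤ C₃ * (ac x a / ac x b) * Y⁻¹ := by
          rw [← div_eq_mul_inv, one_le_div hY0]
          nlinarith [hd a b]
        linarith
      · simp only [ky, Matrix.of_apply, ne_eq, not_true_eq_false, if_false, ha, ← hγ₀, hV, false_and, mul_one]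
        refine (hu a b).trans (mul_le_mul_of_nonneg_right ?_ (hd a b).le)
        linarith
    · simp only [ky, Matrix.of_apply, ne_eq, hb, not_false_eq_true, if_true, hV, and_false, if_false, mul_one]
      refine (h2 γ hγM a b).trans (mul_le_mul_of_nonneg_right ?_ (hd a b).le)
      linarith
  -- the size of the box
  have hbox : ((bx V).card : ℝ) ≤ K * wt (ac x) * Y⁻¹ := by
    refine (card_bx hV0).trans ?_
    have h3 := prod_le_wt (n := n) (f := fun i j => 2 * V i j + 1)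
      (d := fun i j => if i = p ∧ j = q then Y⁻¹ else 1)
      (a := ac x) (K := 6 * C₃ ^ 2) (fun i j => by linarith [hV0 i j]) (fun i j => ?_)
    · refine h3.trans (le_of_eq ?_)
      rw [hK]
      congr 1
      have h4 : ∀ i, ∏ j, (if i = p ∧ j = q then Y⁻¹ else 1) = if i = p then Y⁻¹ else 1 := by
        intro i
        by_cases hi : i = p
        · simp [hi]
        · simp [hi]
      simp_rw [h4]
      simp
    · have hCC : C₃ ≤ C₃ ^ 2 := by nlinarith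
      by_cases hij : j < i
      · have h5 : 1 ≤ C₃ * (ac x i / ac x j) * (if i = p ∧ j = q then Y⁻¹ else 1) := by
          split_ifs with hh
          · obtain ⟨rfl, rfl⟩ := hh
            rw [← div_eq_mul_inv, one_le_div hY0]
            nlinarith [hd i j]
          · rw [mul_one]
            have h6 : 1 ≤ C₁ * (ac x i / ac x j) := by
              rw [← mul_div_assoc, one_le_div (hac j)]
              exact h1 i j hij.le
            exact h6.trans (mul_le_mul_of_nonneg_right (le_max_left _ _) (hd i j).le)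
        have h7 : V i j = 2 * (C₃ * (ac x i / ac x j) * (if i = p ∧ j = q then Y⁻¹ else 1)) := by
          rw [hV]
          ring
        have h8 : C₃ * (ac x i / ac x j) * (if i = p ∧ j = q then Y⁻¹ else 1) ≤
            C₃ ^ 2 * (ac x i / ac x j) * (if i = p ∧ j = q then Y⁻¹ else 1) := by
          have h9 : (0 : ℝ) ≤ (if i = p ∧ j = q then Y⁻¹ else 1) := by
            split_ifs
            · exact inv_nonneg.2 hY0.le
            · exact zero_le_one
          exact mul_le_mul_of_nonneg_right (mul_le_mul_of_nonneg_right hCC (hd i j).le) h9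
        rw [if_pos hij, h7]
        linarith
      · have hne : ¬ (i = p ∧ j = q) := by
          rintro ⟨rfl, rfl⟩
          exact hij hlt
        have h5 : ac x i / ac x j ≤ C₃ := by
          rw [div_le_iff₀ (hac j)]
          exact (h1 j i (not_lt.1 hij)).trans (mul_le_mul_of_nonneg_right (le_max_left _ _) (hac j).le)
        have h7 : V i j = 2 * (C₃ * (ac x i / ac x j)) := by
          rw [hV]
          simp only [hne, if_false]
          ring
        rw [if_neg hij, if_neg hne, h7]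
        nlinarith
  -- conclusion
  refine (tsum_cs_le hPm).trans ?_
  have h3 : ∑ c : XX H, (P.filter fun γ : GZ n => rdM N (γ : MZ n) • c = c).card ≤
      (bx V).card * ∑ c : XX H, ((Finset.Icc (-((⌊Y⌋₊ : ℕ) : ℤ)) (⌊Y⌋₊ : ℕ)).filter
        fun w => rdM N (tv p q hpq w : GZ n).1 • c = c).card := by
    rw [Finset.mul_sum]
    exact Finset.sum_le_sum fun c _ => card_fiber hpq hkey (fun γ hγ γ' _ hk => ky_eq hpq hY hγ hk) c
  have hm : (0 : ℝ) ≤ H.index := Nat.cast_nonneg _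
  have hs : (0 : ℝ) ≤ (ixS H : ℝ) ^ (-(1 / (A : ℝ))) := Real.rpow_nonneg (Nat.cast_nonneg _) _
  have hwt : 0 ≤ wt (ac x) := Finset.prod_nonneg fun i _ => Finset.prod_nonneg fun j _ => by
    split_ifs
    · exact (hd i j).le
    · exact zero_le_one
  calc ((∑ c : XX H, (P.filter fun γ : GZ n => rdM N (γ : MZ n) • c = c).card : ℕ) : ℝ)
      ≤ ((bx V).card : ℝ) * ((∑ c : XX H, ((Finset.Icc (-((⌊Y⌋₊ : ℕ) : ℤ)) (⌊Y⌋₊ : ℕ)).filter
        fun w => rdM N (tv p q hpq w : GZ n).1 • c = c).card : ℕ) : ℝ) := by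
        rw [← Nat.cast_mul]
        exact Nat.cast_le.2 h3
    _ ≤ (K * wt (ac x) * Y⁻¹) *
        (H.index * (1 + 2 * C₀ * ((⌊Y⌋₊ : ℕ) : ℝ) ^ 2 * (ixS H : ℝ) ^ (-(1 / (A : ℝ))))) :=
        mul_le_mul hbox (sum_fiber hA hfx hpq _) (Nat.cast_nonneg _) (by positivity)
    _ ≤ (K * wt (ac x) * Y⁻¹) * (H.index * (1 + 2 * C₀ * Y ^ 2 * (ixS H : ℝ) ^ (-(1 / (A : ℝ))))) := by
        refine mul_le_mul_of_nonneg_left (mul_le_mul_of_nonneg_left ?_ hm) (by positivity)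
        have h5 : ((⌊Y⌋₊ : ℕ) : ℝ) ^ 2 ≤ Y ^ 2 := pow_le_pow_left₀ (Nat.cast_nonneg _) (Nat.floor_le hY0.le) 2
        have h6 := mul_le_mul_of_nonneg_right (mul_le_mul_of_nonneg_left h5 (by positivity : (0:ℝ) ≤ 2 * C₀)) hs
        linarith
    _ = K * H.index * wt (ac x) * (Y⁻¹ + 2 * C₀ * (Y * (ixS H : ℝ) ^ (-(1 / (A : ℝ))))) := by
        field_simp
    _ ≤ K * (1 + 2 * C₀) * H.index * wt (ac x) * (Y⁻¹ + Y ^ (A : ℝ) * (ixS H : ℝ) ^ (-(1 / (A : ℝ)))) := by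
        have hYA : Y ≤ Y ^ (A : ℝ) := by
          have : Y ^ (1 : ℝ) ≤ Y ^ (A : ℝ) := Real.rpow_le_rpow_of_exponent_le hY (by exact_mod_cast hA)
          rwa [Real.rpow_one] at this
        have h7 : Y⁻¹ + 2 * C₀ * (Y * (ixS H : ℝ) ^ (-(1 / (A : ℝ)))) ≤
            (1 + 2 * C₀) * (Y⁻¹ + Y ^ (A : ℝ) * (ixS H : ℝ) ^ (-(1 / (A : ℝ)))) := by
          have h8 := mul_le_mul_of_nonneg_right hYA hs
          have h9 : 0 ≤ Y⁻¹ := inv_nonneg.2 hY0.le
          have h10 : (0 : ℝ) ≤ C₀ := Nat.cast_nonneg _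
          have h11 : 0 ≤ Y * (ixS H : ℝ) ^ (-(1 / (A : ℝ))) := mul_nonneg hY0.le hs
          nlinarith [mul_nonneg h10 h9, mul_nonneg h10 (sub_nonneg.2 h8)]
        calc K * H.index * wt (ac x) * (Y⁻¹ + 2 * C₀ * (Y * (ixS H : ℝ) ^ (-(1 / (A : ℝ)))))
            ≤ K * H.index * wt (ac x) *
              ((1 + 2 * C₀) * (Y⁻¹ + Y ^ (A : ℝ) * (ixS H : ℝ) ^ (-(1 / (A : ℝ))))) :=
              mul_le_mul_of_nonneg_left h7 (by positivity)
          _ = _ := by ring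

/-! ### Pairs -/

theorem map_mulM {A : Type} [CommRing A] (β β' : MZ n) :
    (β * β').map (Int.cast : ℤ → A) = β.map (Int.cast : ℤ → A) * β'.map (Int.cast : ℤ → A) :=
  Matrix.map_mul (f := Int.castRingHom A)

theorem map_adj {A : Type} [CommRing A] (β : MZ n) :
    (adjugate β).map (Int.cast : ℤ → A) * β.map (Int.cast : ℤ → A) = ((β.det : ℤ) : A) • 1 := by
  rw [← map_mulM, Matrix.adjugate_mul]
  ext i j
  rw [Matrix.map_apply, Matrix.smul_apply, Matrix.smul_apply, Matrix.one_apply, Matrix.one_apply]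
  split_ifs <;> simp

theorem map_adj' {A : Type} [CommRing A] (β : MZ n) :
    β.map (Int.cast : ℤ → A) * (adjugate β).map (Int.cast : ℤ → A) = ((β.det : ℤ) : A) • 1 := by
  rw [← map_mulM, Matrix.mul_adjugate]
  ext i j
  rw [Matrix.map_apply, Matrix.smul_apply, Matrix.smul_apply, Matrix.one_apply, Matrix.one_apply]
  split_ifs <;> simp

theorem scl_pair {β β' : MZ n} {D : ℤ} (hD : 0 < D) (h : β.det = D) (h' : β'.det = D) (i j : Fin n) :
    (((adjugate β * β') i j : ℤ) : ℝ) = (D : ℝ) * ((scl β)⁻¹ * scl β') i j := by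
  set y : GR n := (scl β)⁻¹ * scl β' with hy
  have hr : ((D : ℝ)) ^ (-(1 / (n : ℝ))) ≠ 0 := (Real.rpow_pos_of_pos (by exact_mod_cast hD) _).ne'
  have h1 : scl β * y = scl β' := by rw [hy, mul_inv_cancel_left]
  have h2 : (scl β).1 * y.1 = (scl β').1 := congrArg Subtype.val h1
  rw [scl_val (by rw [h]; exact hD), scl_val (by rw [h']; exact hD), h, h', Matrix.smul_mul] at h2
  have h3 : β.map (Int.cast : ℤ → ℝ) * y.1 = β'.map (Int.cast : ℤ → ℝ) := by
    have := congrArg (fun m => (((D : ℝ)) ^ (-(1 / (n : ℝ))))⁻¹ • m) h2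
    simpa only [smul_smul, inv_mul_cancel₀ hr, one_smul] using this
  have h4 : (adjugate β * β').map (Int.cast : ℤ → ℝ) = (D : ℝ) • y.1 := by
    rw [map_mulM, ← h3, ← Matrix.mul_assoc, map_adj, h, Matrix.smul_mul, Matrix.one_mul]
  exact congrFun (congrFun h4 i) j

/-- the relation between the pairs and the points -/
def rel (H : Subgroup (GN n N)) (D : ℤ) (q : MZ n × MZ n) (c : XX H) : Prop :=
  ∃ β' : MZ n, β'.det = D ∧ q.2 = adjugate q.1 * β' ∧ rdM N q.1 • c = rdM N β' • c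

theorem adj_inj {β β' β'' : MZ n} (h : β.det ≠ 0) (he : adjugate β * β' = adjugate β * β'') : β' = β'' := by
  have h1 := congrArg (fun m => β * m) he
  simp only [← Matrix.mul_assoc, Matrix.mul_adjugate, Matrix.smul_mul, Matrix.one_mul] at h1
  ext i j
  have h2 := congrFun (congrFun h1 i) j
  rw [Matrix.smul_apply, Matrix.smul_apply, smul_eq_mul, smul_eq_mul] at h2
  exact mul_left_cancel₀ h h2

theorem scalar_of {D s : ℤ} (hn : n ≠ 0) (hD : 0 < D) {β β' : MZ n} (h : β.det = D) (h' : β'.det = D)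
    (hs : adjugate β * β' = s • (1 : MZ n)) : s = D ∨ s = -D := by
  have h1 := congrArg Matrix.det hs
  rw [Matrix.det_mul, Matrix.det_adjugate, h, h', Matrix.det_smul, Matrix.det_one, Fintype.card_fin, mul_one,
    ← pow_succ, Nat.sub_add_cancel (Nat.one_le_iff_ne_zero.2 hn)] at h1
  have h2 : |s| ^ n = D ^ n := by
    rw [← abs_pow, ← h1, abs_of_nonneg (pow_nonneg hD.le _)]
  have h3 : |s| = D := (pow_left_inj₀ (abs_nonneg _) hD.le hn).1 h2
  rcases abs_choice s with h4 | h4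
  · left
    rw [← h3, h4]
  · right
    rw [← h3, h4, neg_neg]

theorem rel_card [Fintype (XX H)] {A C : ℕ} (hA : 0 < A)
    (hfix : ∀ (N : ℕ) [NeZero N] (H : Subgroup (GN n N)) (Z : ℕ) (B : MZ n) (b : GN n N)
      (z : ZMod N), 1 ≤ Z → (∀ i j, |B i j| ≤ Z) → (∀ s : ℤ, B ≠ s • (1 : MZ n)) → B.det ≠ 0 →
      (b : Matrix (Fin n) (Fin n) (ZMod N)) = z • B.map (Int.cast : ℤ → ZMod N) →
      fx H b ^ A * ixS H ≤ (C * Z) ^ A * H.index ^ A)
    (hn : n ≠ 0) {D : ℤ} (hD : 0 < D) (hDN : IsUnit ((D : ℤ) : ZMod N)) {Z : ℕ} (hZ : 1 ≤ Z) {q : MZ n × MZ n}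
    (hq : q.1.det = D) (hqZ : ∀ i j, |q.2 i j| ≤ Z) [DecidablePred fun c => rel H D q c]
    [DecidableEq (MZ n)] :
    ((Finset.univ.filter fun c : XX H => rel H D q c).card : ℝ) ≤
      (if q.2 = D • (1 : MZ n) then (H.index : ℝ) else 0) + (if q.2 = (-D) • (1 : MZ n) then (H.index : ℝ) else 0) +
        (C * Z : ℕ) * H.index * (ixS H : ℝ) ^ (-(1 / (A : ℝ))) := by
  classical
  have hm : (0 : ℝ) ≤ H.index := Nat.cast_nonneg _
  have hs : (0 : ℝ) ≤ (ixS H : ℝ) ^ (-(1 / (A : ℝ))) := Real.rpow_nonneg (Nat.cast_nonneg _) _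
  have hlast : (0 : ℝ) ≤ (C * Z : ℕ) * H.index * (ixS H : ℝ) ^ (-(1 / (A : ℝ))) := by positivity
  have hle : ((Finset.univ.filter fun c : XX H => rel H D q c).card : ℝ) ≤ H.index := by
    refine Nat.cast_le.2 ((Finset.card_le_univ _).trans ?_)
    rw [index_eq, Nat.card_eq_fintype_card]
  obtain ⟨β, B⟩ := q
  dsimp only at hq hqZ hle ⊢
  rcases Finset.eq_empty_or_nonempty (Finset.univ.filter fun c : XX H => rel H D (β, B) c) with he | ⟨c₁, hc₁⟩
  · rw [he, Finset.card_empty, Nat.cast_zero]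
    have h1 : (0 : ℝ) ≤ if B = D • (1 : MZ n) then (H.index : ℝ) else 0 := by split_ifs <;> positivity
    have h2 : (0 : ℝ) ≤ if B = (-D) • (1 : MZ n) then (H.index : ℝ) else 0 := by split_ifs <;> positivity
    linarith
  · obtain ⟨β', hβ', hB, -⟩ := (Finset.mem_filter.1 hc₁).2
    dsimp only at hB
    by_cases hsc : ∃ s : ℤ, B = s • (1 : MZ n)
    · obtain ⟨s, hsB⟩ := hsc
      have h1 : (0 : ℝ) ≤ if B = D • (1 : MZ n) then (H.index : ℝ) else 0 := by split_ifs <;> positivity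
      have h2 : (0 : ℝ) ≤ if B = (-D) • (1 : MZ n) then (H.index : ℝ) else 0 := by split_ifs <;> positivity
      rcases scalar_of hn hD hq hβ' (hB.symm.trans hsB) with h | h
      · rw [if_pos (hsB.trans (by rw [h]))]
        linarith
      · rw [if_pos (c := B = (-D) • (1 : MZ n)) (hsB.trans (by rw [h]))]
        linarith
    · have h1 : (0 : ℝ) ≤ if B = D • (1 : MZ n) then (H.index : ℝ) else 0 := by split_ifs <;> positivity
      have h2 : (0 : ℝ) ≤ if B = (-D) • (1 : MZ n) then (H.index : ℝ) else 0 := by split_ifs <;> positivity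
      suffices hsuff : ((Finset.univ.filter fun c : XX H => rel H D (β, B) c).card : ℝ) ≤
          (C * Z : ℕ) * H.index * (ixS H : ℝ) ^ (-(1 / (A : ℝ))) by linarith
      have hcard : (Finset.univ.filter fun c : XX H => rel H D (β, B) c).card =
          fx H ((rdM N β)⁻¹ * rdM N β') := by
        unfold fx
        rw [Nat.card_eq_fintype_card, Fintype.card_subtype]
        congr 1
        ext c
        simp only [Finset.mem_filter, Finset.mem_univ, true_and]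
        constructor
        · rintro ⟨β₁, hβ₁, hB₁, hc⟩
          have : β₁ = β' := adj_inj (β := β) (by rw [hq]; exact hD.ne') (hB₁.symm.trans hB)
          subst this
          dsimp only at hc
          rw [mul_smul, ← hc, inv_smul_smul]
        · intro hc
          refine ⟨β', hβ', hB, ?_⟩
          rw [mul_smul, inv_smul_eq_iff] at hc
          exact hc.symm
      rw [hcard]
      obtain ⟨u, hu⟩ := hDN
      refine real_bound hA (ixS_pos H) (hfix N H Z B _ ((u⁻¹ : (ZMod N)ˣ) : ZMod N) hZ hqZ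
        (fun s hs' => hsc ⟨s, hs'⟩) ?_ ?_)
      · rw [hB, Matrix.det_mul, Matrix.det_adjugate, hq, hβ']
        exact mul_ne_zero (pow_ne_zero _ hD.ne') hD.ne'
      · rw [Units.val_mul]
        have h3 : IsUnit ((β.det : ℤ) : ZMod N) := by rw [hq, ← hu]; exact u.isUnit
        have h4 : IsUnit ((β'.det : ℤ) : ZMod N) := by rw [hβ', ← hu]; exact u.isUnit
        rw [Units.inv_mul_eq_iff_eq_mul, rdM_val h3, rdM_val h4, hB, map_mulM, Matrix.mul_smul, ← Matrix.mul_assoc,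
          map_adj', hq, ← hu, Matrix.smul_mul, smul_smul, Units.inv_mul, one_smul, Matrix.one_mul]

theorem ratio_le {Y : ℝ} (hY : 1 ≤ Y) {a : Fin n → ℝ}
    (h : ∀ i j : Fin n, (i : ℕ) + 1 = j → a j ≤ Y * a i) :
    ∀ (k : ℕ) (i j : Fin n), (i : ℕ) + k = j → a j ≤ Y ^ k * a i := by
  intro k
  induction k with
  | zero =>
    intro i j hij
    have : i = j := Fin.ext (by simpa using hij)
    rw [this, pow_zero, one_mul]
  | succ k ih =>
    intro i j hij
    have hj : (i : ℕ) + k < n := by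
      have := j.2
      omega
    have h1 := ih i ⟨i + k, hj⟩ rfl
    have h2 := h ⟨i + k, hj⟩ j (by simpa [add_assoc] using hij)
    calc a j ≤ Y * a ⟨i + k, hj⟩ := h2
      _ ≤ Y * (Y ^ k * a i) := mul_le_mul_of_nonneg_left h1 (by linarith)
      _ = Y ^ (k + 1) * a i := by ring

/-- the count of the pairs, with explicit constants -/
theorem low_core (hiw : S_iw) {n : ℕ} (hn : 3 ≤ n) {A C₀ : ℕ} (hA : 0 < A)
    (hfx : ∀ (N : ℕ) [NeZero N] (H : Subgroup (GN n N)) (Z : ℕ) (B : MZ n) (b : GN n N)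
      (z : ZMod N), 1 ≤ Z → (∀ i j, |B i j| ≤ Z) → (∀ s : ℤ, B ≠ s • (1 : MZ n)) → B.det ≠ 0 →
      (b : Matrix (Fin n) (Fin n) (ZMod N)) = z • B.map (Int.cast : ℤ → ZMod N) →
      fx H b ^ A * ixS H ≤ (C₀ * Z) ^ A * H.index ^ A)
    {M C₁ : ℝ} (hC₁ : 1 ≤ C₁) {N : ℕ} [NeZero N] (H : Subgroup (GN n N)) {D : ℤ} (hD0 : 0 < D)
    (hDN : IsUnit ((D : ℤ) : ZMod N)) {R : Finset (MZ n)} (hR : IsReps D R) {Y : ℝ} {x : GR n} (hY : 1 ≤ Y)
    (h1 : ∀ i j : Fin n, j ≤ i → ac x j ≤ C₁ * ac x i)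
    (h2 : ∀ b : GR n, (∀ i j, |b i j| ≤ M) → ∀ i j, |(x * b * x⁻¹) i j| ≤ C₁ * (ac x i / ac x j))
    (hYx : ∀ i j : Fin n, (i : ℕ) + 1 = j → ac x j ≤ Y * ac x i) :
    (∑' c : XX H, (Nat.card (cs H R D M x c) : ℝ)) ≤
      R.card * H.index * (2 + C₀ * (3 * C₁ ^ 2) ^ (n ^ 2 + 1) *
        ((D : ℝ) * Y) ^ (max (A : ℝ) ((n * (n ^ 2 + 1) : ℕ) : ℝ)) *
        (ixS H : ℝ) ^ (-(1 / (max (A : ℝ) ((n * (n ^ 2 + 1) : ℕ) : ℝ))))) := by
  classical
  have hA1 : (1 : ℝ) ≤ A := by exact_mod_cast hA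
  set A' : ℝ := max (A : ℝ) ((n * (n ^ 2 + 1) : ℕ) : ℝ) with hA'
  have hC0 : (0 : ℝ) ≤ C₀ := Nat.cast_nonneg _
  let _ : Fintype (XX H) := Fintype.ofFinite _
  have hp1 : (1 : ℝ) ≤ (D : ℝ) := by exact_mod_cast hD0
  have hac : ∀ i, 0 < ac x i := (hiw n).1 x
  have hd : ∀ i j, 0 < ac x i / ac x j := fun i j => div_pos (hac i) (hac j)
  set Zr : ℝ := C₁ ^ 2 * (D : ℝ) * Y ^ n with hZr
  have hYn : 1 ≤ Y ^ n := one_le_pow₀ hY
  have hZ1 : 1 ≤ Zr := by
    rw [hZr]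
    have h3 : 1 ≤ C₁ ^ 2 := one_le_pow₀ hC₁
    exact one_le_mul_of_one_le_of_one_le (one_le_mul_of_one_le_of_one_le h3 hp1) hYn
  set Z : ℕ := ⌊Zr⌋₊ with hZ
  have hZ1' : 1 ≤ Z := Nat.le_floor (by simpa using hZ1)
  have hZle : (Z : ℝ) ≤ Zr := Nat.floor_le (by linarith)
  -- the ratios
  have hrat : ∀ i j, ac x i / ac x j ≤ C₁ * Y ^ n := by
    intro i j
    rw [div_le_iff₀ (hac j)]
    rcases le_total i j with hij | hij
    · refine (h1 j i hij).trans (mul_le_mul_of_nonneg_right ?_ (hac j).le)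
      nlinarith
    · have h3 := ratio_le hY hYx (i - j : ℕ) j i (by
        have : (j : ℕ) ≤ i := hij
        omega)
      refine h3.trans (mul_le_mul_of_nonneg_right ?_ (hac j).le)
      have h4 : Y ^ ((i : ℕ) - j) ≤ Y ^ n := pow_le_pow_right₀ hY (by
        have := i.2
        omega)
      nlinarith
  -- the pairs
  have hpair : ∀ c : XX H, Nat.card (cs H R D M x c) ≤
      ((R ×ˢ bx (n := n) (fun _ _ => (Z : ℝ))).filter fun q => rel H D q c).card := by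
    intro c
    have key : ∀ q : cs H R D M x c, ((q.1.1, adjugate q.1.1 * q.1.2) : MZ n × MZ n) ∈
        (R ×ˢ bx (n := n) (fun _ _ => (Z : ℝ))).filter fun q => rel H D q c := by
      rintro ⟨⟨β, β'⟩, hβ, hdet, hc, hM⟩
      have hβD : β.det = D := hR.1 β hβ
      refine Finset.mem_filter.2 ⟨Finset.mem_product.2 ⟨hβ, mem_bx.2 fun i j => ?_⟩, β', hdet, rfl, hc⟩
      dsimp only at hdet hM ⊢
      have h3 := h2 _ hM i j
      rw [show x * (x⁻¹ * (scl β)⁻¹ * scl β' * x) * x⁻¹ = (scl β)⁻¹ * scl β' by group] at h3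
      have h4 : |(((adjugate β * β') i j : ℤ) : ℝ)| ≤ Zr := by
        rw [scl_pair hD0 hβD hdet, abs_mul, abs_of_nonneg (by linarith : (0 : ℝ) ≤ (D : ℝ))]
        calc (D : ℝ) * |((scl β)⁻¹ * scl β') i j| ≤ (D : ℝ) * (C₁ * (C₁ * Y ^ n)) :=
              mul_le_mul_of_nonneg_left (h3.trans (mul_le_mul_of_nonneg_left (hrat i j) (by linarith)))
                (by positivity)
          _ = Zr := by rw [hZr]; ring
      rw [← Int.cast_abs] at h4 ⊢
      have h5 : (((|(adjugate β * β') i j|.toNat : ℕ) : ℤ) : ℝ) = ((|(adjugate β * β') i j| : ℤ) : ℝ) := by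
        rw [Int.toNat_of_nonneg (abs_nonneg _)]
      rw [← h5, Int.cast_natCast] at h4 ⊢
      exact Nat.cast_le.2 (Nat.le_floor h4)
    refine (Nat.card_le_card_of_injective (fun q => (⟨_, key q⟩ :
      {q // q ∈ (R ×ˢ bx (n := n) (fun _ _ => (Z : ℝ))).filter fun q => rel H D q c})) ?_).trans ?_
    · rintro ⟨⟨β, β'⟩, hβ, hdet, hc, hM⟩ ⟨⟨β₁, β₁'⟩, hβ₁, hdet₁, hc₁, hM₁⟩ h
      have e1 : β = β₁ := congrArg (fun t => t.1.1) h
      have e2 : adjugate β * β' = adjugate β₁ * β₁' := congrArg (fun t => t.1.2) h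
      subst e1
      have e3 : β' = β₁' := adj_inj (by rw [hR.1 β hβ]; exact hD0.ne') e2
      subst e3
      rfl
    · rw [Nat.card_eq_fintype_card, Fintype.card_coe]
  have hm : (0 : ℝ) ≤ H.index := Nat.cast_nonneg _
  have hs : (0 : ℝ) ≤ (ixS H : ℝ) ^ (-(1 / (A : ℝ))) := Real.rpow_nonneg (Nat.cast_nonneg _) _
  have hbx : ((bx (n := n) (fun _ _ => (Z : ℝ))).card : ℝ) ≤ (2 * (Z : ℝ) + 1) ^ (n ^ 2) := by
    refine (card_bx (fun _ _ => Nat.cast_nonneg _)).trans (le_of_eq ?_)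
    simp_rw [Finset.prod_const, Finset.card_univ, Fintype.card_fin, ← pow_mul, ← sq]
  have hsum : ∑ q ∈ R ×ˢ bx (n := n) (fun _ _ => (Z : ℝ)),
      ((Finset.univ.filter fun c : XX H => rel H D q c).card : ℝ) ≤
      R.card * (2 * H.index + (2 * (Z : ℝ) + 1) ^ (n ^ 2) *
        ((C₀ * Z : ℕ) * H.index * (ixS H : ℝ) ^ (-(1 / (A : ℝ))))) := by
    rw [Finset.sum_product, ← nsmul_eq_mul]
    refine Finset.sum_le_card_nsmul _ _ _ fun β hβ => ?_
    calc ∑ B ∈ bx (n := n) (fun _ _ => (Z : ℝ)), ((Finset.univ.filter fun c : XX H => rel H D (β, B) c).card : ℝ)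
        ≤ ∑ B ∈ bx (n := n) (fun _ _ => (Z : ℝ)), ((if B = D • (1 : MZ n) then (H.index : ℝ) else 0) +
          (if B = (-D) • (1 : MZ n) then (H.index : ℝ) else 0) +
          (C₀ * Z : ℕ) * H.index * (ixS H : ℝ) ^ (-(1 / (A : ℝ)))) := by
          refine Finset.sum_le_sum fun B hB => ?_
          refine rel_card hA hfx (by omega) hD0 hDN hZ1' (hR.1 β hβ) fun i j => ?_
          have := mem_bx.1 hB i j
          rw [← Int.cast_abs] at this
          exact_mod_cast this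
      _ ≤ H.index + H.index + (bx (n := n) (fun _ _ => (Z : ℝ))).card *
          ((C₀ * Z : ℕ) * H.index * (ixS H : ℝ) ^ (-(1 / (A : ℝ)))) := by
          rw [Finset.sum_add_distrib, Finset.sum_add_distrib, Finset.sum_const, nsmul_eq_mul,
            Finset.sum_ite_eq', Finset.sum_ite_eq']
          refine add_le_add (add_le_add ?_ ?_) le_rfl
          · split_ifs
            · exact le_rfl
            · exact hm
          · split_ifs
            · exact le_rfl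
            · exact hm
      _ ≤ _ := by
          have := mul_le_mul_of_nonneg_right hbx
            (by positivity : (0 : ℝ) ≤ (C₀ * Z : ℕ) * H.index * (ixS H : ℝ) ^ (-(1 / (A : ℝ))))
          linarith
  have hix : (1 : ℝ) ≤ ixS H := by exact_mod_cast ixS_pos H
  have hss : (ixS H : ℝ) ^ (-(1 / (A : ℝ))) ≤ (ixS H : ℝ) ^ (-(1 / A')) := by
    refine Real.rpow_le_rpow_of_exponent_le hix (neg_le_neg ?_)
    exact one_div_le_one_div_of_le (by linarith) (le_max_left _ _)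
  have hlast : (2 * (Z : ℝ) + 1) ^ (n ^ 2) * (C₀ * Z : ℕ) ≤
      C₀ * (3 * C₁ ^ 2) ^ (n ^ 2 + 1) * ((D : ℝ) * Y) ^ A' := by
    have hq1 : 1 ≤ (D : ℝ) * Y := one_le_mul_of_one_le_of_one_le hp1 hY
    have hZ3 : (Z : ℝ) ≤ C₁ ^ 2 * ((D : ℝ) * Y) ^ n := by
      refine hZle.trans ?_
      rw [hZr, mul_pow, ← mul_assoc]
      refine mul_le_mul_of_nonneg_right (mul_le_mul_of_nonneg_left ?_ (by positivity)) (by positivity)
      exact le_self_pow₀ hp1 (by omega)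
    have hZ0 : (0 : ℝ) ≤ Z := Nat.cast_nonneg _
    have hZ1r : (1 : ℝ) ≤ Z := by exact_mod_cast hZ1'
    calc (2 * (Z : ℝ) + 1) ^ (n ^ 2) * (C₀ * Z : ℕ) ≤ (3 * (Z : ℝ)) ^ (n ^ 2) * (C₀ * (3 * Z)) := by
          push_cast
          refine mul_le_mul (pow_le_pow_left₀ (by positivity) (by linarith) _) ?_ (by positivity) (by positivity)
          nlinarith
      _ = C₀ * (3 * (Z : ℝ)) ^ (n ^ 2 + 1) := by ring
      _ ≤ C₀ * (3 * (C₁ ^ 2 * ((D : ℝ) * Y) ^ n)) ^ (n ^ 2 + 1) :=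
          mul_le_mul_of_nonneg_left (pow_le_pow_left₀ (by positivity) (by linarith) _) hC0
      _ = C₀ * (3 * C₁ ^ 2) ^ (n ^ 2 + 1) * ((D : ℝ) * Y) ^ (n * (n ^ 2 + 1)) := by
          rw [← mul_assoc 3, mul_pow, ← pow_mul, mul_assoc]
      _ ≤ C₀ * (3 * C₁ ^ 2) ^ (n ^ 2 + 1) * ((D : ℝ) * Y) ^ A' := by
          refine mul_le_mul_of_nonneg_left ?_ (by positivity)
          rw [← Real.rpow_natCast]
          exact Real.rpow_le_rpow_of_exponent_le hq1 (le_max_right _ _)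
  calc (∑' c : XX H, (Nat.card (cs H R D M x c) : ℝ))
      ≤ ∑ c : XX H, (((R ×ˢ bx (n := n) (fun _ _ => (Z : ℝ))).filter fun q => rel H D q c).card : ℝ) := by
        rw [tsum_fintype]
        exact Finset.sum_le_sum fun c _ => Nat.cast_le.2 (hpair c)
    _ = ∑ q ∈ R ×ˢ bx (n := n) (fun _ _ => (Z : ℝ)),
        ((Finset.univ.filter fun c : XX H => rel H D q c).card : ℝ) := by
        rw [← Nat.cast_sum, ← Nat.cast_sum, sum_card]
    _ ≤ _ := hsum
    _ ≤ _ := by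
        have h3 : (2 * (Z : ℝ) + 1) ^ (n ^ 2) * ((C₀ * Z : ℕ) * H.index * (ixS H : ℝ) ^ (-(1 / (A : ℝ)))) ≤
            H.index * ((C₀ * (3 * C₁ ^ 2) ^ (n ^ 2 + 1)) * ((D : ℝ) * Y) ^ A' *
              (ixS H : ℝ) ^ (-(1 / A'))) := by
          have h4 : (0 : ℝ) ≤ ((D : ℝ) * Y) ^ A' := Real.rpow_nonneg (by positivity) _
          have h5 : (0 : ℝ) ≤ (ixS H : ℝ) ^ (-(1 / A')) := Real.rpow_nonneg (by positivity) _
          calc (2 * (Z : ℝ) + 1) ^ (n ^ 2) * ((C₀ * Z : ℕ) * H.index * (ixS H : ℝ) ^ (-(1 / (A : ℝ))))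
              = H.index * (((2 * (Z : ℝ) + 1) ^ (n ^ 2) * (C₀ * Z : ℕ)) * (ixS H : ℝ) ^ (-(1 / (A : ℝ)))) := by
                ring
            _ ≤ H.index * ((C₀ * (3 * C₁ ^ 2) ^ (n ^ 2 + 1) * ((D : ℝ) * Y) ^ A') *
                (ixS H : ℝ) ^ (-(1 / A'))) := by
                refine mul_le_mul_of_nonneg_left (mul_le_mul hlast hss hs (by positivity)) hm
            _ = _ := by ring
        calc (R.card : ℝ) * (2 * H.index + (2 * (Z : ℝ) + 1) ^ (n ^ 2) *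
            ((C₀ * Z : ℕ) * H.index * (ixS H : ℝ) ^ (-(1 / (A : ℝ)))))
            ≤ (R.card : ℝ) * (2 * H.index + H.index * ((C₀ * (3 * C₁ ^ 2) ^ (n ^ 2 + 1)) *
              ((D : ℝ) * Y) ^ A' * (ixS H : ℝ) ^ (-(1 / A')))) :=
              mul_le_mul_of_nonneg_left (by linarith) (Nat.cast_nonneg _)
          _ = _ := by ring

theorem low (hiw : S_iw) (hent : S_ent) (hfix : S_fix) : S_low := by
  intro n hn
  obtain ⟨A, C₀, hA, hfx⟩ := hfix n hn
  have hA1 : (1 : ℝ) ≤ A := by exact_mod_cast hA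
  refine ⟨max (A : ℝ) ((n * (n ^ 2 + 1) : ℕ) : ℝ), hA1.trans (le_max_left _ _), fun M => ?_⟩
  obtain ⟨C₁, hC₁, hCx⟩ := hent n M
  have hC0 : (0 : ℝ) ≤ C₀ := Nat.cast_nonneg _
  have hC : (0 : ℝ) ≤ C₀ * (3 * C₁ ^ 2) ^ (n ^ 2 + 1) := by positivity
  refine ⟨1 + C₀ * (3 * C₁ ^ 2) ^ (n ^ 2 + 1), by linarith, ?_⟩
  intro N _ H p l hp hpN R hR Y x hY hx hYx
  have hD0 : 0 < (p : ℤ) ^ l := pow_pos (by exact_mod_cast hp.pos) l
  have hDN : IsUnit (((p : ℤ) ^ l : ℤ) : ZMod N) := by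
    push_cast
    exact IsUnit.pow _ ((ZMod.isUnit_iff_coprime p N).2 ((Nat.Prime.coprime_iff_not_dvd hp).2 hpN))
  have hp1 : (0 : ℝ) ≤ (p : ℝ) ^ l * Y := by positivity
  have h := low_core hiw hn hA hfx (M := M) hC₁ H hD0 hDN hR hY (hCx x hx).1 (hCx x hx).2 hYx
  rw [show (((p : ℤ) ^ l : ℤ) : ℝ) = (p : ℝ) ^ l by push_cast; rfl] at h
  refine h.trans (mul_le_mul_of_nonneg_left ?_ (by positivity))
  have h4 := Real.rpow_nonneg hp1 (max (A : ℝ) ((n * (n ^ 2 + 1) : ℕ) : ℝ))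
  have h5 : (0 : ℝ) ≤ (ixS H : ℝ) ^ (-(1 / (max (A : ℝ) ((n * (n ^ 2 + 1) : ℕ) : ℝ)))) :=
    Real.rpow_nonneg (Nat.cast_nonneg _) _
  have h6 := mul_nonneg h4 h5
  nlinarith

/-! ### The same with explicit dependence on the size of the set -/

/-- ENT with explicit constants -/
def S_entM : Prop :=
  ∀ n : ℕ, ∃ C : ℝ, 1 ≤ C ∧ ∀ x ∈ SG n,
    (∀ i j : Fin n, j ≤ i → ac x j ≤ C * ac x i) ∧
    ∀ (M : ℝ), 1 ≤ M → ∀ b : GR n, (∀ i j, |b i j| ≤ M) → ∀ i j, |(x * b * x⁻¹) i j| ≤ C * M * (ac x i / ac x j)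

/-- LOW with explicit constants -/
def S_lowM : Prop :=
  ∀ n : ℕ, 3 ≤ n → ∃ A C : ℝ, 1 ≤ A ∧ 1 ≤ C ∧ ∀ (M : ℝ), 1 ≤ M →
    ∀ (N : ℕ) [NeZero N] (H : Subgroup (GN n N)) (D : ℤ), 0 < D → IsUnit ((D : ℤ) : ZMod N) →
    ∀ R : Finset (MZ n), IsReps D R → ∀ (Y : ℝ) (x : GR n), 1 ≤ Y → x ∈ SG n →
    (∀ i j : Fin n, (i : ℕ) + 1 = j → ac x j ≤ Y * ac x i) →
    (∑' c : XX H, (Nat.card (cs H R D M x c) : ℝ)) ≤
      R.card * H.index * (2 + C * (M * D * Y) ^ A * (ixS H : ℝ) ^ (-(1 / A)))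

theorem lowM (hiw : S_iw) (hent : S_entM) (hfix : S_fix) : S_lowM := by
  intro n hn
  obtain ⟨A, C₀, hA, hfx⟩ := hfix n hn
  have hA1 : (1 : ℝ) ≤ A := by exact_mod_cast hA
  obtain ⟨C₁, hC₁, hCx⟩ := hent n
  have hC0 : (0 : ℝ) ≤ C₀ := Nat.cast_nonneg _
  have hC : (0 : ℝ) ≤ C₀ * (3 * C₁ ^ 2) ^ (n ^ 2 + 1) := by positivity
  set A' : ℝ := max (A : ℝ) ((n * (n ^ 2 + 1) : ℕ) : ℝ) with hA'
  refine ⟨A', 1 + C₀ * (3 * C₁ ^ 2) ^ (n ^ 2 + 1), hA1.trans (le_max_left _ _), by linarith, ?_⟩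
  intro M hM N _ H D hD0 hDN R hR Y x hY hx hYx
  have hD1 : (1 : ℝ) ≤ D := by exact_mod_cast hD0
  have hCM : 1 ≤ C₁ * M := one_le_mul_of_one_le_of_one_le hC₁ hM
  have h1 : ∀ i j : Fin n, j ≤ i → ac x j ≤ C₁ * M * ac x i := fun i j hij => by
    refine ((hCx x hx).1 i j hij).trans (mul_le_mul_of_nonneg_right ?_ ((hiw n).1 x i).le)
    nlinarith
  have h := low_core hiw hn hA hfx (M := M) hCM H hD0 hDN hR hY h1 ((hCx x hx).2 M hM) hYx
  refine h.trans (mul_le_mul_of_nonneg_left ?_ (by positivity))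
  have hDY : (1 : ℝ) ≤ (D : ℝ) * Y := one_le_mul_of_one_le_of_one_le hD1 hY
  have hq : (M ^ 2) ^ (n ^ 2 + 1) * ((D : ℝ) * Y) ^ A' ≤ (M * D * Y) ^ A' := by
    rw [mul_assoc M, Real.mul_rpow (x := M) (y := (D : ℝ) * Y) (by linarith) (by linarith), ← pow_mul]
    refine mul_le_mul_of_nonneg_right ?_ (Real.rpow_nonneg (by linarith) _)
    rw [← Real.rpow_natCast]
    refine Real.rpow_le_rpow_of_exponent_le hM (le_trans ?_ (le_max_right _ _))
    exact Nat.cast_le.2 (Nat.mul_le_mul_right _ (by omega))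
  have h5 : (0 : ℝ) ≤ (ixS H : ℝ) ^ (-(1 / A')) := Real.rpow_nonneg (Nat.cast_nonneg _) _
  have h6 : (0 : ℝ) ≤ (M * D * Y) ^ A' := Real.rpow_nonneg (by positivity) _
  have h7 : C₀ * (3 * (C₁ * M) ^ 2) ^ (n ^ 2 + 1) * ((D : ℝ) * Y) ^ A' ≤
      (1 + C₀ * (3 * C₁ ^ 2) ^ (n ^ 2 + 1)) * (M * D * Y) ^ A' := by
    calc C₀ * (3 * (C₁ * M) ^ 2) ^ (n ^ 2 + 1) * ((D : ℝ) * Y) ^ A'
        = C₀ * (3 * C₁ ^ 2) ^ (n ^ 2 + 1) * ((M ^ 2) ^ (n ^ 2 + 1) * ((D : ℝ) * Y) ^ A') := by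
          rw [mul_pow C₁ M 2, ← mul_assoc 3, mul_pow (3 * C₁ ^ 2)]
          ring
      _ ≤ C₀ * (3 * C₁ ^ 2) ^ (n ^ 2 + 1) * (M * D * Y) ^ A' := mul_le_mul_of_nonneg_left hq hC
      _ ≤ _ := mul_le_mul_of_nonneg_right (by linarith) h6
  have h8 := mul_le_mul_of_nonneg_right h7 h5
  linarith

end Pool.Agent.T2h77.N
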