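import Pool.Agent.T2h77N.CutE

/-!
# CUT: cusp forms are small at the points of large height
-/

set_option autoImplicit false

open MeasureTheory Matrix
open scoped MatrixGroups ENNReal Pointwise Topology

noncomputable section

namespace Pool.Agent.T2h77.N.Cut

open FixB

/-- Cauchy-Schwarz -/
theorem cs {X : Type} [MeasurableSpace X] (ν : Measure X) {u : X → ℝ≥0∞} (hu : Measurable u) :
    (∫⁻ x, u x ∂ν) ^ 2 ≤ ν Set.univ * ∫⁻ x, u x ^ 2 ∂ν := by
  have h3 := ENNReal.lintegral_mul_le_Lp_mul_Lq ν (Real.HolderConjugate.two_two)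
    (f := fun _ => 1) (g := u) aemeasurable_const hu.aemeasurable
  simp only [Pi.mul_apply, one_mul, lintegral_const, ENNReal.rpow_two, one_pow] at h3
  calc (∫⁻ x, u x ∂ν) ^ 2 ≤ ((ν Set.univ) ^ (1 / 2 : ℝ) * (∫⁻ x, u x ^ 2 ∂ν) ^ (1 / 2 : ℝ)) ^ 2 := by
        gcongr
    _ = _ := by
        rw [mul_pow, ← ENNReal.rpow_natCast, ← ENNReal.rpow_natCast, ← ENNReal.rpow_mul,
          ← ENNReal.rpow_mul]
        norm_num

/-- the averages over `B`, in the mean -/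
theorem mean {n N : ℕ} [NeZero N] (hu : S_unimod) {H : Subgroup (GN n N)} {F : Set (GR n)} (hF : IsFD F)
    {f : GR n → XX H → ℂ} (hf : IsForm H f) (B : Set (GR n)) :
    ∑' c : XX H, ∫⁻ g in F, (∫⁻ y in B, ‖f (g * y) c‖ₑ ∂(mu n)) ^ 2 ∂(mu n) ≤
      (mu n B) ^ 2 * ∑' c : XX H, ∫⁻ g in F, ‖f g c‖ₑ ^ 2 ∂(mu n) := by
  have hri : (mu n).IsMulRightInvariant := hu n
  have h1 : ∀ (c : XX H) (g : GR n), (∫⁻ y in B, ‖f (g * y) c‖ₑ ∂(mu n)) ^ 2 ≤
      mu n B * ∫⁻ y in B, ‖f (g * y) c‖ₑ ^ 2 ∂(mu n) := by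
    intro c g
    have := cs ((mu n).restrict B) (u := fun y => ‖f (g * y) c‖ₑ)
      (((hf.measurable c).comp (measurable_const_mul g)).enorm)
    rwa [Measure.restrict_apply_univ] at this
  have hmeas : ∀ c : XX H, Measurable fun p : GR n × GR n => ‖f (p.1 * p.2) c‖ₑ ^ 2 := fun c =>
    (((hf.measurable c).comp measurable_mul).enorm).pow_const 2
  have hmeas2 : ∀ c : XX H, Measurable fun g : GR n => ∫⁻ y in B, ‖f (g * y) c‖ₑ ^ 2 ∂(mu n) := fun c =>
    Measurable.lintegral_prod_right' (hmeas c)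
  calc ∑' c : XX H, ∫⁻ g in F, (∫⁻ y in B, ‖f (g * y) c‖ₑ ∂(mu n)) ^ 2 ∂(mu n)
      ≤ ∑' c : XX H, ∫⁻ g in F, mu n B * ∫⁻ y in B, ‖f (g * y) c‖ₑ ^ 2 ∂(mu n) ∂(mu n) :=
        ENNReal.tsum_le_tsum fun c => lintegral_mono fun g => h1 c g
    _ = ∑' c : XX H, mu n B * ∫⁻ g in F, ∫⁻ y in B, ‖f (g * y) c‖ₑ ^ 2 ∂(mu n) ∂(mu n) := by
        refine tsum_congr fun c => ?_
        rw [lintegral_const_mul _ (hmeas2 c)]
    _ = mu n B * ∑' c : XX H, ∫⁻ y in B, ∫⁻ g in F, ‖f (g * y) c‖ₑ ^ 2 ∂(mu n) ∂(mu n) := by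
        rw [ENNReal.tsum_mul_left]
        congr 1
        refine tsum_congr fun c => ?_
        exact lintegral_lintegral_swap (hmeas c).aemeasurable
    _ = mu n B * ∫⁻ y in B, ∫⁻ g in F, ∑' c : XX H, ‖f (g * y) c‖ₑ ^ 2 ∂(mu n) ∂(mu n) := by
        congr 1
        rw [← lintegral_tsum]
        · refine lintegral_congr fun y => ?_
          rw [← lintegral_tsum]
          intro c
          exact (((hf.measurable c).comp (measurable_mul_const y)).enorm.pow_const 2).aemeasurable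
        · intro c
          exact (Measurable.lintegral_prod_left' (hmeas c)).aemeasurable
    _ = mu n B * ∫⁻ _ in B, ∫⁻ g in F, ∑' c : XX H, ‖f g c‖ₑ ^ 2 ∂(mu n) ∂(mu n) := by
        congr 1
        refine lintegral_congr fun y => ?_
        exact An.trans (isFD hF) (fun g => ∑' c : XX H, ‖f g c‖ₑ ^ 2)
          (fun γ hγ g => sum_inv hf (fun z => ‖z‖ₑ ^ 2) γ hγ g) y
    _ = (mu n B) ^ 2 * ∑' c : XX H, ∫⁻ g in F, ‖f g c‖ₑ ^ 2 ∂(mu n) := by
        rw [setLIntegral_const, lintegral_tsum fun c => ((hf.measurable c).enorm.pow_const 2).aemeasurable]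
        ring

theorem measurable_SG (hiw : S_iw) (n : ℕ) : MeasurableSet (SG n) := by
  obtain ⟨_, _, _, hac, hlc⟩ := hiw n
  have h1 : SG n = (⋂ i : Fin n, ⋂ j : Fin n, {x : GR n | j < i → 0 ≤ lc x i j ∧ lc x i j < 1}) ∩
      ⋂ i : Fin n, ⋂ j : Fin n, {x : GR n | (i : ℕ) + 1 = j → ac x i ≤ 2 * ac x j} := by
    ext x
    simp only [SG, Set.mem_inter_iff, Set.mem_iInter, Set.mem_ofPred_eq]
  rw [h1]
  refine MeasurableSet.inter (MeasurableSet.iInter fun i => MeasurableSet.iInter fun j => ?_)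
    (MeasurableSet.iInter fun i => MeasurableSet.iInter fun j => ?_)
  · by_cases h : j < i
    · simp only [h, true_imp_iff]
      exact (measurableSet_le measurable_const (hlc i j)).inter (measurableSet_lt (hlc i j) measurable_const)
    · simp only [h, false_imp_iff]
      exact MeasurableSet.univ
  · by_cases h : (i : ℕ) + 1 = j
    · simp only [h, true_imp_iff]
      exact measurableSet_le (hac i) ((hac j).const_mul 2)
    · simp only [h, false_imp_iff]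
      exact MeasurableSet.univ

theorem measurable_high (hiw : S_iw) (n : ℕ) (W : ℝ) : MeasurableSet {x : GR n | ∃ γ : GZ n, io n γ * x ∈ SG n ∧
        ∃ i j : Fin n, (i : ℕ) + 1 = j ∧ W * ac (io n γ * x) i < ac (io n γ * x) j} := by
  have h2 : MeasurableSet {x : GR n | x ∈ SG n ∧ ∃ i j : Fin n, (i : ℕ) + 1 = j ∧ W * ac x i < ac x j} := by
    refine (measurable_SG hiw n).inter ?_
    obtain ⟨_, _, _, hac, hlc⟩ := hiw n
    have h3 : {x : GR n | ∃ i j : Fin n, (i : ℕ) + 1 = j ∧ W * ac x i < ac x j} =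
        ⋃ i : Fin n, ⋃ j : Fin n, {x : GR n | (i : ℕ) + 1 = j ∧ W * ac x i < ac x j} := by
      ext x
      simp only [Set.mem_iUnion, Set.mem_ofPred_eq]
    refine (h3 ▸ ?_ : MeasurableSet {x : GR n | ∃ i j : Fin n, (i : ℕ) + 1 = j ∧ W * ac x i < ac x j})
    refine MeasurableSet.iUnion fun i => MeasurableSet.iUnion fun j => ?_
    by_cases h : (i : ℕ) + 1 = j
    · simp only [h, true_and]
      exact measurableSet_lt ((hac i).const_mul W) (hac j)
    · simp only [h, false_and]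
      exact MeasurableSet.empty
  have h4 : {x : GR n | ∃ γ : GZ n, io n γ * x ∈ SG n ∧
        ∃ i j : Fin n, (i : ℕ) + 1 = j ∧ W * ac (io n γ * x) i < ac (io n γ * x) j} =
      ⋃ γ : GZ n, (fun x => io n γ * x) ⁻¹'
        {x : GR n | x ∈ SG n ∧ ∃ i j : Fin n, (i : ℕ) + 1 = j ∧ W * ac x i < ac x j} := by
    ext x
    simp only [Set.mem_iUnion, Set.mem_ofPred_eq, Set.mem_preimage]
  rw [h4]
  exact MeasurableSet.iUnion fun γ => measurable_const_mul _ h2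

theorem cut (hiw : S_iw) (hu : S_unimod) : S_cut := by
  intro n χ ε hχ hs hε
  obtain ⟨B, hB, hδ⟩ := exists_delta hχ hs
  set m : ℝ := (mu n B).toReal with hm
  have hm0 : 0 ≤ m := ENNReal.toReal_nonneg
  have hBm : mu n B = ENNReal.ofReal m := (ENNReal.ofReal_toReal hB.measure_lt_top.ne).symm
  set ω : ℝ := Real.sqrt ε / (m + 1) with hω
  have hω0 : 0 < ω := div_pos (Real.sqrt_pos.mpr hε) (by linarith)
  obtain ⟨δ, hδ0, hδ⟩ := hδ ω hω0
  obtain ⟨W, hW1, hW⟩ := conj_small hiw n δ hδ0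
  refine ⟨W, hW1, ?_⟩
  intro N _ H F hF f hf h2 hc
  have hI : (1 : ℝ) ≤ ixS H := by exact_mod_cast ixS_pos H
  have hS := measurable_high hiw n (W * ixS H)
  set S := {x : GR n | ∃ γ : GZ n, io n γ * x ∈ SG n ∧
        ∃ i j : Fin n, (i : ℕ) + 1 = j ∧ W * ixS H * ac (io n γ * x) i < ac (io n γ * x) j} with hSdef
  have hpt : ∀ (c : XX H), ∀ g ∈ S, ‖Rc χ f g c‖ₑ ^ 2 ≤
      ENNReal.ofReal ω ^ 2 * (∫⁻ y in B, ‖f (g * y) c‖ₑ ∂(mu n)) ^ 2 := by
    rintro c g ⟨γ, hγ, i, j, hij, hlt⟩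
    have h3 := point hF hf h2 hc hχ hs B hB ω δ hω0.le hδ (io n γ * g) i j hij
      (hW _ hγ (ixS H) hI i j hij hlt) (rho n N γ • c)
    rw [Rc_inv hf] at h3
    have h4 : ∀ y, f (io n γ * g * y) (rho n N γ • c) = f (g * y) c := by
      intro y
      rw [mul_assoc, ← rdM_eq, hf.invariant]
    simp only [h4] at h3
    rw [← mul_pow]
    exact pow_le_pow_left₀ (by simp) h3 2
  calc ∑' c : XX H, ∫⁻ g in F ∩ S, ‖Rc χ f g c‖ₑ ^ 2 ∂(mu n)
      ≤ ∑' c : XX H, ∫⁻ g in F ∩ S, ENNReal.ofReal ω ^ 2 * (∫⁻ y in B, ‖f (g * y) c‖ₑ ∂(mu n)) ^ 2 ∂(mu n) :=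
        ENNReal.tsum_le_tsum fun c => setLIntegral_mono' (hF.1.inter hS) fun g hg => hpt c g hg.2
    _ ≤ ∑' c : XX H, ∫⁻ g in F, ENNReal.ofReal ω ^ 2 * (∫⁻ y in B, ‖f (g * y) c‖ₑ ∂(mu n)) ^ 2 ∂(mu n) :=
        ENNReal.tsum_le_tsum fun c => lintegral_mono_set Set.inter_subset_left
    _ = ENNReal.ofReal ω ^ 2 * ∑' c : XX H, ∫⁻ g in F, (∫⁻ y in B, ‖f (g * y) c‖ₑ ∂(mu n)) ^ 2 ∂(mu n) := by
        rw [← ENNReal.tsum_mul_left]
        refine tsum_congr fun c => ?_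
        rw [lintegral_const_mul' _ _ (by simp)]
    _ ≤ ENNReal.ofReal ω ^ 2 * ((mu n B) ^ 2 * ∑' c : XX H, ∫⁻ g in F, ‖f g c‖ₑ ^ 2 ∂(mu n)) := by
        gcongr
        exact mean hu hF hf B
    _ ≤ ENNReal.ofReal ε * ∑' c : XX H, ∫⁻ g in F, ‖f g c‖ₑ ^ 2 ∂(mu n) := by
        rw [← mul_assoc]
        gcongr
        rw [← mul_pow, hBm, ← ENNReal.ofReal_mul hω0.le, ← ENNReal.ofReal_pow (by positivity)]
        refine ENNReal.ofReal_le_ofReal ?_
        have h5 : ω * m ≤ Real.sqrt ε := by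
          rw [hω, div_mul_eq_mul_div, div_le_iff₀ (by linarith)]
          have := Real.sqrt_nonneg ε
          nlinarith
        calc (ω * m) ^ 2 ≤ (Real.sqrt ε) ^ 2 := by gcongr
          _ = ε := Real.sq_sqrt hε.le

end Pool.Agent.T2h77.N.Cut

theorem Pool.Agent.T2h77.N.cut : Pool.Agent.T2h77.N.S_iw → Pool.Agent.T2h77.N.S_unimod → Pool.Agent.T2h77.N.S_cut :=
  Pool.Agent.T2h77.N.Cut.cut
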