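import Pool.Agent.T2h77N.Stm

/-!
# The growth of the complete homogeneous symmetric functions
-/

set_option autoImplicit false

open Matrix

noncomputable section

namespace Pool.Agent.T2h77.N

/-- the complete homogeneous symmetric function of the values of `f` -/
def hsG {ι : Type*} [Fintype ι] [DecidableEq ι] (f : ι → ℂ) (k : ℕ) : ℂ :=
  ∑ s : Sym ι k, ((s : Multiset ι).map f).prod

lemma hsG_zero {ι : Type*} [Fintype ι] [DecidableEq ι] (f : ι → ℂ) : hsG f 0 = 1 := by
  unfold hsG
  rw [Fintype.sum_unique]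
  rfl

lemma hsG_option {ι : Type*} [Fintype ι] [DecidableEq ι] (f : Option ι → ℂ) (k : ℕ) :
    hsG f (k + 1) = f none * hsG f k + hsG (fun i => f (some i)) (k + 1) := by
  unfold hsG
  rw [← (symOptionSuccEquiv (α := ι) (n := k)).symm.sum_comp, Fintype.sum_sum_type]
  congr 1
  · rw [Finset.mul_sum]
    refine Finset.sum_congr rfl fun s _ => ?_
    change (((SymOptionSuccEquiv.decode (Sum.inl s) : Sym (Option ι) (k + 1)) : Multiset (Option ι)).map f).prod = _
    simp only [SymOptionSuccEquiv.decode_inl]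
    change (((none ::ₘ (s : Multiset (Option ι)))).map f).prod = _
    rw [Multiset.map_cons, Multiset.prod_cons]
  · refine Finset.sum_congr rfl fun s _ => ?_
    change (((SymOptionSuccEquiv.decode (Sum.inr s) : Sym (Option ι) (k + 1)) : Multiset (Option ι)).map f).prod = _
    simp [Sym.coe_map, Multiset.map_map]

lemma hsG_equiv {ι κ : Type*} [Fintype ι] [DecidableEq ι] [Fintype κ] [DecidableEq κ] (e : κ ≃ ι) (f : ι → ℂ)
    (k : ℕ) : hsG (fun i => f (e i)) k = hsG f k := by
  unfold hsG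
  rw [← (Sym.equivCongr e : Sym κ k ≃ Sym ι k).sum_comp]
  refine Finset.sum_congr rfl fun s _ => ?_
  change _ = (((s.map e : Sym ι k) : Multiset ι).map f).prod
  simp [Sym.coe_map, Multiset.map_map]

lemma hsG_unit (f : Fin 1 → ℂ) (k : ℕ) : hsG f k = f 0 ^ k := by
  induction k with
  | zero => rw [hsG_zero, pow_zero]
  | succ k ih =>
    have e : Fin 1 ≃ Option (Fin 0) := finSuccEquiv 0
    have h1 := hsG_equiv e.symm f
    have h0 : ∀ k, hsG (fun i : Fin 0 => f (e.symm (some i))) (k + 1) = 0 := by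
      intro k
      unfold hsG
      have : IsEmpty (Sym (Fin 0) (k + 1)) := by
        infer_instance
      exact Finset.sum_of_isEmpty _
    rw [← h1, hsG_option, h0, h1, ih, add_zero, pow_succ, mul_comm]
    congr 2
    exact Subsingleton.elim _ _

lemma hsG_rec {n : ℕ} (f : Fin (n + 1) → ℂ) (k : ℕ) :
    hsG f (k + 1) = f (Fin.last n) * hsG f k + hsG (fun i : Fin n => f i.castSucc) (k + 1) := by
  have h1 := hsG_equiv (finSuccEquivLast (n := n)).symm f
  have h2 := hsG_option (fun i => f ((finSuccEquivLast (n := n)).symm i)) k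
  rw [h1, h1] at h2
  simpa using h2

lemma grow_aux (n : ℕ) : ∀ (f : Fin (n + 1) → ℂ), (∀ i, ‖f i‖ ≤ ‖f 0‖) → ∀ k : ℕ,
    ¬ ∀ l : ℕ, l ≤ k → k < l + (n + 1) → 2 ^ n * ‖hsG f l‖ < ‖f 0‖ ^ l := by
  induction n with
  | zero =>
    intro f hf k h
    have := h k le_rfl (by omega)
    rw [hsG_unit, norm_pow] at this
    simp at this
  | succ n ih =>
    intro f hf k h
    refine ih (fun i => f i.castSucc) (fun i => hf _) k fun l hl hkl => ?_
    have e0 : f (Fin.castSucc (0 : Fin (n + 1))) = f 0 := by simp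
    simp only [e0]
    rcases Nat.eq_zero_or_pos l with rfl | hl0
    · have h0 := h 0 (by omega) (by omega)
      rw [hsG_zero] at h0
      simp only [norm_one, mul_one, pow_zero] at h0
      exact absurd h0 (not_lt.2 (one_le_pow₀ (by norm_num)))
    · obtain ⟨m, rfl⟩ : ∃ m, l = m + 1 := ⟨l - 1, by omega⟩
      have h1 := h (m + 1) hl (by omega)
      have h2 := h m (by omega) (by omega)
      have h3 := hsG_rec f m
      have h4 : ‖hsG (fun i : Fin (n + 1) => f i.castSucc) (m + 1)‖ ≤ ‖hsG f (m + 1)‖ + ‖f 0‖ * ‖hsG f m‖ := by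
        have : hsG (fun i : Fin (n + 1) => f i.castSucc) (m + 1) = hsG f (m + 1) - f (Fin.last _) * hsG f m := by
          rw [h3]; ring
        rw [this]
        refine (norm_sub_le _ _).trans ?_
        rw [norm_mul]
        gcongr
        exact hf _
      have h5 : ‖f 0‖ * (2 ^ (n + 1) * ‖hsG f m‖) ≤ ‖f 0‖ * ‖f 0‖ ^ m :=
        mul_le_mul_of_nonneg_left h2.le (norm_nonneg _)
      have h6 : ‖f 0‖ ^ (m + 1) = ‖f 0‖ * ‖f 0‖ ^ m := by ring
      have h7 : (2 : ℝ) ^ n * ‖hsG (fun i : Fin (n + 1) => f i.castSucc) (m + 1)‖ ≤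
          2 ^ n * (‖hsG f (m + 1)‖ + ‖f 0‖ * ‖hsG f m‖) := by gcongr
      rw [pow_succ] at h1 h5
      nlinarith [h1, h5, h6, h7]

theorem grow : S_grow := by
  intro n α j hj k
  obtain ⟨n, rfl⟩ : ∃ m, n = m + 1 := ⟨n - 1, by have := j.2; omega⟩
  by_contra hcon
  push Not at hcon
  have h1 := grow_aux n (fun i => α (Equiv.swap 0 j i)) (fun i => by simpa using hj _) k
  refine h1 fun l hl hkl => ?_
  rw [hsG_equiv (Equiv.swap 0 j) α l]
  have h2 := hcon l hl hkl
  have h3 : hs α l = hsG α l := rfl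
  rw [h3] at h2
  simpa using h2

end Pool.Agent.T2h77.N
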