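import Pool.Agent.T2h77N.Cell

/-!
# The integral of the product of the roots over a truncated Siegel set: `S_int`
-/

set_option autoImplicit false

open MeasureTheory Matrix
open scoped MatrixGroups ENNReal

noncomputable section

namespace Pool.Agent.T2h77.N

theorem int_ac {n : ℕ} {x : GR n} (hx : x ∈ SG n) {W : ℝ} (hW : 1 ≤ W)
    (h : ∀ i j : Fin n, (i : ℕ) + 1 = j → ac x j ≤ W * ac x i) (i j : Fin n) : ac x i ≤ (2 * W) ^ n * ac x j := by
  have hp := (iw n).1 x
  rcases le_total j i with hij | hij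
  · -- `j ≤ i`
    have key : ∀ d : ℕ, ∀ i j : Fin n, (j : ℕ) + d = i → ac x i ≤ W ^ d * ac x j := by
      intro d
      induction d with
      | zero =>
        intro i j h
        have : i = j := Fin.ext (by omega)
        subst this
        simp
      | succ d ih =>
        intro i j h'
        have hlt : (j : ℕ) + d < n := by omega
        have h1 := ih ⟨(j : ℕ) + d, hlt⟩ j rfl
        have h2 := h ⟨(j : ℕ) + d, hlt⟩ i (by simp; omega)
        calc ac x i ≤ W * ac x ⟨(j : ℕ) + d, hlt⟩ := h2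
          _ ≤ W * (W ^ d * ac x j) := by gcongr
          _ = W ^ (d + 1) * ac x j := by ring
    have h1 := key ((i : ℕ) - j) i j (by have : (j : ℕ) ≤ i := hij; omega)
    refine h1.trans ?_
    have h2 : W ^ ((i : ℕ) - j) ≤ W ^ n := pow_le_pow_right₀ hW (by omega)
    have h3 : W ^ n ≤ (2 * W) ^ n := by gcongr; linarith
    have := hp j
    gcongr
    exact h2.trans h3
  · have h1 := ent_ac iw hx j i hij
    refine h1.trans ?_
    have := hp j
    gcongr
    linarith

theorem int_ac' {n : ℕ} {x : GR n} (hx : x ∈ SG n) {W : ℝ} (hW : 1 ≤ W)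
    (h : ∀ i j : Fin n, (i : ℕ) + 1 = j → ac x j ≤ W * ac x i) (i : Fin n) :
    1 ≤ (2 * W) ^ n * ac x i ∧ ac x i ≤ (2 * W) ^ n := by
  have hp := (iw n).1 x
  have hn : n ≠ 0 := i.pos.ne'
  have hprod := iw_prod_ac x
  constructor
  · by_contra hlt
    push Not at hlt
    have h1 : ∏ j, ac x j ≤ ∏ _j : Fin n, ((2 * W) ^ n * ac x i) :=
      Finset.prod_le_prod (fun j _ => (hp j).le) fun j _ => int_ac hx hW h j i
    rw [hprod, Finset.prod_const, Finset.card_univ, Fintype.card_fin] at h1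
    have h2 : ((2 * W) ^ n * ac x i) ^ n < 1 := pow_lt_one₀ (by have := hp i; positivity) hlt hn
    linarith
  · by_contra hlt
    push Not at hlt
    have h1 : ∏ _j : Fin n, ac x i ≤ ∏ j : Fin n, ((2 * W) ^ n * ac x j) :=
      Finset.prod_le_prod (fun j _ => (hp i).le) fun j _ => int_ac hx hW h i j
    rw [Finset.prod_mul_distrib, hprod, Finset.prod_const, Finset.prod_const, Finset.card_univ, Fintype.card_fin,
      mul_one] at h1
    have h2 : ((2 * W) ^ n) ^ n < ac x i ^ n := pow_lt_pow_left₀ hlt (by positivity) hn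
    linarith

theorem int_log {n : ℕ} {x : GR n} (hx : x ∈ SG n) {W : ℝ} (hW : 1 ≤ W)
    (h : ∀ i j : Fin n, (i : ℕ) + 1 = j → ac x j ≤ W * ac x i) (i : Fin n) :
    |(Int.log 2 (ac x i) : ℝ)| ≤ 2 * n * (1 + Real.log W) + 1 := by
  have hp := (iw n).1 x i
  have h1 := int_ac' hx hW h i
  have h2 : ((2 : ℕ) : ℝ) ^ Int.log 2 (ac x i) ≤ ac x i := Int.zpow_log_le_self (by norm_num) hp
  have h3 : ac x i < ((2 : ℕ) : ℝ) ^ (Int.log 2 (ac x i) + 1) := Int.lt_zpow_succ_log_self (by norm_num) _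
  push_cast at h2 h3
  have hlog2 : 0.69 < Real.log 2 := by
    have := Real.log_two_gt_d9
    linarith
  have hlogW : 0 ≤ Real.log W := Real.log_nonneg hW
  have h4 : (Int.log 2 (ac x i) : ℝ) * Real.log 2 ≤ Real.log (ac x i) := by
    rw [← Real.log_zpow]
    exact Real.log_le_log (by positivity) h2
  have h5 : Real.log (ac x i) ≤ ((Int.log 2 (ac x i) : ℝ) + 1) * Real.log 2 := by
    have := Real.log_le_log hp h3.le
    rw [Real.log_zpow] at this
    push_cast at this
    exact this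
  have h6 : Real.log (ac x i) ≤ n * (Real.log 2 + Real.log W) := by
    have := Real.log_le_log hp h1.2
    rw [Real.log_pow, Real.log_mul (by norm_num) (by linarith)] at this
    exact this
  have h7 : -(n * (Real.log 2 + Real.log W)) ≤ Real.log (ac x i) := by
    have := Real.log_le_log one_pos h1.1
    rw [Real.log_one, Real.log_mul (by positivity) hp.ne', Real.log_pow, Real.log_mul (by norm_num) (by linarith)]
      at this
    linarith
  have h8 : n * (Real.log 2 + Real.log W) ≤ 2 * n * (1 + Real.log W) * Real.log 2 := by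
    have hn : (0 : ℝ) ≤ n := Nat.cast_nonneg n
    nlinarith [mul_nonneg hn hlogW, mul_nonneg (mul_nonneg hn hlogW) (by linarith : (0 : ℝ) ≤ Real.log 2 - 0.69)]
  rw [abs_le]
  constructor
  · by_contra hlt
    push Not at hlt
    nlinarith
  · by_contra hlt
    push Not at hlt
    nlinarith

theorem int_bound (_h : S_iw) (hc : S_cell) : S_int := by
  intro n
  obtain ⟨C, hC, hcell⟩ := hc n
  refine ⟨(4 * n + 5) ^ n * (2 ^ (n * n) * C), by positivity, fun W hW => ?_⟩
  have hlogW : 0 ≤ Real.log W := Real.log_nonneg hW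
  set B : ℤ := ⌈2 * n * (1 + Real.log W) + 1⌉ with hB
  set T : Finset (Fin n → ℤ) := Fintype.piFinset fun _ => Finset.Icc (-B) B with hT
  have hBr : (B : ℝ) < 2 * n * (1 + Real.log W) + 1 + 1 := Int.ceil_lt_add_one _
  have hB0 : 0 ≤ B := by
    have : (0 : ℝ) ≤ 2 * n * (1 + Real.log W) + 1 := by positivity
    exact Int.ceil_nonneg this
  have hcard : (T.card : ℝ) ≤ (4 * n + 5) ^ n * (1 + Real.log W) ^ n := by
    rw [hT, Fintype.card_piFinset, Finset.prod_const, Finset.card_univ, Fintype.card_fin, Int.card_Icc]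
    push_cast
    rw [← mul_pow]
    have h1 : (((B + 1 - -B).toNat : ℕ) : ℝ) = 2 * B + 1 := by
      have : ((B + 1 - -B).toNat : ℤ) = 2 * B + 1 := by
        rw [Int.toNat_of_nonneg] <;> omega
      exact_mod_cast this
    rw [h1]
    have hB0' : (0 : ℝ) ≤ B := by exact_mod_cast hB0
    gcongr
    nlinarith
  have hcover : SG n ∩ {x | ∀ i j : Fin n, (i : ℕ) + 1 = j → ac x j ≤ W * ac x i} ⊆
      ⋃ e : T, cellE fun i => (2 : ℝ) ^ (e.1 i) := by
    rintro x ⟨hx, hx'⟩
    have hx'' : ∀ i j : Fin n, (i : ℕ) + 1 = j → ac x j ≤ W * ac x i := hx'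
    rw [Set.mem_iUnion]
    refine ⟨⟨fun i => Int.log 2 (ac x i), ?_⟩, hx, fun i => ?_⟩
    · rw [hT, Fintype.mem_piFinset]
      intro i
      have h1 := abs_le.1 (int_log hx hW hx'' i)
      have h2 : (2 * n * (1 + Real.log W) + 1 : ℝ) ≤ B := Int.le_ceil _
      rw [Finset.mem_Icc]
      constructor
      · have : -(B : ℝ) ≤ Int.log 2 (ac x i) := by linarith [h1.1]
        exact_mod_cast this
      · have : (Int.log 2 (ac x i) : ℝ) ≤ B := by linarith [h1.2]
        exact_mod_cast this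
    · have hp := (iw n).1 x i
      have h2 : ((2 : ℕ) : ℝ) ^ Int.log 2 (ac x i) ≤ ac x i := Int.zpow_log_le_self (by norm_num) hp
      have h3 : ac x i < ((2 : ℕ) : ℝ) ^ (Int.log 2 (ac x i) + 1) := Int.lt_zpow_succ_log_self (by norm_num) _
      push_cast at h2 h3
      refine ⟨h2, ?_⟩
      rw [zpow_add_one₀ (by norm_num)] at h3
      change ac x i ≤ 2 * 2 ^ Int.log 2 (ac x i)
      linarith
  have hone : ∀ e : T, ∫⁻ x in cellE fun i => (2 : ℝ) ^ (e.1 i), ENNReal.ofReal (wt (ac x)) ∂(mu n) ≤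
      ENNReal.ofReal (2 ^ (n * n) * C) := by
    intro e
    set a : Fin n → ℝ := fun i => (2 : ℝ) ^ (e.1 i) with ha
    have ha0 : ∀ i, 0 < a i := fun i => by rw [ha]; positivity
    have hwa := wt_pos ha0
    calc ∫⁻ x in cellE a, ENNReal.ofReal (wt (ac x)) ∂(mu n) ≤
        ∫⁻ _x in cellE a, ENNReal.ofReal (2 ^ (n * n) * wt a) ∂(mu n) := by
          refine setLIntegral_mono' (cellE_measurable a) fun x hx => ?_
          exact ENNReal.ofReal_le_ofReal (cell_wt ha0 fun i => hx.2 i).2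
      _ = ENNReal.ofReal (2 ^ (n * n) * wt a) * mu n (cellE a) := setLIntegral_const _ _
      _ ≤ ENNReal.ofReal (2 ^ (n * n) * wt a) * ENNReal.ofReal (C * (wt a)⁻¹) := by
          gcongr
          exact hcell a ha0
      _ = ENNReal.ofReal (2 ^ (n * n) * C) := by
          rw [← ENNReal.ofReal_mul (by positivity)]
          congr 1
          field_simp
  calc ∫⁻ x in SG n ∩ {x | ∀ i j : Fin n, (i : ℕ) + 1 = j → ac x j ≤ W * ac x i}, ENNReal.ofReal (wt (ac x)) ∂(mu n)
      ≤ ∫⁻ x in ⋃ e : T, cellE fun i => (2 : ℝ) ^ (e.1 i), ENNReal.ofReal (wt (ac x)) ∂(mu n) :=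
        lintegral_mono_set hcover
    _ ≤ ∑' e : T, ∫⁻ x in cellE fun i => (2 : ℝ) ^ (e.1 i), ENNReal.ofReal (wt (ac x)) ∂(mu n) :=
        lintegral_iUnion_le _ _
    _ ≤ ∑' _e : T, ENNReal.ofReal (2 ^ (n * n) * C) := ENNReal.tsum_le_tsum hone
    _ = ENNReal.ofReal ((T.card : ℝ) * (2 ^ (n * n) * C)) := by
        rw [tsum_fintype, Finset.sum_const, Finset.card_univ, Fintype.card_coe, nsmul_eq_mul,
          ENNReal.ofReal_mul (Nat.cast_nonneg _), ENNReal.ofReal_natCast]
    _ ≤ ENNReal.ofReal ((4 * n + 5) ^ n * (2 ^ (n * n) * C) * (1 + Real.log W) ^ n) := by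
        refine ENNReal.ofReal_le_ofReal ?_
        have h1 : (0 : ℝ) ≤ 2 ^ (n * n) * C := by positivity
        nlinarith [mul_le_mul_of_nonneg_right hcard h1]

end Pool.Agent.T2h77.N
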