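import Pool.Agent.T2h77N.Stm

/-!
# Iwasawa coordinates on `SL_n(ℝ)` (Gram-Schmidt of the rows): the statement `S_iw`
-/

set_option autoImplicit false

open MeasureTheory Matrix
open scoped MatrixGroups ENNReal

noncomputable section

namespace Pool.Agent.T2h77.N

theorem iw_row_apply {n : ℕ} (x : GR n) (i j : Fin n) : row x i j = x.1 i j := rfl

theorem iw_linInd {n : ℕ} (x : GR n) : LinearIndependent ℝ (row x) := by
  have h0 : x.1.det ≠ 0 := by
    have := x.2
    rw [this]; exact one_ne_zero
  have h1 : LinearIndependent ℝ x.1.row := Matrix.linearIndependent_rows_of_det_ne_zero h0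
  have h2 := h1.map' (WithLp.linearEquiv 2 ℝ (Fin n → ℝ)).symm.toLinearMap
    (LinearEquiv.ker _)
  exact h2

theorem iw_gsv_ne_zero {n : ℕ} (x : GR n) (i : Fin n) : gsv x i ≠ 0 :=
  InnerProductSpace.gramSchmidt_ne_zero i (iw_linInd x)

theorem iw_ac_pos {n : ℕ} (x : GR n) (i : Fin n) : 0 < ac x i := norm_pos_iff.mpr (iw_gsv_ne_zero x i)

theorem iw_orth {n : ℕ} (x : GR n) {i j : Fin n} (h : i ≠ j) : inner ℝ (gsv x i) (gsv x j) = 0 :=
  InnerProductSpace.gramSchmidt_orthogonal ℝ (row x) h

/-- the recursion -/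
theorem iw_rec {n : ℕ} (x : GR n) (i : Fin n) :
    row x i = gsv x i + ∑ j ∈ Finset.Iio i, (inner ℝ (gsv x j) (row x i) / ‖gsv x j‖ ^ 2) • gsv x j := by
  have := InnerProductSpace.gramSchmidt_def'' ℝ (row x) i
  simpa [gsv] using this

/-- the rows in terms of the orthogonal vectors -/
theorem iw_row {n : ℕ} (x : GR n) (i : Fin n) : row x i = ∑ j, lc x i j • gsv x j := by
  rw [iw_rec x i]
  rw [← Finset.sum_subset (Finset.subset_univ (insert i (Finset.Iio i)))]
  · rw [Finset.sum_insert (by simp)]
    congr 1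
    · simp [lc]
    · refine Finset.sum_congr rfl fun j hj => ?_
      have hj' : j < i := Finset.mem_Iio.mp hj
      simp [lc, hj', hj'.ne']
  · intro j _ hj
    have hj1 : j ≠ i := fun h => hj (by simp [h])
    have hj2 : ¬ j < i := fun h => hj (by simp [h.le])
    simp [lc, hj1.symm, hj2]

/-- the orthogonal part -/
def kc {n : ℕ} (x : GR n) : Matrix (Fin n) (Fin n) ℝ := Matrix.of fun i j => (ac x i)⁻¹ * gsv x i j

theorem iw_inner {n : ℕ} (u v : EuclideanSpace ℝ (Fin n)) : inner ℝ u v = ∑ i, u i * v i := by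
  simp [PiLp.inner_apply, mul_comm]

theorem iw_kc_mul {n : ℕ} (x : GR n) : kc x * (kc x)ᵀ = 1 := by
  ext i j
  rw [Matrix.mul_apply]
  have h : ∑ l, kc x i l * (kc x)ᵀ l j = (ac x i)⁻¹ * (ac x j)⁻¹ * inner ℝ (gsv x i) (gsv x j) := by
    rw [iw_inner, Finset.mul_sum]
    refine Finset.sum_congr rfl fun l _ => ?_
    simp only [kc, Matrix.of_apply, Matrix.transpose_apply]
    ring
  rw [h]
  by_cases hij : i = j
  · subst hij
    rw [real_inner_self_eq_norm_sq, Matrix.one_apply_eq]
    have := (iw_ac_pos x i).ne'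
    have h2 : ‖gsv x i‖ = ac x i := rfl
    rw [h2]
    field_simp
  · rw [iw_orth x hij, Matrix.one_apply_ne hij, mul_zero]

theorem iw_decomp {n : ℕ} (x : GR n) :
    x.1 = Matrix.of (lc x) * Matrix.diagonal (ac x) * kc x := by
  ext i l
  rw [Matrix.mul_apply]
  have h1 := congrArg (fun v : EuclideanSpace ℝ (Fin n) => v l) (iw_row x i)
  simp only [iw_row_apply] at h1
  rw [h1]
  rw [WithLp.ofLp_sum, Finset.sum_apply]
  refine Finset.sum_congr rfl fun j _ => ?_
  rw [Matrix.mul_diagonal]
  simp only [kc, Matrix.of_apply, PiLp.smul_apply, smul_eq_mul]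
  have := (iw_ac_pos x j).ne'
  field_simp

theorem iw_unique {n : ℕ} (x : GR n) (L k : Matrix (Fin n) (Fin n) ℝ) (a : Fin n → ℝ) (hL1 : ∀ i, L i i = 1)
    (hL0 : ∀ i j, i < j → L i j = 0) (ha : ∀ i, 0 < a i) (hk : k * kᵀ = 1)
    (hx : x.1 = L * Matrix.diagonal a * k) : a = ac x ∧ L = Matrix.of (lc x) := by
  -- the orthogonal vectors
  let g : Fin n → EuclideanSpace ℝ (Fin n) := fun j => a j • WithLp.toLp 2 (k j)
  have hg : ∀ i j, inner ℝ (g i) (g j) = if i = j then a i ^ 2 else 0 := by
    intro i j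
    have h1 := congrFun (congrFun hk i) j
    rw [Matrix.mul_apply] at h1
    simp only [g]
    rw [inner_smul_left, inner_smul_right, iw_inner]
    have h2 : ∑ l, (WithLp.toLp 2 (k i) : EuclideanSpace ℝ (Fin n)) l *
        (WithLp.toLp 2 (k j) : EuclideanSpace ℝ (Fin n)) l = (1 : Matrix (Fin n) (Fin n) ℝ) i j := by
      rw [← h1]
      rfl
    rw [h2, Matrix.one_apply]
    by_cases hij : i = j
    · subst hij; simp; ring
    · simp [hij]
  have hrow : ∀ i, row x i = ∑ j, L i j • g j := by
    intro i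
    ext l
    rw [iw_row_apply, hx, Matrix.mul_apply, WithLp.ofLp_sum, Finset.sum_apply]
    refine Finset.sum_congr rfl fun j _ => ?_
    rw [Matrix.mul_diagonal]
    simp only [g, PiLp.smul_apply, smul_eq_mul]
    ring
  have hin : ∀ i j, inner ℝ (g j) (row x i) = L i j * a j ^ 2 := by
    intro i j
    rw [hrow, inner_sum]
    rw [Finset.sum_eq_single j]
    · rw [inner_smul_right, hg]; simp
    · intro l _ hl
      rw [inner_smul_right, hg]; simp [hl.symm]
    · simp
  have hnorm : ∀ j, ‖g j‖ ^ 2 = a j ^ 2 := by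
    intro j
    rw [← real_inner_self_eq_norm_sq, hg]; simp
  have hkey : ∀ i, gsv x i = g i := by
    intro i
    induction i using WellFoundedLT.induction with
    | _ i ih =>
      have h1 := iw_rec x i
      have h2 : gsv x i = row x i - ∑ j ∈ Finset.Iio i,
          (inner ℝ (gsv x j) (row x i) / ‖gsv x j‖ ^ 2) • gsv x j := by
        rw [eq_sub_iff_add_eq]; exact h1.symm
      rw [h2, sub_eq_iff_eq_add]
      have h3 : ∑ j ∈ Finset.Iio i, (inner ℝ (gsv x j) (row x i) / ‖gsv x j‖ ^ 2) • gsv x j =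
          ∑ j ∈ Finset.Iio i, L i j • g j := by
        refine Finset.sum_congr rfl fun j hj => ?_
        rw [ih j (Finset.mem_Iio.mp hj), hin, hnorm]
        have := (ha j).ne'
        congr 1
        field_simp
      rw [h3, hrow]
      rw [← Finset.sum_subset (Finset.subset_univ (insert i (Finset.Iio i)))]
      · rw [Finset.sum_insert (by simp), hL1, one_smul]
      · intro j _ hj
        have hj1 : j ≠ i := fun h => hj (by simp [h])
        have hj2 : ¬ j < i := fun h => hj (by simp [h.le])
        rw [hL0 i j (lt_of_le_of_ne (not_lt.mp hj2) hj1.symm), zero_smul]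
  have hac : ∀ i, ac x i = a i := by
    intro i
    have h1 : ac x i ^ 2 = a i ^ 2 := by
      rw [ac, hkey, hnorm]
    have := iw_ac_pos x i
    have h2 := ha i
    nlinarith [sq_eq_sq₀ this.le h2.le |>.mp h1]
  refine ⟨funext fun i => (hac i).symm, ?_⟩
  ext i j
  simp only [Matrix.of_apply, lc]
  by_cases hij : i = j
  · subst hij; simp [hL1]
  · simp only [hij, if_false]
    by_cases hji : j < i
    · simp only [hji, if_true]
      rw [hkey, hin, hnorm]
      have := (ha j).ne'
      field_simp
    · simp only [hji, if_false]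
      exact hL0 i j (lt_of_le_of_ne (not_lt.mp hji) hij)

theorem iw_continuous_row {n : ℕ} (i : Fin n) : Continuous fun x : GR n => row x i := by
  have h1 : Continuous fun x : GR n => x.1 i :=
    (continuous_apply i).comp Matrix.SpecialLinearGroup.isClosedEmbedding_val.continuous
  exact (PiLp.continuous_toLp 2 _).comp h1

theorem iw_measurable_gsv {n : ℕ} (i : Fin n) : Measurable fun x : GR n => gsv x i := by
  induction i using WellFoundedLT.induction with
  | _ i ih =>
    have h2 : (fun x : GR n => gsv x i) = fun x : GR n => row x i - ∑ j ∈ Finset.Iio i,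
        (inner ℝ (gsv x j) (row x i) / ‖gsv x j‖ ^ 2) • gsv x j := by
      funext x
      rw [eq_sub_iff_add_eq]; exact (iw_rec x i).symm
    rw [h2]
    refine (iw_continuous_row i).measurable.sub ?_
    refine Finset.measurable_sum _ fun j hj => ?_
    have hj' := ih j (Finset.mem_Iio.mp hj)
    have h5 : Measurable fun x : GR n => inner ℝ (gsv x j) (row x i) / ‖gsv x j‖ ^ 2 :=
      (hj'.inner (iw_continuous_row i).measurable).div (hj'.norm.pow_const 2)
    exact h5.smul hj'

theorem iw_measurable_ac {n : ℕ} (i : Fin n) : Measurable fun x : GR n => ac x i :=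
  (iw_measurable_gsv i).norm

theorem iw_measurable_lc {n : ℕ} (i j : Fin n) : Measurable fun x : GR n => lc x i j := by
  unfold lc
  split_ifs
  · exact measurable_const
  · exact ((iw_measurable_gsv j).inner (iw_continuous_row i).measurable).div
      ((iw_measurable_gsv j).norm.pow_const 2)
  · exact measurable_const

theorem iw : S_iw := fun _ =>
  ⟨iw_ac_pos, fun x => ⟨kc x, iw_kc_mul x, iw_decomp x⟩, iw_unique, iw_measurable_ac, iw_measurable_lc⟩

/-- the product of the `ac` is one -/
theorem iw_prod_ac {n : ℕ} (x : GR n) : ∏ i, ac x i = 1 := by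
  have h1 : x.1.det = 1 := x.2
  rw [iw_decomp x, Matrix.det_mul, Matrix.det_mul, Matrix.det_diagonal] at h1
  have h2 : (Matrix.of (lc x)).det = 1 := by
    rw [Matrix.det_of_isLowerTriangular]
    · simp [lc]
    · intro i j hij
      have h1 : i < j := hij
      simp [lc, h1.ne, h1.not_gt]
  have h3 : (kc x).det ^ 2 = 1 := by
    have := congrArg Matrix.det (iw_kc_mul x)
    rw [Matrix.det_mul, Matrix.det_transpose, Matrix.det_one] at this
    rw [sq]; exact this
  rw [h2, one_mul] at h1
  have h4 : 0 < ∏ i, ac x i := Finset.prod_pos fun i _ => iw_ac_pos x i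
  have h5 : (∏ i, ac x i) ^ 2 = 1 := by
    have : ((∏ i, ac x i) * (kc x).det) ^ 2 = 1 := by rw [h1]; norm_num
    rw [mul_pow, h3, mul_one] at this
    exact this
  nlinarith [sq_nonneg (∏ i, ac x i - 1)]

end Pool.Agent.T2h77.N
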