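import Pool.Agent.T2h77N.Fund

/-!
# The convolution operators and the Hecke operators; averaging of slowly varying functions
-/

set_option autoImplicit false
set_option linter.unusedSectionVars false

open MeasureTheory Matrix
open scoped MatrixGroups ENNReal Topology Pointwise

noncomputable section

namespace Pool.Agent.T2h77.N

variable {n N : ℕ} [NeZero N] {H : Subgroup (GN n N)}

theorem measurable_Rc {f : GR n → XX H → ℂ} (hf : IsForm H f) {χ : GR n → ℝ} (hχ : Continuous χ) (c : XX H) :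
    Measurable fun g => Rc χ f g c := by
  have hm : Measurable fun p : GR n × GR n => f (p.1 * p.2) c * (χ p.2 : ℂ) :=
    ((hf.measurable c).comp measurable_mul).mul
      (Complex.measurable_ofReal.comp (hχ.measurable.comp measurable_snd))
  exact (hm.stronglyMeasurable.integral_prod_right' (ν := mu n)).measurable

theorem isForm_Rc {f : GR n → XX H → ℂ} (hf : IsForm H f) {χ : GR n → ℝ} (hχ : Continuous χ) :
    IsForm H (Rc χ f) := by
  refine ⟨measurable_Rc hf hχ, fun γ g c => ?_⟩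
  unfold Rc
  simp only [mul_assoc, hf.invariant]

/-- RCF -/
theorem rcf : S_rcf := by
  intro n χ hχ hχc N _ H F hF f hf hL
  refine ⟨isForm_Rc hf hχ, fun R a _ h g c => ?_⟩
  unfold Rc
  rw [← integral_finsetSum _ fun β _ => integrable_Rc hF hf hL hχ hχc (scl β * g) (rdM N β • c),
    ← integral_const_mul]
  refine integral_congr_ae (.of_forall fun y => ?_)
  simp only
  rw [← Finset.sum_mul, ← mul_assoc, ← h (g * y) c]
  simp only [mul_assoc]

theorem enorm_sq_ofReal (x : ℂ) : ‖x‖ₑ ^ 2 = ENNReal.ofReal (‖x‖ ^ 2) := by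
  rw [ENNReal.ofReal_pow (norm_nonneg _), ofReal_norm]

theorem enorm_sq_le_two (a b : ℂ) : ‖a‖ₑ ^ 2 ≤ 2 * ‖b‖ₑ ^ 2 + 2 * ‖b - a‖ₑ ^ 2 := by
  have h : ‖a‖ ^ 2 ≤ 2 * ‖b‖ ^ 2 + 2 * ‖b - a‖ ^ 2 := by
    have h1 : ‖a‖ ≤ ‖b‖ + ‖b - a‖ := by
      have := norm_sub_le b (b - a)
      rwa [sub_sub_cancel] at this
    nlinarith [sq_nonneg (‖b‖ - ‖b - a‖), norm_nonneg a, norm_nonneg b, norm_nonneg (b - a)]
  rw [enorm_sq_ofReal, enorm_sq_ofReal, enorm_sq_ofReal]
  have e2 : (2 : ℝ≥0∞) = ENNReal.ofReal 2 := by simp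
  rw [e2, ← ENNReal.ofReal_mul (by norm_num), ← ENNReal.ofReal_mul (by norm_num),
    ← ENNReal.ofReal_add (by positivity) (by positivity)]
  exact ENNReal.ofReal_le_ofReal h

/-- Cauchy-Schwarz for an average -/
theorem jensen {X : Type} [MeasurableSpace X] {ν : Measure X} {u w : X → ℝ≥0∞} (hu : Measurable u)
    (hw : Measurable w) (h1 : ∫⁻ x, w x ∂ν = 1) : (∫⁻ x, u x * w x ∂ν) ^ 2 ≤ ∫⁻ x, u x ^ 2 * w x ∂ν := by
  have h3 := ENNReal.lintegral_mul_le_Lp_mul_Lq ν (Real.HolderConjugate.two_two)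
    (f := fun x => (w x) ^ (1 / 2 : ℝ)) (g := fun x => u x * (w x) ^ (1 / 2 : ℝ))
    (hw.pow_const _).aemeasurable (hu.mul (hw.pow_const _)).aemeasurable
  have e1 : ∀ x, ((fun x => (w x) ^ (1 / 2 : ℝ)) * fun x => u x * (w x) ^ (1 / 2 : ℝ)) x = u x * w x := by
    intro x
    simp only [Pi.mul_apply]
    have : (w x) ^ (1 / 2 : ℝ) * (w x) ^ (1 / 2 : ℝ) = w x := by
      rw [← ENNReal.rpow_add_of_nonneg _ _ (by norm_num) (by norm_num)]
      norm_num
    calc (w x) ^ (1 / 2 : ℝ) * (u x * (w x) ^ (1 / 2 : ℝ)) =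
        u x * ((w x) ^ (1 / 2 : ℝ) * (w x) ^ (1 / 2 : ℝ)) := by ring
      _ = _ := by rw [this]
  have e2 : ∀ x, ((w x) ^ (1 / 2 : ℝ)) ^ (2 : ℝ) = w x := fun x => by
    rw [← ENNReal.rpow_mul]; norm_num
  have e3 : ∀ x, (u x * (w x) ^ (1 / 2 : ℝ)) ^ (2 : ℝ) = u x ^ 2 * w x := fun x => by
    rw [ENNReal.mul_rpow_of_nonneg _ _ (by norm_num), ← ENNReal.rpow_mul]
    norm_num
  simp only [e1, e2, e3, h1, ENNReal.one_rpow, one_mul] at h3
  calc (∫⁻ x, u x * w x ∂ν) ^ 2 ≤ ((∫⁻ x, u x ^ 2 * w x ∂ν) ^ (1 / 2 : ℝ)) ^ 2 := by gcongr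
    _ = _ := by
        rw [← ENNReal.rpow_natCast, ← ENNReal.rpow_mul]
        norm_num

/-- MASS -/
theorem mass : S_mass := by
  intro n U χ hχ hχc hχ0 hχU hχ1 N _ H F hF f hf hL h1 hslow
  have : Fintype (XX H) := Fintype.ofFinite _
  set P := Rc χ f with hP
  have hPm : ∀ c, Measurable fun g => P g c := measurable_Rc hf hχ
  have hfm := hf.measurable
  have hχm : Measurable fun y => ENNReal.ofReal (χ y) := hχ.measurable.ennreal_ofReal
  have hχint : Integrable χ (mu n) := hχ.integrable_of_hasCompactSupport hχc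
  have hχl : ∫⁻ y, ENNReal.ofReal (χ y) ∂(mu n) = 1 := by
    rw [← ofReal_integral_eq_lintegral_ofReal hχint (.of_forall hχ0), hχ1, ENNReal.ofReal_one]
  -- the difference
  have hdiff : ∀ g c, ‖P g c - f g c‖ₑ ^ 2 ≤ ∫⁻ y, ‖f (g * y) c - f g c‖ₑ ^ 2 * ENNReal.ofReal (χ y) ∂(mu n) := by
    intro g c
    have hc1 : Integrable (fun y => (χ y : ℂ)) (mu n) := hχint.ofReal
    have e1 : P g c - f g c = ∫ y, (f (g * y) c - f g c) * (χ y : ℂ) ∂(mu n) := by
      have e2 : f g c = ∫ y, f g c * (χ y : ℂ) ∂(mu n) := by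
        rw [integral_const_mul, integral_complex_ofReal, hχ1]
        simp
      conv_lhs => rw [e2]
      rw [hP]
      unfold Rc
      rw [← integral_sub (integrable_Rc hF hf hL hχ hχc g c) (hc1.const_mul _)]
      simp only [sub_mul]
    have e3 : ‖P g c - f g c‖ₑ ≤ ∫⁻ y, ‖f (g * y) c - f g c‖ₑ * ENNReal.ofReal (χ y) ∂(mu n) := by
      rw [e1]
      refine (enorm_integral_le_lintegral_enorm _).trans_eq (lintegral_congr fun y => ?_)
      rw [enorm_mul]
      congr 1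
      rw [← ofReal_norm, Complex.norm_real, Real.norm_of_nonneg (hχ0 y)]
    refine le_trans (by gcongr) (jensen ?_ hχm hχl)
    exact (((hfm c).comp (measurable_const_mul g)).sub measurable_const).enorm
  -- the integral of the difference
  have hm2 : ∀ c, Measurable fun p : GR n × GR n =>
      ‖f (p.1 * p.2) c - f p.1 c‖ₑ ^ 2 * ENNReal.ofReal (χ p.2) := fun c =>
    (((((hfm c).comp measurable_mul).sub ((hfm c).comp measurable_fst)).enorm).pow_const 2).mul
      (hχm.comp measurable_snd)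
  have hint : ∑' c : XX H, ∫⁻ g in F, ‖P g c - f g c‖ₑ ^ 2 ∂(mu n) ≤ ENNReal.ofReal (1 / 4) := by
    calc ∑' c : XX H, ∫⁻ g in F, ‖P g c - f g c‖ₑ ^ 2 ∂(mu n)
        ≤ ∑' c : XX H, ∫⁻ g in F, ∫⁻ y, ‖f (g * y) c - f g c‖ₑ ^ 2 * ENNReal.ofReal (χ y) ∂(mu n) ∂(mu n) :=
          ENNReal.tsum_le_tsum fun c => lintegral_mono fun g => hdiff g c
      _ = ∑' c : XX H, ∫⁻ y, ∫⁻ g in F, ‖f (g * y) c - f g c‖ₑ ^ 2 * ENNReal.ofReal (χ y) ∂(mu n) ∂(mu n) := by
          refine tsum_congr fun c => ?_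
          exact lintegral_lintegral_swap (hm2 c).aemeasurable
      _ = ∑' c : XX H, ∫⁻ y, (∫⁻ g in F, ‖f (g * y) c - f g c‖ₑ ^ 2 ∂(mu n)) * ENNReal.ofReal (χ y) ∂(mu n) := by
          refine tsum_congr fun c => lintegral_congr fun y => ?_
          refine lintegral_mul_const _ ?_
          exact ((((hfm c).comp (measurable_mul_const y)).sub (hfm c)).enorm).pow_const 2
      _ = ∫⁻ y, ∑' c : XX H, (∫⁻ g in F, ‖f (g * y) c - f g c‖ₑ ^ 2 ∂(mu n)) * ENNReal.ofReal (χ y) ∂(mu n) := by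
          rw [lintegral_tsum fun c => ?_]
          have hm3 : Measurable fun y => ∫⁻ g in F, ‖f (g * y) c - f g c‖ₑ ^ 2 ∂(mu n) := by
            have : Measurable fun p : GR n × GR n => ‖f (p.2 * p.1) c - f p.2 c‖ₑ ^ 2 :=
              ((((hfm c).comp (measurable_snd.mul measurable_fst)).sub
                ((hfm c).comp measurable_snd)).enorm).pow_const 2
            exact this.lintegral_prod_right'
          exact (hm3.mul hχm).aemeasurable
      _ ≤ ∫⁻ y, ENNReal.ofReal (1 / 4) * ENNReal.ofReal (χ y) ∂(mu n) := by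
          refine lintegral_mono fun y => ?_
          simp only
          rw [ENNReal.tsum_mul_right]
          by_cases hy : χ y = 0
          · rw [hy]; simp
          · gcongr
            exact hslow y (hχU y hy)
      _ = ENNReal.ofReal (1 / 4) := by
          rw [lintegral_const_mul _ hχm, hχl, mul_one]
  -- the norm of `f`
  have hnorm : ∑' c : XX H, ∫⁻ g in F, ‖f g c‖ₑ ^ 2 ∂(mu n) = 1 := by
    unfold ip at h1
    have e1 : ∀ c, ∫ g in F, f g c * star (f g c) ∂(mu n) = ((∫ g in F, ‖f g c‖ ^ 2 ∂(mu n) : ℝ) : ℂ) := by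
      intro c
      rw [← integral_complex_ofReal]
      refine integral_congr_ae (.of_forall fun g => ?_)
      simp only
      rw [Complex.star_def, Complex.mul_conj, Complex.normSq_eq_norm_sq]
    simp only [e1] at h1
    rw [tsum_fintype, ← Complex.ofReal_sum] at h1
    have h2 : ∑ c : XX H, ∫ g in F, ‖f g c‖ ^ 2 ∂(mu n) = 1 := by exact_mod_cast h1
    have h3 : ∀ c, Integrable (fun g => ‖f g c‖ ^ 2) ((mu n).restrict F) := by
      intro c
      refine ⟨((hfm c).norm.pow_const 2).aestronglyMeasurable, ?_⟩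
      rw [hasFiniteIntegral_iff_enorm]
      have : ∀ z, ‖‖f z c‖ ^ 2‖ₑ = ‖f z c‖ₑ ^ 2 := fun z => by
        rw [enorm_pow, enorm_norm]
      simp only [this]
      exact hL c
    have h4 : ∀ c, ∫⁻ g in F, ‖f g c‖ₑ ^ 2 ∂(mu n) = ENNReal.ofReal (∫ g in F, ‖f g c‖ ^ 2 ∂(mu n)) := by
      intro c
      rw [ofReal_integral_eq_lintegral_ofReal (h3 c) (.of_forall fun z => by positivity)]
      exact lintegral_congr fun z => enorm_sq_ofReal _
    rw [tsum_fintype]
    simp only [h4]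
    rw [← ENNReal.ofReal_sum_of_nonneg fun c _ => integral_nonneg fun z => by positivity, h2,
      ENNReal.ofReal_one]
  -- conclusion
  set x := ∑' c : XX H, ∫⁻ g in F, ‖P g c‖ₑ ^ 2 ∂(mu n) with hx
  have hle : (1 : ℝ≥0∞) ≤ 2 * x + 2 * ENNReal.ofReal (1 / 4) := by
    rw [← hnorm]
    calc ∑' c : XX H, ∫⁻ g in F, ‖f g c‖ₑ ^ 2 ∂(mu n)
        ≤ ∑' c : XX H, ∫⁻ g in F, (2 * ‖P g c‖ₑ ^ 2 + 2 * ‖P g c - f g c‖ₑ ^ 2) ∂(mu n) :=
          ENNReal.tsum_le_tsum fun c => lintegral_mono fun g => enorm_sq_le_two _ _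
      _ = ∑' c : XX H, (2 * ∫⁻ g in F, ‖P g c‖ₑ ^ 2 ∂(mu n) + 2 * ∫⁻ g in F, ‖P g c - f g c‖ₑ ^ 2 ∂(mu n)) := by
          refine tsum_congr fun c => ?_
          have m1 : Measurable fun g => ‖P g c‖ₑ ^ 2 := (hPm c).enorm.pow_const 2
          have m2 : Measurable fun g => ‖P g c - f g c‖ₑ ^ 2 := ((hPm c).sub (hfm c)).enorm.pow_const 2
          rw [lintegral_add_left (m1.const_mul 2), lintegral_const_mul _ m1, lintegral_const_mul _ m2]
      _ = 2 * x + 2 * ∑' c : XX H, ∫⁻ g in F, ‖P g c - f g c‖ₑ ^ 2 ∂(mu n) := by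
          rw [ENNReal.tsum_add, ENNReal.tsum_mul_left, ENNReal.tsum_mul_left]
      _ ≤ _ := by gcongr
  by_cases hxt : x = ∞
  · rw [hxt]; exact le_top
  · have e1 : x = ENNReal.ofReal x.toReal := (ENNReal.ofReal_toReal hxt).symm
    rw [e1] at hle ⊢
    have e2 : (2 : ℝ≥0∞) = ENNReal.ofReal 2 := by simp
    rw [e2, ← ENNReal.ofReal_mul (by norm_num), ← ENNReal.ofReal_mul (by norm_num),
      ← ENNReal.ofReal_add (by positivity) (by positivity), ← ENNReal.ofReal_one,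
      ENNReal.ofReal_le_ofReal_iff (by positivity)] at hle
    refine ENNReal.ofReal_le_ofReal ?_
    linarith

end Pool.Agent.T2h77.N
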