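import Pool.Agent.T2h77N.Euclid

/-!
# Step PRIM
-/

set_option autoImplicit false

open Matrix
open scoped MatrixGroups

namespace Pool.Agent.T2h77.N

/-- the matrix with first column `(a, c)`, the first row `(a, 0)`, and the block `h` -/
def blk {n : ℕ} (a : ℤ) (c : Fin n → ℤ) (h : Matrix (Fin n) (Fin n) ℤ) : Matrix (Fin (n + 1)) (Fin (n + 1)) ℤ :=
  Matrix.of (Fin.cons (Fin.cons a 0) fun i => Fin.cons (c i) (h i))

@[simp] theorem blk_zz {n : ℕ} (a : ℤ) (c : Fin n → ℤ) (h : Matrix (Fin n) (Fin n) ℤ) : blk a c h 0 0 = a := rfl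

@[simp] theorem blk_zs {n : ℕ} (a : ℤ) (c : Fin n → ℤ) (h : Matrix (Fin n) (Fin n) ℤ) (j : Fin n) :
    blk a c h 0 j.succ = 0 := rfl

@[simp] theorem blk_sz {n : ℕ} (a : ℤ) (c : Fin n → ℤ) (h : Matrix (Fin n) (Fin n) ℤ) (i : Fin n) :
    blk a c h i.succ 0 = c i := rfl

@[simp] theorem blk_ss {n : ℕ} (a : ℤ) (c : Fin n → ℤ) (h : Matrix (Fin n) (Fin n) ℤ) (i j : Fin n) :
    blk a c h i.succ j.succ = h i j := rfl

theorem blk_det {n : ℕ} (a : ℤ) (c : Fin n → ℤ) (h : Matrix (Fin n) (Fin n) ℤ) : (blk a c h).det = a * h.det := by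
  rw [Matrix.det_succ_row_zero, Fin.sum_univ_succ]
  simp only [blk_zs, blk_zz, mul_zero, zero_mul, Finset.sum_const_zero, add_zero, Fin.val_zero, pow_zero, one_mul]
  rfl

theorem prim : S_prim := by
  intro n w φ hw hφ horth
  obtain ⟨g, d, hg⟩ := exists_col (0 : Fin (n + 2)) w
  have hd : d ≠ 0 := by
    rintro rfl
    apply hw
    rw [hg]
    simp
  -- the row vector
  have hφ0 : (φ ᵥ* g.1) 0 = 0 := by
    have h1 : (φ ᵥ* g.1) ⬝ᵥ Pi.single 0 d = 0 := by
      rw [← Matrix.dotProduct_mulVec, ← hg]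
      exact horth
    rw [dotProduct_single] at h1
    exact (mul_eq_zero.mp h1).resolve_right hd
  obtain ⟨h, d', hh⟩ := exists_row (0 : Fin (n + 1)) (fun i => (φ ᵥ* g.1) i.succ)
  set H : Matrix.SpecialLinearGroup (Fin (n + 2)) ℤ := ⟨blk 1 0 h.1, by rw [blk_det, h.2, one_mul]⟩ with hH
  have e1 : φ ᵥ* g.1 = Pi.single 1 d' ᵥ* H.1 := by
    ext i
    rw [Matrix.single_vecMul]
    refine Fin.cases ?_ (fun j => ?_) i
    · rw [hφ0]
      have : H.1 1 0 = 0 := rfl
      simp [this]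
    · have : (φ ᵥ* g.1) j.succ = (Pi.single 0 d' ᵥ* h.1) j := congrFun hh j
      rw [this, Matrix.single_vecMul]
      rfl
  have e2 : H.1 *ᵥ Pi.single 0 d = Pi.single 0 d := by
    ext i
    rw [Matrix.mulVec_single]
    refine Fin.cases ?_ (fun j => ?_) i
    · have : H.1 0 0 = 1 := rfl
      simp [this]
    · have : H.1 j.succ 0 = 0 := rfl
      simp [this]
  have e3 : (H⁻¹).1 *ᵥ Pi.single 0 d = Pi.single 0 d := by
    conv_lhs => rw [← e2]
    rw [Matrix.mulVec_mulVec, ← Matrix.SpecialLinearGroup.coe_mul, inv_mul_cancel,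
      Matrix.SpecialLinearGroup.coe_one, Matrix.one_mulVec]
  set G := g * H⁻¹ with hG
  have w1 : w = G.1 *ᵥ Pi.single 0 d := by
    rw [hG, Matrix.SpecialLinearGroup.coe_mul, ← Matrix.mulVec_mulVec, e3]
    exact hg
  have w2 : φ = Pi.single 1 d' ᵥ* (G⁻¹).1 := by
    have : (G⁻¹) = H * g⁻¹ := by rw [hG]; group
    rw [this, Matrix.SpecialLinearGroup.coe_mul, ← Matrix.vecMul_vecMul, ← e1, Matrix.vecMul_vecMul,
      ← Matrix.SpecialLinearGroup.coe_mul]
    simp
  have hd' : d' ≠ 0 := by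
    rintro rfl
    apply hφ
    rw [w2]
    simp
  refine ⟨G, d * d', mul_ne_zero hd hd', ?_, ?_⟩
  · obtain ⟨i, hi⟩ : ∃ i, w i ≠ 0 := by
      by_contra h
      push Not at h
      exact hw (funext h)
    obtain ⟨j, hj⟩ : ∃ j, φ j ≠ 0 := by
      by_contra h
      push Not at h
      exact hφ (funext h)
    refine ⟨i, j, ?_⟩
    rw [abs_mul]
    have h1 : d ∣ w i := by
      rw [w1, Matrix.mulVec_single]
      exact ⟨G.1 i 0, by simp [mul_comm]⟩
    have h2 : d' ∣ φ j := by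
      rw [w2, Matrix.single_vecMul]
      exact ⟨(G⁻¹).1 1 j, by simp⟩
    have h1' : |d| ≤ |w i| := Int.le_of_dvd (abs_pos.mpr hi) ((abs_dvd_abs _ _).mpr h1)
    have h2' : |d'| ≤ |φ j| := Int.le_of_dvd (abs_pos.mpr hj) ((abs_dvd_abs _ _).mpr h2)
    exact mul_le_mul h1' h2' (abs_nonneg _) (abs_nonneg _)
  · have t1 : (tv (n := n + 2) (A := ℤ) 0 1 (by simp) (d * d')).1 =
        1 + Matrix.vecMulVec (Pi.single 0 d) (Pi.single 1 d') := by
      ext i j
      simp only [tv, Matrix.transvection, Matrix.add_apply, Matrix.vecMulVec_apply, Matrix.single_apply]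
      congr 1
      by_cases hi : i = 0
      · subst hi
        by_cases hj : j = 1
        · subst hj
          simp
        · simp [Ne.symm hj]
      · simp [Ne.symm hi]
    rw [Matrix.SpecialLinearGroup.coe_mul, Matrix.SpecialLinearGroup.coe_mul, t1, Matrix.mul_add, Matrix.add_mul,
      Matrix.mul_vecMulVec, Matrix.vecMulVec_mul, ← w1, ← w2, mul_one, ← Matrix.SpecialLinearGroup.coe_mul]
    simp

end Pool.Agent.T2h77.N
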