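import Pool.Agent.T2h77N.Prim

/-!
# Step REPS: Hermite normal form and the number of orbits
-/

set_option autoImplicit false

open Matrix
open scoped MatrixGroups

noncomputable section

namespace Pool.Agent.T2h77.N

theorem blk_eq {n : ℕ} (M : Matrix (Fin (n + 1)) (Fin (n + 1)) ℤ) (h : ∀ j : Fin n, M 0 j.succ = 0) :
    M = blk (M 0 0) (fun i => M i.succ 0) (Matrix.of fun i j => M i.succ j.succ) := by
  ext i j
  refine Fin.cases ?_ (fun i => ?_) i <;> refine Fin.cases ?_ (fun j => ?_) j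
  · rfl
  · rw [h, blk_zs]
  · rfl
  · rfl

theorem blk_mul {n : ℕ} (a a' : ℤ) (c c' : Fin n → ℤ) (h h' : Matrix (Fin n) (Fin n) ℤ) :
    blk a c h * blk a' c' h' = blk (a * a') (fun i => c i * a' + (h *ᵥ c') i) (h * h') := by
  ext i j
  rw [Matrix.mul_apply, Fin.sum_univ_succ]
  refine Fin.cases ?_ (fun i => ?_) i <;> refine Fin.cases ?_ (fun j => ?_) j
  · simp
  · simp
  · simp [Matrix.mulVec, dotProduct]
  · simp [Matrix.mul_apply]

theorem hnf : ∀ (n : ℕ) (β : Matrix (Fin n) (Fin n) ℤ), β.det ≠ 0 →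
    ∃ γ : Matrix (Fin n) (Fin n) ℤ, IsUnit γ.det ∧ (∀ i j, i < j → (γ * β) i j = 0) ∧
      (∀ i, 0 < (γ * β) i i) ∧ ∀ i j, j < i → 0 ≤ (γ * β) i j ∧ (γ * β) i j < (γ * β) j j := by
  intro n
  induction n with
  | zero =>
    intro β _
    exact ⟨1, by simp, fun i => i.elim0, fun i => i.elim0, fun i => i.elim0⟩
  | succ n ih =>
    intro β hβ
    obtain ⟨g, s, hs⟩ := exists_row (0 : Fin (n + 1)) (β.adjugate 0)
    have h1 : (Pi.single 0 s ᵥ* g.1) ᵥ* β = Pi.single 0 β.det := by
      rw [← hs]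
      ext j
      have := congrFun (congrFun (Matrix.adjugate_mul β) 0) j
      rw [Matrix.mul_apply] at this
      rw [Matrix.vecMul, dotProduct, this, Matrix.smul_apply]
      by_cases hj : j = 0
      · subst hj
        simp
      · simp [Ne.symm hj]
    rw [Matrix.vecMul_vecMul, Matrix.single_vecMul] at h1
    have hs0 : s ≠ 0 := by
      rintro rfl
      apply hβ
      have := congrFun h1 0
      simpa using this.symm
    set M := g.1 * β with hM
    have hM0 : ∀ j : Fin n, M 0 j.succ = 0 := by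
      intro j
      have := congrFun h1 j.succ
      have h2 : s * M 0 j.succ = 0 := by simpa using this
      exact (mul_eq_zero.mp h2).resolve_left hs0
    have hMdet : M.det = β.det := by rw [hM, Matrix.det_mul, g.2, one_mul]
    have hMb := blk_eq M hM0
    set d := M 0 0 with hd
    set c : Fin n → ℤ := fun i => M i.succ 0 with hc
    set B : Matrix (Fin n) (Fin n) ℤ := Matrix.of fun i j => M i.succ j.succ with hB
    have hdet : d * B.det = β.det := by rw [← hMdet, hMb, blk_det]
    have hd0 : d ≠ 0 := fun h => hβ (by rw [← hdet, h, zero_mul])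
    have hB0 : B.det ≠ 0 := fun h => hβ (by rw [← hdet, h, mul_zero])
    obtain ⟨γ', hγ', k1, k2, k3⟩ := ih B hB0
    have hd1 : d.sign * d = |d| := Int.sign_mul_self_eq_abs d
    have hdp : 0 < |d| := abs_pos.mpr hd0
    refine ⟨blk d.sign (fun i => -((γ' *ᵥ c) i / |d|) * d.sign) γ' * g.1, ?_, ?_⟩
    · rw [Matrix.det_mul, g.2, mul_one, blk_det]
      refine IsUnit.mul ?_ hγ'
      rcases lt_or_gt_of_ne hd0 with h | h
      · rw [Int.sign_eq_neg_one_of_neg h]
        exact isUnit_one.neg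
      · rw [Int.sign_eq_one_of_pos h]
        exact isUnit_one
    · rw [Matrix.mul_assoc, ← hM]
      have e : blk d.sign (fun i => -((γ' *ᵥ c) i / |d|) * d.sign) γ' * M =
          blk |d| (fun i => (γ' *ᵥ c) i % |d|) (γ' * B) := by
        rw [hMb, blk_mul, hd1]
        congr 1
        ext i
        have := Int.emod_add_mul_ediv ((γ' *ᵥ c) i) |d|
        calc -((γ' *ᵥ c) i / |d|) * d.sign * d + (γ' *ᵥ c) i
            = -((γ' *ᵥ c) i / |d|) * (d.sign * d) + (γ' *ᵥ c) i := by ring
          _ = (γ' *ᵥ c) i % |d| := by rw [hd1]; linarith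
      rw [e]
      refine ⟨?_, ?_, ?_⟩
      · intro i j
        refine Fin.cases ?_ (fun i => ?_) i <;> refine Fin.cases ?_ (fun j => ?_) j
        · intro h
          exact absurd h (lt_irrefl _)
        · intro _
          rfl
        · intro h
          exact absurd h (not_lt.mpr (Fin.zero_le _))
        · intro h
          exact k1 i j (Fin.succ_lt_succ_iff.mp h)
      · intro i
        refine Fin.cases ?_ (fun i => ?_) i
        · exact hdp
        · exact k2 i
      · intro i j
        refine Fin.cases ?_ (fun i => ?_) i <;> refine Fin.cases ?_ (fun j => ?_) j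
        · intro h
          exact absurd h (lt_irrefl _)
        · intro h
          exact absurd h (not_lt.mpr (Fin.zero_le _))
        · intro _
          exact ⟨Int.emod_nonneg _ hdp.ne', Int.emod_lt_of_pos _ hdp⟩
        · intro h
          exact k3 i j (Fin.succ_lt_succ_iff.mp h)

/-- the allowed entries of the normal forms -/
def ent0 {n : ℕ} (p : ℕ) (l : ℕ) (e : Fin (n + 1) → Fin (l + 1)) (i j : Fin (n + 1)) : Finset ℤ :=
  if i < j then {0} else if i = j then {(p : ℤ) ^ (e j : ℕ)} else Finset.Ico 0 ((p : ℤ) ^ (e j : ℕ))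

/-- the normal forms with given diagonal -/
def nf0 {n : ℕ} (p : ℕ) (l : ℕ) (e : Fin (n + 1) → Fin (l + 1)) : Finset (MZ (n + 1)) :=
  (Fintype.piFinset fun i => Fintype.piFinset fun j => ent0 p l e i j).map Matrix.of.toEmbedding

theorem nf0_card {n : ℕ} (p : ℕ) (hp : 0 < p) (l : ℕ) (e : Fin (n + 1) → Fin (l + 1))
    (he : ∏ j, p ^ (e j : ℕ) = p ^ l) : (nf0 p l e).card ≤ p ^ (l * n) := by
  have h0 : (nf0 p l e).card = ∏ i, ∏ j, (ent0 p l e i j).card := by
    unfold nf0
    rw [Finset.card_map, Fintype.card_piFinset]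
    exact Finset.prod_congr rfl fun i _ => Fintype.card_piFinset _
  rw [h0, Fin.prod_univ_succ]
  have h1 : ∏ j, (ent0 p l e 0 j).card = 1 := by
    apply Finset.prod_eq_one
    intro j _
    unfold ent0
    rcases (Fin.zero_le j).eq_or_lt with h | h
    · subst h
      simp
    · simp [h]
  rw [h1, one_mul, pow_mul]
  have h2 : ∀ i : Fin n, ∏ j, (ent0 p l e i.succ j).card ≤ p ^ l := by
    intro i
    rw [← he]
    apply Finset.prod_le_prod'
    intro j _
    have hpos : 1 ≤ p ^ (e j : ℕ) := Nat.one_le_pow _ _ hp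
    unfold ent0
    split_ifs
    · simpa using hpos
    · simpa using hpos
    · rw [Int.card_Ico]
      have : ((p : ℤ) ^ (e j : ℕ) - 0).toNat = p ^ (e j : ℕ) := by
        rw [sub_zero]
        have : ((p : ℤ) ^ (e j : ℕ)) = ((p ^ (e j : ℕ) : ℕ) : ℤ) := by push_cast; rfl
        rw [this, Int.toNat_natCast]
      rw [this]
  calc ∏ i : Fin n, ∏ j, (ent0 p l e i.succ j).card ≤ ∏ _i : Fin n, p ^ l :=
        Finset.prod_le_prod' fun i _ => h2 i
    _ = (p ^ l) ^ n := by simp

/-- the normal forms -/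
def nfs (n p l : ℕ) : Finset (MZ (n + 1)) :=
  (Finset.univ.filter fun e : Fin (n + 1) → Fin (l + 1) => ∏ j, p ^ (e j : ℕ) = p ^ l).biUnion fun e => nf0 p l e

theorem nfs_card (n p l : ℕ) (hp : 0 < p) : (nfs n p l).card ≤ (l + 1) ^ (n + 1) * p ^ (l * n) := by
  unfold nfs
  refine le_trans Finset.card_biUnion_le ?_
  refine le_trans (Finset.sum_le_card_nsmul _ _ (p ^ (l * n)) ?_) ?_
  · intro e he
    exact nf0_card p hp l e (Finset.mem_filter.mp he).2
  · rw [smul_eq_mul]
    refine Nat.mul_le_mul_right _ ?_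
    refine le_trans (Finset.card_filter_le _ _) ?_
    simp

/-- left equivalence -/
def leq (n : ℕ) : Setoid (MZ (n + 1)) where
  r β β' := ∃ γ : GZ (n + 1), β = (γ : MZ (n + 1)) * β'
  iseqv :=
    { refl := fun β => ⟨1, by simp⟩
      symm := by
        rintro β β' ⟨γ, h⟩
        refine ⟨γ⁻¹, ?_⟩
        rw [h, ← Matrix.mul_assoc, ← Matrix.SpecialLinearGroup.coe_mul, inv_mul_cancel]
        simp
      trans := by
        rintro a b c ⟨γ, h⟩ ⟨γ', h'⟩
        refine ⟨γ * γ', ?_⟩
        rw [h, h', Matrix.SpecialLinearGroup.coe_mul, Matrix.mul_assoc] }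

theorem leq_det {n : ℕ} {β β' : MZ (n + 1)} (h : (leq n).r β β') : β.det = β'.det := by
  obtain ⟨γ, h⟩ := h
  rw [h, Matrix.det_mul, γ.2, one_mul]

theorem exists_nf {n p l : ℕ} (hp : p.Prime) (β : MZ (n + 1)) (hβ : β.det = (p : ℤ) ^ l) :
    ∃ b ∈ nfs n p l, (leq n).r b β := by
  have hpos : (0 : ℤ) < (p : ℤ) ^ l := by
    have := hp.pos
    positivity
  obtain ⟨γ, hγ, h1, h2, h3⟩ := hnf (n + 1) β (by rw [hβ]; exact hpos.ne')
  have hlow : (γ * β).det = ∏ i, (γ * β) i i :=
    Matrix.det_of_isLowerTriangular _ fun i j hij => h1 i j hij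
  have hdpos : 0 < (γ * β).det := by
    rw [hlow]
    exact Finset.prod_pos fun i _ => h2 i
  have hγ1 : γ.det = 1 := by
    rcases Int.isUnit_iff.mp hγ with h | h
    · exact h
    · exfalso
      rw [Matrix.det_mul, h, hβ] at hdpos
      linarith
  have hprod : ∏ i, (γ * β) i i = (p : ℤ) ^ l := by rw [← hlow, Matrix.det_mul, hγ1, one_mul, hβ]
  -- the exponents
  have hex : ∀ i, ∃ e : Fin (l + 1), (γ * β) i i = (p : ℤ) ^ (e : ℕ) := by
    intro i
    have hdvd : (γ * β) i i ∣ (p : ℤ) ^ l := by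
      rw [← hprod]
      exact Finset.dvd_prod_of_mem _ (Finset.mem_univ i)
    have h4 : ((γ * β) i i).natAbs ∣ p ^ l := by
      have := Int.natAbs_dvd_natAbs.mpr hdvd
      rwa [Int.natAbs_pow, Int.natAbs_natCast] at this
    obtain ⟨k, hk, hk'⟩ := (Nat.dvd_prime_pow hp).mp h4
    refine ⟨⟨k, by omega⟩, ?_⟩
    have := h2 i
    have h5 : ((γ * β) i i) = (((γ * β) i i).natAbs : ℤ) := by
      rw [Int.natCast_natAbs, abs_of_pos this]
    rw [h5, hk']
    push_cast
    rfl
  choose e he using hex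
  refine ⟨γ * β, ?_, ⟨⟨γ, hγ1⟩, rfl⟩⟩
  unfold nfs
  rw [Finset.mem_biUnion]
  refine ⟨e, ?_, ?_⟩
  · rw [Finset.mem_filter]
    refine ⟨Finset.mem_univ _, ?_⟩
    have : ((∏ j, p ^ (e j : ℕ) : ℕ) : ℤ) = ((p ^ l : ℕ) : ℤ) := by
      push_cast
      rw [← hprod]
      exact Finset.prod_congr rfl fun i _ => (he i).symm
    exact_mod_cast this
  · unfold nf0
    refine Finset.mem_map.mpr ⟨fun i j => (γ * β) i j, ?_, rfl⟩
    rw [Fintype.mem_piFinset]
    intro i
    rw [Fintype.mem_piFinset]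
    intro j
    unfold ent0
    split_ifs with c1 c2
    · rw [Finset.mem_singleton]
      exact h1 i j c1
    · subst c2
      rw [Finset.mem_singleton]
      exact he i
    · have c3 : j < i := lt_of_le_of_ne (not_lt.mp c1) (Ne.symm c2)
      rw [Finset.mem_Ico, ← he j]
      exact h3 i j c3

theorem reps : S_reps := by
  intro n p l hp
  classical
  have hp0 := hp.pos
  let s : Setoid (MZ (n + 1)) := leq n
  let f : MZ (n + 1) → MZ (n + 1) := fun b => (Quotient.mk s b).out
  have hf : ∀ b, (leq n).r (f b) b := fun b => Quotient.exact (Quotient.out_eq (Quotient.mk s b))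
  have hf' : ∀ b b', (leq n).r b b' → f b = f b' := fun b b' h => by
    have : Quotient.mk s b = Quotient.mk s b' := Quotient.sound h
    simp only [f, this]
  refine ⟨((nfs n p l).filter fun b => b.det = (p : ℤ) ^ l).image f, ⟨?_, ?_⟩, ?_⟩
  · intro β hβ
    obtain ⟨b, hb, rfl⟩ := Finset.mem_image.mp hβ
    rw [leq_det (hf b)]
    exact (Finset.mem_filter.mp hb).2
  · intro β hβ
    obtain ⟨b, hb, hbβ⟩ := exists_nf hp β hβ
    refine ⟨f b, ⟨?_, ?_⟩, ?_⟩
    · refine Finset.mem_image.mpr ⟨b, Finset.mem_filter.mpr ⟨hb, ?_⟩, rfl⟩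
      rw [leq_det hbβ, hβ]
    · exact (leq n).iseqv.symm ((leq n).iseqv.trans (hf b) hbβ)
    · rintro r ⟨hr, hr'⟩
      obtain ⟨b', hb', rfl⟩ := Finset.mem_image.mp hr
      apply hf'
      exact (leq n).iseqv.trans ((leq n).iseqv.symm (hf b')) ((leq n).iseqv.trans
        ((leq n).iseqv.symm hr') ((leq n).iseqv.symm hbβ))
  · refine le_trans Finset.card_image_le (le_trans (Finset.card_filter_le _ _) (nfs_card n p l hp0))

end Pool.Agent.T2h77.N
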