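import Pool.Agent.T2h77N.Mass

/-!
# The trace inequality
-/

set_option autoImplicit false
set_option linter.unusedSectionVars false

open MeasureTheory Matrix
open scoped MatrixGroups ENNReal Topology Pointwise

noncomputable section

namespace Pool.Agent.T2h77.N

/-! ### Compact sets and finiteness -/

theorem isCompact_bdd (n : ℕ) (M : ℝ) : IsCompact {x : GR n | ∀ i j, |x i j| ≤ M} := by
  have h : IsCompact {A : Matrix (Fin n) (Fin n) ℝ | ∀ i j, |A i j| ≤ M} := by
    have h1 : IsCompact (Set.pi Set.univ fun _ : Fin n => Set.pi Set.univ fun _ : Fin n => Set.Icc (-M) M) :=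
      isCompact_univ_pi fun _ => isCompact_univ_pi fun _ => isCompact_Icc
    have e : {A : Matrix (Fin n) (Fin n) ℝ | ∀ i j, |A i j| ≤ M} =
        Set.pi Set.univ fun _ : Fin n => Set.pi Set.univ fun _ : Fin n => Set.Icc (-M) M := by
      ext A
      constructor
      · intro hA i _ j _
        exact abs_le.1 (hA i j)
      · intro hA i j
        exact abs_le.2 (hA i trivial j trivial)
    rw [e]
    exact h1
  exact Matrix.SpecialLinearGroup.isClosedEmbedding_val.isCompact_preimage h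

theorem finite_scl {n : ℕ} {m : ℤ} (hm : 0 < m) {K : Set (GR n)} (hK : IsCompact K) :
    {δ : MZ n | δ.det = m ∧ scl δ ∈ K}.Finite := by
  obtain ⟨B, hB0, hB⟩ := bdd_entries hK
  refine (finite_bdd n ((m : ℝ) ^ (1 / (n : ℝ)) * B)).subset ?_
  rintro δ ⟨h1, h2⟩ i j
  have h3 := hB _ h2 i j
  have hm' : (0 : ℝ) < m := by exact_mod_cast hm
  rw [scl_apply (by rw [h1]; exact hm), h1, abs_mul, abs_of_pos (Real.rpow_pos_of_pos hm' _)] at h3
  have h4 : (m : ℝ) ^ (1 / (n : ℝ)) * (m : ℝ) ^ (-(1 / (n : ℝ))) = 1 := by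
    rw [← Real.rpow_add hm', add_neg_cancel, Real.rpow_zero]
  calc |(δ i j : ℝ)| = (m : ℝ) ^ (1 / (n : ℝ)) * ((m : ℝ) ^ (-(1 / (n : ℝ))) * |(δ i j : ℝ)|) := by
        rw [← mul_assoc, h4, one_mul]
    _ ≤ _ := by
        gcongr

variable {n N : ℕ} [NeZero N] {H : Subgroup (GN n N)}

theorem cs_finite {R : Finset (MZ n)} {m : ℤ} (hm : 0 < m) (M : ℝ) (g : GR n) (c : XX H) :
    (cs H R m M g c).Finite := by
  have h1 : ∀ β : MZ n, IsCompact ((fun h : GR n => scl β * g * h * g⁻¹) '' {x : GR n | ∀ i j, |x i j| ≤ M}) :=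
    fun β => (isCompact_bdd n M).image (by fun_prop)
  have h2 : (⋃ β ∈ R, ({β} : Set (MZ n)) ×ˢ {δ : MZ n | δ.det = m ∧ scl δ ∈
      (fun h : GR n => scl β * g * h * g⁻¹) '' {x : GR n | ∀ i j, |x i j| ≤ M}}).Finite :=
    Set.Finite.biUnion R.finite_toSet fun β _ => (Set.finite_singleton β).prod (finite_scl hm (h1 β))
  refine h2.subset ?_
  rintro ⟨β, δ⟩ ⟨hβ, hδ, _, hM⟩
  simp only [Set.mem_iUnion]
  refine ⟨β, hβ, rfl, hδ, _, hM, ?_⟩
  simp only
  group

/-! ### Sums over the matrices of determinant `m` -/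

/-- the integral matrices of determinant `m` -/
abbrev DM (n : ℕ) (m : ℤ) : Type := {δ : MZ n // δ.det = m}

instance countDM (m : ℤ) : Countable (DM n m) := inferInstance

/-- left multiplication by `SL_n(ℤ)` -/
def lmD {m : ℤ} (γ : GZ n) : DM n m ≃ DM n m where
  toFun δ := ⟨(γ : MZ n) * δ, by rw [Matrix.det_mul, γ.2, one_mul]; exact δ.2⟩
  invFun δ := ⟨((γ⁻¹ : GZ n) : MZ n) * δ, by rw [Matrix.det_mul, (γ⁻¹).2, one_mul]; exact δ.2⟩
  left_inv δ := by
    apply Subtype.ext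
    change ((γ⁻¹ : GZ n) : MZ n) * ((γ : MZ n) * δ) = δ
    rw [← mul_assoc, ← Matrix.SpecialLinearGroup.coe_mul, inv_mul_cancel, Matrix.SpecialLinearGroup.coe_one, one_mul]
  right_inv δ := by
    apply Subtype.ext
    change (γ : MZ n) * (((γ⁻¹ : GZ n) : MZ n) * δ) = δ
    rw [← mul_assoc, ← Matrix.SpecialLinearGroup.coe_mul, mul_inv_cancel, Matrix.SpecialLinearGroup.coe_one, one_mul]

theorem mul_cancel_det {m : ℤ} (hm : m ≠ 0) {β : MZ n} (hβ : β.det = m) {A A' : MZ n} (h : A * β = A' * β) :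
    A = A' := by
  have h1 : A * β * β.adjugate = A' * β * β.adjugate := by rw [h]
  rw [mul_assoc, mul_assoc, Matrix.mul_adjugate, hβ] at h1
  simp only [Matrix.mul_smul, mul_one] at h1
  exact smul_right_injective _ hm h1

/-- every matrix of determinant `m` is uniquely `γ⁻¹ β` -/
theorem tsum_DM {m : ℤ} (hm : 0 < m) {R : Finset (MZ n)} (hR : IsReps m R) (φ : MZ n → ℝ≥0∞) :
    ∑' δ : DM n m, φ δ = ∑ β ∈ R, ∑' γ : GZ n, φ (((γ⁻¹ : GZ n) : MZ n) * β) := by
  let e : R × GZ n ≃ DM n m := Equiv.ofBijective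
    (fun p => ⟨((p.2⁻¹ : GZ n) : MZ n) * p.1, by rw [Matrix.det_mul, (p.2⁻¹).2, one_mul]; exact hR.1 _ p.1.2⟩) (by
    constructor
    · rintro ⟨⟨β, hβ⟩, γ⟩ ⟨⟨β', hβ'⟩, γ'⟩ h
      have h1 : ((γ⁻¹ : GZ n) : MZ n) * β = ((γ'⁻¹ : GZ n) : MZ n) * β' := congrArg Subtype.val h
      have hd : (((γ⁻¹ : GZ n) : MZ n) * β).det = m := by
        rw [Matrix.det_mul, (γ⁻¹).2, one_mul]; exact hR.1 _ hβ
      have h2 := (hR.2 _ hd).unique ⟨hβ, γ⁻¹, rfl⟩ ⟨hβ', γ'⁻¹, h1⟩
      subst h2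
      have h3 : γ⁻¹ = γ'⁻¹ := Subtype.ext (mul_cancel_det hm.ne' (hR.1 _ hβ) h1)
      have h4 : γ = γ' := inv_injective h3
      rw [h4]
    · rintro ⟨δ, hδ⟩
      obtain ⟨β, ⟨hβ, γ, hγ⟩, _⟩ := hR.2 δ hδ
      refine ⟨⟨⟨β, hβ⟩, γ⁻¹⟩, ?_⟩
      apply Subtype.ext
      change ((γ⁻¹⁻¹ : GZ n) : MZ n) * β = δ
      rw [inv_inv, hγ])
  rw [← e.tsum_eq, ENNReal.tsum_prod' (f := fun p : R × GZ n => φ (e p))]
  have h := Finset.tsum_subtype R (fun β => ∑' γ : GZ n, φ (((γ⁻¹ : GZ n) : MZ n) * β))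
  exact h

theorem scl_io_mul {β : MZ n} (h : 0 < β.det) (γ : GZ n) : scl ((γ : MZ n) * β) = io n γ * scl β := by
  rw [scl_mul (by rw [γ.2]; exact one_pos) h, scl_coe]

theorem rdM_io_mul {β : MZ n} (h : IsUnit ((β.det : ℤ) : ZMod N)) (γ : GZ n) :
    rdM N ((γ : MZ n) * β) = rdM N (γ : MZ n) * rdM N β :=
  rdM_mul (isUnit_det_coe N γ) h

/-- unfolding over the system of representatives -/
theorem unfoldR {F : Set (GR n)} (hF : IsFD F) {m : ℤ} (hm : 0 < m) (hmN : IsUnit (m : ZMod N))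
    {R : Finset (MZ n)} (hR : IsReps m R) {V : GR n → XX H → ℝ≥0∞} (hV : ∀ c, Measurable fun x => V x c)
    (hVi : ∀ (γ : GZ n) (x : GR n) (c : XX H), V (io n γ * x) (rdM N (γ : MZ n) • c) = V x c)
    {b : GR n → ℝ≥0∞} (hb : Measurable b) (g : GR n) (c : XX H) :
    ∑ β ∈ R, ∫⁻ y, V (scl β * g * y) (rdM N β • c) * b y ∂(mu n) =
      ∫⁻ x in F, ∑' δ : DM n m, V x (rdM N (δ : MZ n) • c) * b ((scl (δ : MZ n) * g)⁻¹ * x) ∂(mu n) := by
  have h1 : ∀ β ∈ R, ∫⁻ y, V (scl β * g * y) (rdM N β • c) * b y ∂(mu n) =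
      ∫⁻ x in F, ∑' γ : GZ n, V x (rdM N (((γ⁻¹ : GZ n) : MZ n) * β) • c) *
        b ((scl (((γ⁻¹ : GZ n) : MZ n) * β) * g)⁻¹ * x) ∂(mu n) := by
    intro β hβ
    have hdet : 0 < β.det := by rw [hR.1 β hβ]; exact hm
    have hun : IsUnit ((β.det : ℤ) : ZMod N) := by rw [hR.1 β hβ]; exact hmN
    have hm1 : Measurable fun x => V x (rdM N β • c) * b ((scl β * g)⁻¹ * x) :=
      (hV _).mul (hb.comp (measurable_const_mul _))
    have e1 := lintegral_mul_left_eq_self (μ := mu n) (fun x => V x (rdM N β • c) * b ((scl β * g)⁻¹ * x)) (scl β * g)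
    simp only [inv_mul_cancel_left] at e1
    rw [e1, lint_unfold hF hm1]
    refine lintegral_congr fun x => tsum_congr fun γ => ?_
    have hγ := hVi γ⁻¹ (io n γ * x) (rdM N β • c)
    rw [← mul_assoc, ← map_mul, inv_mul_cancel, map_one, one_mul, smul_smul, ← rdM_io_mul hun] at hγ
    rw [← hγ, scl_io_mul hdet]
    congr 2
    rw [map_inv]
    group
  rw [Finset.sum_congr rfl h1]
  have hms : ∀ β : MZ n, Measurable fun x : GR n => ∑' γ : GZ n, V x (rdM N (((γ⁻¹ : GZ n) : MZ n) * β) • c) *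
      b ((scl (((γ⁻¹ : GZ n) : MZ n) * β) * g)⁻¹ * x) := fun β =>
    Measurable.tsum fun γ => (hV _).mul (hb.comp (measurable_const_mul _))
  rw [← lintegral_finsetSum _ fun β _ => hms β]
  refine lintegral_congr fun x => ?_
  exact (tsum_DM hm hR (fun δ => V x (rdM N δ • c) * b ((scl δ * g)⁻¹ * x))).symm

/-- the kernel -/
def PK (H : Subgroup (GN n N)) (m : ℤ) (b : GR n → ℝ≥0∞) (g : GR n) (c : XX H) (x : GR n) (c' : XX H) : ℝ≥0∞ :=
  open Classical in
  ∑' δ : DM n m, if rdM N (δ : MZ n) • c = c' then b ((scl (δ : MZ n) * g)⁻¹ * x) else 0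

theorem measurable_PK {m : ℤ} {b : GR n → ℝ≥0∞} (hb : Measurable b) (g : GR n) (c c' : XX H) :
    Measurable fun x => PK H m b g c x c' := by
  unfold PK
  refine Measurable.tsum fun δ => ?_
  split_ifs
  · exact hb.comp (measurable_const_mul _)
  · exact measurable_const

theorem PK_inv {m : ℤ} (hm : 0 < m) (hmN : IsUnit (m : ZMod N)) {b : GR n → ℝ≥0∞} (g : GR n) (c : XX H)
    (γ : GZ n) (x : GR n) (c' : XX H) :
    PK H m b g c (io n γ * x) (rdM N (γ : MZ n) • c') = PK H m b g c x c' := by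
  unfold PK
  rw [← (lmD γ).tsum_eq]
  refine tsum_congr fun δ => ?_
  have hdet : 0 < (δ : MZ n).det := by rw [δ.2]; exact hm
  have hun : IsUnit (((δ : MZ n).det : ℤ) : ZMod N) := by rw [δ.2]; exact hmN
  have e1 : (lmD γ δ : MZ n) = (γ : MZ n) * δ := rfl
  rw [e1, rdM_io_mul hun, scl_io_mul hdet, mul_smul]
  have e2 : (io n γ * scl (δ : MZ n) * g)⁻¹ * (io n γ * x) = (scl (δ : MZ n) * g)⁻¹ * x := by group
  rw [e2]
  have e3 : (rdM N (γ : MZ n) • rdM N (δ : MZ n) • c = rdM N (γ : MZ n) • c') ↔ (rdM N (δ : MZ n) • c = c') :=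
    smul_left_cancel_iff _
  by_cases h : rdM N (δ : MZ n) • c = c'
  · rw [if_pos (e3.2 h), if_pos h]
  · rw [if_neg (fun h' => h (e3.1 h')), if_neg h]

theorem sum_PK {m : ℤ} {b : GR n → ℝ≥0∞} (g : GR n) (c : XX H) (x : GR n) (v : XX H → ℝ≥0∞) :
    ∑' δ : DM n m, v (rdM N (δ : MZ n) • c) * b ((scl (δ : MZ n) * g)⁻¹ * x) =
      ∑' c' : XX H, v c' * PK H m b g c x c' := by
  classical
  unfold PK
  simp only [← ENNReal.tsum_mul_left]
  rw [ENNReal.tsum_comm]
  refine tsum_congr fun δ => ?_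
  rw [tsum_eq_single (rdM N (δ : MZ n) • c)]
  · rw [if_pos rfl]
  · intro c' hc'
    rw [if_neg hc'.symm, mul_zero]

/-- Cauchy-Schwarz on `F × X` -/
theorem cauchy {F : Set (GR n)} {U P : GR n → XX H → ℝ≥0∞} (hU : ∀ c, Measurable fun x => U x c)
    (hP : ∀ c, Measurable fun x => P x c) :
    (∫⁻ x in F, ∑' c : XX H, U x c * P x c ∂(mu n)) ^ 2 ≤
      (∫⁻ x in F, ∑' c : XX H, U x c ^ 2 ∂(mu n)) * ∫⁻ x in F, ∑' c : XX H, P x c ^ 2 ∂(mu n) := by
  have : Fintype (XX H) := Fintype.ofFinite _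
  simp only [tsum_fintype]
  have hUm : Measurable fun x => ∑ c : XX H, U x c ^ 2 := Finset.measurable_fun_sum _ fun c _ => (hU c).pow_const 2
  have hPm : Measurable fun x => ∑ c : XX H, P x c ^ 2 := Finset.measurable_fun_sum _ fun c _ => (hP c).pow_const 2
  have h1 : ∀ x, ∑ c : XX H, U x c * P x c ≤
      (∑ c : XX H, U x c ^ 2) ^ (1 / 2 : ℝ) * (∑ c : XX H, P x c ^ 2) ^ (1 / 2 : ℝ) := by
    intro x
    have := ENNReal.inner_le_Lp_mul_Lq Finset.univ (fun c => U x c) (fun c => P x c) Real.HolderConjugate.two_two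
    simpa only [ENNReal.rpow_ofNat] using this
  have h3 := ENNReal.lintegral_mul_le_Lp_mul_Lq ((mu n).restrict F) (Real.HolderConjugate.two_two)
    (f := fun x => (∑ c : XX H, U x c ^ 2) ^ (1 / 2 : ℝ)) (g := fun x => (∑ c : XX H, P x c ^ 2) ^ (1 / 2 : ℝ))
    (hUm.pow_const _).aemeasurable (hPm.pow_const _).aemeasurable
  simp only [Pi.mul_apply] at h3
  have e2 : ∀ a : ℝ≥0∞, (a ^ (1 / 2 : ℝ)) ^ (2 : ℝ) = a := fun a => by
    rw [← ENNReal.rpow_mul]; norm_num
  simp only [e2] at h3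
  calc (∫⁻ x in F, ∑ c : XX H, U x c * P x c ∂(mu n)) ^ 2
      ≤ ((∫⁻ x in F, ∑ c : XX H, U x c ^ 2 ∂(mu n)) ^ (1 / 2 : ℝ) *
          (∫⁻ x in F, ∑ c : XX H, P x c ^ 2 ∂(mu n)) ^ (1 / 2 : ℝ)) ^ 2 := by
        gcongr
        exact (lintegral_mono h1).trans h3
    _ = _ := by
        rw [mul_pow, ← ENNReal.rpow_natCast, ← ENNReal.rpow_natCast, ← ENNReal.rpow_mul,
          ← ENNReal.rpow_mul]
        norm_num

/-- the bound for the kernel, for a nonnegative function `b` supported on `K` and bounded by `B` -/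
theorem PK_sq {F : Set (GR n)} (hF : IsFD F) {m : ℤ} (hm : 0 < m) (hmN : IsUnit (m : ZMod N))
    {R : Finset (MZ n)} (hR : IsReps m R) {b : GR n → ℝ≥0∞} (hb : Measurable b) {K : Set (GR n)}
    (hK : MeasurableSet K) {B : ℝ≥0∞} (hbK : ∀ y, y ∉ K → b y = 0) (hbB : ∀ y, b y ≤ B) {M : ℝ}
    (hM : ∀ h ∈ K * K⁻¹, ∀ i j, |h i j| ≤ M) (g : GR n) (c : XX H) :
    ∫⁻ x in F, ∑' c' : XX H, PK H m b g c x c' ^ 2 ∂(mu n) ≤
      (Nat.card (cs H R m M g c) : ℝ≥0∞) * (B ^ 2 * mu n K) := by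
  classical
  have hfin : (cs H R m M g c).Finite := cs_finite hm M g c
  have e1 : ∫⁻ x in F, ∑' c' : XX H, PK H m b g c x c' ^ 2 ∂(mu n) =
      ∑ β ∈ R, ∫⁻ y, PK H m b g c (scl β * g * y) (rdM N β • c) * b y ∂(mu n) := by
    rw [unfoldR hF hm hmN hR (V := PK H m b g c) (measurable_PK hb g c) (PK_inv hm hmN g c) hb g c]
    refine lintegral_congr fun x => ?_
    rw [sum_PK g c x (fun c' => PK H m b g c x c')]
    exact tsum_congr fun c' => sq _
  rw [e1]
  set κ : ℝ≥0∞ := B ^ 2 * mu n K with hκ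
  have h2 : ∀ β ∈ R, ∫⁻ y, PK H m b g c (scl β * g * y) (rdM N β • c) * b y ∂(mu n) ≤
      ∑' δ : DM n m, (cs H R m M g c).indicator (fun _ => κ) (β, (δ : MZ n)) := by
    intro β hβ
    have e2 : ∀ y, PK H m b g c (scl β * g * y) (rdM N β • c) * b y =
        ∑' δ : DM n m, (if rdM N (δ : MZ n) • c = rdM N β • c then
          b ((scl (δ : MZ n) * g)⁻¹ * (scl β * g * y)) else 0) * b y := by
      intro y
      unfold PK
      rw [ENNReal.tsum_mul_right]
    simp only [e2]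
    rw [lintegral_tsum]
    · refine ENNReal.tsum_le_tsum fun δ => ?_
      by_cases h3 : rdM N (δ : MZ n) • c = rdM N β • c
      · simp only [if_pos h3]
        by_cases h4 : ∃ y ∈ K, (scl (δ : MZ n) * g)⁻¹ * (scl β * g * y) ∈ K
        · obtain ⟨y, hy1, hy2⟩ := h4
          have h5 : (β, (δ : MZ n)) ∈ cs H R m M g c := by
            refine ⟨hβ, δ.2, h3.symm, ?_⟩
            refine hM _ ⟨y, hy1, _, Set.inv_mem_inv.2 hy2, ?_⟩
            simp only
            group
          rw [Set.indicator_of_mem h5]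
          calc ∫⁻ y, b ((scl (δ : MZ n) * g)⁻¹ * (scl β * g * y)) * b y ∂(mu n)
              ≤ ∫⁻ y, K.indicator (fun _ => B ^ 2) y ∂(mu n) := by
                refine lintegral_mono fun y => ?_
                by_cases hy : y ∈ K
                · rw [Set.indicator_of_mem hy, sq]
                  exact mul_le_mul' (hbB _) (hbB _)
                · rw [hbK y hy, mul_zero]
                  exact bot_le
            _ = κ := by
                rw [lintegral_indicator hK, lintegral_const, Measure.restrict_apply_univ]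
        · have h5 : ∀ y, b ((scl (δ : MZ n) * g)⁻¹ * (scl β * g * y)) * b y = 0 := by
            intro y
            by_cases hy : y ∈ K
            · rw [hbK _ (fun h => h4 ⟨y, hy, h⟩), zero_mul]
            · rw [hbK y hy, mul_zero]
          simp only [h5, lintegral_zero]
          exact bot_le
      · simp only [if_neg h3, zero_mul, lintegral_zero]
        exact bot_le
    · intro δ
      refine Measurable.aemeasurable ?_
      refine Measurable.mul ?_ hb
      split_ifs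
      · exact hb.comp (by fun_prop)
      · exact measurable_const
  calc ∑ β ∈ R, ∫⁻ y, PK H m b g c (scl β * g * y) (rdM N β • c) * b y ∂(mu n)
      ≤ ∑ β ∈ R, ∑' δ : DM n m, (cs H R m M g c).indicator (fun _ => κ) (β, (δ : MZ n)) :=
        Finset.sum_le_sum h2
    _ ≤ ∑' β : MZ n, ∑' δ : DM n m, (cs H R m M g c).indicator (fun _ => κ) (β, (δ : MZ n)) :=
        ENNReal.sum_le_tsum R
    _ ≤ ∑' β : MZ n, ∑' δ : MZ n, (cs H R m M g c).indicator (fun _ => κ) (β, δ) :=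
        ENNReal.tsum_le_tsum fun β =>
          ENNReal.tsum_comp_le_tsum_of_injective Subtype.val_injective
            (fun δ : MZ n => (cs H R m M g c).indicator (fun _ => κ) (β, δ))
    _ = ∑' q : MZ n × MZ n, (cs H R m M g c).indicator (fun _ => κ) q := ENNReal.tsum_prod.symm
    _ = ∑' q : cs H R m M g c, κ := (tsum_subtype (cs H R m M g c) fun _ => κ).symm
    _ = (Nat.card (cs H R m M g c) : ℝ≥0∞) * κ := by
        have : Fintype (cs H R m M g c) := hfin.fintype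
        rw [tsum_fintype, Finset.sum_const, nsmul_eq_mul, Nat.card_eq_fintype_card, Finset.card_univ]

/-- the pointwise bound -/
theorem besselN {F : Set (GR n)} (hF : IsFD F) {m : ℤ} (hm : 0 < m) (hmN : IsUnit (m : ZMod N))
    {R : Finset (MZ n)} (hR : IsReps m R) {b : GR n → ℝ≥0∞} (hb : Measurable b) {K : Set (GR n)}
    (hK : MeasurableSet K) {B : ℝ≥0∞} (hbK : ∀ y, y ∉ K → b y = 0) (hbB : ∀ y, b y ≤ B) {M : ℝ}
    (hM : ∀ h ∈ K * K⁻¹, ∀ i j, |h i j| ≤ M) {U : GR n → XX H → ℝ≥0∞} (hU : ∀ c, Measurable fun x => U x c)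
    (hUi : ∀ (γ : GZ n) (x : GR n) (c : XX H), U (io n γ * x) (rdM N (γ : MZ n) • c) = U x c)
    (g : GR n) (c : XX H) :
    (∑ β ∈ R, ∫⁻ y, U (scl β * g * y) (rdM N β • c) * b y ∂(mu n)) ^ 2 ≤
      ((Nat.card (cs H R m M g c) : ℝ≥0∞) * (B ^ 2 * mu n K)) * ∫⁻ x in F, ∑' c : XX H, U x c ^ 2 ∂(mu n) := by
  rw [unfoldR hF hm hmN hR hU hUi hb g c]
  rw [lintegral_congr fun x => sum_PK g c x (U x)]
  refine (cauchy hU (measurable_PK hb g c)).trans ?_
  rw [mul_comm]
  gcongr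
  exact PK_sq hF hm hmN hR hb hK hbK hbB hM g c

/-! ### Orthonormal families -/

theorem integrable_pair {F : Set (GR n)} {f f' : GR n → XX H → ℂ} (hf : IsForm H f) (hf' : IsForm H f')
    (hL : IsL2 F f) (hL' : IsL2 F f') (c : XX H) :
    Integrable (fun g => f g c * star (f' g c)) ((mu n).restrict F) := by
  refine ⟨((hf.measurable c).mul (Complex.continuous_conj.measurable.comp (hf'.measurable c))).aestronglyMeasurable, ?_⟩
  rw [hasFiniteIntegral_iff_enorm]
  have h1 : ∀ g, ‖f g c * star (f' g c)‖ₑ ≤ ‖f g c‖ₑ ^ 2 + ‖f' g c‖ₑ ^ 2 := by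
    intro g
    have h : ‖f g c * star (f' g c)‖ ≤ ‖f g c‖ ^ 2 + ‖f' g c‖ ^ 2 := by
      rw [norm_mul, norm_star]
      nlinarith [sq_nonneg (‖f g c‖ - ‖f' g c‖), norm_nonneg (f g c), norm_nonneg (f' g c),
        sq_nonneg ‖f g c‖, sq_nonneg ‖f' g c‖]
    rw [enorm_sq_ofReal, enorm_sq_ofReal, ← ENNReal.ofReal_add (by positivity) (by positivity), ← ofReal_norm]
    exact ENNReal.ofReal_le_ofReal h
  refine lt_of_le_of_lt (lintegral_mono h1) ?_
  rw [lintegral_add_left ((hf.measurable c).enorm.pow_const 2)]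
  exact ENNReal.add_lt_top.2 ⟨hL c, hL' c⟩

/-- linear combinations -/
def comb {k : ℕ} (a : Fin k → ℂ) (f : Fin k → GR n → XX H → ℂ) (g : GR n) (c : XX H) : ℂ := ∑ i, a i * f i g c

theorem isForm_comb {k : ℕ} (a : Fin k → ℂ) {f : Fin k → GR n → XX H → ℂ} (hf : ∀ i, IsForm H (f i)) :
    IsForm H (comb a f) := by
  refine ⟨fun c => Finset.measurable_fun_sum _ fun i _ => ((hf i).measurable c).const_mul _, fun γ g c => ?_⟩
  unfold comb
  simp only [(hf _).invariant]

theorem norm_comb {F : Set (GR n)} {k : ℕ} (a : Fin k → ℂ) {f : Fin k → GR n → XX H → ℂ}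
    (hf : ∀ i, IsForm H (f i)) (hL : ∀ i, IsL2 F (f i)) (ho : ∀ i j, ip F (f i) (f j) = if i = j then 1 else 0) :
    ∫⁻ x in F, ∑' c : XX H, ‖comb a f x c‖ₑ ^ 2 ∂(mu n) = ENNReal.ofReal (∑ i, ‖a i‖ ^ 2) := by
  have : Fintype (XX H) := Fintype.ofFinite _
  have hu := isForm_comb a hf
  -- the complex integral
  have h1 : ∀ c, ∀ g, ((‖comb a f g c‖ ^ 2 : ℝ) : ℂ) =
      ∑ i, ∑ j, (a i * star (a j)) * (f i g c * star (f j g c)) := by
    intro c g
    have e : ((‖comb a f g c‖ ^ 2 : ℝ) : ℂ) = comb a f g c * star (comb a f g c) := by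
      rw [Complex.star_def, Complex.mul_conj, Complex.normSq_eq_norm_sq]
    rw [e]
    unfold comb
    rw [star_sum, Finset.sum_mul_sum]
    refine Finset.sum_congr rfl fun i _ => Finset.sum_congr rfl fun j _ => ?_
    rw [star_mul']
    ring
  have hint : ∀ c i j, Integrable (fun g => (a i * star (a j)) * (f i g c * star (f j g c))) ((mu n).restrict F) :=
    fun c i j => (integrable_pair (hf i) (hf j) (hL i) (hL j) c).const_mul _
  have hintc : ∀ c, Integrable (fun g => ((‖comb a f g c‖ ^ 2 : ℝ) : ℂ)) ((mu n).restrict F) := by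
    intro c
    simp only [h1 c]
    exact integrable_finsetSum _ fun i _ => integrable_finsetSum _ fun j _ => hint c i j
  have hintr : ∀ c, Integrable (fun g => ‖comb a f g c‖ ^ 2) ((mu n).restrict F) := by
    intro c
    have := (hintc c).re
    exact this.congr (.of_forall fun g => Complex.ofReal_re _)
  have h2 : ∑ c : XX H, ((∫ g in F, ‖comb a f g c‖ ^ 2 ∂(mu n) : ℝ) : ℂ) = ∑ i, (((‖a i‖ ^ 2 : ℝ)) : ℂ) := by
    have e1 : ∀ c : XX H, ((∫ g in F, ‖comb a f g c‖ ^ 2 ∂(mu n) : ℝ) : ℂ) =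
        ∑ i, ∑ j, (a i * star (a j)) * ∫ g in F, f i g c * star (f j g c) ∂(mu n) := by
      intro c
      rw [← integral_complex_ofReal]
      simp only [h1 c]
      rw [integral_finsetSum _ fun i _ => integrable_finsetSum _ fun j _ => hint c i j]
      refine Finset.sum_congr rfl fun i _ => ?_
      rw [integral_finsetSum _ fun j _ => hint c i j]
      refine Finset.sum_congr rfl fun j _ => ?_
      rw [integral_const_mul]
    simp only [e1]
    rw [Finset.sum_comm]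
    refine Finset.sum_congr rfl fun i _ => ?_
    rw [Finset.sum_comm]
    have e2 : ∀ j, ∑ c : XX H, (a i * star (a j)) * ∫ g in F, f i g c * star (f j g c) ∂(mu n) =
        (a i * star (a j)) * (if i = j then 1 else 0) := by
      intro j
      rw [← Finset.mul_sum]
      congr 1
      rw [← ho i j]
      unfold ip
      rw [tsum_fintype]
    simp only [e2, mul_ite, mul_one, mul_zero, Finset.sum_ite_eq, Finset.mem_univ, if_true]
    rw [Complex.star_def, Complex.mul_conj, Complex.normSq_eq_norm_sq]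
  have h3 : ∑ c : XX H, ∫ g in F, ‖comb a f g c‖ ^ 2 ∂(mu n) = ∑ i, ‖a i‖ ^ 2 := by
    rw [← Complex.ofReal_sum, ← Complex.ofReal_sum] at h2
    exact_mod_cast h2
  have h4 : ∀ c, ∫⁻ g in F, ‖comb a f g c‖ₑ ^ 2 ∂(mu n) = ENNReal.ofReal (∫ g in F, ‖comb a f g c‖ ^ 2 ∂(mu n)) := by
    intro c
    rw [ofReal_integral_eq_lintegral_ofReal (hintr c) (.of_forall fun z => by positivity)]
    exact lintegral_congr fun z => enorm_sq_ofReal _
  rw [lintegral_tsum fun c => ((hu.measurable c).enorm.pow_const 2).aemeasurable, tsum_fintype]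
  simp only [h4]
  rw [← ENNReal.ofReal_sum_of_nonneg fun c _ => integral_nonneg fun z => by positivity, h3]

/-- TRACE -/
theorem trace : S_trace := by
  intro n χ hχ hχc
  obtain ⟨B, hB⟩ := hχ.bounded_above_of_compact_support hχc
  have hK : IsCompact (tsupport χ) := hχc.isCompact
  have hKm : MeasurableSet (tsupport χ) := hK.measurableSet
  obtain ⟨M, _, hM⟩ := bdd_entries (hK.mul hK.inv)
  have hB0 : 0 ≤ B := (norm_nonneg _).trans (hB 1)
  refine ⟨M, B ^ 2 * (mu n (tsupport χ)).toReal + 1, by positivity, ?_⟩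
  intro N _ H F hF k f hf hL ho m R hm hmN hR g c
  refine ⟨cs_finite hm M g c, ?_⟩
  set w : Fin k → ℂ := fun i => ∑ β ∈ R, Rc χ (f i) (scl β * g) (rdM N β • c) with hw
  set a : Fin k → ℂ := fun i => star (w i) with ha
  set S : ℝ := ∑ i, ‖a i‖ ^ 2 with hS
  have hS0 : 0 ≤ S := Finset.sum_nonneg fun i _ => by positivity
  have haw : ∀ i, ‖a i‖ = ‖w i‖ := fun i => norm_star _
  have hLHS : ∑ i, ‖w i‖ₑ ^ 2 = ENNReal.ofReal S := by
    rw [hS, ENNReal.ofReal_sum_of_nonneg fun i _ => by positivity]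
    exact Finset.sum_congr rfl fun i _ => by rw [haw, enorm_sq_ofReal]
  have hu := isForm_comb a hf
  -- the value of the operator on the combination
  have hval : (S : ℂ) = ∑ β ∈ R, ∫ y, comb a f (scl β * g * y) (rdM N β • c) * (χ y : ℂ) ∂(mu n) := by
    have e1 : ∀ β ∈ R, ∫ y, comb a f (scl β * g * y) (rdM N β • c) * (χ y : ℂ) ∂(mu n) =
        ∑ i, a i * Rc χ (f i) (scl β * g) (rdM N β • c) := by
      intro β _
      unfold comb Rc
      have e2 : ∀ y, (∑ i, a i * f i (scl β * g * y) (rdM N β • c)) * (χ y : ℂ) =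
          ∑ i, a i * (f i (scl β * g * y) (rdM N β • c) * (χ y : ℂ)) := by
        intro y
        rw [Finset.sum_mul]
        exact Finset.sum_congr rfl fun i _ => mul_assoc _ _ _
      simp only [e2]
      rw [integral_finsetSum _ fun i _ => (integrable_Rc hF (hf i) (hL i) hχ hχc (scl β * g) (rdM N β • c)).const_mul _]
      exact Finset.sum_congr rfl fun i _ => integral_const_mul _ _
    rw [Finset.sum_congr rfl e1, Finset.sum_comm, hS, Complex.ofReal_sum]
    refine Finset.sum_congr rfl fun i _ => ?_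
    rw [← Finset.mul_sum, haw i]
    change _ = star (w i) * w i
    rw [mul_comm, Complex.star_def, Complex.mul_conj, Complex.normSq_eq_norm_sq]
  set b : GR n → ℝ≥0∞ := fun y => ‖χ y‖ₑ with hb
  have hbm : Measurable b := hχ.measurable.enorm
  have hle : ENNReal.ofReal S ≤ ∑ β ∈ R, ∫⁻ y, ‖comb a f (scl β * g * y) (rdM N β • c)‖ₑ * b y ∂(mu n) := by
    have e1 : ENNReal.ofReal S = ‖(S : ℂ)‖ₑ := by
      rw [← ofReal_norm, Complex.norm_real, Real.norm_of_nonneg hS0]
    rw [e1, hval]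
    refine (enorm_sum_le _ _).trans (Finset.sum_le_sum fun β _ => ?_)
    refine (enorm_integral_le_lintegral_enorm _).trans_eq (lintegral_congr fun y => ?_)
    rw [enorm_mul]
    congr 1
    rw [hb, ← ofReal_norm, Complex.norm_real, ofReal_norm]
  have hkey := besselN hF hm hmN hR hbm hKm (B := ENNReal.ofReal B) (b := b)
    (fun y hy => by rw [hb]; simp [image_eq_zero_of_notMem_tsupport hy])
    (fun y => by rw [hb]; simp only; rw [← ofReal_norm]; exact ENNReal.ofReal_le_ofReal (hB y)) hM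
    (U := fun x c => ‖comb a f x c‖ₑ) (fun c => (hu.measurable c).enorm)
    (fun γ x c => congrArg (fun z : ℂ => ‖z‖ₑ) (hu.invariant γ x c)) g c
  rw [norm_comb a hf hL ho] at hkey
  have hmain : ENNReal.ofReal S ≤ (Nat.card (cs H R m M g c) : ℝ≥0∞) * (ENNReal.ofReal B ^ 2 * mu n (tsupport χ)) := by
    by_cases h0 : ENNReal.ofReal S = 0
    · rw [h0]; exact bot_le
    · have h3 : ENNReal.ofReal S * ENNReal.ofReal S ≤
          ((Nat.card (cs H R m M g c) : ℝ≥0∞) * (ENNReal.ofReal B ^ 2 * mu n (tsupport χ))) * ENNReal.ofReal S := by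
        refine le_trans ?_ hkey
        rw [← sq]
        gcongr
      exact (ENNReal.mul_le_mul_iff_left h0 ENNReal.ofReal_ne_top).mp h3
  rw [hLHS]
  refine hmain.trans ?_
  have e1 : mu n (tsupport χ) = ENNReal.ofReal (mu n (tsupport χ)).toReal :=
    (ENNReal.ofReal_toReal hK.measure_lt_top.ne).symm
  rw [e1, ← ENNReal.ofReal_pow hB0, ← ENNReal.ofReal_mul (by positivity), ← ENNReal.ofReal_natCast,
    ← ENNReal.ofReal_mul (by positivity)]
  refine ENNReal.ofReal_le_ofReal ?_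
  rw [ENNReal.toReal_ofReal (by positivity), mul_comm]
  gcongr
  linarith

end Pool.Agent.T2h77.N
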