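import Pool.Agent.T2h77N.Stm

/-!
# `SL_n(ℝ)` is unimodular
-/

set_option autoImplicit false

open MeasureTheory Matrix
open scoped MatrixGroups ENNReal NNReal

noncomputable section

namespace Pool.Agent.T2h77.N

namespace UniPkg

open Matrix.SpecialLinearGroup

variable {n : ℕ}

lemma diag_transv {i j : Fin n} (hij : i ≠ j) (x : ℝ) :
    diag2n hij (2 : ℝ) two_ne_zero * transvection hij x =
      transvection hij (4 * x) * diag2n hij (2 : ℝ) two_ne_zero := by
  apply Subtype.ext
  change (diag2n hij (2 : ℝ) two_ne_zero).1 * (transvection hij x).1 =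
    (transvection hij (4 * x)).1 * (diag2n hij (2 : ℝ) two_ne_zero).1
  rw [diag2n_coe, transvection_coe, transvection_coe]
  ext a b
  rw [Matrix.diagonal_mul, Matrix.mul_diagonal]
  simp only [Matrix.add_apply, Matrix.one_apply, Matrix.single_apply]
  split_ifs with h1 h2 h3 h4 h5 h6 h7 h8 h9 h10 h11 h12 h13 <;> first | (exfalso; grind) | (simp; try ring)

lemma transv_prod {i j : Fin n} (hij : i ≠ j) (a : ℝ) (ha : a ≠ 0) :
    diag2n hij a ha = transvection hij a * transvection hij.symm (-a⁻¹) * transvection hij a *
      (transvection hij (-1) * transvection hij.symm 1 * transvection hij (-1)) := by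
  apply Subtype.ext
  have e1 : Matrix.single i j a * Matrix.single j i (-a⁻¹) = Matrix.single i i (-1 : ℝ) := by
    rw [Matrix.single_mul_single_same]; congr 1; field_simp
  have h0 : ∀ b : ℝ, (transvection hij b).1 * (transvection hij.symm (-b⁻¹)).1 * (transvection hij b).1 =
      if b = 0 then 1 else 1 - Matrix.single i i (1 : ℝ) - Matrix.single j j 1 + Matrix.single i j b +
        Matrix.single j i (-b⁻¹) := by
    intro b
    split_ifs with hb
    · subst hb
      simp
    · rw [transvection_coe, transvection_coe]
      simp only [mul_add, add_mul, one_mul, mul_one, Matrix.single_mul_single_same,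
        Matrix.single_mul_single_of_ne _ _ _ _ hij, Matrix.single_mul_single_of_ne _ _ _ _ hij.symm]
      have h1 : b * -b⁻¹ = -1 := by field_simp
      have h2 : -b⁻¹ * b = -1 := by field_simp
      have h3 : b * -b⁻¹ * b = -b := by field_simp
      simp only [h1, h2, neg_mul, one_mul]
      simp only [← Matrix.single_neg]
      abel
  have h1 := h0 a
  have h2 := h0 (-1)
  rw [if_neg ha] at h1
  rw [if_neg (by norm_num), show -(-1 : ℝ)⁻¹ = 1 by norm_num] at h2
  change (diag2n hij a ha).1 = ((transvection hij a).1 * (transvection hij.symm (-a⁻¹)).1 * (transvection hij a).1) *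
      ((transvection hij (-1)).1 * (transvection hij.symm 1).1 * (transvection hij (-1)).1)
  rw [h1, h2, diag2n_coe]
  simp only [mul_add, add_mul, mul_sub, sub_mul, one_mul, mul_one, Matrix.single_mul_single_same,
    Matrix.single_mul_single_of_ne _ _ _ _ hij, Matrix.single_mul_single_of_ne _ _ _ _ hij.symm]
  ext x y
  simp only [Matrix.diagonal_apply, Matrix.add_apply, Matrix.sub_apply, Matrix.one_apply, Matrix.single_apply,
    Matrix.zero_apply]
  grind

lemma hom_trivial [Nontrivial (Fin n)] (χ : GR n →* ℝ≥0) (g : GR n) : χ g = 1 := by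
  have hT : ∀ (i j : Fin n) (hij : i ≠ j) (x : ℝ), χ (transvection hij x) = 1 := by
    intro i j hij x
    have h1 := congrArg χ (diag_transv hij (x / 3))
    rw [map_mul, map_mul] at h1
    have hne : χ (diag2n hij (2 : ℝ) two_ne_zero) ≠ 0 := by
      intro h
      have := map_mul χ (diag2n hij (2 : ℝ) two_ne_zero) (diag2n hij (2 : ℝ) two_ne_zero)⁻¹
      rw [mul_inv_cancel, map_one, h, zero_mul] at this
      exact one_ne_zero this
    have hne2 : χ (transvection hij (x / 3)) ≠ 0 := by
      intro h
      have := map_mul χ (transvection hij (x / 3)) (transvection hij (x / 3))⁻¹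
      rw [mul_inv_cancel, map_one, h, zero_mul] at this
      exact one_ne_zero this
    have h2 : transvection hij (4 * (x / 3)) = transvection hij x * transvection hij (x / 3) := by
      rw [← transvection_add]; congr 1; ring
    rw [h2, map_mul, mul_comm] at h1
    have h3 := mul_right_cancel₀ hne h1
    have h4 : 1 * χ (transvection hij (x / 3)) = χ (transvection hij x) * χ (transvection hij (x / 3)) := by
      rw [one_mul]; exact h3
    exact (mul_right_cancel₀ hne2 h4).symm
  refine diagonal_transvection_induction' (fun g => χ g = 1) g ?_ hT ?_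
  · intro i j hij c hc
    rw [transv_prod hij c hc]
    simp only [map_mul, hT, mul_one]
  · intro A B hA hB
    rw [map_mul, hA, hB, one_mul]

end UniPkg

instance uniPkgHaarMu (n : ℕ) : (mu n).IsHaarMeasure :=
  inferInstanceAs (Measure.haar : Measure (GR n)).IsHaarMeasure

instance uniPkgSigmaFiniteMu (n : ℕ) : SigmaFinite (mu n) :=
  inferInstanceAs (SigmaFinite (Measure.haar : Measure (GR n)))

instance uniPkgRegularMu (n : ℕ) : (mu n).Regular :=
  inferInstanceAs (Measure.haar : Measure (GR n)).Regular

open Measure in
/-- UNI -/
theorem unimod : S_unimod := by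
  intro n
  refine ⟨fun g => ?_⟩
  have h := map_right_mul_eq_modularCharacterFun_smul (mu n) g
  have h1 : modularCharacterFun g = 1 := by
    rcases subsingleton_or_nontrivial (Fin n) with hs | hs
    · have : g = 1 := by
        apply Subtype.ext
        have hd := g.2
        ext i j
        obtain rfl : i = j := Subsingleton.elim _ _
        have : Unique (Fin n) := ⟨⟨i⟩, fun a => Subsingleton.elim _ _⟩
        rw [Matrix.det_unique] at hd
        have e : (default : Fin n) = i := Subsingleton.elim _ _
        rw [e] at hd
        rw [hd]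
        simp
      rw [this]
      exact modularCharacterFun_map_one
    · exact UniPkg.hom_trivial (modularCharacter : GR n →* NNReal) g
  rw [h1, one_smul] at h
  exact h

end Pool.Agent.T2h77.N
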