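import Pool.Agent.T2h77N.Stm2

/-!
# The Gram-Schmidt norms of a Gaussian matrix are independent: `S_bart`
-/

set_option autoImplicit false

open MeasureTheory Measure Metric Set Module
open scoped ENNReal Topology

noncomputable section

namespace Pool.Agent.T2h77.N.Ba

/-! ### Radial integrals -/

theorem lintegral_norm {E : Type} [NormedAddCommGroup E] [NormedSpace ℝ E] [Nontrivial E] [FiniteDimensional ℝ E]
    [MeasurableSpace E] [BorelSpace E] (μ : Measure E) [μ.IsAddHaarMeasure] (f : ℝ → ℝ≥0∞) (hf : Measurable f) :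
    ∫⁻ x, f ‖x‖ ∂μ = (finrank ℝ E : ℝ≥0∞) * μ (ball 0 1) *
      ∫⁻ y in Ioi (0 : ℝ), ENNReal.ofReal (y ^ (finrank ℝ E - 1)) * f y := by
  calc ∫⁻ x, f ‖x‖ ∂μ = ∫⁻ x : ({(0)}ᶜ : Set E), f ‖x.1‖ ∂(μ.comap (↑)) := by
        rw [lintegral_subtype_comap (measurableSet_singleton _).compl fun x : E => f (‖x‖),
          restrict_compl_singleton]
    _ = ∫⁻ x, f x.2 ∂μ.toSphere.prod (.volumeIoiPow (finrank ℝ E - 1)) := by
        have h := μ.measurePreserving_homeomorphUnitSphereProd.lintegral_comp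
          (f := fun x : sphere (0 : E) 1 × Ioi (0 : ℝ) => f x.2) (by fun_prop)
        rw [← h]
        refine lintegral_congr fun a => ?_
        rw [homeomorphUnitSphereProd_apply_snd_coe]
    _ = μ.toSphere univ * ∫⁻ x : Ioi (0 : ℝ), f x ∂.volumeIoiPow (finrank ℝ E - 1) := by
        rw [lintegral_prod _ (by fun_prop)]
        simp only [lintegral_const, mul_comm]
    _ = _ := by
        have h2 : ∫⁻ x : Ioi (0 : ℝ), f x ∂.volumeIoiPow (finrank ℝ E - 1) =
            ∫⁻ y in Ioi (0 : ℝ), ENNReal.ofReal (y ^ (finrank ℝ E - 1)) * f y := by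
          unfold volumeIoiPow
          rw [lintegral_withDensity_eq_lintegral_mul _ (by fun_prop) (by fun_prop)]
          exact lintegral_subtype_comap (μ := volume) measurableSet_Ioi
            fun y : ℝ => ENNReal.ofReal (y ^ (finrank ℝ E - 1)) * f y
        rw [μ.toSphere_apply_univ, h2]

/-- the volume of the unit ball -/
def vb (k : ℕ) : ℝ≥0∞ := ENNReal.ofReal (√Real.pi ^ k / Real.Gamma (k / 2 + 1))

theorem vb_eq (E : Type) [NormedAddCommGroup E] [InnerProductSpace ℝ E] [Nontrivial E] [FiniteDimensional ℝ E]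
    [MeasurableSpace E] [BorelSpace E] : volume (ball (0 : E) 1) = vb (finrank ℝ E) := by
  rw [InnerProductSpace.volume_ball]
  simp [vb]

theorem vb_pos (k : ℕ) : 0 < √Real.pi ^ k / Real.Gamma (k / 2 + 1) := by
  have := Real.Gamma_pos_of_pos (s := (k : ℝ) / 2 + 1) (by positivity)
  positivity

theorem gauss_one (E : Type) [NormedAddCommGroup E] [InnerProductSpace ℝ E] [FiniteDimensional ℝ E]
    [MeasurableSpace E] [BorelSpace E] : ∫⁻ v : E, ENNReal.ofReal (Real.exp (-Real.pi * ‖v‖ ^ 2)) = 1 := by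
  have h := GaussianFourier.integral_rexp_neg_mul_sq_norm (V := E) Real.pi_pos
  rw [div_self Real.pi_ne_zero, Real.one_rpow] at h
  have hi : Integrable fun v : E => Real.exp (-Real.pi * ‖v‖ ^ 2) := by
    by_contra hc
    rw [integral_undef hc] at h
    exact zero_ne_one h
  rw [← ofReal_integral_eq_lintegral_ofReal hi (Filter.Eventually.of_forall fun v => (Real.exp_pos _).le), h,
    ENNReal.ofReal_one]

/-- the integral over one row, as a function of the distance from the span of the previous ones -/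
theorem inner_int {E : Type} [NormedAddCommGroup E] [InnerProductSpace ℝ E] [FiniteDimensional ℝ E]
    [MeasurableSpace E] [BorelSpace E] (V : Submodule ℝ E) {m : ℕ} (hV : finrank ℝ V = m) (hm : m < finrank ℝ E)
    (G : ℝ → ℝ≥0∞) (hG : Measurable G) :
    ∫⁻ w : E, ENNReal.ofReal (Real.exp (-Real.pi * ‖w‖ ^ 2)) * G ‖Vᗮ.orthogonalProjectionOnto w‖ =
      ((finrank ℝ E - m : ℕ) : ℝ≥0∞) * vb (finrank ℝ E - m) * ∫⁻ r in Ioi (0 : ℝ),
        ENNReal.ofReal (Real.exp (-Real.pi * r ^ 2) * r ^ (finrank ℝ E - 1 - m)) * G r := by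
  have hk : finrank ℝ Vᗮ = finrank ℝ E - m := by
    have := V.finrank_add_finrank_orthogonal
    omega
  have hnt : Nontrivial Vᗮ := by
    apply Module.nontrivial_of_finrank_pos (R := ℝ)
    omega
  have hmp : MeasurePreserving (fun w : E => (V.orthogonalProjectionOnto w, Vᗮ.orthogonalProjectionOnto w)) := by
    have h1 := (WithLp.volume_preserving_ofLp V Vᗮ).comp V.orthogonalDecomposition.measurePreserving
    have h2 : (fun w : E => (V.orthogonalProjectionOnto w, Vᗮ.orthogonalProjectionOnto w)) =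
        (@WithLp.ofLp 2 (V × Vᗮ)) ∘ V.orthogonalDecomposition := by
      funext w
      simp
    rw [h2]
    exact h1
  have hn : ∀ w : E, ‖w‖ ^ 2 = ‖V.orthogonalProjectionOnto w‖ ^ 2 + ‖Vᗮ.orthogonalProjectionOnto w‖ ^ 2 :=
    fun w => Submodule.norm_sq_eq_add_norm_sq_projection w V
  have h3 := hmp.lintegral_comp (f := fun p : V × Vᗮ => ENNReal.ofReal (Real.exp (-Real.pi * ‖p.1‖ ^ 2)) *
    (ENNReal.ofReal (Real.exp (-Real.pi * ‖p.2‖ ^ 2)) * G ‖p.2‖)) (by fun_prop)
  calc ∫⁻ w : E, ENNReal.ofReal (Real.exp (-Real.pi * ‖w‖ ^ 2)) * G ‖Vᗮ.orthogonalProjectionOnto w‖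
      = ∫⁻ p : V × Vᗮ, ENNReal.ofReal (Real.exp (-Real.pi * ‖p.1‖ ^ 2)) *
        (ENNReal.ofReal (Real.exp (-Real.pi * ‖p.2‖ ^ 2)) * G ‖p.2‖) := by
        rw [← h3]
        refine lintegral_congr fun w => ?_
        rw [hn w, mul_add, Real.exp_add, ENNReal.ofReal_mul (Real.exp_pos _).le, mul_assoc]
    _ = (∫⁻ v : V, ENNReal.ofReal (Real.exp (-Real.pi * ‖v‖ ^ 2))) *
        ∫⁻ u : Vᗮ, ENNReal.ofReal (Real.exp (-Real.pi * ‖u‖ ^ 2)) * G ‖u‖ := by
        rw [volume_eq_prod]
        exact lintegral_prod_mul (f := fun v : V => ENNReal.ofReal (Real.exp (-Real.pi * ‖v‖ ^ 2)))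
          (g := fun u : Vᗮ => ENNReal.ofReal (Real.exp (-Real.pi * ‖u‖ ^ 2)) * G ‖u‖) (by fun_prop) (by fun_prop)
    _ = _ := by
        rw [gauss_one V, one_mul, lintegral_norm volume
          (fun r => ENNReal.ofReal (Real.exp (-Real.pi * r ^ 2)) * G r) (by fun_prop), vb_eq, hk]
        congr 1
        refine setLIntegral_congr_fun measurableSet_Ioi fun r hr => ?_
        have hr0 : (0 : ℝ) < r := hr
        rw [ENNReal.ofReal_mul (Real.exp_pos _).le, show finrank ℝ E - 1 - m = finrank ℝ E - m - 1 by omega]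
        ring

/-! ### Splitting off the last coordinate -/

theorem mp_snoc (X : Type) [MeasureSpace X] [SigmaFinite (volume : Measure X)] (m : ℕ) :
    MeasurePreserving (fun p : X × (Fin m → X) => (Fin.snoc p.2 p.1 : Fin (m + 1) → X)) := by
  have h := (volume_preserving_piFinSuccAbove (fun _ : Fin (m + 1) => X) (Fin.last m)).symm
  have e : ((MeasurableEquiv.piFinSuccAbove (fun _ : Fin (m + 1) => X) (Fin.last m)).symm :
      X × (Fin m → X) → Fin (m + 1) → X) = fun p => Fin.snoc p.2 p.1 := by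
    funext p
    exact Fin.insertNth_last' p.1 p.2
  rw [← e]
  exact h

theorem lintegral_snoc {X : Type} [MeasureSpace X] [SigmaFinite (volume : Measure X)] {m : ℕ}
    (Φ : (Fin (m + 1) → X) → ℝ≥0∞) (hΦ : Measurable Φ) :
    ∫⁻ v, Φ v = ∫⁻ v : Fin m → X, ∫⁻ w : X, Φ (Fin.snoc v w) := by
  rw [← (mp_snoc X m).lintegral_comp hΦ, volume_eq_prod]
  exact lintegral_prod_symm _ (hΦ.comp (mp_snoc X m).measurable).aemeasurable

/-! ### Gram-Schmidt -/

variable {E : Type} [NormedAddCommGroup E] [InnerProductSpace ℝ E]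

/-- the Gram-Schmidt norms -/
def gn {m : ℕ} (v : Fin m → E) (i : Fin m) : ℝ := ‖InnerProductSpace.gramSchmidt ℝ v i‖

theorem gs_castSucc {m : ℕ} (v : Fin m → E) (w : E) (i : Fin m) :
    InnerProductSpace.gramSchmidt ℝ (Fin.snoc v w : Fin (m + 1) → E) i.castSucc =
      InnerProductSpace.gramSchmidt ℝ v i := by
  induction i using WellFoundedLT.induction with
  | _ i ih =>
    rw [InnerProductSpace.gramSchmidt_def, InnerProductSpace.gramSchmidt_def, Fin.snoc_castSucc,
      ← Fin.map_castSuccEmb_Iio, Finset.sum_map]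
    congr 1
    refine Finset.sum_congr rfl fun j hj => ?_
    rw [Fin.coe_castSuccEmb, ih j (Finset.mem_Iio.1 hj)]

theorem gs_last [FiniteDimensional ℝ E] {m : ℕ} (v : Fin m → E) (w : E) :
    ‖InnerProductSpace.gramSchmidt ℝ (Fin.snoc v w : Fin (m + 1) → E) (Fin.last m)‖ =
      ‖(Submodule.span ℝ (range v))ᗮ.orthogonalProjectionOnto w‖ := by
  set f : Fin (m + 1) → E := Fin.snoc v w with hf
  set g := InnerProductSpace.gramSchmidt ℝ f (Fin.last m) with hg
  set V := Submodule.span ℝ (range v) with hV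
  have h1 : w = g + ∑ i ∈ Finset.Iio (Fin.last m),
      (ℝ ∙ InnerProductSpace.gramSchmidt ℝ f i).starProjection w := by
    have := InnerProductSpace.gramSchmidt_def' ℝ f (Fin.last m)
    rw [hf, Fin.snoc_last] at this
    exact this
  have hV2 : V = Submodule.span ℝ (range (InnerProductSpace.gramSchmidt ℝ v)) :=
    (InnerProductSpace.span_gramSchmidt ℝ v).symm
  have h2 : ∑ i ∈ Finset.Iio (Fin.last m), (ℝ ∙ InnerProductSpace.gramSchmidt ℝ f i).starProjection w ∈ V := by
    refine Submodule.sum_mem _ fun i hi => ?_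
    have hi' : i < Fin.last m := Finset.mem_Iio.1 hi
    obtain ⟨j, rfl⟩ : ∃ j : Fin m, i = j.castSucc := ⟨i.castPred hi'.ne, by simp⟩
    have h3 : (ℝ ∙ InnerProductSpace.gramSchmidt ℝ f j.castSucc) ≤ V := by
      rw [Submodule.span_singleton_le_iff_mem, hf, gs_castSucc, hV2]
      exact Submodule.subset_span ⟨j, rfl⟩
    exact h3 (Submodule.starProjection_apply_mem _ w)
  have h4 : g ∈ Vᗮ := by
    rw [hV2, Submodule.mem_orthogonal]
    intro u hu
    induction hu using Submodule.span_induction with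
    | mem x hx =>
      obtain ⟨j, rfl⟩ := hx
      have := InnerProductSpace.gramSchmidt_orthogonal ℝ f (a := j.castSucc) (b := Fin.last m)
        (Fin.castSucc_lt_last j).ne
      rw [hf, gs_castSucc] at this
      exact this
    | zero => exact inner_zero_left _
    | add x y _ _ hx hy => rw [inner_add_left, hx, hy, add_zero]
    | smul a x _ hx => rw [inner_smul_left, hx, mul_zero]
  have h5 : Vᗮ.starProjection w = g :=
    Submodule.eq_starProjection_of_mem_orthogonal' h4 (Submodule.le_orthogonal_orthogonal V h2) h1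
  rw [← h5]
  rfl

theorem gn_snoc [FiniteDimensional ℝ E] {m : ℕ} (v : Fin m → E) (w : E) :
    gn (Fin.snoc v w : Fin (m + 1) → E) =
      Fin.snoc (gn v) ‖(Submodule.span ℝ (range v))ᗮ.orthogonalProjectionOnto w‖ := by
  funext i
  refine Fin.lastCases ?_ (fun j => ?_) i
  · rw [Fin.snoc_last]
    exact gs_last v w
  · rw [Fin.snoc_castSucc]
    exact congrArg norm (gs_castSucc v w j)

theorem measurable_gs [FiniteDimensional ℝ E] [MeasurableSpace E] [BorelSpace E] {m : ℕ} (i : Fin m) :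
    Measurable fun v : Fin m → E => InnerProductSpace.gramSchmidt ℝ v i := by
  induction i using WellFoundedLT.induction with
  | _ i ih =>
    simp_rw [InnerProductSpace.gramSchmidt_def ℝ _ i]
    refine (measurable_pi_apply i).sub (Finset.measurable_sum _ fun j hj => ?_)
    have hj' := ih j (Finset.mem_Iio.1 hj)
    simp_rw [Submodule.starProjection_singleton]
    have : SecondCountableTopology E := inferInstance
    exact ((hj'.inner (measurable_pi_apply i)).div
      (Measurable.comp (g := fun x : ℝ => ((x ^ 2 : ℝ) : ℝ)) (by fun_prop) hj'.norm)).smul hj'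

theorem measurable_gn [FiniteDimensional ℝ E] [MeasurableSpace E] [BorelSpace E] {m : ℕ} :
    Measurable fun v : Fin m → E => gn v :=
  measurable_pi_lambda _ fun i => (measurable_gs i).norm

theorem finrank_span_of [FiniteDimensional ℝ E] {m : ℕ} {v : Fin m → E}
    (h : ∀ i, InnerProductSpace.gramSchmidt ℝ v i ≠ 0) : finrank ℝ (Submodule.span ℝ (range v)) = m := by
  rw [← InnerProductSpace.span_gramSchmidt ℝ v]
  have hli : LinearIndependent ℝ (InnerProductSpace.gramSchmidt ℝ v) :=
    linearIndependent_of_ne_zero_of_inner_eq_zero h (InnerProductSpace.gramSchmidt_pairwise_orthogonal ℝ v)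
  rw [finrank_span_eq_card hli, Fintype.card_fin]

/-! ### The induction -/

/-- the density of the norms -/
def dn (n : ℕ) {m : ℕ} (r : Fin m → ℝ) : ℝ≥0∞ :=
  ENNReal.ofReal (Real.exp (-Real.pi * ∑ i, r i ^ 2) * ∏ i, r i ^ (n - 1 - (i : ℕ)))

theorem measurable_dn (n : ℕ) {m : ℕ} : Measurable (dn n : (Fin m → ℝ) → ℝ≥0∞) := by
  unfold dn
  fun_prop

theorem measurable_snoc_real {m : ℕ} : Measurable fun p : ℝ × (Fin m → ℝ) => (Fin.snoc p.2 p.1 : Fin (m + 1) → ℝ) :=
  (mp_snoc ℝ m).measurable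

/-- the positive vectors -/
def ps (m : ℕ) : Set (Fin m → ℝ) := {r | ∀ i, 0 < r i}

theorem measurableSet_ps (m : ℕ) : MeasurableSet (ps m) := by
  have : ps m = ⋂ i, {r : Fin m → ℝ | 0 < r i} := by
    ext r
    simp [ps]
  rw [this]
  exact MeasurableSet.iInter fun i => measurableSet_lt measurable_const (measurable_pi_apply i)

theorem snoc_mem_ps {m : ℕ} (s : Fin m → ℝ) (r : ℝ) : (Fin.snoc s r : Fin (m + 1) → ℝ) ∈ ps (m + 1) ↔
    s ∈ ps m ∧ r ∈ Ioi (0 : ℝ) := by
  constructor
  · intro h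
    refine ⟨fun i => ?_, ?_⟩
    · have := h i.castSucc
      rwa [Fin.snoc_castSucc] at this
    · have := h (Fin.last m)
      rwa [Fin.snoc_last] at this
  · rintro ⟨h1, h2⟩ i
    refine Fin.lastCases ?_ (fun j => ?_) i
    · rw [Fin.snoc_last]
      exact h2
    · rw [Fin.snoc_castSucc]
      exact h1 j

theorem dn_snoc (n : ℕ) {m : ℕ} (s : Fin m → ℝ) (r : ℝ) (hs : s ∈ ps m) :
    dn n (Fin.snoc s r : Fin (m + 1) → ℝ) =
      dn n s * ENNReal.ofReal (Real.exp (-Real.pi * r ^ 2) * r ^ (n - 1 - m)) := by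
  unfold dn
  rw [Fin.sum_univ_castSucc, Fin.prod_univ_castSucc]
  simp only [Fin.snoc_castSucc, Fin.snoc_last, Fin.val_castSucc, Fin.val_last]
  rw [← ENNReal.ofReal_mul (mul_nonneg (Real.exp_pos _).le
    (Finset.prod_nonneg fun i _ => pow_nonneg (hs i).le _)), mul_add, Real.exp_add]
  congr 1
  ring

theorem lintegral_ps {m : ℕ} (n : ℕ) (F : (Fin (m + 1) → ℝ) → ℝ≥0∞) (hF : Measurable F) :
    ∫⁻ r in ps (m + 1), dn n r * F r = ∫⁻ s in ps m, dn n s * ∫⁻ r in Ioi (0 : ℝ),
      ENNReal.ofReal (Real.exp (-Real.pi * r ^ 2) * r ^ (n - 1 - m)) * F (Fin.snoc s r) := by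
  rw [← lintegral_indicator (measurableSet_ps _), lintegral_snoc ((ps (m + 1)).indicator fun r => dn n r * F r)
    (((measurable_dn n).mul hF).indicator (measurableSet_ps _)), ← lintegral_indicator (measurableSet_ps _)]
  refine lintegral_congr fun s => ?_
  by_cases hs : s ∈ ps m
  · rw [indicator_of_mem hs, ← lintegral_const_mul' _ _ (by unfold dn; exact ENNReal.ofReal_ne_top),
      ← lintegral_indicator measurableSet_Ioi]
    refine lintegral_congr fun r => ?_
    by_cases hr : r ∈ Ioi (0 : ℝ)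
    · rw [indicator_of_mem hr, indicator_of_mem ((snoc_mem_ps s r).2 ⟨hs, hr⟩), dn_snoc n s r hs, mul_assoc]
    · rw [indicator_of_notMem hr, indicator_of_notMem fun h => hr ((snoc_mem_ps s r).1 h).2]
  · rw [indicator_of_notMem hs]
    refine (lintegral_congr fun r => ?_).trans lintegral_zero
    exact indicator_of_notMem (fun h => hs ((snoc_mem_ps s r).1 h).1) _

theorem main [FiniteDimensional ℝ E] [MeasurableSpace E] [BorelSpace E] (m : ℕ) (hm : m ≤ finrank ℝ E) :
    (∀ᵐ v : Fin m → E, ∀ i, InnerProductSpace.gramSchmidt ℝ v i ≠ 0) ∧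
    ∃ c : ℝ, 0 < c ∧ ∀ F : (Fin m → ℝ) → ℝ≥0∞, Measurable F →
      ∫⁻ v : Fin m → E, ENNReal.ofReal (Real.exp (-Real.pi * ∑ i, ‖v i‖ ^ 2)) * F (gn v) =
        ENNReal.ofReal c * ∫⁻ r in ps m, dn (finrank ℝ E) r * F r := by
  induction m with
  | zero =>
    refine ⟨Filter.Eventually.of_forall fun v i => i.elim0, 1, one_pos, fun F hF => ?_⟩
    have h1 : ps 0 = univ := by
      ext r
      simp [ps]
    rw [h1, Measure.restrict_univ, lintegral_unique, lintegral_unique, ENNReal.ofReal_one, one_mul]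
    have h2 : (volume : Measure (Fin 0 → E)) univ = 1 := by rw [volume_pi_eq_dirac, measure_univ]
    have h3 : (volume : Measure (Fin 0 → ℝ)) univ = 1 := by rw [volume_pi_eq_dirac, measure_univ]
    rw [h2, h3]
    have h4 : gn (default : Fin 0 → E) = (default : Fin 0 → ℝ) := Subsingleton.elim _ _
    rw [h4, mul_one, mul_one]
    have h5 : ∀ r : Fin 0 → ℝ, dn (finrank ℝ E) r = 1 := fun r => by simp [dn]
    have h6 : ∀ v : Fin 0 → E, ENNReal.ofReal (Real.exp (-Real.pi * ∑ i, ‖v i‖ ^ 2)) = 1 := fun v => by simp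
    rw [h5, h6]
    congr 2
    exact Subsingleton.elim _ _
  | succ m ih =>
    obtain ⟨hae, c, hc, hF⟩ := ih (by omega)
    have hset : MeasurableSet {v : Fin (m + 1) → E | ∀ i, InnerProductSpace.gramSchmidt ℝ v i ≠ 0} := by
      have : {v : Fin (m + 1) → E | ∀ i, InnerProductSpace.gramSchmidt ℝ v i ≠ 0} =
          ⋂ i, {v : Fin (m + 1) → E | InnerProductSpace.gramSchmidt ℝ v i ≠ 0} := by
        ext v
        simp
      rw [this]
      exact MeasurableSet.iInter fun i => (measurableSet_singleton (0 : E)).compl.preimage (measurable_gs i)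
    refine ⟨?_, c * (((finrank ℝ E - m : ℕ) : ℝ) * (√Real.pi ^ (finrank ℝ E - m) /
      Real.Gamma (((finrank ℝ E - m : ℕ) : ℝ) / 2 + 1))), ?_, fun F hFm => ?_⟩
    · have key : ∀ᵐ v : Fin m → E, ∀ᵐ w : E, ∀ i,
          InnerProductSpace.gramSchmidt ℝ (Fin.snoc v w : Fin (m + 1) → E) i ≠ 0 := by
        filter_upwards [hae] with v hv
        set V := Submodule.span ℝ (range v) with hV
        have hVt : V ≠ ⊤ := by
          intro h
          have h1 := finrank_span_of hv
          rw [← hV, h, finrank_top] at h1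
          omega
        have h2 : ∀ᵐ w : E, w ∉ (V : Set E) :=
          measure_eq_zero_iff_ae_notMem.1 (addHaar_submodule volume V hVt)
        filter_upwards [h2] with w hw i
        refine Fin.lastCases ?_ (fun j => ?_) i
        · rw [← norm_ne_zero_iff, gs_last, norm_ne_zero_iff]
          intro h3
          apply hw
          have h4 := (Submodule.orthogonalProjectionOnto_eq_zero_iff (K := Vᗮ)).1 h3
          rwa [Submodule.orthogonal_orthogonal] at h4
        · rw [gs_castSucc]
          exact hv j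
      have hm1 : MeasurableSet {p : E × (Fin m → E) | ∀ i,
          InnerProductSpace.gramSchmidt ℝ (Fin.snoc p.2 p.1 : Fin (m + 1) → E) i ≠ 0} :=
        (mp_snoc E m).measurable hset
      rw [← (mp_snoc E m).map_eq, ae_map_iff (mp_snoc E m).measurable.aemeasurable hset, volume_eq_prod,
        Measure.ae_prod_iff_ae_ae hm1, Measure.ae_ae_comm
        (p := fun (w : E) (v : Fin m → E) => ∀ i,
          InnerProductSpace.gramSchmidt ℝ (Fin.snoc v w : Fin (m + 1) → E) i ≠ 0) hm1]
      exact key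
    · have := vb_pos (finrank ℝ E - m)
      have : (0 : ℝ) < ((finrank ℝ E - m : ℕ) : ℝ) := by
        exact_mod_cast (by omega : 0 < finrank ℝ E - m)
      positivity
    · have hFn : Measurable fun v : Fin (m + 1) → E =>
          ENNReal.ofReal (Real.exp (-Real.pi * ∑ i, ‖v i‖ ^ 2)) * F (gn v) :=
        Measurable.mul (by fun_prop) (hFm.comp measurable_gn)
      set F' : (Fin m → ℝ) → ℝ≥0∞ := fun s => ∫⁻ r in Ioi (0 : ℝ),
        ENNReal.ofReal (Real.exp (-Real.pi * r ^ 2) * r ^ (finrank ℝ E - 1 - m)) * F (Fin.snoc s r) with hF'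
      have hF'm : Measurable F' := by
        refine Measurable.lintegral_prod_right' (f := fun p : (Fin m → ℝ) × ℝ =>
          ENNReal.ofReal (Real.exp (-Real.pi * p.2 ^ 2) * p.2 ^ (finrank ℝ E - 1 - m)) * F (Fin.snoc p.1 p.2)) ?_
        exact Measurable.mul (by fun_prop)
          (hFm.comp (measurable_snoc_real.comp (measurable_snd.prodMk measurable_fst)))
      have hFs : ∀ s : Fin m → ℝ, Measurable fun r : ℝ => F (Fin.snoc s r) := fun s =>
        hFm.comp (measurable_snoc_real.comp (measurable_id.prodMk measurable_const))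
      rw [lintegral_snoc _ hFn, lintegral_ps _ F hFm]
      calc ∫⁻ v : Fin m → E, ∫⁻ w : E, ENNReal.ofReal (Real.exp (-Real.pi *
            ∑ i, ‖(Fin.snoc v w : Fin (m + 1) → E) i‖ ^ 2)) * F (gn (Fin.snoc v w : Fin (m + 1) → E))
          = ∫⁻ v : Fin m → E, ENNReal.ofReal (Real.exp (-Real.pi * ∑ i, ‖v i‖ ^ 2)) *
            ((((finrank ℝ E - m : ℕ) : ℝ≥0∞) * vb (finrank ℝ E - m)) * F' (gn v)) := by
            refine lintegral_congr_ae ?_
            filter_upwards [hae] with v hv
            rw [← inner_int (Submodule.span ℝ (range v)) (finrank_span_of hv) (by omega) _ (hFs (gn v)),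
              ← lintegral_const_mul' _ _ ENNReal.ofReal_ne_top]
            refine lintegral_congr fun w => ?_
            rw [gn_snoc, Fin.sum_univ_castSucc, mul_add, Real.exp_add, ENNReal.ofReal_mul (Real.exp_pos _).le]
            simp only [Fin.snoc_castSucc, Fin.snoc_last]
            rw [mul_assoc]
        _ = (((finrank ℝ E - m : ℕ) : ℝ≥0∞) * vb (finrank ℝ E - m)) *
            ∫⁻ v : Fin m → E, ENNReal.ofReal (Real.exp (-Real.pi * ∑ i, ‖v i‖ ^ 2)) * F' (gn v) := by
            rw [← lintegral_const_mul' _ _ (ENNReal.mul_ne_top (ENNReal.natCast_ne_top _)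
              (by unfold vb; exact ENNReal.ofReal_ne_top))]
            refine lintegral_congr fun v => ?_
            ring
        _ = _ := by
            rw [hF F' hF'm, ENNReal.ofReal_mul hc.le, ENNReal.ofReal_mul (Nat.cast_nonneg _),
              ENNReal.ofReal_natCast]
            unfold vb
            ring

/-! ### From vectors to matrices -/

/-- the rows as vectors -/
def rw' {n : ℕ} (x : Fin n → Fin n → ℝ) : Fin n → EuclideanSpace ℝ (Fin n) := fun i => WithLp.toLp 2 (x i)

theorem mp_rw (n : ℕ) : MeasurePreserving (rw' : (Fin n → Fin n → ℝ) → Fin n → EuclideanSpace ℝ (Fin n)) :=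
  volume_preserving_pi fun _ => PiLp.volume_preserving_toLp (Fin n)

theorem dst_eq {n : ℕ} (x : Fin n → Fin n → ℝ) : dst x = gn (rw' x) := rfl

theorem norm_rw {n : ℕ} (x : Fin n → Fin n → ℝ) (i : Fin n) : ‖rw' x i‖ ^ 2 = ∑ j, x i j ^ 2 := by
  rw [EuclideanSpace.norm_sq_eq]
  simp [rw']

/-- flip the sign of the last row -/
def fl {k : ℕ} (x : Fin (k + 1) → Fin (k + 1) → ℝ) : Fin (k + 1) → Fin (k + 1) → ℝ :=
  fun i => if i = Fin.last k then -x i else x i

theorem mp_fl (k : ℕ) : MeasurePreserving (fl (k := k)) := by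
  refine volume_preserving_pi (f := fun (i : Fin (k + 1)) (y : Fin (k + 1) → ℝ) =>
    if i = Fin.last k then -y else y) fun i => ?_
  split_ifs with h
  · exact Measure.measurePreserving_neg volume
  · exact MeasurePreserving.id volume

theorem fl_det {k : ℕ} (x : Fin (k + 1) → Fin (k + 1) → ℝ) : (Matrix.of (fl x)).det = -(Matrix.of x).det := by
  have h : Matrix.of (fl x) = Matrix.updateRow (Matrix.of x) (Fin.last k) ((-1 : ℝ) • (Matrix.of x) (Fin.last k)) := by
    ext i j
    by_cases hi : i = Fin.last k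
    · subst hi
      simp [fl]
    · simp [fl, hi, Matrix.updateRow_ne]
  rw [h, Matrix.det_updateRow_smul, Matrix.updateRow_eq_self]
  ring

theorem fl_gn {k : ℕ} (x : Fin (k + 1) → Fin (k + 1) → ℝ) : gn (rw' (fl x)) = gn (rw' x) := by
  set v : Fin k → EuclideanSpace ℝ (Fin (k + 1)) := fun i => rw' x i.castSucc with hv
  have h1 : rw' x = Fin.snoc v (rw' x (Fin.last k)) := by
    funext i
    refine Fin.lastCases ?_ (fun j => ?_) i
    · rw [Fin.snoc_last]
    · rw [Fin.snoc_castSucc]
  have h2 : rw' (fl x) = Fin.snoc v (-rw' x (Fin.last k)) := by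
    funext i
    refine Fin.lastCases ?_ (fun j => ?_) i
    · rw [Fin.snoc_last]
      simp [rw', fl]
    · rw [Fin.snoc_castSucc]
      simp [rw', fl, hv, (Fin.castSucc_lt_last j).ne]
  rw [h2, gn_snoc, map_neg, norm_neg, ← gn_snoc, ← h1]

theorem fl_norm {k : ℕ} (x : Fin (k + 1) → Fin (k + 1) → ℝ) : ∑ i, ∑ j, fl x i j ^ 2 = ∑ i, ∑ j, x i j ^ 2 := by
  refine Finset.sum_congr rfl fun i _ => Finset.sum_congr rfl fun j _ => ?_
  by_cases hi : i = Fin.last k
  · simp [fl, hi]
  · simp [fl, hi]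

theorem fl_fl {k : ℕ} (x : Fin (k + 1) → Fin (k + 1) → ℝ) : fl (fl x) = x := by
  funext i
  by_cases hi : i = Fin.last k
  · simp [fl, hi]
  · simp [fl, hi]

theorem det_ne {n : ℕ} (x : Fin n → Fin n → ℝ)
    (h : ∀ i, InnerProductSpace.gramSchmidt ℝ (rw' x) i ≠ 0) : (Matrix.of x).det ≠ 0 := by
  have h1 := finrank_span_of h
  have h2 : LinearIndependent ℝ (rw' x) := by
    rw [linearIndependent_iff_card_eq_finrank_span, Fintype.card_fin]
    exact h1.symm
  have h3 : LinearIndependent ℝ x := by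
    have e : rw' x = (WithLp.linearEquiv 2 ℝ (Fin n → ℝ)).symm.toLinearMap ∘ x := rfl
    rw [e] at h2
    exact h2.of_comp _
  have h4 : IsUnit (Matrix.of x) := Matrix.linearIndependent_rows_iff_isUnit.1 h3
  exact ((Matrix.isUnit_iff_isUnit_det _).1 h4).ne_zero

end Pool.Agent.T2h77.N.Ba

namespace Pool.Agent.T2h77.N

open Ba

theorem bart : S_bart := by
  intro n hn
  obtain ⟨k, rfl⟩ : ∃ k, n = k + 1 := ⟨n - 1, by omega⟩
  have hfr : finrank ℝ (EuclideanSpace ℝ (Fin (k + 1))) = k + 1 := finrank_euclideanSpace_fin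
  obtain ⟨hae, c, hc, hF⟩ := Ba.main (E := EuclideanSpace ℝ (Fin (k + 1))) (k + 1) hfr.ge
  refine ⟨c / 2, by positivity, fun F hFm => ?_⟩
  set Φ : (Fin (k + 1) → Fin (k + 1) → ℝ) → ℝ≥0∞ := fun x =>
    ENNReal.ofReal (Real.exp (-Real.pi * ∑ i, ∑ j, x i j ^ 2)) * F (dst x) with hΦ
  have hmp := mp_rw (k + 1)
  have hΦm : Measurable Φ := by
    refine Measurable.mul (by fun_prop) (hFm.comp ?_)
    exact measurable_gn.comp hmp.measurable
  have hset : MeasurableSet {v : Fin (k + 1) → EuclideanSpace ℝ (Fin (k + 1)) |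
      ∀ i, InnerProductSpace.gramSchmidt ℝ v i ≠ 0} := by
    have : {v : Fin (k + 1) → EuclideanSpace ℝ (Fin (k + 1)) |
        ∀ i, InnerProductSpace.gramSchmidt ℝ v i ≠ 0} =
        ⋂ i, {v : Fin (k + 1) → EuclideanSpace ℝ (Fin (k + 1)) | InnerProductSpace.gramSchmidt ℝ v i ≠ 0} := by
      ext v
      simp
    rw [this]
    exact MeasurableSet.iInter fun i => (measurableSet_singleton _).compl.preimage (measurable_gs i)
  -- the total integral
  have htot : ∫⁻ x, Φ x = ENNReal.ofReal c * ∫⁻ r in ps (k + 1), dn (k + 1) r * F r := by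
    have h1 := hF F hFm
    rw [hfr] at h1
    rw [← h1, ← hmp.lintegral_comp (f := fun v : Fin (k + 1) → EuclideanSpace ℝ (Fin (k + 1)) =>
      ENNReal.ofReal (Real.exp (-Real.pi * ∑ i, ‖v i‖ ^ 2)) * F (gn v))
      (Measurable.mul (by fun_prop) (hFm.comp measurable_gn))]
    refine lintegral_congr fun x => ?_
    simp only [hΦ, norm_rw]
    rw [dst_eq]
  -- almost every matrix is invertible
  have hdet : ∀ᵐ x : Fin (k + 1) → Fin (k + 1) → ℝ, (Matrix.of x).det ≠ 0 := by
    have h1 : ∀ᵐ x : Fin (k + 1) → Fin (k + 1) → ℝ, ∀ i, InnerProductSpace.gramSchmidt ℝ (rw' x) i ≠ 0 := by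
      rw [← hmp.map_eq, ae_map_iff hmp.measurable.aemeasurable hset] at hae
      exact hae
    filter_upwards [h1] with x hx
    exact det_ne x hx
  have hdm : Measurable fun x : Fin (k + 1) → Fin (k + 1) → ℝ => (Matrix.of x).det := by
    have : Continuous fun x : Fin (k + 1) → Fin (k + 1) → ℝ => (Matrix.of x).det :=
      Continuous.matrix_det continuous_id
    exact this.measurable
  have hP : MeasurableSet {x : Fin (k + 1) → Fin (k + 1) → ℝ | 0 < (Matrix.of x).det} :=
    measurableSet_lt measurable_const hdm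
  have hN : MeasurableSet {x : Fin (k + 1) → Fin (k + 1) → ℝ | (Matrix.of x).det < 0} :=
    measurableSet_lt hdm measurable_const
  -- the two halves have the same integral
  have hflip : ∫⁻ x in {x : Fin (k + 1) → Fin (k + 1) → ℝ | (Matrix.of x).det < 0}, Φ x =
      ∫⁻ x in {x : Fin (k + 1) → Fin (k + 1) → ℝ | 0 < (Matrix.of x).det}, Φ x := by
    rw [← lintegral_indicator hN, ← lintegral_indicator hP,
      ← (mp_fl k).lintegral_comp (hΦm.indicator hN)]
    refine lintegral_congr fun x => ?_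
    by_cases hx : 0 < (Matrix.of x).det
    · rw [indicator_of_mem (show x ∈ {x : Fin (k + 1) → Fin (k + 1) → ℝ | 0 < (Matrix.of x).det} from hx),
        indicator_of_mem (show fl x ∈ {x : Fin (k + 1) → Fin (k + 1) → ℝ | (Matrix.of x).det < 0} by
          rw [mem_ofPred_eq, fl_det]
          linarith)]
      simp only [hΦ]
      rw [fl_norm, dst_eq, dst_eq, fl_gn]
    · rw [indicator_of_notMem (show x ∉ {x : Fin (k + 1) → Fin (k + 1) → ℝ | 0 < (Matrix.of x).det} from hx),
        indicator_of_notMem (show fl x ∉ {x : Fin (k + 1) → Fin (k + 1) → ℝ | (Matrix.of x).det < 0} by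
          rw [mem_ofPred_eq, fl_det]
          linarith)]
  have hsplit : ∫⁻ x, Φ x = (∫⁻ x in {x : Fin (k + 1) → Fin (k + 1) → ℝ | 0 < (Matrix.of x).det}, Φ x) +
      ∫⁻ x in {x : Fin (k + 1) → Fin (k + 1) → ℝ | 0 < (Matrix.of x).det}, Φ x := by
    conv_rhs => rw [← hflip]
    rw [← lintegral_add_compl Φ hN, hflip]
    congr 1
    refine setLIntegral_congr ?_
    rw [Filter.eventuallyEq_set]
    filter_upwards [hdet] with x hx
    simp only [mem_compl_iff, mem_ofPred_eq, not_lt]
    exact ⟨fun h => lt_of_le_of_ne h hx.symm, fun h => h.le⟩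
  rw [htot] at hsplit
  have h2 : ENNReal.ofReal c = 2 * ENNReal.ofReal (c / 2) := by
    rw [← ENNReal.ofReal_ofNat 2, ← ENNReal.ofReal_mul (by norm_num)]
    congr 1
    ring
  rw [h2, ← two_mul, mul_assoc] at hsplit
  have h3 := (ENNReal.mul_right_inj (a := 2) (by norm_num) (by norm_num)).1 hsplit
  rw [← h3]
  rfl

end Pool.Agent.T2h77.N
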