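import Pool.Agent.T2h77N.Api
import Pool.Agent.T2h77.Anal1

/-!
# The fundamental domain, unfolding, local square integrability
-/

set_option autoImplicit false
set_option linter.unusedSectionVars false

open MeasureTheory Matrix
open scoped MatrixGroups ENNReal Topology Pointwise

noncomputable section

namespace Pool.Agent.T2h77.N

instance muHaarF (n : ℕ) : (mu n).IsHaarMeasure := inferInstanceAs (Measure.IsHaarMeasure Measure.haar)

instance countMZ (n : ℕ) : Countable (MZ n) := inferInstanceAs (Countable (Fin n → Fin n → ℤ))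

instance countGZ (n : ℕ) : Countable (GZ n) := inferInstanceAs (Countable {A : MZ n // A.det = 1})

/-- the image of `SL_n(ℤ)` -/
abbrev rg (n : ℕ) : Subgroup (GR n) := (io n).range

instance countrg (n : ℕ) : Countable (rg n) :=
  (MonoidHom.rangeRestrict_surjective (io n)).countable

/-- `SL_n(ℤ)` and its image -/
def erg (n : ℕ) : GZ n ≃ rg n := (MonoidHom.ofInjective (io_injective n)).toEquiv

theorem erg_coe {n : ℕ} (γ : GZ n) : ((erg n γ : rg n) : GR n) = io n γ := rfl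

theorem IsFD.fund {n : ℕ} {F : Set (GR n)} (h : IsFD F) : IsFundamentalDomain (rg n) F (mu n) := by
  obtain ⟨h1, h2, h3⟩ := h
  refine IsFundamentalDomain.mk'' h1.nullMeasurableSet ?_ ?_ ?_
  · filter_upwards [h2] with g hg
    obtain ⟨γ, hg⟩ := hg
    exact ⟨⟨io n γ, ⟨γ, rfl⟩⟩, hg⟩
  · rintro ⟨_, γ, rfl⟩ hne
    have hγ1 : γ⁻¹ ≠ 1 := by
      intro h
      apply hne
      have h4 : γ = 1 := inv_eq_one.1 h
      subst h4
      exact Subtype.ext (map_one _)
    have := h3 γ⁻¹ hγ1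
    unfold AEDisjoint
    rw [← this]
    congr 1
    ext g
    rw [Set.mem_inter_iff, Set.mem_smul_set_iff_inv_smul_mem, and_comm]
    have e : ((⟨io n γ, ⟨γ, rfl⟩⟩ : rg n)⁻¹ • g) = io n γ⁻¹ * g := by
      rw [map_inv]
      rfl
    rw [e]
    rfl
  · intro g
    exact (measurePreserving_mul_left (mu n) (g : GR n)).quasiMeasurePreserving

theorem lint_unfold {n : ℕ} {F : Set (GR n)} (h : IsFD F) {f : GR n → ℝ≥0∞} (hf : Measurable f) :
    ∫⁻ g, f g ∂(mu n) = ∫⁻ g in F, ∑' γ : GZ n, f (io n γ * g) ∂(mu n) := by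
  rw [An.unfold h.fund f hf]
  refine lintegral_congr fun g => ?_
  exact ((erg n).tsum_eq fun γ : rg n => f (γ * g)).symm

/-- COV -/
theorem cov : S_cov := by
  intro n F T h hF hT hh hinv
  have hfd := hF.fund
  rw [hfd.setLIntegral_eq_tsum' h T]
  have e1 : ∀ γ : rg n, ∀ x : GR n, h (γ⁻¹ • x) = h x := by
    rintro ⟨_, γ, rfl⟩ x
    have : ((⟨io n γ, ⟨γ, rfl⟩⟩ : rg n)⁻¹ • x) = io n γ⁻¹ * x := by
      rw [map_inv]
      rfl
    rw [this, hinv]
  simp only [e1]
  refine le_trans (lintegral_mono_set (t := ⋃ γ : rg n, γ • T ∩ F) ?_) (lintegral_iUnion_le _ _)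
  rintro x ⟨hx, γ, hγ⟩
  rw [Set.mem_iUnion]
  refine ⟨⟨io n γ⁻¹, ⟨γ⁻¹, rfl⟩⟩, ?_, hx⟩
  rw [Set.mem_smul_set_iff_inv_smul_mem]
  have : ((⟨io n γ⁻¹, ⟨γ⁻¹, rfl⟩⟩ : rg n)⁻¹ • x) = io n γ * x := by
    change (io n γ⁻¹)⁻¹ * x = _
    rw [map_inv, inv_inv]
  rw [this]
  exact hγ

/-! ### Finiteness -/

theorem finite_bdd (n : ℕ) (B : ℝ) : {β : MZ n | ∀ i j, |(β i j : ℝ)| ≤ B}.Finite := by
  have h : {β : Fin n → Fin n → ℤ | ∀ i j, |(β i j : ℝ)| ≤ B} ⊆
      Set.pi Set.univ fun _ => Set.pi Set.univ fun _ => Set.Icc (-⌈B⌉) ⌈B⌉ := by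
    intro β hβ i _ j _
    have h1 := abs_le.1 (hβ i j)
    have h2 := Int.le_ceil B
    constructor
    · have : (((-⌈B⌉ : ℤ)) : ℝ) ≤ β i j := by push_cast; linarith
      exact_mod_cast this
    · have : ((β i j : ℤ) : ℝ) ≤ (⌈B⌉ : ℤ) := by linarith
      exact_mod_cast this
  exact (Set.Finite.pi' fun _ => Set.Finite.pi' fun _ => Set.finite_Icc (-⌈B⌉) ⌈B⌉).subset (fun β hβ i j => h hβ i trivial j trivial)

theorem continuous_entry {n : ℕ} (i j : Fin n) : Continuous fun x : GR n => x i j :=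
  (continuous_apply j).comp ((continuous_apply i).comp continuous_subtype_val)

theorem bdd_entries {n : ℕ} {K : Set (GR n)} (hK : IsCompact K) : ∃ B : ℝ, 0 ≤ B ∧ ∀ x ∈ K, ∀ i j, |x i j| ≤ B := by
  have h : ∀ i j : Fin n, ∃ B : ℝ, ∀ x ∈ K, |x i j| ≤ B := by
    intro i j
    obtain ⟨B, hB⟩ := (hK.image (continuous_entry i j)).isBounded.exists_norm_le
    exact ⟨B, fun x hx => hB _ ⟨x, hx, rfl⟩⟩
  choose B hB using h
  refine ⟨∑ i, ∑ j, |B i j|, Finset.sum_nonneg fun i _ => Finset.sum_nonneg fun j _ => abs_nonneg _,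
    fun x hx i j => ?_⟩
  calc |x i j| ≤ |B i j| := (hB i j x hx).trans (le_abs_self _)
    _ ≤ ∑ j, |B i j| := Finset.single_le_sum (f := fun j => |B i j|) (fun j _ => abs_nonneg _) (Finset.mem_univ j)
    _ ≤ ∑ i, ∑ j, |B i j| := Finset.single_le_sum (f := fun i => ∑ j, |B i j|)
        (fun i _ => Finset.sum_nonneg fun j _ => abs_nonneg _) (Finset.mem_univ i)

theorem finite_io {n : ℕ} {K : Set (GR n)} (hK : IsCompact K) : {γ : GZ n | io n γ ∈ K}.Finite := by
  obtain ⟨B, _, hB⟩ := bdd_entries hK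
  refine Set.Finite.of_finite_image (f := fun γ : GZ n => (γ : MZ n)) ((finite_bdd n B).subset ?_)
    (Subtype.val_injective.injOn)
  rintro _ ⟨γ, hγ, rfl⟩ i j
  exact hB _ hγ i j

variable {n N : ℕ} [NeZero N] {H : Subgroup (GN n N)}

/-- the squared mass of `f` at `g` -/
def sqF (f : GR n → XX H → ℂ) (g : GR n) : ℝ≥0∞ := ∑' c : XX H, ‖f g c‖ₑ ^ 2

theorem sqF_inv {f : GR n → XX H → ℂ} (hf : IsForm H f) (γ : GZ n) (g : GR n) :
    sqF f (io n γ * g) = sqF f g := by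
  unfold sqF
  rw [← (MulAction.toPerm (rdM N (γ : MZ n)) : Equiv.Perm (XX H)).tsum_eq (fun c => ‖f (io n γ * g) c‖ₑ ^ 2)]
  refine tsum_congr fun c => ?_
  rw [MulAction.toPerm_apply, hf.invariant]

theorem measurable_sqF {f : GR n → XX H → ℂ} (hf : ∀ c, Measurable fun g => f g c) : Measurable (sqF f) :=
  Measurable.tsum fun c => (hf c).enorm.pow_const 2

theorem sqF_int {f : GR n → XX H → ℂ} (hf : ∀ c, Measurable fun g => f g c) (S : Set (GR n)) :
    ∑' c : XX H, ∫⁻ g in S, ‖f g c‖ₑ ^ 2 ∂(mu n) = ∫⁻ g in S, sqF f g ∂(mu n) := by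
  unfold sqF
  rw [lintegral_tsum fun c => ((hf c).enorm.pow_const 2).aemeasurable]

theorem sqF_lt_top {f : GR n → XX H → ℂ} (hf : IsForm H f) {F : Set (GR n)} (hL : IsL2 F f) :
    ∫⁻ g in F, sqF f g ∂(mu n) < ∞ := by
  rw [← sqF_int hf.measurable]
  have : Fintype (XX H) := Fintype.ofFinite _
  rw [tsum_fintype]
  exact ENNReal.sum_lt_top.2 fun c _ => hL c

theorem le_sqF (f : GR n → XX H → ℂ) (g : GR n) (c : XX H) : ‖f g c‖ₑ ^ 2 ≤ sqF f g :=
  ENNReal.le_tsum c

/-- the number of points of an orbit in a compact set -/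
theorem orbit_count {K : Set (GR n)} (hK : IsCompact K) :
    ∃ m : ℕ, ∀ x : GR n, ∑' γ : GZ n, K.indicator (1 : GR n → ℝ≥0∞) (io n γ * x) ≤ m := by
  have hfin := finite_io (hK.mul hK.inv)
  refine ⟨hfin.toFinset.card, fun x => ?_⟩
  by_cases h : ∃ γ0 : GZ n, io n γ0 * x ∈ K
  · obtain ⟨γ0, h0⟩ := h
    rw [← (Equiv.mulRight γ0).tsum_eq]
    have h1 : ∀ γ : GZ n, γ ∉ hfin.toFinset →
        K.indicator (1 : GR n → ℝ≥0∞) (io n (Equiv.mulRight γ0 γ) * x) = 0 := by
      intro γ hγ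
      rw [Set.indicator_of_notMem]
      intro h2
      apply hγ
      rw [Set.Finite.mem_toFinset]
      refine ⟨_, h2, _, Set.inv_mem_inv.2 h0, ?_⟩
      simp [mul_assoc]
    rw [tsum_eq_sum h1]
    refine (Finset.sum_le_card_nsmul _ _ 1 fun γ _ => ?_).trans (by simp)
    exact Set.indicator_le_self' (fun _ _ => bot_le) _
  · have h1 : ∀ γ : GZ n, K.indicator (1 : GR n → ℝ≥0∞) (io n γ * x) = 0 := fun γ =>
      Set.indicator_of_notMem (fun h2 => h ⟨γ, h2⟩) _
    simp [h1]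

/-- an invariant function which is integrable over the fundamental domain is locally integrable -/
theorem loc_int {F : Set (GR n)} (hF : IsFD F) {h : GR n → ℝ≥0∞} (hh : Measurable h)
    (hinv : ∀ (γ : GZ n) (g : GR n), h (io n γ * g) = h g) (hfin : ∫⁻ g in F, h g ∂(mu n) < ∞)
    {K : Set (GR n)} (hK : IsCompact K) : ∫⁻ g in K, h g ∂(mu n) < ∞ := by
  obtain ⟨m, hm⟩ := orbit_count hK
  have hKm := hK.measurableSet
  have e1 : ∫⁻ g in K, h g ∂(mu n) = ∫⁻ g, K.indicator 1 g * h g ∂(mu n) := by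
    rw [← lintegral_indicator hKm]
    refine lintegral_congr fun g => ?_
    by_cases hg : g ∈ K
    · simp [Set.indicator_of_mem hg]
    · simp [Set.indicator_of_notMem hg]
  have hm2 : Measurable fun g => K.indicator (1 : GR n → ℝ≥0∞) g * h g := (measurable_one.indicator hKm).mul hh
  rw [e1, lint_unfold hF hm2]
  have e2 : ∀ g, ∑' γ : GZ n, K.indicator 1 (io n γ * g) * h (io n γ * g) ≤ m * h g := by
    intro g
    simp only [hinv]
    rw [ENNReal.tsum_mul_right]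
    gcongr
    exact hm g
  refine lt_of_le_of_lt (lintegral_mono e2) ?_
  rw [lintegral_const_mul _ hh]
  exact ENNReal.mul_lt_top (by simp) hfin

theorem loc_sq {F : Set (GR n)} (hF : IsFD F) {f : GR n → XX H → ℂ} (hf : IsForm H f) (hL : IsL2 F f)
    {K : Set (GR n)} (hK : IsCompact K) (c : XX H) : ∫⁻ g in K, ‖f g c‖ₑ ^ 2 ∂(mu n) < ∞ :=
  lt_of_le_of_lt (lintegral_mono fun g => le_sqF f g c)
    (loc_int hF (measurable_sqF hf.measurable) (sqF_inv hf) (sqF_lt_top hf hL) hK)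

theorem enorm_le_sq_add_one (z : ℂ) : ‖z‖ₑ ≤ ‖z‖ₑ ^ 2 + 1 := by
  have h : ‖z‖ ≤ ‖z‖ ^ 2 + 1 := by nlinarith [sq_nonneg (‖z‖ - 1), norm_nonneg z]
  have e : ‖z‖ₑ ^ 2 + 1 = ENNReal.ofReal (‖z‖ ^ 2 + 1) := by
    rw [ENNReal.ofReal_add (by positivity) zero_le_one, ENNReal.ofReal_pow (norm_nonneg _), ofReal_norm,
      ENNReal.ofReal_one]
  rw [e, ← ofReal_norm]
  exact ENNReal.ofReal_le_ofReal h

/-- the integrals which define `Rc` converge -/
theorem integrable_Rc {F : Set (GR n)} (hF : IsFD F) {f : GR n → XX H → ℂ} (hf : IsForm H f) (hL : IsL2 F f)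
    {χ : GR n → ℝ} (hχ : Continuous χ) (hχc : HasCompactSupport χ) (g : GR n) (c : XX H) :
    Integrable (fun y => f (g * y) c * (χ y : ℂ)) (mu n) := by
  have hm : Measurable fun y : GR n => f (g * y) c := (hf.measurable c).comp (measurable_const_mul g)
  have hχm : Measurable fun y : GR n => (χ y : ℂ) := Complex.measurable_ofReal.comp hχ.measurable
  refine ⟨(hm.mul hχm).aestronglyMeasurable, ?_⟩
  rw [hasFiniteIntegral_iff_enorm]
  obtain ⟨B, hB⟩ := hχ.bounded_above_of_compact_support hχc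
  have hKm : MeasurableSet (tsupport χ) := hχc.measurableSet
  have h1 : ∀ y, ‖f (g * y) c * (χ y : ℂ)‖ₑ ≤
      (tsupport χ).indicator (fun y => ENNReal.ofReal B * (‖f (g * y) c‖ₑ ^ 2 + 1)) y := by
    intro y
    by_cases hy : y ∈ tsupport χ
    · rw [Set.indicator_of_mem hy, enorm_mul, mul_comm]
      have h2 : ‖(χ y : ℂ)‖ₑ ≤ ENNReal.ofReal B := by
        rw [← ofReal_norm, Complex.norm_real]
        exact ENNReal.ofReal_le_ofReal (hB y)
      gcongr
      exact enorm_le_sq_add_one _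
    · rw [image_eq_zero_of_notMem_tsupport hy]
      simp
  refine lt_of_le_of_lt (lintegral_mono h1) ?_
  have hm3 : Measurable fun y : GR n => ‖f (g * y) c‖ₑ ^ 2 + 1 := (hm.enorm.pow_const 2).add measurable_const
  rw [lintegral_indicator hKm, lintegral_const_mul _ hm3, lintegral_add_right _ measurable_const]
  refine ENNReal.mul_lt_top ENNReal.ofReal_lt_top (ENNReal.add_lt_top.2 ⟨?_, ?_⟩)
  · have h3 := (measurePreserving_mul_left (mu n) g).setLIntegral_comp_emb
      (Homeomorph.mulLeft g).measurableEmbedding (fun x => ‖f x c‖ₑ ^ 2) (tsupport χ)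
    rw [h3]
    exact loc_sq hF hf hL (hχc.isCompact.image (continuous_const_mul g)) c
  · simp only [lintegral_const, one_mul, Measure.restrict_apply_univ]
    exact hχc.isCompact.measure_lt_top

end Pool.Agent.T2h77.N
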