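import Pool.Agent.T2h77N.Dst
import Pool.Agent.T2h77N.Fund

/-!
# The Godement-Jacquet integral: the spherical transforms of the Gaussian kernels
-/

set_option autoImplicit false

open MeasureTheory Matrix
open scoped MatrixGroups ENNReal NNReal Topology

noncomputable section

namespace Pool.Agent.T2h77.N

variable {n : ℕ}

/-- the half sum of the roots -/
def rho (n : ℕ) (i : Fin n) : ℝ := ((2 * (i : ℕ) : ℝ) - n + 1) / 2

theorem sum_rho (n : ℕ) : ∑ i : Fin n, rho n i = 0 := by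
  unfold rho
  rw [← Finset.sum_div, Finset.sum_add_distrib, Finset.sum_sub_distrib, ← Finset.mul_sum,
    Fin.sum_univ_eq_sum_range (fun i => (i : ℝ))]
  have h : (∑ i ∈ Finset.range n, (i : ℝ)) * 2 = n * (n - 1) := by
    rcases Nat.eq_zero_or_pos n with rfl | hn
    · simp
    · have := Finset.sum_range_id_mul_two n
      have h2 : ((∑ i ∈ Finset.range n, i : ℕ) : ℝ) * 2 = (n : ℝ) * ((n - 1 : ℕ) : ℝ) := by exact_mod_cast this
      push_cast at h2
      rw [h2, Nat.cast_sub hn]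
      simp
  simp only [Finset.sum_const, Finset.card_univ, Fintype.card_fin, nsmul_eq_mul, mul_one]
  have h' : 2 * ∑ i ∈ Finset.range n, (i : ℝ) = n * (n - 1) := by linarith
  rw [h']
  ring

theorem prod_smul_ac {y : ℝ} (g : GR n) : ∏ i, (y * ac g i) = y ^ n := by
  rw [Finset.prod_mul_distrib, iw_prod_ac, mul_one, Finset.prod_const, Finset.card_univ, Fintype.card_fin]

theorem root_prod (hn : 1 ≤ n) {y : ℝ} (hy : 0 < y) (g : GR n) : (∏ i, (y * ac g i)) ^ (1 / (n : ℝ)) = y := by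
  rw [prod_smul_ac, ← Real.rpow_natCast, ← Real.rpow_mul hy.le]
  have : (n : ℝ) * (1 / (n : ℝ)) = 1 := by
    field_simp
  rw [this, Real.rpow_one]

theorem pow_exp (hn : 1 ≤ n) {y : ℝ} (hy : 0 < y) :
    y ^ (n ^ 2 - 1) * (y ^ n) ^ (-(((n : ℝ) + 1) / 2)) = y ^ (((n : ℝ) * (n - 1)) / 2 - 1) := by
  rw [← Real.rpow_natCast, ← Real.rpow_natCast, ← Real.rpow_mul hy.le, ← Real.rpow_add hy]
  congr 1
  have h1 : 1 ≤ n ^ 2 := Nat.one_le_pow _ _ hn
  rw [Nat.cast_sub h1]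
  push_cast
  ring

theorem sub_cast (i : Fin n) : (((n - 1 - (i : ℕ) : ℕ)) : ℝ) = (n : ℝ) - 1 - (i : ℕ) := by
  have h := i.2
  rw [Nat.cast_sub (by omega), Nat.cast_sub (by omega)]
  simp

/-- the positive weights, at the points `y ac` -/
theorem prod_rpow_smul (a : Fin n → ℝ) (ha : ∑ i, a i = 0) {y : ℝ} (hy : 0 < y) (g : GR n) :
    ∏ i, (y * ac g i) ^ (a i + rho n i) = ∏ i, ac g i ^ (a i + rho n i) := by
  have h1 : ∀ i, (y * ac g i) ^ (a i + rho n i) = y ^ (a i + rho n i) * ac g i ^ (a i + rho n i) := fun i =>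
    Real.mul_rpow hy.le (iw_ac_pos g i).le
  simp only [h1]
  rw [Finset.prod_mul_distrib, ← Real.rpow_sum_of_pos hy, Finset.sum_add_distrib, ha, sum_rho, add_zero,
    Real.rpow_zero, one_mul]

/-- the exponents -/
theorem prod_exps (a : Fin n → ℝ) {r : Fin n → ℝ} (hr : ∀ i, 0 < r i) :
    (∏ i, r i ^ (n - 1 - (i : ℕ))) * ((∏ i, r i ^ (a i + rho n i)) * (∏ i, r i) ^ (-(((n : ℝ) + 1) / 2))) =
      ∏ i, r i ^ (a i - 1) := by
  rw [← Real.finsetProd_rpow _ _ fun i _ => (hr i).le, ← Finset.prod_mul_distrib, ← Finset.prod_mul_distrib]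
  refine Finset.prod_congr rfl fun i _ => ?_
  rw [← Real.rpow_natCast, ← Real.rpow_add (hr i), ← Real.rpow_add (hr i), sub_cast]
  congr 1
  unfold rho
  ring

theorem measurable_ac' : Measurable fun g : GR n => ac g := measurable_pi_lambda _ fun i => iw_measurable_ac i

theorem measurableSet_pos : MeasurableSet {r : Fin n → ℝ | ∀ i, 0 < r i} := by
  have : {r : Fin n → ℝ | ∀ i, 0 < r i} = ⋂ i, {r | 0 < r i} := by
    ext r
    simp
  rw [this]
  exact MeasurableSet.iInter fun i => measurableSet_lt measurable_const (measurable_pi_apply i)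

/-- GJP -/
theorem gjp (hp : S_polar) (hb : S_bart) : S_gjp := by
  intro n hn
  obtain ⟨c, hc, h⟩ := bp hp hb n hn
  refine ⟨c, hc, fun W a hW ha => ?_⟩
  have hF : Measurable fun r : Fin n → ℝ =>
      ENNReal.ofReal ((∏ i, r i ^ (a i + rho n i)) * (∏ i, r i) ^ (-(((n : ℝ) + 1) / 2))) *
        W ((∏ i, r i) ^ (1 / (n : ℝ))) := by
    have hp : Measurable fun r : Fin n → ℝ => ∏ i, r i := Finset.measurable_fun_prod _ fun i _ => measurable_pi_apply i
    refine Measurable.mul (Measurable.ennreal_ofReal ?_) (hW.comp (hp.pow_const _))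
    exact (Finset.measurable_fun_prod _ fun i _ => (measurable_pi_apply i).pow_const _).mul (hp.pow_const _)
  have h2 := h _ hF
  have eR : ∫⁻ r in {r : Fin n → ℝ | ∀ i, 0 < r i},
        ENNReal.ofReal (Real.exp (-Real.pi * ∑ i, r i ^ 2) * ∏ i, r i ^ (n - 1 - (i : ℕ))) *
          (ENNReal.ofReal ((∏ i, r i ^ (a i + rho n i)) * (∏ i, r i) ^ (-(((n : ℝ) + 1) / 2))) *
            W ((∏ i, r i) ^ (1 / (n : ℝ)))) =
      ∫⁻ r in {r : Fin n → ℝ | ∀ i, 0 < r i},
        ENNReal.ofReal (Real.exp (-Real.pi * ∑ i, r i ^ 2) * ∏ i, r i ^ (a i - 1)) * W ((∏ i, r i) ^ (1 / (n : ℝ))) := by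
    refine setLIntegral_congr_fun measurableSet_pos fun r hr => ?_
    have hr' : ∀ i, 0 < r i := hr
    rw [← mul_assoc, ← ENNReal.ofReal_mul (mul_nonneg (Real.exp_pos _).le
      (Finset.prod_nonneg fun i _ => pow_nonneg (hr' i).le _)), mul_assoc (Real.exp _), prod_exps a hr']
  rw [eR] at h2
  rw [← h2]
  -- the left hand side
  have eL : ∀ y ∈ Set.Ioi (0 : ℝ), ENNReal.ofReal (y ^ (n ^ 2 - 1)) *
        ∫⁻ g, ENNReal.ofReal (Real.exp (-Real.pi * (y * hsn g) ^ 2)) *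
          (ENNReal.ofReal ((∏ i, (y * ac g i) ^ (a i + rho n i)) * (∏ i, (y * ac g i)) ^ (-(((n : ℝ) + 1) / 2))) *
            W ((∏ i, (y * ac g i)) ^ (1 / (n : ℝ)))) ∂(mu n) =
      ∫⁻ g, ENNReal.ofReal (Real.exp (-Real.pi * (y * hsn g) ^ 2) *
        y ^ (((n : ℝ) * (n - 1)) / 2 - 1)) * W y *
        ENNReal.ofReal (∏ i, ac g i ^ (a i + rho n i)) ∂(mu n) := by
    intro y hy
    have hy0 : (0 : ℝ) < y := hy
    rw [← lintegral_const_mul' _ _ ENNReal.ofReal_ne_top]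
    refine lintegral_congr fun g => ?_
    have hpos : 0 ≤ ∏ i, ac g i ^ (a i + rho n i) :=
      Finset.prod_nonneg fun i _ => Real.rpow_nonneg (iw_ac_pos g i).le _
    rw [prod_rpow_smul a ha hy0, prod_smul_ac, ← prod_smul_ac (y := y) g, root_prod hn hy0, prod_smul_ac, ← pow_exp hn hy0,
      ENNReal.ofReal_mul hpos, ENNReal.ofReal_mul (Real.exp_pos _).le, ENNReal.ofReal_mul (by positivity)]
    ring
  rw [setLIntegral_congr_fun measurableSet_Ioi eL]
  have hswap : ∫⁻ y in Set.Ioi (0 : ℝ), ∫⁻ g, ENNReal.ofReal (Real.exp (-Real.pi * (y * hsn g) ^ 2) *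
        y ^ (((n : ℝ) * (n - 1)) / 2 - 1)) * W y * ENNReal.ofReal (∏ i, ac g i ^ (a i + rho n i)) ∂(mu n) =
      ∫⁻ g, (∫⁻ y in Set.Ioi (0 : ℝ), ENNReal.ofReal (Real.exp (-Real.pi * (y * hsn g) ^ 2) *
        y ^ (((n : ℝ) * (n - 1)) / 2 - 1)) * W y * ENNReal.ofReal (∏ i, ac g i ^ (a i + rho n i))) ∂(mu n) := by
    refine lintegral_lintegral_swap ?_
    refine Measurable.aemeasurable ?_
    have hh : Measurable (hsn : GR n → ℝ) := continuous_hsn.measurable
    refine Measurable.mul (Measurable.mul (Measurable.ennreal_ofReal ?_) (hW.comp measurable_fst))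
      (Measurable.ennreal_ofReal ?_)
    · refine Measurable.mul (Real.measurable_exp.comp ?_) (measurable_fst.pow_const _)
      exact ((measurable_fst.mul (hh.comp measurable_snd)).pow_const 2).const_mul _
    · exact Finset.measurable_fun_prod _ fun i _ => ((iw_measurable_ac i).comp measurable_snd).pow_const _
  rw [hswap]
  refine lintegral_congr fun g => ?_
  have hh : Measurable fun y : ℝ => ENNReal.ofReal (Real.exp (-Real.pi * (y * hsn g) ^ 2) *
        y ^ (((n : ℝ) * (n - 1)) / 2 - 1)) * W y := by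
    refine Measurable.mul (Measurable.ennreal_ofReal ?_) hW
    refine Measurable.mul (Real.measurable_exp.comp ?_) (measurable_id.pow_const _)
    exact ((measurable_id.mul_const _).pow_const 2).const_mul _
  rw [lintegral_mul_const _ hh]
  congr 3

/-! ### The complex version -/

/-- the coordinates `(y, g) ↦ y ac(g)` -/
def Tm (n : ℕ) (p : ℝ × GR n) : Fin n → ℝ := fun i => p.1 * ac p.2 i

theorem measurable_Tm (n : ℕ) : Measurable (Tm n) :=
  measurable_pi_lambda _ fun i => measurable_fst.mul ((iw_measurable_ac i).comp measurable_snd)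

/-- the density on `(0, ∞) × SL_n(ℝ)` -/
def dn1 (n : ℕ) (p : ℝ × GR n) : ℝ := p.1 ^ (n ^ 2 - 1) * Real.exp (-Real.pi * (p.1 * hsn p.2) ^ 2)

theorem measurable_dn1 (n : ℕ) : Measurable (dn1 n) := by
  have hh : Measurable (hsn : GR n → ℝ) := continuous_hsn.measurable
  refine (measurable_fst.pow_const _).mul (Real.measurable_exp.comp ?_)
  exact ((measurable_fst.mul (hh.comp measurable_snd)).pow_const 2).const_mul _

/-- the density on the positive octant -/
def dn2 (n : ℕ) (r : Fin n → ℝ) : ℝ := Real.exp (-Real.pi * ∑ i, r i ^ 2) * ∏ i, r i ^ (n - 1 - (i : ℕ))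

theorem measurable_dn2 (n : ℕ) : Measurable (dn2 n) := by
  refine (Real.measurable_exp.comp (Measurable.const_mul ?_ _)).mul ?_
  · exact Finset.measurable_fun_sum _ fun i _ => (measurable_pi_apply i).pow_const 2
  · exact Finset.measurable_fun_prod _ fun i _ => (measurable_pi_apply i).pow_const _

/-- the base measure on `(0, ∞) × SL_n(ℝ)` -/
def bs1 (n : ℕ) : Measure (ℝ × GR n) := (volume.restrict (Set.Ioi (0 : ℝ))).prod (mu n)

/-- the base measure on the positive octant -/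
def bs2 (n : ℕ) : Measure (Fin n → ℝ) := volume.restrict {r : Fin n → ℝ | ∀ i, 0 < r i}

theorem ae_bs2 (n : ℕ) : ∀ᵐ r ∂(bs2 n), ∀ i, 0 < r i := ae_restrict_mem measurableSet_pos

theorem ae_bs1 (n : ℕ) : ∀ᵐ p ∂(bs1 n), 0 < p.1 := by
  unfold bs1
  have h : ∀ᵐ y ∂((volume : Measure ℝ).restrict (Set.Ioi (0 : ℝ))), 0 < y := ae_restrict_mem measurableSet_Ioi
  exact (Measure.quasiMeasurePreserving_fst).ae h

theorem dn2_nonneg {r : Fin n → ℝ} (hr : ∀ i, 0 < r i) : 0 ≤ dn2 n r :=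
  mul_nonneg (Real.exp_pos _).le (Finset.prod_nonneg fun i _ => pow_nonneg (hr i).le _)

theorem dn1_nonneg {p : ℝ × GR n} (hp : 0 < p.1) : 0 ≤ dn1 n p :=
  mul_nonneg (pow_nonneg hp.le _) (Real.exp_pos _).le

/-- the two measures agree -/
theorem map_eq (hp : S_polar) (hb : S_bart) (hn : 1 ≤ n) : ∃ c : ℝ, 0 < c ∧
    ((bs1 n).withDensity fun p => ENNReal.ofReal (dn1 n p)).map (Tm n) =
      ENNReal.ofReal c • (bs2 n).withDensity fun r => ENNReal.ofReal (dn2 n r) := by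
  obtain ⟨c, hc, h⟩ := bp hp hb n hn
  refine ⟨c, hc, Measure.ext fun A hA => ?_⟩
  have hind : Measurable (A.indicator (1 : (Fin n → ℝ) → ℝ≥0∞)) := measurable_one.indicator hA
  have h1 : ((bs1 n).withDensity fun p => ENNReal.ofReal (dn1 n p)).map (Tm n) A =
      ∫⁻ p, ENNReal.ofReal (dn1 n p) * A.indicator 1 (Tm n p) ∂(bs1 n) := by
    have hc' : Measurable fun p : ℝ × GR n => A.indicator (1 : (Fin n → ℝ) → ℝ≥0∞) (Tm n p) :=
      hind.comp (measurable_Tm n)
    rw [← lintegral_indicator_one hA, lintegral_map hind (measurable_Tm n),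
      lintegral_withDensity_eq_lintegral_mul _ (measurable_dn1 n).ennreal_ofReal hc']
    rfl
  have h2 : (ENNReal.ofReal c • (bs2 n).withDensity fun r => ENNReal.ofReal (dn2 n r)) A =
      ENNReal.ofReal c * ∫⁻ r, ENNReal.ofReal (dn2 n r) * A.indicator 1 r ∂(bs2 n) := by
    rw [Measure.smul_apply, smul_eq_mul, ← lintegral_indicator_one hA,
      lintegral_withDensity_eq_lintegral_mul _ (measurable_dn2 n).ennreal_ofReal hind]
    rfl
  rw [h1, h2]
  have h3 := h _ hind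
  change _ = ENNReal.ofReal c * ∫⁻ r in {r : Fin n → ℝ | ∀ i, 0 < r i}, ENNReal.ofReal (dn2 n r) * A.indicator 1 r
  rw [show (∫⁻ r in {r : Fin n → ℝ | ∀ i, 0 < r i}, ENNReal.ofReal (dn2 n r) * A.indicator 1 r) =
    ∫⁻ r in {r : Fin n → ℝ | ∀ i, 0 < r i},
        ENNReal.ofReal (Real.exp (-Real.pi * ∑ i, r i ^ 2) * ∏ i, r i ^ (n - 1 - (i : ℕ))) * A.indicator 1 r from rfl,
    ← h3]
  unfold bs1
  have hm : Measurable fun p : ℝ × GR n => ENNReal.ofReal (dn1 n p) * A.indicator 1 (Tm n p) :=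
    (measurable_dn1 n).ennreal_ofReal.mul (hind.comp (measurable_Tm n))
  rw [lintegral_prod _ hm.aemeasurable]
  refine setLIntegral_congr_fun measurableSet_Ioi fun y hy => ?_
  have hy0 : (0 : ℝ) < y := hy
  rw [← lintegral_const_mul' _ _ ENNReal.ofReal_ne_top]
  refine lintegral_congr fun g => ?_
  unfold dn1
  rw [ENNReal.ofReal_mul (pow_nonneg hy0.le _), mul_assoc]
  rfl

/-- integrability -/
theorem integrable_tr (hp : S_polar) (hb : S_bart) (hn : 1 ≤ n) : ∃ c : ℝ, 0 < c ∧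
    ∀ Ψ : (Fin n → ℝ) → ℂ, Measurable Ψ → Integrable (fun r => (dn2 n r : ℂ) * Ψ r) (bs2 n) →
      Integrable (fun p => (dn1 n p : ℂ) * Ψ (Tm n p)) (bs1 n) ∧
      ∫ p, (dn1 n p : ℂ) * Ψ (Tm n p) ∂(bs1 n) = c * ∫ r, (dn2 n r : ℂ) * Ψ r ∂(bs2 n) := by
  obtain ⟨c, hc, h⟩ := map_eq hp hb hn
  refine ⟨c, hc, fun Ψ hΨ hI => ?_⟩
  have hd2 : Measurable fun r => ENNReal.ofReal (dn2 n r) := (measurable_dn2 n).ennreal_ofReal
  have hd1 : Measurable fun p => ENNReal.ofReal (dn1 n p) := (measurable_dn1 n).ennreal_ofReal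
  have ht2 : ∀ᵐ r ∂(bs2 n), ENNReal.ofReal (dn2 n r) < ∞ := .of_forall fun r => ENNReal.ofReal_lt_top
  have ht1 : ∀ᵐ p ∂(bs1 n), ENNReal.ofReal (dn1 n p) < ∞ := .of_forall fun r => ENNReal.ofReal_lt_top
  have e2 : ∀ᵐ r ∂(bs2 n), (ENNReal.ofReal (dn2 n r)).toReal • Ψ r = (dn2 n r : ℂ) * Ψ r := by
    filter_upwards [ae_bs2 n] with r hr
    rw [ENNReal.toReal_ofReal (dn2_nonneg hr), Complex.real_smul]
  have e1 : ∀ᵐ p ∂(bs1 n), (ENNReal.ofReal (dn1 n p)).toReal • Ψ (Tm n p) = (dn1 n p : ℂ) * Ψ (Tm n p) := by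
    filter_upwards [ae_bs1 n] with p hp
    rw [ENNReal.toReal_ofReal (dn1_nonneg hp), Complex.real_smul]
  have hc0 : ENNReal.ofReal c ≠ 0 := by simpa using hc
  have hct : ENNReal.ofReal c ≠ ∞ := ENNReal.ofReal_ne_top
  have hI2 : Integrable Ψ ((bs2 n).withDensity fun r => ENNReal.ofReal (dn2 n r)) := by
    rw [integrable_withDensity_iff_integrable_smul' hd2 ht2]
    exact hI.congr (e2.mono fun r hr => hr.symm)
  have hI3 : Integrable Ψ (((bs1 n).withDensity fun p => ENNReal.ofReal (dn1 n p)).map (Tm n)) := by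
    rw [h]
    exact hI2.smul_measure hct
  have hI1 : Integrable (fun p => Ψ (Tm n p)) ((bs1 n).withDensity fun p => ENNReal.ofReal (dn1 n p)) :=
    (integrable_map_measure hΨ.aestronglyMeasurable (measurable_Tm n).aemeasurable).1 hI3
  constructor
  · rw [integrable_withDensity_iff_integrable_smul' hd1 ht1] at hI1
    exact hI1.congr e1
  · have h4 : ∫ r, Ψ r ∂(((bs1 n).withDensity fun p => ENNReal.ofReal (dn1 n p)).map (Tm n)) =
        ∫ p, Ψ (Tm n p) ∂((bs1 n).withDensity fun p => ENNReal.ofReal (dn1 n p)) :=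
      integral_map (measurable_Tm n).aemeasurable hΨ.aestronglyMeasurable
    rw [h, integral_smul_measure, integral_withDensity_eq_integral_toReal_smul hd2 ht2,
      integral_withDensity_eq_integral_toReal_smul hd1 ht1, integral_congr_ae e1, integral_congr_ae e2,
      ENNReal.toReal_ofReal hc.le] at h4
    rw [← h4, Complex.real_smul]

/-- the test function on the octant -/
def Ps (ν : Fin n → ℂ) (W : ℝ → ℝ) (r : Fin n → ℝ) : ℂ :=
  (∏ i, ((r i : ℝ) : ℂ) ^ (ν i + (rho n i : ℝ))) * (((∏ i, r i) ^ (-(((n : ℝ) + 1) / 2)) : ℝ) : ℂ) *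
    (W ((∏ i, r i) ^ (1 / (n : ℝ))) : ℂ)

theorem measurable_Ps (ν : Fin n → ℂ) {W : ℝ → ℝ} (hW : Continuous W) : Measurable (Ps ν W) := by
  have hp : Measurable fun r : Fin n → ℝ => ∏ i, r i := Finset.measurable_fun_prod _ fun i _ => measurable_pi_apply i
  refine Measurable.mul (Measurable.mul ?_ ?_) ?_
  · exact Finset.measurable_fun_prod _ fun i _ =>
      (Complex.measurable_ofReal.comp (measurable_pi_apply i)).pow_const _
  · exact Complex.measurable_ofReal.comp (hp.pow_const _)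
  · exact Complex.measurable_ofReal.comp (hW.measurable.comp (hp.pow_const _))

theorem cexps (ν : Fin n → ℂ) {r : Fin n → ℝ} (hr : ∀ i, 0 < r i) :
    ((∏ i, r i ^ (n - 1 - (i : ℕ)) : ℝ) : ℂ) * ((∏ i, ((r i : ℝ) : ℂ) ^ (ν i + (rho n i : ℝ))) *
      (((∏ i, r i) ^ (-(((n : ℝ) + 1) / 2)) : ℝ) : ℂ)) = ∏ i, ((r i : ℝ) : ℂ) ^ (ν i - 1) := by
  rw [← Real.finsetProd_rpow _ _ fun i _ => (hr i).le, Complex.ofReal_prod, Complex.ofReal_prod,
    ← Finset.prod_mul_distrib, ← Finset.prod_mul_distrib]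
  refine Finset.prod_congr rfl fun i _ => ?_
  have h0 : ((r i : ℝ) : ℂ) ≠ 0 := by exact_mod_cast (hr i).ne'
  rw [← Real.rpow_natCast, Complex.ofReal_cpow (hr i).le, Complex.ofReal_cpow (hr i).le,
    ← Complex.cpow_add _ _ h0, ← Complex.cpow_add _ _ h0, sub_cast]
  congr 1
  unfold rho
  push_cast
  ring

/-- the integrand on the octant -/
theorem dn2_Ps (ν : Fin n → ℂ) (W : ℝ → ℝ) {r : Fin n → ℝ} (hr : ∀ i, 0 < r i) :
    (dn2 n r : ℂ) * Ps ν W r = (Real.exp (-Real.pi * ∑ i, r i ^ 2) : ℂ) * (∏ i, ((r i : ℝ) : ℂ) ^ (ν i - 1)) *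
      (W ((∏ i, r i) ^ (1 / (n : ℝ))) : ℂ) := by
  rw [← cexps ν hr]
  unfold dn2 Ps
  push_cast
  ring

/-- the integrand on `(0, ∞) × SL_n(ℝ)` -/
theorem dn1_Ps (hn : 1 ≤ n) (ν : Fin n → ℂ) (hν : ∑ i, ν i = 0) (W : ℝ → ℝ) {p : ℝ × GR n} (hp : 0 < p.1) :
    (dn1 n p : ℂ) * Ps ν W (Tm n p) = psi ν p.2 *
      ((Real.exp (-Real.pi * (p.1 * hsn p.2) ^ 2) * p.1 ^ (((n : ℝ) * (n - 1)) / 2 - 1) * W p.1 : ℝ) : ℂ) := by
  obtain ⟨y, g⟩ := p
  simp only at hp
  have h1 : ∏ i, (((Tm n (y, g)) i : ℝ) : ℂ) ^ (ν i + (rho n i : ℝ)) = psi ν g := by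
    have h2 : ∀ i, (((Tm n (y, g)) i : ℝ) : ℂ) ^ (ν i + (rho n i : ℝ)) =
        (y : ℂ) ^ (ν i + (rho n i : ℝ)) * ((ac g i : ℝ) : ℂ) ^ (ν i + (rho n i : ℝ)) := by
      intro i
      change (((y * ac g i : ℝ)) : ℂ) ^ _ = _
      rw [Complex.ofReal_mul, Complex.mul_cpow_ofReal_nonneg hp.le (iw_ac_pos g i).le]
    simp only [h2]
    rw [Finset.prod_mul_distrib]
    have h0 : (y : ℂ) ≠ 0 := by exact_mod_cast hp.ne'
    have h3 : ∏ i, (y : ℂ) ^ (ν i + (rho n i : ℝ)) = 1 := by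
      simp only [Complex.cpow_def_of_ne_zero h0]
      rw [← Complex.exp_sum, ← Finset.mul_sum, Finset.sum_add_distrib, hν, ← Complex.ofReal_sum, sum_rho]
      simp
    rw [h3, one_mul]
    rfl
  have h4 : (∏ i, Tm n (y, g) i) = y ^ n := prod_smul_ac g
  have h5 : (∏ i, Tm n (y, g) i) ^ (1 / (n : ℝ)) = y := root_prod hn hp g
  unfold Ps
  rw [h1, h5, h4]
  unfold dn1
  simp only
  rw [← pow_exp hn hp]
  push_cast
  ring

/-- the integrals over the octant converge -/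
theorem octant_int (ν : Fin n → ℂ) {W : ℝ → ℝ} (hn : 1 ≤ n) (hW : Continuous W) (hWc : HasCompactSupport W)
    {δ : ℝ} (hδ : 0 < δ) (hWδ : ∀ y, W y ≠ 0 → δ ≤ y) :
    Integrable (fun r => (dn2 n r : ℂ) * Ps ν W r) (bs2 n) := by
  obtain ⟨B, hB⟩ := hW.bounded_above_of_compact_support hWc
  have hB0 : 0 ≤ B := (norm_nonneg _).trans (hB 0)
  set K : ℝ := ∑ i, |(ν i).re| + 1 with hK
  have hKi : ∀ i, 0 < (ν i).re + K := by
    intro i
    have h1 : |(ν i).re| ≤ ∑ i, |(ν i).re| :=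
      Finset.single_le_sum (f := fun i => |(ν i).re|) (fun j _ => abs_nonneg _) (Finset.mem_univ i)
    have h2 := neg_abs_le (ν i).re
    linarith
  have hK0 : 0 ≤ K := add_nonneg (Finset.sum_nonneg fun i _ => abs_nonneg _) zero_le_one
  have hdom : Integrable (fun r : Fin n → ℝ => (B * δ ^ (-(n : ℝ) * K)) * ∏ i, (r i ^ ((ν i).re - 1 + K) *
      Real.exp (-Real.pi * r i ^ 2))) (bs2 n) := by
    refine Integrable.const_mul ?_ _
    have e : bs2 n = Measure.pi fun _ : Fin n => (volume : Measure ℝ).restrict (Set.Ioi 0) := by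
      unfold bs2
      rw [← Measure.restrict_pi_pi]
      congr 1
      ext r
      simp
    rw [e]
    refine Integrable.fintype_prod (f := fun i (x : ℝ) => x ^ ((ν i).re - 1 + K) * Real.exp (-Real.pi * x ^ 2))
      fun i => ?_
    exact integrableOn_rpow_mul_exp_neg_mul_sq Real.pi_pos (by linarith [hKi i])
  refine hdom.mono' ?_ ?_
  · exact ((Complex.measurable_ofReal.comp (measurable_dn2 n)).mul (measurable_Ps ν hW)).aestronglyMeasurable
  · filter_upwards [ae_bs2 n] with r hr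
    rw [dn2_Ps ν W hr, norm_mul, norm_mul, norm_prod]
    have hP : 0 < ∏ i, r i := Finset.prod_pos fun i _ => hr i
    have e1 : ‖((Real.exp (-Real.pi * ∑ i, r i ^ 2) : ℝ) : ℂ)‖ = ∏ i, Real.exp (-Real.pi * r i ^ 2) := by
      rw [Complex.norm_real, Real.norm_of_nonneg (Real.exp_pos _).le, Finset.mul_sum, Real.exp_sum]
    have e2 : ∀ i, ‖((r i : ℝ) : ℂ) ^ (ν i - 1)‖ = r i ^ ((ν i).re - 1) := by
      intro i
      rw [Complex.norm_cpow_eq_rpow_re_of_pos (hr i)]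
      simp
    have e3 : ‖((W ((∏ i, r i) ^ (1 / (n : ℝ))) : ℝ) : ℂ)‖ ≤ B * δ ^ (-(n : ℝ) * K) * ∏ i, r i ^ K := by
      rw [Complex.norm_real]
      by_cases h0 : W ((∏ i, r i) ^ (1 / (n : ℝ))) = 0
      · rw [h0, norm_zero]
        exact mul_nonneg (mul_nonneg hB0 (Real.rpow_nonneg hδ.le _))
          (Finset.prod_nonneg fun i _ => Real.rpow_nonneg (hr i).le _)
      · have h1 := hWδ _ h0
        have hn0 : (n : ℝ) ≠ 0 := by positivity
        have h2 : δ ^ ((n : ℝ) * K) ≤ (∏ i, r i) ^ K := by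
          have h3 : (δ ^ (n : ℝ)) ≤ ∏ i, r i := by
            have := Real.rpow_le_rpow hδ.le h1 (Nat.cast_nonneg n)
            rw [← Real.rpow_mul hP.le, one_div, inv_mul_cancel₀ hn0, Real.rpow_one] at this
            exact this
          rw [Real.rpow_mul hδ.le]
          exact Real.rpow_le_rpow (Real.rpow_nonneg hδ.le _) h3 hK0
        have h4 : (1 : ℝ) ≤ δ ^ (-(n : ℝ) * K) * ∏ i, r i ^ K := by
          rw [Real.finsetProd_rpow _ _ fun i _ => (hr i).le]
          have h5 : δ ^ (-(n : ℝ) * K) * δ ^ ((n : ℝ) * K) = 1 := by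
            rw [← Real.rpow_add hδ, neg_mul, neg_add_cancel, Real.rpow_zero]
          rw [← h5]
          gcongr
        calc ‖W ((∏ i, r i) ^ (1 / (n : ℝ)))‖ ≤ B * 1 := by rw [mul_one]; exact hB _
          _ ≤ B * (δ ^ (-(n : ℝ) * K) * ∏ i, r i ^ K) := by gcongr
          _ = _ := by ring
    rw [e1]
    simp only [e2]
    calc (∏ i, Real.exp (-Real.pi * r i ^ 2)) * (∏ i, r i ^ ((ν i).re - 1)) *
          ‖((W ((∏ i, r i) ^ (1 / (n : ℝ))) : ℝ) : ℂ)‖
        ≤ (∏ i, Real.exp (-Real.pi * r i ^ 2)) * (∏ i, r i ^ ((ν i).re - 1)) *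
          (B * δ ^ (-(n : ℝ) * K) * ∏ i, r i ^ K) := by
          refine mul_le_mul_of_nonneg_left e3 (mul_nonneg ?_ ?_)
          · exact Finset.prod_nonneg fun i _ => (Real.exp_pos _).le
          · exact Finset.prod_nonneg fun i _ => Real.rpow_nonneg (hr i).le _
      _ = _ := by
          have h6 : (∏ i, (r i ^ ((ν i).re - 1 + K) * Real.exp (-Real.pi * r i ^ 2))) =
              (∏ i, Real.exp (-Real.pi * r i ^ 2)) * (∏ i, r i ^ ((ν i).re - 1)) * ∏ i, r i ^ K := by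
            rw [← Finset.prod_mul_distrib, ← Finset.prod_mul_distrib]
            refine Finset.prod_congr rfl fun i _ => ?_
            rw [Real.rpow_add (hr i)]
            ring
          rw [h6]
          ring

/-- GJ -/
theorem gj (hp : S_polar) (hb : S_bart) : S_gj := by
  intro n hn
  obtain ⟨c, hc, h⟩ := integrable_tr (n := n) hp hb hn
  refine ⟨c, hc, fun W ν hW _ hWc hδ hν => ?_⟩
  obtain ⟨δ, hδ0, hWδ⟩ := hδ
  obtain ⟨h1, h2⟩ := h (Ps ν W) (measurable_Ps ν hW) (octant_int ν hn hW hWc hδ0 hWδ)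
  have e2 : ∫ r, (dn2 n r : ℂ) * Ps ν W r ∂(bs2 n) = JW ν W := by
    unfold JW
    exact integral_congr_ae ((ae_bs2 n).mono fun r hr => dn2_Ps ν W hr)
  have h3 : Integrable (fun p : ℝ × GR n => psi ν p.2 *
      ((Real.exp (-Real.pi * (p.1 * hsn p.2) ^ 2) * p.1 ^ (((n : ℝ) * (n - 1)) / 2 - 1) * W p.1 : ℝ) : ℂ))
      (bs1 n) := h1.congr ((ae_bs1 n).mono fun p hp => dn1_Ps hn ν hν W hp)
  have e1 : ∫ p, (dn1 n p : ℂ) * Ps ν W (Tm n p) ∂(bs1 n) = ∫ p : ℝ × GR n, psi ν p.2 *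
      ((Real.exp (-Real.pi * (p.1 * hsn p.2) ^ 2) * p.1 ^ (((n : ℝ) * (n - 1)) / 2 - 1) * W p.1 : ℝ) : ℂ)
      ∂(bs1 n) := integral_congr_ae ((ae_bs1 n).mono fun p hp => dn1_Ps hn ν hν W hp)
  have h4 : ∀ g : GR n, ∫ y in Set.Ioi (0 : ℝ), psi ν g *
      ((Real.exp (-Real.pi * (y * hsn g) ^ 2) * y ^ (((n : ℝ) * (n - 1)) / 2 - 1) * W y : ℝ) : ℂ) =
      psi ν g * (kerW W g : ℂ) := by
    intro g
    rw [integral_const_mul, integral_complex_ofReal]
    rfl
  unfold bs1 at h3 e1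
  constructor
  · have := h3.integral_prod_right
    simp only [h4] at this
    exact this
  · rw [← e2, ← h2]
    unfold bs1
    rw [e1, integral_prod_symm _ h3]
    simp only [h4]

end Pool.Agent.T2h77.N
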