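import Pool.Agent.T2h77N.KerA

/-!
# The test functions for the infinite place: the statement `S_ker`
-/

set_option autoImplicit false

open MeasureTheory Matrix
open scoped MatrixGroups ENNReal Topology

noncomputable section

namespace Pool.Agent.T2h77.N

theorem kerW_eq {n : ℕ} (W : ℝ → ℝ) (g : GR n) : kerW W g = KK (((n : ℝ) * (n - 1)) / 2) W (hsn g) := rfl

theorem pow_exp_le (K : ℕ) {h : ℝ} (hh : 0 ≤ h) :
    h ^ K * Real.exp (-(Real.pi / 2) * h) ≤ K.factorial * (4 / Real.pi) ^ K * Real.exp (-(Real.pi / 4) * h) := by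
  have hpi := Real.pi_pos
  have h1 := Real.pow_div_factorial_le_exp (Real.pi / 4 * h) (by positivity) K
  have h2 : h ^ K = (4 / Real.pi) ^ K * (Real.pi / 4 * h) ^ K := by
    rw [← mul_pow]
    congr 1
    field_simp
  have h3 : (Real.pi / 4 * h) ^ K ≤ K.factorial * Real.exp (Real.pi / 4 * h) := by
    have h4 : (0 : ℝ) < K.factorial := by exact_mod_cast K.factorial_pos
    rw [div_le_iff₀ h4] at h1
    linarith
  have h5 : Real.exp (-(Real.pi / 4) * h) = Real.exp (Real.pi / 4 * h) * Real.exp (-(Real.pi / 2) * h) := by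
    rw [← Real.exp_add]
    congr 1
    ring
  rw [h5, h2]
  calc (4 / Real.pi) ^ K * (Real.pi / 4 * h) ^ K * Real.exp (-(Real.pi / 2) * h)
      ≤ (4 / Real.pi) ^ K * (K.factorial * Real.exp (Real.pi / 4 * h)) * Real.exp (-(Real.pi / 2) * h) := by gcongr
    _ = _ := by ring

theorem tail_pt {n : ℕ} (hn : 1 ≤ n) {X : ℝ} (hX : 1 ≤ X) (K : ℕ) {h : ℝ} (hh : X ^ 2 ≤ h) :
    h ^ K * Real.exp (-Real.pi * (Real.exp (-Real.log X / n) * h) ^ 2) ≤
      K.factorial * (4 / Real.pi) ^ K * Real.exp (-(Real.pi / 4) * X) *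
        Real.exp (-(Real.pi / 2) * (Real.exp (-Real.log X / n) * h) ^ 2) := by
  have hpi := Real.pi_pos
  have hn' : (1 : ℝ) ≤ n := by exact_mod_cast hn
  have hX0 : 0 < X := by linarith
  have hl : 0 ≤ Real.log X := Real.log_nonneg hX
  have hX2 : X ≤ X ^ 2 := by nlinarith
  have hh0 : 0 < h := by nlinarith
  set y := Real.exp (-Real.log X / n) with hy
  have hyX : X⁻¹ ≤ y := by
    have h0 : X⁻¹ = Real.exp (-Real.log X) := by rw [Real.exp_neg, Real.exp_log hX0]
    rw [h0, hy]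
    apply Real.exp_le_exp.mpr
    rw [neg_div]
    have := div_le_self hl hn'
    linarith
  have h1 : h ≤ (y * h) ^ 2 := by
    have h2 : X⁻¹ * h ≤ y * h := mul_le_mul_of_nonneg_right hyX hh0.le
    have h3 : (X⁻¹ * h) ^ 2 ≤ (y * h) ^ 2 := pow_le_pow_left₀ (by positivity) h2 2
    refine le_trans ?_ h3
    rw [mul_pow, inv_pow, inv_mul_eq_div, le_div_iff₀ (by positivity)]
    nlinarith
  have h2 : Real.exp (-Real.pi * (y * h) ^ 2) ≤
      Real.exp (-(Real.pi / 2) * h) * Real.exp (-(Real.pi / 2) * (y * h) ^ 2) := by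
    rw [← Real.exp_add]
    apply Real.exp_le_exp.mpr
    nlinarith
  have h3 : Real.exp (-(Real.pi / 4) * h) ≤ Real.exp (-(Real.pi / 4) * X) := by
    apply Real.exp_le_exp.mpr
    nlinarith
  calc h ^ K * Real.exp (-Real.pi * (y * h) ^ 2)
      ≤ h ^ K * (Real.exp (-(Real.pi / 2) * h) * Real.exp (-(Real.pi / 2) * (y * h) ^ 2)) := by gcongr
    _ = (h ^ K * Real.exp (-(Real.pi / 2) * h)) * Real.exp (-(Real.pi / 2) * (y * h) ^ 2) := by ring
    _ ≤ (K.factorial * (4 / Real.pi) ^ K * Real.exp (-(Real.pi / 4) * h)) *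
        Real.exp (-(Real.pi / 2) * (y * h) ^ 2) := by
          exact mul_le_mul_of_nonneg_right (pow_exp_le K hh0.le) (Real.exp_pos _).le
    _ ≤ _ := by gcongr

/-- the weight of the kernels -/
theorem gauss_int {n : ℕ} {b C y : ℝ}
    (h : ∫⁻ g : GR n, ENNReal.ofReal (Real.exp (-b * (y * hsn g) ^ 2)) ∂(mu n) ≤
      ENNReal.ofReal (C * y ^ (-((n : ℝ) * (n - 1))))) {M : ℝ} (hM : 0 ≤ M) :
    ∫⁻ g : GR n, ENNReal.ofReal (M * Real.exp (-b * (y * hsn g) ^ 2)) ∂(mu n) ≤
      ENNReal.ofReal (M * C * y ^ (-((n : ℝ) * (n - 1)))) := by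
  have h1 : ∀ g : GR n, ENNReal.ofReal (M * Real.exp (-b * (y * hsn g) ^ 2)) =
      ENNReal.ofReal M * ENNReal.ofReal (Real.exp (-b * (y * hsn g) ^ 2)) := fun g =>
    ENNReal.ofReal_mul hM
  simp only [h1]
  rw [lintegral_const_mul' _ _ ENNReal.ofReal_ne_top, mul_assoc, ENNReal.ofReal_mul hM]
  gcongr

theorem ker' : S_gj → S_lb → S_norm → S_ker := by
  intro hgj hlb hnorm n hn
  refine ⟨2, by norm_num, fun T => ?_⟩
  have hn1 : (1 : ℝ) ≤ n := by exact_mod_cast hn
  have hn0 : (0 : ℝ) < n := by linarith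
  obtain ⟨cg, hcg, hgj⟩ := hgj n hn
  obtain ⟨w, cl, s₀, hw1, hw2, hcl, hlb⟩ := hlb n T hn
  obtain ⟨C2, hC2, hnorm2⟩ := hnorm n (2 * Real.pi) hn (by positivity)
  obtain ⟨C3, hC3, hnorm3⟩ := hnorm n (Real.pi / 2) hn (by positivity)
  choose Ak hAk0 hAk using fun k => iter_bound hw1 hw2 k
  set T' := |T| with hT'
  have hT0 : 0 ≤ T' := abs_nonneg T
  obtain ⟨m, hm⟩ : ∃ m : ℝ, m = ((n : ℝ) * (n - 1)) / 2 := ⟨_, rfl⟩
  have hm0 : 0 ≤ m := by
    rw [hm]
    have : 0 ≤ (n : ℝ) - 1 := by linarith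
    positivity
  obtain ⟨A, hA⟩ : ∃ A : ℝ, A = ∑ k ∈ Finset.range n, Ak k := ⟨_, rfl⟩
  have hA0 : 0 ≤ A := by rw [hA]; exact Finset.sum_nonneg fun k _ => hAk0 k
  have hAk' : ∀ k < n, ∀ u, |iteratedDeriv k w u| ≤ A := fun k hk u => by
    refine (hAk k u).trans ?_
    rw [hA]
    exact Finset.single_le_sum (f := Ak) (fun k _ => hAk0 k) (Finset.mem_range.mpr hk)
  obtain ⟨M, hM⟩ : ∃ M : ℝ, M = A * Real.exp (1 / n) ^ (m + 1) := ⟨_, rfl⟩
  have hM0 : 0 ≤ M := by rw [hM]; positivity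
  obtain ⟨K, hK⟩ := exists_nat_ge ((n : ℝ) * (n * (T' + n + 1)))
  obtain ⟨D, hD⟩ : ∃ D : ℝ, D = K.factorial * (4 / Real.pi) ^ K := ⟨_, rfl⟩
  have hD0 : 0 ≤ D := by rw [hD]; positivity
  -- the threshold
  have hlim := tendsto_rpow_mul_exp_neg_mul_atTop_nhds_zero (m + T') (Real.pi / 4) (by positivity)
  have hε : 0 < cg * cl / 2 / (M * D * C3 + 1) := by positivity
  obtain ⟨X₁, hX₁⟩ := Filter.eventually_atTop.mp ((hlim.eventually (gt_mem_nhds hε)))
  refine ⟨cg * cl / 2, max 2 (M ^ 2 * C2), max (max 1 X₁) (Real.exp s₀), by positivity,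
    le_max_of_le_left (by norm_num), le_max_of_le_left (le_max_left _ _), fun X hX => ?_⟩
  have hX1 : 1 ≤ X := (le_max_left _ _).trans ((le_max_left _ _).trans hX)
  have hXX : X₁ ≤ X := (le_max_right _ _).trans ((le_max_left _ _).trans hX)
  have hXs : Real.exp s₀ ≤ X := (le_max_right _ _).trans hX
  have hX0 : 0 < X := by linarith
  obtain ⟨s, hs⟩ : ∃ s : ℝ, s = Real.log X := ⟨_, rfl⟩
  have hs0 : s₀ ≤ s := by rw [hs]; exact (Real.le_log_iff_exp_le hX0).mpr hXs
  have hs1 : 0 ≤ s := by rw [hs]; exact Real.log_nonneg hX1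
  obtain ⟨y0, hy0⟩ : ∃ y : ℝ, y = Real.exp (-s / n) := ⟨_, rfl⟩
  obtain ⟨y1, hy1⟩ : ∃ y : ℝ, y = Real.exp ((1 - s) / n) := ⟨_, rfl⟩
  have hy0p : 0 < y0 := by rw [hy0]; exact Real.exp_pos _
  have hy01 : y0 ≤ y1 := by
    rw [hy0, hy1]
    apply Real.exp_le_exp.mpr
    gcongr
    linarith
  have hyq : y1 / y0 = Real.exp (1 / n) := by
    rw [hy0, hy1, ← Real.exp_sub]
    congr 1
    ring
  have hWs : ∀ k y, wk n w k s y ≠ 0 → y0 ≤ y ∧ y ≤ y1 := fun k y h => by
    rw [hy0, hy1]; exact wk_supp hn hw2 h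
  have hWc : ∀ k, Continuous (wk n w k s) := fun k => wk_cont hn hw1 hw2 k s
  have hWA : ∀ k < n, ∀ y, |wk n w k s y| ≤ A := fun k hk y => by
    unfold wk
    split_ifs
    · exact hAk' k hk _
    · simpa using hA0
  have hKb : ∀ k < n, ∀ t, |KK m (wk n w k s) t| ≤ M * y0 ^ m * Real.exp (-Real.pi * (y0 * t) ^ 2) := by
    intro k hk t
    have := KK_bound hm0 hy0p hy01 hA0 (hWs k) (hWA k hk) t
    rwa [hyq, ← hM] at this
  have hKc : ∀ k, Continuous (KK m (wk n w k s)) := fun k => KK_cont hy0p (hWc k) (hWs k)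
  have hR : 0 < X ^ 2 := by positivity
  -- the functions
  have hκc : ∀ k : Fin n, Continuous fun g : GR n => KK m (wk n w k s) (hsn g) * thK (hsn g / X ^ 2) := fun k =>
    ((hKc k).comp hsn_cont).mul (thK_cont.comp (hsn_cont.div_const _))
  have hκs : ∀ (k : Fin n) (g : GR n), KK m (wk n w k s) (hsn g) * thK (hsn g / X ^ 2) ≠ 0 →
      hsn g ≤ 2 * X ^ 2 := by
    intro k g h
    by_contra hc
    push Not at hc
    apply h
    rw [thK_zero, mul_zero]
    rw [le_div_iff₀ hR]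
    exact hc.le
  refine ⟨fun k g => KK m (wk n w k s) (hsn g) * thK (hsn g / X ^ 2), fun k => ⟨hκc k, ?_, ?_, ?_⟩, ?_, ?_, ?_⟩
  · refine HasCompactSupport.intro (hsn_compact (n := n) (2 * X ^ 2)) fun g hg => ?_
    by_contra hc
    exact hg (hκs k g hc)
  · intro k' h hk'
    simp only [hsn_left k' h hk']
  · intro k' h hk'
    simp only [hsn_right k' h hk']
  · intro k g h
    have h1 := hκs k g h
    have h2 : X ^ (2 : ℝ) = X ^ 2 := Real.rpow_two X
    rw [h2]
    exact h1.trans (mul_le_mul_of_nonneg_right (le_max_left _ _) hR.le)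
  · -- the norm
    intro k
    refine le_trans ?_ (le_max_right _ _)
    have h1 := gauss_int (n := n) (by simpa using hnorm2 y0 hy0p) (M := M ^ 2 * y0 ^ (2 * m)) (by positivity)
    have h2 : M ^ 2 * y0 ^ (2 * m) * C2 * y0 ^ (-((n : ℝ) * (n - 1))) = M ^ 2 * C2 := by
      have : (n : ℝ) * (n - 1) = 2 * m := by rw [hm]; ring
      rw [this, Real.rpow_neg hy0p.le]
      have h3 : y0 ^ (2 * m) ≠ 0 := (Real.rpow_pos_of_pos hy0p _).ne'
      field_simp
    rw [h2] at h1
    refine sq_abs_int (by positivity) ?_ (b := fun g : GR n => M ^ 2 * y0 ^ (2 * m) *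
      Real.exp (-(2 * Real.pi) * (y0 * hsn g) ^ 2)) ?_ ?_
    · exact ((hκc k).pow 2).measurable.aestronglyMeasurable
    · intro g
      have h3 := hKb k k.2 (hsn g)
      have h4 : |KK m (wk n w k s) (hsn g) * thK (hsn g / X ^ 2)| ≤
          M * y0 ^ m * Real.exp (-Real.pi * (y0 * hsn g) ^ 2) := by
        rw [abs_mul, abs_of_nonneg (thK_nonneg _)]
        exact (mul_le_of_le_one_right (abs_nonneg _) (thK_le _)).trans h3
      have h5 := pow_le_pow_left₀ (abs_nonneg _) h4 2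
      rw [sq_abs] at h5
      refine h5.trans (le_of_eq ?_)
      have h6 : Real.exp (-(2 * Real.pi) * (y0 * hsn g) ^ 2) = Real.exp (-Real.pi * (y0 * hsn g) ^ 2) ^ 2 := by
        rw [← Real.exp_nat_mul]
        congr 1
        push_cast
        ring
      have h7 : y0 ^ (2 * m) = (y0 ^ m) ^ 2 := by
        rw [mul_comm, Real.rpow_mul hy0p.le, Real.rpow_two]
      rw [h6, h7]
      ring
    · exact h1
  · -- the transform
    intro ν hν0 hνT i₀ hi₀
    have hνT' : ∀ i, ‖ν i‖ ≤ T' := fun i => (hνT i).trans (le_abs_self T)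
    obtain ⟨k, hk, hJ⟩ := hlb s hs0 ν hνT i₀ hi₀
    refine ⟨⟨k, hk⟩, ?_⟩
    obtain ⟨hgi, hge⟩ := hgj (wk n w k s) ν (hWc k) (fun y hy => hy0p.trans_le (hWs k y hy).1)
      (HasCompactSupport.intro (isCompact_Icc (a := y0) (b := y1)) fun y hy => by
        by_contra hne
        exact hy (hWs k y hne))
      ⟨y0, hy0p, fun y hy => (hWs k y hy).1⟩ hν0
    have hXe : Real.exp (-(ν i₀).re * s) = X ^ (-(ν i₀).re) := by
      rw [Real.rpow_def_of_pos hX0, hs]
      congr 1
      ring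
    have hXT : X ^ (-T') ≤ X ^ (-(ν i₀).re) := by
      apply Real.rpow_le_rpow_of_exponent_le hX1
      have := (Complex.re_le_norm (ν i₀)).trans (hνT' i₀)
      linarith
    obtain ⟨E, hE⟩ : ∃ E : ℝ, E = M * D * C3 * X ^ m * Real.exp (-(Real.pi / 4) * X) := ⟨_, rfl⟩
    have hE0 : 0 ≤ E := by rw [hE]; positivity
    have hEle : E ≤ cg * cl / 2 * X ^ (-T') := by
      have h1 := hX₁ X hXX
      have h2 : E * X ^ T' ≤ cg * cl / 2 := by
        have h3 : E * X ^ T' = M * D * C3 * (X ^ (m + T') * Real.exp (-(Real.pi / 4) * X)) := by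
          rw [hE, Real.rpow_add hX0]; ring
        rw [h3]
        have h4 : (M * D * C3 + 1) * (cg * cl / 2 / (M * D * C3 + 1)) = cg * cl / 2 := by
          have : M * D * C3 + 1 ≠ 0 := by positivity
          field_simp
        have h5 : 0 ≤ X ^ (m + T') * Real.exp (-(Real.pi / 4) * X) := by positivity
        calc M * D * C3 * (X ^ (m + T') * Real.exp (-(Real.pi / 4) * X))
            ≤ (M * D * C3 + 1) * (X ^ (m + T') * Real.exp (-(Real.pi / 4) * X)) := by
              apply mul_le_mul_of_nonneg_right (by linarith) h5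
          _ ≤ (M * D * C3 + 1) * (cg * cl / 2 / (M * D * C3 + 1)) :=
              mul_le_mul_of_nonneg_left h1.le (by positivity)
          _ = _ := h4
      rw [Real.rpow_neg hX0.le]
      rw [← div_eq_mul_inv, le_div_iff₀ (Real.rpow_pos_of_pos hX0 _)]
      exact h2
    have hL : cg * cl * X ^ (-(ν i₀).re) ≤
        ‖∫ g : GR n, psi ν g * ((KK m (wk n w k s) (hsn g) : ℝ) : ℂ) ∂(mu n)‖ := by
      have h1 : ∫ g : GR n, psi ν g * ((KK m (wk n w k s) (hsn g) : ℝ) : ℂ) ∂(mu n) = cg * JW ν (wk n w k s) := by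
        rw [← hge, hm]
        rfl
      rw [h1, norm_mul, Complex.norm_real, Real.norm_eq_abs, abs_of_pos hcg, mul_assoc]
      apply mul_le_mul_of_nonneg_left _ hcg.le
      rw [← hXe]
      exact hJ
    have hgi' : Integrable (fun g : GR n => psi ν g * ((KK m (wk n w k s) (hsn g) : ℝ) : ℂ)) (mu n) := by
      rw [hm]; exact hgi
    have h8 := gauss_int (n := n) (by simpa using hnorm3 y0 hy0p)
      (M := M * y0 ^ m * D * Real.exp (-(Real.pi / 4) * X)) (by positivity)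
    have hfin := trunc_abs (μ := mu n) (θ := fun g : GR n => thK (hsn g / X ^ 2)) (E := E)
      (b := fun g : GR n => M * y0 ^ m * D * Real.exp (-(Real.pi / 4) * X) *
        Real.exp (-(Real.pi / 2) * (y0 * hsn g) ^ 2)) hgi'
      (thK_cont.comp (hsn_cont.div_const _)).measurable (fun g => thK_nonneg _) (fun g => thK_le _) hE0 ?_ ?_ hL
    · refine le_trans ?_ hfin
      have h9 : 0 ≤ cg * cl / 2 := by positivity
      nlinarith
    · intro g
      have hg0 := hsn_nonneg g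
      by_cases hg : hsn g ≤ X ^ 2
      · rw [thK_one (by rw [div_le_one hR]; exact hg), sub_self, mul_zero]
        positivity
      · push Not at hg
        have h1 : ‖psi ν g‖ ≤ hsn g ^ K := psi_bound hn hK ν hνT' g
        have h2 := hKb k hk (hsn g)
        have h3 := tail_pt hn hX1 K hg.le
        rw [← hs, ← hy0, ← hD] at h3
        calc ‖psi ν g‖ * |KK m (wk n w k s) (hsn g)| * (1 - thK (hsn g / X ^ 2))
            ≤ ‖psi ν g‖ * |KK m (wk n w k s) (hsn g)| * 1 := by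
              apply mul_le_mul_of_nonneg_left _ (by positivity)
              linarith [thK_nonneg (hsn g / X ^ 2)]
          _ ≤ hsn g ^ K * (M * y0 ^ m * Real.exp (-Real.pi * (y0 * hsn g) ^ 2)) := by
              rw [mul_one]
              exact mul_le_mul h1 h2 (abs_nonneg _) (by positivity)
          _ = M * y0 ^ m * (hsn g ^ K * Real.exp (-Real.pi * (y0 * hsn g) ^ 2)) := by ring
          _ ≤ M * y0 ^ m * (D * Real.exp (-(Real.pi / 4) * X) * Real.exp (-(Real.pi / 2) * (y0 * hsn g) ^ 2)) :=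
              mul_le_mul_of_nonneg_left h3 (by positivity)
          _ = _ := by ring
    · refine h8.trans (ENNReal.ofReal_le_ofReal ?_)
      have h1 : (n : ℝ) * (n - 1) = 2 * m := by rw [hm]; ring
      have h2 : y0 ^ m * y0 ^ (-((n : ℝ) * (n - 1))) ≤ X ^ m := by
        rw [h1, ← Real.rpow_add hy0p, hy0, ← Real.exp_mul, Real.rpow_def_of_pos hX0, ← hs]
        apply Real.exp_le_exp.mpr
        have h3 : -s / n * (m + -(2 * m)) = s * m / n := by ring
        rw [h3]
        exact div_le_self (by positivity) hn1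
      calc M * y0 ^ m * D * Real.exp (-(Real.pi / 4) * X) * C3 * y0 ^ (-((n : ℝ) * (n - 1)))
          = M * D * C3 * Real.exp (-(Real.pi / 4) * X) * (y0 ^ m * y0 ^ (-((n : ℝ) * (n - 1)))) := by ring
        _ ≤ M * D * C3 * Real.exp (-(Real.pi / 4) * X) * X ^ m := mul_le_mul_of_nonneg_left h2 (by positivity)
        _ = E := by rw [hE]; ring

theorem ker : S_iw → S_gjp → S_gj → S_lb → S_norm → S_ker := fun _ _ => ker'

end Pool.Agent.T2h77.N
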