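import Pool.Agent.T2h77N.Lb3

/-!
# The lower bound for the archimedean local integral
-/

set_option autoImplicit false

open MeasureTheory

noncomputable section

namespace Pool.Agent.T2h77.N

namespace Lb

theorem JJ_split {m : ℕ} (μ : Fin (m + 1) → ℂ) (i₀ : Fin (m + 1)) (V : ℝ → ℝ) (s : ℝ) :
    JJ μ V s = ∫ p : ℝ × (Fin m → ℝ), (∏ j, E (μ (i₀.succAbove j)) (p.2 j)) *
      (E (μ i₀) p.1 * (V (p.1 + (∑ j, p.2 j + s)) : ℂ))
        ∂((volume : Measure ℝ).prod (volume : Measure (Fin m → ℝ))) := by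
  unfold JJ
  have hmp := volume_preserving_piFinSuccAbove (fun _ : Fin (m + 1) => ℝ) i₀
  have h := hmp.integral_comp' (fun p : ℝ × (Fin m → ℝ) =>
    (∏ j, E (μ (i₀.succAbove j)) (p.2 j)) * (E (μ i₀) p.1 * (V (p.1 + (∑ j, p.2 j + s)) : ℂ)))
  refine Eq.trans ?_ h
  congr 1
  ext b
  have h1 : (MeasurableEquiv.piFinSuccAbove (fun _ : Fin (m + 1) => ℝ) i₀ b).1 = b i₀ := rfl
  have h2 : ∀ j, (MeasurableEquiv.piFinSuccAbove (fun _ : Fin (m + 1) => ℝ) i₀ b).2 j =
    b (i₀.succAbove j) := fun j => rfl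
  simp only [h1, h2]
  rw [Fin.prod_univ_succAbove _ i₀, Fin.sum_univ_succAbove _ i₀, add_assoc]
  ring

theorem one_sub_exp_le (x : ℝ) (hx : 0 ≤ x) : 1 - Real.exp (-x) ≤ √x := by
  rcases le_total 1 x with h | h
  · have h1 : 1 ≤ √x := Real.one_le_sqrt.2 h
    have := Real.exp_pos (-x)
    linarith
  · have h1 : x ≤ √x := by
      have h2 := Real.mul_self_sqrt hx
      have h3 : √x ≤ 1 := Real.sqrt_le_one.2 h
      nlinarith [Real.sqrt_nonneg x]
    have := Real.add_one_le_exp (-x)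
    linarith

theorem E_ofReal (x b : ℝ) : E (x : ℂ) b = ((‖E (x : ℂ) b‖ : ℝ) : ℂ) := by
  rw [norm_E, E, Complex.ofReal_re]
  push_cast
  rfl

theorem norm_E_re (z : ℂ) (b : ℝ) : ‖E z b‖ = ‖E ((z.re : ℝ) : ℂ) b‖ := by
  rw [norm_E, norm_E, Complex.ofReal_re]

theorem FF_ofReal {m : ℕ} (α : Fin m → ℝ) (β : ℝ) {V : ℝ → ℝ} (hV : ∀ u, 0 ≤ V u) (s : ℝ)
    (p : ℝ × (Fin m → ℝ)) :
    FF (fun j => ((α j : ℝ) : ℂ)) (β : ℂ) V s p =
      ((‖FF (fun j => ((α j : ℝ) : ℂ)) (β : ℂ) V s p‖ : ℝ) : ℂ) := by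
  unfold FF
  rw [norm_mul, norm_prod, norm_mul, Complex.ofReal_mul, Complex.ofReal_mul, Complex.ofReal_prod]
  congr 1
  · refine Finset.prod_congr rfl fun j _ => ?_
    exact E_ofReal _ _
  · congr 1
    · rw [← Complex.ofReal_mul, ← Complex.ofReal_exp, Complex.norm_real, Real.norm_eq_abs,
        abs_of_pos (Real.exp_pos _)]
    · rw [Complex.norm_real, Real.norm_eq_abs, abs_of_nonneg (hV _)]

theorem FF_norm_integral {m : ℕ} (α : Fin m → ℝ) (β : ℝ) {V : ℝ → ℝ} (hV : Cs V)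
    (hV0 : ∀ u, 0 ≤ V u) (s : ℝ) (h : ∀ j, 0 < α j - β) :
    ∫ p, ‖FF (fun j => ((α j : ℝ) : ℂ)) (β : ℂ) V s p‖
        ∂((volume : Measure ℝ).prod (volume : Measure (Fin m → ℝ))) =
      Real.exp (-(β * s)) * ‖L β V‖ * ∏ j, ‖G ((α j : ℂ) - β)‖ := by
  have h1 := FF_integral (fun j => ((α j : ℝ) : ℂ)) (β : ℂ) hV s (fun j => by
    rw [← Complex.ofReal_sub, Complex.ofReal_re]; exact h j)
  have h2 : ∫ p, FF (fun j => ((α j : ℝ) : ℂ)) (β : ℂ) V s p
        ∂((volume : Measure ℝ).prod (volume : Measure (Fin m → ℝ))) =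
      ((∫ p, ‖FF (fun j => ((α j : ℝ) : ℂ)) (β : ℂ) V s p‖
        ∂((volume : Measure ℝ).prod (volume : Measure (Fin m → ℝ))) : ℝ) : ℂ) := by
    rw [← integral_complex_ofReal]
    congr 1
    ext p
    exact FF_ofReal α β hV0 s p
  rw [h2] at h1
  have h3 := congrArg norm h1
  rw [Complex.norm_real, Real.norm_eq_abs, abs_of_nonneg (integral_nonneg fun p => norm_nonneg _),
    norm_mul, norm_mul, norm_prod] at h3
  rw [h3]
  congr 2
  rw [← Complex.ofReal_mul, ← Complex.ofReal_neg, ← Complex.ofReal_exp, Complex.norm_real,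
    Real.norm_eq_abs, abs_of_pos (Real.exp_pos _)]

theorem diff_le {m : ℕ} (α : Fin m → ℂ) (β : ℂ) {V : ℝ → ℝ}
    (hV0 : ∀ u, 0 ≤ V u) (s : ℝ) (p : ℝ × (Fin m → ℝ)) :
    ‖FF α β V s p - (∏ j, E (α j) (p.2 j)) * (E β p.1 * (V (p.1 + (∑ j, p.2 j + s)) : ℂ))‖ ≤
      √Real.pi * ‖FF (fun j => (((α j).re : ℝ) : ℂ)) ((β.re + 1 : ℝ) : ℂ) V s p‖ := by
  have h1 : FF α β V s p - (∏ j, E (α j) (p.2 j)) * (E β p.1 * (V (p.1 + (∑ j, p.2 j + s)) : ℂ)) =
      (∏ j, E (α j) (p.2 j)) * ((Complex.exp (β * p.1) * ((1 - Real.exp (-(Real.pi * Real.exp (2 * p.1))) : ℝ) : ℂ)) *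
        (V (p.1 + (∑ j, p.2 j + s)) : ℂ)) := by
    have h2 : E β p.1 = Complex.exp (β * p.1) *
        ((Real.exp (-(Real.pi * Real.exp (2 * p.1))) : ℝ) : ℂ) := by
      rw [E, Complex.ofReal_exp (-(Real.pi * Real.exp (2 * p.1))), ← Complex.exp_add]
      congr 1
      push_cast
      ring
    rw [FF, h2]
    push_cast
    ring
  rw [h1, FF, norm_mul, norm_mul, norm_mul, norm_prod, norm_mul, norm_prod, norm_mul]
  have h3 : ∏ j, ‖E (α j) (p.2 j)‖ = ∏ j, ‖E (((α j).re : ℝ) : ℂ) (p.2 j)‖ :=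
    Finset.prod_congr rfl fun j _ => norm_E_re _ _
  rw [h3]
  have h4 : ‖Complex.exp (β * p.1)‖ * ‖((1 - Real.exp (-(Real.pi * Real.exp (2 * p.1))) : ℝ) : ℂ)‖ ≤
      √Real.pi * ‖Complex.exp (((β.re + 1 : ℝ) : ℂ) * p.1)‖ := by
    rw [Complex.norm_exp, Complex.norm_exp, Complex.re_mul_ofReal, Complex.re_mul_ofReal,
      Complex.ofReal_re, Complex.norm_real, Real.norm_eq_abs, abs_of_nonneg]
    · have h5 := one_sub_exp_le (Real.pi * Real.exp (2 * p.1)) (by positivity)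
      have h6 : √(Real.pi * Real.exp (2 * p.1)) = √Real.pi * Real.exp p.1 := by
        rw [Real.sqrt_mul Real.pi_pos.le]
        congr 1
        rw [show (2 * p.1 : ℝ) = p.1 + p.1 by ring, Real.exp_add]
        exact Real.sqrt_mul_self (Real.exp_pos _).le
      rw [h6] at h5
      calc _ ≤ Real.exp (β.re * p.1) * (√Real.pi * Real.exp p.1) :=
            mul_le_mul_of_nonneg_left h5 (Real.exp_pos _).le
        _ = √Real.pi * Real.exp ((β.re + 1) * p.1) := by
            rw [add_mul, one_mul, Real.exp_add]; ring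
    · have : Real.exp (-(Real.pi * Real.exp (2 * p.1))) ≤ 1 := by
        rw [Real.exp_le_one_iff]
        have : 0 < Real.pi * Real.exp (2 * p.1) := by positivity
        linarith
      linarith
  have h5 : 0 ≤ ∏ j, ‖E (((α j).re : ℝ) : ℂ) (p.2 j)‖ := Finset.prod_nonneg fun _ _ => norm_nonneg _
  calc _ ≤ (∏ j, ‖E (((α j).re : ℝ) : ℂ) (p.2 j)‖) *
      ((√Real.pi * ‖Complex.exp (((β.re + 1 : ℝ) : ℂ) * p.1)‖) *
        ‖(V (p.1 + (∑ j, p.2 j + s)) : ℂ)‖) := by gcongr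
    _ = _ := by ring

/-- the bump function -/
theorem exists_w (T : ℝ) (hT : 0 ≤ T) : ∃ w : ℝ → ℝ, Cs w ∧ (∀ u, 0 ≤ w u) ∧ 0 < ∫ u, w u ∧
    ∀ β : ℂ, ‖β‖ ≤ T → 4 / 5 * ∫ u, w u ≤ ‖L β w‖ := by
  set δ : ℝ := 1 / (10 * (T + 1)) with hδ
  have hδ0 : 0 < δ := by positivity
  have hδ1 : δ ≤ 1 := by
    rw [hδ, div_le_one (by positivity)]
    linarith
  have hδT : T * δ ≤ 1 / 10 := by
    rw [hδ, mul_one_div, div_le_div_iff₀ (by positivity) (by norm_num)]
    linarith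
  let f : ContDiffBump (δ / 2 : ℝ) := ⟨δ / 4, δ / 2, by positivity, by linarith⟩
  have hsupp : ∀ u, f u ≠ 0 → 0 ≤ u ∧ u ≤ δ := by
    intro u hu
    have h1 : u ∈ Function.support f := hu
    rw [f.support_eq, Metric.mem_ball, Real.dist_eq, abs_lt] at h1
    have h2 : f.rOut = δ / 2 := rfl
    rw [h2] at h1
    constructor <;> linarith [h1.1, h1.2]
  have hcs : Cs (fun u => f u) := ⟨f.contDiff, fun u hu => ⟨(hsupp u hu).1, (hsupp u hu).2.trans hδ1⟩⟩
  refine ⟨fun u => f u, hcs, fun u => f.nonneg, f.integral_pos, fun β hβ => ?_⟩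
  have hint : Integrable (fun u => ((f u : ℝ) : ℂ)) := by
    have := L_integrable 0 hcs
    simpa using this
  have h1 : L β (fun u => f u) - ((∫ u, f u : ℝ) : ℂ) =
      ∫ u : ℝ, (Complex.exp (β * u) - 1) * ((f u : ℝ) : ℂ) := by
    rw [← integral_complex_ofReal, L, ← integral_sub (L_integrable β hcs) hint]
    congr 1
    ext u
    ring
  have h2 : ‖L β (fun u => f u) - ((∫ u, f u : ℝ) : ℂ)‖ ≤ 1 / 5 * ∫ u, f u := by
    rw [h1, ← integral_const_mul]
    refine norm_integral_le_of_norm_le (f.integrable.const_mul _) (Filter.Eventually.of_forall fun u => ?_)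
    rw [norm_mul, Complex.norm_real, Real.norm_eq_abs, abs_of_nonneg f.nonneg]
    by_cases hu : f u = 0
    · rw [hu]; simp
    · refine mul_le_mul_of_nonneg_right ?_ f.nonneg
      have h3 : ‖β * (u : ℂ)‖ ≤ 1 / 10 := by
        rw [norm_mul, Complex.norm_real, Real.norm_eq_abs, abs_of_nonneg (hsupp u hu).1]
        calc ‖β‖ * u ≤ T * δ := mul_le_mul hβ (hsupp u hu).2 (hsupp u hu).1 hT
          _ ≤ 1 / 10 := hδT
      have h4 := Complex.norm_exp_sub_one_le (x := β * u) (h3.trans (by norm_num))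
      linarith
  have h3 : ‖((∫ u, f u : ℝ) : ℂ)‖ = ∫ u, f u := by
    rw [Complex.norm_real, Real.norm_eq_abs, abs_of_nonneg (integral_nonneg fun u => f.nonneg)]
  have h4 := norm_sub_norm_le (((∫ u, f u : ℝ) : ℂ)) (L β (fun u => f u))
  rw [norm_sub_rev, h3] at h4
  show 4 / 5 * ∫ u, f u ≤ ‖L β (fun u => f u)‖
  linarith

theorem L_le (x : ℝ) (B : ℝ) (hx : x ≤ B) (hB : 0 ≤ B) {w : ℝ → ℝ} (hw : Cs w) (hw0 : ∀ u, 0 ≤ w u) :
    ‖L (x : ℂ) w‖ ≤ Real.exp B * ∫ u, w u := by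
  rw [L, ← integral_const_mul]
  have hint : Integrable w := by
    have := (L_integrable 0 hw).norm
    refine this.congr (Filter.Eventually.of_forall fun u => ?_)
    simp [abs_of_nonneg (hw0 u)]
  refine norm_integral_le_of_norm_le (hint.const_mul _) (Filter.Eventually.of_forall fun u => ?_)
  rw [norm_mul, Complex.norm_real, Real.norm_eq_abs, abs_of_nonneg (hw0 u)]
  by_cases hu : w u = 0
  · rw [hu]; simp
  · refine mul_le_mul_of_nonneg_right ?_ (hw0 u)
    obtain ⟨h1, h2⟩ := hw.supp u hu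
    rw [← Complex.ofReal_mul, ← Complex.ofReal_exp, Complex.norm_real, Real.norm_eq_abs,
      abs_of_pos (Real.exp_pos _)]
    refine Real.exp_le_exp.2 ?_
    nlinarith

end Lb

open Lb in
theorem lb : S_lb := by
  intro n T₀ hn
  obtain ⟨m, rfl⟩ : ∃ m, n = m + 1 := ⟨n - 1, by omega⟩
  set T : ℝ := max T₀ 0 with hT
  have hT0 : 0 ≤ T := le_max_right _ _
  obtain ⟨w, hw, hw0, hI, hL⟩ := exists_w T hT0
  obtain ⟨c₁, C₁, hc₁, hC₁, hG⟩ := G_bounds (2 + 2 * T)
  set I : ℝ := ∫ u, w u with hIdef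
  have hpi := Real.pi_pos
  -- the threshold
  obtain ⟨s₀, hs₀⟩ : ∃ s₀ : ℝ, ∀ s, s₀ ≤ s →
      √Real.pi * (Real.exp (T + 1) * C₁ ^ m) * Real.exp (-s) ≤ 3 / 10 * c₁ ^ m := by
    refine ⟨Real.log (√Real.pi * (Real.exp (T + 1) * C₁ ^ m) / (3 / 10 * c₁ ^ m)), fun s hs => ?_⟩
    have h1 : 0 < √Real.pi * (Real.exp (T + 1) * C₁ ^ m) := by positivity
    have h2 : 0 < 3 / 10 * c₁ ^ m := by positivity
    have h3 : √Real.pi * (Real.exp (T + 1) * C₁ ^ m) / (3 / 10 * c₁ ^ m) ≤ Real.exp s := by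
      rw [← Real.log_le_iff_le_exp (by positivity)]
      exact hs
    rw [div_le_iff₀ h2] at h3
    rw [Real.exp_neg, ← div_eq_mul_inv, div_le_iff₀ (Real.exp_pos _)]
    linarith
  set c : ℝ := (2 * Real.pi) ^ m * (I * (1 / 2 * c₁ ^ m)) / (2 * (1 + T) ^ m) with hc
  have hc0 : 0 < c := by positivity
  refine ⟨w, c, s₀, hw.smooth, hw.supp, hc0, fun s hs ν hν i₀ hi₀ => ?_⟩
  have hνT : ∀ i, ‖ν i‖ ≤ T := fun i => (hν i).trans (le_max_left _ _)
  by_contra hcon
  push Not at hcon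
  -- upper bound for the derivatives
  set S : Finset (Fin (m + 1)) := Finset.univ.erase i₀ with hS
  have hcard : S.card = m := by
    rw [hS, Finset.card_erase_of_mem (Finset.mem_univ _), Finset.card_univ, Fintype.card_fin]
    omega
  have hup := JJ_iter ν T hT0 hνT s S w (c * Real.exp (-(ν i₀).re * s)) hw (fun k hk => by
    have h1 := hcon k (by omega)
    rw [JW_eq hn] at h1
    exact h1.le)
  rw [hcard] at hup
  -- lower bound for the integral
  have hα : ∀ j, upS ν S (i₀.succAbove j) = ν (i₀.succAbove j) + 2 := by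
    intro j
    unfold upS
    rw [if_pos (Finset.mem_erase.2 ⟨Fin.succAbove_ne i₀ j, Finset.mem_univ _⟩)]
  have hβ : upS ν S i₀ = ν i₀ := by
    unfold upS
    rw [if_neg (Finset.notMem_erase _ _)]
  have hsplit := JJ_split (upS ν S) i₀ w s
  simp only [hα, hβ] at hsplit
  set α : Fin m → ℂ := fun j => ν (i₀.succAbove j) + 2 with hαdef
  set β : ℂ := ν i₀ with hβdef
  have hre : ∀ j, (α j - β).re = (ν (i₀.succAbove j)).re - (ν i₀).re + 2 := by
    intro j
    simp only [hαdef, hβdef, Complex.sub_re, Complex.add_re]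
    norm_num
    ring
  have hre2 : ∀ j, 2 ≤ (α j - β).re := by
    intro j
    rw [hre]
    have := hi₀ (i₀.succAbove j)
    linarith
  have hnorm : ∀ j, ‖α j - β‖ ≤ 2 + 2 * T := by
    intro j
    have h1 : α j - β = 2 + (ν (i₀.succAbove j) - ν i₀) := by
      simp only [hαdef, hβdef]; ring
    rw [h1]
    refine (norm_add_le _ _).trans ?_
    have h2 := norm_sub_le (ν (i₀.succAbove j)) (ν i₀)
    have h3 := hνT (i₀.succAbove j)
    have h4 := hνT i₀
    have h5 : ‖(2 : ℂ)‖ = 2 := by simp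
    rw [h5]
    linarith
  have hmain := FF_integral α β hw s (fun j => lt_of_lt_of_le two_pos (hre2 j))
  have hmain_int := FF_integrable α β hw s (fun j => lt_of_lt_of_le two_pos (hre2 j))
  have hα' : ∀ j, (0 : ℝ) < (α j).re - (β.re + 1) := by
    intro j
    have := hre2 j
    rw [Complex.sub_re] at this
    linarith
  have herr_val := FF_norm_integral (fun j => (α j).re) (β.re + 1) hw hw0 s hα'
  have herr_int := FF_integrable (fun j => (((α j).re : ℝ) : ℂ)) ((β.re + 1 : ℝ) : ℂ) hw s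
    (fun j => by rw [← Complex.ofReal_sub, Complex.ofReal_re]; exact hα' j)
  -- the error
  have hJint : Integrable (fun p : ℝ × (Fin m → ℝ) => (∏ j, E (α j) (p.2 j)) *
      (E β p.1 * (w (p.1 + (∑ j, p.2 j + s)) : ℂ)))
      ((volume : Measure ℝ).prod (volume : Measure (Fin m → ℝ))) := by
    have h1 : Integrable (fun p : ℝ × (Fin m → ℝ) => FF α β w s p -
        (FF α β w s p - (∏ j, E (α j) (p.2 j)) * (E β p.1 * (w (p.1 + (∑ j, p.2 j + s)) : ℂ))))
        ((volume : Measure ℝ).prod (volume : Measure (Fin m → ℝ))) := by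
      refine hmain_int.sub ?_
      refine Integrable.mono' (herr_int.norm.const_mul (√Real.pi)) ?_
        (Filter.Eventually.of_forall fun p => diff_le α β hw0 s p)
      refine Continuous.aestronglyMeasurable ?_
      refine (FF_cont α β hw s).sub ?_
      refine ((prod_E_cont α).comp continuous_snd).mul ?_
      refine ((E_cont β).comp continuous_fst).mul ?_
      have := hw.smooth.continuous
      fun_prop
    refine h1.congr (Filter.Eventually.of_forall fun p => ?_)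
    ring
  have hdiff : ‖(∫ p, FF α β w s p ∂((volume : Measure ℝ).prod (volume : Measure (Fin m → ℝ)))) -
      JJ (upS ν S) w s‖ ≤ √Real.pi * (Real.exp (-((β.re + 1) * s)) * ‖L ((β.re + 1 : ℝ) : ℂ) w‖ *
        ∏ j, ‖G ((((α j).re : ℝ) : ℂ) - ((β.re + 1 : ℝ) : ℂ))‖) := by
    rw [← herr_val, hsplit, ← integral_sub hmain_int hJint, ← integral_const_mul]
    exact norm_integral_le_of_norm_le (herr_int.norm.const_mul (√Real.pi))
      (Filter.Eventually.of_forall fun p => diff_le α β hw0 s p)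
  -- bounds
  have hprod1 : c₁ ^ m ≤ ∏ j, ‖G (α j - β)‖ := by
    calc c₁ ^ m = ∏ _j : Fin m, c₁ := by simp
      _ ≤ _ := Finset.prod_le_prod (fun _ _ => hc₁.le) fun j _ =>
        (hG _ (one_le_two.trans (hre2 j)) (hnorm j)).1
  have hprod2 : ∏ j, ‖G ((((α j).re : ℝ) : ℂ) - ((β.re + 1 : ℝ) : ℂ))‖ ≤ C₁ ^ m := by
    calc _ ≤ ∏ _j : Fin m, C₁ := Finset.prod_le_prod (fun _ _ => norm_nonneg _) fun j _ => by
          refine (hG _ ?_ ?_).2
          · rw [← Complex.ofReal_sub, Complex.ofReal_re]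
            have := hre2 j
            rw [Complex.sub_re] at this
            linarith
          · rw [← Complex.ofReal_sub, Complex.norm_real, Real.norm_eq_abs,
              abs_of_pos (hα' j)]
            have h1 := Complex.re_le_norm (α j - β)
            have h2 := hnorm j
            rw [Complex.sub_re] at h1
            linarith
      _ = C₁ ^ m := by simp
  have hL1 := hL β (hνT i₀)
  have hL2 := L_le (β.re + 1) (T + 1) (by
    have := Complex.re_le_norm β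
    have h2 := hνT i₀
    linarith) (by linarith) hw hw0
  have hnm : ‖∫ p, FF α β w s p ∂((volume : Measure ℝ).prod (volume : Measure (Fin m → ℝ)))‖ =
      Real.exp (-β.re * s) * ‖L β w‖ * ∏ j, ‖G (α j - β)‖ := by
    rw [hmain, norm_mul, norm_mul, norm_prod]
    congr 2
    rw [Complex.norm_exp, Complex.neg_re, Complex.re_mul_ofReal, neg_mul]
  set X : ℝ := Real.exp (-β.re * s) with hX
  have hX0 : 0 < X := Real.exp_pos _
  have hlow : X * (I * (1 / 2 * c₁ ^ m)) ≤ ‖JJ (upS ν S) w s‖ := by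
    have h1 : X * (4 / 5 * I) * c₁ ^ m ≤
        ‖∫ p, FF α β w s p ∂((volume : Measure ℝ).prod (volume : Measure (Fin m → ℝ)))‖ := by
      rw [hnm]
      refine mul_le_mul (mul_le_mul_of_nonneg_left hL1 hX0.le) hprod1 (by positivity) (by positivity)
    have h2 : √Real.pi * (Real.exp (-((β.re + 1) * s)) * ‖L ((β.re + 1 : ℝ) : ℂ) w‖ *
        ∏ j, ‖G ((((α j).re : ℝ) : ℂ) - ((β.re + 1 : ℝ) : ℂ))‖) ≤ X * I * (3 / 10 * c₁ ^ m) := by
      have h3 : Real.exp (-((β.re + 1) * s)) = X * Real.exp (-s) := by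
        rw [hX, ← Real.exp_add]; congr 1; ring
      rw [h3]
      calc _ ≤ √Real.pi * (X * Real.exp (-s) * (Real.exp (T + 1) * I) * C₁ ^ m) := by
            gcongr
        _ = X * I * (√Real.pi * (Real.exp (T + 1) * C₁ ^ m) * Real.exp (-s)) := by ring
        _ ≤ X * I * (3 / 10 * c₁ ^ m) := by
            have := hs₀ s hs
            gcongr
    have h3 := norm_sub_norm_le
      (∫ p, FF α β w s p ∂((volume : Measure ℝ).prod (volume : Measure (Fin m → ℝ)))) (JJ (upS ν S) w s)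
    have h4 := hdiff.trans h2
    have h5 : X * (4 / 5 * I) * c₁ ^ m - X * I * (3 / 10 * c₁ ^ m) = X * (I * (1 / 2 * c₁ ^ m)) := by
      ring
    linarith
  have hfin : (2 * Real.pi) ^ m * (X * (I * (1 / 2 * c₁ ^ m))) ≤ (1 + T) ^ m * (c * X) :=
    (mul_le_mul_of_nonneg_left hlow (by positivity)).trans hup
  have h6 : (1 + T) ^ m * (c * X) = (2 * Real.pi) ^ m * (X * (I * (1 / 2 * c₁ ^ m))) / 2 := by
    rw [hc]
    field_simp
  rw [h6] at hfin
  have h7 : 0 < (2 * Real.pi) ^ m * (X * (I * (1 / 2 * c₁ ^ m))) := by positivity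
  linarith

end Pool.Agent.T2h77.N
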