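import Pool.Agent.T2h77N.Stm

/-!
# Density theorem for `GL_n` over `ℚ` at the infinite place: definitions and statements of the steps
-/

set_option autoImplicit false

open MeasureTheory Matrix
open scoped MatrixGroups ENNReal Topology

noncomputable section

namespace Pool.Agent.T2h77.N

/-- The Hilbert-Schmidt norm. -/
def hsn {n : ℕ} (g : GR n) : ℝ := √(∑ i, ∑ j, g i j ^ 2)

/-- The elements of `SO(n)`. -/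
def IsOrth {n : ℕ} (k : GR n) : Prop := k.1 * k.1ᵀ = 1

/-- The function `∏_i a_i ^ (ν_i + ρ_i)`, `ρ_i = (2 i - n + 1) / 2`, `0 ≤ i < n`, of the diagonal part `a` of `h` in
the decomposition `h = L diag(a) k`: the spherical vector of the principal series with the parameters `ν_i`. -/
def psi {n : ℕ} (ν : Fin n → ℂ) (h : GR n) : ℂ :=
  ∏ i, ((ac h i : ℝ) : ℂ) ^ (ν i + (((2 * (i : ℕ) : ℝ) - n + 1) / 2 : ℝ))

/-- `φ` is a test function which is bi-invariant under `SO(n)`. -/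
structure IsBi {n : ℕ} (φ : GR n → ℝ) : Prop where
  continuous : Continuous φ
  compact : HasCompactSupport φ
  left : ∀ k h, IsOrth k → φ (k * h) = φ h
  right : ∀ k h, IsOrth k → φ (h * k) = φ h

/-- `f` is spherical at the infinite place with the parameters `ν_i`: it is an eigenfunction of the operators given by
the bi-invariant test functions, with the same eigenvalues as the spherical vector of the principal series. -/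
def IsSph {n N : ℕ} {H : Subgroup (GN n N)} (ν : Fin n → ℂ) (f : GR n → XX H → ℂ) : Prop :=
  ∀ φ : GR n → ℝ, IsBi φ → ∀ (g : GR n) (c : XX H),
    ∫ h, f (g * h) c * (φ h : ℂ) ∂(mu n) = (∫ h, psi ν h * (φ h : ℂ) ∂(mu n)) * f g c

/-- the distances of the rows from the spans of the previous ones, for arbitrary matrices -/
def dst {n : ℕ} (x : Fin n → Fin n → ℝ) (i : Fin n) : ℝ :=
  ‖InnerProductSpace.gramSchmidt ℝ (fun i => (WithLp.toLp 2 (x i) : EuclideanSpace ℝ (Fin n))) i‖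

/-- POLAR: Lebesgue measure in polar coordinates `x = y g`, `y > 0`, `g ∈ SL_n(ℝ)` -/
def S_polar : Prop :=
  ∀ n : ℕ, 1 ≤ n → ∃ c : ℝ, 0 < c ∧ ∀ F : (Fin n → Fin n → ℝ) → ℝ≥0∞, Measurable F →
    ∫⁻ x in {x | 0 < (Matrix.of x).det}, F x =
      ENNReal.ofReal c * ∫⁻ y in Set.Ioi (0 : ℝ), ENNReal.ofReal (y ^ (n ^ 2 - 1)) *
        ∫⁻ g, F (fun i j => y * (g : GR n) i j) ∂(mu n)

/-- BART: the Gram-Schmidt norms of a Gaussian matrix are independent -/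
def S_bart : Prop :=
  ∀ n : ℕ, 1 ≤ n → ∃ c : ℝ, 0 < c ∧ ∀ F : (Fin n → ℝ) → ℝ≥0∞, Measurable F →
    ∫⁻ x in {x : Fin n → Fin n → ℝ | 0 < (Matrix.of x).det},
        ENNReal.ofReal (Real.exp (-Real.pi * ∑ i, ∑ j, x i j ^ 2)) * F (dst x) =
      ENNReal.ofReal c * ∫⁻ r in {r : Fin n → ℝ | ∀ i, 0 < r i},
        ENNReal.ofReal (Real.exp (-Real.pi * ∑ i, r i ^ 2) * ∏ i, r i ^ (n - 1 - (i : ℕ))) * F r

/-- the kernel given by a weight `W` on `(0, ∞)` -/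
def kerW {n : ℕ} (W : ℝ → ℝ) (g : GR n) : ℝ :=
  ∫ y in Set.Ioi (0 : ℝ), Real.exp (-Real.pi * (y * hsn g) ^ 2) * y ^ (((n : ℝ) * (n - 1)) / 2 - 1) * W y

/-- GJP: the spherical transform, for positive functions -/
def S_gjp : Prop :=
  ∀ n : ℕ, 1 ≤ n → ∃ c : ℝ, 0 < c ∧ ∀ (W : ℝ → ℝ≥0∞) (a : Fin n → ℝ), Measurable W → ∑ i, a i = 0 →
    ∫⁻ g, (∫⁻ y in Set.Ioi (0 : ℝ), ENNReal.ofReal (Real.exp (-Real.pi * (y * hsn g) ^ 2) *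
        y ^ (((n : ℝ) * (n - 1)) / 2 - 1)) * W y) *
        ENNReal.ofReal (∏ i, ac g i ^ (a i + ((2 * (i : ℕ) : ℝ) - n + 1) / 2)) ∂(mu n) =
      ENNReal.ofReal c * ∫⁻ r in {r : Fin n → ℝ | ∀ i, 0 < r i},
        ENNReal.ofReal (Real.exp (-Real.pi * ∑ i, r i ^ 2) * ∏ i, r i ^ (a i - 1)) * W ((∏ i, r i) ^ (1 / (n : ℝ)))

/-- the archimedean local integral -/
def JW {n : ℕ} (ν : Fin n → ℂ) (W : ℝ → ℝ) : ℂ :=
  ∫ r in {r : Fin n → ℝ | ∀ i, 0 < r i},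
    (Real.exp (-Real.pi * ∑ i, r i ^ 2) : ℂ) * (∏ i, ((r i : ℝ) : ℂ) ^ (ν i - 1)) * (W ((∏ i, r i) ^ (1 / (n : ℝ))) : ℂ)

/-- GJ: the spherical transform of `kerW` -/
def S_gj : Prop :=
  ∀ n : ℕ, 1 ≤ n → ∃ c : ℝ, 0 < c ∧ ∀ (W : ℝ → ℝ) (ν : Fin n → ℂ), Continuous W → (∀ y, W y ≠ 0 → 0 < y) →
    HasCompactSupport W → (∃ δ > 0, ∀ y, W y ≠ 0 → δ ≤ y) → ∑ i, ν i = 0 →
      Integrable (fun g : GR n => psi ν g * (kerW W g : ℂ)) (mu n) ∧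
      ∫ g : GR n, psi ν g * (kerW W g : ℂ) ∂(mu n) = c * JW ν W

/-- the weights: `w^(k) (n log y + s)` for a fixed `w` -/
def wk (n : ℕ) (w : ℝ → ℝ) (k : ℕ) (s : ℝ) (y : ℝ) : ℝ :=
  if 0 < y then iteratedDeriv k w (n * Real.log y + s) else 0

/-- LB: the lower bound for the local integral -/
def S_lb : Prop :=
  ∀ (n : ℕ) (T : ℝ), 1 ≤ n → ∃ (w : ℝ → ℝ) (c s₀ : ℝ), ContDiff ℝ (⊤ : ℕ∞) w ∧ (∀ u, w u ≠ 0 → 0 ≤ u ∧ u ≤ 1) ∧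
    0 < c ∧ ∀ s : ℝ, s₀ ≤ s → ∀ ν : Fin n → ℂ, (∀ i, ‖ν i‖ ≤ T) → ∀ i₀, (∀ i, (ν i₀).re ≤ (ν i).re) →
      ∃ k < n, c * Real.exp (-(ν i₀).re * s) ≤ ‖JW ν (wk n w k s)‖

/-- NORM: the norms of Gaussian kernels -/
def S_norm : Prop :=
  ∀ (n : ℕ) (b : ℝ), 1 ≤ n → 0 < b → ∃ C : ℝ, 0 < C ∧ ∀ y : ℝ, 0 < y →
    ∫⁻ g : GR n, ENNReal.ofReal (Real.exp (-b * (y * hsn g) ^ 2)) ∂(mu n) ≤
      ENNReal.ofReal (C * y ^ (-((n : ℝ) * (n - 1))))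

/-- KER: the test functions -/
def S_ker : Prop :=
  ∀ n : ℕ, 1 ≤ n → ∃ B : ℝ, 1 ≤ B ∧ ∀ T : ℝ, ∃ c C X₀ : ℝ, 0 < c ∧ 1 ≤ C ∧ 1 ≤ X₀ ∧ ∀ X : ℝ, X₀ ≤ X →
    ∃ κ : Fin n → GR n → ℝ, (∀ k, IsBi (κ k)) ∧ (∀ k g, κ k g ≠ 0 → hsn g ≤ C * X ^ B) ∧
      (∀ k, ∫ g, κ k g ^ 2 ∂(mu n) ≤ C) ∧
      ∀ ν : Fin n → ℂ, ∑ i, ν i = 0 → (∀ i, ‖ν i‖ ≤ T) → ∀ i₀, (∀ i, (ν i₀).re ≤ (ν i).re) →
        ∃ k, c * X ^ (-(ν i₀).re) ≤ ‖∫ g, psi ν g * (κ k g : ℂ) ∂(mu n)‖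

/-- NEAR: a test function near `SO(n)` on which the parameters of bounded size are not small -/
def S_near : Prop :=
  ∀ (n : ℕ) (T : ℝ), ∃ χ : GR n → ℝ, IsBi χ ∧ ∀ ν : Fin n → ℂ, ∑ i, ν i = 0 → (∀ i, ‖ν i‖ ≤ T) →
    1 ≤ ‖∫ h, psi ν h * (χ h : ℂ) ∂(mu n)‖

/-- TRACE2: the trace inequality for `SL_n(ℤ)` itself, with explicit constants -/
def S_trace2 : Prop :=
  ∀ (n : ℕ) (χ : GR n → ℝ), Continuous χ → HasCompactSupport χ → ∀ M : ℝ,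
    (∀ y y' : GR n, χ y ≠ 0 → χ y' ≠ 0 → ∀ i j, |(y * y'⁻¹) i j| ≤ M) →
    ∀ (N : ℕ) [NeZero N] (H : Subgroup (GN n N)) (F : Set (GR n)), IsFD F →
    ∀ (k : ℕ) (f : Fin k → GR n → XX H → ℂ), (∀ i, IsForm H (f i)) → (∀ i, IsL2 F (f i)) →
    (∀ i j, ip F (f i) (f j) = if i = j then 1 else 0) → ∀ (g : GR n) (c : XX H),
      (cs H {1} 1 M g c).Finite ∧
      ∑ i, ‖Rc χ (f i) g c‖ₑ ^ 2 ≤ ENNReal.ofReal ((∫ y, χ y ^ 2 ∂(mu n)) * Nat.card (cs H {1} 1 M g c))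

/-- LOW2: the count at the points of bounded height, for `SL_n(ℤ)` itself, with explicit dependence on `M` -/
def S_low2 : Prop :=
  ∀ n : ℕ, 3 ≤ n → ∃ A C : ℝ, 1 ≤ A ∧ 1 ≤ C ∧
    ∀ (N : ℕ) [NeZero N] (H : Subgroup (GN n N)) (M Y : ℝ) (x : GR n), 1 ≤ M → 1 ≤ Y → x ∈ SG n →
    (∀ i j : Fin n, (i : ℕ) + 1 = j → ac x j ≤ Y * ac x i) →
    (∑' c : XX H, (Nat.card (cs H {1} 1 M x c) : ℝ)) ≤
      H.index * (2 + C * (M * Y) ^ A * (ixS H : ℝ) ^ (-(1 / A)))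

/-- the density theorem at the infinite place -/
def S_finalInf : Prop :=
  ∀ n : ℕ, 3 ≤ n → ∃ c : ℝ, 0 < c ∧ ∀ τ T : ℝ, 0 < τ → τ ≤ 1 →
    ∃ C : ℝ, 0 < C ∧ ∀ (N : ℕ) [NeZero N] (H : Subgroup (GN n N)) (F : Set (GR n)), IsFD F →
    ∀ (k : ℕ) (f : Fin k → GR n → XX H → ℂ) (ν : Fin k → Fin n → ℂ),
      (∀ i, IsForm H (f i) ∧ IsL2 F (f i) ∧ IsCusp (f i) ∧ IsSph (ν i) (f i)) →
      (∀ i j, ip F (f i) (f j) = if i = j then 1 else 0) →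
      (∀ i, ∑ j, ν i j = 0 ∧ (∀ j, ‖ν i j‖ ≤ T) ∧ ∃ j, τ ≤ |(ν i j).re|) →
      (k : ℝ) ≤ C * H.index * (ixS H : ℝ) ^ (-(c * τ))

end Pool.Agent.T2h77.N
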