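import Pool.Agent.T2h77N.Ent
import Pool.Agent.T2h77N.Count
import Pool.Agent.T2h77N.Stm2

/-!
# The count at the points of bounded height, with explicit constants: `S_low2`
-/

set_option autoImplicit false

open MeasureTheory Matrix
open scoped MatrixGroups ENNReal

noncomputable section

namespace Pool.Agent.T2h77.N

theorem entM (h0 : S_iw) : S_entM := by
  intro n
  set K : ℝ := n * 2 ^ n + 1 with hK
  have hK1 : 1 ≤ K := by
    have : (0 : ℝ) ≤ n * 2 ^ n := by positivity
    linarith
  refine ⟨2 ^ n + n * (2 ^ n * (n * n)) * K ^ n, ?_, fun x hx => ⟨fun i j hij => ?_, fun M hM b hb i => ?_⟩⟩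
  · have : (1 : ℝ) ≤ 2 ^ n := one_le_pow₀ (by norm_num)
    have : (0 : ℝ) ≤ n * (2 ^ n * (n * n)) * K ^ n := by positivity
    linarith
  · refine (ent_ac h0 hx i j hij).trans ?_
    have := (h0 n).1 x i
    have : (0 : ℝ) ≤ n * (2 ^ n * (n * n)) * K ^ n := by positivity
    gcongr
    linarith
  set Q : ℝ := n * (2 ^ n * (n * (n * |M|))) with hQ
  have hQ0 : 0 ≤ Q := by positivity
  -- the main estimate
  have hpos := (h0 n).1 x
  obtain ⟨k, hk, hxk⟩ := (h0 n).2.1 x
  have hk' : kᵀ * k = 1 := mul_eq_one_comm.1 hk
  set L : Matrix (Fin n) (Fin n) ℝ := Matrix.of (lc x) with hL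
  set y : Matrix (Fin n) (Fin n) ℝ := (x * b * x⁻¹).1 with hy
  have hyx : y * x.1 = x.1 * b.1 := by
    rw [hy, ← Matrix.SpecialLinearGroup.coe_mul, ← Matrix.SpecialLinearGroup.coe_mul]
    rw [inv_mul_cancel_right]
  set Z : Matrix (Fin n) (Fin n) ℝ := k * b.1 * kᵀ with hZ
  have hyL : ∀ j, (y * L) i j * ac x j = ∑ l, L i l * (ac x l * Z l j) := by
    intro j
    have h1 : y * L * Matrix.diagonal (ac x) = L * (Matrix.diagonal (ac x) * Z) := by
      have h2 : (y * x.1) * kᵀ = x.1 * b.1 * kᵀ := by rw [hyx]
      rw [hxk] at h2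
      have h3 : y * (L * Matrix.diagonal (ac x) * k) * kᵀ = y * L * Matrix.diagonal (ac x) * (k * kᵀ) := by
        simp only [Matrix.mul_assoc]
      rw [h3, hk, Matrix.mul_one] at h2
      rw [h2, hZ]
      simp only [Matrix.mul_assoc]
    have h4 := congrFun (congrFun h1 i) j
    rw [Matrix.mul_diagonal] at h4
    rw [h4, Matrix.mul_apply]
    refine Finset.sum_congr rfl fun l _ => ?_
    rw [Matrix.diagonal_mul]
  have hLle : ∀ a c : Fin n, |L a c| ≤ 1 := by
    intro a c
    rw [hL, Matrix.of_apply]
    by_cases h1 : a = c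
    · simp [lc, h1]
    · by_cases h2 : c < a
      · have h3 := hx.1 a c h2
        rw [abs_le]
        constructor <;> linarith [h3.1, h3.2]
      · have : lc x a c = 0 := by simp [lc, h1, h2]
        rw [this]
        simp
  have hL0 : ∀ a c : Fin n, a < c → L a c = 0 := by
    intro a c h
    have : lc x a c = 0 := by simp [lc, h.ne, h.not_gt]
    rw [hL, Matrix.of_apply, this]
  have hZle : ∀ l j, |Z l j| ≤ n * (n * |M|) := by
    intro l j
    exact ent_kbk hk (fun a c => (hb a c).trans (le_abs_self M)) l j
  have hrhs : ∀ j, |(y * L) i j| ≤ Q * (ac x i / ac x j) := by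
    intro j
    have h1 : |(y * L) i j * ac x j| ≤ Q * ac x i := by
      rw [hyL j]
      calc |∑ l, L i l * (ac x l * Z l j)| ≤ ∑ l, |L i l * (ac x l * Z l j)| := Finset.abs_sum_le_sum_abs _ _
        _ ≤ ∑ _l : Fin n, 2 ^ n * (n * (n * |M|)) * ac x i := by
            refine Finset.sum_le_sum fun l _ => ?_
            rcases lt_or_ge i l with h2 | h2
            · rw [hL0 i l h2, zero_mul, abs_zero]
              have := hpos i
              positivity
            · rw [abs_mul, abs_mul, abs_of_pos (hpos l)]
              calc |L i l| * (ac x l * |Z l j|) ≤ 1 * ((2 ^ n * ac x i) * (n * (n * |M|))) := by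
                    have h3 := hpos l
                    have h4 := hpos i
                    gcongr
                    · exact hLle i l
                    · exact ent_ac h0 hx i l h2
                    · exact hZle l j
                _ = 2 ^ n * (n * (n * |M|)) * ac x i := by ring
        _ = Q * ac x i := by
            rw [Finset.sum_const, Finset.card_univ, Fintype.card_fin, nsmul_eq_mul, hQ]
            ring
    rw [abs_mul, abs_of_pos (hpos j)] at h1
    rw [← mul_div_assoc, le_div_iff₀ (hpos j)]
    exact h1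
  -- descending induction
  have key : ∀ d : ℕ, ∀ j : Fin n, (j : ℕ) + d = n - 1 → |y i j| ≤ Q * K ^ (d + 1) * (ac x i / ac x j) := by
    intro d
    induction d using Nat.strong_induction_on with
    | _ d ih =>
      intro j hj
      have h1 : (y * L) i j = y i j + ∑ l ∈ Finset.Ioi j, y i l * L l j := by
        rw [Matrix.mul_apply, ← Finset.sum_subset (Finset.subset_univ (insert j (Finset.Ioi j)))]
        · rw [Finset.sum_insert (by simp)]
          congr 1
          have : L j j = 1 := by simp [hL, lc]
          rw [this, mul_one]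
        · intro l _ hl
          have hl1 : l ≠ j := fun h => hl (by simp [h])
          have hl2 : ¬ j < l := fun h => hl (by simp [h.le])
          rw [hL0 l j (lt_of_le_of_ne (not_lt.1 hl2) hl1), mul_zero]
      have h2 : y i j = (y * L) i j - ∑ l ∈ Finset.Ioi j, y i l * L l j := by rw [h1]; ring
      have hr : 0 < ac x i / ac x j := div_pos (hpos i) (hpos j)
      have h3 : |∑ l ∈ Finset.Ioi j, y i l * L l j| ≤ n * (Q * K ^ d * 2 ^ n * (ac x i / ac x j)) := by
        calc |∑ l ∈ Finset.Ioi j, y i l * L l j| ≤ ∑ l ∈ Finset.Ioi j, |y i l * L l j| :=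
              Finset.abs_sum_le_sum_abs _ _
          _ ≤ ∑ _l ∈ Finset.Ioi j, Q * K ^ d * 2 ^ n * (ac x i / ac x j) := by
              refine Finset.sum_le_sum fun l hl => ?_
              rw [Finset.mem_Ioi] at hl
              have hl' : (j : ℕ) < l := hl
              have h4 := ih ((n - 1) - l) (by omega) l (by omega)
              rw [abs_mul]
              have h5 : K ^ ((n - 1) - l + 1) ≤ K ^ d := pow_le_pow_right₀ hK1 (by omega)
              have h6 : ac x i / ac x l ≤ 2 ^ n * (ac x i / ac x j) := by
                rw [← mul_div_assoc, div_le_div_iff₀ (hpos l) (hpos j)]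
                have h7 := ent_ac h0 hx l j hl.le
                have h8 := hpos i
                nlinarith
              calc |y i l| * |L l j| ≤ (Q * K ^ ((n - 1) - l + 1) * (ac x i / ac x l)) * 1 := by
                    have : 0 < ac x i / ac x l := div_pos (hpos i) (hpos l)
                    gcongr
                    exact hLle l j
                _ ≤ Q * K ^ d * (2 ^ n * (ac x i / ac x j)) := by
                    rw [mul_one]
                    have : 0 < ac x i / ac x l := div_pos (hpos i) (hpos l)
                    gcongr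
                _ = Q * K ^ d * 2 ^ n * (ac x i / ac x j) := by ring
          _ ≤ n * (Q * K ^ d * 2 ^ n * (ac x i / ac x j)) := by
              rw [Finset.sum_const, nsmul_eq_mul]
              have h9 : ((Finset.Ioi j).card : ℝ) ≤ n := by
                exact_mod_cast (Finset.card_le_univ _).trans_eq (Fintype.card_fin n)
              gcongr
      have hKd : 1 ≤ K ^ d := one_le_pow₀ hK1
      calc |y i j| ≤ |(y * L) i j| + |∑ l ∈ Finset.Ioi j, y i l * L l j| := by
            rw [h2]
            exact abs_sub _ _
        _ ≤ Q * (ac x i / ac x j) + n * (Q * K ^ d * 2 ^ n * (ac x i / ac x j)) := add_le_add (hrhs j) h3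
        _ = (Q + Q * (K ^ d * (n * 2 ^ n))) * (ac x i / ac x j) := by ring
        _ ≤ Q * K ^ (d + 1) * (ac x i / ac x j) := by
            refine mul_le_mul_of_nonneg_right ?_ hr.le
            rw [pow_succ]
            nlinarith
  intro j
  have hn : 0 < n := i.pos
  have h1 := key (n - 1 - j) j (by omega)
  have hr : 0 < ac x i / ac x j := div_pos (hpos i) (hpos j)
  refine h1.trans (mul_le_mul_of_nonneg_right ?_ hr.le)
  have h2 : K ^ (n - 1 - j + 1) ≤ K ^ n := pow_le_pow_right₀ hK1 (by omega)
  have hM0 : |M| = M := abs_of_nonneg (by linarith)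
  calc Q * K ^ (n - 1 - (j : ℕ) + 1) ≤ Q * K ^ n := mul_le_mul_of_nonneg_left h2 hQ0
    _ = n * (2 ^ n * (n * n)) * K ^ n * M := by rw [hQ, hM0]; ring
    _ ≤ (2 ^ n + n * (2 ^ n * (n * n)) * K ^ n) * M := by
        have : (0 : ℝ) ≤ 2 ^ n := by positivity
        nlinarith

theorem low2 (hiw : S_iw) (hfix : S_fix) : S_low2 := by
  intro n hn
  obtain ⟨A, C, hA, hC, h⟩ := lowM hiw (entM hiw) hfix n hn
  refine ⟨A, C, hA, hC, fun N _ H M Y x hM hY hx hYx => ?_⟩
  have h1 := h M hM N H 1 one_pos (by simp) {1} (isReps_one' n) Y x hY hx hYx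
  rw [Finset.card_singleton, Nat.cast_one, one_mul, Int.cast_one, mul_one] at h1
  exact h1

end Pool.Agent.T2h77.N
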