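import Pool.Agent.T2h77N.Dst

/-!
# NORM: the norms of Gaussian kernels
-/

set_option autoImplicit false

open MeasureTheory Matrix
open scoped MatrixGroups ENNReal NNReal Topology

noncomputable section

namespace Pool.Agent.T2h77.N

namespace NormPkg

theorem gauss_int (k : ℕ) : Integrable fun t : ℝ => Real.exp (-Real.pi * t ^ 2) * |t| ^ k := by
  have h := integrable_rpow_mul_exp_neg_mul_sq (b := Real.pi) Real.pi_pos (s := (k : ℝ))
    (by have : (0 : ℝ) ≤ k := Nat.cast_nonneg k
        linarith)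
  refine h.norm.congr (Filter.Eventually.of_forall fun t => ?_)
  simp only [Real.rpow_natCast, norm_mul, norm_pow, Real.norm_eq_abs, Real.abs_exp]
  ring

/-- the finite constant -/
theorem gauss_fin (m : ℕ) (k : Fin m → ℕ) : ∃ K : ℝ, 0 ≤ K ∧
    ∫⁻ s in {s : Fin m → ℝ | ∀ i, 0 < s i},
      ENNReal.ofReal (∏ i, (Real.exp (-Real.pi * s i ^ 2) * s i ^ (k i))) ≤ ENNReal.ofReal K := by
  have h : Integrable fun s : Fin m → ℝ => ∏ i, (Real.exp (-Real.pi * s i ^ 2) * |s i| ^ (k i)) :=
    Integrable.fintype_prod (f := fun i t => Real.exp (-Real.pi * t ^ 2) * |t| ^ (k i))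
      fun i => gauss_int (k i)
  refine ⟨∫ s : Fin m → ℝ, ∏ i, (Real.exp (-Real.pi * s i ^ 2) * |s i| ^ (k i)), ?_, ?_⟩
  · exact integral_nonneg fun s => Finset.prod_nonneg fun i _ => by positivity
  · rw [ofReal_integral_eq_lintegral_ofReal h (Filter.Eventually.of_forall fun s =>
      Finset.prod_nonneg fun i _ => by positivity)]
    refine le_trans (lintegral_mono_ae ?_) (setLIntegral_le_lintegral {s : Fin m → ℝ | ∀ i, 0 < s i} _)
    refine (ae_restrict_iff' ?_).mpr (Filter.Eventually.of_forall fun s hs => ?_)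
    · rw [show {s : Fin m → ℝ | ∀ i, 0 < s i} = ⋂ i, {s | 0 < s i} by ext; simp]
      exact MeasurableSet.iInter fun i => measurableSet_lt measurable_const (measurable_pi_apply i)
    · apply le_of_eq
      congr 1
      refine Finset.prod_congr rfl fun i _ => ?_
      rw [abs_of_pos (hs i)]

theorem meas_pos (m : ℕ) : MeasurableSet {s : Fin m → ℝ | ∀ i, 0 < s i} := by
  rw [show {s : Fin m → ℝ | ∀ i, 0 < s i} = ⋂ i, {s | 0 < s i} by ext; simp]
  exact MeasurableSet.iInter fun i => measurableSet_lt measurable_const (measurable_pi_apply i)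

/-- the upper bound for the integral over `r` -/
theorem upper (m : ℕ) : ∃ K : ℝ, 0 ≤ K ∧ ∀ Q : ℝ, 0 < Q →
    ∫⁻ r in {r : Fin (m + 1) → ℝ | ∀ i, 0 < r i},
      ENNReal.ofReal (Real.exp (-Real.pi * ∑ i, r i ^ 2) * ∏ i, r i ^ (m + 1 - 1 - (i : ℕ))) *
        (if ∏ i, r i ≤ Q then 1 else 0) ≤ ENNReal.ofReal (K * Q) := by
  obtain ⟨K, hK, hKi⟩ := gauss_fin m (fun i => m - 1 - (i : ℕ))
  refine ⟨K, hK, fun Q hQ => ?_⟩
  set P : Set (Fin (m + 1) → ℝ) := {r : Fin (m + 1) → ℝ | ∀ i, 0 < r i} with hP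
  set f : (Fin (m + 1) → ℝ) → ℝ≥0∞ := fun r =>
    ENNReal.ofReal (Real.exp (-Real.pi * ∑ i, r i ^ 2) * ∏ i, r i ^ (m + 1 - 1 - (i : ℕ))) *
        (if ∏ i, r i ≤ Q then 1 else 0) with hf
  have hfm : Measurable f := by
    refine Measurable.mul ?_ ?_
    · refine ENNReal.measurable_ofReal.comp (Measurable.mul (Real.measurable_exp.comp ?_) ?_)
      · exact Measurable.const_mul (Finset.measurable_sum _ fun i _ =>
          (measurable_pi_apply i).pow_const 2) _
      · exact Finset.measurable_prod _ fun i _ => (measurable_pi_apply i).pow_const _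
    · refine Measurable.ite (measurableSet_le ?_ measurable_const) measurable_const measurable_const
      exact Finset.measurable_prod _ fun i _ => measurable_pi_apply i
  rw [← lintegral_indicator (meas_pos (m + 1))]
  have hmp := volume_preserving_piFinSuccAbove (fun _ : Fin (m + 1) => ℝ) (Fin.last m)
  rw [← hmp.symm.lintegral_comp_emb (MeasurableEquiv.measurableEmbedding _)]
  have hgm : Measurable fun z : ℝ × (Fin m → ℝ) => P.indicator f
      ((MeasurableEquiv.piFinSuccAbove (fun _ : Fin (m + 1) => ℝ) (Fin.last m)).symm z) :=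
    (hfm.indicator (meas_pos (m + 1))).comp (MeasurableEquiv.measurable _)
  have hvol : (volume : Measure (ℝ × (Fin m → ℝ))) = (volume : Measure ℝ).prod volume := rfl
  rw [hvol, lintegral_prod_symm _ hgm.aemeasurable]
  -- the inner bound
  have key : ∀ (s : Fin m → ℝ) (t : ℝ), P.indicator f
      ((MeasurableEquiv.piFinSuccAbove (fun _ : Fin (m + 1) => ℝ) (Fin.last m)).symm (t, s)) ≤
      {s : Fin m → ℝ | ∀ i, 0 < s i}.indicator (fun s =>
        ENNReal.ofReal (∏ i, (Real.exp (-Real.pi * s i ^ 2) * s i ^ (m - (i : ℕ))))) s *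
        (Set.Ioc 0 (Q / ∏ i, s i)).indicator (fun _ => 1) t := by
    intro s t
    have e : ((MeasurableEquiv.piFinSuccAbove (fun _ : Fin (m + 1) => ℝ) (Fin.last m)).symm (t, s)) =
        (Fin.snoc s t : Fin (m + 1) → ℝ) := by
      funext i
      simp [MeasurableEquiv.piFinSuccAbove]
    rw [e]
    by_cases hmem : (Fin.snoc s t : Fin (m + 1) → ℝ) ∈ P
    · have hs : ∀ i, 0 < s i := by
        intro i
        have := hmem i.castSucc
        rwa [Fin.snoc_castSucc (α := fun _ => ℝ)] at this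
      have ht : 0 < t := by
        have := hmem (Fin.last m)
        rwa [Fin.snoc_last (α := fun _ => ℝ)] at this
      have hps : 0 < ∏ i, s i := Finset.prod_pos fun i _ => hs i
      rw [Set.indicator_of_mem hmem, Set.indicator_of_mem (show s ∈ {s : Fin m → ℝ | ∀ i, 0 < s i} from hs)]
      simp only [hf]
      rw [Fin.prod_univ_castSucc, Fin.prod_univ_castSucc, Fin.sum_univ_castSucc]
      simp only [Fin.snoc_castSucc (α := fun _ => ℝ), Fin.snoc_last (α := fun _ => ℝ), Fin.val_last,
        Fin.val_castSucc, Nat.add_sub_cancel, Nat.sub_self, pow_zero, mul_one]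
      by_cases hQ' : (∏ i, s i) * t ≤ Q
      · have hmt : t ∈ Set.Ioc 0 (Q / ∏ i, s i) := ⟨ht, by rw [le_div_iff₀ hps, mul_comm]; exact hQ'⟩
        rw [if_pos hQ', Set.indicator_of_mem hmt]
        refine mul_le_mul_left ?_ _
        refine ENNReal.ofReal_le_ofReal ?_
        rw [Finset.prod_mul_distrib, ← Real.exp_sum, ← Finset.mul_sum]
        refine mul_le_mul_of_nonneg_right (Real.exp_le_exp.mpr ?_)
          (Finset.prod_nonneg fun i _ => pow_nonneg (hs i).le _)
        have : 0 ≤ Real.pi * t ^ 2 := by positivity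
        linarith
      · rw [if_neg hQ', mul_zero]
        exact zero_le
    · rw [Set.indicator_of_notMem hmem]
      exact zero_le
  calc _ ≤ ∫⁻ s : Fin m → ℝ, ∫⁻ t : ℝ, {s : Fin m → ℝ | ∀ i, 0 < s i}.indicator (fun s =>
        ENNReal.ofReal (∏ i, (Real.exp (-Real.pi * s i ^ 2) * s i ^ (m - (i : ℕ))))) s *
        (Set.Ioc 0 (Q / ∏ i, s i)).indicator (fun _ => 1) t :=
        lintegral_mono fun s => lintegral_mono fun t => key s t
    _ = ∫⁻ s : Fin m → ℝ, {s : Fin m → ℝ | ∀ i, 0 < s i}.indicator (fun s =>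
        ENNReal.ofReal Q * ENNReal.ofReal (∏ i, (Real.exp (-Real.pi * s i ^ 2) *
          s i ^ (m - 1 - (i : ℕ))))) s := by
        refine lintegral_congr fun s => ?_
        rw [lintegral_const_mul _ (measurable_const.indicator measurableSet_Ioc),
          lintegral_indicator measurableSet_Ioc, lintegral_const, one_mul,
          Measure.restrict_apply_univ, Real.volume_Ioc, sub_zero]
        by_cases hs : s ∈ {s : Fin m → ℝ | ∀ i, 0 < s i}
        · rw [Set.indicator_of_mem hs, Set.indicator_of_mem hs, ← ENNReal.ofReal_mul,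
            ← ENNReal.ofReal_mul hQ.le]
          · congr 1
            have hps : 0 < ∏ i, s i := Finset.prod_pos fun i _ => hs i
            have : ∏ i : Fin m, (Real.exp (-Real.pi * s i ^ 2) * s i ^ (m - (i : ℕ))) =
                (∏ i, s i) * ∏ i : Fin m, (Real.exp (-Real.pi * s i ^ 2) * s i ^ (m - 1 - (i : ℕ))) := by
              rw [← Finset.prod_mul_distrib]
              refine Finset.prod_congr rfl fun i _ => ?_
              rw [show m - (i : ℕ) = (m - 1 - (i : ℕ)) + 1 by have := i.2; omega, pow_succ]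
              ring
            rw [this]
            field_simp
          · exact Finset.prod_nonneg fun i _ => mul_nonneg (Real.exp_pos _).le (pow_nonneg (hs i).le _)
        · rw [Set.indicator_of_notMem hs, Set.indicator_of_notMem hs, zero_mul]
    _ = ENNReal.ofReal Q * ∫⁻ s in {s : Fin m → ℝ | ∀ i, 0 < s i},
        ENNReal.ofReal (∏ i, (Real.exp (-Real.pi * s i ^ 2) * s i ^ (m - 1 - (i : ℕ)))) := by
        rw [lintegral_indicator (meas_pos m), lintegral_const_mul]
        refine ENNReal.measurable_ofReal.comp (Finset.measurable_prod _ fun i _ => ?_)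
        refine Measurable.mul (Real.measurable_exp.comp ?_) ((measurable_pi_apply i).pow_const _)
        exact Measurable.const_mul ((measurable_pi_apply i).pow_const 2) _
    _ ≤ ENNReal.ofReal Q * ENNReal.ofReal K := mul_le_mul_right hKi _
    _ = ENNReal.ofReal (K * Q) := by rw [← ENNReal.ofReal_mul hQ.le, mul_comm]

end NormPkg

open NormPkg

theorem norm (hp : S_polar) (hb : S_bart) : S_norm := by
  intro n b hn hb0
  obtain ⟨c, hc, hbp⟩ := bp hp hb n hn
  obtain ⟨m, rfl⟩ : ∃ m, n = m + 1 := ⟨n - 1, by omega⟩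
  obtain ⟨K, hK, hup⟩ := upper m
  -- scaling factor: the Gaussian `exp (-π (t |g|)^2)` for `t ≤ 2 λ y` is at least `exp (-b (y |g|)^2)`
  set l : ℝ := √(b / (4 * Real.pi)) with hl
  have hl0 : 0 < l := Real.sqrt_pos.mpr (by positivity)
  have hl2 : l ^ 2 = b / (4 * Real.pi) := Real.sq_sqrt (by positivity)
  refine ⟨(c * K * 2 ^ (m + 1) + 1) * (l ^ (m + 1)) / l ^ ((m + 1) ^ 2), by positivity, fun y hy => ?_⟩
  set I : ℝ≥0∞ := ∫⁻ g : GR (m + 1), ENNReal.ofReal (Real.exp (-b * (y * hsn g) ^ 2)) ∂(mu (m + 1)) with hI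
  set z : ℝ := l * y with hz
  have hz0 : 0 < z := by positivity
  -- the test function
  set F : (Fin (m + 1) → ℝ) → ℝ≥0∞ := fun r => if ∏ i, r i ≤ (2 * z) ^ (m + 1) then 1 else 0 with hF
  have hFm : Measurable F := by
    refine Measurable.ite (measurableSet_le ?_ measurable_const) measurable_const measurable_const
    exact Finset.measurable_prod _ fun i _ => measurable_pi_apply i
  have h1 := hbp F hFm
  have h2 : ∫⁻ r in {r : Fin (m + 1) → ℝ | ∀ i, 0 < r i},
      ENNReal.ofReal (Real.exp (-Real.pi * ∑ i, r i ^ 2) * ∏ i, r i ^ (m + 1 - 1 - (i : ℕ))) * F r ≤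
      ENNReal.ofReal (K * (2 * z) ^ (m + 1)) := hup _ (by positivity)
  -- the lower bound
  have h3 : ENNReal.ofReal (z ^ ((m + 1) ^ 2)) * I ≤
      ∫⁻ y in Set.Ioi (0 : ℝ), ENNReal.ofReal (y ^ ((m + 1) ^ 2 - 1)) *
        ∫⁻ g, ENNReal.ofReal (Real.exp (-Real.pi * (y * hsn g) ^ 2)) *
          F (fun i => y * ac g i) ∂(mu (m + 1)) := by
    calc ENNReal.ofReal (z ^ ((m + 1) ^ 2)) * I =
        ∫⁻ _ in Set.Ioc z (2 * z), ENNReal.ofReal (z ^ ((m + 1) ^ 2 - 1)) * I := by
          rw [setLIntegral_const, Real.volume_Ioc, show 2 * z - z = z by ring, mul_right_comm,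
            ← ENNReal.ofReal_mul (by positivity), ← pow_succ,
            Nat.sub_add_cancel (Nat.one_le_pow _ _ (by omega))]
      _ ≤ ∫⁻ y in Set.Ioc z (2 * z), ENNReal.ofReal (y ^ ((m + 1) ^ 2 - 1)) *
        ∫⁻ g, ENNReal.ofReal (Real.exp (-Real.pi * (y * hsn g) ^ 2)) *
          F (fun i => y * ac g i) ∂(mu (m + 1)) := by
          refine setLIntegral_mono' measurableSet_Ioc fun t ht => ?_
          have ht0 : 0 < t := hz0.trans ht.1
          refine mul_le_mul' (ENNReal.ofReal_le_ofReal (pow_le_pow_left₀ hz0.le ht.1.le _)) ?_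
          refine lintegral_mono fun g => ?_
          have hF1 : F (fun i => t * ac g i) = 1 := by
            simp only [hF]
            rw [Finset.prod_mul_distrib, iw_prod_ac, Finset.prod_const, Finset.card_univ,
              Fintype.card_fin, mul_one, if_pos]
            exact pow_le_pow_left₀ ht0.le ht.2 _
          rw [hF1, mul_one]
          refine ENNReal.ofReal_le_ofReal (Real.exp_le_exp.mpr ?_)
          have h5 : (t * hsn g) ^ 2 ≤ (2 * z * hsn g) ^ 2 := by
            have h0 : 0 ≤ hsn g := Real.sqrt_nonneg _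
            exact pow_le_pow_left₀ (by positivity) (mul_le_mul_of_nonneg_right ht.2 h0) _
          have h6 : Real.pi * (2 * z * hsn g) ^ 2 = b * (y * hsn g) ^ 2 := by
            have : (2 * z * hsn g) ^ 2 = 4 * l ^ 2 * (y * hsn g) ^ 2 := by rw [hz]; ring
            rw [this, hl2]
            field_simp
          nlinarith [Real.pi_pos]
      _ ≤ _ := by
          refine lintegral_mono_set ?_
          intro t ht
          exact hz0.trans ht.1
  rw [h1] at h3
  have h4 : ENNReal.ofReal (z ^ ((m + 1) ^ 2)) * I ≤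
      ENNReal.ofReal (c * (K * (2 * z) ^ (m + 1))) := by
    refine h3.trans ?_
    rw [ENNReal.ofReal_mul hc.le]
    exact mul_le_mul_right h2 _
  have hzp : 0 < z ^ ((m + 1) ^ 2) := by positivity
  have h5 : I ≤ ENNReal.ofReal (c * (K * (2 * z) ^ (m + 1)) / z ^ ((m + 1) ^ 2)) := by
    rw [ENNReal.ofReal_div_of_pos hzp, ENNReal.le_div_iff_mul_le
      (Or.inl (ENNReal.ofReal_pos.mpr hzp).ne') (Or.inl ENNReal.ofReal_ne_top), mul_comm]
    exact h4
  refine h5.trans (ENNReal.ofReal_le_ofReal ?_)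
  have e1 : y ^ (-(((m + 1 : ℕ) : ℝ) * (((m + 1 : ℕ) : ℝ) - 1))) =
      y ^ (m + 1) / y ^ ((m + 1) ^ 2) := by
    rw [← Real.rpow_natCast y (m + 1), ← Real.rpow_natCast y ((m + 1) ^ 2), ← Real.rpow_sub hy]
    congr 1
    push_cast
    ring
  rw [e1]
  have e2 : c * (K * (2 * z) ^ (m + 1)) / z ^ ((m + 1) ^ 2) =
      (c * K * 2 ^ (m + 1)) * l ^ (m + 1) / l ^ ((m + 1) ^ 2) * (y ^ (m + 1) / y ^ ((m + 1) ^ 2)) := by
    rw [hz, mul_pow, mul_pow, mul_pow]
    field_simp
  rw [e2]
  gcongr
  linarith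

end Pool.Agent.T2h77.N
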