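import Pool.Agent.T2h77N.Trace
import Pool.Agent.T2h77N.Stm2

/-!
# The trace inequality with explicit constants
-/

set_option autoImplicit false
set_option linter.unusedSectionVars false

open MeasureTheory Matrix
open scoped MatrixGroups ENNReal Topology Pointwise

noncomputable section

namespace Pool.Agent.T2h77.N

variable {n N : ℕ} [NeZero N] {H : Subgroup (GN n N)}

/-- the bound for the kernel -/
theorem PK_sqG {F : Set (GR n)} (hF : IsFD F) {m : ℤ} (hm : 0 < m) (hmN : IsUnit (m : ZMod N))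
    {R : Finset (MZ n)} (hR : IsReps m R) {b : GR n → ℝ≥0∞} (hb : Measurable b) {κ : ℝ≥0∞}
    (hκ : ∀ h : GR n, ∫⁻ y, b (h⁻¹ * y) * b y ∂(mu n) ≤ κ) {M : ℝ}
    (hM : ∀ y y' : GR n, b y ≠ 0 → b y' ≠ 0 → ∀ i j, |(y * y'⁻¹) i j| ≤ M) (g : GR n) (c : XX H) :
    ∫⁻ x in F, ∑' c' : XX H, PK H m b g c x c' ^ 2 ∂(mu n) ≤ (Nat.card (cs H R m M g c) : ℝ≥0∞) * κ := by
  classical
  have hfin : (cs H R m M g c).Finite := cs_finite hm M g c
  have e1 : ∫⁻ x in F, ∑' c' : XX H, PK H m b g c x c' ^ 2 ∂(mu n) =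
      ∑ β ∈ R, ∫⁻ y, PK H m b g c (scl β * g * y) (rdM N β • c) * b y ∂(mu n) := by
    rw [unfoldR hF hm hmN hR (V := PK H m b g c) (measurable_PK hb g c) (PK_inv hm hmN g c) hb g c]
    refine lintegral_congr fun x => ?_
    rw [sum_PK g c x (fun c' => PK H m b g c x c')]
    exact tsum_congr fun c' => sq _
  rw [e1]
  have h2 : ∀ β ∈ R, ∫⁻ y, PK H m b g c (scl β * g * y) (rdM N β • c) * b y ∂(mu n) ≤
      ∑' δ : DM n m, (cs H R m M g c).indicator (fun _ => κ) (β, (δ : MZ n)) := by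
    intro β hβ
    have e2 : ∀ y, PK H m b g c (scl β * g * y) (rdM N β • c) * b y =
        ∑' δ : DM n m, (if rdM N (δ : MZ n) • c = rdM N β • c then
          b ((scl (δ : MZ n) * g)⁻¹ * (scl β * g * y)) else 0) * b y := by
      intro y
      unfold PK
      rw [ENNReal.tsum_mul_right]
    simp only [e2]
    rw [lintegral_tsum]
    · refine ENNReal.tsum_le_tsum fun δ => ?_
      by_cases h3 : rdM N (δ : MZ n) • c = rdM N β • c
      · simp only [if_pos h3]
        by_cases h4 : ∃ y, b y ≠ 0 ∧ b ((scl (δ : MZ n) * g)⁻¹ * (scl β * g * y)) ≠ 0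
        · obtain ⟨y, hy1, hy2⟩ := h4
          have h5 : (β, (δ : MZ n)) ∈ cs H R m M g c := by
            refine ⟨hβ, δ.2, h3.symm, ?_⟩
            have h6 := hM _ _ hy1 hy2
            have e3 : y * ((scl (δ : MZ n) * g)⁻¹ * (scl β * g * y))⁻¹ = g⁻¹ * (scl β)⁻¹ * scl (δ : MZ n) * g := by
              group
            rw [e3] at h6
            exact h6
          rw [Set.indicator_of_mem h5]
          have e4 : ∀ y, (scl (δ : MZ n) * g)⁻¹ * (scl β * g * y) =
              ((scl β * g)⁻¹ * (scl (δ : MZ n) * g))⁻¹ * y := fun y => by group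
          simp only [e4]
          exact hκ _
        · have h5 : ∀ y, b ((scl (δ : MZ n) * g)⁻¹ * (scl β * g * y)) * b y = 0 := by
            intro y
            by_contra hne
            exact h4 ⟨y, right_ne_zero_of_mul hne, left_ne_zero_of_mul hne⟩
          simp only [h5, lintegral_zero]
          exact bot_le
      · simp only [if_neg h3, zero_mul, lintegral_zero]
        exact bot_le
    · intro δ
      refine Measurable.aemeasurable ?_
      refine Measurable.mul ?_ hb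
      split_ifs
      · exact hb.comp (by fun_prop)
      · exact measurable_const
  calc ∑ β ∈ R, ∫⁻ y, PK H m b g c (scl β * g * y) (rdM N β • c) * b y ∂(mu n)
      ≤ ∑ β ∈ R, ∑' δ : DM n m, (cs H R m M g c).indicator (fun _ => κ) (β, (δ : MZ n)) :=
        Finset.sum_le_sum h2
    _ ≤ ∑' β : MZ n, ∑' δ : DM n m, (cs H R m M g c).indicator (fun _ => κ) (β, (δ : MZ n)) :=
        ENNReal.sum_le_tsum R
    _ ≤ ∑' β : MZ n, ∑' δ : MZ n, (cs H R m M g c).indicator (fun _ => κ) (β, δ) :=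
        ENNReal.tsum_le_tsum fun β =>
          ENNReal.tsum_comp_le_tsum_of_injective Subtype.val_injective
            (fun δ : MZ n => (cs H R m M g c).indicator (fun _ => κ) (β, δ))
    _ = ∑' q : MZ n × MZ n, (cs H R m M g c).indicator (fun _ => κ) q := ENNReal.tsum_prod.symm
    _ = ∑' q : cs H R m M g c, κ := (tsum_subtype (cs H R m M g c) fun _ => κ).symm
    _ = (Nat.card (cs H R m M g c) : ℝ≥0∞) * κ := by
        have : Fintype (cs H R m M g c) := hfin.fintype
        rw [tsum_fintype, Finset.sum_const, nsmul_eq_mul, Nat.card_eq_fintype_card, Finset.card_univ]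

/-- the overlap integrals -/
theorem overlap {b : GR n → ℝ≥0∞} (hb : Measurable b) (h : GR n) :
    ∫⁻ y, b (h⁻¹ * y) * b y ∂(mu n) ≤ ∫⁻ y, b y ^ 2 ∂(mu n) := by
  have h1 := ENNReal.lintegral_mul_le_Lp_mul_Lq (mu n) (Real.HolderConjugate.two_two)
    (f := fun y => b (h⁻¹ * y)) (g := b) (hb.comp (measurable_const_mul _)).aemeasurable hb.aemeasurable
  simp only [Pi.mul_apply, ENNReal.rpow_ofNat] at h1
  have h2 : ∫⁻ y, b (h⁻¹ * y) ^ 2 ∂(mu n) = ∫⁻ y, b y ^ 2 ∂(mu n) :=
    lintegral_mul_left_eq_self (μ := mu n) (fun y => b y ^ 2) h⁻¹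
  rw [h2, ← ENNReal.rpow_add_of_nonneg _ _ (by norm_num) (by norm_num)] at h1
  norm_num at h1
  exact h1

/-- the trace inequality with explicit constants -/
theorem trace_explicit {χ : GR n → ℝ} (hχ : Continuous χ) (hχc : HasCompactSupport χ) {M : ℝ}
    (hM : ∀ y y' : GR n, χ y ≠ 0 → χ y' ≠ 0 → ∀ i j, |(y * y'⁻¹) i j| ≤ M)
    {F : Set (GR n)} (hF : IsFD F) {k : ℕ} {f : Fin k → GR n → XX H → ℂ} (hf : ∀ i, IsForm H (f i))
    (hL : ∀ i, IsL2 F (f i)) (ho : ∀ i j, ip F (f i) (f j) = if i = j then 1 else 0)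
    {m : ℤ} (hm : 0 < m) (hmN : IsUnit (m : ZMod N)) {R : Finset (MZ n)} (hR : IsReps m R)
    (g : GR n) (c : XX H) :
    (cs H R m M g c).Finite ∧
      ∑ i, ‖∑ β ∈ R, Rc χ (f i) (scl β * g) (rdM N β • c)‖ₑ ^ 2 ≤
        ENNReal.ofReal ((∫ y, χ y ^ 2 ∂(mu n)) * Nat.card (cs H R m M g c)) := by
  refine ⟨cs_finite hm M g c, ?_⟩
  set w : Fin k → ℂ := fun i => ∑ β ∈ R, Rc χ (f i) (scl β * g) (rdM N β • c) with hw
  set a : Fin k → ℂ := fun i => star (w i) with ha
  set S : ℝ := ∑ i, ‖a i‖ ^ 2 with hS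
  have hS0 : 0 ≤ S := Finset.sum_nonneg fun i _ => by positivity
  have haw : ∀ i, ‖a i‖ = ‖w i‖ := fun i => norm_star _
  have hLHS : ∑ i, ‖w i‖ₑ ^ 2 = ENNReal.ofReal S := by
    rw [hS, ENNReal.ofReal_sum_of_nonneg fun i _ => by positivity]
    exact Finset.sum_congr rfl fun i _ => by rw [haw, enorm_sq_ofReal]
  have hu := isForm_comb a hf
  have hval : (S : ℂ) = ∑ β ∈ R, ∫ y, comb a f (scl β * g * y) (rdM N β • c) * (χ y : ℂ) ∂(mu n) := by
    have e1 : ∀ β ∈ R, ∫ y, comb a f (scl β * g * y) (rdM N β • c) * (χ y : ℂ) ∂(mu n) =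
        ∑ i, a i * Rc χ (f i) (scl β * g) (rdM N β • c) := by
      intro β _
      unfold comb Rc
      have e2 : ∀ y, (∑ i, a i * f i (scl β * g * y) (rdM N β • c)) * (χ y : ℂ) =
          ∑ i, a i * (f i (scl β * g * y) (rdM N β • c) * (χ y : ℂ)) := by
        intro y
        rw [Finset.sum_mul]
        exact Finset.sum_congr rfl fun i _ => mul_assoc _ _ _
      simp only [e2]
      rw [integral_finsetSum _ fun i _ => (integrable_Rc hF (hf i) (hL i) hχ hχc (scl β * g) (rdM N β • c)).const_mul _]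
      exact Finset.sum_congr rfl fun i _ => integral_const_mul _ _
    rw [Finset.sum_congr rfl e1, Finset.sum_comm, hS, Complex.ofReal_sum]
    refine Finset.sum_congr rfl fun i _ => ?_
    rw [← Finset.mul_sum, haw i]
    change _ = star (w i) * w i
    rw [mul_comm, Complex.star_def, Complex.mul_conj, Complex.normSq_eq_norm_sq]
  set b : GR n → ℝ≥0∞ := fun y => ‖χ y‖ₑ with hb
  have hbm : Measurable b := hχ.measurable.enorm
  have hb0 : ∀ y, b y ≠ 0 → χ y ≠ 0 := fun y hy h => hy (by rw [hb]; simp [h])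
  have hle : ENNReal.ofReal S ≤ ∑ β ∈ R, ∫⁻ y, ‖comb a f (scl β * g * y) (rdM N β • c)‖ₑ * b y ∂(mu n) := by
    have e1 : ENNReal.ofReal S = ‖(S : ℂ)‖ₑ := by
      rw [← ofReal_norm, Complex.norm_real, Real.norm_of_nonneg hS0]
    rw [e1, hval]
    refine (enorm_sum_le _ _).trans (Finset.sum_le_sum fun β _ => ?_)
    refine (enorm_integral_le_lintegral_enorm _).trans_eq (lintegral_congr fun y => ?_)
    rw [enorm_mul]
    congr 1
    rw [hb, ← ofReal_norm, Complex.norm_real, ofReal_norm]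
  have hkey : (∑ β ∈ R, ∫⁻ y, ‖comb a f (scl β * g * y) (rdM N β • c)‖ₑ * b y ∂(mu n)) ^ 2 ≤
      ((Nat.card (cs H R m M g c) : ℝ≥0∞) * ∫⁻ y, b y ^ 2 ∂(mu n)) *
        ∫⁻ x in F, ∑' c : XX H, ‖comb a f x c‖ₑ ^ 2 ∂(mu n) := by
    rw [unfoldR hF hm hmN hR (V := fun x c => ‖comb a f x c‖ₑ) (fun c => (hu.measurable c).enorm)
      (fun γ x c => congrArg (fun z : ℂ => ‖z‖ₑ) (hu.invariant γ x c)) hbm g c]
    rw [lintegral_congr fun x => sum_PK g c x (fun c => ‖comb a f x c‖ₑ)]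
    refine (cauchy (fun c => (hu.measurable c).enorm) (measurable_PK hbm g c)).trans ?_
    rw [mul_comm]
    gcongr
    exact PK_sqG hF hm hmN hR hbm (overlap hbm) (fun y y' h h' => hM y y' (hb0 y h) (hb0 y' h')) g c
  rw [norm_comb a hf hL ho] at hkey
  have hmain : ENNReal.ofReal S ≤ (Nat.card (cs H R m M g c) : ℝ≥0∞) * ∫⁻ y, b y ^ 2 ∂(mu n) := by
    by_cases h0 : ENNReal.ofReal S = 0
    · rw [h0]; exact bot_le
    · have h3 : ENNReal.ofReal S * ENNReal.ofReal S ≤
          ((Nat.card (cs H R m M g c) : ℝ≥0∞) * ∫⁻ y, b y ^ 2 ∂(mu n)) * ENNReal.ofReal S := by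
        refine le_trans ?_ hkey
        rw [← sq]
        gcongr
      exact (ENNReal.mul_le_mul_iff_left h0 ENNReal.ofReal_ne_top).mp h3
  rw [hLHS]
  refine hmain.trans_eq ?_
  have hsq : Integrable (fun y => χ y ^ 2) (mu n) := by
    refine Continuous.integrable_of_hasCompactSupport (hχ.pow 2) ?_
    have : (fun y => χ y ^ 2) = fun y => χ y * χ y := funext fun y => sq _
    rw [this]
    exact hχc.mul_left
  have e1 : ∫⁻ y, b y ^ 2 ∂(mu n) = ENNReal.ofReal (∫ y, χ y ^ 2 ∂(mu n)) := by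
    rw [ofReal_integral_eq_lintegral_ofReal hsq (.of_forall fun y => by positivity)]
    refine lintegral_congr fun y => ?_
    rw [hb]
    simp only
    rw [← ofReal_norm, ← ENNReal.ofReal_pow (norm_nonneg _), Real.norm_eq_abs, sq_abs]
  rw [e1, ENNReal.ofReal_mul (integral_nonneg fun y => by positivity), ENNReal.ofReal_natCast, mul_comm]

/-- TRACE2 -/
theorem trace2 : S_trace2 := by
  intro n χ hχ hχc M hM N _ H F hF k f hf hL ho g c
  have h := trace_explicit (H := H) hχ hχc hM hF hf hL ho (m := 1) one_pos (by simp) (isReps_one' n) g c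
  refine ⟨h.1, ?_⟩
  have h2 := h.2
  simp only [Finset.sum_singleton] at h2
  have e : scl (1 : MZ n) = 1 := by
    have := scl_coe (1 : GZ n)
    rw [map_one] at this
    exact this
  rw [e, one_mul, rdM_one', one_smul] at h2
  exact h2

end Pool.Agent.T2h77.N
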