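import Pool.Agent.T2h77N.Asm4

/-!
# Density theorem for `GL_n` over `ℚ`: assembly, part 5 (the theorem)
-/

set_option autoImplicit false

open MeasureTheory Matrix
open scoped MatrixGroups ENNReal Topology

noncomputable section

namespace Pool.Agent.T2h77.N

/-- the final summation -/
theorem sum_classes {k : ℕ} (low high : Fin k → ℝ≥0∞) (hsplit : ∀ i, ENNReal.ofReal (3 / 16) ≤ low i + high i)
    (cl : Fin k → ℕ × ℕ) (P L : ℕ) (hcl : ∀ i, (cl i).1 ≤ P ∧ (cl i).2 ≤ L) (B B' : ℝ) (hB : 0 ≤ B) (hB' : 0 ≤ B')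
    (hlow : ∀ q : ℕ × ℕ, ∑ i ∈ Finset.univ.filter (fun i => cl i = q), low i ≤ ENNReal.ofReal B)
    (hhigh : ∑ i, high i ≤ ENNReal.ofReal B') :
    (k : ℝ) * (3 / 16) ≤ (P + 1) * (L + 1) * B + B' := by
  classical
  have h1 : ∑ i, low i ≤ ENNReal.ofReal ((P + 1) * (L + 1) * B) := by
    have hmaps : ∀ i ∈ (Finset.univ : Finset (Fin k)), cl i ∈ Finset.range (P + 1) ×ˢ Finset.range (L + 1) := by
      intro i _
      rw [Finset.mem_product, Finset.mem_range, Finset.mem_range]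
      exact ⟨Nat.lt_succ_of_le (hcl i).1, Nat.lt_succ_of_le (hcl i).2⟩
    rw [← Finset.sum_fiberwise_of_maps_to hmaps]
    calc _ ≤ ∑ q ∈ Finset.range (P + 1) ×ˢ Finset.range (L + 1), ENNReal.ofReal B :=
          Finset.sum_le_sum fun q _ => hlow q
      _ = ENNReal.ofReal ((P + 1) * (L + 1) * B) := by
          rw [Finset.sum_const, Finset.card_product, Finset.card_range, Finset.card_range, nsmul_eq_mul,
            ENNReal.ofReal_mul (by positivity)]
          congr 1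
          rw [← Nat.cast_succ, ← Nat.cast_succ, ← Nat.cast_mul, ENNReal.ofReal_natCast]
  have h2 : ENNReal.ofReal (k * (3 / 16)) ≤ ENNReal.ofReal ((P + 1) * (L + 1) * B + B') := by
    calc ENNReal.ofReal (k * (3 / 16)) = ∑ _i : Fin k, ENNReal.ofReal (3 / 16) := by
          rw [Finset.sum_const, Finset.card_univ, Fintype.card_fin, nsmul_eq_mul,
            ENNReal.ofReal_mul (by positivity), ENNReal.ofReal_natCast]
      _ ≤ ∑ i, (low i + high i) := Finset.sum_le_sum fun i _ => hsplit i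
      _ = ∑ i, low i + ∑ i, high i := Finset.sum_add_distrib
      _ ≤ _ := add_le_add h1 hhigh
      _ = _ := (ENNReal.ofReal_add (by positivity) hB').symm
  exact (ENNReal.ofReal_le_ofReal_iff (by positivity)).1 h2

theorem alg_low (Ct c m K Cv L F r E E' : ℝ) (hr : r ≠ 0) (hF : F ≠ 0) (hE : E' * E = 1) :
    Ct * (c * m * K) * (Cv * L) / (r ^ 2 * (E / F)) = (c / r ^ 2) * (Ct * m * K * Cv * L * F * E') := by
  have hE0 : E ≠ 0 := right_ne_zero_of_mul (by rw [hE]; exact one_ne_zero)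
  have : E' = E⁻¹ := eq_inv_of_mul_eq_one_left hE
  rw [this]
  field_simp

set_option maxHeartbeats 1000000 in
theorem final (hiw : S_iw) (hred : S_red) (hint : S_int) (hent : S_ent) (hreps : S_reps) (hgrow : S_grow)
    (hlow : S_low) (hhigh : S_high) (htrace : S_trace) (hcut : S_cut) (hmass : S_mass) (hcov : S_cov)
    (hrcf : S_rcf) : S_final := by
  classical
  intro n hn
  obtain ⟨A₁, hA₁, hlow⟩ := hlow n hn
  obtain ⟨A₂, hA₂, hhigh⟩ := hhigh n hn
  set A : ℝ := max A₁ A₂ with hA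
  have hA1 : 1 ≤ A := hA₁.trans (le_max_left _ _)
  set η : ℝ := 1 / (2 * A ^ 2) with hη
  have hη0 : 0 < η := by positivity
  have hη1 : η ≤ 1 := by
    rw [hη, div_le_one (by positivity)]
    nlinarith
  set c : ℝ := η / (4 * n) with hc
  have hn1 : 1 ≤ n := by omega
  have hn0 : (0 : ℝ) < n := by exact_mod_cast (by omega : 0 < n)
  have hc0 : 0 < c := by positivity
  refine ⟨c, hc0, fun U hU τ hτ hτ1 => ?_⟩
  obtain ⟨χ, hχ, hχc, hχ0, hχU, hχ1⟩ := exists_bump n hU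
  obtain ⟨M, Ct, hCt, htr⟩ := htrace n χ hχ hχc
  obtain ⟨Cl, hCl, hlow⟩ := hlow M
  obtain ⟨Ch, hCh, hhigh⟩ := hhigh M
  obtain ⟨W, hW, hcut⟩ := hcut n χ (1 / 16) hχ hχc (by norm_num)
  obtain ⟨Ci, hCi, hi⟩ := hint n
  obtain ⟨Cv, hCv, hv⟩ := vol_SL hiw hent hint n
  set K₁ : ℝ := Ct * (2 + Cl * Ch ^ A₁) * Cv * 4 ^ (n - 1) with hK₁
  set K₂ : ℝ := Ct * (Ch * 2) * Ci with hK₂
  have hK₁0 : 0 ≤ K₁ := by positivity
  have hK₂0 : 0 ≤ K₂ := by positivity
  obtain ⟨C₀, hC₀, hnum⟩ := numeric n hn1 η τ c K₁ K₂ Ch W hη0 hη1 hτ hτ1 rfl hK₁0 hK₂0 hCh hW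
  refine ⟨16 / 3 * C₀, by positivity, fun N _ H F hF k f hf horth hex => ?_⟩
  set D : ℝ := (ixS H : ℝ) with hD
  have hD1 : 1 ≤ D := by
    rw [hD]
    exact_mod_cast ixS_pos H
  have hD0 : 0 < D := by linarith
  have hDη : 1 ≤ D ^ η := Real.one_le_rpow hD1 hη0.le
  have hlogD : 0 ≤ Real.log D := Real.log_nonneg hD1
  set m : ℝ := (H.index : ℝ) with hm
  have hm0 : 0 ≤ m := Nat.cast_nonneg _
  choose p α hp hpN hpD hHe hα using hex
  have hl := fun i => exists_l hgrow hn1 hD1 hη0 hη1 hτ hτ1 (rfl : c = η / (4 * n)) (hp i) (hpD i) (α i) (hα i)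
  choose l hl1 hl2 hl3 using hl
  set Y : ℝ := Ch * D ^ η with hY
  have hY1 : 1 ≤ Y := by
    rw [hY]
    nlinarith
  -- the masses
  set low : Fin k → ℝ≥0∞ := fun i => ∫⁻ g in F ∩ sat (SL n Y), sq (Rc χ (f i)) g ∂(mu n) with hlowdef
  set high : Fin k → ℝ≥0∞ := fun i => ∫⁻ g in F ∩ sat (SH n Y (W * ixS H)), sq (Rc χ (f i)) g ∂(mu n) with hhighdef
  have hsplit : ∀ i, ENNReal.ofReal (3 / 16) ≤ low i + high i := fun i =>
    mass_split hred hrcf hχ hχc hF (hf i).1 (hf i).2.1 (by rw [horth, if_pos rfl])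
      (hmass n U χ hχ hχc hχ0 hχU hχ1 N H F hF (f i) (hf i).1 (hf i).2.1 (by rw [horth, if_pos rfl]) (hf i).2.2.2)
      (hcut N H F hF (f i) (hf i).1 (hf i).2.1 (hf i).2.2.1) Y
  set B : ℝ := m * (K₁ * (2 * Real.log D + 1) ^ n * (1 + Real.log (Ch * D ^ η)) ^ n * D ^ (-(τ * η))) with hB
  set B' : ℝ := m * (K₂ * D ^ (-η) * (1 + Real.log (W * D)) ^ n) with hB'
  have hlogY : 0 ≤ Real.log (Ch * D ^ η) := Real.log_nonneg hY1
  have hWD : 1 ≤ W * D := by nlinarith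
  have hlogW : 0 ≤ Real.log (W * D) := Real.log_nonneg hWD
  have hB0 : 0 ≤ B := by positivity
  have hB0' : 0 ≤ B' := by positivity
  -- the high region
  have hhighB : ∑ i, high i ≤ ENNReal.ofReal B' := by
    have h1 := high_bound hcov hrcf hiw hχ hχc hF (fun i => (hf i).1) (fun i => (hf i).2.1) (M := M) (C := Ct)
      (fun g c => htr N H F hF k f (fun i => (hf i).1) (fun i => (hf i).2.1) horth 1 {1} one_pos (by simp)
        (isReps_one n) g c) hCt.le Y (W * D) (Ch * m * (2 * D ^ (-η))) (Ci * (1 + Real.log (W * D)) ^ n)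
      (by positivity) ?_ (hi (W * D) hWD)
    · refine h1.trans (ENNReal.ofReal_le_ofReal (le_of_eq ?_))
      rw [hB', hK₂]
      ring
    · intro x hx
      obtain ⟨⟨hxS, -⟩, hx2⟩ := hx
      have h2 := hhigh N H (D ^ η) x hDη hxS hx2
      refine h2.trans ?_
      have h3 := pow_high hA₂ (le_max_right _ _ : A₂ ≤ A) hη hD1
      have h4 : 0 ≤ wt (ac x) := by
        unfold wt
        refine Finset.prod_nonneg fun i _ => Finset.prod_nonneg fun j _ => ?_
        split_ifs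
        · exact div_nonneg (norm_nonneg _) (norm_nonneg _)
        · exact zero_le_one
      calc Ch * m * wt (ac x) * ((D ^ η)⁻¹ + (D ^ η) ^ A₂ * D ^ (-(1 / A₂)))
          ≤ Ch * m * wt (ac x) * (2 * D ^ (-η)) := by gcongr
        _ = Ch * m * (2 * D ^ (-η)) * wt (ac x) := by ring
  -- the low region
  have hlowB : ∀ q : ℕ × ℕ, ∑ i ∈ Finset.univ.filter (fun i => (p i, l i) = q), low i ≤ ENNReal.ofReal B := by
    rintro ⟨q, s⟩
    set I := Finset.univ.filter (fun i => (p i, l i) = (q, s)) with hI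
    rcases I.eq_empty_or_nonempty with h0 | ⟨i₀, hi₀⟩
    · rw [h0, Finset.sum_empty]
      exact zero_le
    have hmem : ∀ i ∈ I, p i = q ∧ l i = s := by
      intro i hi
      rw [hI, Finset.mem_filter] at hi
      exact ⟨congrArg Prod.fst hi.2, congrArg Prod.snd hi.2⟩
    have hq : q.Prime := (hmem i₀ hi₀).1 ▸ hp i₀
    have hqN : ¬ q ∣ N := (hmem i₀ hi₀).1 ▸ hpN i₀
    have hqs : (q : ℝ) ^ s ≤ D ^ η := by
      have := hl1 i₀
      rwa [(hmem i₀ hi₀).1, (hmem i₀ hi₀).2] at this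
    have hs2 : (s : ℝ) ≤ 2 * Real.log D := by
      have := hl2 i₀
      rwa [(hmem i₀ hi₀).2] at this
    have hq1 : (1 : ℝ) ≤ q := by exact_mod_cast hq.one_lt.le
    have hq0 : (0 : ℝ) < q := by linarith
    obtain ⟨R, hR, hRc⟩ : ∃ R : Finset (MZ n), IsReps ((q : ℤ) ^ s) R ∧
        (R.card : ℝ) ≤ ((s : ℝ) + 1) ^ n * ((q : ℝ) ^ ((s : ℝ) * ((n : ℝ) - 1) / 2)) ^ 2 := by
      obtain ⟨n', rfl⟩ : ∃ n', n = n' + 1 := ⟨n - 1, by omega⟩
      obtain ⟨R, hR, hRc⟩ := hreps n' q s hq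
      refine ⟨R, hR, ?_⟩
      have h1 : (R.card : ℝ) ≤ ((s : ℝ) + 1) ^ (n' + 1) * (q : ℝ) ^ (s * n') := by exact_mod_cast hRc
      refine h1.trans (le_of_eq ?_)
      congr 1
      rw [← Real.rpow_natCast, ← Real.rpow_natCast, ← Real.rpow_mul hq0.le]
      congr 1
      push_cast
      ring
    set r : ℝ := (q : ℝ) ^ ((s : ℝ) * ((n : ℝ) - 1) / 2) with hr
    have hr0 : 0 < r := by positivity
    have hmpos : (0 : ℤ) < (q : ℤ) ^ s := by
      have : (0 : ℤ) < q := by exact_mod_cast hq.pos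
      positivity
    have hunit : IsUnit (((q : ℤ) ^ s : ℤ) : ZMod N) := by
      push_cast
      refine IsUnit.pow s ?_
      rw [ZMod.isUnit_iff_coprime]
      exact (Nat.Prime.coprime_iff_not_dvd hq).2 hqN
    have h1 := low_bound hcov hrcf hiw hχ hχc hF (fun i => (hf i).1) (fun i => (hf i).2.1) (M := M) (C := Ct)
      hmpos hR (fun g c => htr N H F hF k f (fun i => (hf i).1) (fun i => (hf i).2.1) horth _ R hmpos hunit hR g c)
      hCt.le I (fun i => (r : ℂ) * hs (α i) s) ?_ Y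
      (R.card * m * (2 + Cl * Ch ^ A₁)) (r ^ 2 * (D ^ (τ * η) / 4 ^ (n - 1))) (Cv * (1 + Real.log Y) ^ n)
      (by positivity) ?_ (by positivity) ?_ (hv Y hY1)
    · refine h1.trans (ENNReal.ofReal_le_ofReal ?_)
      rw [hB, hK₁]
      have e1 : Ct * (R.card * m * (2 + Cl * Ch ^ A₁)) * (Cv * (1 + Real.log Y) ^ n) /
          (r ^ 2 * (D ^ (τ * η) / 4 ^ (n - 1))) =
          (R.card / r ^ 2) * (Ct * m * (2 + Cl * Ch ^ A₁) * Cv * (1 + Real.log Y) ^ n * 4 ^ (n - 1) *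
            D ^ (-(τ * η))) := by
        refine alg_low Ct _ m _ Cv _ _ r _ _ hr0.ne' (by positivity) ?_
        rw [← Real.rpow_add hD0]
        simp
      rw [e1]
      have e2 : (R.card : ℝ) / r ^ 2 ≤ (2 * Real.log D + 1) ^ n := by
        rw [div_le_iff₀ (by positivity)]
        refine hRc.trans ?_
        gcongr
      have e3 : 0 ≤ Real.log Y := hlogY
      calc _ ≤ (2 * Real.log D + 1) ^ n * (Ct * m * (2 + Cl * Ch ^ A₁) * Cv * (1 + Real.log Y) ^ n * 4 ^ (n - 1) *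
            D ^ (-(τ * η))) := by gcongr
        _ = _ := by
          rw [hY]
          ring
    · intro i hi g c
      have h2 := hHe i s R (by rw [(hmem i hi).1]; exact hR) g c
      rw [h2, hr, (hmem i hi).1]
    · intro x hx
      have h2 := hlow N H q s hq hqN R hR Y x hY1 hx.1 hx.2
      refine h2.trans ?_
      have h3 := pow_low hA₁ (le_max_left _ _ : A₁ ≤ A) hη hCh hD1 (by positivity) hqs
      have h4 : Cl * ((q : ℝ) ^ s * Y) ^ A₁ * D ^ (-(1 / A₁)) ≤ Cl * Ch ^ A₁ := by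
        rw [mul_assoc]
        gcongr
      have h5 : (0 : ℝ) ≤ R.card * m := by positivity
      exact mul_le_mul_of_nonneg_left (by linarith) h5
    · intro i hi
      have h2 := hl3 i
      rw [(hmem i hi).2] at h2
      rw [norm_mul, mul_pow, Complex.norm_real, Real.norm_of_nonneg hr0.le]
      gcongr
  have hfin := sum_classes low high hsplit (fun i => (p i, l i)) ⌊D ^ (c * τ)⌋₊ ⌊2 * Real.log D⌋₊
    (fun i => ⟨Nat.le_floor (hpD i), Nat.le_floor (hl2 i)⟩) B B' hB0 hB0' hlowB hhighB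
  have h6 : ((⌊D ^ (c * τ)⌋₊ : ℝ) + 1) * ((⌊2 * Real.log D⌋₊ : ℝ) + 1) * B ≤
      (D ^ (c * τ) + 1) * (2 * Real.log D + 1) * B := by
    have h7 : (⌊D ^ (c * τ)⌋₊ : ℝ) ≤ D ^ (c * τ) := Nat.floor_le (by positivity)
    have h8 : (⌊2 * Real.log D⌋₊ : ℝ) ≤ 2 * Real.log D := Nat.floor_le (by positivity)
    gcongr
  have h9 := hnum D hD1
  have h10 : (D ^ (c * τ) + 1) * (2 * Real.log D + 1) * B + B' ≤ m * (C₀ * D ^ (-(c * τ))) := by
    calc (D ^ (c * τ) + 1) * (2 * Real.log D + 1) * B + B'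
        = m * ((D ^ (c * τ) + 1) * (2 * Real.log D + 1) *
        (K₁ * (2 * Real.log D + 1) ^ n * (1 + Real.log (Ch * D ^ η)) ^ n * D ^ (-(τ * η))) +
        K₂ * D ^ (-η) * (1 + Real.log (W * D)) ^ n) := by rw [hB, hB']; ring
      _ ≤ m * (C₀ * D ^ (-(c * τ))) := by gcongr
  have h11 : (k : ℝ) * (3 / 16) ≤ m * (C₀ * D ^ (-(c * τ))) := hfin.trans ((add_le_add_left h6 B').trans h10)
  calc (k : ℝ) = 16 / 3 * ((k : ℝ) * (3 / 16)) := by ring
    _ ≤ 16 / 3 * (m * (C₀ * D ^ (-(c * τ)))) := by gcongr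
    _ = 16 / 3 * C₀ * m * D ^ (-(c * τ)) := by ring

end Pool.Agent.T2h77.N
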