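import Pool.Agent.T2h77N.Defs

/-!
# Density theorem for `GL_n` over `ℚ`: statements of the steps
-/

set_option autoImplicit false

open MeasureTheory Matrix
open scoped MatrixGroups ENNReal

noncomputable section

namespace Pool.Agent.T2h77.N

/-! ### Iwasawa coordinates (Gram-Schmidt of the rows) -/

/-- the rows -/
def row {n : ℕ} (x : GR n) (i : Fin n) : EuclideanSpace ℝ (Fin n) := WithLp.toLp 2 (x.1 i)

/-- the Gram-Schmidt orthogonalisation of the rows -/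
def gsv {n : ℕ} (x : GR n) : Fin n → EuclideanSpace ℝ (Fin n) := InnerProductSpace.gramSchmidt ℝ (row x)

/-- the diagonal part of the decomposition `x = L diag(a) k`, `L` lower unitriangular, `k` orthogonal -/
def ac {n : ℕ} (x : GR n) (i : Fin n) : ℝ := ‖gsv x i‖

/-- the unipotent part -/
def lc {n : ℕ} (x : GR n) (i j : Fin n) : ℝ :=
  if i = j then 1 else if j < i then inner ℝ (gsv x j) (row x i) / ‖gsv x j‖ ^ 2 else 0

/-- IW: the decomposition, its uniqueness, measurability -/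
def S_iw : Prop :=
  ∀ n : ℕ, (∀ (x : GR n) (i : Fin n), 0 < ac x i) ∧
    (∀ x : GR n, ∃ k : Matrix (Fin n) (Fin n) ℝ, k * kᵀ = 1 ∧ x.1 = Matrix.of (lc x) * Matrix.diagonal (ac x) * k) ∧
    (∀ (x : GR n) (L k : Matrix (Fin n) (Fin n) ℝ) (a : Fin n → ℝ), (∀ i, L i i = 1) → (∀ i j, i < j → L i j = 0) →
      (∀ i, 0 < a i) → k * kᵀ = 1 → x.1 = L * Matrix.diagonal a * k → a = ac x ∧ L = Matrix.of (lc x)) ∧
    (∀ i : Fin n, Measurable fun x : GR n => ac x i) ∧ (∀ i j : Fin n, Measurable fun x : GR n => lc x i j)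

/-- a Siegel set -/
def SG (n : ℕ) : Set (GR n) :=
  {x | (∀ i j : Fin n, j < i → 0 ≤ lc x i j ∧ lc x i j < 1) ∧
    ∀ i j : Fin n, (i : ℕ) + 1 = j → ac x i ≤ 2 * ac x j}

/-- the product of the roots -/
def wt {n : ℕ} (a : Fin n → ℝ) : ℝ := ∏ i, ∏ j, if j < i then a i / a j else 1

/-- RED: reduction theory -/
def S_red : Prop := ∀ (n : ℕ) (x : GR n), ∃ γ : GZ n, io n γ * x ∈ SG n

/-- CELL: the volume of the cells -/
def S_cell : Prop :=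
  ∀ n : ℕ, ∃ C : ℝ, 0 < C ∧ ∀ a : Fin n → ℝ, (∀ i, 0 < a i) →
    mu n (SG n ∩ {x | ∀ i, a i ≤ ac x i ∧ ac x i ≤ 2 * a i}) ≤ ENNReal.ofReal (C * (wt a)⁻¹)

/-- INT: the integral of the product of the roots over a truncated Siegel set -/
def S_int : Prop :=
  ∀ n : ℕ, ∃ C : ℝ, 0 < C ∧ ∀ W : ℝ, 1 ≤ W →
    ∫⁻ x in SG n ∩ {x | ∀ i j : Fin n, (i : ℕ) + 1 = j → ac x j ≤ W * ac x i}, ENNReal.ofReal (wt (ac x)) ∂(mu n) ≤
      ENNReal.ofReal (C * (1 + Real.log W) ^ n)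

/-- ENT: the entries of the conjugates of bounded matrices -/
def S_ent : Prop :=
  ∀ (n : ℕ) (M : ℝ), ∃ C : ℝ, 1 ≤ C ∧ ∀ x ∈ SG n,
    (∀ i j : Fin n, j ≤ i → ac x j ≤ C * ac x i) ∧
    ∀ b : GR n, (∀ i j, |b i j| ≤ M) → ∀ i j, |(x * b * x⁻¹) i j| ≤ C * (ac x i / ac x j)

/-- UNI: the Haar measure is right invariant -/
def S_unimod : Prop := ∀ n : ℕ, (mu n).IsMulRightInvariant

/-! ### Fixed points -/

/-- transvections -/
def tv {n : ℕ} {A : Type} [CommRing A] (i j : Fin n) (h : i ≠ j) (t : A) : Matrix.SpecialLinearGroup (Fin n) A :=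
  ⟨Matrix.transvection i j t, Matrix.det_transvection_of_ne i j h t⟩

/-- the number of the fixed points of `b` on the level space -/
def fx {n N : ℕ} (H : Subgroup (GN n N)) (b : GN n N) : ℕ := Nat.card {c : XX H // b • c = c}

/-- GEN: relative elementary generation over `ℤ/N` -/
def S_gen : Prop :=
  ∀ (n N : ℕ) [NeZero N] (s : ZMod N) (g : Matrix.SpecialLinearGroup (Fin n) (ZMod N)),
    (∀ i j, ∃ y, g i j = (if i = j then 1 else 0) + s ^ 2 * y) →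
    g ∈ Subgroup.closure {h | ∃ (i j : Fin n) (hij : i ≠ j) (t : ZMod N), h = tv i j hij (s * t)}

/-- ORB: if a principal congruence subgroup of level `D` fixes a point, then the orbits are small -/
def S_orb : Prop :=
  ∀ (n N : ℕ) [NeZero N] (H : Subgroup (GN n N)) (c : XX H) (D : ℕ), 0 < D →
    (∀ g : GZ n, (∀ i j, (D : ℤ) ∣ g i j - (if i = j then 1 else 0)) → rdM N (g : MZ n) • c = c) →
    ixS H ≤ D ^ (n ^ 2)

/-- PRIM: integral matrices `1 + w φ`, `φ w = 0`, are conjugate to elementary ones -/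
def S_prim : Prop :=
  ∀ (n : ℕ) (w φ : Fin (n + 2) → ℤ), w ≠ 0 → φ ≠ 0 → φ ⬝ᵥ w = 0 →
    ∃ (g : GZ (n + 2)) (s : ℤ), s ≠ 0 ∧ (∃ i j, |s| ≤ |w i| * |φ j|) ∧
      (1 + Matrix.vecMulVec w φ : MZ (n + 2)) = (g * tv 0 1 (by simp) s * g⁻¹ : GZ (n + 2))

/-- FIXA: from an element with many fixed points to a transvection with many fixed points -/
def S_fixA : Prop :=
  ∀ n : ℕ, 3 ≤ n → ∃ A C : ℕ, ∀ (N : ℕ) [NeZero N] (H : Subgroup (GN n N)) (Z q : ℕ) (B : MZ n) (b : GN n N)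
    (z : ZMod N), 1 ≤ Z → 1 ≤ q → (∀ i j, |B i j| ≤ Z) → (∀ s : ℤ, B ≠ s • (1 : MZ n)) → B.det ≠ 0 →
    (b : Matrix (Fin n) (Fin n) (ZMod N)) = z • B.map (Int.cast : ℤ → ZMod N) → H.index ≤ q * fx H b →
    ∃ w φ : Fin n → ℤ, w ≠ 0 ∧ φ ≠ 0 ∧ φ ⬝ᵥ w = 0 ∧ (∀ i, |w i| ≤ (C * Z * q : ℕ) ^ A) ∧
      (∀ i, |φ i| ≤ (C * Z * q : ℕ) ^ A) ∧
      H.index ≤ (C * Z * q) ^ A * fx H (rdM N (1 + Matrix.vecMulVec w φ))

/-- FIXB: if a transvection has many fixed points, then the orbits are small -/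
def S_fixB : Prop :=
  ∀ n : ℕ, ∃ A C : ℕ, ∀ (N : ℕ) [NeZero N] (H : Subgroup (GN (n + 2) N)) (s : ℤ) (q : ℕ), s ≠ 0 → 1 ≤ q →
    H.index ≤ q * fx H (rdM N (tv 0 1 (by simp) s : GZ (n + 2)).1) → ixS H ≤ (C * s.natAbs * q) ^ A

/-- FIX: the bound for the fixed points -/
def S_fix : Prop :=
  ∀ n : ℕ, 3 ≤ n → ∃ A C : ℕ, 0 < A ∧ ∀ (N : ℕ) [NeZero N] (H : Subgroup (GN n N)) (Z : ℕ) (B : MZ n) (b : GN n N)
    (z : ZMod N), 1 ≤ Z → (∀ i j, |B i j| ≤ Z) → (∀ s : ℤ, B ≠ s • (1 : MZ n)) → B.det ≠ 0 →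
    (b : Matrix (Fin n) (Fin n) (ZMod N)) = z • B.map (Int.cast : ℤ → ZMod N) →
    fx H b ^ A * ixS H ≤ (C * Z) ^ A * H.index ^ A

/-! ### Hecke operators -/

/-- REPS: representatives -/
def S_reps : Prop :=
  ∀ (n p l : ℕ), p.Prime → ∃ R : Finset (MZ (n + 1)), IsReps ((p : ℤ) ^ l) R ∧
    R.card ≤ (l + 1) ^ (n + 1) * p ^ (l * n)

/-- GROW: the growth of the Hecke eigenvalues -/
def S_grow : Prop :=
  ∀ (n : ℕ) (α : Fin n → ℂ) (j : Fin n), (∀ i, ‖α i‖ ≤ ‖α j‖) → ∀ k : ℕ,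
    ∃ l : ℕ, l ≤ k ∧ k < l + n ∧ ‖α j‖ ^ l ≤ 2 ^ (n - 1) * ‖hs α l‖

/-! ### Counting -/

/-- the pairs of matrices which occur in the trace inequality -/
def cs {n N : ℕ} (H : Subgroup (GN n N)) (R : Finset (MZ n)) (m : ℤ) (M : ℝ) (g : GR n) (c : XX H) :
    Set (MZ n × MZ n) :=
  {q | q.1 ∈ R ∧ q.2.det = m ∧ rdM N q.1 • c = rdM N q.2 • c ∧
    ∀ i j, |(g⁻¹ * (scl q.1)⁻¹ * scl q.2 * g) i j| ≤ M}

/-- LOW: the count at the points of bounded height -/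
def S_low : Prop :=
  ∀ n : ℕ, 3 ≤ n → ∃ A : ℝ, 1 ≤ A ∧ ∀ M : ℝ, ∃ C : ℝ, 1 ≤ C ∧
    ∀ (N : ℕ) [NeZero N] (H : Subgroup (GN n N)) (p l : ℕ),
    p.Prime → ¬ p ∣ N → ∀ R : Finset (MZ n), IsReps ((p : ℤ) ^ l) R → ∀ (Y : ℝ) (x : GR n), 1 ≤ Y → x ∈ SG n →
    (∀ i j : Fin n, (i : ℕ) + 1 = j → ac x j ≤ Y * ac x i) →
    (∑' c : XX H, (Nat.card (cs H R ((p : ℤ) ^ l) M x c) : ℝ)) ≤
      R.card * H.index * (2 + C * ((p : ℝ) ^ l * Y) ^ A * (ixS H : ℝ) ^ (-(1 / A)))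

/-- HIGH: the count at the other points, for `SL_n(ℤ)` itself -/
def S_high : Prop :=
  ∀ n : ℕ, 3 ≤ n → ∃ A : ℝ, 1 ≤ A ∧ ∀ M : ℝ, ∃ C : ℝ, 1 ≤ C ∧
    ∀ (N : ℕ) [NeZero N] (H : Subgroup (GN n N)) (Y : ℝ)
    (x : GR n), 1 ≤ Y → x ∈ SG n → (∃ i j : Fin n, (i : ℕ) + 1 = j ∧ C * Y * ac x i ≤ ac x j) →
    (∑' c : XX H, (Nat.card (cs H {1} 1 M x c) : ℝ)) ≤
      C * H.index * wt (ac x) * (Y⁻¹ + Y ^ A * (ixS H : ℝ) ^ (-(1 / A)))

/-- TRIV: the trivial count -/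
def S_triv : Prop :=
  ∀ (n : ℕ) (M : ℝ), ∃ C : ℝ, 1 ≤ C ∧ ∀ (N : ℕ) [NeZero N] (H : Subgroup (GN n N)) (x : GR n), x ∈ SG n →
    (∑' c : XX H, (Nat.card (cs H {1} 1 M x c) : ℝ)) ≤ C * H.index * wt (ac x)

/-! ### Analysis -/

/-- the convolution operator -/
def Rc {n N : ℕ} {H : Subgroup (GN n N)} (χ : GR n → ℝ) (f : GR n → XX H → ℂ) (g : GR n) (c : XX H) : ℂ :=
  ∫ y, f (g * y) c * (χ y : ℂ) ∂(mu n)

/-- TRACE: the trace inequality -/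
def S_trace : Prop :=
  ∀ (n : ℕ) (χ : GR n → ℝ), Continuous χ → HasCompactSupport χ → ∃ M C : ℝ, 0 < C ∧
    ∀ (N : ℕ) [NeZero N] (H : Subgroup (GN n N)) (F : Set (GR n)), IsFD F →
    ∀ (k : ℕ) (f : Fin k → GR n → XX H → ℂ), (∀ i, IsForm H (f i)) → (∀ i, IsL2 F (f i)) →
    (∀ i j, ip F (f i) (f j) = if i = j then 1 else 0) →
    ∀ (m : ℤ) (R : Finset (MZ n)), 0 < m → IsUnit (m : ZMod N) → IsReps m R → ∀ (g : GR n) (c : XX H),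
      (cs H R m M g c).Finite ∧
      ∑ i, ‖∑ β ∈ R, Rc χ (f i) (scl β * g) (rdM N β • c)‖ₑ ^ 2 ≤
        ENNReal.ofReal (C * Nat.card (cs H R m M g c))

/-- CUT: cusp forms are small at the points of large height -/
def S_cut : Prop :=
  ∀ (n : ℕ) (χ : GR n → ℝ) (ε : ℝ), Continuous χ → HasCompactSupport χ → 0 < ε → ∃ W : ℝ, 1 ≤ W ∧
    ∀ (N : ℕ) [NeZero N] (H : Subgroup (GN n N)) (F : Set (GR n)), IsFD F →
    ∀ f : GR n → XX H → ℂ, IsForm H f → IsL2 F f → IsCusp f →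
      ∑' c : XX H, ∫⁻ g in F ∩ {x | ∃ γ : GZ n, io n γ * x ∈ SG n ∧
        ∃ i j : Fin n, (i : ℕ) + 1 = j ∧ W * ixS H * ac (io n γ * x) i < ac (io n γ * x) j},
          ‖Rc χ f g c‖ₑ ^ 2 ∂(mu n) ≤
        ENNReal.ofReal ε * ∑' c : XX H, ∫⁻ g in F, ‖f g c‖ₑ ^ 2 ∂(mu n)

/-- MASS: averaging does not destroy slowly varying functions -/
def S_mass : Prop :=
  ∀ (n : ℕ) (U : Set (GR n)) (χ : GR n → ℝ), Continuous χ → HasCompactSupport χ → (∀ g, 0 ≤ χ g) →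
    (∀ g, χ g ≠ 0 → g ∈ U) → ∫ g, χ g ∂(mu n) = 1 →
    ∀ (N : ℕ) [NeZero N] (H : Subgroup (GN n N)) (F : Set (GR n)), IsFD F →
    ∀ f : GR n → XX H → ℂ, IsForm H f → IsL2 F f → ip F f f = 1 → IsSlow U F f →
      ENNReal.ofReal (1 / 4) ≤ ∑' c : XX H, ∫⁻ g in F, ‖Rc χ f g c‖ₑ ^ 2 ∂(mu n)

/-- COV: integrals over a part of a fundamental domain and over a covering set -/
def S_cov : Prop :=
  ∀ (n : ℕ) (F T : Set (GR n)) (h : GR n → ℝ≥0∞), IsFD F → MeasurableSet T → Measurable h →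
    (∀ (γ : GZ n) (g : GR n), h (io n γ * g) = h g) →
    ∫⁻ g in F ∩ {x | ∃ γ : GZ n, io n γ * x ∈ T}, h g ∂(mu n) ≤ ∫⁻ g in T, h g ∂(mu n)

/-- RCF: the operator `Rc` commutes with the Hecke operators and preserves invariance and measurability -/
def S_rcf : Prop :=
  ∀ (n : ℕ) (χ : GR n → ℝ), Continuous χ → HasCompactSupport χ →
    ∀ (N : ℕ) [NeZero N] (H : Subgroup (GN n N)) (F : Set (GR n)), IsFD F →
    ∀ f : GR n → XX H → ℂ, IsForm H f → IsL2 F f → IsForm H (Rc χ f) ∧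
      ∀ (R : Finset (MZ n)) (a : ℂ), (∀ β ∈ R, 0 < β.det) →
        (∀ g c, ∑ β ∈ R, f (scl β * g) (rdM N β • c) = a * f g c) →
        ∀ g c, ∑ β ∈ R, Rc χ f (scl β * g) (rdM N β • c) = a * Rc χ f g c

end Pool.Agent.T2h77.N
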