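import Pool.Agent.T2h77N.Stm

/-!
# Basic facts on the definitions
-/

set_option autoImplicit false

open MeasureTheory Matrix
open scoped MatrixGroups ENNReal Topology

noncomputable section

namespace Pool.Agent.T2h77.N

theorem map_cast_det {n : ℕ} {A : Type} [CommRing A] (β : MZ n) :
    (β.map (Int.cast : ℤ → A)).det = ((β.det : ℤ) : A) :=
  (Int.cast_det (R := A) β).symm

theorem scl_det {n : ℕ} {β : MZ n} (h : 0 < β.det) :
    ((((β.det : ℤ) : ℝ) ^ (-(1 / (n : ℝ)))) • β.map (Int.cast : ℤ → ℝ)).det = 1 := by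
  rw [Matrix.det_smul, map_cast_det, Fintype.card_fin]
  have h' : (0 : ℝ) < ((β.det : ℤ) : ℝ) := by exact_mod_cast h
  rcases Nat.eq_zero_or_pos n with rfl | hn
  · simp
  · rw [← Real.rpow_natCast, ← Real.rpow_mul h'.le]
    have : -(1 / (n : ℝ)) * (n : ℝ) = -1 := by
      field_simp
    rw [this, Real.rpow_neg_one, inv_mul_cancel₀ h'.ne']

theorem scl_val {n : ℕ} {β : MZ n} (h : 0 < β.det) :
    (scl β).1 = (((β.det : ℤ) : ℝ) ^ (-(1 / (n : ℝ)))) • β.map (Int.cast : ℤ → ℝ) := by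
  have e : scl β = ⟨_, scl_det h⟩ := dif_pos (scl_det h)
  rw [e]

theorem scl_apply {n : ℕ} {β : MZ n} (h : 0 < β.det) (i j : Fin n) :
    (scl β) i j = (((β.det : ℤ) : ℝ) ^ (-(1 / (n : ℝ)))) * (β i j : ℝ) := by
  rw [scl_val h]
  rfl

theorem scl_mul {n : ℕ} {β β' : MZ n} (h : 0 < β.det) (h' : 0 < β'.det) : scl (β * β') = scl β * scl β' := by
  have h2 : 0 < (β * β').det := by rw [Matrix.det_mul]; exact mul_pos h h'
  apply Subtype.ext
  rw [scl_val h2, Matrix.SpecialLinearGroup.coe_mul, scl_val h, scl_val h', Matrix.det_mul]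
  push_cast
  rw [Real.mul_rpow (by exact_mod_cast h.le) (by exact_mod_cast h'.le), Matrix.smul_mul, Matrix.mul_smul,
    smul_smul]
  congr 1
  exact Matrix.map_mul (f := Int.castRingHom ℝ)

theorem io_val {n : ℕ} (γ : GZ n) : (io n γ).1 = (γ : MZ n).map (Int.cast : ℤ → ℝ) := rfl

theorem scl_coe {n : ℕ} (γ : GZ n) : scl (γ : MZ n) = io n γ := by
  have h : 0 < (γ : MZ n).det := by rw [γ.2]; exact one_pos
  apply Subtype.ext
  rw [scl_val h, io_val, γ.2]
  simp

theorem io_injective (n : ℕ) : Function.Injective (io n) := by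
  intro γ γ' h
  apply Subtype.ext
  have h1 : (γ : MZ n).map (Int.cast : ℤ → ℝ) = (γ' : MZ n).map (Int.cast : ℤ → ℝ) := congrArg Subtype.val h
  ext i j
  have := congrFun (congrFun h1 i) j
  rw [Matrix.map_apply, Matrix.map_apply] at this
  exact_mod_cast this

theorem isUnit_rdM {n N : ℕ} {β : MZ n} (h : IsUnit ((β.det : ℤ) : ZMod N)) :
    IsUnit (β.map (Int.cast : ℤ → ZMod N)) := by
  rw [Matrix.isUnit_iff_isUnit_det, map_cast_det]
  exact h

theorem rdM_val' {n N : ℕ} {β : MZ n} (h : IsUnit (β.map (Int.cast : ℤ → ZMod N))) :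
    ((rdM N β : GN n N) : Matrix (Fin n) (Fin n) (ZMod N)) = β.map (Int.cast : ℤ → ZMod N) := by
  unfold rdM
  rw [dif_pos h]
  exact h.unit_spec

theorem rdM_val {n N : ℕ} {β : MZ n} (h : IsUnit ((β.det : ℤ) : ZMod N)) :
    ((rdM N β : GN n N) : Matrix (Fin n) (Fin n) (ZMod N)) = β.map (Int.cast : ℤ → ZMod N) :=
  rdM_val' (isUnit_rdM h)

theorem rdM_mul {n N : ℕ} {β β' : MZ n} (h : IsUnit ((β.det : ℤ) : ZMod N)) (h' : IsUnit ((β'.det : ℤ) : ZMod N)) :
    rdM N (β * β') = rdM N β * rdM N β' := by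
  have h2 : IsUnit (((β * β').det : ℤ) : ZMod N) := by
    rw [Matrix.det_mul, Int.cast_mul]
    exact h.mul h'
  apply Units.ext
  rw [Units.val_mul, rdM_val h2, rdM_val h, rdM_val h']
  exact Matrix.map_mul (f := Int.castRingHom (ZMod N))

theorem isUnit_det_coe {n : ℕ} (N : ℕ) (γ : GZ n) : IsUnit (((γ : MZ n).det : ℤ) : ZMod N) := by
  rw [γ.2]
  simp

theorem rdM_coe_mul {n N : ℕ} (γ γ' : GZ n) :
    rdM N ((γ * γ' : GZ n) : MZ n) = rdM N (γ : MZ n) * rdM N (γ' : MZ n) :=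
  rdM_mul (isUnit_det_coe N γ) (isUnit_det_coe N γ')

/-- reduction modulo `N` as a homomorphism -/
def rdH (n N : ℕ) : GZ n →* GN n N where
  toFun γ := rdM N (γ : MZ n)
  map_one' := by
    apply Units.ext
    rw [rdM_val (isUnit_det_coe N 1)]
    simp
  map_mul' := rdM_coe_mul

theorem rdH_apply {n N : ℕ} (γ : GZ n) : rdH n N γ = rdM N (γ : MZ n) := rfl

theorem rdM_one' (n N : ℕ) : rdM N (1 : MZ n) = 1 := (rdH n N).map_one

theorem rdM_inv {n N : ℕ} (γ : GZ n) : rdM N ((γ⁻¹ : GZ n) : MZ n) = (rdM N (γ : MZ n))⁻¹ := (rdH n N).map_inv γ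

theorem rdM_eq_toGL {n N : ℕ} (γ : GZ n) :
    rdM N (γ : MZ n) = Matrix.SpecialLinearGroup.toGL
      (Matrix.SpecialLinearGroup.map (n := Fin n) (Int.castRingHom (ZMod N)) γ) := by
  apply Units.ext
  rw [rdM_val (isUnit_det_coe N γ)]
  rfl

/-- representatives of the matrices of determinant one -/
theorem isReps_one' (n : ℕ) : IsReps (n := n) 1 {1} := by
  constructor
  · intro β hβ
    rw [Finset.mem_singleton] at hβ
    rw [hβ, Matrix.det_one]
  · intro β hβ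
    refine ⟨1, ⟨Finset.mem_singleton_self _, ⟨β, hβ⟩, by simp⟩, ?_⟩
    rintro r ⟨hr, _⟩
    exact Finset.mem_singleton.1 hr

end Pool.Agent.T2h77.N
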