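import Pool.Agent.T2h77N.Stm

/-!
# Density theorem for `GL_n` over `ℚ`: assembly, part 1
-/

set_option autoImplicit false

open MeasureTheory Matrix
open scoped MatrixGroups ENNReal Topology

noncomputable section

namespace Pool.Agent.T2h77.N

theorem isReps_one (n : ℕ) : IsReps (n := n) 1 {1} := by
  constructor
  · intro β hβ
    rw [Finset.mem_singleton] at hβ
    rw [hβ, Matrix.det_one]
  · intro β hβ
    refine ⟨1, ⟨Finset.mem_singleton_self _, ⟨β, hβ⟩, by simp⟩, ?_⟩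
    rintro r ⟨hr, _⟩
    exact Finset.mem_singleton.1 hr

theorem scl_one (n : ℕ) : scl (1 : MZ n) = 1 := by
  have h : ((((1 : MZ n).det : ℤ) : ℝ) ^ (-(1 / (n : ℝ))) • (1 : MZ n).map (Int.cast : ℤ → ℝ)).det = 1 := by
    simp
  refine (dif_pos h).trans (Subtype.ext ?_)
  simp

theorem rdM_one (n N : ℕ) : rdM N (1 : MZ n) = 1 := by
  unfold rdM
  split_ifs with h
  · apply Units.ext
    simp
  · rfl

instance (n : ℕ) : (mu n).IsHaarMeasure := inferInstanceAs (Measure.IsHaarMeasure Measure.haar)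

instance (n N : ℕ) [NeZero N] (H : Subgroup (GN n N)) : Finite (XX H) := inferInstance

theorem exists_bump (n : ℕ) {U : Set (GR n)} (hU : U ∈ 𝓝 (1 : GR n)) :
    ∃ χ : GR n → ℝ, Continuous χ ∧ HasCompactSupport χ ∧ (∀ g, 0 ≤ χ g) ∧ (∀ g, χ g ≠ 0 → g ∈ U) ∧
      ∫ g, χ g ∂(mu n) = 1 := by
  obtain ⟨f, hf1, hf0, hfc, hf01⟩ := exists_continuous_one_zero_of_isCompact (isCompact_singleton (x := (1 : GR n)))
    (isOpen_interior (s := U)).isClosed_compl (by
      rw [Set.disjoint_singleton_left]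
      exact fun h => h (mem_interior_iff_mem_nhds.2 hU))
  have hpos : 0 < ∫ g, f g ∂(mu n) := by
    refine Continuous.integral_pos_of_hasCompactSupport_nonneg_nonzero (x := 1) f.continuous hfc
      (fun g => (hf01 g).1) ?_
    rw [hf1 (Set.mem_singleton _)]
    exact one_ne_zero
  refine ⟨fun g => (∫ g, f g ∂(mu n))⁻¹ * f g, continuous_const.mul f.continuous, hfc.mul_left,
    fun g => mul_nonneg (inv_nonneg.2 hpos.le) (hf01 g).1, fun g hg => ?_, ?_⟩
  · by_contra h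
    apply hg
    have : f g = 0 := hf0 (fun h' => h (interior_subset h'))
    simp [this]
  · rw [integral_const_mul, inv_mul_cancel₀ hpos.ne']

variable {n N : ℕ} [NeZero N] {H : Subgroup (GN n N)}

/-- the squared mass of `f` at `g` -/
def sq (f : GR n → XX H → ℂ) (g : GR n) : ℝ≥0∞ := ∑' c : XX H, ‖f g c‖ₑ ^ 2

theorem sq_inv {f : GR n → XX H → ℂ} (hf : IsForm H f) (γ : GZ n) (g : GR n) : sq f (io n γ * g) = sq f g := by
  unfold sq
  rw [← (MulAction.toPerm (rdM N (γ : MZ n)) : Equiv.Perm (XX H)).tsum_eq (fun c => ‖f (io n γ * g) c‖ₑ ^ 2)]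
  refine tsum_congr fun c => ?_
  rw [MulAction.toPerm_apply, hf.invariant]

theorem measurable_sq {f : GR n → XX H → ℂ} (hf : IsForm H f) : Measurable (sq f) :=
  Measurable.tsum fun c => (hf.measurable c).enorm.pow_const 2

theorem sq_int {f : GR n → XX H → ℂ} (hf : IsForm H f) (S : Set (GR n)) :
    ∑' c : XX H, ∫⁻ g in S, ‖f g c‖ₑ ^ 2 ∂(mu n) = ∫⁻ g in S, sq f g ∂(mu n) := by
  unfold sq
  rw [lintegral_tsum fun c => ((hf.measurable c).enorm.pow_const 2).aemeasurable]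

/-- the points equivalent to a point of `T` -/
def sat (T : Set (GR n)) : Set (GR n) := {x | ∃ γ : GZ n, io n γ * x ∈ T}

/-- the bound for the masses in a region -/
theorem region_bound (hcov : S_cov) (hrcf : S_rcf) {χ : GR n → ℝ} (hχ : Continuous χ) (hχc : HasCompactSupport χ)
    {F : Set (GR n)} (hF : IsFD F) {k : ℕ} {f : Fin k → GR n → XX H → ℂ} (hf : ∀ i, IsForm H (f i))
    (hL : ∀ i, IsL2 F (f i)) {M C : ℝ} {m : ℤ} {R : Finset (MZ n)}
    (hm : 0 < m) (hR : IsReps m R)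
    (htr : ∀ (g : GR n) (c : XX H), (cs H R m M g c).Finite ∧
      ∑ i, ‖∑ β ∈ R, Rc χ (f i) (scl β * g) (rdM N β • c)‖ₑ ^ 2 ≤ ENNReal.ofReal (C * Nat.card (cs H R m M g c)))
    (hC : 0 ≤ C)
    (I : Finset (Fin k)) (a : Fin k → ℂ)
    (ha : ∀ i ∈ I, ∀ g c, ∑ β ∈ R, f i (scl β * g) (rdM N β • c) = a i * f i g c)
    {T : Set (GR n)} (hT : MeasurableSet T) (φ : GR n → ℝ)
    (hφ : ∀ x ∈ T, (∑' c : XX H, (Nat.card (cs H R m M x c) : ℝ)) ≤ φ x) :
    ∑ i ∈ I, ‖a i‖ₑ ^ 2 * ∫⁻ g in F ∩ sat T, sq (Rc χ (f i)) g ∂(mu n) ≤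
      ∫⁻ x in T, ENNReal.ofReal (C * φ x) ∂(mu n) := by
  classical
  let _ : Fintype (XX H) := Fintype.ofFinite _
  have hRc : ∀ i, IsForm H (Rc χ (f i)) := fun i => (hrcf n χ hχ hχc N H F hF (f i) (hf i) (hL i)).1
  set h : GR n → ℝ≥0∞ := fun g => ∑ i ∈ I, ‖a i‖ₑ ^ 2 * sq (Rc χ (f i)) g with hh
  have hhm : Measurable h := Finset.measurable_sum _ fun i _ => (measurable_sq (hRc i)).const_mul _
  have h1 : ∑ i ∈ I, ‖a i‖ₑ ^ 2 * ∫⁻ g in F ∩ sat T, sq (Rc χ (f i)) g ∂(mu n) =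
      ∫⁻ g in F ∩ sat T, h g ∂(mu n) := by
    rw [hh, lintegral_finsetSum _ fun i _ => (measurable_sq (hRc i)).const_mul _]
    exact Finset.sum_congr rfl fun i _ => (lintegral_const_mul _ (measurable_sq (hRc i))).symm
  rw [h1]
  refine (hcov n F T h hF hT hhm fun γ g => ?_).trans ?_
  · rw [hh]
    exact Finset.sum_congr rfl fun i _ => by rw [sq_inv (hRc i)]
  · refine setLIntegral_mono' hT fun x hx => ?_
    rw [hh]
    calc ∑ i ∈ I, ‖a i‖ₑ ^ 2 * sq (Rc χ (f i)) x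
        = ∑ i ∈ I, ∑ c : XX H, ‖∑ β ∈ R, Rc χ (f i) (scl β * x) (rdM N β • c)‖ₑ ^ 2 := by
          refine Finset.sum_congr rfl fun i hi => ?_
          unfold sq
          rw [tsum_fintype, Finset.mul_sum]
          refine Finset.sum_congr rfl fun c _ => ?_
          rw [(hrcf n χ hχ hχc N H F hF (f i) (hf i) (hL i)).2 R (a i)
            (fun β hβ => by rw [hR.1 β hβ]; exact hm) (ha i hi) x c, enorm_mul, mul_pow]
      _ = ∑ c : XX H, ∑ i ∈ I, ‖∑ β ∈ R, Rc χ (f i) (scl β * x) (rdM N β • c)‖ₑ ^ 2 := Finset.sum_comm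
      _ ≤ ∑ c : XX H, ∑ i, ‖∑ β ∈ R, Rc χ (f i) (scl β * x) (rdM N β • c)‖ₑ ^ 2 :=
          Finset.sum_le_sum fun c _ => Finset.sum_le_sum_of_subset (Finset.subset_univ _)
      _ ≤ ∑ c : XX H, ENNReal.ofReal (C * Nat.card (cs H R m M x c)) :=
          Finset.sum_le_sum fun c _ => (htr x c).2
      _ = ENNReal.ofReal (∑ c : XX H, C * Nat.card (cs H R m M x c)) :=
          (ENNReal.ofReal_sum_of_nonneg fun c _ => by positivity).symm
      _ ≤ ENNReal.ofReal (C * φ x) := by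
          refine ENNReal.ofReal_le_ofReal ?_
          rw [← Finset.mul_sum]
          refine mul_le_mul_of_nonneg_left ?_ hC
          rw [← tsum_fintype (L := SummationFilter.unconditional _)]
          exact hφ x hx

end Pool.Agent.T2h77.N
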