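import Pool.Agent.T2h77N.Asm1
import Pool.Agent.T2h77N.Api

/-!
# Density theorem for `GL_n` over `ℚ`: assembly, part 2 (numerical lemmas, the regions)
-/

set_option autoImplicit false

open MeasureTheory Matrix
open scoped MatrixGroups ENNReal Topology

noncomputable section

namespace Pool.Agent.T2h77.N

theorem log_pow_le (K : ℕ) (δ : ℝ) (hδ : 0 < δ) : ∃ C : ℝ, 1 ≤ C ∧ ∀ D : ℝ, 1 ≤ D → (1 + Real.log D) ^ K ≤ C * D ^ δ := by
  have hδ' : 0 < δ / (K + 1) := by positivity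
  refine ⟨(1 + (K + 1) / δ) ^ K, one_le_pow₀ (by
    have : 0 ≤ (K + 1) / δ := by positivity
    linarith), fun D hD => ?_⟩
  have h1 : Real.log D ≤ D ^ (δ / (K + 1)) / (δ / (K + 1)) := Real.log_le_rpow_div (by linarith) hδ'
  have h2 : 1 ≤ D ^ (δ / (K + 1)) := Real.one_le_rpow hD hδ'.le
  have h3 : 1 + Real.log D ≤ (1 + (K + 1) / δ) * D ^ (δ / (K + 1)) := by
    have e : D ^ (δ / (K + 1)) / (δ / (K + 1)) = ((K + 1) / δ) * D ^ (δ / (K + 1)) := by
      field_simp
    rw [e] at h1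
    nlinarith
  have h4 : 0 ≤ 1 + Real.log D := by
    have := Real.log_nonneg hD
    linarith
  calc (1 + Real.log D) ^ K ≤ ((1 + (K + 1) / δ) * D ^ (δ / (K + 1))) ^ K := pow_le_pow_left₀ h4 h3 K
    _ = (1 + (K + 1) / δ) ^ K * D ^ (δ / (K + 1) * K) := by
        rw [mul_pow, Real.rpow_mul (by linarith), Real.rpow_natCast]
    _ ≤ (1 + (K + 1) / δ) ^ K * D ^ δ := by
        refine mul_le_mul_of_nonneg_left (Real.rpow_le_rpow_of_exponent_le hD ?_) (by positivity)
        rw [div_mul_eq_mul_div, div_le_iff₀ (by positivity)]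
        nlinarith

/-- the final numerical estimate -/
theorem numeric (n : ℕ) (hn : 1 ≤ n) (η τ c K₁ K₂ B W : ℝ) (hη : 0 < η) (hη1 : η ≤ 1) (hτ : 0 < τ) (hτ1 : τ ≤ 1)
    (hc : c = η / (4 * n)) (hK₁ : 0 ≤ K₁) (hK₂ : 0 ≤ K₂) (hB : 1 ≤ B) (hW : 1 ≤ W) :
    ∃ C : ℝ, 0 < C ∧ ∀ D : ℝ, 1 ≤ D →
      (D ^ (c * τ) + 1) * (2 * Real.log D + 1) *
        (K₁ * (2 * Real.log D + 1) ^ n * (1 + Real.log (B * D ^ η)) ^ n * D ^ (-(τ * η))) +
        K₂ * D ^ (-η) * (1 + Real.log (W * D)) ^ n ≤ C * D ^ (-(c * τ)) := by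
  obtain ⟨C₁, hC₁, h₁⟩ := log_pow_le (2 * n + 1) (η * τ / 4) (by positivity)
  have hn' : (1 : ℝ) ≤ n := by exact_mod_cast hn
  have hc0 : 0 < c := by rw [hc]; positivity
  have hc1 : c ≤ η / 4 := by
    rw [hc]
    gcongr
    linarith
  refine ⟨4 * 2 ^ n * K₁ * (1 + Real.log B) ^ n * C₁ + K₂ * (1 + Real.log W) ^ n * C₁ + 1, by
    have := Real.log_nonneg hB
    have := Real.log_nonneg hW
    positivity, fun D hD => ?_⟩
  have hD0 : 0 < D := by linarith
  have hl : 0 ≤ Real.log D := Real.log_nonneg hD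
  have hlB : 0 ≤ Real.log B := Real.log_nonneg hB
  have hlW : 0 ≤ Real.log W := Real.log_nonneg hW
  have e1 : D ^ (c * τ) + 1 ≤ 2 * D ^ (c * τ) := by
    have : 1 ≤ D ^ (c * τ) := Real.one_le_rpow hD (by positivity)
    linarith
  have e2 : 2 * Real.log D + 1 ≤ 2 * (1 + Real.log D) := by linarith
  have e3 : 1 + Real.log (B * D ^ η) ≤ (1 + Real.log B) * (1 + Real.log D) := by
    rw [Real.log_mul (by positivity) (by positivity), Real.log_rpow hD0]
    nlinarith [mul_nonneg hlB hl]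
  have e3' : 0 ≤ 1 + Real.log (B * D ^ η) := by
    rw [Real.log_mul (by positivity) (by positivity), Real.log_rpow hD0]
    positivity
  have e4 : 1 + Real.log (W * D) ≤ (1 + Real.log W) * (1 + Real.log D) := by
    rw [Real.log_mul (by positivity) (by positivity)]
    nlinarith [mul_nonneg hlW hl]
  have e4' : 0 ≤ 1 + Real.log (W * D) := by
    rw [Real.log_mul (by positivity) (by positivity)]
    positivity
  have f1 : (D ^ (c * τ) + 1) * (2 * Real.log D + 1) *
        (K₁ * (2 * Real.log D + 1) ^ n * (1 + Real.log (B * D ^ η)) ^ n * D ^ (-(τ * η))) ≤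
      4 * 2 ^ n * K₁ * (1 + Real.log B) ^ n * C₁ * D ^ (-(c * τ)) := by
    calc (D ^ (c * τ) + 1) * (2 * Real.log D + 1) *
        (K₁ * (2 * Real.log D + 1) ^ n * (1 + Real.log (B * D ^ η)) ^ n * D ^ (-(τ * η)))
        ≤ (2 * D ^ (c * τ)) * (2 * (1 + Real.log D)) *
        (K₁ * (2 * (1 + Real.log D)) ^ n * ((1 + Real.log B) * (1 + Real.log D)) ^ n * D ^ (-(τ * η))) := by
          gcongr
      _ = 4 * 2 ^ n * K₁ * (1 + Real.log B) ^ n * ((1 + Real.log D) ^ (2 * n + 1)) *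
          (D ^ (c * τ) * D ^ (-(τ * η))) := by
          rw [mul_pow, mul_pow]
          ring
      _ ≤ 4 * 2 ^ n * K₁ * (1 + Real.log B) ^ n * (C₁ * D ^ (η * τ / 4)) *
          (D ^ (c * τ) * D ^ (-(τ * η))) := by
          gcongr
          exact h₁ D hD
      _ = 4 * 2 ^ n * K₁ * (1 + Real.log B) ^ n * C₁ * D ^ (η * τ / 4 + (c * τ + -(τ * η))) := by
          rw [Real.rpow_add hD0, Real.rpow_add hD0]
          ring
      _ ≤ 4 * 2 ^ n * K₁ * (1 + Real.log B) ^ n * C₁ * D ^ (-(c * τ)) := by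
          gcongr
          nlinarith
  have f2 : K₂ * D ^ (-η) * (1 + Real.log (W * D)) ^ n ≤ K₂ * (1 + Real.log W) ^ n * C₁ * D ^ (-(c * τ)) := by
    calc K₂ * D ^ (-η) * (1 + Real.log (W * D)) ^ n
        ≤ K₂ * D ^ (-η) * ((1 + Real.log W) * (1 + Real.log D)) ^ n := by gcongr
      _ ≤ K₂ * D ^ (-η) * ((1 + Real.log W) ^ n * (1 + Real.log D) ^ (2 * n + 1)) := by
          rw [mul_pow]
          gcongr
          · linarith
          · omega
      _ ≤ K₂ * D ^ (-η) * ((1 + Real.log W) ^ n * (C₁ * D ^ (η * τ / 4))) := by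
          gcongr
          exact h₁ D hD
      _ = K₂ * (1 + Real.log W) ^ n * C₁ * D ^ (-η + η * τ / 4) := by
          rw [Real.rpow_add hD0]
          ring
      _ ≤ K₂ * (1 + Real.log W) ^ n * C₁ * D ^ (-(c * τ)) := by
          gcongr
          nlinarith
  have f3 : 0 ≤ D ^ (-(c * τ)) := by positivity
  nlinarith

/-- the part of the Siegel set where the ratios are at most `Y` -/
def SL (n : ℕ) (Y : ℝ) : Set (GR n) := SG n ∩ {x | ∀ i j : Fin n, (i : ℕ) + 1 = j → ac x j ≤ Y * ac x i}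

theorem measurable_SG (hiw : S_iw) (n : ℕ) : MeasurableSet (SG n) := by
  obtain ⟨-, -, -, ha, hl⟩ := hiw n
  have e : SG n = (⋂ (i : Fin n) (j : Fin n), {x : GR n | j < i → 0 ≤ lc x i j ∧ lc x i j < 1}) ∩
      ⋂ (i : Fin n) (j : Fin n), {x : GR n | (i : ℕ) + 1 = j → ac x i ≤ 2 * ac x j} := by
    ext x
    simp [SG]
  rw [e]
  refine (MeasurableSet.iInter fun i => MeasurableSet.iInter fun j => ?_).inter
    (MeasurableSet.iInter fun i => MeasurableSet.iInter fun j => ?_)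
  · by_cases h : j < i
    · simp only [h, forall_true_left]
      exact (measurableSet_le measurable_const (hl i j)).inter (measurableSet_lt (hl i j) measurable_const)
    · simp [h]
  · by_cases h : (i : ℕ) + 1 = j
    · simp only [h, forall_true_left]
      exact measurableSet_le (ha i) ((ha j).const_mul 2)
    · simp [h]

theorem measurable_SL (hiw : S_iw) (n : ℕ) (Y : ℝ) : MeasurableSet (SL n Y) := by
  obtain ⟨-, -, -, ha, hl⟩ := hiw n
  refine (measurable_SG hiw n).inter ?_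
  have e : {x : GR n | ∀ i j : Fin n, (i : ℕ) + 1 = j → ac x j ≤ Y * ac x i} =
      ⋂ (i : Fin n) (j : Fin n), {x : GR n | (i : ℕ) + 1 = j → ac x j ≤ Y * ac x i} := by
    ext x
    simp
  rw [e]
  refine MeasurableSet.iInter fun i => MeasurableSet.iInter fun j => ?_
  by_cases h : (i : ℕ) + 1 = j
  · simp only [h, forall_true_left]
    exact measurableSet_le (ha j) ((ha i).const_mul Y)
  · simp [h]

theorem measurable_wt (hiw : S_iw) (n : ℕ) : Measurable fun x : GR n => ENNReal.ofReal (wt (ac x)) := by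
  obtain ⟨-, -, -, ha, hl⟩ := hiw n
  refine ENNReal.measurable_ofReal.comp ?_
  unfold wt
  refine Finset.measurable_prod _ fun i _ => Finset.measurable_prod _ fun j _ => ?_
  by_cases h : j < i
  · simp only [h, if_true]
    exact (ha i).div (ha j)
  · simp [h]

/-- a lower bound of `wt` on the Siegel set -/
theorem wt_lower (hiw : S_iw) {n : ℕ} {C : ℝ} (hC : 1 ≤ C) {x : GR n} (h : ∀ i j : Fin n, j ≤ i → ac x j ≤ C * ac x i) :
    1 ≤ C ^ (n ^ 2) * wt (ac x) := by
  obtain ⟨hp, -⟩ := hiw n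
  have e : C ^ (n ^ 2) = ∏ i : Fin n, ∏ j : Fin n, C := by
    simp [pow_two, pow_mul]
  rw [e]
  unfold wt
  have key : ∀ f : Fin n → ℝ, (∀ i, 1 ≤ f i) → 1 ≤ ∏ i, f i := fun f hf => by
    have := Finset.prod_le_prod (s := Finset.univ) (f := fun _ : Fin n => (1 : ℝ)) (g := f)
      (fun _ _ => zero_le_one) (fun i _ => hf i)
    simpa using this
  rw [← Finset.prod_mul_distrib]
  refine key _ fun i => ?_
  rw [← Finset.prod_mul_distrib]
  refine key _ fun j => ?_
  by_cases hj : j < i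
  · rw [if_pos hj, ← mul_div_assoc, le_div_iff₀ (hp x j), one_mul]
    exact h i j hj.le
  · rw [if_neg hj, mul_one]
    exact hC

end Pool.Agent.T2h77.N
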