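import Pool.Agent.T2h77N.Asm2

/-!
# Density theorem for `GL_n` over `ℚ`: assembly, part 3 (the masses in the regions)
-/

set_option autoImplicit false

open MeasureTheory Matrix
open scoped MatrixGroups ENNReal Topology

noncomputable section

namespace Pool.Agent.T2h77.N

variable {n N : ℕ} [NeZero N] {H : Subgroup (GN n N)}

theorem norm_of_ip {F : Set (GR n)} {f : GR n → XX H → ℂ} (hf : IsForm H f) (hL : IsL2 F f) (h : ip F f f = 1) :
    ∫⁻ g in F, sq f g ∂(mu n) = 1 := by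
  classical
  let _ : Fintype (XX H) := Fintype.ofFinite _
  rw [← sq_int hf, tsum_fintype]
  have e : ∀ c : XX H, ∫ g in F, f g c * star (f g c) ∂(mu n) =
      (((∫⁻ g in F, ‖f g c‖ₑ ^ 2 ∂(mu n)).toReal : ℝ) : ℂ) := by
    intro c
    have e1 : ∀ g, f g c * star (f g c) = (((‖f g c‖ ^ 2 : ℝ)) : ℂ) := fun g => by
      rw [Complex.star_def, Complex.mul_conj, Complex.normSq_eq_norm_sq]
    simp_rw [e1]
    rw [integral_complex_ofReal, integral_eq_lintegral_of_nonneg_ae (Filter.Eventually.of_forall fun g => by positivity)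
      (((hf.measurable c).norm.pow_const 2).aestronglyMeasurable)]
    congr 2
    refine lintegral_congr fun g => ?_
    rw [← ofReal_norm, ← ENNReal.ofReal_pow (norm_nonneg _)]
  unfold ip at h
  rw [tsum_fintype] at h
  simp_rw [e] at h
  rw [← Complex.ofReal_sum, ← ENNReal.toReal_sum fun c _ => (hL c).ne] at h
  have h2 : (∑ c : XX H, ∫⁻ g in F, ‖f g c‖ₑ ^ 2 ∂(mu n)).toReal = 1 := by exact_mod_cast h
  rw [← ENNReal.toReal_one] at h2
  exact (ENNReal.toReal_eq_toReal_iff' (ENNReal.sum_ne_top.2 fun c _ => (hL c).ne) ENNReal.one_ne_top).1 h2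

/-- the region of the Siegel set where some ratio is at least `Y`, and all are at most `W` -/
def SH (n : ℕ) (Y W : ℝ) : Set (GR n) := SL n W ∩ {x | ∃ i j : Fin n, (i : ℕ) + 1 = j ∧ Y * ac x i ≤ ac x j}

theorem measurable_SH (hiw : S_iw) (n : ℕ) (Y W : ℝ) : MeasurableSet (SH n Y W) := by
  obtain ⟨-, -, -, ha, hl⟩ := hiw n
  refine (measurable_SL hiw n W).inter ?_
  have e : {x : GR n | ∃ i j : Fin n, (i : ℕ) + 1 = j ∧ Y * ac x i ≤ ac x j} =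
      ⋃ (i : Fin n) (j : Fin n), {x : GR n | (i : ℕ) + 1 = j ∧ Y * ac x i ≤ ac x j} := by
    ext x
    simp
  rw [e]
  refine MeasurableSet.iUnion fun i => MeasurableSet.iUnion fun j => ?_
  by_cases h : (i : ℕ) + 1 = j
  · simp only [h, true_and]
    exact measurableSet_le ((ha i).const_mul Y) (ha j)
  · simp [h]

/-- every form in the family has a definite mass outside the highest region -/
theorem mass_split (hred : S_red) (hrcf : S_rcf) {χ : GR n → ℝ} (hχ : Continuous χ) (hχc : HasCompactSupport χ)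
    {F : Set (GR n)} (hF : IsFD F) {f : GR n → XX H → ℂ} (hf : IsForm H f)
    (hL : IsL2 F f) (h1 : ip F f f = 1)
    (hmass : ENNReal.ofReal (1 / 4) ≤ ∑' c : XX H, ∫⁻ g in F, ‖Rc χ f g c‖ₑ ^ 2 ∂(mu n)) {W : ℝ}
    (hcut : ∑' c : XX H, ∫⁻ g in F ∩ {x | ∃ γ : GZ n, io n γ * x ∈ SG n ∧
        ∃ i j : Fin n, (i : ℕ) + 1 = j ∧ W * ixS H * ac (io n γ * x) i < ac (io n γ * x) j},
          ‖Rc χ f g c‖ₑ ^ 2 ∂(mu n) ≤
        ENNReal.ofReal (1 / 16) * ∑' c : XX H, ∫⁻ g in F, ‖f g c‖ₑ ^ 2 ∂(mu n)) (Y : ℝ) :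
    ENNReal.ofReal (3 / 16) ≤ ∫⁻ g in F ∩ sat (SL n Y), sq (Rc χ f) g ∂(mu n) +
      ∫⁻ g in F ∩ sat (SH n Y (W * ixS H)), sq (Rc χ f) g ∂(mu n) := by
  have hR : IsForm H (Rc χ f) := (hrcf n χ hχ hχc N H F hF f hf hL).1
  rw [sq_int hR] at hmass
  rw [sq_int hR, sq_int hf, norm_of_ip hf hL h1, mul_one] at hcut
  set B : Set (GR n) := {x | ∃ γ : GZ n, io n γ * x ∈ SG n ∧
        ∃ i j : Fin n, (i : ℕ) + 1 = j ∧ W * ixS H * ac (io n γ * x) i < ac (io n γ * x) j} with hB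
  have hsub : F ⊆ ((F ∩ sat (SL n Y)) ∪ (F ∩ sat (SH n Y (W * ixS H)))) ∪ (F ∩ B) := by
    intro x hx
    obtain ⟨γ, hγ⟩ := hred n x
    by_cases h2 : ∀ i j : Fin n, (i : ℕ) + 1 = j → ac (io n γ * x) j ≤ Y * ac (io n γ * x) i
    · exact Or.inl (Or.inl ⟨hx, γ, hγ, h2⟩)
    · by_cases h3 : ∀ i j : Fin n, (i : ℕ) + 1 = j → ac (io n γ * x) j ≤ W * ixS H * ac (io n γ * x) i
      · refine Or.inl (Or.inr ⟨hx, γ, ⟨hγ, h3⟩, ?_⟩)
        push Not at h2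
        obtain ⟨i, j, hij, h4⟩ := h2
        exact ⟨i, j, hij, h4.le⟩
      · push Not at h3
        obtain ⟨i, j, hij, h4⟩ := h3
        exact Or.inr ⟨hx, γ, hγ, i, j, hij, h4⟩
  have h5 : ENNReal.ofReal (1 / 4) ≤ (∫⁻ g in F ∩ sat (SL n Y), sq (Rc χ f) g ∂(mu n) +
      ∫⁻ g in F ∩ sat (SH n Y (W * ixS H)), sq (Rc χ f) g ∂(mu n)) + ENNReal.ofReal (1 / 16) := by
    refine hmass.trans ((lintegral_mono_set hsub).trans ((lintegral_union_le _ _ _).trans ?_))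
    exact add_le_add (lintegral_union_le _ _ _) hcut
  have h6 : ENNReal.ofReal (1 / 4) = ENNReal.ofReal (3 / 16) + ENNReal.ofReal (1 / 16) := by
    rw [← ENNReal.ofReal_add (by norm_num) (by norm_num)]
    norm_num
  rw [h6] at h5
  exact (ENNReal.add_le_add_iff_right ENNReal.ofReal_ne_top).1 h5

/-- the volume of the low region -/
theorem vol_SL (hiw : S_iw) (hent : S_ent) (hint : S_int) (n : ℕ) : ∃ C : ℝ, 0 < C ∧ ∀ Y : ℝ, 1 ≤ Y →
    mu n (SL n Y) ≤ ENNReal.ofReal (C * (1 + Real.log Y) ^ n) := by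
  obtain ⟨Ce, hCe, he⟩ := hent n 1
  obtain ⟨Ci, hCi, hi⟩ := hint n
  refine ⟨Ce ^ (n ^ 2) * Ci, by positivity, fun Y hY => ?_⟩
  calc mu n (SL n Y) = ∫⁻ _ in SL n Y, 1 ∂(mu n) := by simp
    _ ≤ ∫⁻ x in SL n Y, ENNReal.ofReal (Ce ^ (n ^ 2)) * ENNReal.ofReal (wt (ac x)) ∂(mu n) := by
        refine setLIntegral_mono' (measurable_SL hiw n Y) fun x hx => ?_
        rw [← ENNReal.ofReal_mul (by positivity), ← ENNReal.ofReal_one]
        exact ENNReal.ofReal_le_ofReal (wt_lower hiw hCe (he x hx.1).1)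
    _ = ENNReal.ofReal (Ce ^ (n ^ 2)) * ∫⁻ x in SL n Y, ENNReal.ofReal (wt (ac x)) ∂(mu n) :=
        lintegral_const_mul _ (measurable_wt hiw n)
    _ ≤ ENNReal.ofReal (Ce ^ (n ^ 2)) * ENNReal.ofReal (Ci * (1 + Real.log Y) ^ n) := by
        gcongr
        exact hi Y hY
    _ = ENNReal.ofReal (Ce ^ (n ^ 2) * Ci * (1 + Real.log Y) ^ n) := by
        rw [← ENNReal.ofReal_mul (by positivity), mul_assoc]

/-- the bound in the low region -/
theorem low_bound (hcov : S_cov) (hrcf : S_rcf) (hiw : S_iw) {χ : GR n → ℝ} (hχ : Continuous χ)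
    (hχc : HasCompactSupport χ)
    {F : Set (GR n)} (hF : IsFD F) {k : ℕ} {f : Fin k → GR n → XX H → ℂ} (hf : ∀ i, IsForm H (f i))
    (hL : ∀ i, IsL2 F (f i)) {M C : ℝ} {m : ℤ} {R : Finset (MZ n)}
    (hm : 0 < m) (hR : IsReps m R)
    (htr : ∀ (g : GR n) (c : XX H), (cs H R m M g c).Finite ∧
      ∑ i, ‖∑ β ∈ R, Rc χ (f i) (scl β * g) (rdM N β • c)‖ₑ ^ 2 ≤ ENNReal.ofReal (C * Nat.card (cs H R m M g c)))
    (hC : 0 ≤ C)
    (I : Finset (Fin k)) (a : Fin k → ℂ)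
    (ha : ∀ i ∈ I, ∀ g c, ∑ β ∈ R, f i (scl β * g) (rdM N β • c) = a i * f i g c)
    (Y : ℝ) (φ Q V : ℝ) (hφ0 : 0 ≤ φ)
    (hφ : ∀ x ∈ SL n Y, (∑' c : XX H, (Nat.card (cs H R m M x c) : ℝ)) ≤ φ) (hQ : 0 < Q)
    (hQa : ∀ i ∈ I, Q ≤ ‖a i‖ ^ 2) (hV : mu n (SL n Y) ≤ ENNReal.ofReal V) :
    ∑ i ∈ I, ∫⁻ g in F ∩ sat (SL n Y), sq (Rc χ (f i)) g ∂(mu n) ≤ ENNReal.ofReal (C * φ * V / Q) := by
  have h1 := region_bound hcov hrcf hχ hχc hF hf hL hm hR htr hC I a ha (measurable_SL hiw n Y) (fun _ => φ) hφ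
  have h2 : ENNReal.ofReal Q * ∑ i ∈ I, ∫⁻ g in F ∩ sat (SL n Y), sq (Rc χ (f i)) g ∂(mu n) ≤
      ENNReal.ofReal (C * φ * V) := by
    rw [Finset.mul_sum]
    calc _ ≤ ∑ i ∈ I, ‖a i‖ₑ ^ 2 * ∫⁻ g in F ∩ sat (SL n Y), sq (Rc χ (f i)) g ∂(mu n) := by
          refine Finset.sum_le_sum fun i hi => ?_
          gcongr
          rw [← ofReal_norm, ← ENNReal.ofReal_pow (norm_nonneg _)]
          exact ENNReal.ofReal_le_ofReal (hQa i hi)
      _ ≤ _ := h1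
      _ = ENNReal.ofReal (C * φ) * mu n (SL n Y) := by simp
      _ ≤ ENNReal.ofReal (C * φ) * ENNReal.ofReal V := by gcongr
      _ = ENNReal.ofReal (C * φ * V) := (ENNReal.ofReal_mul (by positivity)).symm
  rw [ENNReal.ofReal_div_of_pos hQ, ENNReal.le_div_iff_mul_le (Or.inl (by positivity)) (Or.inl ENNReal.ofReal_ne_top),
    mul_comm]
  exact h2

/-- the bound in the high region -/
theorem high_bound (hcov : S_cov) (hrcf : S_rcf) (hiw : S_iw) {χ : GR n → ℝ} (hχ : Continuous χ)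
    (hχc : HasCompactSupport χ)
    {F : Set (GR n)} (hF : IsFD F) {k : ℕ} {f : Fin k → GR n → XX H → ℂ} (hf : ∀ i, IsForm H (f i))
    (hL : ∀ i, IsL2 F (f i)) {M C : ℝ}
    (htr : ∀ (g : GR n) (c : XX H), (cs H {1} 1 M g c).Finite ∧
      ∑ i, ‖∑ β ∈ ({1} : Finset (MZ n)), Rc χ (f i) (scl β * g) (rdM N β • c)‖ₑ ^ 2 ≤
        ENNReal.ofReal (C * Nat.card (cs H {1} 1 M g c)))
    (hC : 0 ≤ C) (Y W φ V : ℝ) (hφ0 : 0 ≤ φ)
    (hφ : ∀ x ∈ SH n Y W, (∑' c : XX H, (Nat.card (cs H {1} 1 M x c) : ℝ)) ≤ φ * wt (ac x))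
    (hV : ∫⁻ x in SL n W, ENNReal.ofReal (wt (ac x)) ∂(mu n) ≤ ENNReal.ofReal V) :
    ∑ i, ∫⁻ g in F ∩ sat (SH n Y W), sq (Rc χ (f i)) g ∂(mu n) ≤ ENNReal.ofReal (C * φ * V) := by
  have h1 := region_bound hcov hrcf hχ hχc hF hf hL one_pos (isReps_one n) htr hC Finset.univ (fun _ => 1)
    (fun i _ g c => by rw [Finset.sum_singleton, scl_one, rdM_one, one_mul, one_smul, one_mul])
    (measurable_SH hiw n Y W) (fun x => φ * wt (ac x)) hφ
  simp only [enorm_one, one_pow, one_mul] at h1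
  refine h1.trans ?_
  calc ∫⁻ x in SH n Y W, ENNReal.ofReal (C * (φ * wt (ac x))) ∂(mu n)
      ≤ ∫⁻ x in SL n W, ENNReal.ofReal (C * (φ * wt (ac x))) ∂(mu n) := lintegral_mono_set Set.inter_subset_left
    _ = ∫⁻ x in SL n W, ENNReal.ofReal (C * φ) * ENNReal.ofReal (wt (ac x)) ∂(mu n) := by
        refine lintegral_congr fun x => ?_
        rw [← ENNReal.ofReal_mul (by positivity), mul_assoc]
    _ = ENNReal.ofReal (C * φ) * ∫⁻ x in SL n W, ENNReal.ofReal (wt (ac x)) ∂(mu n) :=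
        lintegral_const_mul _ (measurable_wt hiw n)
    _ ≤ ENNReal.ofReal (C * φ) * ENNReal.ofReal V := by gcongr
    _ = ENNReal.ofReal (C * φ * V) := (ENNReal.ofReal_mul (by positivity)).symm

end Pool.Agent.T2h77.N
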