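import Pool.Agent.T2h77N.Asm3

/-!
# Density theorem for `GL_n` over `ℚ`: assembly, part 4 (the theorem)
-/

set_option autoImplicit false

open MeasureTheory Matrix
open scoped MatrixGroups ENNReal Topology

noncomputable section

namespace Pool.Agent.T2h77.N

/-- the density theorem -/
def S_final : Prop :=
  ∀ n : ℕ, 3 ≤ n → ∃ c : ℝ, 0 < c ∧ ∀ U : Set (GR n), U ∈ 𝓝 (1 : GR n) → ∀ τ : ℝ, 0 < τ → τ ≤ 1 →
    ∃ C : ℝ, 0 < C ∧ ∀ (N : ℕ) [NeZero N] (H : Subgroup (GN n N)) (F : Set (GR n)), IsFD F →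
    ∀ (k : ℕ) (f : Fin k → GR n → XX H → ℂ),
      (∀ i, IsForm H (f i) ∧ IsL2 F (f i) ∧ IsCusp (f i) ∧ IsSlow U F (f i)) →
      (∀ i j, ip F (f i) (f j) = if i = j then 1 else 0) →
      (∀ i, ∃ (p : ℕ) (α : Fin n → ℂ), p.Prime ∧ ¬ p ∣ N ∧ (p : ℝ) ≤ (ixS H : ℝ) ^ (c * τ) ∧
        IsHecke p α (f i) ∧ ∃ j, (p : ℝ) ^ τ ≤ ‖α j‖) →
      (k : ℝ) ≤ C * H.index * (ixS H : ℝ) ^ (-(c * τ))

theorem ixS_pos {n N : ℕ} [NeZero N] (H : Subgroup (GN n N)) : 0 < ixS H := by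
  unfold ixS
  exact Nat.pos_of_ne_zero Subgroup.index_ne_zero_of_finite

/-- the choice of the exponent `l` for a form violating the conjecture -/
theorem exists_l (hgrow : S_grow) {n : ℕ} (hn : 1 ≤ n) {D η τ c : ℝ} (hD : 1 ≤ D) (hη : 0 < η) (hη1 : η ≤ 1)
    (hτ : 0 < τ) (hτ1 : τ ≤ 1) (hc : c = η / (4 * n)) {p : ℕ} (hp : p.Prime) (hpD : (p : ℝ) ≤ D ^ (c * τ))
    (α : Fin n → ℂ) (hα : ∃ j, (p : ℝ) ^ τ ≤ ‖α j‖) :
    ∃ l : ℕ, (p : ℝ) ^ l ≤ D ^ η ∧ (l : ℝ) ≤ 2 * Real.log D ∧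
      (D ^ (τ * η)) / 4 ^ (n - 1) ≤ ‖hs α l‖ ^ 2 := by
  obtain ⟨j₀, hj₀⟩ := hα
  have : Nonempty (Fin n) := ⟨j₀⟩
  obtain ⟨j, hj⟩ := Finite.exists_max fun i => ‖α i‖
  have hpj : (p : ℝ) ^ τ ≤ ‖α j‖ := hj₀.trans (hj j₀)
  have hDη : 1 ≤ D ^ η := Real.one_le_rpow hD hη.le
  set m := ⌊D ^ η⌋₊ with hm
  have hm1 : 1 ≤ m := Nat.le_floor (by simpa using hDη)
  set L := Nat.log p m with hL
  have hL1 : p ^ L ≤ m := Nat.pow_log_le_self p (by omega)
  have hL2 : m < p ^ (L + 1) := Nat.lt_pow_succ_log_self hp.one_lt m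
  obtain ⟨l, hl1, hl2, hl3⟩ := hgrow n α j hj L
  have hp2 : (2 : ℝ) ≤ p := by exact_mod_cast hp.two_le
  have hp0 : (0 : ℝ) < p := by linarith
  have hp1 : (1 : ℝ) ≤ p := by linarith
  have hD0 : 0 < D := by linarith
  have hmD : (m : ℝ) ≤ D ^ η := Nat.floor_le (by positivity)
  have e1 : (p : ℝ) ^ l ≤ D ^ η := by
    calc (p : ℝ) ^ l ≤ (p : ℝ) ^ L := pow_le_pow_right₀ hp1 hl1
      _ ≤ m := by exact_mod_cast hL1
      _ ≤ D ^ η := hmD
  refine ⟨l, e1, ?_, ?_⟩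
  · have h2 : (2 : ℝ) ^ l ≤ D ^ η := (pow_le_pow_left₀ (by norm_num) hp2 l).trans e1
    have h3 := Real.log_le_log (by positivity) h2
    rw [Real.log_pow, Real.log_rpow hD0] at h3
    have h4 : (0.69 : ℝ) < Real.log 2 := by
      have := Real.log_two_gt_d9
      linarith
    have h5 : 0 ≤ Real.log D := Real.log_nonneg hD
    have h6 : (0 : ℝ) ≤ l := Nat.cast_nonneg l
    nlinarith
  · -- lower bound of `p ^ l`
    have f1 : D ^ η < (p : ℝ) ^ (L + 1) := by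
      have : D ^ η < m + 1 := Nat.lt_floor_add_one _
      have h7 : ((m + 1 : ℕ) : ℝ) ≤ ((p ^ (L + 1) : ℕ) : ℝ) := by exact_mod_cast hL2
      push_cast at h7
      linarith
    have f2 : (p : ℝ) ^ (L + 1) ≤ (p : ℝ) ^ l * (p : ℝ) ^ n := by
      rw [← pow_add]
      exact pow_le_pow_right₀ hp1 (by omega)
    have f3 : (p : ℝ) ^ n ≤ D ^ (η / 2) := by
      calc (p : ℝ) ^ n ≤ (D ^ (c * τ)) ^ n := pow_le_pow_left₀ hp0.le hpD n
        _ = D ^ (c * τ * n) := by rw [← Real.rpow_natCast, ← Real.rpow_mul hD0.le]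
        _ ≤ D ^ (η / 2) := by
            refine Real.rpow_le_rpow_of_exponent_le hD ?_
            have hn0 : (0 : ℝ) < n := by exact_mod_cast hn
            rw [hc]
            have : η / (4 * n) * τ * n = η * τ / 4 := by field_simp
            rw [this]
            nlinarith
    have f4 : D ^ (η / 2) ≤ (p : ℝ) ^ l := by
      have h8 : D ^ η = D ^ (η / 2) * D ^ (η / 2) := by
        rw [← Real.rpow_add hD0]
        congr 1
        ring
      have h9 : 0 < D ^ (η / 2) := by positivity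
      have h10 : 0 < (p : ℝ) ^ l := by positivity
      have h11 : D ^ (η / 2) * D ^ (η / 2) < (p : ℝ) ^ l * D ^ (η / 2) := by
        rw [← h8]
        exact f1.trans_le (f2.trans (mul_le_mul_of_nonneg_left f3 h10.le))
      exact (lt_of_mul_lt_mul_right h11 h9.le).le
    have f5 : D ^ (τ * η / 2) ≤ 2 ^ (n - 1) * ‖hs α l‖ := by
      calc D ^ (τ * η / 2) = (D ^ (η / 2)) ^ τ := by
            rw [← Real.rpow_mul hD0.le]
            congr 1
            ring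
        _ ≤ ((p : ℝ) ^ l) ^ τ := Real.rpow_le_rpow (by positivity) f4 hτ.le
        _ = ((p : ℝ) ^ τ) ^ l := by
            rw [← Real.rpow_natCast, ← Real.rpow_natCast, ← Real.rpow_mul hp0.le, ← Real.rpow_mul hp0.le, mul_comm]
        _ ≤ ‖α j‖ ^ l := pow_le_pow_left₀ (by positivity) hpj l
        _ ≤ _ := hl3
    rw [div_le_iff₀ (by positivity)]
    have h12 : D ^ (τ * η) = D ^ (τ * η / 2) * D ^ (τ * η / 2) := by
      rw [← Real.rpow_add hD0]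
      congr 1
      ring
    have h13 : (4 : ℝ) ^ (n - 1) = 2 ^ (n - 1) * 2 ^ (n - 1) := by
      rw [← mul_pow]
      norm_num
    rw [h12, h13]
    have h14 : 0 ≤ D ^ (τ * η / 2) := by positivity
    nlinarith [mul_le_mul f5 f5 h14 (by positivity)]

/-- the power of `D` in the low region -/
theorem pow_low {A₁ A η Ch D : ℝ} (hA₁ : 1 ≤ A₁) (hA : A₁ ≤ A) (hη : η = 1 / (2 * A ^ 2)) (hCh : 1 ≤ Ch)
    (hD : 1 ≤ D) {P : ℝ} (hP0 : 0 ≤ P) (hP : P ≤ D ^ η) :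
    (P * (Ch * D ^ η)) ^ A₁ * D ^ (-(1 / A₁)) ≤ Ch ^ A₁ := by
  have hD0 : 0 < D := by linarith
  have hA1 : 1 ≤ A := hA₁.trans hA
  have h0 : (P * (Ch * D ^ η)) ^ A₁ ≤ (Ch * D ^ (2 * η)) ^ A₁ := by
    refine Real.rpow_le_rpow (by positivity) ?_ (by linarith)
    have : D ^ (2 * η) = D ^ η * D ^ η := by
      rw [← Real.rpow_add hD0]
      congr 1
      ring
    rw [this]
    have : 0 ≤ D ^ η := by positivity
    nlinarith [mul_le_mul_of_nonneg_right hP (mul_nonneg (by linarith : (0:ℝ) ≤ Ch) this)]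
  calc (P * (Ch * D ^ η)) ^ A₁ * D ^ (-(1 / A₁)) ≤ (Ch * D ^ (2 * η)) ^ A₁ * D ^ (-(1 / A₁)) := by
        gcongr
    _ = Ch ^ A₁ * D ^ (2 * η * A₁ + -(1 / A₁)) := by
        rw [Real.mul_rpow (by linarith) (by positivity), ← Real.rpow_mul hD0.le, Real.rpow_add hD0]
        ring
    _ ≤ Ch ^ A₁ * 1 := by
        gcongr
        refine Real.rpow_le_one_of_one_le_of_nonpos hD ?_
        rw [hη]
        have : 2 * (1 / (2 * A ^ 2)) * A₁ ≤ 1 / A₁ := by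
          have e : 2 * (1 / (2 * A ^ 2)) * A₁ = A₁ / A ^ 2 := by field_simp
          rw [e, div_le_div_iff₀ (by positivity) (by positivity)]
          nlinarith
        linarith
    _ = Ch ^ A₁ := mul_one _

/-- the power of `D` in the high region -/
theorem pow_high {A₂ A η D : ℝ} (hA₂ : 1 ≤ A₂) (hA : A₂ ≤ A) (hη : η = 1 / (2 * A ^ 2)) (hD : 1 ≤ D) :
    (D ^ η)⁻¹ + (D ^ η) ^ A₂ * D ^ (-(1 / A₂)) ≤ 2 * D ^ (-η) := by
  have hD0 : 0 < D := by linarith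
  have hA1 : 1 ≤ A := hA₂.trans hA
  have h1 : (D ^ η)⁻¹ = D ^ (-η) := (Real.rpow_neg hD0.le η).symm
  have h2 : (D ^ η) ^ A₂ * D ^ (-(1 / A₂)) ≤ D ^ (-η) := by
    rw [← Real.rpow_mul hD0.le, ← Real.rpow_add hD0]
    refine Real.rpow_le_rpow_of_exponent_le hD ?_
    have h3 : η * A₂ + η ≤ 1 / A₂ := by
      have e : η * A₂ + η = (A₂ + 1) / (2 * A ^ 2) := by rw [hη]; field_simp
      rw [e, div_le_div_iff₀ (by positivity) (by positivity)]
      nlinarith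
    linarith
  rw [h1]
  linarith

end Pool.Agent.T2h77.N
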