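import Pool.Agent.T2h77N.Asm5
import Pool.Agent.T2h77N.Stm2

/-!
# Density theorem for `GL_n` over `ℚ` at the infinite place: assembly
-/

set_option autoImplicit false

open MeasureTheory Matrix
open scoped MatrixGroups ENNReal Topology

noncomputable section

namespace Pool.Agent.T2h77.N

theorem numeric2 (n : ℕ) (η η' τ K₁ K₂ B W : ℝ) (hη' : 0 < η') (hηη : η' ≤ η) (hη1 : η ≤ 1) (hτ : 0 < τ)
    (hτ1 : τ ≤ 1) (hK₁ : 0 ≤ K₁) (hK₂ : 0 ≤ K₂) (hB : 1 ≤ B) (hW : 1 ≤ W) :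
    ∃ C : ℝ, 0 < C ∧ ∀ D : ℝ, 1 ≤ D →
      K₁ * (1 + Real.log (B * D ^ η)) ^ n * D ^ (-(τ * η')) + K₂ * D ^ (-η) * (1 + Real.log (W * D)) ^ n ≤
        C * D ^ (-(η' / 2 * τ)) := by
  obtain ⟨C₁, hC₁, h₁⟩ := log_pow_le n (η' * τ / 2) (by positivity)
  have hη : 0 < η := by linarith
  refine ⟨K₁ * (1 + Real.log B) ^ n * C₁ + K₂ * (1 + Real.log W) ^ n * C₁ + 1, by
    have := Real.log_nonneg hB
    have := Real.log_nonneg hW
    positivity, fun D hD => ?_⟩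
  have hD0 : 0 < D := by linarith
  have hl : 0 ≤ Real.log D := Real.log_nonneg hD
  have hlB : 0 ≤ Real.log B := Real.log_nonneg hB
  have hlW : 0 ≤ Real.log W := Real.log_nonneg hW
  have e3 : 1 + Real.log (B * D ^ η) ≤ (1 + Real.log B) * (1 + Real.log D) := by
    rw [Real.log_mul (by positivity) (by positivity), Real.log_rpow hD0]
    nlinarith [mul_nonneg hlB hl]
  have e3' : 0 ≤ 1 + Real.log (B * D ^ η) := by
    rw [Real.log_mul (by positivity) (by positivity), Real.log_rpow hD0]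
    positivity
  have e4 : 1 + Real.log (W * D) ≤ (1 + Real.log W) * (1 + Real.log D) := by
    rw [Real.log_mul (by positivity) (by positivity)]
    nlinarith [mul_nonneg hlW hl]
  have e4' : 0 ≤ 1 + Real.log (W * D) := by
    rw [Real.log_mul (by positivity) (by positivity)]
    positivity
  have f1 : K₁ * (1 + Real.log (B * D ^ η)) ^ n * D ^ (-(τ * η')) ≤
      K₁ * (1 + Real.log B) ^ n * C₁ * D ^ (-(η' / 2 * τ)) := by
    calc K₁ * (1 + Real.log (B * D ^ η)) ^ n * D ^ (-(τ * η'))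
        ≤ K₁ * ((1 + Real.log B) * (1 + Real.log D)) ^ n * D ^ (-(τ * η')) := by gcongr
      _ = K₁ * (1 + Real.log B) ^ n * (1 + Real.log D) ^ n * D ^ (-(τ * η')) := by
          rw [mul_pow]
          ring
      _ ≤ K₁ * (1 + Real.log B) ^ n * (C₁ * D ^ (η' * τ / 2)) * D ^ (-(τ * η')) := by
          gcongr
          exact h₁ D hD
      _ = K₁ * (1 + Real.log B) ^ n * C₁ * D ^ (η' * τ / 2 + -(τ * η')) := by
          rw [Real.rpow_add hD0]
          ring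
      _ = K₁ * (1 + Real.log B) ^ n * C₁ * D ^ (-(η' / 2 * τ)) := by
          congr 2
          ring
  have f2 : K₂ * D ^ (-η) * (1 + Real.log (W * D)) ^ n ≤ K₂ * (1 + Real.log W) ^ n * C₁ * D ^ (-(η' / 2 * τ)) := by
    calc K₂ * D ^ (-η) * (1 + Real.log (W * D)) ^ n
        ≤ K₂ * D ^ (-η) * ((1 + Real.log W) * (1 + Real.log D)) ^ n := by gcongr
      _ = K₂ * D ^ (-η) * ((1 + Real.log W) ^ n * (1 + Real.log D) ^ n) := by rw [mul_pow]
      _ ≤ K₂ * D ^ (-η) * ((1 + Real.log W) ^ n * (C₁ * D ^ (η' * τ / 2))) := by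
          gcongr
          exact h₁ D hD
      _ = K₂ * (1 + Real.log W) ^ n * C₁ * D ^ (-η + η' * τ / 2) := by
          rw [Real.rpow_add hD0]
          ring
      _ ≤ K₂ * (1 + Real.log W) ^ n * C₁ * D ^ (-(η' / 2 * τ)) := by
          gcongr
          nlinarith
  have f3 : 0 ≤ D ^ (-(η' / 2 * τ)) := by positivity
  nlinarith

/-- the sum over the classes -/
theorem sum_classes2 {k n : ℕ} (low high : Fin k → ℝ≥0∞) (hsplit : ∀ i, ENNReal.ofReal (3 / 4) ≤ low i + high i)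
    (cl : Fin k → Fin n) (B B' : ℝ) (hB : 0 ≤ B) (hB' : 0 ≤ B')
    (hlow : ∀ q : Fin n, ∑ i ∈ Finset.univ.filter (fun i => cl i = q), low i ≤ ENNReal.ofReal B)
    (hhigh : ∑ i, high i ≤ ENNReal.ofReal B') :
    (k : ℝ) * (3 / 4) ≤ n * B + B' := by
  classical
  have h1 : ∑ i, low i ≤ ENNReal.ofReal (n * B) := by
    rw [← Finset.sum_fiberwise_of_maps_to (fun i _ => Finset.mem_univ (cl i))]
    calc _ ≤ ∑ q : Fin n, ENNReal.ofReal B := Finset.sum_le_sum fun q _ => hlow q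
      _ = ENNReal.ofReal (n * B) := by
          rw [Finset.sum_const, Finset.card_univ, Fintype.card_fin, nsmul_eq_mul,
            ENNReal.ofReal_mul (by positivity), ENNReal.ofReal_natCast]
  have h2 : ENNReal.ofReal (k * (3 / 4)) ≤ ENNReal.ofReal (n * B + B') := by
    calc ENNReal.ofReal (k * (3 / 4)) = ∑ _i : Fin k, ENNReal.ofReal (3 / 4) := by
          rw [Finset.sum_const, Finset.card_univ, Fintype.card_fin, nsmul_eq_mul,
            ENNReal.ofReal_mul (by positivity), ENNReal.ofReal_natCast]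
      _ ≤ ∑ i, (low i + high i) := Finset.sum_le_sum fun i _ => hsplit i
      _ = ∑ i, low i + ∑ i, high i := Finset.sum_add_distrib
      _ ≤ _ := add_le_add h1 hhigh
      _ = _ := (ENNReal.ofReal_add (by positivity) hB').symm
  exact (ENNReal.ofReal_le_ofReal_iff (by positivity)).1 h2

variable {n N : ℕ} [NeZero N] {H : Subgroup (GN n N)}

theorem Rc_sph {ν : Fin n → ℂ} {f : GR n → XX H → ℂ} (h : IsSph ν f) {φ : GR n → ℝ} (hφ : IsBi φ) (g : GR n)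
    (c : XX H) : Rc φ f g c = (∫ h, psi ν h * (φ h : ℂ) ∂(mu n)) * f g c := h φ hφ g c

theorem sq_sph {ν : Fin n → ℂ} {f : GR n → XX H → ℂ} (h : IsSph ν f) {φ : GR n → ℝ} (hφ : IsBi φ) (g : GR n) :
    sq (Rc φ f) g = ‖∫ h, psi ν h * (φ h : ℂ) ∂(mu n)‖ₑ ^ 2 * sq f g := by
  unfold sq
  rw [← ENNReal.tsum_mul_left]
  refine tsum_congr fun c => ?_
  rw [Rc_sph h hφ, enorm_mul, mul_pow]

/-- every form in the family has a definite mass outside the highest region -/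
theorem mass_split2 (hred : S_red) {χ : GR n → ℝ} (hχ : IsBi χ)
    {F : Set (GR n)} {f : GR n → XX H → ℂ} (hf : IsForm H f)
    (hL : IsL2 F f) (h1 : ip F f f = 1) {ν : Fin n → ℂ} (hν : IsSph ν f)
    (hnear : 1 ≤ ‖∫ h, psi ν h * (χ h : ℂ) ∂(mu n)‖) (hrc : IsForm H (Rc χ f)) {W : ℝ}
    (hcut : ∑' c : XX H, ∫⁻ g in F ∩ {x | ∃ γ : GZ n, io n γ * x ∈ SG n ∧
        ∃ i j : Fin n, (i : ℕ) + 1 = j ∧ W * ixS H * ac (io n γ * x) i < ac (io n γ * x) j},
          ‖Rc χ f g c‖ₑ ^ 2 ∂(mu n) ≤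
        ENNReal.ofReal (1 / 4) * ∑' c : XX H, ∫⁻ g in F, ‖f g c‖ₑ ^ 2 ∂(mu n)) (Y : ℝ) :
    ENNReal.ofReal (3 / 4) ≤ ∫⁻ g in F ∩ sat (SL n Y), sq f g ∂(mu n) +
      ∫⁻ g in F ∩ sat (SH n Y (W * ixS H)), sq (Rc χ f) g ∂(mu n) := by
  have hle : ∀ g, sq f g ≤ sq (Rc χ f) g := by
    intro g
    rw [sq_sph hν hχ]
    have : (1 : ℝ≥0∞) ≤ ‖∫ h, psi ν h * (χ h : ℂ) ∂(mu n)‖ₑ ^ 2 := by
      refine one_le_pow₀ ?_
      rw [← ofReal_norm, ← ENNReal.ofReal_one]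
      exact ENNReal.ofReal_le_ofReal hnear
    calc sq f g = 1 * sq f g := (one_mul _).symm
      _ ≤ _ := by gcongr
  have hmass := norm_of_ip hf hL h1
  rw [sq_int hrc, sq_int hf, norm_of_ip hf hL h1, mul_one] at hcut
  set B : Set (GR n) := {x | ∃ γ : GZ n, io n γ * x ∈ SG n ∧
        ∃ i j : Fin n, (i : ℕ) + 1 = j ∧ W * ixS H * ac (io n γ * x) i < ac (io n γ * x) j} with hB
  have hsub : F ⊆ ((F ∩ sat (SL n Y)) ∪ (F ∩ sat (SH n Y (W * ixS H)))) ∪ (F ∩ B) := by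
    intro x hx
    obtain ⟨γ, hγ⟩ := hred n x
    by_cases h2 : ∀ i j : Fin n, (i : ℕ) + 1 = j → ac (io n γ * x) j ≤ Y * ac (io n γ * x) i
    · exact Or.inl (Or.inl ⟨hx, γ, hγ, h2⟩)
    · by_cases h3 : ∀ i j : Fin n, (i : ℕ) + 1 = j → ac (io n γ * x) j ≤ W * ixS H * ac (io n γ * x) i
      · refine Or.inl (Or.inr ⟨hx, γ, ⟨hγ, h3⟩, ?_⟩)
        push Not at h2
        obtain ⟨i, j, hij, h4⟩ := h2
        exact ⟨i, j, hij, h4.le⟩
      · push Not at h3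
        obtain ⟨i, j, hij, h4⟩ := h3
        exact Or.inr ⟨hx, γ, hγ, i, j, hij, h4⟩
  have h5 : 1 ≤ (∫⁻ g in F ∩ sat (SL n Y), sq f g ∂(mu n) +
      ∫⁻ g in F ∩ sat (SH n Y (W * ixS H)), sq (Rc χ f) g ∂(mu n)) + ENNReal.ofReal (1 / 4) := by
    rw [← hmass]
    refine (lintegral_mono_set hsub).trans ((lintegral_union_le _ _ _).trans ?_)
    refine add_le_add ((lintegral_union_le _ _ _).trans ?_) ((lintegral_mono hle).trans hcut)
    exact add_le_add le_rfl (lintegral_mono hle)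
  have h6 : (1 : ℝ≥0∞) = ENNReal.ofReal (3 / 4) + ENNReal.ofReal (1 / 4) := by
    rw [← ENNReal.ofReal_add (by norm_num) (by norm_num), ← ENNReal.ofReal_one]
    norm_num
  rw [h6] at h5
  exact (ENNReal.add_le_add_iff_right ENNReal.ofReal_ne_top).1 h5

/-- the bound in the low region, from a test function -/
theorem low_bound2 (hcov : S_cov) (hrcf : S_rcf) (hiw : S_iw) {κ : GR n → ℝ} (hκ : IsBi κ)
    {F : Set (GR n)} (hF : IsFD F) {k : ℕ} {f : Fin k → GR n → XX H → ℂ} (hf : ∀ i, IsForm H (f i))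
    (hL : ∀ i, IsL2 F (f i)) {ν : Fin k → Fin n → ℂ} (hν : ∀ i, IsSph (ν i) (f i)) {M C : ℝ}
    (htr : ∀ (g : GR n) (c : XX H), (cs H {1} 1 M g c).Finite ∧
      ∑ i, ‖Rc κ (f i) g c‖ₑ ^ 2 ≤ ENNReal.ofReal (C * Nat.card (cs H {1} 1 M g c)))
    (hC : 0 ≤ C) (I : Finset (Fin k)) (Y : ℝ) (φ Q V : ℝ) (hφ0 : 0 ≤ φ)
    (hφ : ∀ x ∈ SL n Y, (∑' c : XX H, (Nat.card (cs H {1} 1 M x c) : ℝ)) ≤ φ) (hQ : 0 < Q)
    (hQa : ∀ i ∈ I, Q ≤ ‖∫ h, psi (ν i) h * (κ h : ℂ) ∂(mu n)‖ ^ 2)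
    (hV : mu n (SL n Y) ≤ ENNReal.ofReal V) :
    ∑ i ∈ I, ∫⁻ g in F ∩ sat (SL n Y), sq (f i) g ∂(mu n) ≤ ENNReal.ofReal (C * φ * V / Q) := by
  have h1 := region_bound hcov hrcf hκ.continuous hκ.compact hF hf hL (M := M) (C := C) one_pos (isReps_one n)
    (fun g c => ⟨(htr g c).1, by
      simp only [Finset.sum_singleton, scl_one, rdM_one, one_mul, one_smul]
      exact (htr g c).2⟩) hC I (fun _ => 1)
    (fun i _ g c => by rw [Finset.sum_singleton, scl_one, rdM_one, one_mul, one_smul, one_mul])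
    (measurable_SL hiw n Y) (fun _ => φ) hφ
  simp only [enorm_one, one_pow, one_mul] at h1
  have h2 : ENNReal.ofReal Q * ∑ i ∈ I, ∫⁻ g in F ∩ sat (SL n Y), sq (f i) g ∂(mu n) ≤
      ENNReal.ofReal (C * φ * V) := by
    rw [Finset.mul_sum]
    calc _ ≤ ∑ i ∈ I, ∫⁻ g in F ∩ sat (SL n Y), sq (Rc κ (f i)) g ∂(mu n) := by
          refine Finset.sum_le_sum fun i hi => ?_
          rw [← lintegral_const_mul _ (measurable_sq (hf i))]
          refine lintegral_mono fun g => ?_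
          rw [sq_sph (hν i) hκ]
          gcongr
          rw [← ofReal_norm, ← ENNReal.ofReal_pow (norm_nonneg _)]
          exact ENNReal.ofReal_le_ofReal (hQa i hi)
      _ ≤ _ := h1
      _ = ENNReal.ofReal (C * φ) * mu n (SL n Y) := by simp
      _ ≤ ENNReal.ofReal (C * φ) * ENNReal.ofReal V := by gcongr
      _ = ENNReal.ofReal (C * φ * V) := (ENNReal.ofReal_mul (by positivity)).symm
  rw [ENNReal.ofReal_div_of_pos hQ, ENNReal.le_div_iff_mul_le (Or.inl (by positivity)) (Or.inl ENNReal.ofReal_ne_top),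
    mul_comm]
  exact h2

end Pool.Agent.T2h77.N
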