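import Pool.Agent.T2h77N.AsmI

/-!
# Density theorem for `GL_n` over `ℚ` at the infinite place: the theorem
-/

set_option autoImplicit false

open MeasureTheory Matrix
open scoped MatrixGroups ENNReal Topology

noncomputable section

namespace Pool.Agent.T2h77.N

theorem hsn_entry {n : ℕ} (g : GR n) (i j : Fin n) : |g i j| ≤ hsn g := by
  unfold hsn
  rw [← Real.sqrt_sq_eq_abs]
  refine Real.sqrt_le_sqrt ?_
  calc g i j ^ 2 ≤ ∑ j, g i j ^ 2 := Finset.single_le_sum (f := fun j => g i j ^ 2) (fun _ _ => sq_nonneg _) (Finset.mem_univ j)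
    _ ≤ ∑ i, ∑ j, g i j ^ 2 := Finset.single_le_sum (f := fun i => ∑ j, g i j ^ 2)
        (fun _ _ => Finset.sum_nonneg fun _ _ => sq_nonneg _) (Finset.mem_univ i)

/-- the entries of quotients -/
theorem entry_bound (n : ℕ) : ∃ C : ℝ, 1 ≤ C ∧ ∀ (R : ℝ) (y y' : GR n), 1 ≤ R → hsn y ≤ R → hsn y' ≤ R →
    ∀ i j, |(y * y'⁻¹) i j| ≤ C * R ^ n := by
  refine ⟨(n : ℝ) * (n.factorial : ℝ) + 1, by
    have : (0 : ℝ) ≤ (n : ℝ) * (n.factorial : ℝ) := by positivity
    linarith, fun R y y' hR hy hy' i j => ?_⟩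
  have h1 : ∀ a b, |(y'⁻¹ : GR n) a b| ≤ (n.factorial : ℝ) * R ^ (n - 1) := by
    intro a b
    obtain ⟨n', rfl⟩ : ∃ n', n = n' + 1 := ⟨n - 1, by have := a.pos; omega⟩
    have e : (y'⁻¹ : GR (n' + 1)) a b = (y'.1).adjugate a b := rfl
    rw [e, Matrix.adjugate_fin_succ_eq_det_submatrix, abs_mul]
    have h2 : |(-1 : ℝ) ^ ((b : ℕ) + (a : ℕ))| = 1 := by
      rw [abs_pow, abs_neg, abs_one, one_pow]
    have h3 : |((y'.1).submatrix b.succAbove a.succAbove).det| ≤ (n'.factorial : ℝ) * R ^ n' := by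
      have h4 := Matrix.det_le (abv := (AbsoluteValue.abs : AbsoluteValue ℝ ℝ))
        (A := (y'.1).submatrix b.succAbove a.succAbove) (x := R) (fun k l => (hsn_entry y' _ _).trans hy')
      simpa [nsmul_eq_mul, Fintype.card_fin] using h4
    calc _ = |((y'.1).submatrix b.succAbove a.succAbove).det| := by
          rw [h2, one_mul]
      _ ≤ (n'.factorial : ℝ) * R ^ n' := h3
      _ ≤ ((n' + 1).factorial : ℝ) * R ^ (n' + 1 - 1) := by
          rw [Nat.add_sub_cancel]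
          gcongr
          omega
  have e : (y * y'⁻¹ : GR n) i j = ∑ l, y i l * (y'⁻¹ : GR n) l j := rfl
  rw [e]
  calc |∑ l, y i l * (y'⁻¹ : GR n) l j| ≤ ∑ l, |y i l * (y'⁻¹ : GR n) l j| := Finset.abs_sum_le_sum_abs _ _
    _ ≤ ∑ _l : Fin n, R * ((n.factorial : ℝ) * R ^ (n - 1)) := by
        refine Finset.sum_le_sum fun l _ => ?_
        rw [abs_mul]
        exact mul_le_mul ((hsn_entry y i l).trans hy) (h1 l j) (abs_nonneg _) (by linarith)
    _ = (n : ℝ) * (n.factorial : ℝ) * (R * R ^ (n - 1)) := by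
        rw [Finset.sum_const, Finset.card_univ, Fintype.card_fin, nsmul_eq_mul]
        ring
    _ = (n : ℝ) * (n.factorial : ℝ) * R ^ n := by
        have : 0 < n := i.pos
        rw [← pow_succ', Nat.sub_add_cancel this]
    _ ≤ _ := by
        have : 0 < R ^ n := by positivity
        nlinarith

theorem hsn_continuous (n : ℕ) : Continuous (hsn : GR n → ℝ) := by
  unfold hsn
  have hc : Continuous fun g : GR n => g.1 := Matrix.SpecialLinearGroup.isClosedEmbedding_val.continuous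
  refine Real.continuous_sqrt.comp (continuous_finsetSum _ fun i _ => continuous_finsetSum _ fun j _ => ?_)
  exact ((continuous_apply j).comp ((continuous_apply i).comp hc)).pow 2

/-- a bound for the Hilbert-Schmidt norm on the support -/
theorem exists_R {n : ℕ} {χ : GR n → ℝ} (hχ : HasCompactSupport χ) :
    ∃ R : ℝ, 1 ≤ R ∧ ∀ g, χ g ≠ 0 → hsn g ≤ R := by
  obtain ⟨R, hR⟩ := hχ.isCompact.bddAbove_image (hsn_continuous n).continuousOn
  refine ⟨max R 1, le_max_right _ _, fun g hg => le_max_of_le_left (hR ⟨g, ?_, rfl⟩)⟩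
  exact subset_closure hg

/-- the smallest real part -/
theorem exists_min_re {n : ℕ} {ν : Fin n → ℂ} {τ : ℝ} (hτ : 0 < τ) (hν : ∑ j, ν j = 0) (h : ∃ j, τ ≤ |(ν j).re|) :
    ∃ i₀, (∀ i, (ν i₀).re ≤ (ν i).re) ∧ τ / n ≤ -(ν i₀).re := by
  obtain ⟨j, hj⟩ := h
  have : Nonempty (Fin n) := ⟨j⟩
  obtain ⟨i₀, hi₀⟩ := Finite.exists_min fun i => (ν i).re
  refine ⟨i₀, hi₀, ?_⟩
  have hn : (1 : ℝ) ≤ n := by exact_mod_cast (Fin.pos j)
  have hsum : ∑ i, (ν i).re = 0 := by
    rw [← Complex.re_sum, hν, Complex.zero_re]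
  have hneg : (ν i₀).re ≤ 0 := by
    by_contra hcon
    have h1 : 0 < ∑ i, (ν i).re := Finset.sum_pos (fun i _ => (not_le.1 hcon).trans_le (hi₀ i)) Finset.univ_nonempty
    rw [hsum] at h1
    exact lt_irrefl _ h1
  rw [div_le_iff₀ (by linarith)]
  rcases le_abs.1 hj with h1 | h1
  · have h2 : ∑ i, ((ν i).re - (ν i₀).re) = -(n * (ν i₀).re) := by
      rw [Finset.sum_sub_distrib, hsum, Finset.sum_const, Finset.card_univ, Fintype.card_fin, nsmul_eq_mul]
      ring
    have h3 : (ν j).re - (ν i₀).re ≤ ∑ i, ((ν i).re - (ν i₀).re) :=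
      Finset.single_le_sum (f := fun i => (ν i).re - (ν i₀).re) (fun i _ => sub_nonneg.2 (hi₀ i)) (Finset.mem_univ j)
    rw [h2] at h3
    nlinarith
  · have := hi₀ j
    nlinarith

set_option maxHeartbeats 1600000 in
theorem finalInf (hiw : S_iw) (hred : S_red) (hint : S_int) (hent : S_ent) (hhigh : S_high) (hlow : S_low2)
    (htrace : S_trace) (htrace2 : S_trace2) (hcut : S_cut) (hcov : S_cov) (hrcf : S_rcf) (hker : S_ker)
    (hnear : S_near) : S_finalInf := by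
  classical
  intro n hn
  obtain ⟨A₁, C₁, hA₁, hC₁, hlow⟩ := hlow n hn
  obtain ⟨A₂, hA₂, hhigh⟩ := hhigh n hn
  obtain ⟨B, hB, hker⟩ := hker n (by omega)
  obtain ⟨Cn, hCn, hent2⟩ := entry_bound n
  set A : ℝ := max A₁ A₂ with hA
  have hA1 : 1 ≤ A := hA₁.trans (le_max_left _ _)
  set η : ℝ := 1 / (2 * A ^ 2) with hη
  have hη0 : 0 < η := by positivity
  have hη1 : η ≤ 1 := by
    rw [hη, div_le_one (by positivity)]
    nlinarith
  have hn0 : (0 : ℝ) < n := by exact_mod_cast (by omega : 0 < n)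
  have hn1 : (1 : ℝ) ≤ n := by exact_mod_cast (by omega : 1 ≤ n)
  set ξ : ℝ := η / (B * n) with hξ
  have hξ0 : 0 < ξ := by positivity
  set η' : ℝ := ξ / n with hη'
  have hη'0 : 0 < η' := by positivity
  have hξη : ξ ≤ η := by
    rw [hξ]
    exact div_le_self hη0.le (by nlinarith)
  have hηη : η' ≤ η := (div_le_self hξ0.le hn1).trans hξη
  refine ⟨η' / 2, by positivity, fun τ T hτ hτ1 => ?_⟩
  obtain ⟨χ, hχ, hnear⟩ := hnear n T
  obtain ⟨M, Ct, hCt, htr⟩ := htrace n χ hχ.continuous hχ.compact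
  obtain ⟨Ch, hCh, hhigh⟩ := hhigh M
  obtain ⟨W, hW, hcut⟩ := hcut n χ (1 / 4) hχ.continuous hχ.compact (by norm_num)
  obtain ⟨Ci, hCi, hi⟩ := hint n
  obtain ⟨Cv, hCv, hv⟩ := vol_SL hiw hent hint n
  obtain ⟨c₀, Ck, X₀, hc₀, hCk, hX₀, hker⟩ := hker T
  obtain ⟨Rχ, hRχ, hRχs⟩ := exists_R hχ.compact
  set Mχ : ℝ := Cn * Rχ ^ n with hMχ
  have hMχ1 : 1 ≤ Mχ := one_le_mul_of_one_le_of_one_le hCn (one_le_pow₀ hRχ)
  set Iχ : ℝ := ∫ y, χ y ^ 2 ∂(mu n) with hIχ
  have hIχ0 : 0 ≤ Iχ := integral_nonneg fun y => sq_nonneg _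
  set K : ℝ := Cn * Ck ^ n with hK
  have hK1 : 1 ≤ K := one_le_mul_of_one_le_of_one_le hCn (one_le_pow₀ hCk)
  set D₀ : ℝ := X₀ ^ (1 / ξ) with hD₀
  have hD₀1 : 1 ≤ D₀ := Real.one_le_rpow hX₀ (by positivity)
  set K₁ : ℝ := n * (Ck * (2 + C₁ * (K * Ch) ^ A₁) * Cv / c₀ ^ 2) with hK₁
  set K₁' : ℝ := n * (Iχ * (2 + C₁ * (Mχ * Ch) ^ A₁) * Cv) with hK₁'
  set K₂ : ℝ := Ct * (Ch * 2) * Ci with hK₂
  have hK₁0 : 0 ≤ K₁ := by positivity
  have hK₁0' : 0 ≤ K₁' := by positivity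
  have hK₂0 : 0 ≤ K₂ := by positivity
  obtain ⟨C₀, hC₀, hnum⟩ := numeric2 n η η' τ K₁ K₂ Ch W hη'0 hηη hη1 hτ hτ1 hK₁0 hK₂0 hCh hW
  set L₀ : ℝ := K₁' * (1 + Real.log (Ch * D₀ ^ η)) ^ n * D₀ ^ (η' / 2 * τ) with hL₀
  have hChD₀ : 1 ≤ Ch * D₀ ^ η := one_le_mul_of_one_le_of_one_le hCh (Real.one_le_rpow hD₀1 hη0.le)
  have hL₀0 : 0 ≤ L₀ := by
    have := Real.log_nonneg hChD₀
    positivity
  refine ⟨4 / 3 * (C₀ + L₀), by positivity, fun N _ H F hF k f ν hf horth hex => ?_⟩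
  set D : ℝ := (ixS H : ℝ) with hD
  have hD1 : 1 ≤ D := by
    rw [hD]
    exact_mod_cast ixS_pos H
  have hD0 : 0 < D := by linarith
  have hDη : 1 ≤ D ^ η := Real.one_le_rpow hD1 hη0.le
  have hlogD : 0 ≤ Real.log D := Real.log_nonneg hD1
  set m : ℝ := (H.index : ℝ) with hm
  have hm0 : 0 ≤ m := Nat.cast_nonneg _
  set Y : ℝ := Ch * D ^ η with hY
  have hY1 : 1 ≤ Y := one_le_mul_of_one_le_of_one_le hCh hDη
  have hlogY : 0 ≤ Real.log Y := Real.log_nonneg hY1
  have hWD : 1 ≤ W * D := one_le_mul_of_one_le_of_one_le hW hD1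
  have hlogW : 0 ≤ Real.log (W * D) := Real.log_nonneg hWD
  -- the masses
  set low : Fin k → ℝ≥0∞ := fun i => ∫⁻ g in F ∩ sat (SL n Y), sq (f i) g ∂(mu n) with hlowdef
  set high : Fin k → ℝ≥0∞ := fun i => ∫⁻ g in F ∩ sat (SH n Y (W * ixS H)), sq (Rc χ (f i)) g ∂(mu n) with hhighdef
  have hsplit : ∀ i, ENNReal.ofReal (3 / 4) ≤ low i + high i := fun i =>
    mass_split2 hred hχ (hf i).1 (hf i).2.1 (by rw [horth, if_pos rfl]) (hf i).2.2.2
      (hnear (ν i) (hex i).1 (hex i).2.1)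
      (hrcf n χ hχ.continuous hχ.compact N H F hF (f i) (hf i).1 (hf i).2.1).1
      (hcut N H F hF (f i) (hf i).1 (hf i).2.1 (hf i).2.2.1) Y
  set B' : ℝ := m * (K₂ * D ^ (-η) * (1 + Real.log (W * D)) ^ n) with hB'
  have hB0' : 0 ≤ B' := by positivity
  -- the high region
  have hhighB : ∑ i, high i ≤ ENNReal.ofReal B' := by
    have h1 := high_bound hcov hrcf hiw hχ.continuous hχ.compact hF (fun i => (hf i).1) (fun i => (hf i).2.1)
      (M := M) (C := Ct)
      (fun g c => htr N H F hF k f (fun i => (hf i).1) (fun i => (hf i).2.1) horth 1 {1} one_pos (by simp)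
        (isReps_one n) g c) hCt.le Y (W * D) (Ch * m * (2 * D ^ (-η))) (Ci * (1 + Real.log (W * D)) ^ n)
      (by positivity) ?_ (hi (W * D) hWD)
    · refine h1.trans (ENNReal.ofReal_le_ofReal (le_of_eq ?_))
      rw [hB', hK₂]
      ring
    · intro x hx
      obtain ⟨⟨hxS, -⟩, hx2⟩ := hx
      have h2 := hhigh N H (D ^ η) x hDη hxS hx2
      refine h2.trans ?_
      have h3 := pow_high hA₂ (le_max_right _ _ : A₂ ≤ A) hη hD1
      have h4 : 0 ≤ wt (ac x) := by
        unfold wt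
        refine Finset.prod_nonneg fun i _ => Finset.prod_nonneg fun j _ => ?_
        split_ifs
        · exact div_nonneg (norm_nonneg _) (norm_nonneg _)
        · exact zero_le_one
      calc Ch * m * wt (ac x) * ((D ^ η)⁻¹ + (D ^ η) ^ A₂ * D ^ (-(1 / A₂)))
          ≤ Ch * m * wt (ac x) * (2 * D ^ (-η)) := by gcongr
        _ = Ch * m * (2 * D ^ (-η)) * wt (ac x) := by ring
  -- the count in the low region
  have hcount : ∀ (G P : ℝ), 1 ≤ G → 1 ≤ P → P ≤ D ^ η → ∀ x ∈ SL n Y,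
      (∑' c : XX H, (Nat.card (cs H {1} 1 (G * P) x c) : ℝ)) ≤ m * (2 + C₁ * (G * Ch) ^ A₁) := by
    intro G P hG hP hPD x hx
    have h2 := hlow N H (G * P) Y x (one_le_mul_of_one_le_of_one_le hG hP) hY1 hx.1 hx.2
    refine h2.trans ?_
    have h3 := pow_low (Ch := G * Ch) hA₁ (le_max_left _ _ : A₁ ≤ A) hη (one_le_mul_of_one_le_of_one_le hG hCh) hD1
      (by linarith : (0:ℝ) ≤ P) hPD
    have e : G * P * Y = P * (G * Ch * D ^ η) := by rw [hY]; ring
    rw [e]
    refine mul_le_mul_of_nonneg_left ?_ hm0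
    have h4 : C₁ * (P * (G * Ch * D ^ η)) ^ A₁ * D ^ (-(1 / A₁)) ≤ C₁ * (G * Ch) ^ A₁ := by
      rw [mul_assoc]
      exact mul_le_mul_of_nonneg_left h3 (by linarith)
    linarith
  have hV : mu n (SL n Y) ≤ ENNReal.ofReal (Cv * (1 + Real.log Y) ^ n) := hv Y hY1
  have hind : ∀ i, IsSph (ν i) (f i) := fun i => (hf i).2.2.2
  have hmain : (k : ℝ) * (3 / 4) ≤ m * ((C₀ + L₀) * D ^ (-(η' / 2 * τ))) := by
    rcases le_or_gt X₀ (D ^ ξ) with hcase | hcase
    · -- large `D`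
      obtain ⟨κ, hκ, hκs, hκ2, hκl⟩ := hker (D ^ ξ) hcase
      have hmin := fun i => exists_min_re hτ (hex i).1 (hex i).2.2
      choose i₀ hi₀ hi₀' using hmin
      have hq := fun i => hκl (ν i) (hex i).1 (hex i).2.1 (i₀ i) (hi₀ i)
      choose q hq using hq
      set Q : ℝ := c₀ ^ 2 * D ^ (τ * η') with hQ
      have hQ0 : 0 < Q := by positivity
      have hQle : ∀ i, Q ≤ ‖∫ h, psi (ν i) h * (κ (q i) h : ℂ) ∂(mu n)‖ ^ 2 := by
        intro i
        have h1 := hq i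
        have h2 : c₀ * D ^ (τ * η') ≤ c₀ * (D ^ ξ) ^ (-(ν i (i₀ i)).re) := by
          rw [← Real.rpow_mul hD0.le]
          refine mul_le_mul_of_nonneg_left (Real.rpow_le_rpow_of_exponent_le hD1 ?_) hc₀.le
          have h3 := mul_le_mul_of_nonneg_left (hi₀' i) hξ0.le
          calc τ * η' = ξ * (τ / n) := by rw [hη']; ring
            _ ≤ _ := h3
        have h4 : c₀ * D ^ (τ * η') ≤ ‖∫ h, psi (ν i) h * (κ (q i) h : ℂ) ∂(mu n)‖ := h2.trans h1
        have h5 : 1 ≤ D ^ (τ * η') := Real.one_le_rpow hD1 (by positivity)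
        calc Q ≤ (c₀ * D ^ (τ * η')) ^ 2 := by
              rw [hQ, mul_pow]
              refine mul_le_mul_of_nonneg_left ?_ (by positivity)
              nlinarith
          _ ≤ _ := pow_le_pow_left₀ (by positivity) h4 2
      set φ : ℝ := m * (2 + C₁ * (K * Ch) ^ A₁) with hφ
      have hφ0 : 0 ≤ φ := by positivity
      set Bl : ℝ := Ck * φ * (Cv * (1 + Real.log Y) ^ n) / Q with hBl
      have hBl0 : 0 ≤ Bl := by positivity
      have hlowB : ∀ s : Fin n, ∑ i ∈ Finset.univ.filter (fun i => q i = s), low i ≤ ENNReal.ofReal Bl := by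
        intro s
        have hP : (D ^ ξ) ^ (B * n) = D ^ η := by
          rw [← Real.rpow_mul hD0.le]
          congr 1
          rw [hξ]
          field_simp
        have hX1 : 1 ≤ D ^ ξ := Real.one_le_rpow hD1 hξ0.le
        have hMK : ∀ y y' : GR n, κ s y ≠ 0 → κ s y' ≠ 0 → ∀ i j, |(y * y'⁻¹) i j| ≤ K * D ^ η := by
          intro y y' hy hy' i j
          have h1 : 1 ≤ Ck * (D ^ ξ) ^ B := one_le_mul_of_one_le_of_one_le hCk (Real.one_le_rpow hX1 (by linarith))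
          refine (hent2 _ y y' h1 (hκs s y hy) (hκs s y' hy') i j).trans (le_of_eq ?_)
          rw [mul_pow, ← Real.rpow_natCast ((D ^ ξ) ^ B) n, ← Real.rpow_mul (by positivity), hP, hK]
          ring
        have htr2 := fun g c => htrace2 n (κ s) (hκ s).continuous (hκ s).compact (K * D ^ η) hMK N H F hF k f
          (fun i => (hf i).1) (fun i => (hf i).2.1) horth g c
        have h1 := low_bound2 hcov hrcf hiw (hκ s) hF (fun i => (hf i).1) (fun i => (hf i).2.1) hind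
          (M := K * D ^ η) (C := Ck) (fun g c => ⟨(htr2 g c).1, (htr2 g c).2.trans (ENNReal.ofReal_le_ofReal (by
            have := hκ2 s
            gcongr))⟩) (by linarith) (Finset.univ.filter (fun i => q i = s)) Y φ Q (Cv * (1 + Real.log Y) ^ n) hφ0
          (fun x hx => hcount K (D ^ η) hK1 hDη le_rfl x hx) hQ0 (fun i hi => by
            rw [Finset.mem_filter] at hi
            have := hQle i
            rw [hi.2] at this
            exact this) hV
        exact h1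
      have hfin := sum_classes2 low high hsplit q Bl B' hBl0 hB0' hlowB hhighB
      have e1 : n * Bl = m * (K₁ * (1 + Real.log (Ch * D ^ η)) ^ n * D ^ (-(τ * η'))) := by
        rw [hBl, hφ, hQ, hK₁, Real.rpow_neg hD0.le, hY]
        field_simp
      calc (k : ℝ) * (3 / 4) ≤ n * Bl + B' := hfin
        _ = m * (K₁ * (1 + Real.log (Ch * D ^ η)) ^ n * D ^ (-(τ * η')) +
            K₂ * D ^ (-η) * (1 + Real.log (W * D)) ^ n) := by rw [e1, hB']; ring
        _ ≤ m * (C₀ * D ^ (-(η' / 2 * τ))) := mul_le_mul_of_nonneg_left (hnum D hD1) hm0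
        _ ≤ m * ((C₀ + L₀) * D ^ (-(η' / 2 * τ))) := by
            have : 0 ≤ D ^ (-(η' / 2 * τ)) := by positivity
            refine mul_le_mul_of_nonneg_left (mul_le_mul_of_nonneg_right (by linarith) this) hm0
    · -- small `D`
      have hDD₀ : D ≤ D₀ := by
        have h1 : D = (D ^ ξ) ^ (1 / ξ) := by
          rw [← Real.rpow_mul hD0.le, mul_one_div_cancel hξ0.ne', Real.rpow_one]
        rw [h1, hD₀]
        exact Real.rpow_le_rpow (by positivity) hcase.le (by positivity)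
      set φ : ℝ := m * (2 + C₁ * (Mχ * Ch) ^ A₁) with hφ
      have hφ0 : 0 ≤ φ := by positivity
      set Bl : ℝ := Iχ * φ * (Cv * (1 + Real.log Y) ^ n) / 1 with hBl
      have hBl0 : 0 ≤ Bl := by positivity
      have hlowB : ∀ s : Fin n, ∑ i ∈ Finset.univ.filter (fun i => (⟨0, by omega⟩ : Fin n) = s), low i ≤
          ENNReal.ofReal Bl := by
        intro s
        have hMK : ∀ y y' : GR n, χ y ≠ 0 → χ y' ≠ 0 → ∀ i j, |(y * y'⁻¹) i j| ≤ Mχ * 1 := by
          intro y y' hy hy' i j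
          rw [mul_one]
          exact hent2 _ y y' hRχ (hRχs y hy) (hRχs y' hy') i j
        have htr2 := fun g c => htrace2 n χ hχ.continuous hχ.compact (Mχ * 1) hMK N H F hF k f
          (fun i => (hf i).1) (fun i => (hf i).2.1) horth g c
        exact low_bound2 hcov hrcf hiw hχ hF (fun i => (hf i).1) (fun i => (hf i).2.1) hind
          (M := Mχ * 1) (C := Iχ) htr2 hIχ0 _ Y φ 1 (Cv * (1 + Real.log Y) ^ n) hφ0
          (fun x hx => hcount Mχ 1 hMχ1 le_rfl hDη x hx) one_pos (fun i _ =>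
            one_le_pow₀ (hnear (ν i) (hex i).1 (hex i).2.1)) hV
      have hfin := sum_classes2 low high hsplit (fun _ => (⟨0, by omega⟩ : Fin n)) Bl B' hBl0 hB0' hlowB hhighB
      have e1 : n * Bl = m * (K₁' * (1 + Real.log (Ch * D ^ η)) ^ n) := by
        rw [hBl, hφ, hK₁', hY]
        ring
      have e2 : K₁' * (1 + Real.log (Ch * D ^ η)) ^ n ≤ L₀ * D ^ (-(η' / 2 * τ)) := by
        have h1 : Real.log (Ch * D ^ η) ≤ Real.log (Ch * D₀ ^ η) :=
          Real.log_le_log (by positivity) (by gcongr)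
        have h2 : 1 ≤ D₀ ^ (η' / 2 * τ) * D ^ (-(η' / 2 * τ)) := by
          rw [Real.rpow_neg hD0.le, ← div_eq_mul_inv, one_le_div (by positivity)]
          exact Real.rpow_le_rpow hD0.le hDD₀ (by positivity)
        calc K₁' * (1 + Real.log (Ch * D ^ η)) ^ n ≤ K₁' * (1 + Real.log (Ch * D₀ ^ η)) ^ n := by
              have : 0 ≤ Real.log (Ch * D ^ η) := hlogY
              gcongr
          _ = K₁' * (1 + Real.log (Ch * D₀ ^ η)) ^ n * 1 := (mul_one _).symm
          _ ≤ K₁' * (1 + Real.log (Ch * D₀ ^ η)) ^ n * (D₀ ^ (η' / 2 * τ) * D ^ (-(η' / 2 * τ))) := by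
              refine mul_le_mul_of_nonneg_left h2 ?_
              have := Real.log_nonneg hChD₀
              positivity
          _ = L₀ * D ^ (-(η' / 2 * τ)) := by rw [hL₀]; ring
      have e3 := hnum D hD1
      have e4 : 0 ≤ K₁ * (1 + Real.log (Ch * D ^ η)) ^ n * D ^ (-(τ * η')) := by
        have : 0 ≤ Real.log (Ch * D ^ η) := hlogY
        positivity
      calc (k : ℝ) * (3 / 4) ≤ n * Bl + B' := hfin
        _ = m * (K₁' * (1 + Real.log (Ch * D ^ η)) ^ n + K₂ * D ^ (-η) * (1 + Real.log (W * D)) ^ n) := by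
            rw [e1, hB']; ring
        _ ≤ m * ((C₀ + L₀) * D ^ (-(η' / 2 * τ))) := by
            refine mul_le_mul_of_nonneg_left ?_ hm0
            rw [add_mul]
            linarith
  calc (k : ℝ) = 4 / 3 * ((k : ℝ) * (3 / 4)) := by ring
    _ ≤ 4 / 3 * (m * ((C₀ + L₀) * D ^ (-(η' / 2 * τ)))) := by gcongr
    _ = 4 / 3 * (C₀ + L₀) * m * D ^ (-(η' / 2 * τ)) := by ring

end Pool.Agent.T2h77.N
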