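import Pool.Agent.T2h77N.FixB

/-!
# CUT, part A: the integral points of the unipotent radicals
-/

set_option autoImplicit false

open MeasureTheory Matrix
open scoped MatrixGroups ENNReal

noncomputable section

namespace Pool.Agent.T2h77.N.Cut

open FixB

/-! ### powers which fix a point -/

/-- conjugation by an element of `GL_n` on `SL_n` -/
def cj {n N : ℕ} (g : GN n N) : Matrix.SpecialLinearGroup (Fin n) (ZMod N) →*
    Matrix.SpecialLinearGroup (Fin n) (ZMod N) where
  toFun σ := ⟨((g⁻¹ : GN n N) : Matrix (Fin n) (Fin n) (ZMod N)) * σ.1 * (g : Matrix (Fin n) (Fin n) (ZMod N)), by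
    rw [Matrix.det_mul, Matrix.det_mul, σ.2, mul_one, ← Matrix.det_mul, ← Units.val_mul, inv_mul_cancel,
      Units.val_one, Matrix.det_one]⟩
  map_one' := by
    apply Subtype.ext
    show ((g⁻¹ : GN n N) : Matrix (Fin n) (Fin n) (ZMod N)) * 1 * (g : Matrix (Fin n) (Fin n) (ZMod N)) = 1
    rw [mul_one, ← Units.val_mul, inv_mul_cancel, Units.val_one]
  map_mul' σ τ := by
    apply Subtype.ext
    show ((g⁻¹ : GN n N) : Matrix (Fin n) (Fin n) (ZMod N)) * (σ.1 * τ.1) * (g : Matrix (Fin n) (Fin n) (ZMod N)) =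
      ((g⁻¹ : GN n N) : Matrix (Fin n) (Fin n) (ZMod N)) * σ.1 * (g : Matrix (Fin n) (Fin n) (ZMod N)) *
      (((g⁻¹ : GN n N) : Matrix (Fin n) (Fin n) (ZMod N)) * τ.1 * (g : Matrix (Fin n) (Fin n) (ZMod N)))
    have h : (g : Matrix (Fin n) (Fin n) (ZMod N)) * ((g⁻¹ : GN n N) : Matrix (Fin n) (Fin n) (ZMod N)) = 1 := by
      rw [← Units.val_mul, mul_inv_cancel, Units.val_one]
    simp only [mul_assoc]
    rw [← mul_assoc (g : Matrix (Fin n) (Fin n) (ZMod N)) ((g⁻¹ : GN n N) : Matrix (Fin n) (Fin n) (ZMod N)), h,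
      one_mul]

theorem toGL_cj {n N : ℕ} (g : GN n N) (σ : Matrix.SpecialLinearGroup (Fin n) (ZMod N)) :
    Matrix.SpecialLinearGroup.toGL (cj g σ) = g⁻¹ * Matrix.SpecialLinearGroup.toGL σ * g := by
  apply Units.ext
  rfl

theorem cj_surj {n N : ℕ} (g : GN n N) : Function.Surjective (cj g) := by
  intro σ
  refine ⟨cj g⁻¹ σ, ?_⟩
  apply Matrix.SpecialLinearGroup.toGL_injective
  rw [toGL_cj, toGL_cj]
  group

theorem index_stab {n N : ℕ} [NeZero N] (H : Subgroup (GN n N)) (c : XX H) :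
    ((MulAction.stabilizer (GN n N) c).comap (Matrix.SpecialLinearGroup.toGL :
      Matrix.SpecialLinearGroup (Fin n) (ZMod N) →* GN n N)).index = ixS H := by
  obtain ⟨g, rfl⟩ := QuotientGroup.mk_surjective c
  have h1 : (MulAction.stabilizer (GN n N) ((g : GN n N) : XX H)).comap (Matrix.SpecialLinearGroup.toGL :
      Matrix.SpecialLinearGroup (Fin n) (ZMod N) →* GN n N) =
      (H.comap (Matrix.SpecialLinearGroup.toGL : Matrix.SpecialLinearGroup (Fin n) (ZMod N) →* GN n N)).comap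
        (cj g) := by
    ext σ
    rw [Subgroup.mem_comap, Subgroup.mem_comap, Subgroup.mem_comap, toGL_cj, MulAction.mem_stabilizer_iff]
    have h2 : Matrix.SpecialLinearGroup.toGL σ • ((g : GN n N) : XX H) =
        ((Matrix.SpecialLinearGroup.toGL σ * g : GN n N) : XX H) := rfl
    rw [h2, eq_comm, QuotientGroup.eq, mul_assoc]
  rw [h1, Subgroup.index_comap_of_surjective _ (cj_surj g), ixS]

theorem ixS_pos {n N : ℕ} [NeZero N] (H : Subgroup (GN n N)) : 0 < ixS H := by
  have : Finite (Matrix.SpecialLinearGroup (Fin n) (ZMod N)) := inferInstance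
  exact Nat.pos_of_ne_zero Subgroup.index_ne_zero_of_finite

theorem exists_pow {n N : ℕ} [NeZero N] (H : Subgroup (GN n N)) (c : XX H) (g : GZ n) :
    ∃ t : ℕ, 1 ≤ t ∧ t ≤ ixS H ∧ rho n N (g ^ t) • c = c := by
  have h := index_stab H c
  have h0 : ((MulAction.stabilizer (GN n N) c).comap (Matrix.SpecialLinearGroup.toGL :
      Matrix.SpecialLinearGroup (Fin n) (ZMod N) →* GN n N)).index ≠ 0 := by
    rw [h]; exact (ixS_pos H).ne'
  obtain ⟨t, h1, h2, h3⟩ := Subgroup.exists_pow_mem_of_index_ne_zero h0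
    (Matrix.SpecialLinearGroup.map (Int.castRingHom (ZMod N)) g)
  rw [h] at h2
  refine ⟨t, h1, h2, ?_⟩
  rw [← map_pow, Subgroup.mem_comap, MulAction.mem_stabilizer_iff] at h3
  exact h3

/-! ### the unipotent radicals -/

section
variable {A : Type} [CommRing A]

/-- the block below the diagonal -/
def bl {n : ℕ} (k : ℕ) (x : Fin n → Fin n → A) : Matrix (Fin n) (Fin n) A :=
  Matrix.of fun i j => if (j : ℕ) < k ∧ k ≤ (i : ℕ) then x i j else 0

theorem bl_apply {n : ℕ} (k : ℕ) (x : Fin n → Fin n → A) (i j : Fin n) :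
    bl k x i j = if (j : ℕ) < k ∧ k ≤ (i : ℕ) then x i j else 0 := rfl

theorem bl_mul {n : ℕ} (k : ℕ) (x y : Fin n → Fin n → A) : bl k x * bl k y = 0 := by
  ext i j
  rw [Matrix.mul_apply, Matrix.zero_apply]
  refine Finset.sum_eq_zero fun l _ => ?_
  rw [bl_apply, bl_apply]
  by_cases h1 : (l : ℕ) < k
  · have : ¬ ((j : ℕ) < k ∧ k ≤ (l : ℕ)) := by omega
    rw [if_neg this, mul_zero]
  · have : ¬ ((l : ℕ) < k ∧ k ≤ (i : ℕ)) := by omega
    rw [if_neg this, zero_mul]

theorem bl_add {n : ℕ} (k : ℕ) (x y : Fin n → Fin n → A) : bl k (x + y) = bl k x + bl k y := by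
  ext i j
  rw [Matrix.add_apply, bl_apply, bl_apply, bl_apply]
  split_ifs
  · rfl
  · rw [add_zero]

theorem bl_zero {n : ℕ} (k : ℕ) : bl k (0 : Fin n → Fin n → A) = 0 := by
  ext i j
  rw [bl_apply]
  split_ifs <;> rfl

theorem one_add_bl_mul {n : ℕ} (k : ℕ) (x y : Fin n → Fin n → A) :
    (1 + bl k x) * (1 + bl k y) = 1 + bl k (x + y) := by
  rw [add_mul, mul_add, mul_add, bl_mul, bl_add, one_mul, one_mul, mul_one, add_zero]
  abel

theorem det_one_add_bl {n : ℕ} (k : ℕ) (x : Fin n → Fin n → A) : (1 + bl k x).det = 1 := by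
  rw [Matrix.det_of_isLowerTriangular]
  · refine Finset.prod_eq_one fun i _ => ?_
    rw [Matrix.add_apply, Matrix.one_apply_eq, bl_apply, if_neg (by omega), add_zero]
  · intro i j hij
    have h1 : i < j := hij
    have h2 : ¬ ((j : ℕ) < k ∧ k ≤ (i : ℕ)) := fun h => by
      have : (i : ℕ) < (j : ℕ) := h1
      omega
    rw [Matrix.add_apply, Matrix.one_apply_ne h1.ne, bl_apply, if_neg h2, add_zero]

/-- the element `1 + x` of the unipotent radical -/
def ub {n : ℕ} (k : ℕ) (x : Fin n → Fin n → A) : Matrix.SpecialLinearGroup (Fin n) A :=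
  ⟨1 + bl k x, det_one_add_bl k x⟩

theorem ub_coe {n : ℕ} (k : ℕ) (x : Fin n → Fin n → A) :
    (ub k x : Matrix.SpecialLinearGroup (Fin n) A).1 = 1 + bl k x := rfl

theorem ub_mul {n : ℕ} (k : ℕ) (x y : Fin n → Fin n → A) : ub k x * ub k y = ub k (x + y) := by
  apply Subtype.ext
  exact one_add_bl_mul k x y

theorem ub_zero {n : ℕ} (k : ℕ) : ub k (0 : Fin n → Fin n → A) = 1 := by
  apply Subtype.ext
  rw [ub_coe, bl_zero, add_zero]
  rfl

theorem ub_pow {n : ℕ} (k : ℕ) (x : Fin n → Fin n → A) (t : ℕ) : ub k x ^ t = ub k (t • x) := by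
  induction t with
  | zero => rw [pow_zero, zero_smul, ub_zero]
  | succ t ih => rw [pow_succ, ih, ub_mul, succ_nsmul]

theorem ub_neg {n : ℕ} (k : ℕ) (x : Fin n → Fin n → A) : ub k (-x) = (ub k x)⁻¹ := by
  rw [eq_inv_iff_mul_eq_one, ub_mul, neg_add_cancel, ub_zero]

end

theorem uk_eq {n : ℕ} (k : ℕ) (x : Fin n → Fin n → ℝ) : uk k x = ub k x := by
  apply Subtype.ext
  ext i j
  rw [ub_coe, Matrix.add_apply, bl_apply, Matrix.one_apply]
  show (if i = j then 1 else if (j : ℕ) < k ∧ k ≤ (i : ℕ) then x i j else 0 : ℝ) = _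
  by_cases h : i = j
  · subst h
    rw [if_pos rfl, if_pos rfl, if_neg (by omega), add_zero]
  · rw [if_neg h, if_neg h, zero_add]

theorem io_ub {n : ℕ} (k : ℕ) (y : Fin n → Fin n → ℤ) :
    io n (ub k y) = ub k (fun i j => ((y i j : ℤ) : ℝ)) := by
  apply Subtype.ext
  ext i j
  show (((1 + bl k y : MZ n) i j : ℤ) : ℝ) = (1 + bl k (fun i j => ((y i j : ℤ) : ℝ))) i j
  rw [Matrix.add_apply, Matrix.add_apply, bl_apply, bl_apply, Matrix.one_apply, Matrix.one_apply]
  push_cast
  split_ifs <;> simp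

/-- the integral block matrices `y` such that `1 + y` fixes `c` -/
def Fc {n N : ℕ} {H : Subgroup (GN n N)} (k : ℕ) (c : XX H) : AddSubgroup (Fin n → Fin n → ℤ) where
  carrier := {y | rho n N (ub k y) • c = c}
  zero_mem' := by
    show rho n N (ub k 0) • c = c
    rw [ub_zero, map_one, one_smul]
  add_mem' := by
    intro y y' h h'
    show rho n N (ub k (y + y')) • c = c
    rw [← ub_mul, map_mul, mul_smul, h', h]
  neg_mem' := by
    intro y h
    show rho n N (ub k (-y)) • c = c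
    rw [ub_neg, map_inv, inv_smul_eq_iff]
    exact h.symm

/-- every real block matrix is, up to an integral one fixing `c`, of size at most `ixS H` -/
theorem reduce {n N : ℕ} [NeZero N] (H : Subgroup (GN n N)) (k : ℕ) (c : XX H) (x : Fin n → Fin n → ℝ) :
    ∃ (y : Fin n → Fin n → ℤ) (x0 : Fin n → Fin n → ℝ), rho n N (ub k y) • c = c ∧
      (∀ i j, |x0 i j| ≤ ixS H) ∧ uk k x = io n (ub k y) * uk k x0 := by
  have h1 : ∀ a b : Fin n, ∃ t : ℕ, 1 ≤ t ∧ t ≤ ixS H ∧
      (Pi.single a (Pi.single b (t : ℤ)) : Fin n → Fin n → ℤ) ∈ Fc k c := by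
    intro a b
    obtain ⟨t, h2, h3, h4⟩ := exists_pow H c (ub k (Pi.single a (Pi.single b (1 : ℤ))))
    refine ⟨t, h2, h3, ?_⟩
    rw [ub_pow, ← Pi.single_smul, ← Pi.single_smul] at h4
    show rho n N (ub k (Pi.single a (Pi.single b (t : ℤ)))) • c = c
    simpa using h4
  choose t ht1 ht2 ht3 using h1
  set m : Fin n → Fin n → ℤ := fun a b => ⌊x a b / t a b⌋ with hm
  set y : Fin n → Fin n → ℤ := fun a b => m a b * t a b with hy
  have hymem : y ∈ Fc k c := by
    have h5 : y = ∑ a, ∑ b, m a b • (Pi.single a (Pi.single b (t a b : ℤ)) : Fin n → Fin n → ℤ) := by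
      funext i j
      simp only [Finset.sum_apply, Pi.smul_apply, smul_eq_mul]
      rw [Finset.sum_eq_single i, Finset.sum_eq_single j]
      · simp [hy]
      · intro b _ hb
        simp [Ne.symm hb]
      · simp
      · intro a _ ha
        refine Finset.sum_eq_zero fun b _ => ?_
        simp [Ne.symm ha]
      · simp
    rw [h5]
    exact AddSubgroup.sum_mem _ fun a _ => AddSubgroup.sum_mem _ fun b _ =>
      AddSubgroup.zsmul_mem _ (ht3 a b) _
  refine ⟨y, fun a b => x a b - y a b, hymem, ?_, ?_⟩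
  · intro a b
    have h6 : (0 : ℝ) < t a b := by exact_mod_cast ht1 a b
    have h7 : x a b - y a b = t a b * (x a b / t a b - m a b) := by
      rw [hy]
      push_cast
      field_simp
    have h8 : 0 ≤ x a b / t a b - m a b := by
      have := Int.floor_le (x a b / t a b)
      rw [hm]; linarith
    have h9 : x a b / t a b - m a b ≤ 1 := by
      have := Int.lt_floor_add_one (x a b / t a b)
      simp only [hm]; linarith
    have h10 : (t a b : ℝ) ≤ ixS H := by exact_mod_cast ht2 a b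
    show |x a b - (y a b : ℝ)| ≤ _
    rw [h7, abs_of_nonneg (by positivity)]
    calc (t a b : ℝ) * (x a b / t a b - m a b) ≤ t a b * 1 := by gcongr
      _ ≤ ixS H := by linarith
  · rw [uk_eq, uk_eq, io_ub, ub_mul]
    congr 1
    funext i j
    simp

end Pool.Agent.T2h77.N.Cut
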