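import Pool.Agent.T2h77N.CutA

/-!
# CUT, part B: conjugation of the unipotent radical by the points of large height
-/

set_option autoImplicit false

open MeasureTheory Matrix
open scoped MatrixGroups ENNReal

noncomputable section

namespace Pool.Agent.T2h77.N.Cut

/-! ### lower unitriangular matrices with bounded entries -/

/-- the inverse of a lower unitriangular matrix with entries bounded by `1` -/
theorem exists_inv {n : ℕ} (L : Matrix (Fin n) (Fin n) ℝ) (h1 : ∀ i, L i i = 1) (h0 : ∀ i j, i < j → L i j = 0)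
    (hb : ∀ i j, |L i j| ≤ 1) :
    ∃ Li : Matrix (Fin n) (Fin n) ℝ, Li * L = 1 ∧ L * Li = 1 ∧ (∀ i j, i < j → Li i j = 0) ∧
      ∀ i j, |Li i j| ≤ (n.factorial : ℝ) := by
  have htri : L.BlockTriangular OrderDual.toDual := fun i j hij => h0 i j hij
  have hdet : L.det = 1 := by
    rw [Matrix.det_of_isLowerTriangular _ htri]
    exact Finset.prod_eq_one fun i _ => h1 i
  have hunit : IsUnit L.det := by rw [hdet]; exact isUnit_one
  have hinv : Invertible L := Matrix.invertibleOfIsUnitDet L hunit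
  refine ⟨L⁻¹, Matrix.nonsing_inv_mul L hunit, Matrix.mul_nonsing_inv L hunit, ?_, ?_⟩
  · have := Matrix.blockTriangular_inv_of_blockTriangular htri
    intro i j hij
    exact this hij
  · intro i j
    have h2 : L⁻¹ = L.adjugate := by
      rw [Matrix.inv_def, hdet, Ring.inverse_one, one_smul]
    rw [h2, Matrix.adjugate_apply]
    have h3 := Matrix.det_le (A := L.updateRow j (Pi.single i 1)) (abv := AbsoluteValue.abs) (x := (1 : ℝ)) (by
      intro a b
      rw [Matrix.updateRow_apply]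
      show |if a = j then (Pi.single i 1 : Fin n → ℝ) b else L a b| ≤ 1
      split_ifs
      · rw [Pi.single_apply]; split_ifs <;> simp
      · exact hb a b)
    simpa using h3

/-- the entries of an orthogonal matrix -/
theorem orth_le {n : ℕ} (k : Matrix (Fin n) (Fin n) ℝ) (h : k * kᵀ = 1) (i j : Fin n) : |k i j| ≤ 1 := by
  have h1 := congrFun (congrFun h i) i
  rw [Matrix.mul_apply, Matrix.one_apply_eq] at h1
  simp only [Matrix.transpose_apply] at h1
  have h2 : k i j * k i j ≤ ∑ l, k i l * k i l :=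
    Finset.single_le_sum (f := fun l => k i l * k i l) (fun l _ => mul_self_nonneg _) (Finset.mem_univ j)
  rw [h1] at h2
  rw [abs_le]
  constructor <;> nlinarith

/-- products of matrices with bounded entries -/
theorem mul_le {n : ℕ} (A B : Matrix (Fin n) (Fin n) ℝ) (a b : ℝ) (ha : ∀ i j, |A i j| ≤ a)
    (hb : ∀ i j, |B i j| ≤ b) (i j : Fin n) : |(A * B) i j| ≤ n * (a * b) := by
  have hn : 0 ≤ a := (abs_nonneg _).trans (ha i i)
  rw [Matrix.mul_apply]
  calc |∑ l, A i l * B l j| ≤ ∑ l, |A i l * B l j| := Finset.abs_sum_le_sum_abs _ _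
    _ ≤ ∑ l : Fin n, a * b := by
        refine Finset.sum_le_sum fun l _ => ?_
        rw [abs_mul]
        exact mul_le_mul (ha i l) (hb l j) (abs_nonneg _) hn
    _ = n * (a * b) := by simp

theorem ac_chain {n : ℕ} {x : GR n} (hx : x ∈ SG n) :
    ∀ (d : ℕ) (i j : Fin n), (i : ℕ) + d = j → ac x i ≤ 2 ^ d * ac x j := by
  intro d
  induction d with
  | zero =>
    intro i j h
    have : i = j := Fin.ext (by omega)
    rw [this]; simp
  | succ d ih =>
    intro i j h
    have hj : (i : ℕ) + d < n := by have := j.2; omega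
    have h1 := ih i ⟨i + d, hj⟩ rfl
    have h2 := hx.2 ⟨i + d, hj⟩ j (by show (i : ℕ) + d + 1 = j; omega)
    calc ac x i ≤ 2 ^ d * ac x ⟨i + d, hj⟩ := h1
      _ ≤ 2 ^ d * (2 * ac x j) := by gcongr
      _ = 2 ^ (d + 1) * ac x j := by ring

theorem ac_le (hiw : S_iw) {n : ℕ} {x : GR n} (hx : x ∈ SG n) (i j : Fin n) (h : i ≤ j) :
    ac x i ≤ 2 ^ n * ac x j := by
  have h1 := ac_chain hx ((j : ℕ) - i) i j (by have : (i : ℕ) ≤ j := h; omega)
  have h2 : (0 : ℝ) < ac x j := (hiw n).1 x j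
  refine h1.trans ?_
  have : (2 : ℝ) ^ ((j : ℕ) - i) ≤ 2 ^ n := pow_le_pow_right₀ (by norm_num) (by have := j.2; omega)
  gcongr

theorem lc_one {n : ℕ} (x : GR n) (i : Fin n) : (Matrix.of (lc x)) i i = 1 := by
  simp [lc]

theorem lc_zero {n : ℕ} (x : GR n) (i j : Fin n) (h : i < j) : (Matrix.of (lc x)) i j = 0 := by
  simp only [Matrix.of_apply, lc]
  rw [if_neg h.ne, if_neg (not_lt.mpr h.le)]

theorem lc_le {n : ℕ} {x : GR n} (hx : x ∈ SG n) (i j : Fin n) : |(Matrix.of (lc x)) i j| ≤ 1 := by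
  rcases lt_trichotomy i j with h | h | h
  · rw [lc_zero x i j h]; simp
  · subst h; rw [lc_one]; simp
  · have := hx.1 i j h
    rw [Matrix.of_apply, abs_of_nonneg this.1]
    exact this.2.le

theorem conj_small (hiw : S_iw) (n : ℕ) (δ : ℝ) (hδ : 0 < δ) :
    ∃ W : ℝ, 1 ≤ W ∧ ∀ s ∈ SG n, ∀ I : ℝ, 1 ≤ I → ∀ i j : Fin n, (i : ℕ) + 1 = j →
      W * I * ac s i < ac s j → ∀ x0 : Fin n → Fin n → ℝ, (∀ a b, |x0 a b| ≤ I) →
      ∀ a b, |(s⁻¹ * uk j x0 * s).1 a b - (1 : Matrix (Fin n) (Fin n) ℝ) a b| ≤ δ := by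
  set C : ℝ := n * (1 * (n * ((n * (n * (n.factorial * 1) * 1)) * (2 ^ n * 2 ^ n) * 1))) with hC
  have hC0 : 0 ≤ C := by positivity
  refine ⟨max 1 (C / δ), le_max_left _ _, ?_⟩
  intro s hs I hI i j hij hlt x0 hx0 a b
  set W := max 1 (C / δ) with hW
  have hW1 : 1 ≤ W := le_max_left _ _
  have hWC : C ≤ W * δ := by
    have : C / δ ≤ W := le_max_right _ _
    rwa [div_le_iff₀ hδ] at this
  obtain ⟨k, hk, hs1⟩ := (hiw n).2.1 s
  have hpos : ∀ i, 0 < ac s i := (hiw n).1 s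
  set L := Matrix.of (lc s) with hL
  obtain ⟨Li, hLi1, hLi2, hLi3, hLi4⟩ := exists_inv L (lc_one s) (lc_zero s) (lc_le hs)
  have hk' : kᵀ * k = 1 := _root_.mul_eq_one_comm.mp hk
  set D := Matrix.diagonal (ac s) with hD
  set Di := Matrix.diagonal (fun i => (ac s i)⁻¹) with hDi
  have hDD : Di * D = 1 := by
    rw [hDi, hD, Matrix.diagonal_mul_diagonal]
    have : (fun i => (ac s i)⁻¹ * ac s i) = fun _ => (1 : ℝ) := by
      funext i; exact inv_mul_cancel₀ (hpos i).ne'
    rw [this, Matrix.diagonal_one]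
  have hinv1 : (kᵀ * Di * Li) * s.1 = 1 := by
    rw [hs1]
    calc kᵀ * Di * Li * (L * D * k) = kᵀ * Di * (Li * L) * D * k := by simp only [mul_assoc]
      _ = kᵀ * (Di * D) * k := by rw [hLi1, mul_one]; simp only [mul_assoc]
      _ = 1 := by rw [hDD, mul_one, hk']
  have hinv2 : s.1 * (s⁻¹ : GR n).1 = 1 := by
    have : (s * s⁻¹ : GR n).1 = (1 : GR n).1 := by rw [mul_inv_cancel]
    exact this
  have hinv3 : (s⁻¹ : GR n).1 = kᵀ * Di * Li := by
    calc (s⁻¹ : GR n).1 = 1 * (s⁻¹ : GR n).1 := by rw [one_mul]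
      _ = (kᵀ * Di * Li) * (s.1 * (s⁻¹ : GR n).1) := by rw [← hinv1]; simp only [mul_assoc]
      _ = kᵀ * Di * Li := by rw [hinv2, mul_one]
  set X := bl (j : ℕ) x0 with hX
  set Y := Li * X * L with hY
  have e1 : (s⁻¹ * uk j x0 * s).1 - 1 = kᵀ * ((Di * Y * D) * k) := by
    have e2 : (s⁻¹ * uk j x0 * s).1 = (s⁻¹ : GR n).1 * (1 + X) * s.1 := by
      rw [uk_eq]; rfl
    rw [e2, mul_add, add_mul, mul_one, hinv3, hinv1, add_sub_cancel_left, hs1, hY]
    simp only [mul_assoc]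
  have hXle : ∀ a b, |X a b| ≤ I := by
    intro a b
    rw [hX, bl_apply]
    split_ifs
    · exact hx0 a b
    · rw [abs_zero]; linarith
  have hYle : ∀ a b, |Y a b| ≤ (n * (n * (n.factorial * 1) * 1)) * I := by
    intro a b
    have h1 := mul_le (Li * X) L _ 1 (mul_le Li X _ I hLi4 hXle) (lc_le hs) a b
    calc |Y a b| ≤ _ := h1
      _ = _ := by ring
  have hY0 : ∀ a b : Fin n, ¬ ((b : ℕ) < j ∧ (j : ℕ) ≤ a) → Y a b = 0 := by
    intro a b hab
    rw [hY, Matrix.mul_apply]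
    refine Finset.sum_eq_zero fun d _ => ?_
    by_cases h1 : d < b
    · rw [hL, lc_zero s d b h1, mul_zero]
    · rw [Matrix.mul_apply]
      rw [Finset.sum_eq_zero, zero_mul]
      intro c _
      by_cases h2 : a < c
      · rw [hLi3 a c h2, zero_mul]
      · rw [hX, bl_apply, if_neg, mul_zero]
        rintro ⟨h3, h4⟩
        apply hab
        have h5 : (b : ℕ) ≤ d := not_lt.mp h1
        have h6 : (c : ℕ) ≤ a := not_lt.mp h2
        omega
  have hZ : ∀ a b, |(Di * Y * D) a b| ≤ (n * (n * (n.factorial * 1) * 1)) * (2 ^ n * 2 ^ n) / W := by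
    intro a b
    have e3 : (Di * Y * D) a b = (ac s a)⁻¹ * Y a b * ac s b := by
      rw [hDi, hD, Matrix.mul_diagonal, Matrix.diagonal_mul]
    rw [e3]
    by_cases hab : (b : ℕ) < j ∧ (j : ℕ) ≤ a
    · have h1 : ac s b ≤ 2 ^ n * ac s i := ac_le hiw hs b i (by
        show (b : ℕ) ≤ i; omega)
      have h2 : ac s j ≤ 2 ^ n * ac s a := ac_le hiw hs j a hab.2
      have h3 : 0 < ac s a := hpos a
      have h4 : 0 < ac s b := hpos b
      have h5 : W * I * ac s b ≤ (2 ^ n * 2 ^ n) * ac s a := by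
        calc W * I * ac s b ≤ W * I * (2 ^ n * ac s i) := by gcongr
          _ = 2 ^ n * (W * I * ac s i) := by ring
          _ ≤ 2 ^ n * ac s j := by gcongr
          _ ≤ 2 ^ n * (2 ^ n * ac s a) := by gcongr
          _ = _ := by ring
      rw [abs_mul, abs_mul, abs_of_pos h4, abs_of_pos (inv_pos.mpr h3), le_div_iff₀ (by linarith)]
      have h6 := hYle a b
      set K : ℝ := (n * (n * (n.factorial * 1) * 1)) with hK
      have hK0 : 0 ≤ K := by positivity
      calc (ac s a)⁻¹ * |Y a b| * ac s b * W ≤ (ac s a)⁻¹ * (K * I) * ac s b * W := by gcongr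
        _ = (ac s a)⁻¹ * K * (W * I * ac s b) := by ring
        _ ≤ (ac s a)⁻¹ * K * ((2 ^ n * 2 ^ n) * ac s a) := by gcongr
        _ = K * (2 ^ n * 2 ^ n) := by field_simp
    · rw [hY0 a b hab]
      simp only [mul_zero, zero_mul, abs_zero]
      positivity
  have h7 := mul_le kᵀ ((Di * Y * D) * k) 1 _ (fun a b => orth_le k hk b a)
    (mul_le (Di * Y * D) k _ 1 hZ (orth_le k hk)) a b
  have h8 : (s⁻¹ * uk j x0 * s).1 a b - (1 : Matrix (Fin n) (Fin n) ℝ) a b = (kᵀ * ((Di * Y * D) * k)) a b := by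
    rw [← e1, Matrix.sub_apply]
  rw [h8]
  refine h7.trans ?_
  have h9 : (n : ℝ) * (1 * (n * ((n * (n * (n.factorial * 1) * 1)) * (2 ^ n * 2 ^ n) / W * 1))) = C / W := by
    rw [hC]; ring
  rw [h9, div_le_iff₀ (by linarith), mul_comm δ]
  exact hWC

end Pool.Agent.T2h77.N.Cut
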