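import Pool.Agent.T2h77N.CutB
import Pool.Agent.T2h77.Anal1

/-!
# CUT, part C: fundamental domains and local integrability
-/

set_option autoImplicit false

open MeasureTheory Matrix
open scoped MatrixGroups ENNReal Pointwise

noncomputable section

namespace Pool.Agent.T2h77.N.Cut

open FixB

instance instHaar (n : ℕ) : (mu n).IsHaarMeasure := by unfold mu; infer_instance

instance instCount (n : ℕ) : Countable (GZ n) := by
  have : Countable (Matrix (Fin n) (Fin n) ℤ) := inferInstanceAs (Countable (Fin n → Fin n → ℤ))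
  exact Subtype.countable

instance instCountR (n : ℕ) : Countable (io n).range := by
  have : Function.Surjective (io n).rangeRestrict := (io n).rangeRestrict_surjective
  exact this.countable

theorem isFD {n : ℕ} {F : Set (GR n)} (h : IsFD F) : IsFundamentalDomain (io n).range F (mu n) := by
  obtain ⟨h1, h2, h3⟩ := h
  refine IsFundamentalDomain.mk'' h1.nullMeasurableSet ?_ ?_ ?_
  · filter_upwards [h2] with g hg
    obtain ⟨γ, hg⟩ := hg
    exact ⟨⟨io n γ, ⟨γ, rfl⟩⟩, hg⟩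
  · rintro ⟨_, γ, rfl⟩ hne
    have hγ1 : γ⁻¹ ≠ 1 := by
      intro h
      apply hne
      have h4 : γ = 1 := inv_eq_one.1 h
      subst h4
      exact Subtype.ext (map_one _)
    have := h3 γ⁻¹ hγ1
    unfold AEDisjoint
    rw [← this]
    congr 1
    ext g
    rw [Set.mem_inter_iff, Set.mem_smul_set_iff_inv_smul_mem, and_comm]
    have e : ((⟨io n γ, ⟨γ, rfl⟩⟩ : (io n).range)⁻¹ • g) = io n γ⁻¹ * g := by
      rw [map_inv]
      rfl
    rw [e]
    rfl
  · intro g
    exact (measurePreserving_mul_left (mu n) (g : GR n)).quasiMeasurePreserving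

/-- sums over the level space of functions of a form are invariant -/
theorem sum_inv {n N : ℕ} {H : Subgroup (GN n N)} {f : GR n → XX H → ℂ} (hf : IsForm H f) (φ : ℂ → ℝ≥0∞)
    (γ : GR n) (hγ : γ ∈ (io n).range) (g : GR n) : ∑' c : XX H, φ (f (γ * g) c) = ∑' c : XX H, φ (f g c) := by
  obtain ⟨γ, rfl⟩ := hγ
  rw [← (MulAction.toPerm (rdM N (γ : MZ n)) : Equiv.Perm (XX H)).tsum_eq]
  refine tsum_congr fun c => ?_
  rw [MulAction.toPerm_apply, hf.invariant]

/-- `SL_n(ℤ)` is discrete -/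
theorem finite_io {n : ℕ} (K : Set (GR n)) (hK : IsCompact K) : {γ : GZ n | io n γ ∈ K}.Finite := by
  have h1 : ∃ C : ℝ, ∀ x ∈ K, ∀ i j, |x.1 i j| ≤ C := by
    have h2 : ∀ i j : Fin n, ∃ C : ℝ, ∀ x ∈ K, |x.1 i j| ≤ C := by
      intro i j
      have hc : Continuous fun x : GR n => |x.1 i j| := by
        have : Continuous fun x : GR n => x.1 := continuous_subtype_val
        exact ((continuous_apply j).comp ((continuous_apply i).comp this)).abs
      obtain ⟨C, hC⟩ := (hK.image hc).bddAbove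
      exact ⟨C, fun x hx => hC ⟨x, hx, rfl⟩⟩
    choose C hC using h2
    refine ⟨∑ i, ∑ j, |C i j|, fun x hx i j => (hC i j x hx).trans ?_⟩
    calc C i j ≤ |C i j| := le_abs_self _
      _ ≤ ∑ j, |C i j| := Finset.single_le_sum (f := fun j => |C i j|) (fun _ _ => abs_nonneg _) (Finset.mem_univ j)
      _ ≤ ∑ i, ∑ j, |C i j| := Finset.single_le_sum (f := fun i => ∑ j, |C i j|)
          (fun _ _ => Finset.sum_nonneg fun _ _ => abs_nonneg _) (Finset.mem_univ i)
  obtain ⟨C, hC⟩ := h1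
  have h3 : {y : Fin n → Fin n → ℤ | ∀ i, y i ∈ {z : Fin n → ℤ | ∀ j, z j ∈ Set.Icc (-⌈C⌉) ⌈C⌉}}.Finite :=
    Set.Finite.pi' fun _ => Set.Finite.pi' fun _ => Set.finite_Icc _ _
  refine Set.Finite.of_finite_image (f := fun γ : GZ n => (γ.1 : Fin n → Fin n → ℤ)) (h3.subset ?_) ?_
  · rintro _ ⟨γ, hγ, rfl⟩
    intro i j
    have h4 : |((γ.1 i j : ℤ) : ℝ)| ≤ C := hC _ hγ i j
    have h5 : |((γ.1 i j : ℤ) : ℝ)| ≤ (⌈C⌉ : ℝ) := h4.trans (Int.le_ceil C)
    have h6 : |γ.1 i j| ≤ ⌈C⌉ := by exact_mod_cast h5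
    exact abs_le.mp h6
  · intro γ _ γ' _ h
    exact Subtype.ext h

open Pool.Agent.T2h77.An in
theorem local_fin {n N : ℕ} [NeZero N] {H : Subgroup (GN n N)} {F : Set (GR n)} (hF : IsFD F)
    {f : GR n → XX H → ℂ} (hf : IsForm H f) (h2 : IsL2 F f) (c : XX H) (g : GR n) (B : Set (GR n))
    (hB : IsCompact B) : ∫⁻ h in B, ‖f (g * h) c‖ₑ ∂(mu n) < ∞ := by
  have : Finite (XX H) := inferInstance
  have : Fintype (XX H) := Fintype.ofFinite _
  set q : GR n → ℝ≥0∞ := fun g => ∑' c : XX H, ‖f g c‖ₑ with hq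
  have hqm : Measurable q := Measurable.tsum fun c => (hf.measurable c).enorm
  have hqi : ∀ γ ∈ (io n).range, ∀ g, q (γ * g) = q g := fun γ hγ g => sum_inv hf (fun z => ‖z‖ₑ) γ hγ g
  have hbs := bessel (isFD hF) hB.measurableSet hqm hqi g
  have hfin1 : ∫⁻ x in F, q x ^ 2 ∂(mu n) < ∞ := by
    have h3 : ∀ x, q x ^ 2 ≤ (Fintype.card (XX H) : ℝ≥0∞) * ∑ c : XX H, ‖f x c‖ₑ ^ 2 := by
      intro x
      rw [hq]
      simp only [tsum_fintype]
      have := ENNReal.rpow_sum_le_const_mul_sum_rpow (Finset.univ : Finset (XX H)) (fun c => ‖f x c‖ₑ)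
        (p := 2) (by norm_num)
      simp only [ENNReal.rpow_two] at this
      refine this.trans_eq ?_
      norm_num
    refine lt_of_le_of_lt (lintegral_mono h3) ?_
    rw [lintegral_const_mul' _ _ (by simp), lintegral_finsetSum]
    · refine ENNReal.mul_lt_top (by simp) (ENNReal.sum_lt_top.mpr fun c _ => h2 c)
    · intro c _
      exact (hf.measurable c).enorm.pow_const 2
  have hfin2 : ∑' γ : (io n).range, kk (mu n) B (g⁻¹ * γ * g) < ∞ := by
    have hK : IsCompact ((fun x : GR n => g * x * g⁻¹) '' (B * B⁻¹)) :=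
      (hB.mul hB.inv).image (by fun_prop)
    have hT : {γ : (io n).range | g⁻¹ * γ * g ∈ B * B⁻¹}.Finite := by
      refine ((finite_io _ hK).image (io n).rangeRestrict).subset ?_
      rintro ⟨_, γ, rfl⟩ hγ
      refine ⟨γ, ⟨_, hγ, ?_⟩, rfl⟩
      show g * (g⁻¹ * io n γ * g) * g⁻¹ = io n γ
      group
    have h5 : ∀ h, kk (mu n) B h ≤ mu n B := fun h => measure_mono Set.inter_subset_left
    have h6 : ∀ h, h ∉ B * B⁻¹ → kk (mu n) B h = 0 := by
      intro h hh
      unfold kk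
      have : B ∩ (fun x => h * x) '' B = ∅ := by
        rw [Set.eq_empty_iff_forall_notMem]
        rintro x ⟨hx, y, hy, rfl⟩
        apply hh
        exact ⟨h * y, hx, y⁻¹, Set.inv_mem_inv.mpr hy, by group⟩
      rw [this, measure_empty]
    rw [tsum_eq_sum (s := hT.toFinset)]
    · refine ENNReal.sum_lt_top.mpr fun γ _ => lt_of_le_of_lt (h5 _) hB.measure_lt_top
    · intro γ hγ
      refine h6 _ fun hh => hγ ?_
      rw [Set.Finite.mem_toFinset]
      exact hh
  have hfin3 : Ap (mu n) B q g ^ 2 < ∞ := lt_of_le_of_lt hbs (ENNReal.mul_lt_top hfin2 hfin1)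
  have hfin4 : Ap (mu n) B q g < ∞ := by
    by_contra hcon
    rw [not_lt_top_iff] at hcon
    rw [hcon] at hfin3
    simp at hfin3
  refine lt_of_le_of_lt ?_ hfin4
  unfold Ap
  refine lintegral_mono fun h => ?_
  exact ENNReal.le_tsum c

end Pool.Agent.T2h77.N.Cut
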