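import Pool.Agent.T2h77N.CutC

/-!
# CUT, part D: Fubini for cusp forms, the convolution operator
-/

set_option autoImplicit false

open MeasureTheory Matrix
open scoped MatrixGroups ENNReal Pointwise Topology

noncomputable section

namespace Pool.Agent.T2h77.N.Cut

open FixB

theorem Rc_inv {n N : ℕ} {H : Subgroup (GN n N)} {f : GR n → XX H → ℂ} (hf : IsForm H f) (χ : GR n → ℝ)
    (γ : GZ n) (g : GR n) (c : XX H) : Rc χ f (io n γ * g) (rho n N γ • c) = Rc χ f g c := by
  unfold Rc
  refine integral_congr_ae (Filter.Eventually.of_forall fun y => ?_)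
  simp only
  rw [mul_assoc, ← rdM_eq, hf.invariant]

theorem continuous_uk {n : ℕ} (k : ℕ) : Continuous fun x : Fin n → Fin n → ℝ => uk k x := by
  refine Continuous.subtype_mk ?_ _
  refine continuous_matrix fun i j => ?_
  show Continuous fun x : Fin n → Fin n → ℝ => if i = j then (1 : ℝ) else if (j : ℕ) < k ∧ k ≤ (i : ℕ) then x i j else 0
  split_ifs
  · exact continuous_const
  · exact (continuous_apply j).comp (continuous_apply i)
  · exact continuous_const

/-- the box -/
def bx (n N : ℕ) : Set (Fin n → Fin n → ℝ) := {x | ∀ i j, 0 ≤ x i j ∧ x i j ≤ N}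

theorem bx_eq (n N : ℕ) : bx n N = Set.Icc (fun _ _ => (0 : ℝ)) (fun _ _ => (N : ℝ)) := by
  ext x
  simp only [bx, Set.mem_ofPred_eq, Set.mem_Icc, Pi.le_def]
  exact ⟨fun h => ⟨fun i j => (h i j).1, fun i j => (h i j).2⟩, fun h i j => ⟨h.1 i j, h.2 i j⟩⟩

theorem bx_compact (n N : ℕ) : IsCompact (bx n N) := by
  rw [bx_eq]
  exact isCompact_Icc

theorem bx_vol_pos (n N : ℕ) [NeZero N] : 0 < (volume (bx n N)).toReal := by
  have h1 : bx n N = Set.pi Set.univ fun _ : Fin n => Set.pi Set.univ fun _ : Fin n => Set.Icc (0 : ℝ) N := by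
    ext x
    exact ⟨fun h i _ j _ => h i j, fun h i j => h i trivial j trivial⟩
  rw [h1, volume_pi_pi]
  simp only [volume_pi_pi, Real.volume_Icc]
  have hN : (0 : ℝ) < N := by exact_mod_cast Nat.pos_of_ne_zero (NeZero.ne N)
  simp only [Finset.prod_const, sub_zero, ENNReal.toReal_pow, ENNReal.toReal_ofReal hN.le]
  positivity

/-- the translated integrals of a form over compact sets are uniformly bounded over compact sets of translations -/
theorem bound_box {n N : ℕ} {H : Subgroup (GN n N)} {f : GR n → XX H → ℂ} (c : XX H) (g : GR n) (k : ℕ) (B B' : Set (GR n)) (hB' : MeasurableSet B')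
    (x : Fin n → Fin n → ℝ) (hx : ∀ y ∈ B, g⁻¹ * uk k x * g * y ∈ B') (hB : MeasurableSet B) :
    ∫⁻ y in B, ‖f (uk k x * g * y) c‖ₑ ∂(mu n) ≤ ∫⁻ z in B', ‖f (g * z) c‖ₑ ∂(mu n) := by
  rw [← lintegral_indicator hB, ← lintegral_indicator hB',
    ← lintegral_mul_left_eq_self (μ := mu n) (fun z => B'.indicator (fun z => ‖f (g * z) c‖ₑ) z)
      (g⁻¹ * uk k x * g)]
  refine lintegral_mono fun y => ?_
  by_cases hy : y ∈ B
  · rw [Set.indicator_of_mem hy, Set.indicator_of_mem (hx y hy)]
    have : g * (g⁻¹ * uk k x * g * y) = uk k x * g * y := by group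
    rw [this]
  · rw [Set.indicator_of_notMem hy]
    exact zero_le

theorem exists_bound {n : ℕ} {χ : GR n → ℝ} (hχ : Continuous χ) (hs : HasCompactSupport χ) :
    ∃ M : ℝ, 0 ≤ M ∧ ∀ y, |χ y| ≤ M := by
  obtain ⟨M, hM⟩ := hs.exists_bound_of_continuous hχ
  exact ⟨M, (abs_nonneg _).trans (hM 1), hM⟩

/-- integrability of `f (a y) c χ(y)` -/
theorem integrable_Rc {n N : ℕ} [NeZero N] {H : Subgroup (GN n N)} {F : Set (GR n)} (hF : IsFD F)
    {f : GR n → XX H → ℂ} (hf : IsForm H f) (h2 : IsL2 F f) {χ : GR n → ℝ} (hχ : Continuous χ)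
    (hs : HasCompactSupport χ) (g : GR n) (c : XX H) : Integrable (fun y => f (g * y) c * (χ y : ℂ)) (mu n) := by
  obtain ⟨M, hM0, hM⟩ := exists_bound hχ hs
  have hmeas : Measurable fun y => f (g * y) c * (χ y : ℂ) :=
    ((hf.measurable c).comp (measurable_const_mul g)).mul (Complex.measurable_ofReal.comp hχ.measurable)
  refine ⟨hmeas.aestronglyMeasurable, ?_⟩
  rw [hasFiniteIntegral_iff_enorm]
  have hB : IsCompact (tsupport χ) := hs
  have h1 := local_fin hF hf h2 c g (tsupport χ) hB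
  refine lt_of_le_of_lt ?_ (ENNReal.mul_lt_top (ENNReal.ofReal_lt_top (r := M)) h1)
  rw [← lintegral_const_mul' _ _ ENNReal.ofReal_ne_top, ← lintegral_indicator hB.measurableSet]
  refine lintegral_mono fun y => ?_
  by_cases hy : y ∈ tsupport χ
  · rw [Set.indicator_of_mem hy, enorm_mul, mul_comm]
    gcongr
    rw [← ofReal_norm, Complex.norm_real]
    exact ENNReal.ofReal_le_ofReal (hM y)
  · rw [Set.indicator_of_notMem hy, image_eq_zero_of_notMem_tsupport hy]
    simp

theorem integrable_prod {n N : ℕ} [NeZero N] {H : Subgroup (GN n N)} {F : Set (GR n)} (hF : IsFD F)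
    {f : GR n → XX H → ℂ} (hf : IsForm H f) (h2 : IsL2 F f) {χ : GR n → ℝ} (hχ : Continuous χ)
    (hs : HasCompactSupport χ) (k : ℕ) (g : GR n) (c : XX H) :
    Integrable (Function.uncurry fun (x : Fin n → Fin n → ℝ) (y : GR n) => f (uk k x * g * y) c * (χ y : ℂ))
      ((volume.restrict (bx n N)).prod (mu n)) := by
  obtain ⟨M, hM0, hM⟩ := exists_bound hχ hs
  have hB : IsCompact (tsupport χ) := hs
  have hcont : Continuous fun p : (Fin n → Fin n → ℝ) × GR n => uk k p.1 * g * p.2 :=
    (((continuous_uk k).comp continuous_fst).mul continuous_const).mul continuous_snd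
  have hmeas : Measurable (Function.uncurry fun (x : Fin n → Fin n → ℝ) (y : GR n) =>
      f (uk k x * g * y) c * (χ y : ℂ)) :=
    ((hf.measurable c).comp hcont.measurable).mul
      (Complex.measurable_ofReal.comp (hχ.measurable.comp measurable_snd))
  refine ⟨hmeas.aestronglyMeasurable, ?_⟩
  rw [hasFiniteIntegral_iff_enorm, lintegral_prod _ hmeas.enorm.aemeasurable]
  set B' : Set (GR n) := (fun p : (Fin n → Fin n → ℝ) × GR n => g⁻¹ * uk k p.1 * g * p.2) ''
    (bx n N ×ˢ tsupport χ) with hB'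
  have hB'c : IsCompact B' := by
    refine ((bx_compact n N).prod hB).image ?_
    exact ((continuous_const.mul ((continuous_uk k).comp continuous_fst)).mul continuous_const).mul continuous_snd
  have hfin := local_fin hF hf h2 c g B' hB'c
  have h3 : ∀ x ∈ bx n N, ∫⁻ y, ‖Function.uncurry (fun (x : Fin n → Fin n → ℝ) (y : GR n) =>
      f (uk k x * g * y) c * (χ y : ℂ)) (x, y)‖ₑ ∂(mu n) ≤
        ENNReal.ofReal M * ∫⁻ z in B', ‖f (g * z) c‖ₑ ∂(mu n) := by
    intro x hx
    have h4 := bound_box (f := f) c g k (tsupport χ) B' hB'c.measurableSet x (fun y hy => ⟨(x, y), ⟨hx, hy⟩, rfl⟩)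
      hB.measurableSet
    refine le_trans ?_ (mul_le_mul_right h4 (ENNReal.ofReal M))
    rw [← lintegral_const_mul' _ _ ENNReal.ofReal_ne_top, ← lintegral_indicator hB.measurableSet]
    refine lintegral_mono fun y => ?_
    simp only [Function.uncurry]
    by_cases hy : y ∈ tsupport χ
    · rw [Set.indicator_of_mem hy, enorm_mul, mul_comm]
      gcongr
      rw [← ofReal_norm, Complex.norm_real]
      exact ENNReal.ofReal_le_ofReal (hM y)
    · rw [Set.indicator_of_notMem hy, image_eq_zero_of_notMem_tsupport hy]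
      simp
  refine lt_of_le_of_lt (setLIntegral_mono' (bx_compact n N).measurableSet h3) ?_
  rw [setLIntegral_const]
  exact ENNReal.mul_lt_top (ENNReal.mul_lt_top ENNReal.ofReal_lt_top hfin) (bx_compact n N).measure_lt_top


theorem cusp_RcA {n N : ℕ} [NeZero N] {H : Subgroup (GN n N)} {F : Set (GR n)} (hF : IsFD F)
    {f : GR n → XX H → ℂ} (hf : IsForm H f) (h2 : IsL2 F f) {χ : GR n → ℝ} (hχ : Continuous χ)
    (hs : HasCompactSupport χ) (k : ℕ) (g : GR n) (c : XX H) :
    Integrable (fun x => Rc χ f (uk k x * g) c) (volume.restrict (bx n N)) := by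
  have hint := integrable_prod hF hf h2 hχ hs k g c
  unfold Rc
  exact hint.integral_prod_left

theorem cusp_Rc {n N : ℕ} [NeZero N] {H : Subgroup (GN n N)} {F : Set (GR n)} (hF : IsFD F)
    {f : GR n → XX H → ℂ} (hf : IsForm H f) (h2 : IsL2 F f) (hc : IsCusp f) {χ : GR n → ℝ} (hχ : Continuous χ)
    (hs : HasCompactSupport χ) (k : ℕ) (hk : 0 < k) (hkn : k < n) (g : GR n) (c : XX H) :
      ∫ x in bx n N, Rc χ f (uk k x * g) c = 0 := by
  have hint := integrable_prod hF hf h2 hχ hs k g c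
  have h1 : ∫ x in bx n N, Rc χ f (uk k x * g) c =
      ∫ y, (∫ x in bx n N, f (uk k x * g * y) c * (χ y : ℂ)) ∂(mu n) := by
    unfold Rc
    exact integral_integral_swap hint
  rw [h1]
  have h3 : ∀ᵐ y ∂(mu n), ∫ x in bx n N, f (uk k x * (g * y)) c = 0 := by
    have h5 : ∀ᵐ z ∂(mu n), ∫ x in bx n N, f (uk k x * z) c = 0 := hc k hk hkn c
    exact (measurePreserving_mul_left (mu n) g).quasiMeasurePreserving.ae
      (p := fun z => ∫ x in bx n N, f (uk k x * z) c = 0) h5
  have h4 : ∀ y, (∫ x in bx n N, f (uk k x * (g * y)) c = 0) →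
      (∫ x in bx n N, f (uk k x * g * y) c * (χ y : ℂ)) = 0 := by
    intro y hy
    rw [integral_mul_const]
    simp only [mul_assoc] at hy ⊢
    rw [hy, zero_mul]
  exact integral_eq_zero_of_ae (h3.mono h4)

end Pool.Agent.T2h77.N.Cut
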