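import Pool.Agent.T2h77N.CutD

/-!
# CUT, part E: the pointwise estimate
-/

set_option autoImplicit false

open MeasureTheory Matrix
open scoped MatrixGroups ENNReal Pointwise Topology

noncomputable section

namespace Pool.Agent.T2h77.N.Cut

open FixB

/-- `P(g, c) - P(g h, c)` -/
theorem Rc_sub {n N : ℕ} [NeZero N] {H : Subgroup (GN n N)} {F : Set (GR n)} (hF : IsFD F)
    {f : GR n → XX H → ℂ} (hf : IsForm H f) (h2 : IsL2 F f) {χ : GR n → ℝ} (hχ : Continuous χ)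
    (hs : HasCompactSupport χ) (g h : GR n) (c : XX H) (ω : ℝ) (B : Set (GR n)) (hB : IsCompact B)
    (hh : ∀ y, |χ y - χ (h⁻¹ * y)| ≤ ω) (hh0 : ∀ y, y ∉ B → χ y - χ (h⁻¹ * y) = 0) :
    ‖Rc χ f g c - Rc χ f (g * h) c‖ₑ ≤ ENNReal.ofReal ω * ∫⁻ y in B, ‖f (g * y) c‖ₑ ∂(mu n) := by
  have h1 : Rc χ f (g * h) c = ∫ y, f (g * y) c * ((χ (h⁻¹ * y) : ℝ) : ℂ) ∂(mu n) := by
    unfold Rc
    rw [← integral_mul_left_eq_self (μ := mu n) (fun y => f (g * y) c * ((χ (h⁻¹ * y) : ℝ) : ℂ)) h]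
    refine integral_congr_ae (Filter.Eventually.of_forall fun y => ?_)
    simp only
    rw [mul_assoc, inv_mul_cancel_left]
  have h3 : Integrable (fun y => f (g * y) c * ((χ (h⁻¹ * y) : ℝ) : ℂ)) (mu n) := by
    have hs' : HasCompactSupport fun y => χ (h⁻¹ * y) := hs.comp_homeomorph (Homeomorph.mulLeft h⁻¹)
    exact integrable_Rc hF hf h2 (χ := fun y => χ (h⁻¹ * y)) (by fun_prop) hs' g c
  have h4 := integrable_Rc hF hf h2 hχ hs g c
  have h5 : Rc χ f g c - Rc χ f (g * h) c = ∫ y, f (g * y) c * ((χ y - χ (h⁻¹ * y) : ℝ) : ℂ) ∂(mu n) := by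
    rw [h1]
    unfold Rc
    rw [← integral_sub h4 h3]
    refine integral_congr_ae (Filter.Eventually.of_forall fun y => ?_)
    simp only
    push_cast
    ring
  rw [h5]
  refine (enorm_integral_le_lintegral_enorm _).trans ?_
  rw [← lintegral_const_mul' _ _ ENNReal.ofReal_ne_top, ← lintegral_indicator hB.measurableSet]
  refine lintegral_mono fun y => ?_
  by_cases hy : y ∈ B
  · rw [Set.indicator_of_mem hy, enorm_mul, mul_comm]
    gcongr
    rw [← ofReal_norm, Complex.norm_real]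
    exact ENNReal.ofReal_le_ofReal (hh y)
  · rw [Set.indicator_of_notMem hy, hh0 y hy]
    simp

/-- uniform continuity -/
theorem exists_delta {n : ℕ} {χ : GR n → ℝ} (hχ : Continuous χ) (hs : HasCompactSupport χ) :
    ∃ B : Set (GR n), IsCompact B ∧ ∀ ω : ℝ, 0 < ω → ∃ δ : ℝ, 0 < δ ∧ ∀ h : GR n,
      (∀ a b, |h.1 a b - (1 : Matrix (Fin n) (Fin n) ℝ) a b| ≤ δ) →
        (∀ y, |χ y - χ (h⁻¹ * y)| ≤ ω) ∧ ∀ y, y ∉ B → χ y - χ (h⁻¹ * y) = 0 := by
  obtain ⟨V, hV, hV1⟩ := exists_compact_mem_nhds (1 : GR n)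
  have hS : IsCompact (tsupport χ) := hs
  refine ⟨V * tsupport χ, hV.mul hS, ?_⟩
  intro ω hω
  have hout : ∀ h ∈ V, ∀ y, y ∉ V * tsupport χ → χ y - χ (h⁻¹ * y) = 0 := by
    intro h hh y hy
    have h1 : y ∉ tsupport χ := fun h3 => hy ⟨1, mem_of_mem_nhds hV1, y, h3, one_mul y⟩
    have h2 : h⁻¹ * y ∉ tsupport χ := fun h3 => hy ⟨h, hh, h⁻¹ * y, h3, mul_inv_cancel_left h y⟩
    rw [image_eq_zero_of_notMem_tsupport h1, image_eq_zero_of_notMem_tsupport h2, sub_zero]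
  have hev : ∀ᶠ h in 𝓝 (1 : GR n), ∀ y ∈ V * tsupport χ, |χ y - χ (h⁻¹ * y)| < ω := by
    refine (hV.mul hS).eventually_forall_of_forall_eventually fun y _ => ?_
    have hc : Continuous fun p : GR n × GR n => |χ p.2 - χ (p.1⁻¹ * p.2)| := by fun_prop
    have h3 : |χ y - χ ((1 : GR n)⁻¹ * y)| < ω := by simpa using hω
    exact hc.continuousAt.eventually (gt_mem_nhds h3) 
  have hU : {h : GR n | h ∈ V ∧ ∀ y ∈ V * tsupport χ, |χ y - χ (h⁻¹ * y)| < ω} ∈ 𝓝 (1 : GR n) :=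
    Filter.inter_mem hV1 hev
  have hind : Topology.IsInducing fun h : GR n => (h.1 : Fin n → Fin n → ℝ) := Topology.IsInducing.subtypeVal
  rw [hind.nhds_eq_comap, Filter.mem_comap] at hU
  obtain ⟨t, ht, hts⟩ := hU
  have ht' : t ∈ @nhds (Fin n → Fin n → ℝ) inferInstance ((1 : GR n).1 : Fin n → Fin n → ℝ) := ht
  obtain ⟨δ, hδ, hball⟩ := Metric.nhds_basis_closedBall.mem_iff.mp ht'
  refine ⟨δ, hδ, ?_⟩
  intro h hh
  have hmem : h ∈ {h : GR n | h ∈ V ∧ ∀ y ∈ V * tsupport χ, |χ y - χ (h⁻¹ * y)| < ω} := by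
    apply hts
    apply hball
    have h9 : ∀ u v : Fin n → Fin n → ℝ, (∀ a b, |u a b - v a b| ≤ δ) → u ∈ Metric.closedBall v δ := by
      intro u v huv
      rw [Metric.mem_closedBall, dist_pi_le_iff hδ.le]
      intro a
      rw [dist_pi_le_iff hδ.le]
      intro b
      rw [Real.dist_eq]
      exact huv a b
    exact h9 _ _ hh
  refine ⟨fun y => ?_, hout h hmem.1⟩
  by_cases hy : y ∈ V * tsupport χ
  · exact (hmem.2 y hy).le
  · rw [hout h hmem.1 y hy]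
    simpa using hω.le

/-- the pointwise estimate at the points of large height -/
theorem point {n N : ℕ} [NeZero N] {H : Subgroup (GN n N)} {F : Set (GR n)} (hF : IsFD F)
    {f : GR n → XX H → ℂ} (hf : IsForm H f) (h2 : IsL2 F f) (hc : IsCusp f) {χ : GR n → ℝ} (hχ : Continuous χ)
    (hs : HasCompactSupport χ) (B : Set (GR n)) (hB : IsCompact B) (ω δ : ℝ) (hω : 0 ≤ ω)
    (hδ : ∀ h : GR n, (∀ a b, |h.1 a b - (1 : Matrix (Fin n) (Fin n) ℝ) a b| ≤ δ) →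
        (∀ y, |χ y - χ (h⁻¹ * y)| ≤ ω) ∧ ∀ y, y ∉ B → χ y - χ (h⁻¹ * y) = 0)
    (s : GR n) (i j : Fin n) (hij : (i : ℕ) + 1 = j)
    (hsm : ∀ x0 : Fin n → Fin n → ℝ, (∀ a b, |x0 a b| ≤ ixS H) →
      ∀ a b, |(s⁻¹ * uk j x0 * s).1 a b - (1 : Matrix (Fin n) (Fin n) ℝ) a b| ≤ δ) (c : XX H) :
    ‖Rc χ f s c‖ₑ ≤ ENNReal.ofReal ω * ∫⁻ y in B, ‖f (s * y) c‖ₑ ∂(mu n) := by
  have hfin := local_fin hF hf h2 c s B hB
  set T := ∫⁻ y in B, ‖f (s * y) c‖ₑ ∂(mu n) with hT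
  have hi1 := cusp_RcA hF hf h2 hχ hs (j : ℕ) s c
  have hi2 := cusp_Rc hF hf h2 hc hχ hs (j : ℕ) (by omega) j.2 s c
  have h3 : ∀ x : Fin n → Fin n → ℝ, ‖Rc χ f s c - Rc χ f (uk j x * s) c‖ ≤ ω * T.toReal := by
    intro x
    obtain ⟨y, x0, hy, hx0, hx⟩ := reduce H (j : ℕ) c x
    have e1 : Rc χ f (uk j x * s) c = Rc χ f (s * (s⁻¹ * uk j x0 * s)) c := by
      rw [hx, mul_assoc]
      conv_lhs => rw [← hy]
      rw [Rc_inv hf]
      congr 1
      group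
    obtain ⟨h4, h5⟩ := hδ _ (hsm x0 hx0)
    have h6 := Rc_sub hF hf h2 hχ hs s (s⁻¹ * uk j x0 * s) c ω B hB h4 h5
    rw [← e1, ← hT] at h6
    have h7 := ENNReal.toReal_mono (ENNReal.mul_lt_top ENNReal.ofReal_lt_top hfin).ne h6
    rw [ENNReal.toReal_mul, ENNReal.toReal_ofReal hω, toReal_enorm] at h7
    exact h7
  have hvol := bx_vol_pos n N
  have h8 : ‖∫ x in bx n N, (Rc χ f s c - Rc χ f (uk j x * s) c)‖ ≤ ω * T.toReal * (volume (bx n N)).toReal :=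
    norm_setIntegral_le_of_norm_le_const (bx_compact n N).measure_lt_top fun x _ => h3 x
  have h9 : ∫ x in bx n N, (Rc χ f s c - Rc χ f (uk j x * s) c) = ((volume (bx n N)).toReal : ℂ) * Rc χ f s c := by
    have : IsFiniteMeasure (volume.restrict (bx n N)) :=
      ⟨by rw [Measure.restrict_apply_univ]; exact (bx_compact n N).measure_lt_top⟩
    rw [integral_sub (integrable_const _) hi1, hi2, sub_zero, setIntegral_const]
    rw [Measure.real]
    exact (Complex.real_smul)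
  rw [h9, norm_mul, Complex.norm_real, Real.norm_of_nonneg hvol.le, mul_comm] at h8
  have h10 : ‖Rc χ f s c‖ ≤ ω * T.toReal := le_of_mul_le_mul_right h8 hvol
  rw [← ofReal_norm]
  refine (ENNReal.ofReal_le_ofReal h10).trans ?_
  rw [ENNReal.ofReal_mul hω, ENNReal.ofReal_toReal hfin.ne]

end Pool.Agent.T2h77.N.Cut
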