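import Mathlib

/-!
# Cusp forms on `SL_n(ℤ) \ SL_n(ℝ)` with level structure: definitions

Let `N ≥ 1` and let `H` be a subgroup of `GL_n(ℤ/N)`. The automorphic functions for `GL_n` over `ℚ` of level `H`
(i.e. invariant under the inverse image of `H` in `GL_n` of the profinite completion of `ℤ`, and under the positive
real scalars) are the functions `f` on `SL_n(ℝ) × GL_n(ℤ/N) ⧸ H` with `f (γ g, γ c) = f (g, c)` for `γ ∈ SL_n(ℤ)`.
-/

set_option autoImplicit false

open MeasureTheory Matrix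
open scoped MatrixGroups ENNReal

noncomputable section

namespace Pool.Agent.T2h77.N

/-- The group `SL_n(ℝ)`. -/
abbrev GR (n : ℕ) : Type := Matrix.SpecialLinearGroup (Fin n) ℝ

/-- The group `SL_n(ℤ)`. -/
abbrev GZ (n : ℕ) : Type := Matrix.SpecialLinearGroup (Fin n) ℤ

/-- Integral matrices. -/
abbrev MZ (n : ℕ) : Type := Matrix (Fin n) (Fin n) ℤ

/-- The group `GL_n(ℤ/N)`. -/
abbrev GN (n N : ℕ) : Type := GL (Fin n) (ZMod N)

instance (n : ℕ) : MeasurableSpace (GR n) := borel _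

instance (n : ℕ) : BorelSpace (GR n) := ⟨rfl⟩

instance (n : ℕ) : LocallyCompactSpace (Matrix (Fin n) (Fin n) ℝ) :=
  inferInstanceAs (LocallyCompactSpace (Fin n → Fin n → ℝ))

instance (n : ℕ) : SecondCountableTopology (Matrix (Fin n) (Fin n) ℝ) :=
  inferInstanceAs (SecondCountableTopology (Fin n → Fin n → ℝ))

instance (n : ℕ) : LocallyCompactSpace (GR n) :=
  Matrix.SpecialLinearGroup.isClosedEmbedding_val.locallyCompactSpace

instance (n : ℕ) : SecondCountableTopology (GR n) :=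
  Matrix.SpecialLinearGroup.isClosedEmbedding_val.isEmbedding.secondCountableTopology

/-- The embedding of `SL_n(ℤ)` in `SL_n(ℝ)`. -/
def io (n : ℕ) : GZ n →* GR n := Matrix.SpecialLinearGroup.map (Int.castRingHom ℝ)

/-- A Haar measure on `SL_n(ℝ)`. -/
def mu (n : ℕ) : Measure (GR n) := Measure.haar

/-- The matrix `det(β) ^ (-1/n) β` in `SL_n(ℝ)`, for an integral matrix `β` of positive determinant. -/
def scl {n : ℕ} (β : MZ n) : GR n :=
  open Classical in
  if h : ((((β.det : ℤ) : ℝ) ^ (-(1 / (n : ℝ)))) • β.map (Int.cast : ℤ → ℝ)).det = 1 then ⟨_, h⟩ else 1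

/-- The reduction modulo `N` of an integral matrix which is invertible modulo `N`. -/
def rdM {n : ℕ} (N : ℕ) (β : MZ n) : GN n N :=
  open Classical in
  if h : IsUnit (β.map (Int.cast : ℤ → ZMod N)) then h.unit else 1

/-- The level space `GL_n(ℤ/N) ⧸ H`. -/
abbrev XX {n N : ℕ} (H : Subgroup (GN n N)) : Type := GN n N ⧸ H

/-- A (measurable) automorphic function of level `H`. -/
structure IsForm {n N : ℕ} (H : Subgroup (GN n N)) (f : GR n → XX H → ℂ) : Prop where
  measurable : ∀ c, Measurable fun g => f g c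
  invariant : ∀ (γ : GZ n) (g : GR n) (c : XX H), f (io n γ * g) (rdM N (γ : MZ n) • c) = f g c

/-- The unipotent matrix with the entries `x i j`, `j < k ≤ i`, below the diagonal. -/
def uk {n : ℕ} (k : ℕ) (x : Fin n → Fin n → ℝ) : GR n :=
  ⟨Matrix.of fun i j => if i = j then 1 else if (j : ℕ) < k ∧ k ≤ (i : ℕ) then x i j else 0, by
    rw [Matrix.det_of_isLowerTriangular]
    · simp
    · intro i j hij
      have h1 : i < j := hij
      have h2 : ¬ ((j : ℕ) < k ∧ k ≤ (i : ℕ)) := fun h => by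
        have : (i : ℕ) < (j : ℕ) := h1
        omega
      simp [h1.ne, h2]⟩

/-- `f` is cuspidal: its integrals over the unipotent radicals of the standard maximal parabolic subgroups, modulo
the principal congruence subgroup of level `N`, vanish. -/
def IsCusp {n N : ℕ} {H : Subgroup (GN n N)} (f : GR n → XX H → ℂ) : Prop :=
  ∀ k : ℕ, 0 < k → k < n → ∀ c : XX H, ∀ᵐ g ∂(mu n),
    ∫ x in {x : Fin n → Fin n → ℝ | ∀ i j, 0 ≤ x i j ∧ x i j ≤ N}, f (uk k x * g) c = 0

/-- `R` is a system of representatives of the orbits of `SL_n(ℤ)`, acting by left multiplication, on the integral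
matrices of determinant `m`. -/
def IsReps {n : ℕ} (m : ℤ) (R : Finset (MZ n)) : Prop :=
  (∀ β ∈ R, β.det = m) ∧ ∀ β : MZ n, β.det = m → ∃! r : MZ n, r ∈ R ∧ ∃ γ : GZ n, β = (γ : MZ n) * r

/-- The complete homogeneous symmetric polynomial of degree `k` in `α_1, ..., α_n`. -/
def hs {n : ℕ} (α : Fin n → ℂ) (k : ℕ) : ℂ := ∑ s : Sym (Fin n) k, ((s : Multiset (Fin n)).map α).prod

/-- `f` is an eigenfunction of the Hecke operators `T(p^k)`, where `T(p^k)` is the sum over all integral matrices of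
determinant `p^k` modulo `SL_n(ℤ)`, with the Satake parameters `α_j`: the eigenvalue of `T(p^k)` is
`p^(k(n-1)/2) h_k(α)`, i.e. the local factor of the standard `L`-function of `f` at `p` is `∏ (1 - α_j p^(-s))⁻¹`. -/
def IsHecke {n N : ℕ} {H : Subgroup (GN n N)} (p : ℕ) (α : Fin n → ℂ) (f : GR n → XX H → ℂ) : Prop :=
  ∀ (k : ℕ) (R : Finset (MZ n)), IsReps ((p : ℤ) ^ k) R → ∀ (g : GR n) (c : XX H),
    ∑ β ∈ R, f (scl β * g) (rdM N β • c) =
      (((p : ℝ) ^ ((k : ℝ) * ((n : ℝ) - 1) / 2) : ℝ) : ℂ) * hs α k * f g c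

/-- The inner product: the integral over a fundamental domain `F` of `SL_n(ℤ)` and the sum over the level space. -/
def ip {n N : ℕ} [NeZero N] {H : Subgroup (GN n N)} (F : Set (GR n)) (f f' : GR n → XX H → ℂ) : ℂ :=
  ∑' c : XX H, ∫ g in F, f g c * star (f' g c) ∂(mu n)

/-- Square integrability. -/
def IsL2 {n N : ℕ} {H : Subgroup (GN n N)} (F : Set (GR n)) (f : GR n → XX H → ℂ) : Prop :=
  ∀ c, ∫⁻ g in F, ‖f g c‖ₑ ^ 2 ∂(mu n) < ∞

/-- A measurable set `F` of representatives of `SL_n(ℤ) \ SL_n(ℝ)`, up to null sets. -/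
def IsFD {n : ℕ} (F : Set (GR n)) : Prop :=
  MeasurableSet F ∧ (∀ᵐ g ∂(mu n), ∃ γ : GZ n, io n γ * g ∈ F) ∧
    ∀ γ : GZ n, γ ≠ 1 → mu n {g | g ∈ F ∧ io n γ * g ∈ F} = 0

/-- `f` varies slowly: translations by elements of `U` move it by at most half its norm (`f` being of norm one). -/
def IsSlow {n N : ℕ} [NeZero N] {H : Subgroup (GN n N)} (U : Set (GR n)) (F : Set (GR n))
    (f : GR n → XX H → ℂ) : Prop :=
  ∀ u ∈ U, ∑' c : XX H, ∫⁻ g in F, ‖f (g * u) c - f g c‖ₑ ^ 2 ∂(mu n) ≤ ENNReal.ofReal (1 / 4)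

/-- The order of the group `SL_n(ℤ/N)` modulo its intersection with `H`. -/
def ixS {n N : ℕ} (H : Subgroup (GN n N)) : ℕ :=
  (H.comap (Matrix.SpecialLinearGroup.toGL : Matrix.SpecialLinearGroup (Fin n) (ZMod N) →* GN n N)).index

end Pool.Agent.T2h77.N
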