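import Pool.Agent.T2h77N.Stm2
import Pool.Agent.T2h77N.Iw

/-!
# The Gram-Schmidt norms of arbitrary matrices; POLAR and BART combined
-/

set_option autoImplicit false

open MeasureTheory Matrix
open scoped MatrixGroups ENNReal NNReal Topology

noncomputable section

namespace Pool.Agent.T2h77.N

variable {n : ℕ}

theorem gs_smul {t : ℝ} (ht : t ≠ 0) (f : Fin n → EuclideanSpace ℝ (Fin n)) (i : Fin n) :
    InnerProductSpace.gramSchmidt ℝ (fun i => t • f i) i =
      t • InnerProductSpace.gramSchmidt ℝ f i := by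
  induction i using WellFoundedLT.induction with
  | _ i ih =>
    rw [InnerProductSpace.gramSchmidt_def, InnerProductSpace.gramSchmidt_def ℝ f i, smul_sub,
      Finset.smul_sum]
    congr 1
    refine Finset.sum_congr rfl fun j hj => ?_
    rw [ih j (Finset.mem_Iio.mp hj)]
    have h : (ℝ ∙ (t • InnerProductSpace.gramSchmidt ℝ f j)) =
        (ℝ ∙ InnerProductSpace.gramSchmidt ℝ f j) :=
      Submodule.span_singleton_smul_eq (isUnit_iff_ne_zero.mpr ht) _
    rw [Submodule.starProjection_singleton, Submodule.starProjection_singleton, norm_smul,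
      inner_smul_left, inner_smul_right, smul_smul, smul_smul]
    congr 1
    simp only [RCLike.conj_to_real, RCLike.ofReal_real_eq_id, id, Real.norm_eq_abs, mul_pow, sq_abs]
    field_simp

theorem dst_smul {t : ℝ} (ht : 0 < t) (g : GR n) (i : Fin n) :
    dst (fun i j => t * g i j) i = t * ac g i := by
  have h : (fun i => (WithLp.toLp 2 ((fun i j => t * g i j) i) : EuclideanSpace ℝ (Fin n))) =
      fun i => t • row g i := by
    funext i
    rfl
  unfold dst ac gsv
  rw [h, gs_smul ht.ne', norm_smul, Real.norm_of_nonneg ht.le]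

theorem measurable_dst_gs (i : Fin n) : Measurable fun x : Fin n → Fin n → ℝ =>
    InnerProductSpace.gramSchmidt ℝ (fun i => (WithLp.toLp 2 (x i) : EuclideanSpace ℝ (Fin n))) i := by
  induction i using WellFoundedLT.induction with
  | _ i ih =>
    have hr : ∀ i : Fin n, Measurable fun x : Fin n → Fin n → ℝ =>
        (WithLp.toLp 2 (x i) : EuclideanSpace ℝ (Fin n)) := fun i =>
      ((PiLp.continuous_toLp 2 _).comp (continuous_apply i)).measurable
    simp only [InnerProductSpace.gramSchmidt_def ℝ _ i, Submodule.starProjection_singleton]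
    refine (hr i).sub ?_
    refine Finset.measurable_sum _ fun j hj => ?_
    have hj' := ih j (Finset.mem_Iio.mp hj)
    exact (((hj'.inner (hr i)).div ((hj'.norm.pow_const 2)))).smul hj'

theorem measurable_dst : Measurable (dst : (Fin n → Fin n → ℝ) → Fin n → ℝ) :=
  measurable_pi_lambda _ fun i => (measurable_dst_gs i).norm

theorem hsn_sq (g : GR n) : hsn g ^ 2 = ∑ i, ∑ j, g i j ^ 2 := by
  unfold hsn
  rw [Real.sq_sqrt]
  exact Finset.sum_nonneg fun i _ => Finset.sum_nonneg fun j _ => sq_nonneg _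

theorem continuous_hsn : Continuous (hsn : GR n → ℝ) := by
  unfold hsn
  refine Real.continuous_sqrt.comp ?_
  refine continuous_finsetSum _ fun i _ => continuous_finsetSum _ fun j _ => ?_
  have h : Continuous fun g : GR n => g.1 i j := (continuous_apply j).comp
    ((continuous_apply i).comp Matrix.SpecialLinearGroup.isClosedEmbedding_val.continuous)
  exact h.pow 2

theorem bp (hp : S_polar) (hb : S_bart) : ∀ n : ℕ, 1 ≤ n → ∃ c : ℝ, 0 < c ∧
    ∀ F : (Fin n → ℝ) → ℝ≥0∞, Measurable F →
      ∫⁻ y in Set.Ioi (0 : ℝ), ENNReal.ofReal (y ^ (n ^ 2 - 1)) *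
        ∫⁻ g, ENNReal.ofReal (Real.exp (-Real.pi * (y * hsn g) ^ 2)) * F (fun i => y * ac g i) ∂(mu n) =
      ENNReal.ofReal c * ∫⁻ r in {r : Fin n → ℝ | ∀ i, 0 < r i},
        ENNReal.ofReal (Real.exp (-Real.pi * ∑ i, r i ^ 2) * ∏ i, r i ^ (n - 1 - (i : ℕ))) * F r := by
  intro n hn
  obtain ⟨c1, hc1, h1⟩ := hp n hn
  obtain ⟨c2, hc2, h2⟩ := hb n hn
  refine ⟨c1⁻¹ * c2, by positivity, fun F hF => ?_⟩
  have hG : Measurable fun x : Fin n → Fin n → ℝ =>
      ENNReal.ofReal (Real.exp (-Real.pi * ∑ i, ∑ j, x i j ^ 2)) * F (dst x) := by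
    refine Measurable.mul ?_ (hF.comp measurable_dst)
    refine ENNReal.measurable_ofReal.comp (Real.measurable_exp.comp ?_)
    refine Measurable.const_mul ?_ _
    refine Finset.measurable_sum _ fun i _ => Finset.measurable_sum _ fun j _ => ?_
    exact ((measurable_pi_apply j).comp (measurable_pi_apply i)).pow_const 2
  have h3 := h1 _ hG
  rw [h2 F hF] at h3
  have h4 : ∫⁻ y in Set.Ioi (0 : ℝ), ENNReal.ofReal (y ^ (n ^ 2 - 1)) *
        ∫⁻ g, ENNReal.ofReal (Real.exp (-Real.pi * (y * hsn g) ^ 2)) * F (fun i => y * ac g i) ∂(mu n) =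
      ∫⁻ y in Set.Ioi (0 : ℝ), ENNReal.ofReal (y ^ (n ^ 2 - 1)) *
        ∫⁻ g, (fun x : Fin n → Fin n → ℝ =>
          ENNReal.ofReal (Real.exp (-Real.pi * ∑ i, ∑ j, x i j ^ 2)) * F (dst x))
            (fun i j => y * (g : GR n) i j) ∂(mu n) := by
    refine setLIntegral_congr_fun measurableSet_Ioi fun y hy => ?_
    simp only
    congr 1
    refine lintegral_congr fun g => ?_
    have e1 : (y * hsn g) ^ 2 = ∑ i, ∑ j, (y * g i j) ^ 2 := by
      rw [mul_pow, hsn_sq, Finset.mul_sum]
      refine Finset.sum_congr rfl fun i _ => ?_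
      rw [Finset.mul_sum]
      exact Finset.sum_congr rfl fun j _ => by ring
    rw [e1]
    congr 2
    funext i
    exact (dst_smul hy g i).symm
  rw [h4, ENNReal.ofReal_mul (by positivity), mul_assoc, h3, ← mul_assoc, ← ENNReal.ofReal_mul
    (by positivity), inv_mul_cancel₀ hc1.ne', ENNReal.ofReal_one, one_mul]

end Pool.Agent.T2h77.N
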