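import Pool.Agent.T2h77N.Stm

/-!
# Integral vectors and the group `SL(ℤ)`
-/

set_option autoImplicit false

open Matrix
open scoped MatrixGroups

namespace Pool.Agent.T2h77.N

section

variable {ι : Type} [Fintype ι] [DecidableEq ι]

/-- transvections -/
def tvI (i j : ι) (h : i ≠ j) (t : ℤ) : Matrix.SpecialLinearGroup ι ℤ :=
  ⟨Matrix.transvection i j t, Matrix.det_transvection_of_ne i j h t⟩

theorem tvI_mulVec (i j : ι) (h : i ≠ j) (t : ℤ) (w : ι → ℤ) :
    (tvI i j h t).1 *ᵥ w = Function.update w i (w i + t * w j) := by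
  ext k
  simp only [tvI, Matrix.transvection, Matrix.add_mulVec, Matrix.one_mulVec, Pi.add_apply]
  by_cases hk : k = i
  · subst hk
    simp [Matrix.mulVec, dotProduct, Matrix.single_apply]
  · simp [Matrix.mulVec, dotProduct, Function.update_of_ne hk, Ne.symm hk]

theorem exists_single_aux (i0 : ι) : ∀ (N : ℕ) (w : ι → ℤ), ∑ i, (w i).natAbs ≤ N →
    ∃ (g : Matrix.SpecialLinearGroup ι ℤ) (d : ℤ), g.1 *ᵥ w = Pi.single i0 d := by
  intro N
  induction N with
  | zero =>
    intro w hw
    have h0 : ∑ i, (w i).natAbs = 0 := Nat.le_zero.mp hw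
    refine ⟨1, 0, ?_⟩
    have : w = 0 := by
      ext i
      have := (Finset.sum_eq_zero_iff.mp h0) i (Finset.mem_univ i)
      simpa using this
    rw [this]
    simp
  | succ N ih =>
    intro w hw
    by_cases h1 : ∃ i j, i ≠ j ∧ w i ≠ 0 ∧ w j ≠ 0
    · obtain ⟨i, j, hij, hi, hj⟩ := h1
      -- order them
      have key : ∀ i j, i ≠ j → w i ≠ 0 → w j ≠ 0 → (w j).natAbs ≤ (w i).natAbs →
          ∃ (g : Matrix.SpecialLinearGroup ι ℤ) (d : ℤ), g.1 *ᵥ w = Pi.single i0 d := by
        intro i j hij hi hj hle
        obtain ⟨t, ht⟩ : ∃ t : ℤ, (w i + t * w j).natAbs < (w i).natAbs := by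
          rcases lt_or_gt_of_ne hi with h | h <;> rcases lt_or_gt_of_ne hj with h' | h'
          · exact ⟨-1, by omega⟩
          · exact ⟨1, by omega⟩
          · exact ⟨1, by omega⟩
          · exact ⟨-1, by omega⟩
        have hlt : ∑ k, (Function.update w i (w i + t * w j) k).natAbs < ∑ k, (w k).natAbs := by
          apply Finset.sum_lt_sum
          · intro k _
            by_cases hk : k = i
            · subst hk
              rw [Function.update_self]
              exact ht.le
            · rw [Function.update_of_ne hk]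
          · exact ⟨i, Finset.mem_univ i, by rw [Function.update_self]; exact ht⟩
        obtain ⟨g, d, hg⟩ := ih (Function.update w i (w i + t * w j)) (by omega)
        refine ⟨g * tvI i j hij t, d, ?_⟩
        rw [Matrix.SpecialLinearGroup.coe_mul, ← Matrix.mulVec_mulVec, tvI_mulVec, hg]
      rcases le_total (w j).natAbs (w i).natAbs with h | h
      · exact key i j hij hi hj h
      · exact key j i hij.symm hj hi h
    · push Not at h1
      by_cases h2 : ∃ i, w i ≠ 0
      · obtain ⟨i, hi⟩ := h2
        have hw' : w = Pi.single i (w i) := by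
          ext k
          by_cases hk : k = i
          · subst hk
            simp
          · rw [Pi.single_eq_of_ne hk]
            by_contra h
            exact hi (h1 k i hk h)
        by_cases hi0 : i = i0
        · subst hi0
          exact ⟨1, w i, by simpa using hw'⟩
        · refine ⟨tvI i i0 hi0 (-1) * tvI i0 i (Ne.symm hi0) 1, w i, ?_⟩
          rw [Matrix.SpecialLinearGroup.coe_mul, ← Matrix.mulVec_mulVec, tvI_mulVec, tvI_mulVec]
          have hz : w i0 = 0 := by
            rw [hw', Pi.single_eq_of_ne (Ne.symm hi0)]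
          ext k
          by_cases hk : k = i
          · subst hk
            simp [Function.update_of_ne hi0, Pi.single_eq_of_ne hi0, hz]
          · rw [Function.update_of_ne hk]
            by_cases hk0 : k = i0
            · subst hk0
              simp [hz]
            · rw [Function.update_of_ne hk0, Pi.single_eq_of_ne hk0, hw', Pi.single_eq_of_ne hk]
      · push Not at h2
        refine ⟨1, 0, ?_⟩
        have : w = 0 := by
          ext i
          simpa using h2 i
        rw [this]
        simp

theorem exists_single (i0 : ι) (w : ι → ℤ) :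
    ∃ (g : Matrix.SpecialLinearGroup ι ℤ) (d : ℤ), g.1 *ᵥ w = Pi.single i0 d :=
  exists_single_aux i0 _ w le_rfl

/-- every integral vector is a multiple of the image of a unit vector under `SL(ℤ)` -/
theorem exists_col (i0 : ι) (w : ι → ℤ) :
    ∃ (g : Matrix.SpecialLinearGroup ι ℤ) (d : ℤ), w = g.1 *ᵥ Pi.single i0 d := by
  obtain ⟨g, d, h⟩ := exists_single i0 w
  refine ⟨g⁻¹, d, ?_⟩
  rw [← h, Matrix.mulVec_mulVec, ← Matrix.SpecialLinearGroup.coe_mul]
  simp

theorem exists_row (i0 : ι) (w : ι → ℤ) :
    ∃ (g : Matrix.SpecialLinearGroup ι ℤ) (d : ℤ), w = Pi.single i0 d ᵥ* g.1 := by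
  obtain ⟨g, d, h⟩ := exists_col i0 w
  refine ⟨g.transpose, d, ?_⟩
  rw [h, Matrix.SpecialLinearGroup.coe_transpose, Matrix.vecMul_transpose]

end

end Pool.Agent.T2h77.N
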