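import Pool.Agent.T2h77N.Stm2
import Pool.Agent.T2h77N.Iw

/-!
# The Hilbert-Schmidt norm on `SL_n(ℝ)`
-/

set_option autoImplicit false

open MeasureTheory Matrix
open scoped MatrixGroups ENNReal Topology

noncomputable section

namespace Pool.Agent.T2h77.N

theorem hsq_cont {n : ℕ} : Continuous fun g : GR n => ∑ i, ∑ j, (g : GR n) i j ^ 2 := by
  refine continuous_finsetSum _ fun i _ => continuous_finsetSum _ fun j _ => ?_
  have h1 : Continuous fun g : GR n => (g : Matrix (Fin n) (Fin n) ℝ) := continuous_subtype_val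
  have h2 : Continuous fun g : GR n => (g : Matrix (Fin n) (Fin n) ℝ) i j := h1.matrix_elem i j
  exact h2.pow 2

theorem hsq_nonneg {n : ℕ} (g : GR n) : 0 ≤ ∑ i, ∑ j, g i j ^ 2 :=
  Finset.sum_nonneg fun _ _ => Finset.sum_nonneg fun _ _ => sq_nonneg _

theorem hsn_cont {n : ℕ} : Continuous fun g : GR n => hsn g := Real.continuous_sqrt.comp hsq_cont

theorem hsn_nonneg {n : ℕ} (g : GR n) : 0 ≤ hsn g := Real.sqrt_nonneg _

theorem hsn_sq {n : ℕ} (g : GR n) : hsn g ^ 2 = ∑ i, ∑ j, g i j ^ 2 := Real.sq_sqrt (hsq_nonneg g)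

theorem hsq_trace {n : ℕ} (A : Matrix (Fin n) (Fin n) ℝ) : ∑ i, ∑ j, A i j ^ 2 = (A * Aᵀ).trace := by
  simp only [Matrix.trace, Matrix.diag_apply, Matrix.mul_apply, Matrix.transpose_apply]
  exact Finset.sum_congr rfl fun i _ => Finset.sum_congr rfl fun j _ => sq _

theorem hsn_left {n : ℕ} (k h : GR n) (hk : IsOrth k) : hsn (k * h) = hsn h := by
  have h1 : (k * h).1 = k.1 * h.1 := rfl
  have h2 : k.1ᵀ * k.1 = 1 := mul_eq_one_comm.mp hk
  unfold hsn
  congr 1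
  have e1 := hsq_trace (k * h).1
  have e2 := hsq_trace h.1
  refine e1.trans (Eq.trans ?_ e2.symm)
  rw [h1, Matrix.transpose_mul, Matrix.mul_assoc, Matrix.trace_mul_comm, Matrix.mul_assoc, Matrix.mul_assoc, h2,
    Matrix.mul_one]

theorem hsn_right {n : ℕ} (k h : GR n) (hk : IsOrth k) : hsn (h * k) = hsn h := by
  have h1 : (h * k).1 = h.1 * k.1 := rfl
  have h2 : k.1 * k.1ᵀ = 1 := hk
  unfold hsn
  congr 1
  have e1 := hsq_trace (h * k).1
  have e2 := hsq_trace h.1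
  refine e1.trans (Eq.trans ?_ e2.symm)
  rw [h1, Matrix.transpose_mul, Matrix.mul_assoc, ← Matrix.mul_assoc k.1, h2, Matrix.one_mul]

theorem entry_le_hsn {n : ℕ} (g : GR n) (i j : Fin n) : |g i j| ≤ hsn g := by
  unfold hsn
  rw [← Real.sqrt_sq_eq_abs]
  apply Real.sqrt_le_sqrt
  calc g i j ^ 2 ≤ ∑ j, g i j ^ 2 := Finset.single_le_sum (f := fun j => g i j ^ 2) (fun _ _ => sq_nonneg _) (Finset.mem_univ j)
    _ ≤ _ := Finset.single_le_sum (f := fun i => ∑ j, g i j ^ 2) (fun _ _ => Finset.sum_nonneg fun _ _ => sq_nonneg _) (Finset.mem_univ i)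

theorem hsn_compact {n : ℕ} (R : ℝ) : IsCompact {g : GR n | hsn g ≤ R} := by
  have hce : Topology.IsClosedEmbedding (Subtype.val : GR n → Matrix (Fin n) (Fin n) ℝ) :=
    Matrix.SpecialLinearGroup.isClosedEmbedding_val
  have h1 : IsCompact (Set.pi Set.univ fun _ : Fin n => Set.pi Set.univ fun _ : Fin n => Set.Icc (-R) R :
      Set (Fin n → Fin n → ℝ)) :=
    isCompact_univ_pi fun _ => isCompact_univ_pi fun _ => isCompact_Icc
  have h2 : IsCompact ((Subtype.val : GR n → Matrix (Fin n) (Fin n) ℝ) ⁻¹'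
      (Set.pi Set.univ fun _ : Fin n => Set.pi Set.univ fun _ : Fin n => Set.Icc (-R) R)) :=
    hce.isCompact_preimage h1
  refine h2.of_isClosed_subset (isClosed_le hsn_cont continuous_const) ?_
  intro g hg i _ j _
  have := (entry_le_hsn g i j).trans hg
  exact abs_le.mp this

theorem norm_gsv_le {n : ℕ} (g : GR n) (i : Fin n) : ac g i ^ 2 ≤ ∑ j, g i j ^ 2 := by
  have h1 : inner ℝ (gsv g i) (row g i) = ac g i ^ 2 := by
    rw [iw_rec g i, inner_add_right, inner_sum, Finset.sum_eq_zero, add_zero, real_inner_self_eq_norm_sq]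
    · rfl
    · intro j hj
      rw [inner_smul_right, iw_orth g (Finset.mem_Iio.mp hj).ne', mul_zero]
  have h2 : ac g i ^ 2 ≤ ac g i * ‖row g i‖ := by
    rw [← h1]; exact real_inner_le_norm _ _
  have h3 : ac g i ≤ ‖row g i‖ := by
    have := iw_ac_pos g i
    nlinarith
  have h4 : ‖row g i‖ ^ 2 = ∑ j, g i j ^ 2 := by
    rw [EuclideanSpace.norm_sq_eq]
    exact Finset.sum_congr rfl fun j _ => by
      rw [iw_row_apply, Real.norm_eq_abs, sq_abs]
  rw [← h4]
  exact pow_le_pow_left₀ (iw_ac_pos g i).le h3 2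

theorem sum_ac_sq_le {n : ℕ} (g : GR n) : ∑ i, ac g i ^ 2 ≤ hsn g ^ 2 := by
  rw [hsn_sq]
  exact Finset.sum_le_sum fun i _ => norm_gsv_le g i

theorem ac_le_hsn {n : ℕ} (g : GR n) (i : Fin n) : ac g i ≤ hsn g := by
  have h1 : ac g i ^ 2 ≤ hsn g ^ 2 :=
    (Finset.single_le_sum (f := fun i => ac g i ^ 2) (fun _ _ => sq_nonneg _) (Finset.mem_univ i)).trans
      (sum_ac_sq_le g)
  exact (abs_le_of_sq_le_sq' h1 (hsn_nonneg g)).2

theorem le_sum_ac {n : ℕ} (g : GR n) : (n : ℝ) ≤ ∑ i, ac g i := by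
  have h1 : ∀ i, 1 + Real.log (ac g i) ≤ ac g i := fun i => by
    have := Real.log_le_sub_one_of_pos (iw_ac_pos g i)
    linarith
  have h2 : ∑ i : Fin n, (1 + Real.log (ac g i)) ≤ ∑ i, ac g i := Finset.sum_le_sum fun i _ => h1 i
  have h3 : ∑ i, Real.log (ac g i) = 0 := by
    rw [← Real.log_prod (fun i _ => (iw_ac_pos g i).ne'), iw_prod_ac, Real.log_one]
  rw [Finset.sum_add_distrib, h3] at h2
  simpa using h2

theorem sum_sub_one_sq_le {n : ℕ} (g : GR n) : ∑ i, (ac g i - 1) ^ 2 ≤ hsn g ^ 2 - n := by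
  have h1 := sum_ac_sq_le g
  have h2 := le_sum_ac g
  have h3 : ∑ i, (ac g i - 1) ^ 2 = ∑ i, ac g i ^ 2 - 2 * ∑ i, ac g i + n := by
    have : ∀ i, (ac g i - 1) ^ 2 = ac g i ^ 2 - 2 * ac g i + 1 := fun i => by ring
    simp only [this, Finset.sum_add_distrib, Finset.sum_sub_distrib, ← Finset.mul_sum]
    simp
  rw [h3]; linarith

theorem n_le_hsn_sq {n : ℕ} (g : GR n) : (n : ℝ) ≤ hsn g ^ 2 := by
  have h1 := sum_sub_one_sq_le g
  have h2 : 0 ≤ ∑ i, (ac g i - 1) ^ 2 := Finset.sum_nonneg fun _ _ => sq_nonneg _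
  linarith

theorem one_le_hsn {n : ℕ} (hn : 1 ≤ n) (g : GR n) : 1 ≤ hsn g := by
  have h1 := n_le_hsn_sq g
  have h2 : (1 : ℝ) ≤ n := by exact_mod_cast hn
  have h3 := hsn_nonneg g
  nlinarith

theorem hsn_one {n : ℕ} : hsn (1 : GR n) ^ 2 = n := by
  rw [hsn_sq]
  have : ∀ i : Fin n, ∑ j, (1 : GR n) i j ^ 2 = 1 := by
    intro i
    rw [Finset.sum_eq_single i]
    · simp
    · intro j _ hj
      simp [Matrix.one_apply_ne (Ne.symm hj)]
    · simp
  rw [Finset.sum_congr rfl fun i _ => this i]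
  simp

theorem psi_meas {n : ℕ} (ν : Fin n → ℂ) : Measurable fun g : GR n => psi ν g := by
  unfold psi
  refine Finset.measurable_prod _ fun i _ => ?_
  exact (Complex.measurable_ofReal.comp (iw_measurable_ac i)).pow_const _

/-- `psi` is an exponential -/
theorem psi_exp {n : ℕ} (ν : Fin n → ℂ) (g : GR n) :
    psi ν g = Complex.exp (∑ i, (Real.log (ac g i) : ℂ) * (ν i + (((2 * (i : ℕ) : ℝ) - n + 1) / 2 : ℝ))) := by
  unfold psi
  rw [Complex.exp_sum]
  refine Finset.prod_congr rfl fun i _ => ?_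
  rw [Complex.cpow_def_of_ne_zero (by exact_mod_cast (iw_ac_pos g i).ne'), Complex.ofReal_log (iw_ac_pos g i).le]

end Pool.Agent.T2h77.N
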