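import Pool.Agent.T2h77N.Hsn

/-!
# The test functions for the infinite place: auxiliary facts
-/

set_option autoImplicit false

open MeasureTheory Matrix
open scoped MatrixGroups ENNReal Topology

noncomputable section

namespace Pool.Agent.T2h77.N

/-! ### The weights -/

theorem iter_supp {w : ℝ → ℝ} (hw : ∀ u, w u ≠ 0 → 0 ≤ u ∧ u ≤ 1) (k : ℕ) (u : ℝ)
    (h : iteratedDeriv k w u ≠ 0) : 0 ≤ u ∧ u ≤ 1 := by
  have h1 : iteratedFDeriv ℝ k w u ≠ 0 := fun h0 => h (by rw [iteratedDeriv_eq_iteratedFDeriv, h0]; simp)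
  have h2 : u ∈ tsupport w := support_iteratedFDeriv_subset (𝕜 := ℝ) k h1
  have h3 : tsupport w ⊆ Set.Icc 0 1 := closure_minimal (fun u hu => hw u hu) isClosed_Icc
  exact h3 h2

theorem iter_bound {w : ℝ → ℝ} (hc : ContDiff ℝ (⊤ : ℕ∞) w) (hw : ∀ u, w u ≠ 0 → 0 ≤ u ∧ u ≤ 1) (k : ℕ) :
    ∃ A : ℝ, 0 ≤ A ∧ ∀ u, |iteratedDeriv k w u| ≤ A := by
  have h1 : Continuous (iteratedDeriv k w) := hc.continuous_iteratedDeriv k (by exact_mod_cast le_top)
  have h2 : HasCompactSupport (iteratedDeriv k w) := by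
    refine HasCompactSupport.intro (isCompact_Icc (a := (0 : ℝ)) (b := 1)) fun u hu => ?_
    by_contra hne
    exact hu (iter_supp hw k u hne)
  obtain ⟨A, hA⟩ := h2.exists_bound_of_continuous h1
  exact ⟨A, (norm_nonneg _).trans (hA 0), hA⟩

theorem wk_supp {n : ℕ} (hn : 1 ≤ n) {w : ℝ → ℝ} (hw : ∀ u, w u ≠ 0 → 0 ≤ u ∧ u ≤ 1) {k : ℕ} {s y : ℝ}
    (h : wk n w k s y ≠ 0) : Real.exp (-s / n) ≤ y ∧ y ≤ Real.exp ((1 - s) / n) := by
  have hn' : (0 : ℝ) < n := by exact_mod_cast hn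
  unfold wk at h
  by_cases hy : 0 < y
  · rw [if_pos hy] at h
    obtain ⟨h1, h2⟩ := iter_supp hw k _ h
    rw [← Real.le_log_iff_exp_le hy, ← Real.log_le_iff_le_exp hy, div_le_iff₀ hn', le_div_iff₀ hn']
    constructor <;> linarith
  · rw [if_neg hy] at h
    exact absurd rfl h

theorem wk_cont {n : ℕ} (hn : 1 ≤ n) {w : ℝ → ℝ} (hc : ContDiff ℝ (⊤ : ℕ∞) w)
    (hw : ∀ u, w u ≠ 0 → 0 ≤ u ∧ u ≤ 1) (k : ℕ) (s : ℝ) : Continuous (wk n w k s) := by
  rw [continuous_iff_continuousAt]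
  intro y
  by_cases hy : 0 < y
  · have h1 : wk n w k s =ᶠ[𝓝 y] fun y => iteratedDeriv k w (n * Real.log y + s) := by
      filter_upwards [lt_mem_nhds hy] with z hz
      exact if_pos hz
    rw [continuousAt_congr h1]
    have h2 : Continuous (iteratedDeriv k w) := hc.continuous_iteratedDeriv k (by exact_mod_cast le_top)
    exact h2.continuousAt.comp_of_eq ((continuousAt_const.mul (Real.continuousAt_log hy.ne')).add continuousAt_const) rfl
  · have h0 : y < Real.exp (-s / n) := lt_of_le_of_lt (not_lt.mp hy) (Real.exp_pos _)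
    have h1 : wk n w k s =ᶠ[𝓝 y] fun _ => 0 := by
      filter_upwards [gt_mem_nhds h0] with z hz
      by_contra hne
      exact absurd (wk_supp hn hw hne).1 (not_le.mpr hz)
    rw [continuousAt_congr h1]
    exact continuousAt_const

/-! ### The kernel -/

/-- the kernel as a function of the norm -/
def KK (m : ℝ) (W : ℝ → ℝ) (t : ℝ) : ℝ :=
  ∫ y in Set.Ioi (0 : ℝ), Real.exp (-Real.pi * (y * t) ^ 2) * y ^ (m - 1) * W y

theorem KK_int {m y0 y1 : ℝ} (h0 : 0 < y0) {W : ℝ → ℝ} (hWc : Continuous W)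
    (hW : ∀ y, W y ≠ 0 → y0 ≤ y ∧ y ≤ y1) (t : ℝ) :
    IntegrableOn (fun y => Real.exp (-Real.pi * (y * t) ^ 2) * y ^ (m - 1) * W y) (Set.Ioi 0) := by
  have h1 : IntegrableOn (fun y => Real.exp (-Real.pi * (y * t) ^ 2) * y ^ (m - 1) * W y) (Set.Icc y0 y1) := by
    refine ContinuousOn.integrableOn_compact isCompact_Icc ?_
    refine ContinuousOn.mul (ContinuousOn.mul (by fun_prop) ?_) hWc.continuousOn
    intro y hy
    exact (Real.continuousAt_rpow_const y (m - 1) (Or.inl (lt_of_lt_of_le h0 hy.1).ne')).continuousWithinAt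
  refine h1.of_forall_sdiff_eq_zero measurableSet_Ioi fun y hy => ?_
  have : W y = 0 := by
    by_contra hne
    exact hy.2 (hW y hne)
  rw [this, mul_zero]

theorem KK_cont {m y0 y1 : ℝ} (h0 : 0 < y0) {W : ℝ → ℝ} (hWc : Continuous W)
    (hW : ∀ y, W y ≠ 0 → y0 ≤ y ∧ y ≤ y1) : Continuous (KK m W) := by
  unfold KK
  have hb := (KK_int (m := m) h0 hWc hW 0).norm
  refine continuous_of_dominated (bound := fun y => ‖Real.exp (-Real.pi * (y * 0) ^ 2) * y ^ (m - 1) * W y‖)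
    (fun t => (KK_int h0 hWc hW t).1) (fun t => ?_) hb ?_
  · refine Filter.Eventually.of_forall fun y => ?_
    rw [mul_assoc, mul_assoc, norm_mul, norm_mul (Real.exp (-Real.pi * (y * 0) ^ 2))]
    refine mul_le_mul_of_nonneg_right ?_ (norm_nonneg _)
    rw [Real.norm_eq_abs, Real.norm_eq_abs, Real.abs_exp, Real.abs_exp]
    apply Real.exp_le_exp.mpr
    have := Real.pi_pos
    have h2 : 0 ≤ Real.pi * (y * t) ^ 2 := by positivity
    simp only [mul_zero, ne_eq, OfNat.ofNat_ne_zero, not_false_eq_true, zero_pow]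
    linarith
  · refine Filter.Eventually.of_forall fun y => ?_
    fun_prop

theorem KK_bound {m y0 y1 A : ℝ} (hm : 0 ≤ m) (h0 : 0 < y0) (h01 : y0 ≤ y1) (hA : 0 ≤ A) {W : ℝ → ℝ}
    (hW : ∀ y, W y ≠ 0 → y0 ≤ y ∧ y ≤ y1) (hWA : ∀ y, |W y| ≤ A) (t : ℝ) :
    |KK m W t| ≤ A * (y1 / y0) ^ (m + 1) * y0 ^ m * Real.exp (-Real.pi * (y0 * t) ^ 2) := by
  have hy1 : 0 < y1 := h0.trans_le h01
  have hK : KK m W t = ∫ y in Set.Icc y0 y1, Real.exp (-Real.pi * (y * t) ^ 2) * y ^ (m - 1) * W y := by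
    unfold KK
    refine setIntegral_eq_of_subset_of_forall_sdiff_eq_zero measurableSet_Ioi
      (fun y hy => lt_of_lt_of_le h0 hy.1) fun y hy => ?_
    have : W y = 0 := by
      by_contra hne
      exact hy.2 (hW y hne)
    rw [this, mul_zero]
  rw [hK]
  have h1 := norm_setIntegral_le_of_norm_le_const (μ := volume) (s := Set.Icc y0 y1)
    (f := fun y => Real.exp (-Real.pi * (y * t) ^ 2) * y ^ (m - 1) * W y)
    (C := Real.exp (-Real.pi * (y0 * t) ^ 2) * (y1 ^ m / y0) * A) isCompact_Icc.measure_lt_top (fun y hy => by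
      have hy0 : 0 < y := lt_of_lt_of_le h0 hy.1
      rw [norm_mul, norm_mul, Real.norm_eq_abs, Real.norm_eq_abs, Real.norm_eq_abs, Real.abs_exp,
        abs_of_nonneg (Real.rpow_nonneg hy0.le _)]
      refine mul_le_mul (mul_le_mul ?_ ?_ (Real.rpow_nonneg hy0.le _) (Real.exp_pos _).le) (hWA y) (abs_nonneg _)
        (by positivity)
      · apply Real.exp_le_exp.mpr
        have h2 : (y0 * t) ^ 2 ≤ (y * t) ^ 2 := by
          rw [mul_pow, mul_pow]
          exact mul_le_mul_of_nonneg_right (pow_le_pow_left₀ h0.le hy.1 2) (sq_nonneg _)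
        have := Real.pi_pos
        nlinarith
      · rw [Real.rpow_sub_one hy0.ne']
        exact div_le_div₀ (by positivity) (Real.rpow_le_rpow hy0.le hy.2 hm) h0 hy.1)
  rw [Real.norm_eq_abs] at h1
  refine h1.trans ?_
  have h2 : (volume : Measure ℝ).real (Set.Icc y0 y1) ≤ y1 := by
    rw [Real.volume_real_Icc_of_le h01]
    linarith
  calc Real.exp (-Real.pi * (y0 * t) ^ 2) * (y1 ^ m / y0) * A * (volume : Measure ℝ).real (Set.Icc y0 y1)
      ≤ Real.exp (-Real.pi * (y0 * t) ^ 2) * (y1 ^ m / y0) * A * y1 := by gcongr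
    _ = A * (y1 / y0) ^ (m + 1) * y0 ^ m * Real.exp (-Real.pi * (y0 * t) ^ 2) := by
        rw [Real.div_rpow hy1.le h0.le, Real.rpow_add_one hy1.ne', Real.rpow_add_one h0.ne']
        have : y0 ^ m ≠ 0 := (Real.rpow_pos_of_pos h0 m).ne'
        field_simp

/-! ### The spherical vector -/

theorem log_ac_le {n : ℕ} (g : GR n) (hn : 1 ≤ n) (i : Fin n) : |Real.log (ac g i)| ≤ n * Real.log (hsn g) := by
  have h1 : ∀ j, Real.log (ac g j) ≤ Real.log (hsn g) := fun j =>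
    Real.log_le_log (iw_ac_pos g j) (ac_le_hsn g j)
  have h0 : 0 ≤ Real.log (hsn g) := Real.log_nonneg (one_le_hsn hn g)
  have h3 : ∑ i, Real.log (ac g i) = 0 := by
    rw [← Real.log_prod (fun i _ => (iw_ac_pos g i).ne'), iw_prod_ac, Real.log_one]
  have h4 : Real.log (hsn g) - Real.log (ac g i) ≤ ∑ j, (Real.log (hsn g) - Real.log (ac g j)) :=
    Finset.single_le_sum (f := fun j => Real.log (hsn g) - Real.log (ac g j))
      (fun j _ => sub_nonneg.mpr (h1 j)) (Finset.mem_univ i)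
  rw [Finset.sum_sub_distrib, h3, Finset.sum_const, Finset.card_univ, Fintype.card_fin, nsmul_eq_mul] at h4
  have h5 : (1 : ℝ) ≤ n := by exact_mod_cast hn
  rw [abs_le]
  constructor
  · linarith
  · nlinarith [h1 i]

theorem psi_bound {n : ℕ} (hn : 1 ≤ n) {T : ℝ} {K : ℕ} (hK : n * (n * (T + n + 1)) ≤ K)
    (ν : Fin n → ℂ) (hν : ∀ i, ‖ν i‖ ≤ T) (g : GR n) : ‖psi ν g‖ ≤ hsn g ^ K := by
  have hT : 0 ≤ T := (norm_nonneg _).trans (hν ⟨0, hn⟩)
  have hh := one_le_hsn hn g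
  have hl : 0 ≤ Real.log (hsn g) := Real.log_nonneg hh
  rw [psi_exp, Complex.norm_exp]
  have h1 : (∑ i, (Real.log (ac g i) : ℂ) * (ν i + (((2 * (i : ℕ) : ℝ) - n + 1) / 2 : ℝ))).re ≤
      K * Real.log (hsn g) := by
    calc (∑ i, (Real.log (ac g i) : ℂ) * (ν i + (((2 * (i : ℕ) : ℝ) - n + 1) / 2 : ℝ))).re
        ≤ ‖∑ i, (Real.log (ac g i) : ℂ) * (ν i + (((2 * (i : ℕ) : ℝ) - n + 1) / 2 : ℝ))‖ := Complex.re_le_norm _
      _ ≤ ∑ i, ‖(Real.log (ac g i) : ℂ) * (ν i + (((2 * (i : ℕ) : ℝ) - n + 1) / 2 : ℝ))‖ := norm_sum_le _ _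
      _ ≤ ∑ i : Fin n, (n * Real.log (hsn g)) * (T + n + 1) := by
          refine Finset.sum_le_sum fun i _ => ?_
          rw [norm_mul, Complex.norm_real, Real.norm_eq_abs]
          refine mul_le_mul (log_ac_le g hn i) ?_ (norm_nonneg _) (by positivity)
          refine (norm_add_le _ _).trans ?_
          rw [Complex.norm_real, Real.norm_eq_abs]
          have h3 : |((2 * (i : ℕ) : ℝ) - n + 1) / 2| ≤ n + 1 := by
            have h4 : ((i : ℕ) : ℝ) ≤ n := by exact_mod_cast i.2.le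
            have h5 : (0 : ℝ) ≤ ((i : ℕ) : ℝ) := by positivity
            rw [abs_le]
            constructor <;> linarith
          linarith [hν i]
      _ = (n * (n * (T + n + 1))) * Real.log (hsn g) := by
          rw [Finset.sum_const, Finset.card_univ, Fintype.card_fin, nsmul_eq_mul]
          ring
      _ ≤ K * Real.log (hsn g) := by gcongr
  have h2 : hsn g ^ K = Real.exp (K * Real.log (hsn g)) := by
    rw [← Real.log_pow, Real.exp_log (by positivity)]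
  rw [h2]
  exact Real.exp_le_exp.mpr h1

/-! ### Abstract truncation -/

theorem trunc_abs {α : Type*} [MeasurableSpace α] {μ : Measure α} {P : α → ℂ} {k θ : α → ℝ} {E L : ℝ}
    {b : α → ℝ} (hPk : Integrable (fun a => P a * (k a : ℂ)) μ) (hθm : Measurable θ) (hθ0 : ∀ a, 0 ≤ θ a)
    (hθ1 : ∀ a, θ a ≤ 1) (hE : 0 ≤ E) (hb : ∀ a, ‖P a‖ * |k a| * (1 - θ a) ≤ b a)
    (hbE : ∫⁻ a, ENNReal.ofReal (b a) ∂μ ≤ ENNReal.ofReal E) (hL : L ≤ ‖∫ a, P a * (k a : ℂ) ∂μ‖) :
    L - E ≤ ‖∫ a, P a * ((k a * θ a : ℝ) : ℂ) ∂μ‖ := by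
  have hi : Integrable (fun a => P a * (k a : ℂ) * ((1 - θ a : ℝ) : ℂ)) μ := by
    refine hPk.mul_bdd (c := 1) ?_ ?_
    · exact (Complex.measurable_ofReal.comp (measurable_const.sub hθm)).aestronglyMeasurable
    · refine Filter.Eventually.of_forall fun a => ?_
      rw [Complex.norm_real, Real.norm_eq_abs, abs_of_nonneg (by linarith [hθ1 a])]
      linarith [hθ0 a]
  have hsplit : ∫ a, P a * ((k a * θ a : ℝ) : ℂ) ∂μ =
      ∫ a, P a * (k a : ℂ) ∂μ - ∫ a, P a * (k a : ℂ) * ((1 - θ a : ℝ) : ℂ) ∂μ := by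
    rw [← integral_sub hPk hi]
    congr 1
    funext a
    push_cast
    ring
  have h1 : ‖∫ a, P a * (k a : ℂ) * ((1 - θ a : ℝ) : ℂ) ∂μ‖ₑ ≤ ENNReal.ofReal E := by
    refine (enorm_integral_le_lintegral_enorm _).trans (le_trans ?_ hbE)
    refine lintegral_mono fun a => ?_
    rw [← ofReal_norm]
    apply ENNReal.ofReal_le_ofReal
    rw [norm_mul, norm_mul, Complex.norm_real, Complex.norm_real, Real.norm_eq_abs, Real.norm_eq_abs,
      abs_of_nonneg (a := 1 - θ a) (by linarith [hθ1 a])]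
    exact hb a
  rw [← ofReal_norm, ENNReal.ofReal_le_ofReal_iff hE] at h1
  rw [hsplit]
  have h2 := norm_sub_norm_le (∫ a, P a * (k a : ℂ) ∂μ) (∫ a, P a * (k a : ℂ) * ((1 - θ a : ℝ) : ℂ) ∂μ)
  linarith

theorem sq_abs_int {α : Type*} [MeasurableSpace α] {μ : Measure α} {f : α → ℝ} {b : α → ℝ} {E : ℝ} (hE : 0 ≤ E)
    (hf : AEStronglyMeasurable (fun a => f a ^ 2) μ)
    (hb : ∀ a, f a ^ 2 ≤ b a) (hbE : ∫⁻ a, ENNReal.ofReal (b a) ∂μ ≤ ENNReal.ofReal E) :
    ∫ a, f a ^ 2 ∂μ ≤ E := by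
  rw [integral_eq_lintegral_of_nonneg_ae (Filter.Eventually.of_forall fun a => sq_nonneg (f a)) hf]
  refine ENNReal.toReal_le_of_le_ofReal hE (le_trans (lintegral_mono fun a => ?_) hbE)
  exact ENNReal.ofReal_le_ofReal (hb a)

/-- the cutoff -/
def thK (t : ℝ) : ℝ := max 0 (min 1 (2 - t))

theorem thK_cont : Continuous thK := by
  unfold thK
  fun_prop

theorem thK_nonneg (t : ℝ) : 0 ≤ thK t := le_max_left _ _

theorem thK_le (t : ℝ) : thK t ≤ 1 := max_le zero_le_one (min_le_left _ _)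

theorem thK_one {t : ℝ} (h : t ≤ 1) : thK t = 1 := by
  unfold thK
  rw [min_eq_left (by linarith), max_eq_right zero_le_one]

theorem thK_zero {t : ℝ} (h : 2 ≤ t) : thK t = 0 := by
  unfold thK
  exact max_eq_left (min_le_of_right_le (by linarith))

end Pool.Agent.T2h77.N
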