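import Pool.Agent.T2h77N.Stm2

/-!
# The lower bound for the archimedean local integral: one-dimensional facts
-/

set_option autoImplicit false

open MeasureTheory

noncomputable section

namespace Pool.Agent.T2h77.N.Lb

/-- the one-dimensional weight `exp (z b - π e^(2b))` -/
def E (z : ℂ) (b : ℝ) : ℂ := Complex.exp (z * b - Real.pi * Real.exp (2 * b))

theorem norm_E (z : ℂ) (b : ℝ) : ‖E z b‖ = Real.exp (z.re * b - Real.pi * Real.exp (2 * b)) := by
  rw [E, Complex.norm_exp]
  congr 1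
  rw [Complex.sub_re, Complex.re_mul_ofReal, Complex.re_ofReal_mul, Complex.ofReal_re]

theorem E_cont (z : ℂ) : Continuous (E z) := by
  unfold E
  fun_prop

theorem integrable_real (x : ℝ) (hx : 0 < x) :
    Integrable (fun b : ℝ => Real.exp (x * b - Real.pi * Real.exp (2 * b))) := by
  have hc : Continuous (fun b : ℝ => Real.exp (x * b - Real.pi * Real.exp (2 * b))) := by fun_prop
  rw [← integrableOn_univ, ← Set.Iic_union_Ioi (a := (0 : ℝ))]
  refine IntegrableOn.union ?_ ?_
  · have h1 : IntegrableOn (fun b : ℝ => Real.exp (x * b)) (Set.Iic 0) := by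
      have := integrableOn_exp_mul_Iic hx 0
      simpa using this
    refine Integrable.mono' h1 hc.aestronglyMeasurable.restrict ?_
    refine Filter.Eventually.of_forall fun b => ?_
    rw [Real.norm_eq_abs, abs_of_pos (Real.exp_pos _)]
    refine Real.exp_le_exp.2 ?_
    have := mul_pos Real.pi_pos (Real.exp_pos (2 * b))
    linarith
  · have h1 : IntegrableOn (fun b : ℝ => Real.exp ((x + 1) ^ 2) * Real.exp (-b)) (Set.Ioi 0) := by
      have := integrableOn_exp_neg_Ioi 0
      exact this.const_mul _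
    refine Integrable.mono' h1 hc.aestronglyMeasurable.restrict ?_
    refine (ae_restrict_iff' measurableSet_Ioi).2 (Filter.Eventually.of_forall fun b hb => ?_)
    rw [Set.mem_Ioi] at hb
    rw [Real.norm_eq_abs, abs_of_pos (Real.exp_pos _), ← Real.exp_add]
    refine Real.exp_le_exp.2 ?_
    have h2 : (2 * b) ^ 2 / 2 ≤ Real.exp (2 * b) := by
      have := Real.quadratic_le_exp_of_nonneg (x := 2 * b) (by linarith)
      linarith
    have h3 : (3 : ℝ) ≤ Real.pi := Real.pi_gt_three.le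
    have h4 : 3 * ((2 * b) ^ 2 / 2) ≤ Real.pi * Real.exp (2 * b) :=
      mul_le_mul h3 h2 (by positivity) Real.pi_pos.le
    nlinarith [sq_nonneg (x + 1 - b)]

theorem integrable_E (z : ℂ) (hz : 0 < z.re) : Integrable (E z) := by
  refine Integrable.mono' (integrable_real z.re hz) (E_cont z).aestronglyMeasurable ?_
  exact Filter.Eventually.of_forall fun b => (norm_E z b).le

/-- the integral of the weight -/
def G (z : ℂ) : ℂ := ∫ b : ℝ, E z b

theorem G_eq (z : ℂ) (hz : 0 < z.re) :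
    G z = (1 / 2) * ((1 / (Real.pi : ℂ)) ^ (z / 2) * Complex.Gamma (z / 2)) := by
  have hz2 : 0 < (z / 2).re := by
    have : (z / 2).re = z.re / 2 := by
      rw [show (z / 2 : ℂ) = z / ((2 : ℝ) : ℂ) by norm_num, Complex.div_ofReal_re]
    rw [this]; linarith
  have h1 := Complex.integral_cpow_mul_exp_neg_mul_Ioi (a := z / 2) (r := Real.pi) hz2 Real.pi_pos
  have h2 := integral_image_eq_integral_abs_deriv_smul (s := Set.univ)
    (f := fun b : ℝ => Real.exp (2 * b)) (f' := fun b : ℝ => Real.exp (2 * b) * 2) MeasurableSet.univ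
    (fun x _ => by
      have := ((hasDerivAt_id x).const_mul 2).exp
      refine HasDerivAt.hasDerivWithinAt ?_
      simpa using this) (fun a _ b _ h => by
      have := Real.exp_injective h
      linarith) (fun t : ℝ => (t : ℂ) ^ (z / 2 - 1) * Complex.exp (-((Real.pi : ℂ) * t)))
  have h3 : (fun b : ℝ => Real.exp (2 * b)) '' Set.univ = Set.Ioi 0 := by
    ext y
    constructor
    · rintro ⟨b, _, rfl⟩
      exact Real.exp_pos _
    · intro hy
      refine ⟨Real.log y / 2, trivial, ?_⟩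
      show Real.exp (2 * (Real.log y / 2)) = y
      rw [mul_div_cancel₀ _ (two_ne_zero), Real.exp_log hy]
  rw [h3, h1, Measure.restrict_univ] at h2
  rw [h2, G, ← integral_const_mul]
  congr 1
  ext b
  have hpos : (0 : ℝ) < Real.exp (2 * b) * 2 := by positivity
  rw [abs_of_pos hpos, Complex.real_smul]
  have h4 : ((Real.exp (2 * b) : ℝ) : ℂ) ^ (z / 2 - 1) = Complex.exp ((z / 2 - 1) * (2 * b)) := by
    rw [Complex.cpow_def_of_ne_zero (by exact_mod_cast (Real.exp_pos _).ne'), ← Complex.ofReal_log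
      (Real.exp_pos _).le, Real.log_exp]
    congr 1
    push_cast
    ring
  rw [h4, E, ← Complex.exp_add]
  push_cast
  have h5 : Complex.exp (2 * (b : ℂ)) * 2 * Complex.exp ((z / 2 - 1) * (2 * (b : ℂ)) + -((Real.pi : ℂ) * Complex.exp (2 * (b : ℂ)))) =
      2 * Complex.exp (2 * (b : ℂ) + ((z / 2 - 1) * (2 * (b : ℂ)) + -((Real.pi : ℂ) * Complex.exp (2 * (b : ℂ))))) := by
    rw [Complex.exp_add (2 * (b : ℂ))]; ring
  rw [h5, ← mul_assoc]
  norm_num
  congr 1
  ring

theorem half_re (z : ℂ) : (z / 2).re = z.re / 2 := by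
  rw [show (z / 2 : ℂ) = z / ((2 : ℝ) : ℂ) by norm_num, Complex.div_ofReal_re]

theorem G_ne (z : ℂ) (hz : 0 < z.re) : G z ≠ 0 := by
  rw [G_eq z hz]
  have h1 : (1 / (Real.pi : ℂ)) ≠ 0 := by
    have : (Real.pi : ℂ) ≠ 0 := by exact_mod_cast Real.pi_ne_zero
    exact one_div_ne_zero this
  have h2 : (1 / (Real.pi : ℂ)) ^ (z / 2) ≠ 0 := by
    rw [Complex.cpow_def_of_ne_zero h1]
    exact Complex.exp_ne_zero _
  have h3 : Complex.Gamma (z / 2) ≠ 0 :=
    Complex.Gamma_ne_zero_of_re_pos (by rw [half_re]; linarith)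
  exact mul_ne_zero (by norm_num) (mul_ne_zero h2 h3)

theorem G_contOn : ContinuousOn G {z | 0 < z.re} := by
  have h1 : (1 / (Real.pi : ℂ)) ≠ 0 := by
    have : (Real.pi : ℂ) ≠ 0 := by exact_mod_cast Real.pi_ne_zero
    exact one_div_ne_zero this
  refine ContinuousOn.congr (f := fun z : ℂ => (1 / 2) * ((1 / (Real.pi : ℂ)) ^ (z / 2) *
    Complex.Gamma (z / 2))) ?_ fun z hz => G_eq z hz
  intro z hz
  refine ContinuousAt.continuousWithinAt ?_
  have h2 : ContinuousAt (fun z : ℂ => z / 2) z := by fun_prop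
  have h3 : ContinuousAt Complex.Gamma (z / 2) := by
    refine (Complex.differentiableAt_Gamma _ fun m => ?_).continuousAt
    intro h
    have h4 : (z / 2).re = -(m : ℝ) := by rw [h]; simp
    rw [half_re] at h4
    have h5 : (0 : ℝ) < z.re := hz
    have h6 : (0 : ℝ) ≤ m := Nat.cast_nonneg m
    linarith
  have h4 : ContinuousAt (fun z : ℂ => (1 / (Real.pi : ℂ)) ^ (z / 2)) z := by
    exact ContinuousAt.const_cpow h2 (Or.inl h1)
  exact continuousAt_const.mul (h4.mul (ContinuousAt.comp (f := fun z : ℂ => z / 2) h3 h2))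

/-- bounds for `G` on a compact set -/
theorem G_bounds (M : ℝ) : ∃ c C : ℝ, 0 < c ∧ 0 < C ∧ ∀ z : ℂ, 1 ≤ z.re → ‖z‖ ≤ M →
    c ≤ ‖G z‖ ∧ ‖G z‖ ≤ C := by
  set K : Set ℂ := {z | 1 ≤ z.re} ∩ Metric.closedBall 0 M with hK
  have hKc : IsCompact K := by
    refine IsCompact.inter_left (isCompact_closedBall _ _) ?_
    exact isClosed_le continuous_const Complex.continuous_re
  have hcont : ContinuousOn (fun z => ‖G z‖) K := by
    refine (G_contOn.mono fun z hz => ?_).norm
    exact lt_of_lt_of_le one_pos (show (1 : ℝ) ≤ z.re from hz.1)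
  rcases K.eq_empty_or_nonempty with hE | hE
  · refine ⟨1, 1, one_pos, one_pos, fun z hz hzM => ?_⟩
    have : z ∈ K := ⟨hz, by rw [mem_closedBall_zero_iff]; exact hzM⟩
    rw [hE] at this
    exact this.elim
  · obtain ⟨z₁, hz₁, h1⟩ := hKc.exists_isMinOn hE hcont
    obtain ⟨z₂, hz₂, h2⟩ := hKc.exists_isMaxOn hE hcont
    have hp : ∀ z ∈ K, 0 < ‖G z‖ := fun z hz =>
      norm_pos_iff.2 (G_ne z (lt_of_lt_of_le one_pos (show (1 : ℝ) ≤ z.re from hz.1)))
    refine ⟨‖G z₁‖, ‖G z₂‖, hp _ hz₁, hp _ hz₂, fun z hz hzM => ?_⟩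
    have : z ∈ K := ⟨hz, by rw [mem_closedBall_zero_iff]; exact hzM⟩
    exact ⟨h1 this, h2 this⟩

end Pool.Agent.T2h77.N.Lb
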