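import Pool.Agent.T2h77N.Lb1

/-!
# The lower bound for the archimedean local integral: logarithmic coordinates, integration by parts
-/

set_option autoImplicit false

open MeasureTheory

noncomputable section

namespace Pool.Agent.T2h77.N.Lb

/-- smooth functions supported in `[0, 1]` -/
structure Cs (V : ℝ → ℝ) : Prop where
  smooth : ContDiff ℝ (⊤ : ℕ∞) V
  supp : ∀ u, V u ≠ 0 → 0 ≤ u ∧ u ≤ 1

theorem Cs.zero_of {V : ℝ → ℝ} (hV : Cs V) {u : ℝ} (hu : u ∉ Set.Icc (0 : ℝ) 1) : V u = 0 := by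
  by_contra h
  exact hu (hV.supp u h)

theorem Cs.deriv {V : ℝ → ℝ} (hV : Cs V) : Cs (deriv V) := by
  refine ⟨?_, fun u hu => ?_⟩
  · exact ((contDiff_infty_iff_deriv (𝕜 := ℝ)).1 hV.smooth).2
  · by_contra h
    apply hu
    have hopen : IsOpen ((Set.Icc (0 : ℝ) 1)ᶜ) := isClosed_Icc.isOpen_compl
    have h1 : V =ᶠ[nhds u] fun _ => 0 := by
      filter_upwards [hopen.mem_nhds (show u ∈ (Set.Icc (0 : ℝ) 1)ᶜ from h)] with v hv
      exact hV.zero_of hv
    rw [h1.deriv_eq]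
    simp

theorem Cs.iter {V : ℝ → ℝ} (hV : Cs V) (k : ℕ) : Cs (iteratedDeriv k V) := by
  induction k with
  | zero => rwa [iteratedDeriv_zero]
  | succ k ih =>
    rw [iteratedDeriv_succ]
    exact ih.deriv

theorem Cs.bound {V : ℝ → ℝ} (hV : Cs V) : ∃ C : ℝ, 0 ≤ C ∧ ∀ u, |V u| ≤ C := by
  obtain ⟨C, hC⟩ := isCompact_Icc.exists_bound_of_continuousOn
    (s := Set.Icc (0 : ℝ) 1) hV.smooth.continuous.continuousOn
  refine ⟨max C 0, le_max_right _ _, fun u => ?_⟩
  by_cases hu : u ∈ Set.Icc (0 : ℝ) 1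
  · exact (hC u hu).trans (le_max_left _ _)
  · rw [hV.zero_of hu, abs_zero]
    exact le_max_right _ _

theorem Cs.exp_bound {V : ℝ → ℝ} (hV : Cs V) : ∃ C : ℝ, 0 ≤ C ∧ ∀ K : ℝ, 0 ≤ K → ∀ u,
    |V u| ≤ C * Real.exp (K * u) := by
  obtain ⟨C, hC0, hC⟩ := hV.bound
  refine ⟨C, hC0, fun K hK u => ?_⟩
  by_cases hu : u ∈ Set.Icc (0 : ℝ) 1
  · refine (hC u).trans (le_mul_of_one_le_right hC0 ?_)
    exact Real.one_le_exp (mul_nonneg hK hu.1)
  · rw [hV.zero_of hu, abs_zero]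
    positivity

/-- the integral in logarithmic coordinates -/
def JJ {n : ℕ} (μ : Fin n → ℂ) (V : ℝ → ℝ) (s : ℝ) : ℂ :=
  ∫ b : Fin n → ℝ, (∏ i, E (μ i) (b i)) * ((V (∑ i, b i + s) : ℝ) : ℂ)

theorem prod_E_cont {n : ℕ} (μ : Fin n → ℂ) : Continuous fun b : Fin n → ℝ => ∏ i, E (μ i) (b i) :=
  continuous_finsetProd _ fun i _ => (E_cont (μ i)).comp (continuous_apply i)

theorem JJ_integrable {n : ℕ} (μ : Fin n → ℂ) {V : ℝ → ℝ} (hV : Cs V) (s : ℝ) :
    Integrable (fun b : Fin n → ℝ => (∏ i, E (μ i) (b i)) * ((V (∑ i, b i + s) : ℝ) : ℂ)) := by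
  obtain ⟨C, hC0, hC⟩ := hV.exp_bound
  obtain ⟨K, hK0, hK⟩ : ∃ K : ℝ, 0 ≤ K ∧ ∀ i, 0 < (μ i).re + K := by
    refine ⟨∑ i, ‖μ i‖ + 1, by positivity, fun i => ?_⟩
    have h1 : ‖μ i‖ ≤ ∑ i, ‖μ i‖ :=
      Finset.single_le_sum (f := fun i => ‖μ i‖) (fun i _ => norm_nonneg _) (Finset.mem_univ i)
    have h2 := Complex.abs_re_le_norm (μ i)
    have h3 := neg_abs_le (μ i).re
    linarith
  have h1 : Integrable (fun b : Fin n → ℝ => C * Real.exp (K * s) *
      ∏ i, Real.exp (((μ i).re + K) * b i - Real.pi * Real.exp (2 * b i))) := by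
    refine Integrable.const_mul ?_ _
    exact Integrable.fintype_prod (𝕜 := ℝ)
      (f := fun i (x : ℝ) => Real.exp (((μ i).re + K) * x - Real.pi * Real.exp (2 * x)))
      fun i => integrable_real _ (hK i)
  refine Integrable.mono' h1 ?_ (Filter.Eventually.of_forall fun b => ?_)
  · refine ((prod_E_cont μ).mul ?_).aestronglyMeasurable
    refine Complex.continuous_ofReal.comp (hV.smooth.continuous.comp ?_)
    fun_prop
  · rw [norm_mul, norm_prod, Complex.norm_real, Real.norm_eq_abs]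
    calc (∏ i, ‖E (μ i) (b i)‖) * |V (∑ i, b i + s)| ≤
        (∏ i, ‖E (μ i) (b i)‖) * (C * Real.exp (K * (∑ i, b i + s))) :=
          mul_le_mul_of_nonneg_left (hC K hK0 _) (Finset.prod_nonneg fun i _ => norm_nonneg _)
      _ = _ := by
        have h2 : Real.exp (K * (∑ i, b i + s)) = Real.exp (K * s) * ∏ i, Real.exp (K * b i) := by
          rw [← Real.exp_sum, ← Real.exp_add, ← Finset.mul_sum]
          congr 1; ring
        rw [h2]
        have h3 : ∏ i, Real.exp (((μ i).re + K) * b i - Real.pi * Real.exp (2 * b i)) =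
            (∏ i, ‖E (μ i) (b i)‖) * ∏ i, Real.exp (K * b i) := by
          rw [← Finset.prod_mul_distrib]
          refine Finset.prod_congr rfl fun i _ => ?_
          rw [norm_E, ← Real.exp_add]
          congr 1; ring
        rw [h3]; ring

/-- adding `2` to the exponent `j` -/
def up {n : ℕ} (μ : Fin n → ℂ) (j : Fin n) : Fin n → ℂ := Function.update μ j (μ j + 2)

theorem prod_up {n : ℕ} (μ : Fin n → ℂ) (j : Fin n) (b : Fin n → ℝ) :
    ∏ i, E (up μ j i) (b i) = (Real.exp (2 * b j) : ℂ) * ∏ i, E (μ i) (b i) := by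
  rw [← Finset.mul_prod_erase _ _ (Finset.mem_univ j),
    ← Finset.mul_prod_erase Finset.univ (fun i => E (μ i) (b i)) (Finset.mem_univ j), ← mul_assoc]
  congr 1
  · rw [up, Function.update_self, E, E, Complex.ofReal_exp, ← Complex.exp_add]
    congr 1
    push_cast
    ring
  · refine Finset.prod_congr rfl fun i hi => ?_
    rw [up, Function.update_of_ne (Finset.ne_of_mem_erase hi)]

theorem lineDeriv_E {n : ℕ} (μ : Fin n → ℂ) (j : Fin n) (b : Fin n → ℝ) :
    HasLineDerivAt ℝ (fun b : Fin n → ℝ => ∏ i, E (μ i) (b i))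
      ((μ j - 2 * Real.pi * Real.exp (2 * b j)) * ∏ i, E (μ i) (b i)) b (Pi.single j 1) := by
  unfold HasLineDerivAt
  have h0 : (fun t : ℝ => ∏ i, E (μ i) ((b + t • (Pi.single j 1 : Fin n → ℝ)) i)) =
      fun t : ℝ => E (μ j) (b j + t) * ∏ i ∈ Finset.univ.erase j, E (μ i) (b i) := by
    ext t
    rw [← Finset.mul_prod_erase _ _ (Finset.mem_univ j)]
    congr 1
    · simp
    · refine Finset.prod_congr rfl fun i hi => ?_
      simp [Finset.ne_of_mem_erase hi]
  rw [h0, ← Finset.mul_prod_erase Finset.univ (fun i => E (μ i) (b i)) (Finset.mem_univ j),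
    ← mul_assoc]
  refine HasDerivAt.mul_const ?_ _
  unfold E
  have h1 : HasDerivAt (fun t : ℝ => (((b j + t : ℝ)) : ℂ)) 1 0 := by
    have := (hasDerivAt_id (0 : ℝ)).const_add (b j)
    simpa using this.ofReal_comp
  have h2 : HasDerivAt (fun t : ℝ => ((Real.exp (2 * (b j + t)) : ℝ) : ℂ))
      ((Real.exp (2 * (b j + 0)) * (2 * 1) : ℝ) : ℂ) 0 :=
    ((((hasDerivAt_id (0 : ℝ)).const_add (b j)).const_mul 2).exp).ofReal_comp
  have h3 := ((h1.const_mul (μ j)).sub (h2.const_mul (Real.pi : ℂ))).cexp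
  have h4 : (μ j - 2 * (Real.pi : ℂ) * ((Real.exp (2 * b j) : ℝ) : ℂ)) *
      Complex.exp (μ j * (b j : ℂ) - (Real.pi : ℂ) * ((Real.exp (2 * b j) : ℝ) : ℂ)) =
      Complex.exp (μ j * ((b j + 0 : ℝ) : ℂ) - (Real.pi : ℂ) * ((Real.exp (2 * (b j + 0)) : ℝ) : ℂ)) *
      (μ j * 1 - (Real.pi : ℂ) * ((Real.exp (2 * (b j + 0)) * (2 * 1) : ℝ) : ℂ)) := by
    rw [add_zero]
    push_cast
    ring
  rw [h4]
  exact h3

/-- integration by parts in the coordinate `j` -/
theorem JJ_parts {n : ℕ} (μ : Fin n → ℂ) (j : Fin n) {V : ℝ → ℝ} (hV : Cs V) (s : ℝ) :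
    2 * Real.pi * JJ (up μ j) V s = JJ μ (deriv V) s + μ j * JJ μ V s := by
  have hf := lineDeriv_E μ j
  have hg : ∀ b : Fin n → ℝ, HasLineDerivAt ℝ (fun b : Fin n → ℝ => ((V (∑ i, b i + s) : ℝ) : ℂ))
      ((deriv V (∑ i, b i + s) : ℝ) : ℂ) b (Pi.single j 1) := by
    intro b
    unfold HasLineDerivAt
    have h0 : (fun t : ℝ => ((V (∑ i, (b + t • (Pi.single j 1 : Fin n → ℝ)) i + s) : ℝ) : ℂ)) =
        fun t : ℝ => ((V (∑ i, b i + s + t) : ℝ) : ℂ) := by
      ext t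
      congr 2
      simp only [Pi.add_apply, Pi.smul_apply, smul_eq_mul, Finset.sum_add_distrib, ← Finset.mul_sum,
        Finset.sum_pi_single', Finset.mem_univ, if_true]
      simp
      ring
    rw [h0]
    have h1 : HasDerivAt V (deriv V (∑ i, b i + s + 0)) (∑ i, b i + s + 0) :=
      (hV.smooth.differentiable (by simp)).differentiableAt.hasDerivAt
    have h2 : HasDerivAt (fun t : ℝ => ∑ i, b i + s + t) 1 0 := (hasDerivAt_id (0 : ℝ)).const_add _
    have h3 := (h1.comp (0 : ℝ) h2).ofReal_comp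
    simpa using h3
  have i1 := JJ_integrable μ hV s
  have i2 := JJ_integrable μ hV.deriv s
  have i3 := JJ_integrable (up μ j) hV s
  have i4 : Integrable (fun b : Fin n → ℝ => ((μ j - 2 * Real.pi * Real.exp (2 * b j)) *
      ∏ i, E (μ i) (b i)) * ((V (∑ i, b i + s) : ℝ) : ℂ)) := by
    refine ((i1.const_mul (μ j)).sub (i3.const_mul (2 * Real.pi))).congr
      (Filter.Eventually.of_forall fun b => ?_)
    simp only [Pi.sub_apply]
    rw [prod_up]
    ring
  have key := integral_bilinear_hasLineDerivAt_right_eq_neg_left_of_integrable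
    (μ := (volume : Measure (Fin n → ℝ))) (B := ContinuousLinearMap.mul ℝ ℂ)
    (f := fun b : Fin n → ℝ => ∏ i, E (μ i) (b i))
    (f' := fun b => (μ j - 2 * Real.pi * Real.exp (2 * b j)) * ∏ i, E (μ i) (b i))
    (g := fun b : Fin n → ℝ => ((V (∑ i, b i + s) : ℝ) : ℂ))
    (g' := fun b => ((deriv V (∑ i, b i + s) : ℝ) : ℂ)) (v := Pi.single j 1)
    i4 i2 i1 (fun b _ => hf b) (fun b _ => hg b)
  simp only [ContinuousLinearMap.mul_apply'] at key
  have e1 : JJ μ (deriv V) s = ∫ b : Fin n → ℝ, (∏ i, E (μ i) (b i)) *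
    ((deriv V (∑ i, b i + s) : ℝ) : ℂ) := rfl
  rw [e1, key]
  have e2 : ∫ b : Fin n → ℝ, ((μ j - 2 * Real.pi * Real.exp (2 * b j)) *
      ∏ i, E (μ i) (b i)) * ((V (∑ i, b i + s) : ℝ) : ℂ) =
      μ j * JJ μ V s - 2 * Real.pi * JJ (up μ j) V s := by
    unfold JJ
    rw [← integral_const_mul, ← integral_const_mul, ← integral_sub (i1.const_mul _) (i3.const_mul _)]
    congr 1
    ext b
    rw [prod_up]
    ring
  rw [e2]
  ring

/-- adding `2` to the exponents in a set -/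
def upS {n : ℕ} (ν : Fin n → ℂ) (S : Finset (Fin n)) : Fin n → ℂ :=
  fun i => if i ∈ S then ν i + 2 else ν i

theorem JJ_iter {n : ℕ} (ν : Fin n → ℂ) (T : ℝ) (hT : 0 ≤ T) (hν : ∀ i, ‖ν i‖ ≤ T) (s : ℝ)
    (S : Finset (Fin n)) : ∀ (V : ℝ → ℝ) (M : ℝ), Cs V →
      (∀ k ≤ S.card, ‖JJ ν (iteratedDeriv k V) s‖ ≤ M) →
      (2 * Real.pi) ^ S.card * ‖JJ (upS ν S) V s‖ ≤ (1 + T) ^ S.card * M := by
  classical
  induction S using Finset.induction_on with
  | empty =>
    intro V M hV h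
    have h0 := h 0 le_rfl
    rw [iteratedDeriv_zero] at h0
    have h1 : upS ν ∅ = ν := by
      ext i; simp [upS]
    rw [h1]
    simpa using h0
  | insert j S hj ih =>
    intro V M hV h
    rw [Finset.card_insert_of_notMem hj] at h ⊢
    have hup : upS ν (insert j S) = up (upS ν S) j := by
      ext i
      unfold upS up
      by_cases hij : i = j
      · subst hij
        rw [Function.update_self]
        simp [hj]
      · rw [Function.update_of_ne hij]
        simp [hij]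
    have hj' : upS ν S j = ν j := by simp [upS, hj]
    have h1 := JJ_parts (upS ν S) j hV s
    rw [← hup, hj'] at h1
    have h2 := ih (deriv V) M hV.deriv (fun k hk => by
      rw [← iteratedDeriv_succ']
      exact h (k + 1) (by omega))
    have h3 := ih V M hV (fun k hk => h k (by omega))
    have hpi : (0 : ℝ) ≤ 2 * Real.pi := by positivity
    have h4 : 2 * Real.pi * ‖JJ (upS ν (insert j S)) V s‖ ≤
        ‖JJ (upS ν S) (deriv V) s‖ + T * ‖JJ (upS ν S) V s‖ := by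
      have h5 : ‖2 * (Real.pi : ℂ) * JJ (upS ν (insert j S)) V s‖ =
          2 * Real.pi * ‖JJ (upS ν (insert j S)) V s‖ := by
        rw [norm_mul]
        congr 1
        rw [norm_mul, Complex.norm_real, Real.norm_eq_abs, abs_of_pos Real.pi_pos]
        simp
      rw [← h5, h1]
      refine (norm_add_le _ _).trans (add_le_add_right ?_ _)
      rw [norm_mul]
      exact mul_le_mul_of_nonneg_right (hν j) (norm_nonneg _)
    calc (2 * Real.pi) ^ (S.card + 1) * ‖JJ (upS ν (insert j S)) V s‖ =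
        (2 * Real.pi) ^ S.card * (2 * Real.pi * ‖JJ (upS ν (insert j S)) V s‖) := by ring
      _ ≤ (2 * Real.pi) ^ S.card * (‖JJ (upS ν S) (deriv V) s‖ + T * ‖JJ (upS ν S) V s‖) :=
          mul_le_mul_of_nonneg_left h4 (by positivity)
      _ = (2 * Real.pi) ^ S.card * ‖JJ (upS ν S) (deriv V) s‖ +
          T * ((2 * Real.pi) ^ S.card * ‖JJ (upS ν S) V s‖) := by ring
      _ ≤ (1 + T) ^ S.card * M + T * ((1 + T) ^ S.card * M) :=
          add_le_add h2 (mul_le_mul_of_nonneg_left h3 hT)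
      _ = (1 + T) ^ (S.card + 1) * M := by ring

end Pool.Agent.T2h77.N.Lb
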