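import Pool.Agent.T2h77N.Lb2

/-!
# The lower bound for the archimedean local integral: change of variables, Fubini
-/

set_option autoImplicit false

open MeasureTheory

noncomputable section

namespace Pool.Agent.T2h77.N.Lb

theorem JW_eq {n : ℕ} (hn : 1 ≤ n) (ν : Fin n → ℂ) (w : ℝ → ℝ) (k : ℕ) (s : ℝ) :
    JW ν (wk n w k s) = JJ ν (iteratedDeriv k w) s := by
  unfold JW JJ
  have himg : (fun (b : Fin n → ℝ) (i : Fin n) => Real.exp (b i)) '' Set.univ =
      {r : Fin n → ℝ | ∀ i, 0 < r i} := by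
    ext r
    constructor
    · rintro ⟨b, _, rfl⟩
      exact fun i => Real.exp_pos _
    · intro hr
      refine ⟨fun i => Real.log (r i), trivial, ?_⟩
      ext i
      exact Real.exp_log (hr i)
  have hder : ∀ b ∈ (Set.univ : Set (Fin n → ℝ)),
      HasFDerivWithinAt (fun (b : Fin n → ℝ) (i : Fin n) => Real.exp (b i))
        (ContinuousLinearMap.pi fun i =>
          ((Real.exp (b i)) • (ContinuousLinearMap.id ℝ ℝ)).comp (ContinuousLinearMap.proj i)) Set.univ b := by
    intro b _
    refine HasFDerivAt.hasFDerivWithinAt ?_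
    rw [hasFDerivAt_pi]
    intro i
    have h1 : HasFDerivAt (fun b : Fin n → ℝ => b i)
        (ContinuousLinearMap.proj (R := ℝ) (φ := fun _ : Fin n => ℝ) i) b :=
      (ContinuousLinearMap.proj (R := ℝ) (φ := fun _ : Fin n => ℝ) i).hasFDerivAt
    have h2 := h1.exp
    have h3 : ((Real.exp (b i)) • (ContinuousLinearMap.id ℝ ℝ)).comp
        (ContinuousLinearMap.proj (R := ℝ) (φ := fun _ : Fin n => ℝ) i) =
        Real.exp (b i) • ContinuousLinearMap.proj (R := ℝ) (φ := fun _ : Fin n => ℝ) i := by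
      ext x
      simp
    rw [h3]
    exact h2
  have hinj : Set.InjOn (fun (b : Fin n → ℝ) (i : Fin n) => Real.exp (b i)) Set.univ := by
    intro a _ b _ h
    ext i
    exact Real.exp_injective (congrFun h i)
  rw [← himg, integral_image_eq_integral_abs_det_fderiv_smul volume MeasurableSet.univ hder hinj,
    Measure.restrict_univ]
  congr 1
  ext b
  rw [ContinuousLinearMap.det_pi]
  have hdet : ∀ i : Fin n, ((Real.exp (b i)) • (ContinuousLinearMap.id ℝ ℝ)).det = Real.exp (b i) := by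
    intro i
    rw [ContinuousLinearMap.det, LinearMap.det_ring]
    simp
  simp only [hdet]
  have hprod : ∏ i, Real.exp (b i) = Real.exp (∑ i, b i) := (Real.exp_sum _ _).symm
  have hw : wk n w k s ((∏ i, Real.exp (b i)) ^ (1 / (n : ℝ))) =
      iteratedDeriv k w (∑ i, b i + s) := by
    unfold wk
    rw [if_pos (Real.rpow_pos_of_pos (Finset.prod_pos fun i _ => Real.exp_pos _) _),
      hprod, Real.log_rpow (Real.exp_pos _), Real.log_exp]
    congr 2
    have : (n : ℝ) ≠ 0 := by
      have : n ≠ 0 := by omega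
      exact_mod_cast this
    field_simp
  rw [hw, Complex.real_smul, ← mul_assoc]
  congr 1
  rw [abs_of_pos (Finset.prod_pos fun i _ => Real.exp_pos _)]
  have h1 : Real.exp (-Real.pi * ∑ i, Real.exp (b i) ^ 2) =
      ∏ i, Real.exp (- (Real.pi * Real.exp (2 * b i))) := by
    rw [← Real.exp_sum, Finset.mul_sum]
    congr 1
    refine Finset.sum_congr rfl fun i _ => ?_
    rw [← Real.exp_nat_mul]
    push_cast
    ring
  rw [h1, Complex.ofReal_prod, Complex.ofReal_prod, ← Finset.prod_mul_distrib,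
    ← Finset.prod_mul_distrib]
  refine Finset.prod_congr rfl fun i _ => ?_
  have h2 : ((Real.exp (b i) : ℝ) : ℂ) ^ (ν i - 1) = Complex.exp (b i * (ν i - 1)) := by
    rw [Complex.cpow_def_of_ne_zero (by exact_mod_cast (Real.exp_pos _).ne'), ← Complex.ofReal_log
      (Real.exp_pos _).le, Real.log_exp]
  rw [h2, E, Complex.ofReal_exp, Complex.ofReal_exp, ← Complex.exp_add, ← Complex.exp_add]
  congr 1
  push_cast
  ring

/-- the Laplace transform -/
def L (β : ℂ) (V : ℝ → ℝ) : ℂ := ∫ u : ℝ, Complex.exp (β * u) * (V u : ℂ)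

theorem L_integrable (β : ℂ) {V : ℝ → ℝ} (hV : Cs V) :
    Integrable (fun u : ℝ => Complex.exp (β * u) * (V u : ℂ)) := by
  refine Continuous.integrable_of_hasCompactSupport ?_ ?_
  · have := hV.smooth.continuous
    fun_prop
  · refine HasCompactSupport.intro (isCompact_Icc (a := (0 : ℝ)) (b := 1)) fun u hu => ?_
    rw [hV.zero_of hu]
    simp

theorem L_shift (β : ℂ) (V : ℝ → ℝ) (x : ℝ) :
    ∫ t : ℝ, Complex.exp (β * t) * (V (t + x) : ℂ) = Complex.exp (-(β * x)) * L β V := by
  have h := integral_add_right_eq_self (μ := volume)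
    (fun u : ℝ => Complex.exp (β * ((u - x : ℝ) : ℂ)) * (V u : ℂ)) x
  have h2 : ∀ t : ℝ, Complex.exp (β * ((t + x - x : ℝ) : ℂ)) * (V (t + x) : ℂ) =
      Complex.exp (β * t) * (V (t + x) : ℂ) := by
    intro t
    rw [add_sub_cancel_right]
  simp only [h2] at h
  rw [h, L, ← integral_const_mul]
  congr 1
  ext u
  rw [← mul_assoc, ← Complex.exp_add]
  congr 2
  push_cast
  ring

/-- the integrand with one factor `exp (-π e^(2b))` missing -/
def FF {m : ℕ} (α : Fin m → ℂ) (β : ℂ) (V : ℝ → ℝ) (s : ℝ) (p : ℝ × (Fin m → ℝ)) : ℂ :=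
  (∏ j, E (α j) (p.2 j)) * (Complex.exp (β * p.1) * (V (p.1 + (∑ j, p.2 j + s)) : ℂ))

theorem FF_cont {m : ℕ} (α : Fin m → ℂ) (β : ℂ) {V : ℝ → ℝ} (hV : Cs V) (s : ℝ) :
    Continuous (FF α β V s) := by
  have h1 : Continuous fun p : ℝ × (Fin m → ℝ) => ∏ j, E (α j) (p.2 j) :=
    (prod_E_cont α).comp continuous_snd
  have h2 : Continuous fun p : ℝ × (Fin m → ℝ) =>
      Complex.exp (β * p.1) * (V (p.1 + (∑ j, p.2 j + s)) : ℂ) := by
    have := hV.smooth.continuous
    fun_prop
  exact h1.mul h2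

theorem exp_prod_E {m : ℕ} (α : Fin m → ℂ) (β : ℂ) (s : ℝ) (c : Fin m → ℝ) :
    (∏ j, E (α j) (c j)) * Complex.exp (-(β * ((∑ j, c j + s : ℝ) : ℂ))) =
      Complex.exp (-(β * s)) * ∏ j, E (α j - β) (c j) := by
  have h1 : Complex.exp (-(β * ((∑ j, c j + s : ℝ) : ℂ))) =
      Complex.exp (-(β * s)) * ∏ j, Complex.exp (-(β * c j)) := by
    rw [← Complex.exp_sum, ← Complex.exp_add]
    congr 1
    push_cast
    rw [mul_add, Finset.mul_sum, Finset.sum_neg_distrib]
    ring
  have h2 : ∏ j, E (α j - β) (c j) = (∏ j, E (α j) (c j)) * ∏ j, Complex.exp (-(β * c j)) := by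
    rw [← Finset.prod_mul_distrib]
    refine Finset.prod_congr rfl fun j _ => ?_
    rw [E, E, ← Complex.exp_add]
    congr 1
    ring
  rw [h1, h2]
  ring

theorem FF_integrable {m : ℕ} (α : Fin m → ℂ) (β : ℂ) {V : ℝ → ℝ} (hV : Cs V) (s : ℝ)
    (h : ∀ j, 0 < (α j - β).re) :
    Integrable (FF α β V s) ((volume : Measure ℝ).prod (volume : Measure (Fin m → ℝ))) := by
  rw [integrable_prod_iff' (FF_cont α β hV s).aestronglyMeasurable]
  have hsh : ∀ x : ℝ, Integrable (fun t : ℝ => Complex.exp (β * t) * (V (t + x) : ℂ)) := by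
    intro x
    have h1 := (L_integrable β hV).comp_add_right x
    have h2 := h1.const_mul (Complex.exp (-(β * x)))
    refine h2.congr (Filter.Eventually.of_forall fun t => ?_)
    show Complex.exp (-(β * x)) * (Complex.exp (β * ((t + x : ℝ) : ℂ)) * (V (t + x) : ℂ)) = _
    rw [← mul_assoc, ← Complex.exp_add]
    congr 2
    push_cast
    ring
  constructor
  · refine Filter.Eventually.of_forall fun c => ?_
    exact (hsh (∑ j, c j + s)).const_mul (∏ j, E (α j) (c j))
  · have hI : ∀ c : Fin m → ℝ, ∫ t : ℝ, ‖FF α β V s (t, c)‖ =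
        (∫ u : ℝ, ‖Complex.exp (β * u) * (V u : ℂ)‖) *
          ‖Complex.exp (-(β * s)) * ∏ j, E (α j - β) (c j)‖ := by
      intro c
      have h1 : ∀ t : ℝ, ‖FF α β V s (t, c)‖ =
          ‖Complex.exp (-(β * s)) * ∏ j, E (α j - β) (c j)‖ *
            ‖Complex.exp (β * ((t + (∑ j, c j + s) : ℝ) : ℂ)) * (V (t + (∑ j, c j + s)) : ℂ)‖ := by
        intro t
        rw [← norm_mul, ← exp_prod_E, FF]
        congr 1
        have h3 : Complex.exp (-(β * ((∑ j, c j + s : ℝ) : ℂ))) *
            Complex.exp (β * ((t + (∑ j, c j + s) : ℝ) : ℂ)) = Complex.exp (β * t) := by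
          rw [← Complex.exp_add]
          congr 1
          push_cast
          ring
        rw [← h3]
        ring
      simp only [h1]
      rw [integral_const_mul, mul_comm]
      congr 1
      exact integral_add_right_eq_self (μ := volume)
        (fun u : ℝ => ‖Complex.exp (β * u) * (V u : ℂ)‖) (∑ j, c j + s)
    simp only [hI]
    refine Integrable.const_mul ?_ _
    refine Integrable.norm ?_
    refine Integrable.const_mul ?_ _
    exact Integrable.fintype_prod (𝕜 := ℂ) (f := fun j (x : ℝ) => E (α j - β) x)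
      fun j => integrable_E _ (h j)

theorem FF_integral {m : ℕ} (α : Fin m → ℂ) (β : ℂ) {V : ℝ → ℝ} (hV : Cs V) (s : ℝ)
    (h : ∀ j, 0 < (α j - β).re) :
    ∫ p, FF α β V s p ∂((volume : Measure ℝ).prod (volume : Measure (Fin m → ℝ))) =
      Complex.exp (-(β * s)) * L β V * ∏ j, G (α j - β) := by
  rw [integral_prod_symm _ (FF_integrable α β hV s h)]
  have h1 : ∀ c : Fin m → ℝ, ∫ t : ℝ, FF α β V s (t, c) =
      Complex.exp (-(β * s)) * L β V * ∏ j, E (α j - β) (c j) := by
    intro c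
    show ∫ t : ℝ, (∏ j, E (α j) (c j)) * (Complex.exp (β * t) * (V (t + (∑ j, c j + s)) : ℂ)) = _
    rw [integral_const_mul, L_shift, ← mul_assoc, exp_prod_E]
    ring
  simp only [h1]
  rw [integral_const_mul]
  congr 1
  exact integral_fintype_prod_volume_eq_prod (fun j (x : ℝ) => E (α j - β) x)

end Pool.Agent.T2h77.N.Lb
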