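import Pool.Agent.T2h77N.McDefs
import Pool.Agent.T2h77N.Asm4
import Pool.Agent.T2h77N.Trace
import Pool.Agent.T2h77N.Mass
import Pool.Agent.T2h77N.Cut
import Pool.Agent.T2h77N.Uni

/-!
# Matrix coefficients of automorphic functions: translations, convolutions and the inner product
-/

set_option autoImplicit false

open MeasureTheory Matrix
open scoped MatrixGroups ENNReal Pointwise Topology

noncomputable section

namespace Pool.Agent.T2h77.N

variable {n N : ℕ} [NeZero N] {H : Subgroup (GN n N)}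

theorem isForm_tra {f : GR n → XX H → ℂ} (hf : IsForm H f) (u : GR n) : IsForm H (tra u f) := by
  refine ⟨fun c => (hf.measurable c).comp (measurable_mul_const u), fun γ g c => ?_⟩
  unfold tra
  rw [mul_assoc, hf.invariant]

theorem sq_tra {F : Set (GR n)} (hF : IsFD F) {f : GR n → XX H → ℂ} (hf : IsForm H f) (u : GR n) :
    ∫⁻ g in F, sq (tra u f) g ∂(mu n) = ∫⁻ g in F, sq f g ∂(mu n) := by
  have : (mu n).IsMulRightInvariant := unimod n
  exact An.trans (Cut.isFD hF) (fun g => sq f g) (fun γ hγ g => by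
    obtain ⟨γ, rfl⟩ := hγ
    exact sq_inv hf γ g) u

theorem isL2_iff {F : Set (GR n)} {f : GR n → XX H → ℂ} (hf : IsForm H f) :
    IsL2 F f ↔ ∫⁻ g in F, sq f g ∂(mu n) < ∞ := by
  classical
  have : Fintype (XX H) := Fintype.ofFinite _
  rw [← sq_int hf, tsum_fintype, ENNReal.sum_lt_top]
  exact ⟨fun h c _ => h c, fun h c => h c (Finset.mem_univ c)⟩

theorem isL2_tra {F : Set (GR n)} (hF : IsFD F) {f : GR n → XX H → ℂ} (hf : IsForm H f) (hL : IsL2 F f) (u : GR n) :
    IsL2 F (tra u f) := by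
  rw [isL2_iff (isForm_tra hf u), sq_tra hF hf]
  exact (isL2_iff hf).1 hL

theorem ip_eq {F : Set (GR n)} {f f' : GR n → XX H → ℂ} (hf : IsForm H f) (hf' : IsForm H f')
    (hL : IsL2 F f) (hL' : IsL2 F f') [Fintype (XX H)] :
    ip F f f' = ∫ g in F, ∑ c, f g c * star (f' g c) ∂(mu n) := by
  unfold ip
  rw [tsum_fintype, integral_finsetSum _ fun c _ => integrable_pair hf hf' hL hL' c]

theorem ip_star {F : Set (GR n)} (f f' : GR n → XX H → ℂ) : star (ip F f f') = ip F f' f := by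
  have : Fintype (XX H) := Fintype.ofFinite _
  unfold ip
  rw [tsum_fintype, tsum_fintype, star_sum]
  refine Finset.sum_congr rfl fun c _ => ?_
  rw [Complex.star_def, ← integral_conj]
  refine integral_congr_ae (.of_forall fun g => ?_)
  simp only [map_mul, Complex.star_def, Complex.conj_conj]
  ring

theorem ip_tra {F : Set (GR n)} (hF : IsFD F) {f f' : GR n → XX H → ℂ} (hf : IsForm H f) (hf' : IsForm H f')
    (hL : IsL2 F f) (hL' : IsL2 F f') (u : GR n) : ip F (tra u f) (tra u f') = ip F f f' := by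
  have hr : (mu n).IsMulRightInvariant := unimod n
  have : Fintype (XX H) := Fintype.ofFinite _
  rw [ip_eq (isForm_tra hf u) (isForm_tra hf' u) (isL2_tra hF hf hL u) (isL2_tra hF hf' hL' u), ip_eq hf hf' hL hL']
  set G : GR n → ℂ := fun g => ∑ c, f g c * star (f' g c) with hG
  have hinv : ∀ (γ : (io n).range) (g : GR n), G (γ • g) = G g := by
    rintro ⟨_, γ, rfl⟩ g
    show G (io n γ * g) = G g
    rw [hG]
    simp only
    rw [← Equiv.sum_comp (MulAction.toPerm (rdM N (γ : MZ n)) : Equiv.Perm (XX H))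
      (fun c => f (io n γ * g) c * star (f' (io n γ * g) c))]
    refine Finset.sum_congr rfl fun c _ => ?_
    rw [MulAction.toPerm_apply, hf.invariant, hf'.invariant]
  have h1 : IsFundamentalDomain (io n).range (MulOpposite.op u • F) (mu n) := (Cut.isFD hF).smul_of_comm _
  have h2 := (Cut.isFD hF).setIntegral_eq h1 hinv
  rw [h2]
  have h3 : MeasurePreserving (fun g : GR n => g * u) (mu n) (mu n) := measurePreserving_mul_right (mu n) u
  have h4 : MulOpposite.op u • F = (fun g : GR n => g * u) '' F := rfl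
  rw [h4]
  exact (h3.setIntegral_image_emb (Homeomorph.mulRight u).measurableEmbedding G F).symm

/-- a bound for the convolution operators -/
theorem Rc_le {f : GR n → XX H → ℂ} {χ : GR n → ℝ} {s : ℝ} (hs : ∀ y, |χ y| ≤ s) {B : Set (GR n)}
    (hB : MeasurableSet B) (hsB : ∀ y, y ∉ B → χ y = 0) (g : GR n) (c : XX H) :
    ‖Rc χ f g c‖ₑ ≤ ENNReal.ofReal s * ∫⁻ y in B, ‖f (g * y) c‖ₑ ∂(mu n) := by
  unfold Rc
  refine (enorm_integral_le_lintegral_enorm _).trans ?_
  rw [← lintegral_const_mul' _ _ ENNReal.ofReal_ne_top, ← lintegral_indicator hB]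
  refine lintegral_mono fun y => ?_
  by_cases hy : y ∈ B
  · rw [Set.indicator_of_mem hy, enorm_mul, mul_comm]
    gcongr
    rw [← ofReal_norm, Complex.norm_real]
    exact ENNReal.ofReal_le_ofReal (hs y)
  · rw [Set.indicator_of_notMem hy, hsB y hy]
    simp

/-- the norm of the convolution operators -/
theorem sq_Rc_le {F : Set (GR n)} (hF : IsFD F) {f : GR n → XX H → ℂ} (hf : IsForm H f) {χ : GR n → ℝ}
    (hχ : Continuous χ) {s : ℝ} (hs : ∀ y, |χ y| ≤ s) {B : Set (GR n)}
    (hB : MeasurableSet B) (hsB : ∀ y, y ∉ B → χ y = 0) :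
    ∫⁻ g in F, sq (Rc χ f) g ∂(mu n) ≤ (ENNReal.ofReal s * mu n B) ^ 2 * ∫⁻ g in F, sq f g ∂(mu n) := by
  rw [← sq_int (isForm_Rc hf hχ), ← sq_int hf]
  calc ∑' c : XX H, ∫⁻ g in F, ‖Rc χ f g c‖ₑ ^ 2 ∂(mu n)
      ≤ ∑' c : XX H, ∫⁻ g in F, ENNReal.ofReal s ^ 2 * (∫⁻ y in B, ‖f (g * y) c‖ₑ ∂(mu n)) ^ 2 ∂(mu n) := by
        refine ENNReal.tsum_le_tsum fun c => lintegral_mono fun g => ?_
        rw [← mul_pow]
        exact pow_le_pow_left₀ (by simp) (Rc_le hs hB hsB g c) 2
    _ = ENNReal.ofReal s ^ 2 * ∑' c : XX H, ∫⁻ g in F, (∫⁻ y in B, ‖f (g * y) c‖ₑ ∂(mu n)) ^ 2 ∂(mu n) := by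
        rw [← ENNReal.tsum_mul_left]
        refine tsum_congr fun c => ?_
        rw [lintegral_const_mul' _ _ (by simp)]
    _ ≤ ENNReal.ofReal s ^ 2 * ((mu n B) ^ 2 * ∑' c : XX H, ∫⁻ g in F, ‖f g c‖ₑ ^ 2 ∂(mu n)) := by
        gcongr
        exact Cut.mean unimod hF hf B
    _ = _ := by rw [mul_pow, mul_assoc]

theorem isL2_Rc {F : Set (GR n)} (hF : IsFD F) {f : GR n → XX H → ℂ} (hf : IsForm H f) (hL : IsL2 F f) {χ : GR n → ℝ}
    (hχ : Continuous χ) (hc : HasCompactSupport χ) : IsL2 F (Rc χ f) := by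
  obtain ⟨s, -, hs⟩ := Cut.exists_bound hχ hc
  rw [isL2_iff (isForm_Rc hf hχ)]
  refine (sq_Rc_le hF hf hχ hs (B := tsupport χ) (IsCompact.measurableSet hc)
    (fun y hy => image_eq_zero_of_notMem_tsupport hy)).trans_lt ?_
  refine ENNReal.mul_lt_top (ENNReal.pow_lt_top (ENNReal.mul_lt_top ENNReal.ofReal_lt_top ?_)) ((isL2_iff hf).1 hL)
  exact IsCompact.measure_lt_top hc

/-- the inner product with a convolution -/
theorem ip_Rc {F : Set (GR n)} (hF : IsFD F) {f b : GR n → XX H → ℂ} (hf : IsForm H f) (hb : IsForm H b)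
    (hL : IsL2 F f) (hLb : IsL2 F b) {κ : GR n → ℝ} (hκ : Continuous κ) (hc : HasCompactSupport κ) :
    ip F (Rc κ f) b = ∫ u, (κ u : ℂ) * ip F (tra u f) b ∂(mu n) := by
  have : Fintype (XX H) := Fintype.ofFinite _
  obtain ⟨s, hs0, hs⟩ := Cut.exists_bound hκ hc
  have hBc : IsCompact (tsupport κ) := hc
  -- integrability
  have hint : ∀ c : XX H, Integrable (fun p : GR n × GR n => f (p.1 * p.2) c * (κ p.2 : ℂ) * star (b p.1 c))
      (((mu n).restrict F).prod (mu n)) := by
    intro c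
    have hm : Measurable fun p : GR n × GR n => f (p.1 * p.2) c * (κ p.2 : ℂ) * star (b p.1 c) :=
      (((hf.measurable c).comp measurable_mul).mul
        (Complex.measurable_ofReal.comp (hκ.measurable.comp measurable_snd))).mul
        (Complex.continuous_conj.measurable.comp ((hb.measurable c).comp measurable_fst))
    refine ⟨hm.aestronglyMeasurable, ?_⟩
    rw [hasFiniteIntegral_iff_enorm, lintegral_prod _ hm.enorm.aemeasurable]
    have h1 : ∀ g : GR n, ∫⁻ u, ‖f (g * u) c * (κ u : ℂ) * star (b g c)‖ₑ ∂(mu n) ≤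
        ENNReal.ofReal s ^ 2 * (∫⁻ y in tsupport κ, ‖f (g * y) c‖ₑ ∂(mu n)) ^ 2 + ‖b g c‖ₑ ^ 2 := by
      intro g
      have h2 : ∫⁻ u, ‖f (g * u) c * (κ u : ℂ) * star (b g c)‖ₑ ∂(mu n) ≤
          (ENNReal.ofReal s * ∫⁻ y in tsupport κ, ‖f (g * y) c‖ₑ ∂(mu n)) * ‖b g c‖ₑ := by
        have hm2 : Measurable fun u : GR n => ‖f (g * u) c * (κ u : ℂ)‖ₑ :=
          (((hf.measurable c).comp (measurable_const_mul g)).mul
            (Complex.measurable_ofReal.comp hκ.measurable)).enorm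
        calc _ = ∫⁻ u, ‖f (g * u) c * (κ u : ℂ)‖ₑ * ‖b g c‖ₑ ∂(mu n) := by
              refine lintegral_congr fun u => ?_
              rw [enorm_mul]
              congr 1
              rw [← ofReal_norm, ← ofReal_norm, norm_star]
          _ = (∫⁻ u, ‖f (g * u) c * (κ u : ℂ)‖ₑ ∂(mu n)) * ‖b g c‖ₑ := lintegral_mul_const _ hm2
          _ ≤ _ := by
              gcongr
              rw [← lintegral_const_mul' _ _ ENNReal.ofReal_ne_top, ← lintegral_indicator hBc.measurableSet]
              refine lintegral_mono fun y => ?_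
              by_cases hy : y ∈ tsupport κ
              · rw [Set.indicator_of_mem hy, enorm_mul, mul_comm]
                gcongr
                rw [← ofReal_norm, Complex.norm_real]
                exact ENNReal.ofReal_le_ofReal (hs y)
              · rw [Set.indicator_of_notMem hy, image_eq_zero_of_notMem_tsupport hy]
                simp
      refine h2.trans ?_
      rw [← mul_pow]
      set a := ENNReal.ofReal s * ∫⁻ y in tsupport κ, ‖f (g * y) c‖ₑ ∂(mu n)
      set b' := ‖b g c‖ₑ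
      rcases le_total a b' with h | h
      · calc a * b' ≤ b' * b' := by gcongr
          _ = b' ^ 2 := (pow_two b').symm
          _ ≤ _ := le_add_self
      · calc a * b' ≤ a * a := by gcongr
          _ = a ^ 2 := (pow_two a).symm
          _ ≤ _ := le_self_add
    have hmb : Measurable fun g => ‖b g c‖ₑ ^ 2 := (hb.measurable c).enorm.pow_const 2
    calc _ ≤ ∫⁻ g in F, (ENNReal.ofReal s ^ 2 * (∫⁻ y in tsupport κ, ‖f (g * y) c‖ₑ ∂(mu n)) ^ 2 + ‖b g c‖ₑ ^ 2)
          ∂(mu n) := lintegral_mono fun g => h1 g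
      _ = ENNReal.ofReal s ^ 2 * (∫⁻ g in F, (∫⁻ y in tsupport κ, ‖f (g * y) c‖ₑ ∂(mu n)) ^ 2 ∂(mu n)) +
          ∫⁻ g in F, ‖b g c‖ₑ ^ 2 ∂(mu n) := by
          rw [lintegral_add_right _ hmb, lintegral_const_mul' _ _ (by simp)]
      _ < ∞ := by
          refine ENNReal.add_lt_top.2 ⟨ENNReal.mul_lt_top (by simp) ?_, hLb c⟩
          refine (ENNReal.le_tsum (f := fun c : XX H =>
            ∫⁻ g in F, (∫⁻ y in tsupport κ, ‖f (g * y) c‖ₑ ∂(mu n)) ^ 2 ∂(mu n)) c).trans_lt ?_
          refine (Cut.mean unimod hF hf (tsupport κ)).trans_lt ?_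
          rw [sq_int hf]
          exact ENNReal.mul_lt_top (ENNReal.pow_lt_top hBc.measure_lt_top) ((isL2_iff hf).1 hL)
  have hint2 : ∀ c : XX H, Integrable (fun u => (κ u : ℂ) * ∫ g in F, tra u f g c * star (b g c) ∂(mu n)) (mu n) := by
    intro c
    have h1 := (hint c).integral_prod_right
    refine h1.congr (.of_forall fun u => ?_)
    simp only
    rw [← integral_const_mul]
    refine integral_congr_ae (.of_forall fun g => ?_)
    simp only [tra]
    ring
  unfold ip
  simp only [tsum_fintype, Finset.mul_sum]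
  rw [integral_finsetSum _ fun c _ => hint2 c]
  refine Finset.sum_congr rfl fun c _ => ?_
  have e1 : ∀ u : GR n, (κ u : ℂ) * ∫ g in F, tra u f g c * star (b g c) ∂(mu n) =
      ∫ g in F, f (g * u) c * (κ u : ℂ) * star (b g c) ∂(mu n) := by
    intro u
    rw [← integral_const_mul]
    refine integral_congr_ae (.of_forall fun g => ?_)
    simp only [tra]
    ring
  simp only [e1]
  rw [← integral_integral_swap (hint c)]
  refine integral_congr_ae (.of_forall fun g => ?_)
  simp only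
  rw [integral_mul_const]
  rfl

/-- the inner product of two convolutions, from the matrix coefficient -/
theorem ip_Rc_Rc {F : Set (GR n)} (hF : IsFD F) {f h : GR n → XX H → ℂ} (hf : IsForm H f) (hh : IsForm H h)
    (hL : IsL2 F f) (hLh : IsL2 F h) {κ χ : GR n → ℝ} (hκ : Continuous κ) (hκc : HasCompactSupport κ)
    (hχ : Continuous χ) (hχc : HasCompactSupport χ) {Φ : GR n → ℂ} (hΦ : ∀ u, ip F (tra u f) h = Φ u) :
    ip F (Rc κ f) (Rc χ h) = ∫ u, (κ u : ℂ) * ∫ y, (χ y : ℂ) * Φ (y⁻¹ * u) ∂(mu n) ∂(mu n) := by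
  rw [ip_Rc hF hf (isForm_Rc hh hχ) hL (isL2_Rc hF hh hLh hχ hχc) hκ hκc]
  refine integral_congr_ae (.of_forall fun u => ?_)
  simp only
  congr 1
  rw [← ip_star, ip_Rc hF hh (isForm_tra hf u) hLh (isL2_tra hF hf hL u) hχ hχc, Complex.star_def, ← integral_conj]
  refine integral_congr_ae (.of_forall fun y => ?_)
  simp only [map_mul, Complex.conj_ofReal]
  congr 1
  rw [← Complex.star_def, ip_star, ← hΦ, ← ip_tra hF (isForm_tra hf (y⁻¹ * u)) hh (isL2_tra hF hf hL _) hLh y]
  congr 1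
  funext g c
  unfold tra
  congr 1
  group

end Pool.Agent.T2h77.N
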