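import Pool.Agent.T2h77N.McA
import Pool.Agent.T2h77N.Iw

/-!
# Cusp forms are small at the points of large height, with explicit constants, for smooth test functions
-/

set_option autoImplicit false

open MeasureTheory Matrix
open scoped MatrixGroups ENNReal Pointwise Topology

noncomputable section

namespace Pool.Agent.T2h77.N

theorem emb_closed (n : ℕ) : Topology.IsClosedEmbedding fun (g : GR n) (i j : Fin n) => g i j :=
  Matrix.SpecialLinearGroup.isClosedEmbedding_val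

theorem IsSm.continuous {n : ℕ} {χ : GR n → ℝ} (h : IsSm χ) : Continuous χ := by
  obtain ⟨Ψ, h1, -, h3⟩ := h
  have e : χ = fun g => Ψ fun i j => g i j := funext h3
  rw [e]
  exact h1.continuous.comp (emb_closed n).continuous

theorem IsSm.compact {n : ℕ} {χ : GR n → ℝ} (h : IsSm χ) : HasCompactSupport χ := by
  obtain ⟨Ψ, -, h2, h3⟩ := h
  have e : χ = Ψ ∘ fun (g : GR n) (i j : Fin n) => g i j := funext h3
  rw [e]
  exact h2.comp_isClosedEmbedding (emb_closed n)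

/-- a Lipschitz bound -/
theorem IsSm.lip {n : ℕ} {χ : GR n → ℝ} (h : IsSm χ) : ∃ L : ℝ, 0 ≤ L ∧ ∀ δ : ℝ, 0 < δ → n * δ ≤ 1 / 2 →
    ∀ x : GR n, (∀ a b, |x.1 a b - (1 : Matrix (Fin n) (Fin n) ℝ) a b| ≤ δ) → ∀ y, |χ y - χ (x⁻¹ * y)| ≤ L * δ := by
  obtain ⟨Ψ, h1, h2, h3⟩ := h
  obtain ⟨K, hK⟩ := ContDiff.lipschitzWith_of_hasCompactSupport h2 h1 one_ne_zero
  obtain ⟨R, hR⟩ := h2.isCompact.isBounded.exists_norm_le
  refine ⟨K * (n * (2 * |R|)), by positivity, fun δ hδ hnδ x hx y => ?_⟩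
  set z : GR n := x⁻¹ * y with hz
  have hyz : y = x * z := by rw [hz, mul_inv_cancel_left]
  set Y : Fin n → Fin n → ℝ := fun i j => y i j with hY
  set Z : Fin n → Fin n → ℝ := fun i j => z i j with hZ
  have hd : ‖Y - Z‖ ≤ n * δ * ‖Z‖ := by
    rw [pi_norm_le_iff_of_nonneg (by positivity)]
    intro a
    rw [pi_norm_le_iff_of_nonneg (by positivity)]
    intro b
    have e : (Y - Z) a b = ∑ c, (x.1 a c - (1 : Matrix (Fin n) (Fin n) ℝ) a c) * z.1 c b := by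
      have e1 : Y a b = (x.1 * z.1) a b := by rw [hY, hyz]; rfl
      have e2 : Z a b = ((1 : Matrix (Fin n) (Fin n) ℝ) * z.1) a b := by rw [one_mul]
      rw [Pi.sub_apply, Pi.sub_apply, e1, e2, ← Matrix.sub_apply, ← sub_mul, Matrix.mul_apply]
      rfl
    rw [e, Real.norm_eq_abs]
    calc |∑ c, (x.1 a c - (1 : Matrix (Fin n) (Fin n) ℝ) a c) * z.1 c b|
        ≤ ∑ c, |(x.1 a c - (1 : Matrix (Fin n) (Fin n) ℝ) a c) * z.1 c b| := Finset.abs_sum_le_sum_abs _ _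
      _ ≤ ∑ _c : Fin n, δ * ‖Z‖ := by
          refine Finset.sum_le_sum fun c _ => ?_
          rw [abs_mul]
          refine mul_le_mul (hx a c) ?_ (abs_nonneg _) hδ.le
          have := (norm_le_pi_norm (Z c) b).trans (norm_le_pi_norm Z c)
          rwa [Real.norm_eq_abs] at this
      _ = n * δ * ‖Z‖ := by
          rw [Finset.sum_const, Finset.card_univ, Fintype.card_fin, nsmul_eq_mul]
          ring
  have hΨ : |χ y - χ z| ≤ K * (n * δ * ‖Z‖) := by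
    rw [h3, h3, ← Real.dist_eq]
    refine (hK.dist_le_mul Y Z).trans ?_
    rw [dist_eq_norm]
    exact mul_le_mul_of_nonneg_left hd K.2
  by_cases hzs : Z ∈ tsupport Ψ
  · have := (hR Z hzs).trans (le_abs_self R)
    calc _ ≤ K * (n * δ * ‖Z‖) := hΨ
      _ ≤ K * (n * δ * (2 * |R|)) := by
          have : ‖Z‖ ≤ 2 * |R| := by linarith [abs_nonneg R]
          gcongr
      _ = _ := by ring
  by_cases hys : Y ∈ tsupport Ψ
  · have h4 := (hR Y hys).trans (le_abs_self R)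
    have h5 : ‖Z‖ ≤ 2 * |R| := by
      have h6 : ‖Z‖ ≤ ‖Y‖ + ‖Y - Z‖ := by
        have := norm_sub_le Y (Y - Z)
        rwa [sub_sub_cancel] at this
      have h7 : n * δ * ‖Z‖ ≤ 1 / 2 * ‖Z‖ := mul_le_mul_of_nonneg_right hnδ (norm_nonneg _)
      linarith
    calc _ ≤ K * (n * δ * ‖Z‖) := hΨ
      _ ≤ K * (n * δ * (2 * |R|)) := by gcongr
      _ = _ := by ring
  · have e1 : χ y = 0 := by rw [h3]; exact image_eq_zero_of_notMem_tsupport hys
    have e2 : χ z = 0 := by rw [h3]; exact image_eq_zero_of_notMem_tsupport hzs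
    rw [e1, e2, sub_zero, abs_zero]
    positivity

namespace Cut

open FixB

theorem conj_small' (hiw : S_iw) (n : ℕ) :
    ∃ W₁ : ℝ, 1 ≤ W₁ ∧ ∀ δ : ℝ, 0 < δ → δ ≤ 1 → ∀ W : ℝ, W₁ / δ ≤ W → ∀ s ∈ SG n, ∀ I : ℝ, 1 ≤ I →
      ∀ i j : Fin n, (i : ℕ) + 1 = j →
      W * I * ac s i < ac s j → ∀ x0 : Fin n → Fin n → ℝ, (∀ a b, |x0 a b| ≤ I) →
      ∀ a b, |(s⁻¹ * uk j x0 * s).1 a b - (1 : Matrix (Fin n) (Fin n) ℝ) a b| ≤ δ := by
  obtain ⟨W₁, hW₁, h⟩ := conj_small hiw n 1 one_pos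
  refine ⟨W₁, hW₁, fun δ hδ hδ1 W hW s hs I hI i j hij hlt x0 hx0 a b => ?_⟩
  have hpos : ∀ i, 0 < ac s i := (hiw n).1 s
  have h1 := h s hs (I / δ) ((one_le_div hδ).2 (by linarith)) i j hij (by
    calc W₁ * (I / δ) * ac s i = W₁ / δ * I * ac s i := by ring
      _ ≤ W * I * ac s i := by
          have := (hpos i).le
          gcongr
      _ < _ := hlt) (fun a b => x0 a b / δ) (fun a b => by
    rw [abs_div, abs_of_pos hδ]
    exact div_le_div_of_nonneg_right (hx0 a b) hδ.le) a b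
  have key : ∀ x : Fin n → Fin n → ℝ, (s⁻¹ * uk (j : ℕ) x * s).1 a b - (1 : Matrix (Fin n) (Fin n) ℝ) a b =
      ((s⁻¹ : GR n).1 * bl (j : ℕ) x * s.1) a b := by
    intro x
    have e2 : (s⁻¹ * uk j x * s).1 = (s⁻¹ : GR n).1 * (1 + bl (j : ℕ) x) * s.1 := by
      rw [uk_eq]; rfl
    have hinv1 : (s⁻¹ : GR n).1 * s.1 = 1 := by
      have : (s⁻¹ * s : GR n).1 = (1 : GR n).1 := by rw [inv_mul_cancel]
      exact this
    rw [e2, mul_add, add_mul, mul_one, hinv1, Matrix.add_apply, add_sub_cancel_left]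
  rw [key] at h1 ⊢
  have e3 : bl (j : ℕ) x0 = δ • bl (j : ℕ) (fun a b => x0 a b / δ) := by
    ext a b
    rw [Matrix.smul_apply, bl_apply, bl_apply]
    split_ifs
    · rw [smul_eq_mul, mul_div_cancel₀ _ hδ.ne']
    · rw [smul_zero]
  rw [e3, Matrix.mul_smul, Matrix.smul_mul, Matrix.smul_apply, smul_eq_mul, abs_mul, abs_of_pos hδ]
  calc _ ≤ δ * 1 := mul_le_mul_of_nonneg_left h1 hδ.le
    _ = δ := mul_one δ

/-- the explicit form of `cut` -/
theorem cutE {n : ℕ} {χ : GR n → ℝ} (hχ : IsSm χ) : ∃ C : ℝ, 1 ≤ C ∧ ∀ ε : ℝ, 0 < ε → ε ≤ 1 →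
    ∀ (N : ℕ) [NeZero N] (H : Subgroup (GN n N)) (F : Set (GR n)), IsFD F →
    ∀ f : GR n → XX H → ℂ, IsForm H f → IsL2 F f → IsCusp f →
      ∑' c : XX H, ∫⁻ g in F ∩ {x | ∃ γ : GZ n, io n γ * x ∈ SG n ∧
        ∃ i j : Fin n, (i : ℕ) + 1 = j ∧ C / ε * ixS H * ac (io n γ * x) i < ac (io n γ * x) j},
          ‖Rc χ f g c‖ₑ ^ 2 ∂(mu n) ≤
        ENNReal.ofReal ε * ∑' c : XX H, ∫⁻ g in F, ‖f g c‖ₑ ^ 2 ∂(mu n) := by
  have hiw : S_iw := iw
  obtain ⟨B, hB, hδ⟩ := exists_delta hχ.continuous hχ.compact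
  obtain ⟨δ₀, hδ₀0, hδ₀⟩ := hδ 1 one_pos
  obtain ⟨L, hL0, hL⟩ := hχ.lip
  obtain ⟨W₁, hW₁, hW⟩ := conj_small' hiw n
  set m : ℝ := (mu n B).toReal with hm
  have hm0 : 0 ≤ m := ENNReal.toReal_nonneg
  have hBm : mu n B = ENNReal.ofReal m := (ENNReal.ofReal_toReal hB.measure_lt_top.ne).symm
  set K : ℝ := 1 / δ₀ + (2 * n + 1) + (L + 1) * (m + 1) with hK
  have hK1 : 1 ≤ K := by
    have h1 : 0 < 1 / δ₀ := by positivity
    have h2 : 0 ≤ (L + 1) * (m + 1) := by positivity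
    have h3 : (0 : ℝ) ≤ n := Nat.cast_nonneg n
    linarith
  refine ⟨W₁ * K, one_le_mul_of_one_le_of_one_le hW₁ hK1, ?_⟩
  intro ε hε hε1 N _ H F hF f hf h2 hc
  have hsε : 0 < Real.sqrt ε := Real.sqrt_pos.mpr hε
  have hsε1 : Real.sqrt ε ≤ 1 := Real.sqrt_le_one.2 hε1
  have hsε2 : ε ≤ Real.sqrt ε := by
    calc ε = Real.sqrt ε * Real.sqrt ε := (Real.mul_self_sqrt hε.le).symm
      _ ≤ Real.sqrt ε * 1 := by gcongr
      _ = _ := mul_one _
  set ω : ℝ := Real.sqrt ε / (m + 1) with hω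
  have hω0 : 0 < ω := div_pos hsε (by linarith)
  set δ : ℝ := 1 / (K / ε) with hδdef
  have hδe : δ = ε / K := by rw [hδdef, one_div_div]
  have hδ0 : 0 < δ := by rw [hδe]; positivity
  have hδ1 : δ ≤ 1 := by
    rw [hδe, div_le_one (by linarith)]
    linarith
  have hδδ₀ : δ ≤ δ₀ := by
    rw [hδe, div_le_iff₀ (by linarith)]
    have h1 : 1 / δ₀ ≤ K := by
      have h2 : 0 ≤ (L + 1) * (m + 1) := by positivity
      have h3 : (0 : ℝ) ≤ n := Nat.cast_nonneg n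
      linarith
    calc ε ≤ 1 := hε1
      _ = δ₀ * (1 / δ₀) := by field_simp
      _ ≤ δ₀ * K := by gcongr
  have hnδ : n * δ ≤ 1 / 2 := by
    have h1 : 2 * (n : ℝ) + 1 ≤ K := by
      have h2 : 0 ≤ (L + 1) * (m + 1) := by positivity
      have h3 : 0 < 1 / δ₀ := by positivity
      linarith
    have h2 : 2 * (n : ℝ) ≤ K := by linarith
    rw [hδe, mul_div_assoc', div_le_iff₀ (by linarith)]
    have h3 : (0 : ℝ) ≤ n := Nat.cast_nonneg n
    nlinarith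
  have hLδ : L * δ ≤ ω := by
    have h1 : (L + 1) * (m + 1) ≤ K := by
      have h3 : 0 < 1 / δ₀ := by positivity
      have h4 : (0 : ℝ) ≤ n := Nat.cast_nonneg n
      linarith
    rw [hδe, hω, mul_div_assoc', div_le_div_iff₀ (by linarith) (by linarith)]
    calc L * ε * (m + 1) ≤ (L + 1) * Real.sqrt ε * (m + 1) := by gcongr; linarith
      _ = Real.sqrt ε * ((L + 1) * (m + 1)) := by ring
      _ ≤ Real.sqrt ε * K := by gcongr
  have hI : (1 : ℝ) ≤ ixS H := by exact_mod_cast ixS_pos H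
  set W : ℝ := W₁ * K / ε with hWdef
  have hWδ : W₁ / δ ≤ W := by
    rw [hδe, hWdef, div_div_eq_mul_div]
  have hS := measurable_high hiw n (W * ixS H)
  set S := {x : GR n | ∃ γ : GZ n, io n γ * x ∈ SG n ∧
        ∃ i j : Fin n, (i : ℕ) + 1 = j ∧ W * ixS H * ac (io n γ * x) i < ac (io n γ * x) j} with hSdef
  have hpt : ∀ (c : XX H), ∀ g ∈ S, ‖Rc χ f g c‖ₑ ^ 2 ≤
      ENNReal.ofReal ω ^ 2 * (∫⁻ y in B, ‖f (g * y) c‖ₑ ∂(mu n)) ^ 2 := by
    rintro c g ⟨γ, hγ, i, j, hij, hlt⟩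
    have h3 := point hF hf h2 hc hχ.continuous hχ.compact B hB ω δ hω0.le (fun h hh => ⟨fun y =>
        (hL δ hδ0 hnδ h hh y).trans hLδ, (hδ₀ h fun a b => (hh a b).trans hδδ₀).2⟩) (io n γ * g) i j hij
      (hW δ hδ0 hδ1 W hWδ _ hγ (ixS H) hI i j hij hlt) (rho n N γ • c)
    rw [Rc_inv hf] at h3
    have h4 : ∀ y, f (io n γ * g * y) (rho n N γ • c) = f (g * y) c := by
      intro y
      rw [mul_assoc, ← rdM_eq, hf.invariant]
    simp only [h4] at h3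
    rw [← mul_pow]
    exact pow_le_pow_left₀ (by simp) h3 2
  calc ∑' c : XX H, ∫⁻ g in F ∩ S, ‖Rc χ f g c‖ₑ ^ 2 ∂(mu n)
      ≤ ∑' c : XX H, ∫⁻ g in F ∩ S, ENNReal.ofReal ω ^ 2 * (∫⁻ y in B, ‖f (g * y) c‖ₑ ∂(mu n)) ^ 2 ∂(mu n) :=
        ENNReal.tsum_le_tsum fun c => setLIntegral_mono' (hF.1.inter hS) fun g hg => hpt c g hg.2
    _ ≤ ∑' c : XX H, ∫⁻ g in F, ENNReal.ofReal ω ^ 2 * (∫⁻ y in B, ‖f (g * y) c‖ₑ ∂(mu n)) ^ 2 ∂(mu n) :=
        ENNReal.tsum_le_tsum fun c => lintegral_mono_set Set.inter_subset_left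
    _ = ENNReal.ofReal ω ^ 2 * ∑' c : XX H, ∫⁻ g in F, (∫⁻ y in B, ‖f (g * y) c‖ₑ ∂(mu n)) ^ 2 ∂(mu n) := by
        rw [← ENNReal.tsum_mul_left]
        refine tsum_congr fun c => ?_
        rw [lintegral_const_mul' _ _ (by simp)]
    _ ≤ ENNReal.ofReal ω ^ 2 * ((mu n B) ^ 2 * ∑' c : XX H, ∫⁻ g in F, ‖f g c‖ₑ ^ 2 ∂(mu n)) := by
        gcongr
        exact mean unimod hF hf B
    _ ≤ ENNReal.ofReal ε * ∑' c : XX H, ∫⁻ g in F, ‖f g c‖ₑ ^ 2 ∂(mu n) := by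
        rw [← mul_assoc]
        gcongr
        rw [← mul_pow, hBm, ← ENNReal.ofReal_mul hω0.le, ← ENNReal.ofReal_pow (by positivity)]
        refine ENNReal.ofReal_le_ofReal ?_
        have h5 : ω * m ≤ Real.sqrt ε := by
          rw [hω, div_mul_eq_mul_div, div_le_iff₀ (by linarith)]
          have := Real.sqrt_nonneg ε
          nlinarith
        calc (ω * m) ^ 2 ≤ (Real.sqrt ε) ^ 2 := by gcongr
          _ = ε := Real.sq_sqrt hε.le

end Cut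

end Pool.Agent.T2h77.N
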