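import Pool.Agent.T2h77N.McB
import Pool.Agent.T2h77N.AsmI2
import Pool.Agent.T2h77N.Red
import Pool.Agent.T2h77N.Cell
import Pool.Agent.T2h77N.Int
import Pool.Agent.T2h77N.Ent
import Pool.Agent.T2h77N.Gen
import Pool.Agent.T2h77N.Prim
import Pool.Agent.T2h77N.FixA
import Pool.Agent.T2h77N.FixB
import Pool.Agent.T2h77N.Fix
import Pool.Agent.T2h77N.Count
import Pool.Agent.T2h77N.Low2
import Pool.Agent.T2h77N.Trace2
import Pool.Agent.T2h77N.Hsn

/-!
# The mean value theorem for matrix coefficients of cusp forms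
-/

set_option autoImplicit false

open MeasureTheory Matrix
open scoped MatrixGroups ENNReal Pointwise Topology

noncomputable section

namespace Pool.Agent.T2h77.N

/-- bound of the inner product by masses in a region -/
theorem region_cs {n N : ℕ} {H : Subgroup (GN n N)} {a b : GR n → XX H → ℂ} [NeZero N]
    (ha : IsForm H a) (hb : IsForm H b) (S : Set (GR n)) {t : ℝ} (ht : 0 < t) :
    ∫⁻ g in S, ∑' c : XX H, ‖a g c‖ₑ * ‖b g c‖ₑ ∂(mu n) ≤
      ENNReal.ofReal (t / 2) * ∫⁻ g in S, sq a g ∂(mu n) + ENNReal.ofReal (1 / (2 * t)) * ∫⁻ g in S, sq b g ∂(mu n) := by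
  have hp : ∀ x y : ℂ, ‖x‖ₑ * ‖y‖ₑ ≤ ENNReal.ofReal (t / 2) * ‖x‖ₑ ^ 2 + ENNReal.ofReal (1 / (2 * t)) * ‖y‖ₑ ^ 2 := by
    intro x y
    rw [← ofReal_norm, ← ofReal_norm, ← ENNReal.ofReal_mul (norm_nonneg _), ← ENNReal.ofReal_pow (norm_nonneg _),
      ← ENNReal.ofReal_pow (norm_nonneg _), ← ENNReal.ofReal_mul (by positivity), ← ENNReal.ofReal_mul (by positivity),
      ← ENNReal.ofReal_add (by positivity) (by positivity)]
    refine ENNReal.ofReal_le_ofReal ?_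
    have e : t / 2 * ‖x‖ ^ 2 + 1 / (2 * t) * ‖y‖ ^ 2 - ‖x‖ * ‖y‖ = (t * ‖x‖ - ‖y‖) ^ 2 / (2 * t) := by
      field_simp
      ring
    have : 0 ≤ (t * ‖x‖ - ‖y‖) ^ 2 / (2 * t) := by positivity
    linarith
  rw [← lintegral_const_mul _ (measurable_sq ha), ← lintegral_const_mul _ (measurable_sq hb),
    ← lintegral_add_left ((measurable_sq ha).const_mul _)]
  refine lintegral_mono fun g => ?_
  unfold sq
  rw [← ENNReal.tsum_mul_left, ← ENNReal.tsum_mul_left, ← ENNReal.tsum_add]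
  exact ENNReal.tsum_le_tsum fun c => hp _ _

theorem ip_le {n N : ℕ} {H : Subgroup (GN n N)} {F : Set (GR n)} {a b : GR n → XX H → ℂ} [NeZero N]
    (ha : IsForm H a) (hb : IsForm H b) :
    ‖ip F a b‖ₑ ≤ ∫⁻ g in F, ∑' c : XX H, ‖a g c‖ₑ * ‖b g c‖ₑ ∂(mu n) := by
  have : Fintype (XX H) := Fintype.ofFinite _
  have hm : ∀ c : XX H, AEMeasurable (fun g => ‖a g c‖ₑ * ‖b g c‖ₑ) ((mu n).restrict F) := fun c =>
    ((ha.measurable c).enorm.mul (hb.measurable c).enorm).aemeasurable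
  unfold ip
  rw [lintegral_tsum hm]
  rw [tsum_fintype, tsum_fintype]
  refine (enorm_sum_le _ _).trans (Finset.sum_le_sum fun c _ => ?_)
  refine (enorm_integral_le_lintegral_enorm _).trans (le_of_eq (lintegral_congr fun g => ?_))
  rw [enorm_mul]
  congr 1
  rw [← ofReal_norm, ← ofReal_norm, norm_star]

/-- the real inequality behind the theorem -/
theorem real_ineq {k Q cb ca BL Bm ε : ℝ} (hQ : 0 < Q) (hcb : 0 < cb) (hca : 0 < ca) (hk : 0 ≤ k)
    (hε : ε ≤ Q ^ 2 / (16 * ca))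
    (h : k * Q ≤ 2 * cb / Q / 2 * BL + 1 / (2 * (2 * cb / Q)) * (k * cb) + Q / (4 * ca) / 2 * (k * ca) +
      1 / (2 * (Q / (4 * ca))) * Bm + Q / (4 * ca) / 2 * (k * ca) + 1 / (2 * (Q / (4 * ca))) * (k * ε)) (hBL : 0 ≤ BL)
    (hBm : 0 ≤ Bm) :
    k ≤ 6 * (cb * BL + ca * Bm) / Q ^ 2 := by
  have e1 : 2 * cb / Q / 2 * BL = cb * BL / Q := by field_simp
  have e2 : 1 / (2 * (2 * cb / Q)) * (k * cb) = k * Q / 4 := by field_simp; ring
  have e3 : Q / (4 * ca) / 2 * (k * ca) = k * Q / 8 := by field_simp; ring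
  have e4 : 1 / (2 * (Q / (4 * ca))) * Bm = 2 * ca * Bm / Q := by field_simp; ring
  have e5 : 1 / (2 * (Q / (4 * ca))) * (k * ε) ≤ k * Q / 8 := by
    calc 1 / (2 * (Q / (4 * ca))) * (k * ε) ≤ 1 / (2 * (Q / (4 * ca))) * (k * (Q ^ 2 / (16 * ca))) := by gcongr
      _ = k * Q / 8 := by field_simp; ring
  rw [e1, e2, e3, e4] at h
  have h1 : k * Q * (3 / 8) ≤ (cb * BL + 2 * ca * Bm) / Q := by
    have : (cb * BL + 2 * ca * Bm) / Q = cb * BL / Q + 2 * ca * Bm / Q := by ring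
    rw [this]
    linarith
  rw [le_div_iff₀ hQ] at h1
  rw [le_div_iff₀ (by positivity)]
  have h2 : 0 ≤ cb * BL := by positivity
  have h3 : 0 ≤ ca * Bm := by positivity
  nlinarith

theorem one_add_log_mul {B D η : ℝ} (hB : 1 ≤ B) (hD : 1 ≤ D) (hη : 0 ≤ η) (hη1 : η ≤ 1) :
    1 + Real.log (B * D ^ η) ≤ (1 + Real.log B) * (1 + Real.log D) := by
  have hD0 : 0 < D := by linarith
  have hl : 0 ≤ Real.log D := Real.log_nonneg hD
  have hlB : 0 ≤ Real.log B := Real.log_nonneg hB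
  rw [Real.log_mul (by positivity) (by positivity), Real.log_rpow hD0]
  nlinarith [mul_nonneg hlB hl, mul_nonneg hη hl]

set_option maxHeartbeats 1600000 in
theorem master (n : ℕ) (hn : 3 ≤ n) : ∃ η A : ℝ, 0 < η ∧ η ≤ 1 ∧ 1 ≤ A ∧ ∀ χ : GR n → ℝ, IsSm χ →
    ∃ C : ℝ, 1 ≤ C ∧ ∀ (N : ℕ) [NeZero N] (H : Subgroup (GN n N)) (F : Set (GR n)), IsFD F →
    ∀ (k : ℕ) (f h : Fin k → GR n → XX H → ℂ), (∀ i, IsForm H (f i) ∧ IsL2 F (f i)) →
      (∀ i, IsForm H (h i) ∧ IsL2 F (h i) ∧ IsCusp (h i)) →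
      (∀ i j, ip F (f i) (f j) = if i = j then 1 else 0) →
      (∀ i j, ip F (h i) (h j) = if i = j then 1 else 0) →
      ∀ (κ : GR n → ℝ) (R G s v ca V₂ Q : ℝ), Continuous κ → HasCompactSupport κ → 1 ≤ R → 1 ≤ G →
        R ^ n ≤ G * (ixS H : ℝ) ^ η → (∀ g, κ g ≠ 0 → hsn g ≤ R) → (∀ g, |κ g| ≤ s) → 0 ≤ v →
        mu n {g | hsn g ≤ R} ≤ ENNReal.ofReal v → 0 < ca → (s * v) ^ 2 ≤ ca → ∫ g, κ g ^ 2 ∂(mu n) ≤ V₂ → 0 < Q →
        (∀ i, Q ≤ ‖ip F (Rc κ (f i)) (Rc χ (h i))‖) →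
        (k : ℝ) ≤ C * H.index * (G ^ A * (1 + Real.log (ixS H)) ^ n * V₂ +
          ca * (ixS H : ℝ) ^ (-η) * (1 + Real.log (C * (1 + ca / Q ^ 2) * ixS H)) ^ n) / Q ^ 2 := by
  classical
  have hiw : S_iw := iw
  have hfix : S_fix := fix fixA (fixB gen orb) prim
  have hred : S_red := red'
  have hint : S_int := int_bound iw (cell iw)
  have hent : S_ent := ent iw
  have hcov : S_cov := cov
  have hrcf : S_rcf := rcf
  obtain ⟨A₁, C₁, hA₁, hC₁, hlow⟩ := low2 hiw hfix n hn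
  obtain ⟨A₂, hA₂, hhigh⟩ := high hiw hent hfix n hn
  obtain ⟨Cn, hCn, hent2⟩ := entry_bound n
  set A : ℝ := max A₁ A₂ with hA
  have hA1 : 1 ≤ A := hA₁.trans (le_max_left _ _)
  set η : ℝ := 1 / (2 * A ^ 2) with hη
  have hη0 : 0 < η := by positivity
  have hη1 : η ≤ 1 := by
    rw [hη, div_le_one (by positivity)]
    nlinarith
  refine ⟨η, A₁, hη0, hη1, hA₁, fun χ hχ => ?_⟩
  obtain ⟨M, Ct, hCt, htr⟩ := trace n χ hχ.continuous hχ.compact
  obtain ⟨Ch, hCh, hhigh⟩ := hhigh M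
  obtain ⟨Cc, hCc, hcut⟩ := Cut.cutE hχ
  obtain ⟨Ci, hCi, hi⟩ := hint n
  obtain ⟨Cv, hCv, hv⟩ := vol_SL hiw hent hint n
  obtain ⟨sχ, hsχ0, hsχ⟩ := Cut.exists_bound hχ.continuous hχ.compact
  set vχ : ℝ := (mu n (tsupport χ)).toReal with hvχ
  have hvχ0 : 0 ≤ vχ := ENNReal.toReal_nonneg
  have hvχe : mu n (tsupport χ) = ENNReal.ofReal vχ :=
    (ENNReal.ofReal_toReal (IsCompact.measure_lt_top hχ.compact).ne).symm
  set cb : ℝ := (sχ * vχ) ^ 2 + 1 with hcb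
  have hcb0 : 0 < cb := by positivity
  set K₁ : ℝ := 6 * cb * (2 + C₁ * (Cn * Ch) ^ A₁) * Cv * (1 + Real.log Ch) ^ n with hK₁
  set K₂ : ℝ := 6 * (Ct * (Ch * 2) * Ci) with hK₂
  have hlogCh : 0 ≤ Real.log Ch := Real.log_nonneg hCh
  have hK₁0 : 0 ≤ K₁ := by positivity
  have hK₂0 : 0 ≤ K₂ := by positivity
  set C : ℝ := K₁ + K₂ + 16 * Cc with hC
  refine ⟨C, by linarith, fun N _ H F hF k f h hf hh horth horth' κ R G s v ca V₂ Q hκ hκc hR hG hRG hκR hκs hv0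
    hmv hca hsv hV₂ hQ hip => ?_⟩
  set D : ℝ := (ixS H : ℝ) with hD
  have hD1 : 1 ≤ D := by
    rw [hD]
    exact_mod_cast ixS_pos H
  have hD0 : 0 < D := by linarith
  have hDη : 1 ≤ D ^ η := Real.one_le_rpow hD1 hη0.le
  have hlogD : 0 ≤ Real.log D := Real.log_nonneg hD1
  set m : ℝ := (H.index : ℝ) with hm
  have hm0 : 0 ≤ m := Nat.cast_nonneg _
  set Y : ℝ := Ch * D ^ η with hY
  have hY1 : 1 ≤ Y := one_le_mul_of_one_le_of_one_le hCh hDη
  have hlogY : 0 ≤ Real.log Y := Real.log_nonneg hY1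
  set ε : ℝ := min 1 (Q ^ 2 / (16 * ca)) with hε
  have hε0 : 0 < ε := lt_min one_pos (by positivity)
  have hε1 : ε ≤ 1 := min_le_left _ _
  have hε2 : ε ≤ Q ^ 2 / (16 * ca) := min_le_right _ _
  set W : ℝ := Cc / ε with hW
  have hW1 : 1 ≤ W := (one_le_div hε0).2 (by linarith)
  have hWle : W ≤ C * (1 + ca / Q ^ 2) := by
    have h1 : 1 / ε ≤ 1 + 16 * ca / Q ^ 2 := by
      rcases min_choice (1 : ℝ) (Q ^ 2 / (16 * ca)) with h2 | h2
      · rw [hε, h2]
        have : 0 ≤ 16 * ca / Q ^ 2 := by positivity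
        linarith
      · rw [hε, h2, one_div_div]
        linarith
    have h2 : 0 ≤ ca / Q ^ 2 := by positivity
    calc W = Cc * (1 / ε) := by rw [hW]; ring
      _ ≤ Cc * (1 + 16 * ca / Q ^ 2) := by gcongr
      _ = Cc + 16 * Cc * (ca / Q ^ 2) := by ring
      _ ≤ C + C * (ca / Q ^ 2) := by
          have h3 : Cc ≤ C := by linarith
          have h4 : 16 * Cc ≤ C := by linarith
          gcongr
      _ = _ := by ring
  have hWD : 1 ≤ W * D := one_le_mul_of_one_le_of_one_le hW1 hD1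
  have hlogW : 0 ≤ Real.log (W * D) := Real.log_nonneg hWD
  have hfa : ∀ i, IsForm H (Rc κ (f i)) := fun i => isForm_Rc (hf i).1 hκ
  have hhb : ∀ i, IsForm H (Rc χ (h i)) := fun i => isForm_Rc (hh i).1 hχ.continuous
  -- the norms
  have hna : ∀ i, ∫⁻ g in F, sq (Rc κ (f i)) g ∂(mu n) ≤ ENNReal.ofReal ca := by
    intro i
    have hBm : MeasurableSet {g : GR n | hsn g ≤ R} := (hsn_compact R).measurableSet
    refine (sq_Rc_le hF (hf i).1 hκ hκs hBm (fun y hy => ?_)).trans ?_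
    · by_contra h1
      exact hy (hκR y h1)
    · rw [norm_of_ip (hf i).1 (hf i).2 (by rw [horth, if_pos rfl]), mul_one]
      have hs0 : 0 ≤ s := (abs_nonneg _).trans (hκs 1)
      calc (ENNReal.ofReal s * mu n {g | hsn g ≤ R}) ^ 2 ≤ (ENNReal.ofReal s * ENNReal.ofReal v) ^ 2 := by gcongr
        _ = ENNReal.ofReal ((s * v) ^ 2) := by
            rw [← ENNReal.ofReal_mul hs0, ← ENNReal.ofReal_pow (by positivity)]
        _ ≤ _ := ENNReal.ofReal_le_ofReal hsv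
  have hnb : ∀ i, ∫⁻ g in F, sq (Rc χ (h i)) g ∂(mu n) ≤ ENNReal.ofReal cb := by
    intro i
    refine (sq_Rc_le hF (hh i).1 hχ.continuous hsχ (B := tsupport χ) (IsCompact.measurableSet hχ.compact)
      (fun y hy => image_eq_zero_of_notMem_tsupport hy)).trans ?_
    rw [norm_of_ip (hh i).1 (hh i).2.1 (by rw [horth', if_pos rfl]), mul_one, hvχe, ← ENNReal.ofReal_mul hsχ0,
      ← ENNReal.ofReal_pow (by positivity)]
    exact ENNReal.ofReal_le_ofReal (by linarith)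
  -- the three regions
  set S₃ : Set (GR n) := {x | ∃ γ : GZ n, io n γ * x ∈ SG n ∧
        ∃ i j : Fin n, (i : ℕ) + 1 = j ∧ W * ixS H * ac (io n γ * x) i < ac (io n γ * x) j} with hS₃
  have hsub : F ⊆ ((F ∩ sat (SL n Y)) ∪ (F ∩ sat (SH n Y (W * ixS H)))) ∪ (F ∩ S₃) := by
    intro x hx
    obtain ⟨γ, hγ⟩ := hred n x
    by_cases h2 : ∀ i j : Fin n, (i : ℕ) + 1 = j → ac (io n γ * x) j ≤ Y * ac (io n γ * x) i
    · exact Or.inl (Or.inl ⟨hx, γ, hγ, h2⟩)
    · by_cases h3 : ∀ i j : Fin n, (i : ℕ) + 1 = j → ac (io n γ * x) j ≤ W * ixS H * ac (io n γ * x) i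
      · refine Or.inl (Or.inr ⟨hx, γ, ⟨hγ, h3⟩, ?_⟩)
        push Not at h2
        obtain ⟨i, j, hij, h4⟩ := h2
        exact ⟨i, j, hij, h4.le⟩
      · push Not at h3
        obtain ⟨i, j, hij, h4⟩ := h3
        exact Or.inr ⟨hx, γ, hγ, i, j, hij, h4⟩
  -- the low region
  set φ : ℝ := m * (2 + C₁ * (Cn * G * Ch) ^ A₁) with hφ
  have hφ0 : 0 ≤ φ := by positivity
  have hcount : ∀ x ∈ SL n Y, (∑' c : XX H, (Nat.card (cs H {1} 1 (Cn * G * D ^ η) x c) : ℝ)) ≤ φ := by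
    intro x hx
    have hG' : 1 ≤ Cn * G := one_le_mul_of_one_le_of_one_le hCn hG
    have h2 := hlow N H (Cn * G * D ^ η) Y x (one_le_mul_of_one_le_of_one_le hG' hDη) hY1 hx.1 hx.2
    refine h2.trans ?_
    have h3 := pow_low (Ch := Cn * G * Ch) hA₁ (le_max_left _ _ : A₁ ≤ A) hη (one_le_mul_of_one_le_of_one_le hG' hCh)
      hD1 (by linarith : (0:ℝ) ≤ D ^ η) le_rfl
    have e : Cn * G * D ^ η * Y = D ^ η * (Cn * G * Ch * D ^ η) := by rw [hY]; ring
    rw [e]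
    refine mul_le_mul_of_nonneg_left ?_ hm0
    have h4 : C₁ * (D ^ η * (Cn * G * Ch * D ^ η)) ^ A₁ * D ^ (-(1 / A₁)) ≤ C₁ * (Cn * G * Ch) ^ A₁ := by
      rw [mul_assoc]
      exact mul_le_mul_of_nonneg_left h3 (by linarith)
    linarith
  have hV : mu n (SL n Y) ≤ ENNReal.ofReal (Cv * (1 + Real.log Y) ^ n) := hv Y hY1
  have hV₂0 : 0 ≤ V₂ := (integral_nonneg fun g => sq_nonneg (κ g)).trans hV₂
  set BL : ℝ := V₂ * φ * (Cv * (1 + Real.log Y) ^ n) / 1 with hBL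
  have hBL0 : 0 ≤ BL := by positivity
  have hMK : ∀ y y' : GR n, κ y ≠ 0 → κ y' ≠ 0 → ∀ i j, |(y * y'⁻¹) i j| ≤ Cn * G * D ^ η := by
    intro y y' hy hy' i j
    refine (hent2 R y y' hR (hκR y hy) (hκR y' hy') i j).trans ?_
    rw [mul_assoc]
    exact mul_le_mul_of_nonneg_left hRG (by linarith)
  have hSL : ∑ i, ∫⁻ g in F ∩ sat (SL n Y), sq (Rc κ (f i)) g ∂(mu n) ≤ ENNReal.ofReal BL := by
    have htr2 := fun g c => trace2 n κ hκ hκc (Cn * G * D ^ η) hMK N H F hF k f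
      (fun i => (hf i).1) (fun i => (hf i).2) horth g c
    refine low_bound hcov hrcf hiw hκ hκc hF (fun i => (hf i).1) (fun i => (hf i).2) (M := Cn * G * D ^ η) (C := V₂)
      one_pos (isReps_one n) (fun g c => ⟨(htr2 g c).1, ?_⟩) hV₂0 Finset.univ (fun _ => 1)
      (fun i _ g c => by rw [Finset.sum_singleton, scl_one, rdM_one, one_mul, one_smul, one_mul]) Y φ 1 _ hφ0 hcount
      one_pos (fun i _ => by simp) hV
    simp only [Finset.sum_singleton, scl_one, rdM_one, one_mul, one_smul]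
    exact (htr2 g c).2.trans (ENNReal.ofReal_le_ofReal (by gcongr))
  -- the middle region
  set Bm : ℝ := Ct * (Ch * m * (2 * D ^ (-η))) * (Ci * (1 + Real.log (W * D)) ^ n) with hBm
  have hBm0 : 0 ≤ Bm := by positivity
  have hSH : ∑ i, ∫⁻ g in F ∩ sat (SH n Y (W * ixS H)), sq (Rc χ (h i)) g ∂(mu n) ≤ ENNReal.ofReal Bm := by
    have h1 := high_bound hcov hrcf hiw hχ.continuous hχ.compact hF (fun i => (hh i).1) (fun i => (hh i).2.1)
      (M := M) (C := Ct)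
      (fun g c => htr N H F hF k h (fun i => (hh i).1) (fun i => (hh i).2.1) horth' 1 {1} one_pos (by simp)
        (isReps_one n) g c) hCt.le Y (W * D) (Ch * m * (2 * D ^ (-η))) (Ci * (1 + Real.log (W * D)) ^ n)
      (by positivity) ?_ (hi (W * D) hWD)
    · exact h1
    · intro x hx
      obtain ⟨⟨hxS, -⟩, hx2⟩ := hx
      have h2 := hhigh N H (D ^ η) x hDη hxS hx2
      refine h2.trans ?_
      have h3 := pow_high hA₂ (le_max_right _ _ : A₂ ≤ A) hη hD1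
      have h4 : 0 ≤ wt (ac x) := by
        unfold wt
        refine Finset.prod_nonneg fun i _ => Finset.prod_nonneg fun j _ => ?_
        split_ifs
        · exact div_nonneg (norm_nonneg _) (norm_nonneg _)
        · exact zero_le_one
      calc Ch * m * wt (ac x) * ((D ^ η)⁻¹ + (D ^ η) ^ A₂ * D ^ (-(1 / A₂)))
          ≤ Ch * m * wt (ac x) * (2 * D ^ (-η)) := by gcongr
        _ = Ch * m * (2 * D ^ (-η)) * wt (ac x) := by ring
  -- the top region
  have hS3 : ∀ i, ∫⁻ g in F ∩ S₃, sq (Rc χ (h i)) g ∂(mu n) ≤ ENNReal.ofReal ε := by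
    intro i
    have h1 := hcut ε hε0 hε1 N H F hF (h i) (hh i).1 (hh i).2.1 (hh i).2.2
    rw [sq_int (hhb i), sq_int (hh i).1, norm_of_ip (hh i).1 (hh i).2.1 (by rw [horth', if_pos rfl]), mul_one] at h1
    exact h1
  -- the sum
  set t₁ : ℝ := 2 * cb / Q with ht₁
  set t₂ : ℝ := Q / (4 * ca) with ht₂
  have ht₁0 : 0 < t₁ := by positivity
  have ht₂0 : 0 < t₂ := by positivity
  have hone : ∀ i, ENNReal.ofReal Q ≤
      (ENNReal.ofReal (t₁ / 2) * ∫⁻ g in F ∩ sat (SL n Y), sq (Rc κ (f i)) g ∂(mu n) +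
        ENNReal.ofReal (1 / (2 * t₁)) * ENNReal.ofReal cb) +
      (ENNReal.ofReal (t₂ / 2) * ENNReal.ofReal ca +
        ENNReal.ofReal (1 / (2 * t₂)) * ∫⁻ g in F ∩ sat (SH n Y (W * ixS H)), sq (Rc χ (h i)) g ∂(mu n)) +
      (ENNReal.ofReal (t₂ / 2) * ENNReal.ofReal ca + ENNReal.ofReal (1 / (2 * t₂)) * ENNReal.ofReal ε) := by
    intro i
    have h1 : ENNReal.ofReal Q ≤ ‖ip F (Rc κ (f i)) (Rc χ (h i))‖ₑ := by
      rw [← ofReal_norm]
      exact ENNReal.ofReal_le_ofReal (hip i)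
    refine h1.trans ((ip_le (hfa i) (hhb i)).trans ((lintegral_mono_set hsub).trans
      ((lintegral_union_le _ _ _).trans (add_le_add ((lintegral_union_le _ _ _).trans (add_le_add ?_ ?_)) ?_))))
    · refine (region_cs (hfa i) (hhb i) _ ht₁0).trans (add_le_add le_rfl ?_)
      gcongr
      exact (lintegral_mono_set Set.inter_subset_left).trans (hnb i)
    · refine (region_cs (hfa i) (hhb i) _ ht₂0).trans (add_le_add ?_ le_rfl)
      gcongr
      exact (lintegral_mono_set Set.inter_subset_left).trans (hna i)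
    · refine (region_cs (hfa i) (hhb i) _ ht₂0).trans (add_le_add ?_ ?_)
      · gcongr
        exact (lintegral_mono_set Set.inter_subset_left).trans (hna i)
      · gcongr
        exact hS3 i
  have hcst : ∀ x : ℝ, 0 ≤ x → ∑ _i : Fin k, ENNReal.ofReal x = ENNReal.ofReal (k * x) := by
    intro x hx
    rw [Finset.sum_const, Finset.card_univ, Fintype.card_fin, nsmul_eq_mul, ENNReal.ofReal_mul (by positivity),
      ENNReal.ofReal_natCast]
  have htot : ENNReal.ofReal (k * Q) ≤ ENNReal.ofReal (t₁ / 2 * BL + 1 / (2 * t₁) * (k * cb) + t₂ / 2 * (k * ca) +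
      1 / (2 * t₂) * Bm + t₂ / 2 * (k * ca) + 1 / (2 * t₂) * (k * ε)) := by
    calc ENNReal.ofReal (k * Q) = ∑ _i : Fin k, ENNReal.ofReal Q := (hcst Q hQ.le).symm
      _ ≤ _ := Finset.sum_le_sum fun i _ => hone i
      _ = (ENNReal.ofReal (t₁ / 2) * (∑ i, ∫⁻ g in F ∩ sat (SL n Y), sq (Rc κ (f i)) g ∂(mu n)) +
            ENNReal.ofReal (1 / (2 * t₁)) * ∑ _i : Fin k, ENNReal.ofReal cb) +
          (ENNReal.ofReal (t₂ / 2) * (∑ _i : Fin k, ENNReal.ofReal ca) +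
            ENNReal.ofReal (1 / (2 * t₂)) *
              ∑ i, ∫⁻ g in F ∩ sat (SH n Y (W * ixS H)), sq (Rc χ (h i)) g ∂(mu n)) +
          (ENNReal.ofReal (t₂ / 2) * (∑ _i : Fin k, ENNReal.ofReal ca) +
            ENNReal.ofReal (1 / (2 * t₂)) * ∑ _i : Fin k, ENNReal.ofReal ε) := by
          simp only [Finset.sum_add_distrib, Finset.mul_sum]
      _ ≤ (ENNReal.ofReal (t₁ / 2) * ENNReal.ofReal BL + ENNReal.ofReal (1 / (2 * t₁)) * ENNReal.ofReal (k * cb)) +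
          (ENNReal.ofReal (t₂ / 2) * ENNReal.ofReal (k * ca) + ENNReal.ofReal (1 / (2 * t₂)) * ENNReal.ofReal Bm) +
          (ENNReal.ofReal (t₂ / 2) * ENNReal.ofReal (k * ca) +
            ENNReal.ofReal (1 / (2 * t₂)) * ENNReal.ofReal (k * ε)) := by
          rw [hcst cb hcb0.le, hcst ca hca.le, hcst ε hε0.le]
          gcongr
      _ = _ := by
          rw [← ENNReal.ofReal_mul (by positivity), ← ENNReal.ofReal_mul (by positivity),
            ← ENNReal.ofReal_mul (by positivity), ← ENNReal.ofReal_mul (by positivity),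
            ← ENNReal.ofReal_mul (by positivity), ← ENNReal.ofReal_add (by positivity) (by positivity),
            ← ENNReal.ofReal_add (by positivity) (by positivity), ← ENNReal.ofReal_add (by positivity) (by positivity),
            ← ENNReal.ofReal_add (by positivity) (by positivity), ← ENNReal.ofReal_add (by positivity) (by positivity)]
          congr 1
          ring
  have hreal := (ENNReal.ofReal_le_ofReal_iff (by positivity)).1 htot
  have hfin := real_ineq hQ hcb0 hca (Nat.cast_nonneg k) hε2 hreal hBL0 hBm0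
  refine hfin.trans ?_
  have hQ2 : 0 < Q ^ 2 := by positivity
  rw [div_le_div_iff_of_pos_right hQ2]
  have e1 : 1 + Real.log Y ≤ (1 + Real.log Ch) * (1 + Real.log D) := one_add_log_mul hCh hD1 hη0.le hη1
  have hGA : 1 ≤ G ^ A₁ := Real.one_le_rpow hG (by linarith)
  have b1 : 6 * (cb * BL) ≤ K₁ * m * (G ^ A₁ * (1 + Real.log D) ^ n * V₂) := by
    have h1 : 2 + C₁ * (Cn * G * Ch) ^ A₁ ≤ (2 + C₁ * (Cn * Ch) ^ A₁) * G ^ A₁ := by
      have e : (Cn * G * Ch) ^ A₁ = (Cn * Ch) ^ A₁ * G ^ A₁ := by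
        rw [← Real.mul_rpow (by positivity) (by positivity)]
        congr 1
        ring
      rw [e, add_mul]
      have : 0 ≤ C₁ * (Cn * Ch) ^ A₁ := by positivity
      nlinarith
    have h2 : (1 + Real.log Y) ^ n ≤ (1 + Real.log Ch) ^ n * (1 + Real.log D) ^ n := by
      rw [← mul_pow]
      gcongr
    calc 6 * (cb * BL) = 6 * cb * (V₂ * (m * (2 + C₁ * (Cn * G * Ch) ^ A₁)) * (Cv * (1 + Real.log Y) ^ n)) := by
          rw [hBL, hφ]; ring
      _ ≤ 6 * cb * (V₂ * (m * ((2 + C₁ * (Cn * Ch) ^ A₁) * G ^ A₁)) *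
          (Cv * ((1 + Real.log Ch) ^ n * (1 + Real.log D) ^ n))) := by gcongr
      _ = _ := by rw [hK₁]; ring
  have b2 : 6 * (ca * Bm) ≤ K₂ * m * (ca * D ^ (-η) * (1 + Real.log (C * (1 + ca / Q ^ 2) * D)) ^ n) := by
    have h1 : Real.log (W * D) ≤ Real.log (C * (1 + ca / Q ^ 2) * D) :=
      Real.log_le_log (by positivity) (by gcongr)
    calc 6 * (ca * Bm) = K₂ * m * (ca * D ^ (-η) * (1 + Real.log (W * D)) ^ n) := by
          rw [hBm, hK₂]; ring
      _ ≤ _ := by gcongr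
  have hKC₁ : K₁ ≤ C := by linarith
  have hKC₂ : K₂ ≤ C := by linarith
  have hlogC : 0 ≤ Real.log (C * (1 + ca / Q ^ 2) * D) :=
    hlogW.trans (Real.log_le_log (by positivity) (by gcongr))
  calc 6 * (cb * BL + ca * Bm) = 6 * (cb * BL) + 6 * (ca * Bm) := by ring
    _ ≤ K₁ * m * (G ^ A₁ * (1 + Real.log D) ^ n * V₂) +
        K₂ * m * (ca * D ^ (-η) * (1 + Real.log (C * (1 + ca / Q ^ 2) * D)) ^ n) := add_le_add b1 b2
    _ ≤ C * m * (G ^ A₁ * (1 + Real.log D) ^ n * V₂) +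
        C * m * (ca * D ^ (-η) * (1 + Real.log (C * (1 + ca / Q ^ 2) * D)) ^ n) := by gcongr
    _ = _ := by ring

end Pool.Agent.T2h77.N
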