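import Pool.Agent.T2h77N.Stm2
import Pool.Agent.T2h77N.Uni

/-!
# POLAR: Lebesgue measure in polar coordinates `x = y g`
-/

set_option autoImplicit false

open MeasureTheory Matrix
open scoped MatrixGroups ENNReal NNReal Topology Pointwise

noncomputable section

namespace Pool.Agent.T2h77.N

namespace PolarPkg

variable {n : ℕ}

/-- left multiplication as a linear map -/
def lm (h : Matrix (Fin n) (Fin n) ℝ) : (Fin n → Fin n → ℝ) →ₗ[ℝ] (Fin n → Fin n → ℝ) where
  toFun x := fun i j => ∑ k, h i k * x k j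
  map_add' x y := by
    ext i j
    simp [mul_add, Finset.sum_add_distrib]
  map_smul' c x := by
    ext i j
    simp only [Pi.smul_apply, smul_eq_mul, Finset.mul_sum, RingHom.id_apply]
    exact Finset.sum_congr rfl fun k _ => by ring

theorem lm_of (h : Matrix (Fin n) (Fin n) ℝ) (x : Fin n → Fin n → ℝ) :
    Matrix.of (lm h x) = h * Matrix.of x := by
  ext i j
  rw [Matrix.mul_apply]
  rfl

theorem lm_mul (a b : Matrix (Fin n) (Fin n) ℝ) : lm (a * b) = (lm a).comp (lm b) := by
  refine LinearMap.ext fun x => ?_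
  have h : Matrix.of (lm (a * b) x) = Matrix.of (lm a (lm b x)) := by
    rw [lm_of, lm_of, lm_of, Matrix.mul_assoc]
  exact Matrix.of.injective h

theorem lm_one : lm (1 : Matrix (Fin n) (Fin n) ℝ) = LinearMap.id := by
  refine LinearMap.ext fun x => ?_
  have h : Matrix.of (lm 1 x) = Matrix.of x := by
    rw [lm_of, Matrix.one_mul]
  exact Matrix.of.injective h

/-- the determinant of the left multiplication -/
def chi : GR n →* ℝ≥0 where
  toFun h := ‖LinearMap.det (lm h.1)‖₊
  map_one' := by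
    rw [Matrix.SpecialLinearGroup.coe_one, lm_one, LinearMap.det_id]
    simp
  map_mul' a b := by
    rw [Matrix.SpecialLinearGroup.coe_mul, lm_mul, LinearMap.det_comp, nnnorm_mul]

theorem lm_det (h : GR n) : |LinearMap.det (lm h.1)| = 1 := by
  have h1 : chi h = 1 := by
    rcases subsingleton_or_nontrivial (Fin n) with hs | hs
    · have : h = 1 := by
        apply Subtype.ext
        have hd := h.2
        ext i j
        obtain rfl : i = j := Subsingleton.elim _ _
        have : Unique (Fin n) := ⟨⟨i⟩, fun a => Subsingleton.elim _ _⟩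
        rw [Matrix.det_unique] at hd
        have e : (default : Fin n) = i := Subsingleton.elim _ _
        rw [e] at hd
        rw [hd]
        simp
      rw [this, map_one]
    · exact UniPkg.hom_trivial chi h
  have h2 := congrArg NNReal.toReal h1
  simpa [chi] using h2

theorem lm_mp (h : GR n) : MeasurePreserving (lm h.1) volume volume := by
  have hd := lm_det h
  refine ⟨(LinearMap.continuous_of_finiteDimensional _).measurable, ?_⟩
  rw [Measure.map_linearMap_addHaar_eq_smul_addHaar volume (fun h0 => by rw [h0] at hd; simp at hd)]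
  rw [abs_inv, hd]
  simp

/-! ### the coordinates -/

/-- the determinant -/
def pdet (x : Fin n → Fin n → ℝ) : ℝ := (Matrix.of x).det

theorem pdet_cont : Continuous (pdet : (Fin n → Fin n → ℝ) → ℝ) :=
  Continuous.matrix_det (continuous_pi fun i => continuous_pi fun j =>
    (continuous_apply j).comp (continuous_apply i))

theorem pdet_lm (h : GR n) (x : Fin n → Fin n → ℝ) : pdet (lm h.1 x) = pdet x := by
  unfold pdet
  rw [lm_of, Matrix.det_mul, h.2, one_mul]

theorem pdet_smul (c : ℝ) (x : Fin n → Fin n → ℝ) : pdet (c • x) = c ^ n * pdet x := by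
  unfold pdet
  rw [show Matrix.of (c • x) = c • Matrix.of x from rfl, Matrix.det_smul]
  simp

/-- the radius -/
def pt (x : Fin n → Fin n → ℝ) : ℝ := pdet x ^ (1 / (n : ℝ))

theorem pt_pow (hn : 1 ≤ n) {x : Fin n → Fin n → ℝ} (hx : 0 < pdet x) : pt x ^ n = pdet x := by
  unfold pt
  rw [← Real.rpow_natCast, ← Real.rpow_mul hx.le, one_div_mul_cancel, Real.rpow_one]
  positivity

theorem pt_pos {x : Fin n → Fin n → ℝ} (hx : 0 < pdet x) : 0 < pt x := Real.rpow_pos_of_pos hx _

theorem pt_meas : Measurable (pt : (Fin n → Fin n → ℝ) → ℝ) :=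
  (pdet_cont.measurable).pow_const _

/-- the element of the group -/
def mkG (A : Matrix (Fin n) (Fin n) ℝ) (h : A.det = 1) : GR n := ⟨A, h⟩

open Classical in
/-- the angular part -/
def pphi (x : Fin n → Fin n → ℝ) : GR n :=
  if h : (Matrix.of ((pt x)⁻¹ • x)).det = 1 then mkG (Matrix.of ((pt x)⁻¹ • x)) h else 1

theorem pphi_of (hn : 1 ≤ n) {x : Fin n → Fin n → ℝ} (hx : 0 < pdet x) (i j : Fin n) :
    (pphi x) i j = (pt x)⁻¹ * x i j := by
  have h : (Matrix.of ((pt x)⁻¹ • x)).det = 1 := by
    have := pdet_smul (pt x)⁻¹ x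
    unfold pdet at this
    rw [this, inv_pow, pt_pow hn hx]
    exact inv_mul_cancel₀ hx.ne'
  unfold pphi
  rw [dif_pos h]
  rfl

theorem pphi_mul (hn : 1 ≤ n) {x : Fin n → Fin n → ℝ} (hx : 0 < pdet x) (i j : Fin n) :
    pt x * (pphi x) i j = x i j := by
  rw [pphi_of hn hx, mul_inv_cancel_left₀ (pt_pos hx).ne']

theorem pphi_meas : Measurable (pphi : (Fin n → Fin n → ℝ) → GR n) := by
  classical
  -- the underlying matrix
  set ψ : (Fin n → Fin n → ℝ) → (Fin n → Fin n → ℝ) := fun x =>
    if pdet ((pt x)⁻¹ • x) = 1 then (pt x)⁻¹ • x else fun i j => if i = j then 1 else 0 with hψ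
  have hm : Measurable fun x : Fin n → Fin n → ℝ => (pt x)⁻¹ • x := by
    refine measurable_pi_lambda _ fun i => measurable_pi_lambda _ fun j => ?_
    exact (pt_meas.inv).mul ((measurable_pi_apply j).comp (measurable_pi_apply i))
  have hψm : Measurable ψ := by
    refine Measurable.ite ?_ hm measurable_const
    exact (pdet_cont.measurable.comp hm) (measurableSet_singleton 1)
  have hval : ∀ x, (pphi x).1 = Matrix.of (ψ x) := by
    intro x
    unfold pphi
    by_cases h : (Matrix.of ((pt x)⁻¹ • x)).det = 1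
    · rw [dif_pos h, hψ]
      simp only
      rw [if_pos (show pdet ((pt x)⁻¹ • x) = 1 from h)]
      rfl
    · rw [dif_neg h, hψ]
      simp only
      rw [if_neg (show ¬ pdet ((pt x)⁻¹ • x) = 1 from h)]
      ext i j
      simp [Matrix.one_apply]
  refine measurable_of_isOpen fun U hU => ?_
  obtain ⟨V, hV, rfl⟩ := isOpen_induced_iff.mp hU
  have hV' : IsOpen {y : Fin n → Fin n → ℝ | Matrix.of y ∈ V} := hV
  have e : pphi ⁻¹' (Subtype.val ⁻¹' V) = ψ ⁻¹' {y : Fin n → Fin n → ℝ | Matrix.of y ∈ V} := by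
    ext x
    have h0 : (pphi x ∈ Subtype.val ⁻¹' V) ↔ (Matrix.of (ψ x) ∈ V) := by
      rw [← hval x]
      rfl
    exact h0
  rw [e]
  exact hψm hV'.measurableSet

theorem pphi_lm (hn : 1 ≤ n) (h : GR n) {x : Fin n → Fin n → ℝ} (hx : 0 < pdet x) :
    pphi (lm h.1 x) = h * pphi x := by
  have hx' : 0 < pdet (lm h.1 x) := by rwa [pdet_lm]
  have ht : pt (lm h.1 x) = pt x := by
    unfold pt
    rw [pdet_lm]
  apply Subtype.ext
  ext i j
  change (pphi (lm h.1 x)) i j = (h.1 * (pphi x).1) i j
  rw [pphi_of hn hx', ht, Matrix.mul_apply]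
  change (pt x)⁻¹ * ∑ k, h.1 i k * x k j = _
  rw [Finset.mul_sum]
  refine Finset.sum_congr rfl fun k _ => ?_
  have := pphi_of hn hx k j
  change _ = h.1 i k * (pphi x) k j
  rw [this]
  ring

theorem pphi_smul (hn : 1 ≤ n) {c : ℝ} (hc : 0 < c) {x : Fin n → Fin n → ℝ} (hx : 0 < pdet x) :
    pphi (c • x) = pphi x := by
  have hx' : 0 < pdet (c • x) := by
    rw [pdet_smul]
    positivity
  have ht : pt (c • x) = c * pt x := by
    unfold pt
    rw [pdet_smul, Real.mul_rpow (by positivity) hx.le, ← Real.rpow_natCast,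
      ← Real.rpow_mul hc.le, mul_one_div_cancel (by positivity), Real.rpow_one]
  apply Subtype.ext
  ext i j
  change (pphi (c • x)) i j = (pphi x) i j
  rw [pphi_of hn hx', pphi_of hn hx, ht]
  change (c * pt x)⁻¹ * (c * x i j) = _
  have := (pt_pos hx).ne'
  field_simp

/-- the part with determinant at most one -/
def pS (n : ℕ) : Set (Fin n → Fin n → ℝ) := {x | 0 < pdet x ∧ pdet x ≤ 1}

theorem pS_meas : MeasurableSet (pS n) :=
  (measurableSet_lt measurable_const pdet_cont.measurable).inter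
    (measurableSet_le pdet_cont.measurable measurable_const)

/-- the measure on the group -/
def lam (n : ℕ) : Measure (GR n) := (volume.restrict (pS n)).map pphi

theorem lam_apply {A : Set (GR n)} (hA : MeasurableSet A) :
    lam n A = volume {x : Fin n → Fin n → ℝ | (0 < pdet x ∧ pdet x ≤ 1) ∧ pphi x ∈ A} := by
  unfold lam
  rw [Measure.map_apply pphi_meas hA, Measure.restrict_apply (pphi_meas hA)]
  congr 1
  ext x
  simp only [Set.mem_inter_iff, Set.mem_preimage, pS, Set.mem_ofPred_eq]
  tauto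

theorem lam_left (hn : 1 ≤ n) : (lam n).IsMulLeftInvariant := by
  refine ⟨fun h => ?_⟩
  unfold lam
  rw [Measure.map_map (measurable_const_mul h) pphi_meas]
  have h1 : (volume.restrict (pS n)).map ((h * ·) ∘ pphi) =
      (volume.restrict (pS n)).map (pphi ∘ lm h.1) := by
    refine Measure.map_congr ?_
    refine (ae_restrict_iff' pS_meas).mpr (Filter.Eventually.of_forall fun x hx => ?_)
    exact (pphi_lm hn h hx.1).symm
  have h2 : lm h.1 ⁻¹' (pS n) = pS n := by
    ext x
    simp only [Set.mem_preimage, pS, Set.mem_ofPred_eq, pdet_lm]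
  have h3 : MeasurePreserving (lm h.1) (volume.restrict (pS n)) (volume.restrict (pS n)) := by
    have := (lm_mp h).restrict_preimage pS_meas
    rwa [h2] at this
  rw [h1, ← Measure.map_map pphi_meas h3.measurable, h3.map_eq]

theorem lam_fin (hn : 1 ≤ n) : IsFiniteMeasureOnCompacts (lam n) := by
  refine ⟨fun K hK => ?_⟩
  rw [lam_apply hK.measurableSet]
  -- bounded entries
  have hb : ∃ C : ℝ, ∀ g ∈ K, ∀ i j : Fin n, |g.1 i j| ≤ C := by
    have hc : Continuous fun g : GR n => ∑ i, ∑ j, |g.1 i j| := by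
      refine continuous_finsetSum _ fun i _ => continuous_finsetSum _ fun j _ => ?_
      exact continuous_abs.comp ((continuous_apply j).comp ((continuous_apply i).comp
        continuous_subtype_val))
    obtain ⟨C, hC⟩ := (hK.image hc).bddAbove
    refine ⟨C, fun g hg i j => ?_⟩
    have h1 := hC (Set.mem_image_of_mem _ hg)
    refine le_trans ?_ h1
    refine le_trans ?_ (Finset.single_le_sum (f := fun i => ∑ j, |g.1 i j|)
      (fun i _ => Finset.sum_nonneg fun j _ => abs_nonneg _) (Finset.mem_univ i))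
    exact Finset.single_le_sum (f := fun j => |g.1 i j|) (fun j _ => abs_nonneg _)
      (Finset.mem_univ j)
  obtain ⟨C, hC⟩ := hb
  refine lt_of_le_of_lt (measure_mono (t := Set.Icc (fun _ _ => -C) (fun _ _ => C)) ?_) ?_
  · rintro x ⟨⟨hx0, hx1⟩, hx2⟩
    have h := hC _ hx2
    have ht : pt x ≤ 1 := by
      unfold pt
      exact Real.rpow_le_one hx0.le hx1 (by positivity)
    have ht0 := pt_pos hx0
    have key : ∀ i j, |x i j| ≤ C := by
      intro i j
      rw [← pphi_mul hn hx0 i j, abs_mul, abs_of_pos ht0]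
      have h1 := h i j
      calc pt x * |(pphi x) i j| ≤ 1 * |(pphi x) i j| := by gcongr
        _ ≤ C := by rw [one_mul]; exact h1
    exact ⟨fun i j => (abs_le.mp (key i j)).1, fun i j => (abs_le.mp (key i j)).2⟩
  · exact isCompact_Icc.measure_lt_top

theorem lam_ne (hn : 1 ≤ n) : lam n ≠ 0 := by
  intro h0
  have h1 : lam n Set.univ = 0 := by rw [h0]; simp
  rw [lam_apply MeasurableSet.univ] at h1
  have ho : IsOpen {x : Fin n → Fin n → ℝ | 0 < pdet x ∧ pdet x < 1} :=
    (isOpen_lt continuous_const pdet_cont).inter (isOpen_lt pdet_cont continuous_const)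
  have hne : {x : Fin n → Fin n → ℝ | 0 < pdet x ∧ pdet x < 1}.Nonempty := by
    refine ⟨(1 / 2 : ℝ) • (fun i j => (1 : Matrix (Fin n) (Fin n) ℝ) i j), ?_⟩
    have e : pdet (fun i j => (1 : Matrix (Fin n) (Fin n) ℝ) i j) = 1 := by
      unfold pdet
      exact Matrix.det_one
    have e2 := pdet_smul (1 / 2 : ℝ) (fun i j => (1 : Matrix (Fin n) (Fin n) ℝ) i j)
    rw [e, mul_one] at e2
    simp only [Set.mem_ofPred_eq]
    rw [e2]
    refine ⟨by positivity, pow_lt_one₀ (by norm_num) (by norm_num) (by omega)⟩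
  have h2 := ho.measure_pos volume hne
  have h3 := measure_mono (μ := volume) (s := {x : Fin n → Fin n → ℝ | 0 < pdet x ∧ pdet x < 1})
    (t := {x : Fin n → Fin n → ℝ | (0 < pdet x ∧ pdet x ≤ 1) ∧ pphi x ∈ Set.univ})
    (fun x hx => ⟨⟨hx.1, hx.2.le⟩, Set.mem_univ _⟩)
  rw [h1] at h3
  exact absurd (lt_of_lt_of_le h2 h3) (lt_irrefl _)

theorem lam_eq (hn : 1 ≤ n) : ∃ c : ℝ≥0, 0 < c ∧ lam n = c • mu n := by
  have := lam_left hn
  have := lam_fin hn
  have h := Measure.isMulLeftInvariant_eq_smul (lam n) (mu n)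
  refine ⟨_, ?_, h⟩
  rw [pos_iff_ne_zero]
  intro h0
  rw [h0, zero_smul] at h
  exact lam_ne hn h

/-- scaling -/
theorem vol_scale (hn : 1 ≤ n) {Y : ℝ} (hY : 0 < Y) {A : Set (GR n)} (hA : MeasurableSet A) :
    volume {x : Fin n → Fin n → ℝ | (0 < pdet x ∧ pt x ≤ Y) ∧ pphi x ∈ A} =
      ENNReal.ofReal (Y ^ (n ^ 2)) * lam n A := by
  rw [lam_apply hA]
  have e : {x : Fin n → Fin n → ℝ | (0 < pdet x ∧ pt x ≤ Y) ∧ pphi x ∈ A} =
      Y • {x : Fin n → Fin n → ℝ | (0 < pdet x ∧ pdet x ≤ 1) ∧ pphi x ∈ A} := by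
    ext x
    rw [Set.mem_smul_set_iff_inv_smul_mem₀ hY.ne']
    simp only [Set.mem_ofPred_eq]
    have hYi : 0 < Y⁻¹ := inv_pos.mpr hY
    have h1 : (0 < pdet (Y⁻¹ • x)) ↔ 0 < pdet x := by
      rw [pdet_smul]
      constructor
      · intro h
        by_contra hc
        exact absurd h (not_lt.mpr (mul_nonpos_of_nonneg_of_nonpos (by positivity) (not_lt.mp hc)))
      · intro h
        positivity
    rw [h1]
    by_cases h0 : 0 < pdet x
    · rw [pphi_smul hn hYi h0]
      have h2 : pdet (Y⁻¹ • x) ≤ 1 ↔ pt x ≤ Y := by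
        rw [pdet_smul, ← pt_pow hn h0, ← mul_pow, pow_le_one_iff_of_nonneg
          (mul_nonneg hYi.le (pt_pos h0).le) (by omega), inv_mul_le_iff₀ hY, mul_one]
      rw [h2]
    · simp [h0]
  rw [e, Measure.addHaar_smul]
  congr 2
  have hf : Module.finrank ℝ (Fin n → Fin n → ℝ) = n ^ 2 := by
    rw [Module.finrank_pi_fintype]
    simp [sq]
  rw [hf, abs_of_pos (by positivity)]

theorem int_pow {Y : ℝ} (hn : 1 ≤ n) (hY : 0 ≤ Y) :
    ∫⁻ y in Set.Ioc 0 Y, ENNReal.ofReal (y ^ (n ^ 2 - 1)) =
      ENNReal.ofReal (Y ^ (n ^ 2) / (n ^ 2 : ℕ)) := by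
  have hn2 : 1 ≤ n ^ 2 := Nat.one_le_pow _ _ hn
  rw [← ofReal_integral_eq_lintegral_ofReal]
  · rw [← intervalIntegral.integral_of_le hY, integral_pow]
    rw [Nat.sub_add_cancel hn2, zero_pow (by omega), sub_zero]
    congr 2
    rw [Nat.cast_sub hn2]
    push_cast
    ring
  · exact (continuous_pow _).integrableOn_Ioc
  · refine (ae_restrict_iff' measurableSet_Ioc).mpr (Filter.Eventually.of_forall fun y hy => ?_)
    exact pow_nonneg hy.1.le _

end PolarPkg

open PolarPkg

theorem polar : S_polar := by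
  intro n hn
  obtain ⟨c, hc, hlam⟩ := lam_eq hn
  have hn2 : (0 : ℝ) < (n ^ 2 : ℕ) := by positivity
  refine ⟨c * (n ^ 2 : ℕ), by positivity, fun F hF => ?_⟩
  -- the radial measure
  set ρ : Measure ℝ := (volume.restrict (Set.Ioi (0 : ℝ))).withDensity
    (fun y => ENNReal.ofReal (y ^ (n ^ 2 - 1))) with hρ
  have hρm : Measurable fun y : ℝ => ENNReal.ofReal (y ^ (n ^ 2 - 1)) :=
    ENNReal.measurable_ofReal.comp (measurable_id.pow_const _)
  have hρY : ∀ Y : ℝ, ρ (Set.Iic Y) = if 0 < Y then ENNReal.ofReal (Y ^ (n ^ 2) / (n ^ 2 : ℕ)) else 0 := by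
    intro Y
    rw [hρ, withDensity_apply _ measurableSet_Iic, Measure.restrict_restrict measurableSet_Iic]
    split_ifs with h
    · rw [show Set.Iic Y ∩ Set.Ioi (0 : ℝ) = Set.Ioc 0 Y by
        ext y; simp [and_comm]]
      exact int_pow hn h.le
    · rw [show Set.Iic Y ∩ Set.Ioi (0 : ℝ) = ∅ by
        ext y
        simp only [Set.mem_inter_iff, Set.mem_Iic, Set.mem_Ioi, Set.mem_empty_iff_false, iff_false,
          not_and, not_lt]
        intro hy
        linarith]
      simp
  -- the push forward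
  set P : Set (Fin n → Fin n → ℝ) := {x | 0 < pdet x} with hP
  have hPm : MeasurableSet P := measurableSet_lt measurable_const pdet_cont.measurable
  set Φ : (Fin n → Fin n → ℝ) → ℝ × GR n := fun x => (pt x, pphi x) with hΦ
  have hΦm : Measurable Φ := pt_meas.prodMk pphi_meas
  set K : ℝ≥0 := c * (n ^ 2 : ℕ) with hK
  have key : (ρ.prod (K • mu n)) = (volume.restrict P).map Φ := by
    have hC : MeasurableSpace.generateFrom (Set.range (Set.Iic : ℝ → Set ℝ)) =
        (inferInstance : MeasurableSpace ℝ) := by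
      rw [← borel_eq_generateFrom_Iic ℝ]
      exact (BorelSpace.measurable_eq (α := ℝ)).symm
    have h3C : ρ.FiniteSpanningSetsIn (Set.range (Set.Iic : ℝ → Set ℝ)) := by
      refine ⟨fun k => Set.Iic (k : ℝ), fun k => ⟨_, rfl⟩, fun k => ?_, ?_⟩
      · rw [hρY]
        split_ifs
        · exact ENNReal.ofReal_lt_top
        · exact ENNReal.zero_lt_top
      · rw [Set.iUnion_eq_univ_iff]
        intro x
        obtain ⟨k, hk⟩ := exists_nat_ge x
        exact ⟨k, hk⟩
    refine Measure.prod_eq_generateFrom (C := Set.range (Set.Iic : ℝ → Set ℝ))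
      (D := {s : Set (GR n) | MeasurableSet s}) hC
      (MeasurableSpace.generateFrom_measurableSet) isPiSystem_Iic
      MeasurableSpace.isPiSystem_measurableSet h3C
      (Measure.toFiniteSpanningSetsIn (K • mu n)) ?_
    rintro _ ⟨Y, rfl⟩ A hA
    have hA' : MeasurableSet A := hA
    rw [Measure.map_apply hΦm (measurableSet_Iic.prod hA'),
      Measure.restrict_apply (hΦm (measurableSet_Iic.prod hA')), hρY]
    split_ifs with hY
    · have e : Φ ⁻¹' (Set.Iic Y ×ˢ A) ∩ P =
          {x : Fin n → Fin n → ℝ | (0 < pdet x ∧ pt x ≤ Y) ∧ pphi x ∈ A} := by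
        ext x
        simp only [hΦ, hP, Set.mem_inter_iff, Set.mem_preimage, Set.mem_prod, Set.mem_Iic,
          Set.mem_ofPred_eq]
        tauto
      rw [e, vol_scale hn hY hA', hlam]
      simp only [Measure.smul_apply]
      rw [ENNReal.smul_def, ENNReal.smul_def, smul_eq_mul, smul_eq_mul, ← mul_assoc, ← mul_assoc]
      congr 1
      rw [hK, ← ENNReal.ofReal_coe_nnreal, ← ENNReal.ofReal_coe_nnreal,
        ← ENNReal.ofReal_mul (by positivity), ← ENNReal.ofReal_mul (by positivity)]
      congr 1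
      push_cast
      field_simp
    · have e : Φ ⁻¹' (Set.Iic Y ×ˢ A) ∩ P = ∅ := by
        ext x
        simp only [hΦ, hP, Set.mem_inter_iff, Set.mem_preimage, Set.mem_prod, Set.mem_Iic,
          Set.mem_ofPred_eq, Set.mem_empty_iff_false, iff_false, not_and, not_lt, and_imp]
        intro h1 _
        by_contra h2
        have := pt_pos (not_le.mp h2)
        exact hY (lt_of_lt_of_le this h1)
      rw [e]
      simp
  -- the formula
  set G : ℝ × GR n → ℝ≥0∞ := fun z => F (fun i j => z.1 * (z.2 : GR n) i j) with hG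
  have hGm : Measurable G := by
    refine hF.comp (measurable_pi_lambda _ fun i => measurable_pi_lambda _ fun j => ?_)
    refine measurable_fst.mul ?_
    have hc' : Continuous fun g : GR n => g i j :=
      (continuous_apply j).comp ((continuous_apply i).comp continuous_subtype_val)
    exact hc'.measurable.comp measurable_snd
  have h1 : ∫⁻ x in {x | 0 < (Matrix.of x).det}, F x = ∫⁻ z, G z ∂((volume.restrict P).map Φ) := by
    rw [lintegral_map hGm hΦm]
    refine setLIntegral_congr_fun hPm fun x hx => ?_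
    simp only [hG, hΦ]
    congr 1
    ext i j
    exact (pphi_mul hn hx i j).symm
  rw [h1, ← key, lintegral_prod _ hGm.aemeasurable, hρ,
    lintegral_withDensity_eq_lintegral_mul _ hρm (Measurable.lintegral_prod_right' hGm)]
  simp only [Pi.mul_apply, lintegral_smul_measure, hG]
  rw [← lintegral_const_mul]
  · refine lintegral_congr fun y => ?_
    rw [ENNReal.smul_def, smul_eq_mul]
    have : (K : ℝ≥0∞) = ENNReal.ofReal ((c : ℝ) * (n ^ 2 : ℕ)) := by
      rw [hK, ← ENNReal.ofReal_coe_nnreal]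
      congr 1
    rw [this]
    ring
  · refine hρm.mul ?_
    exact Measurable.lintegral_prod_right' hGm

end Pool.Agent.T2h77.N
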