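import Pool.Agent.T2h77N.McC
import Pool.Agent.T2h77N.Polar
import Pool.Agent.T2h77N.Bart
import Pool.Agent.T2h77N.Norm

/-!
# The multiplicities of the representations which are not tempered
-/

set_option autoImplicit false

open MeasureTheory Matrix
open scoped MatrixGroups ENNReal Pointwise Topology

noncomputable section

namespace Pool.Agent.T2h77.N

/-- the volume of balls -/
theorem vol_ball (n : ℕ) (hn : 1 ≤ n) : ∃ C : ℝ, 1 ≤ C ∧ ∀ R : ℝ, 1 ≤ R →
    mu n {g | hsn g ≤ R} ≤ ENNReal.ofReal (C * R ^ (n * (n - 1))) := by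
  obtain ⟨C, hC, h⟩ := norm polar bart n 1 hn one_pos
  refine ⟨C * Real.exp 1 + 1, by
    have : 0 < C * Real.exp 1 := by positivity
    linarith, fun R hR => ?_⟩
  have hR0 : 0 < R := by linarith
  have h1 := h (1 / R) (by positivity)
  have h2 : ENNReal.ofReal (Real.exp (-1)) * mu n {g | hsn g ≤ R} ≤
      ∫⁻ g : GR n, ENNReal.ofReal (Real.exp (-1 * (1 / R * hsn g) ^ 2)) ∂(mu n) := by
    rw [← setLIntegral_const]
    refine (setLIntegral_mono' (hsn_compact R).measurableSet fun g hg => ?_).trans (setLIntegral_le_lintegral _ _)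
    refine ENNReal.ofReal_le_ofReal (Real.exp_le_exp.2 ?_)
    have h3 : 1 / R * hsn g ≤ 1 := by
      rw [one_div, inv_mul_le_iff₀ hR0, mul_one]
      exact hg
    have h4 : 0 ≤ 1 / R * hsn g := mul_nonneg (by positivity) (hsn_nonneg g)
    have h5 : (1 / R * hsn g) ^ 2 ≤ 1 := pow_le_one₀ h4 h3
    linarith
  have h3 : (1 / R) ^ (-((n : ℝ) * (n - 1))) = R ^ (n * (n - 1)) := by
    rw [one_div, Real.inv_rpow hR0.le, Real.rpow_neg hR0.le, inv_inv, ← Real.rpow_natCast]
    congr 1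
    push_cast [Nat.cast_sub hn]
    ring
  rw [h3] at h1
  have h4 := h2.trans h1
  calc mu n {g | hsn g ≤ R} = ENNReal.ofReal (Real.exp 1) * (ENNReal.ofReal (Real.exp (-1)) * mu n {g | hsn g ≤ R}) := by
        rw [← mul_assoc, ← ENNReal.ofReal_mul (Real.exp_pos 1).le, ← Real.exp_add, add_neg_cancel, Real.exp_zero,
          ENNReal.ofReal_one, one_mul]
    _ ≤ ENNReal.ofReal (Real.exp 1) * ENNReal.ofReal (C * R ^ (n * (n - 1))) := by gcongr
    _ = ENNReal.ofReal (C * Real.exp 1 * R ^ (n * (n - 1))) := by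
        rw [← ENNReal.ofReal_mul (Real.exp_pos 1).le]
        congr 1
        ring
    _ ≤ _ := by
        refine ENNReal.ofReal_le_ofReal ?_
        have : 0 < R ^ (n * (n - 1)) := by positivity
        nlinarith

/-- the cutoff function -/
def ctf {n : ℕ} (X : ℝ) (g : GR n) : ℝ := max 0 (min 1 (2 - hsn g / X))

theorem ctf_continuous {n : ℕ} (X : ℝ) : Continuous (ctf (n := n) X) := by
  unfold ctf
  have := hsn_cont (n := n)
  fun_prop

theorem ctf_nonneg {n : ℕ} (X : ℝ) (g : GR n) : 0 ≤ ctf X g := le_max_left _ _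

theorem ctf_le_one {n : ℕ} (X : ℝ) (g : GR n) : ctf X g ≤ 1 := max_le zero_le_one (min_le_left _ _)

theorem ctf_one {n : ℕ} {X : ℝ} (hX : 0 < X) {g : GR n} (hg : hsn g ≤ X) : ctf X g = 1 := by
  unfold ctf
  have h1 : hsn g / X ≤ 1 := (div_le_one hX).2 hg
  rw [min_eq_left (by linarith), max_eq_right zero_le_one]

theorem ctf_support {n : ℕ} {X : ℝ} (hX : 0 < X) {g : GR n} (hg : ctf X g ≠ 0) : hsn g ≤ 2 * X := by
  by_contra h
  push Not at h
  apply hg
  unfold ctf
  have h1 : 2 < hsn g / X := by rwa [lt_div_iff₀ hX]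
  exact max_eq_left ((min_le_right _ _).trans (by linarith))

/-- the matrix coefficient of the vectors `v` and `π(χ) w`, if `Φ` is the one of `v` and `w` -/
def smo {n : ℕ} (χ : GR n → ℝ) (Φ : GR n → ℂ) (u : GR n) : ℂ := ∫ y, (χ y : ℂ) * Φ (y⁻¹ * u) ∂(mu n)

theorem smo_continuous {n : ℕ} {χ : GR n → ℝ} (hχ : Continuous χ) (hc : HasCompactSupport χ) {Φ : GR n → ℂ}
    (hΦ : Continuous Φ) : Continuous (smo χ Φ) := by
  have e : smo χ Φ = fun u => ∫ y in tsupport χ, (χ y : ℂ) * Φ (y⁻¹ * u) ∂(mu n) := by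
    funext u
    unfold smo
    rw [setIntegral_eq_integral_of_forall_compl_eq_zero]
    intro y hy
    rw [image_eq_zero_of_notMem_tsupport hy, Complex.ofReal_zero, zero_mul]
  rw [e]
  refine continuous_parametric_integral_of_continuous (f := fun u y => (χ y : ℂ) * Φ (y⁻¹ * u)) ?_ hc
  simp only [Function.uncurry_def]
  fun_prop

theorem smo_bound {n : ℕ} {χ : GR n → ℝ} (hc : HasCompactSupport χ) {s : ℝ} (hs0 : 0 ≤ s)
    (hs : ∀ y, |χ y| ≤ s) {Φ : GR n → ℂ} (hΦ : ∀ u, ‖Φ u‖ ≤ 1) (u : GR n) :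
    ‖smo χ Φ u‖ ≤ s * (mu n (tsupport χ)).toReal := by
  unfold smo
  rw [← setIntegral_eq_integral_of_forall_compl_eq_zero (s := tsupport χ)]
  · refine norm_setIntegral_le_of_norm_le_const (IsCompact.measure_lt_top hc) fun y _ => ?_
    rw [norm_mul, Complex.norm_real]
    calc _ ≤ s * 1 := mul_le_mul (hs y) (hΦ _) (norm_nonneg _) hs0
      _ = s := mul_one s
  · intro y hy
    rw [image_eq_zero_of_notMem_tsupport hy, Complex.ofReal_zero, zero_mul]

/-- The real kernels. -/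
theorem exists_kernel {n : ℕ} {φ : GR n → ℂ} (hφ : Continuous φ) {s : ℝ} (hs : ∀ u, ‖φ u‖ ≤ s) {X V : ℝ} (hX : 0 < X)
    (hV : V ≤ ∫ u in {u : GR n | hsn u ≤ X}, ‖φ u‖ ^ 2 ∂(mu n)) :
    ∃ (κ : GR n → ℝ) (Q : ℝ), Continuous κ ∧ HasCompactSupport κ ∧ (∀ g, κ g ≠ 0 → hsn g ≤ 2 * X) ∧
      (∀ g, |κ g| ≤ s) ∧ V / 2 ≤ Q ∧ ∫ g, κ g ^ 2 ∂(mu n) ≤ Q ∧ Q ≤ ‖∫ u, (κ u : ℂ) * φ u ∂(mu n)‖ := by
  have hR : IsCompact {g : GR n | hsn g ≤ 2 * X} := hsn_compact _
  have hre : Continuous fun u => (φ u).re := Complex.continuous_re.comp hφ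
  have him : Continuous fun u => (φ u).im := Complex.continuous_im.comp hφ
  have key : ∀ ψ : GR n → ℝ, Continuous ψ → HasCompactSupport fun u => ψ u * ctf X u := by
    intro ψ _
    refine HasCompactSupport.intro hR fun u hu => ?_
    have : ctf X u = 0 := by
      by_contra h
      exact hu (ctf_support hX h)
    rw [this, mul_zero]
  have hint : ∀ ψ : GR n → ℝ, Continuous ψ → Integrable (fun u => ψ u * ctf X u) (mu n) := fun ψ hψ =>
    (hψ.mul (ctf_continuous X)).integrable_of_hasCompactSupport (key ψ hψ)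
  set V₁ : ℝ := ∫ u, (φ u).re ^ 2 * ctf X u ∂(mu n) with hV₁
  set V₂ : ℝ := ∫ u, (φ u).im ^ 2 * ctf X u ∂(mu n) with hV₂
  have hsum : V ≤ V₁ + V₂ := by
    have h1 : V₁ + V₂ = ∫ u, ‖φ u‖ ^ 2 * ctf X u ∂(mu n) := by
      have i1 : Integrable (fun u => (φ u).re ^ 2 * ctf X u) (mu n) := hint _ (hre.pow 2)
      have i2 : Integrable (fun u => (φ u).im ^ 2 * ctf X u) (mu n) := hint _ (him.pow 2)
      rw [hV₁, hV₂, ← integral_add i1 i2]
      refine integral_congr_ae (.of_forall fun u => ?_)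
      simp only
      rw [← Complex.normSq_eq_norm_sq, Complex.normSq_apply]
      ring
    rw [h1]
    refine hV.trans ?_
    rw [← integral_indicator (hsn_compact X).measurableSet]
    refine integral_mono_of_nonneg (.of_forall fun u => ?_) (hint _ (hφ.norm.pow 2)) (.of_forall fun u => ?_)
    · exact Set.indicator_nonneg (fun u _ => sq_nonneg _) u
    · simp only
      by_cases hu : u ∈ {u : GR n | hsn u ≤ X}
      · rw [Set.indicator_of_mem hu, ctf_one hX hu, mul_one]
      · rw [Set.indicator_of_notMem hu]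
        exact mul_nonneg (sq_nonneg _) (ctf_nonneg X u)
  have hκ2 : ∀ ψ : GR n → ℝ, Continuous ψ → ∫ u, (ψ u * ctf X u) ^ 2 ∂(mu n) ≤ ∫ u, ψ u ^ 2 * ctf X u ∂(mu n) := by
    intro ψ hψ
    refine integral_mono_of_nonneg (.of_forall fun u => sq_nonneg _) (hint _ (hψ.pow 2)) (.of_forall fun u => ?_)
    simp only
    rw [mul_pow]
    refine mul_le_mul_of_nonneg_left ?_ (sq_nonneg _)
    rw [pow_two]
    exact mul_le_of_le_one_left (ctf_nonneg X u) (ctf_le_one X u)
  have hint2 : ∀ ψ : GR n → ℝ, Continuous ψ → Integrable (fun u => ((ψ u * ctf X u : ℝ) : ℂ) * φ u) (mu n) := by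
    intro ψ hψ
    refine Continuous.integrable_of_hasCompactSupport ?_ ?_
    · exact (Complex.continuous_ofReal.comp (hψ.mul (ctf_continuous X))).mul hφ
    · refine HasCompactSupport.intro hR fun u hu => ?_
      have : ctf X u = 0 := by
        by_contra h
        exact hu (ctf_support hX h)
      rw [this, mul_zero, Complex.ofReal_zero, zero_mul]
  have hbd : ∀ (ψ : GR n → ℝ), (∀ u, |ψ u| ≤ ‖φ u‖) → ∀ g, |ψ g * ctf X g| ≤ s := by
    intro ψ hψ g
    rw [abs_mul, abs_of_nonneg (ctf_nonneg X g)]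
    calc |ψ g| * ctf X g ≤ |ψ g| * 1 := mul_le_mul_of_nonneg_left (ctf_le_one X g) (abs_nonneg _)
      _ = |ψ g| := mul_one _
      _ ≤ s := (hψ g).trans (hs g)
  have hsupp : ∀ (ψ : GR n → ℝ) (g : GR n), ψ g * ctf X g ≠ 0 → hsn g ≤ 2 * X := fun ψ g hg =>
    ctf_support hX (right_ne_zero_of_mul hg)
  rcases le_total V₂ V₁ with h | h
  · refine ⟨fun u => (φ u).re * ctf X u, V₁, hre.mul (ctf_continuous X), key _ hre, hsupp _,
      hbd _ fun u => Complex.abs_re_le_norm _, by linarith, hκ2 _ hre, ?_⟩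
    refine le_trans (le_of_eq ?_) (Complex.re_le_norm _)
    have e := integral_re (hint2 _ hre)
    simp only [RCLike.re_eq_complex_re] at e
    rw [← e]
    refine integral_congr_ae (.of_forall fun u => ?_)
    simp only [Complex.mul_re, Complex.ofReal_re, Complex.ofReal_im]
    ring
  · refine ⟨fun u => (φ u).im * ctf X u, V₂, him.mul (ctf_continuous X), key _ him, hsupp _,
      hbd _ fun u => Complex.abs_im_le_norm _, by linarith, hκ2 _ him, ?_⟩
    refine le_trans (le_of_eq ?_) (Complex.im_le_norm _)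
    have e := integral_im (hint2 _ him)
    simp only [RCLike.im_eq_complex_im] at e
    rw [← e]
    refine integral_congr_ae (.of_forall fun u => ?_)
    simp only [Complex.mul_im, Complex.ofReal_re, Complex.ofReal_im]
    ring

end Pool.Agent.T2h77.N
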