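import Pool.Agent.T2h77N.Defs

/-!
# Representations of `SL_n(ℝ)` in the space of cusp forms: definitions
-/

set_option autoImplicit false

open MeasureTheory Matrix
open scoped MatrixGroups ENNReal Topology

noncomputable section

namespace Pool.Agent.T2h77.N

/-- the right translate of `f` by `u` -/
def tra {n N : ℕ} {H : Subgroup (GN n N)} (u : GR n) (f : GR n → XX H → ℂ) : GR n → XX H → ℂ :=
  fun g c => f (g * u) c

/-- `χ` is the restriction to `SL_n(ℝ)` of a continuously differentiable function of compact support on the space of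
matrices -/
def IsSm {n : ℕ} (χ : GR n → ℝ) : Prop :=
  ∃ Ψ : (Fin n → Fin n → ℝ) → ℝ, ContDiff ℝ 1 Ψ ∧ HasCompactSupport Ψ ∧ ∀ g : GR n, χ g = Ψ fun i j => g i j

/-- `T` is an isometric embedding of the unitary representation `π` of `SL_n(ℝ)` in the space of the square integrable
cusp forms of level `H`, which commutes with the action of `SL_n(ℝ)` by right translations. -/
structure IsEmb {n N : ℕ} [NeZero N] {H : Subgroup (GN n N)} {E : Type} [NormedAddCommGroup E]
    [InnerProductSpace ℂ E] (F : Set (GR n)) (π : GR n →* (E ≃ₗᵢ[ℂ] E)) (T : E → GR n → XX H → ℂ) : Prop where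
  form : ∀ v, IsForm H (T v) ∧ IsL2 F (T v) ∧ IsCusp (T v)
  isometry : ∀ v w, ip F (T v) (T w) = inner ℂ w v
  equivariant : ∀ (u : GR n) (v : E) (c : XX H), ∀ᵐ g ∂(mu n), T (π u v) g c = T v (g * u) c

end Pool.Agent.T2h77.N
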