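import Pool.Agent.T2h77N.McD

/-!
# The multiplicities of the representations which are not tempered: the theorem
-/

set_option autoImplicit false

open MeasureTheory Matrix
open scoped MatrixGroups ENNReal Pointwise Topology

noncomputable section

namespace Pool.Agent.T2h77.N

set_option maxHeartbeats 1000000 in
theorem mult (n : ℕ) (hn : 3 ≤ n) : ∃ c : ℝ, 0 < c ∧
    ∀ (Φ : GR n → ℂ) (χ : GR n → ℝ) (τ c₀ X₀ : ℝ), Continuous Φ → (∀ u, ‖Φ u‖ ≤ 1) → IsSm χ → 0 < τ → τ ≤ 1 →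
      0 < c₀ → (∀ X : ℝ, X₀ ≤ X → c₀ * X ^ τ ≤ ∫ u in {u : GR n | hsn u ≤ X}, ‖smo χ Φ u‖ ^ 2 ∂(mu n)) →
    ∃ C : ℝ, 0 < C ∧ ∀ (N : ℕ) [NeZero N] (H : Subgroup (GN n N)) (F : Set (GR n)), IsFD F →
    ∀ (k : ℕ) (f h : Fin k → GR n → XX H → ℂ), (∀ i, IsForm H (f i) ∧ IsL2 F (f i)) →
      (∀ i, IsForm H (h i) ∧ IsL2 F (h i) ∧ IsCusp (h i)) →
      (∀ i j, ip F (f i) (f j) = if i = j then 1 else 0) →
      (∀ i j, ip F (h i) (h j) = if i = j then 1 else 0) →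
      (∀ i u, ip F (tra u (f i)) (h i) = Φ u) →
      (k : ℝ) ≤ C * H.index * (ixS H : ℝ) ^ (-(c * τ)) := by
  obtain ⟨η, A, hη0, hη1, hA, hmas⟩ := master n hn
  have hn1 : (1 : ℝ) ≤ n := by exact_mod_cast (by omega : 1 ≤ n)
  have hn0 : (0 : ℝ) < n := by linarith
  set ξ : ℝ := η / (4 * n ^ 2) with hξ
  have hξ0 : 0 < ξ := by positivity
  have hξn2 : 4 * (n : ℝ) ^ 2 * ξ = η := by rw [hξ]; field_simp
  have hξn : ξ * n ≤ η := by nlinarith
  have hξη : ξ ≤ η / 2 := by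
    have h1 : (1 : ℝ) ≤ (n : ℝ) ^ 2 := one_le_pow₀ hn1
    nlinarith [mul_le_mul_of_nonneg_right h1 hξ0.le]
  refine ⟨ξ / 2, by positivity, fun Φ χ τ c₀ X₀ hΦ hΦ1 hχ hτ hτ1 hc₀ hgrow => ?_⟩
  obtain ⟨C₁, hC₁, hmas⟩ := hmas χ hχ
  obtain ⟨Cb, hCb, hvol⟩ := vol_ball n (by omega)
  obtain ⟨sχ, hsχ0, hsχ⟩ := Cut.exists_bound hχ.continuous hχ.compact
  set s₀ : ℝ := sχ * (mu n (tsupport χ)).toReal with hs₀
  have hs₀0 : 0 ≤ s₀ := mul_nonneg hsχ0 ENNReal.toReal_nonneg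
  have hs₀b : ∀ u, ‖smo χ Φ u‖ ≤ s₀ := smo_bound hχ.compact hsχ0 hsχ hΦ1
  have hcont : Continuous (smo χ Φ) := smo_continuous hχ.continuous hχ.compact hΦ
  set X₁ : ℝ := max 1 X₀ with hX₁
  have hX₁1 : 1 ≤ X₁ := le_max_left _ _
  have hX₁0 : X₀ ≤ X₁ := le_max_right _ _
  set G : ℝ := (2 * X₁) ^ n with hG
  have hG1 : 1 ≤ G := one_le_pow₀ (by linarith)
  set K : ℝ := (s₀ ^ 2 * Cb ^ 2 + 1) * (2 * X₁) ^ (2 * (n * (n - 1))) with hK
  have hK0 : 0 < K := by positivity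
  set K' : ℝ := 4 * K / c₀ ^ 2 with hK'
  have hK'0 : 0 < K' := by positivity
  set B : ℝ := C₁ * (1 + K') with hB
  have hB1 : 1 ≤ B := one_le_mul_of_one_le_of_one_le hC₁ (by linarith)
  have hlogB : 0 ≤ Real.log B := Real.log_nonneg hB1
  set E : ℝ := 2 / c₀ * G ^ A + K' * (2 + Real.log B) ^ n with hE
  have hE0 : 0 < E := by positivity
  obtain ⟨Cl, hCl, hlog⟩ := log_pow_le n (ξ * τ / 2) (by positivity)
  refine ⟨C₁ * (E * Cl), by positivity, fun N _ H F hF k f h hf hh ho ho' hco => ?_⟩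
  set D : ℝ := (ixS H : ℝ) with hD
  have hD1 : 1 ≤ D := by
    rw [hD]
    exact_mod_cast ixS_pos H
  have hD0 : 0 < D := by linarith
  have hlogD : 0 ≤ Real.log D := Real.log_nonneg hD1
  set m : ℝ := (H.index : ℝ) with hm
  have hm0 : 0 ≤ m := Nat.cast_nonneg _
  set X : ℝ := X₁ * D ^ ξ with hX
  have hDξ : 1 ≤ D ^ ξ := Real.one_le_rpow hD1 hξ0.le
  have hX1 : 1 ≤ X := one_le_mul_of_one_le_of_one_le hX₁1 hDξ
  have hX0 : 0 < X := by linarith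
  have hX₀X : X₀ ≤ X := hX₁0.trans (le_mul_of_one_le_right (by linarith) hDξ)
  obtain ⟨κ, Q, hκ, hκc, hκR, hκs, hVQ, hκ2, hQ⟩ := exists_kernel hcont hs₀b hX0 (hgrow X hX₀X)
  have hXτ : D ^ (ξ * τ) ≤ X ^ τ := by
    rw [Real.rpow_mul hD0.le]
    exact Real.rpow_le_rpow (by positivity) (le_mul_of_one_le_left (by positivity) hX₁1) hτ.le
  have hQq : c₀ / 2 * D ^ (ξ * τ) ≤ Q := by
    calc c₀ / 2 * D ^ (ξ * τ) ≤ c₀ / 2 * X ^ τ := by gcongr
      _ = c₀ * X ^ τ / 2 := by ring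
      _ ≤ Q := hVQ
  have hDξτ : 1 ≤ D ^ (ξ * τ) := Real.one_le_rpow hD1 (by positivity)
  have hQc : c₀ / 2 ≤ Q := by
    refine le_trans ?_ hQq
    nlinarith
  have hQ0 : 0 < Q := by linarith [half_pos hc₀]
  set ca : ℝ := K * D ^ (η / 2) with hca
  have hca0 : 0 < ca := by positivity
  set v : ℝ := Cb * (2 * X) ^ (n * (n - 1)) with hv
  have hv0 : 0 ≤ v := by positivity
  have hpow : (2 * X) ^ (2 * (n * (n - 1))) ≤ (2 * X₁) ^ (2 * (n * (n - 1))) * D ^ (η / 2) := by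
    have e : 2 * X = 2 * X₁ * D ^ ξ := by rw [hX]; ring
    rw [e, mul_pow]
    refine mul_le_mul_of_nonneg_left ?_ (by positivity)
    rw [← Real.rpow_natCast (D ^ ξ), ← Real.rpow_mul hD0.le]
    refine Real.rpow_le_rpow_of_exponent_le hD1 ?_
    have h1 : ((2 * (n * (n - 1)) : ℕ) : ℝ) ≤ 2 * (n : ℝ) ^ 2 := by
      have : 2 * (n * (n - 1)) ≤ 2 * n ^ 2 := by
        rw [pow_two]
        exact Nat.mul_le_mul_left _ (Nat.mul_le_mul_left _ (Nat.sub_le _ _))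
      exact_mod_cast this
    calc ξ * ((2 * (n * (n - 1)) : ℕ) : ℝ) ≤ ξ * (2 * (n : ℝ) ^ 2) := by gcongr
      _ = η / 2 := by rw [← hξn2]; ring
  have hsv : (s₀ * v) ^ 2 ≤ ca := by
    calc (s₀ * v) ^ 2 = s₀ ^ 2 * Cb ^ 2 * (2 * X) ^ (2 * (n * (n - 1))) := by
          have e : (2 * X) ^ (2 * (n * (n - 1))) = ((2 * X) ^ (n * (n - 1))) ^ 2 := by
            rw [← pow_mul, mul_comm (n * (n - 1)) 2]
          rw [e, hv]
          ring
      _ ≤ (s₀ ^ 2 * Cb ^ 2 + 1) * ((2 * X₁) ^ (2 * (n * (n - 1))) * D ^ (η / 2)) := by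
          have h1 : 0 ≤ (2 * X) ^ (2 * (n * (n - 1))) := by positivity
          have h2 : 0 ≤ s₀ ^ 2 * Cb ^ 2 := by positivity
          exact mul_le_mul (by linarith) hpow h1 (by linarith)
      _ = ca := by rw [hca, hK]; ring
  have hRG : (2 * X) ^ n ≤ G * D ^ η := by
    have e : 2 * X = 2 * X₁ * D ^ ξ := by rw [hX]; ring
    rw [e, mul_pow]
    refine mul_le_mul_of_nonneg_left ?_ (by positivity)
    rw [← Real.rpow_natCast (D ^ ξ), ← Real.rpow_mul hD0.le]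
    exact Real.rpow_le_rpow_of_exponent_le hD1 hξn
  have hmain := hmas N H F hF k f h hf hh ho ho' κ (2 * X) G s₀ v ca Q Q hκ hκc (by linarith) hG1 hRG hκR hκs hv0
    (hvol (2 * X) (by linarith)) hca0 hsv hκ2 hQ0 (fun i => by
      rw [ip_Rc_Rc hF (hf i).1 (hh i).1 (hf i).2 (hh i).2.1 hκ hκc hχ.continuous hχ.compact (hco i)]
      exact hQ)
  refine hmain.trans ?_
  -- numerics
  have hcaQ : ca / Q ^ 2 ≤ K' * D ^ (η / 2) := by
    rw [div_le_iff₀ (by positivity)]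
    have h1 : (c₀ / 2) ^ 2 ≤ Q ^ 2 := pow_le_pow_left₀ (by positivity) hQc 2
    calc ca = K' * D ^ (η / 2) * (c₀ / 2) ^ 2 := by rw [hca, hK']; field_simp; norm_num
      _ ≤ K' * D ^ (η / 2) * Q ^ 2 := by gcongr
  have hDη2 : D ^ (η / 2) ≤ D := by
    calc D ^ (η / 2) ≤ D ^ (1 : ℝ) := Real.rpow_le_rpow_of_exponent_le hD1 (by linarith)
      _ = D := Real.rpow_one D
  have hlogle : 1 + Real.log (C₁ * (1 + ca / Q ^ 2) * D) ≤ (2 + Real.log B) * (1 + Real.log D) := by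
    have h1 : C₁ * (1 + ca / Q ^ 2) * D ≤ B * D ^ 2 := by
      calc C₁ * (1 + ca / Q ^ 2) * D ≤ C₁ * (D + K' * D) * D := by
            gcongr
            exact hcaQ.trans (by gcongr)
        _ = B * D ^ 2 := by rw [hB]; ring
    have h2 : 0 < C₁ * (1 + ca / Q ^ 2) * D := by positivity
    have h3 := Real.log_le_log h2 h1
    have h4 : Real.log (B * D ^ 2) = Real.log B + 2 * Real.log D := by
      rw [Real.log_mul (by positivity) (by positivity), Real.log_pow]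
      push_cast
      ring
    nlinarith [mul_nonneg hlogB hlogD]
  have hlog0 : 0 ≤ 1 + Real.log (C₁ * (1 + ca / Q ^ 2) * D) := by
    have h1 : 1 ≤ C₁ * (1 + ca / Q ^ 2) * D := by
      have : 0 ≤ ca / Q ^ 2 := by positivity
      exact one_le_mul_of_one_le_of_one_le (one_le_mul_of_one_le_of_one_le hC₁ (by linarith)) hD1
    have := Real.log_nonneg h1
    linarith
  set L : ℝ := (1 + Real.log D) ^ n with hL
  have hL0 : 0 ≤ L := by positivity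
  have hDneg : 0 < D ^ (-(ξ * τ)) := by positivity
  have p1 : G ^ A * L * Q / Q ^ 2 ≤ 2 / c₀ * G ^ A * (L * D ^ (-(ξ * τ))) := by
    have e : G ^ A * L * Q / Q ^ 2 = G ^ A * L * (1 / Q) := by field_simp
    rw [e]
    have h1 : 1 / Q ≤ 2 / c₀ * D ^ (-(ξ * τ)) := by
      rw [div_le_iff₀ hQ0]
      calc (1 : ℝ) = 2 / c₀ * D ^ (-(ξ * τ)) * (c₀ / 2 * D ^ (ξ * τ)) := by
            rw [Real.rpow_neg hD0.le]
            field_simp
        _ ≤ _ := by gcongr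
    calc G ^ A * L * (1 / Q) ≤ G ^ A * L * (2 / c₀ * D ^ (-(ξ * τ))) := by gcongr
      _ = _ := by ring
  have p2 : ca * D ^ (-η) * (1 + Real.log (C₁ * (1 + ca / Q ^ 2) * D)) ^ n / Q ^ 2 ≤
      K' * (2 + Real.log B) ^ n * (L * D ^ (-(ξ * τ))) := by
    calc ca * D ^ (-η) * (1 + Real.log (C₁ * (1 + ca / Q ^ 2) * D)) ^ n / Q ^ 2 =
        ca / Q ^ 2 * D ^ (-η) * (1 + Real.log (C₁ * (1 + ca / Q ^ 2) * D)) ^ n := by ring
      _ ≤ K' * D ^ (η / 2) * D ^ (-η) * ((2 + Real.log B) * (1 + Real.log D)) ^ n := by gcongr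
      _ = K' * (2 + Real.log B) ^ n * (L * D ^ (η / 2 + -η)) := by
          rw [Real.rpow_add hD0, mul_pow, hL]
          ring
      _ ≤ K' * (2 + Real.log B) ^ n * (L * D ^ (-(ξ * τ))) := by
          have h1 : D ^ (η / 2 + -η) ≤ D ^ (-(ξ * τ)) := by
            refine Real.rpow_le_rpow_of_exponent_le hD1 ?_
            nlinarith
          gcongr
  have p3 : L * D ^ (-(ξ * τ)) ≤ Cl * D ^ (-(ξ / 2 * τ)) := by
    calc L * D ^ (-(ξ * τ)) ≤ Cl * D ^ (ξ * τ / 2) * D ^ (-(ξ * τ)) := by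
          gcongr
          exact hlog D hD1
      _ = Cl * D ^ (ξ * τ / 2 + -(ξ * τ)) := by rw [Real.rpow_add hD0]; ring
      _ = _ := by
          congr 2
          ring
  calc C₁ * m * (G ^ A * L * Q + ca * D ^ (-η) * (1 + Real.log (C₁ * (1 + ca / Q ^ 2) * D)) ^ n) / Q ^ 2
      = C₁ * m * (G ^ A * L * Q / Q ^ 2 + ca * D ^ (-η) * (1 + Real.log (C₁ * (1 + ca / Q ^ 2) * D)) ^ n / Q ^ 2) := by
        ring
    _ ≤ C₁ * m * (2 / c₀ * G ^ A * (L * D ^ (-(ξ * τ))) + K' * (2 + Real.log B) ^ n * (L * D ^ (-(ξ * τ)))) := by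
        gcongr
    _ = C₁ * m * (E * (L * D ^ (-(ξ * τ)))) := by rw [hE]; ring
    _ ≤ C₁ * m * (E * (Cl * D ^ (-(ξ / 2 * τ)))) := by gcongr
    _ = _ := by ring

end Pool.Agent.T2h77.N
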