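import Pool.Agent.T2h77N.McE

/-!
# The multiplicities of the representations which are not tempered: the form for representations
-/

set_option autoImplicit false

open MeasureTheory Matrix
open scoped MatrixGroups ENNReal Pointwise Topology

noncomputable section

namespace Pool.Agent.T2h77.N

theorem IsEmb.coeff {n N : ℕ} [NeZero N] {H : Subgroup (GN n N)} {E : Type} [NormedAddCommGroup E]
    [InnerProductSpace ℂ E] {F : Set (GR n)} {π : GR n →* (E ≃ₗᵢ[ℂ] E)} {T : E → GR n → XX H → ℂ}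
    (h : IsEmb F π T) (u : GR n) (v w : E) : ip F (tra u (T v)) (T w) = inner ℂ w (π u v) := by
  rw [← h.isometry]
  unfold ip
  refine tsum_congr fun c => integral_congr_ae ?_
  have h1 : ∀ᵐ g ∂((mu n).restrict F), T (π u v) g c = T v (g * u) c := ae_restrict_of_ae (h.equivariant u v c)
  filter_upwards [h1] with g hg
  rw [hg]
  rfl

theorem mult_rep (n : ℕ) (hn : 3 ≤ n) : ∃ c : ℝ, 0 < c ∧
    ∀ (E : Type) [NormedAddCommGroup E] [InnerProductSpace ℂ E] [CompleteSpace E] (π : GR n →* (E ≃ₗᵢ[ℂ] E)),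
      (∀ v, Continuous fun g => π g v) →
    ∀ (v w : E) (χ : GR n → ℝ) (τ c₀ X₀ : ℝ), ‖v‖ = 1 → ‖w‖ = 1 → IsSm χ → 0 < τ → τ ≤ 1 → 0 < c₀ →
      (∀ X : ℝ, X₀ ≤ X → c₀ * X ^ τ ≤
        ∫ g in {g : GR n | hsn g ≤ X}, ‖inner ℂ (∫ y, (χ y : ℂ) • π y w ∂(mu n)) (π g v)‖ ^ 2 ∂(mu n)) →
    ∃ C : ℝ, 0 < C ∧ ∀ (N : ℕ) [NeZero N] (H : Subgroup (GN n N)) (F : Set (GR n)), IsFD F →
      ∀ (k : ℕ) (T : Fin k → E → GR n → XX H → ℂ), (∀ i, IsEmb F π (T i)) →
        (∀ i j, i ≠ j → ∀ v w, ip F (T i v) (T j w) = 0) →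
        (k : ℝ) ≤ C * H.index * (ixS H : ℝ) ^ (-(c * τ)) := by
  obtain ⟨c, hc, h⟩ := mult n hn
  refine ⟨c, hc, fun E _ _ _ π hπ v w χ τ c₀ X₀ hv hw hχ hτ hτ1 hc₀ hgrow => ?_⟩
  set Φ : GR n → ℂ := fun g => inner ℂ w (π g v) with hΦ
  have hΦc : Continuous Φ := continuous_const.inner (hπ v)
  have hΦ1 : ∀ u, ‖Φ u‖ ≤ 1 := by
    intro u
    refine (norm_inner_le_norm _ _).trans ?_
    rw [LinearIsometryEquiv.norm_map, hv, hw, mul_one]
  have key : ∀ g, inner ℂ (∫ y, (χ y : ℂ) • π y w ∂(mu n)) (π g v) = smo χ Φ g := by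
    intro g
    have hint : Integrable (fun y => (χ y : ℂ) • π y w) (mu n) := by
      refine Continuous.integrable_of_hasCompactSupport ?_ ?_
      · exact (Complex.continuous_ofReal.comp hχ.continuous).smul (hπ w)
      · refine HasCompactSupport.smul_right ?_
        exact hχ.compact.comp_left (g := Complex.ofReal) Complex.ofReal_zero
    rw [← inner_conj_symm, ← integral_inner hint, ← integral_conj]
    unfold smo
    refine integral_congr_ae (.of_forall fun y => ?_)
    simp only [hΦ]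
    rw [inner_conj_symm, inner_smul_left, Complex.conj_ofReal]
    congr 1
    have e : π g v = π y (π (y⁻¹ * g) v) := by
      have e1 : π g = π y * π (y⁻¹ * g) := by rw [← map_mul, mul_inv_cancel_left]
      rw [e1]
      rfl
    rw [e, LinearIsometryEquiv.inner_map_map]
  obtain ⟨C, hC, h⟩ := h Φ χ τ c₀ X₀ hΦc hΦ1 hχ hτ hτ1 hc₀ (fun X hX => by
    refine (hgrow X hX).trans (le_of_eq ?_)
    simp only [key])
  refine ⟨C, hC, fun N _ H F hF k T hT hTT => ?_⟩
  refine h N H F hF k (fun i => T i v) (fun i => T i w) (fun i => ⟨((hT i).form v).1, ((hT i).form v).2.1⟩)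
    (fun i => (hT i).form w) ?_ ?_ (fun i u => (hT i).coeff u v w)
  · intro i j
    by_cases hij : i = j
    · subst hij
      rw [(hT i).isometry, if_pos rfl, inner_self_eq_norm_sq_to_K, hv]
      simp
    · rw [if_neg hij, hTT i j hij]
  · intro i j
    by_cases hij : i = j
    · subst hij
      rw [(hT i).isometry, if_pos rfl, inner_self_eq_norm_sq_to_K, hw]
      simp
    · rw [if_neg hij, hTT i j hij]

end Pool.Agent.T2h77.N
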